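import Pool.Agent.Pf4.AEl

/-!
# Arithmetic of coefficient lists: semantics
-/

set_option autoImplicit false
set_option maxRecDepth 10000

open scoped BigOperators Classical

namespace Pool.Agent.Pf4

/-- MODULE AA. -/
theorem lev_pad (t : ℝ) (l m : List ℤ) : lev t (pad l m) = lev t l + lev t m := by
  induction l generalizing m with
  | nil => simp [pad, lev]
  | cons x l ih =>
    cases m with
    | nil => simp [pad, lev]
    | cons y m =>
      simp only [pad, lev, ih]
      push_cast
      ring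

/-- MODULE AA. -/
theorem lev_map (t : ℝ) (c : ℤ) (l : List ℤ) : lev t (l.map (c * ·)) = c * lev t l := by
  induction l with
  | nil => simp [lev]
  | cons x l ih =>
    simp only [List.map_cons, lev, ih]
    push_cast
    ring

/-- MODULE AA. -/
theorem lev_pml (t : ℝ) (l m : List ℤ) : lev t (pml l m) = lev t l * lev t m := by
  induction l with
  | nil => simp [pml, lev]
  | cons x l ih =>
    simp only [pml, lev_pad, lev, lev_map, ih]
    push_cast
    ring

/-- MODULE AA. -/
theorem lev_of_pz (t : ℝ) {l : List ℤ} (h : pzA l = true) : lev t l = 0 := by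
  induction l with
  | nil => simp [lev]
  | cons x l ih =>
    simp only [pzA, Bool.and_eq_true, decide_eq_true_eq] at h
    simp only [lev, h.1, ih h.2]
    simp

/-- A polynomial as a sum. -/
private theorem AA_lev_sum (t : ℝ) (l : List ℤ) : ∀ N : ℕ, l.length ≤ N →
    lev t l = ∑ k ∈ Finset.range N, ((l.getD k 0 : ℤ) : ℝ) * t ^ k := by
  induction l with
  | nil =>
    intro N _
    simp [lev]
  | cons a l ih =>
    intro N hN
    obtain ⟨N, rfl⟩ : ∃ M, N = M + 1 := ⟨N - 1, by simp at hN; omega⟩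
    rw [Finset.sum_range_succ']
    have h1 : l.length ≤ N := by simpa using hN
    simp only [lev, ih N h1, List.getD_cons_succ, List.getD_cons_zero, pow_zero, mul_one, Finset.mul_sum]
    rw [add_comm]
    congr 1
    refine Finset.sum_congr rfl fun k _ => ?_
    rw [pow_succ]
    ring

/-- MODULE AA.  Both sides are `∑ k ≤ n, l_(n-k) * t ^ k`. -/
theorem lev_rv {t : ℝ} (ht : t ≠ 0) (n : ℕ) {l : List ℤ} (hl : l.length ≤ n + 1) :
    lev t (rv n l) = t ^ n * lev t⁻¹ l := by
  have hr : (rv n l).length ≤ n + 1 := by simp [rv]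
  rw [AA_lev_sum t (rv n l) (n + 1) hr, AA_lev_sum t⁻¹ l (n + 1) hl, Finset.mul_sum,
    ← Finset.sum_range_reflect]
  refine Finset.sum_congr rfl fun k hk => ?_
  have hk' : k < n + 1 := Finset.mem_range.1 hk
  have h1 : n + 1 - 1 - k = n - k := by omega
  rw [h1]
  have h2 : (rv n l).getD (n - k) 0 = l.getD k 0 := by
    unfold rv
    rw [List.getD_eq_getElem?_getD, List.getElem?_map, List.getElem?_range (by omega)]
    have h3 : n - (n - k) = k := by omega
    simp [h3]
  rw [h2]
  have h4 : t ^ n = t ^ (n - k) * t ^ k := by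
    rw [← pow_add]
    congr 1
    omega
  rw [h4, inv_pow]
  field_simp

/-- The value of an iterated sum. -/
private theorem AA_foldr (t : ℝ) (g : ℕ → List ℤ) (L : List ℕ) :
    lev t (L.foldr (fun i s => pad (g i) s) []) = (L.map fun i => lev t (g i)).sum := by
  induction L with
  | nil => simp [lev]
  | cons a L ih => simp [lev_pad, ih]

/-- MODULE AA. -/
theorem lev_foldr (t : ℝ) (g : ℕ → List ℤ) (n : ℕ) :
    lev t ((List.range n).foldr (fun i s => pad (g i) s) []) = ∑ i ∈ Finset.range n, lev t (g i) := by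
  rw [AA_foldr]
  induction n with
  | zero => simp
  | succ n ih => rw [List.range_succ, List.map_append, List.sum_append, ih, Finset.sum_range_succ]; simp

/-- MODULE AA.  For the members of the vectors which are defined by `List.range 20`. -/
theorem getD_range {α : Type} (g : ℕ → α) (a : α) {j : ℕ} (hj : j < 20) :
    ((List.range 20).map g).getD j a = g j := by
  rw [List.getD_eq_getElem?_getD, List.getElem?_map, List.getElem?_range hj]
  rfl

variable {K : Type} [Field K] [Fintype K]

/-- MODULE AB. -/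
theorem bq_vad (v w : Vc) (x : W5 K) : bq (vad v w) x = bq v x + bq w x := by
  unfold bq vad
  rw [← Finset.sum_add_distrib]
  refine Finset.sum_congr rfl fun i _ => ?_
  rw [getD_range _ _ i.2, lev_pad, add_mul]

/-- MODULE AB. -/
theorem bq_vsc (p : List ℤ) (v : Vc) (x : W5 K) : bq (vsc p v) x = lev (qr K) p * bq v x := by
  unfold bq vsc
  rw [Finset.mul_sum]
  refine Finset.sum_congr rfl fun i _ => ?_
  rw [getD_range _ _ i.2, lev_pml, mul_assoc]

/-- MODULE AB. -/
theorem bq_vml (v : Vc) (m : List Vc) (x : W5 K) :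
    bq (vml v m) x = ∑ i : Fin 20, lev (qr K) (v.getD i []) * bq (m.getD i []) x := by
  unfold bq vml
  have h1 : ∀ j : Fin 20, lev (qr K) (((List.range 20).map fun j => (List.range 20).foldr
      (fun i s => pad (pml (v.getD i []) ((m.getD i []).getD j [])) s) []).getD j []) * bas j x =
      ∑ i : Fin 20, lev (qr K) (v.getD i []) * (lev (qr K) ((m.getD i []).getD j []) * bas j x) := by
    intro j
    rw [getD_range _ _ j.2, lev_foldr, Finset.sum_range, Finset.sum_mul]
    refine Finset.sum_congr rfl fun i _ => ?_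
    rw [lev_pml, mul_assoc]
  rw [Finset.sum_congr rfl fun j _ => h1 j, Finset.sum_comm]
  refine Finset.sum_congr rfl fun i _ => ?_
  rw [Finset.mul_sum]

/-- MODULE AB. -/
theorem bq_of_veq {v w : Vc} (h : veqA v w = true) (x : W5 K) : bq v x = bq w x := by
  unfold bq
  refine Finset.sum_congr rfl fun i _ => ?_
  have h1 : pzA (pad (v.getD i []) ((w.getD i []).map (-1 * ·))) = true := by
    unfold veqA at h
    rw [List.all_eq_true] at h
    exact h i.1 (List.mem_range.2 i.2)
  have h2 := lev_of_pz (qr K) h1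
  rw [lev_pad, lev_map] at h2
  have h3 : lev (qr K) (v.getD i []) = lev (qr K) (w.getD i []) := by
    push_cast at h2
    linarith
  rw [h3]

private theorem AC_z0 {K : Type} [Zero K] : (0 : W5 K).x0 = 0 := rfl
private theorem AC_z1 {K : Type} [Zero K] : (0 : W5 K).x1 = 0 := rfl
private theorem AC_z2 {K : Type} [Zero K] : (0 : W5 K).x2 = 0 := rfl
private theorem AC_z3 {K : Type} [Zero K] : (0 : W5 K).x3 = 0 := rfl
private theorem AC_z4 {K : Type} [Zero K] : (0 : W5 K).x4 = 0 := rfl

private theorem AC_eq0 {K : Type} [Zero K] (w : W5 K) :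
    w = 0 ↔ w.x0 = 0 ∧ w.x1 = 0 ∧ w.x2 = 0 ∧ w.x3 = 0 ∧ w.x4 = 0 := by
  rw [W5.ext_iff]
  rfl

private theorem AC_rt0 {K : Type} [Field K] (w : W5 K) : w.rt = 0 ↔ w = 0 := by
  rw [AC_eq0, AC_eq0]
  simp only [W5.rt]
  tauto

private theorem AC_tr0 {K : Type} [Field K] (w : W5 K) : w.tr = 0 ↔ w = 0 := by
  rw [AC_eq0, AC_eq0]
  simp only [W5.tr]
  tauto

private theorem AC_sw0 {K : Type} [Field K] (w : W5 K) : w.sw = 0 ↔ w = 0 := by
  rw [AC_eq0, AC_eq0]
  simp only [W5.sw]
  tauto

/-- MODULE AC. -/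
theorem bas_rt' (i : Fin 20) (w : W5 K) : bas i w.rt = bas ⟨rotI.getD i 0, by fin_cases i <;> decide⟩ w := by
  refine if_congr (and_congr (not_congr (AC_rt0 w)) ?_) rfl rfl
  fin_cases i <;> simp [bc, rotI, W5.rt, add_comm, and_comm, and_left_comm]

/-- MODULE AC. -/
theorem bas_tr' (i : Fin 20) (w : W5 K) : bas i w.tr = bas ⟨rotI'.getD i 0, by fin_cases i <;> decide⟩ w := by
  refine if_congr (and_congr (not_congr (AC_tr0 w)) ?_) rfl rfl
  fin_cases i <;> simp [bc, rotI', W5.tr, add_comm, and_comm, and_left_comm] <;> tauto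

/-- MODULE AC. -/
theorem bas_sw' (i : Fin 20) (w : W5 K) : bas i w.sw = bas ⟨swI.getD i 0, by fin_cases i <;> decide⟩ w := by
  refine if_congr (and_congr (not_congr (AC_sw0 w)) ?_) rfl rfl
  fin_cases i <;> simp [bc, swI, W5.sw, add_comm, and_comm, and_left_comm]

/-- MODULE AC.  `lev` of the coordinate `j` of `vpm r v` is the sum of the `lev v_i` with `r i = j` (`lev_foldr`); exchange the
sums. -/
theorem bq_vpm (r : List ℕ) (hr : ∀ i : Fin 20, r.getD i 0 < 20) (v : Vc) (x : W5 K) :
    bq (vpm r v) x = ∑ i : Fin 20, lev (qr K) (v.getD i []) * bas ⟨r.getD i 0, hr i⟩ x := by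
  unfold bq vpm
  have h1 : ∀ j : Fin 20, lev (qr K) (((List.range 20).map fun j => (List.range 20).foldr
      (fun i s => pad (if r.getD i 0 = j then v.getD i [] else []) s) []).getD j []) * bas j x =
      ∑ i : Fin 20, if r.getD i 0 = (j : ℕ) then lev (qr K) (v.getD i []) * bas j x else 0 := by
    intro j
    rw [getD_range _ _ j.2, lev_foldr, Finset.sum_range, Finset.sum_mul]
    refine Finset.sum_congr rfl fun i _ => ?_
    split_ifs
    · rfl
    · simp [lev]
  rw [Finset.sum_congr rfl fun j _ => h1 j, Finset.sum_comm]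
  refine Finset.sum_congr rfl fun i _ => ?_
  rw [Finset.sum_eq_single (⟨r.getD i 0, hr i⟩ : Fin 20)]
  · simp
  · intro j _ hj
    rw [if_neg]
    intro h
    exact hj (Fin.ext h.symm)
  · intro h
    exact absurd (Finset.mem_univ _) h

/-- MODULE AC. -/
theorem bq_rt (v : Vc) (x : W5 K) : bq v x.rt = bq (vpm rotI v) x := by
  rw [bq_vpm rotI (by intro i; fin_cases i <;> decide)]
  unfold bq
  refine Finset.sum_congr rfl fun i _ => ?_
  rw [bas_rt']

/-- MODULE AC. -/
theorem bq_tr (v : Vc) (x : W5 K) : bq v x.tr = bq (vpm rotI' v) x := by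
  rw [bq_vpm rotI' (by intro i; fin_cases i <;> decide)]
  unfold bq
  refine Finset.sum_congr rfl fun i _ => ?_
  rw [bas_tr']

/-- MODULE AC. -/
theorem bq_sw (v : Vc) (x : W5 K) : bq v x.sw = bq (vpm swI v) x := by
  rw [bq_vpm swI (by intro i; fin_cases i <;> decide)]
  unfold bq
  refine Finset.sum_congr rfl fun i _ => ?_
  rw [bas_sw']

private theorem AD_sm0 {K : Type} [Field K] {r : K} (hr : r ≠ 0) (w : W5 K) : w.sm r = 0 ↔ w = 0 := by
  rw [AC_eq0, AC_eq0]
  simp [W5.sm, hr]

/-- MODULE AD. -/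
theorem bas_zero (i : Fin 20) : bas i (0 : W5 K) = 0 := by
  simp [bas]

/-- MODULE AD. -/
theorem bas_sm (i : Fin 20) {r : K} (hr : r ≠ 0) (w : W5 K) : bas i (w.sm r) = bas i w := by
  refine if_congr (and_congr (not_congr (AD_sm0 hr w)) ?_) rfl rfl
  fin_cases i <;> simp [bc, W5.sm, hr, ← mul_add]

/-- MODULE AD. -/
theorem bq_zero (v : Vc) : bq v (0 : W5 K) = 0 := by
  simp [bq, bas_zero]

/-- MODULE AD. -/
theorem bq_sm (v : Vc) {r : K} (hr : r ≠ 0) (w : W5 K) : bq v (w.sm r) = bq v w := by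
  unfold bq
  refine Finset.sum_congr rfl fun i _ => ?_
  rw [bas_sm i hr]

/-- MODULE AD. -/
theorem bas_eq_bq (i : Fin 20) (w : W5 K) : bas i w = bq ((List.range 20).map fun j => if j = i.1 then [1] else []) w := by
  unfold bq
  rw [Finset.sum_eq_single i]
  · rw [getD_range _ _ i.2, if_pos rfl]
    simp [lev]
  · intro j _ hj
    rw [getD_range _ _ j.2, if_neg (fun h => hj (Fin.ext h))]
    simp [lev]
  · intro h
    exact absurd (Finset.mem_univ _) h

/-- MODULE AD. -/
theorem P3m_iso (y : K) {w : W5 K} (h : w.Iso) : (P3m y w).Iso := by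
  unfold W5.Iso P3m at *
  linear_combination y ^ 2 * h

/-- MODULE AD. -/
theorem L3m_iso (y : K) {w : W5 K} (h : w.Iso) : (L3m y w).Iso := by
  unfold W5.Iso L3m at *
  linear_combination h

/-- MODULE AD. -/
theorem M3m_iso {w : W5 K} : (M3m w).Iso := by
  unfold W5.Iso M3m
  simp

/-- MODULE AD. -/
theorem S3m_iso (a b : K) {w : W5 K} (h : w.Iso) : (S3m a b w).Iso := by
  unfold W5.Iso S3m at *
  linear_combination (a + b) ^ 2 * h

/-- MODULE AD. -/
theorem rt_iso {w : W5 K} : w.rt.Iso ↔ w.Iso := by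
  unfold W5.Iso W5.rt
  constructor <;> intro h <;> linear_combination h

/-- MODULE AD. -/
theorem tr_iso {w : W5 K} : w.tr.Iso ↔ w.Iso := by
  unfold W5.Iso W5.tr
  constructor <;> intro h <;> linear_combination h

/-- MODULE AD. -/
theorem sw_iso {w : W5 K} : w.sw.Iso ↔ w.Iso := by
  unfold W5.Iso W5.sw
  constructor <;> intro h <;> linear_combination h

/-- MODULE AD. -/
theorem P3m_eq_zero {y : K} {w : W5 K} (h : w.Iso) (h0 : w ≠ 0) :
    P3m y w = 0 ↔ y = 0 ∧ w.x1 = 0 ∧ w.x2 = 0 ∧ w.x4 = 0 := by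
  rw [AC_eq0]
  unfold P3m
  unfold W5.Iso at h
  constructor
  · rintro ⟨h1, h2, h3, h4, h5⟩
    simp only at h1 h2 h3 h4 h5
    by_cases hy : y = 0
    · subst hy
      simp only [zero_mul, zero_add] at h1 h4
      have h6 : w.x1 ^ 2 = 0 := by
        linear_combination h + (w.x1 + w.x3) * h1 - w.x0 * h4
      have h7 : w.x1 = 0 := by simpa using h6
      refine ⟨rfl, h7, ?_, h4⟩
      rw [h7, zero_add] at h1
      exact h1
    · exfalso
      apply h0
      have e1 : w.x1 = 0 := by simpa [hy] using h2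
      have e2 : w.x2 = 0 := by simpa [hy] using h3
      have e4 : w.x4 = 0 := by simpa [hy] using h5
      rw [e1, e2] at h1
      rw [e4] at h4
      have e0 : w.x0 = 0 := by simpa [hy] using h1
      have e3 : w.x3 = 0 := by simpa [hy] using h4
      exact (AC_eq0 w).2 ⟨e0, e1, e2, e3, e4⟩
  · rintro ⟨rfl, e1, e2, e4⟩
    simp [e1, e2, e4]

/-- MODULE AD. -/
theorem L3m_eq_zero {y : K} {w : W5 K} : L3m y w = 0 ↔ w = 0 := by
  rw [AC_eq0, AC_eq0]
  unfold L3m
  constructor
  · rintro ⟨h1, h2, h3, h4, h5⟩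
    simp only at h1 h2 h3 h4 h5
    rw [h1] at h4
    rw [h2, h3] at h5
    exact ⟨h1, h2, h3, by simpa using h4, by simpa using h5⟩
  · rintro ⟨h1, h2, h3, h4, h5⟩
    simp [h1, h2, h3, h4, h5]

/-- MODULE AD. -/
theorem M3m_eq_zero {w : W5 K} (h : w.Iso) : M3m w = 0 ↔ w.x0 = 0 ∧ w.x1 = 0 ∧ w.x2 = 0 := by
  rw [AC_eq0]
  unfold M3m
  unfold W5.Iso at h
  constructor
  · rintro ⟨-, -, -, h4, h5⟩
    simp only at h4 h5
    have h6 : w.x1 ^ 2 = 0 := by
      linear_combination h + (w.x1 + w.x3) * h5 - w.x4 * h4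
    have h7 : w.x1 = 0 := by simpa using h6
    refine ⟨h4, h7, ?_⟩
    rw [h7, zero_add] at h5
    exact h5
  · rintro ⟨h1, h2, h3⟩
    simp [h1, h2, h3]

/-- MODULE AD.  The number of zeros of a linear form in one variable. -/
theorem card_lin (α β : K) : (∑ y : K, if y * α + β = 0 then (1 : ℝ) else 0) =
    if α = 0 then (if β = 0 then qr K else 0) else 1 := by
  by_cases ha : α = 0
  · subst ha
    by_cases hb : β = 0
    · subst hb
      simp [qr]
    · simp [hb]
  · rw [if_neg ha, Finset.sum_eq_single (-β / α)]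
    · rw [if_pos]
      field_simp
      ring
    · intro y _ hy
      rw [if_neg]
      intro h
      apply hy
      rw [eq_div_iff ha]
      linear_combination h
    · intro h
      exact absurd (Finset.mem_univ _) h

private theorem AE_sm {K : Type} [Field K] {a b : K} (hab : a + b ≠ 0) (w : W5 K) :
    S3m a b w = (L3m (a * b / (a + b)) w).sm (a + b) := by
  unfold S3m L3m W5.sm
  ext <;> simp only
  · rw [mul_add (a + b), ← mul_assoc (a + b), mul_div_cancel₀ _ hab]
  · rw [mul_add (a + b) w.x4, ← mul_assoc (a + b), mul_div_cancel₀ _ hab]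

private theorem AE_sm0 {K : Type} [Field K] (a : K) (w : W5 K) :
    S3m a (-a) w = (M3m w).sm (-(a ^ 2)) := by
  unfold S3m M3m W5.sm
  ext <;> simp only <;> ring

private theorem AE_one {K : Type} [Field K] [Fintype K] (f : W5 K → ℝ)
    (hs : ∀ (r : K) (w : W5 K), r ≠ 0 → f (w.sm r) = f w) (w : W5 K) {a : K} (ha : a ≠ 0) :
    (∑ b : K, f (S3m a b w)) = (∑ y : K, f (L3m y w)) + f (M3m w) - f (L3m a w) := by
  have e1 : (∑ b : K, f (S3m a b w)) = ∑ c : K, f (S3m a (c - a) w) :=
    ((Equiv.subRight a).sum_comp (fun b => f (S3m a b w))).symm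
  have e2 : (∑ c : K, f (S3m a (c - a) w)) = ∑ c : K, f (S3m a (c⁻¹ - a) w) :=
    (Equiv.sum_comp ((inv_involutive (G := K)).toPerm _) (fun c => f (S3m a (c - a) w))).symm
  have e3 : ∀ c : K, f (S3m a (c⁻¹ - a) w) =
      f (L3m (a - a ^ 2 * c) w) + if c = 0 then f (M3m w) - f (L3m a w) else 0 := by
    intro c
    by_cases hc : c = 0
    · subst hc
      rw [inv_zero, zero_sub, AE_sm0, hs _ _ (neg_ne_zero.2 (pow_ne_zero 2 ha)), if_pos rfl, mul_zero, sub_zero]
      ring
    · have h1 : a + (c⁻¹ - a) ≠ 0 := by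
        rw [add_sub_cancel]
        exact inv_ne_zero hc
      rw [AE_sm h1, hs _ _ h1, if_neg hc, add_zero]
      have h2 : a * (c⁻¹ - a) / (a + (c⁻¹ - a)) = a - a ^ 2 * c := by
        rw [add_sub_cancel, div_inv_eq_mul, mul_assoc, sub_mul, inv_mul_cancel₀ hc]
        ring
      rw [h2]
  let E : K ≃ K :=
    { toFun := fun c => a - a ^ 2 * c
      invFun := fun t => (a - t) / a ^ 2
      left_inv := fun c => by
        have := pow_ne_zero 2 ha
        simp only
        field_simp
        ring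
      right_inv := fun t => by
        have := pow_ne_zero 2 ha
        simp only
        field_simp
        ring }
  have e4 : (∑ c : K, f (L3m (a - a ^ 2 * c) w)) = ∑ y : K, f (L3m y w) :=
    E.sum_comp (fun y => f (L3m y w))
  rw [e1, e2, Finset.sum_congr rfl fun c _ => e3 c, Finset.sum_add_distrib, e4, Finset.sum_ite_eq',
    if_pos (Finset.mem_univ _)]
  ring

/-- MODULE AE.  Two parallel edges: if `a + b ≠ 0`, then `S3m a b w` is `a + b` times `L3m (a * b / (a + b)) w`; for
`a = -b ≠ 0` it is `-a ^ 2` times `M3m w`; for `a = b = 0` it is `0`.  The number of `(a, b)`, `a + b ≠ 0`, with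
`a * b = t * (a + b)`, that is, `(a - t) * (b - t) = t ^ 2`, is `q - 2` for `t ≠ 0` (the solution `a = b = 0` is excluded) and
`2 * q - 2` for `t = 0`. -/
theorem S3_rule (f : W5 K → ℝ) (h0 : f 0 = 0) (hs : ∀ (r : K) (w : W5 K), r ≠ 0 → f (w.sm r) = f w) (w : W5 K) :
    (∑ a : K, ∑ b : K, f (S3m a b w)) = (qr K - 2) * (∑ y : K, f (L3m y w)) + qr K * f w + (qr K - 1) * f (M3m w) := by
  have hL0 : L3m 0 w = w := by
    unfold L3m
    ext <;> simp
  have hz : (∑ b : K, f (S3m 0 b w)) = (qr K - 1) * f w := by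
    have h1 : ∀ b : K, f (S3m 0 b w) = f w - if b = 0 then f w else 0 := by
      intro b
      by_cases hb : b = 0
      · subst hb
        have h2 : S3m (0 : K) 0 w = 0 := by
          rw [AC_eq0]
          simp [S3m]
        rw [h2, h0, if_pos rfl, sub_self]
      · have h2 : (0 : K) + b ≠ 0 := by rwa [zero_add]
        rw [AE_sm h2, hs _ _ h2, zero_mul, zero_div, hL0, if_neg hb, sub_zero]
    rw [Finset.sum_congr rfl fun b _ => h1 b, Finset.sum_sub_distrib, Finset.sum_ite_eq',
      if_pos (Finset.mem_univ _)]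
    simp [qr, sub_mul]
  have hall : ∀ a : K, (∑ b : K, f (S3m a b w)) =
      ((∑ y : K, f (L3m y w)) + f (M3m w) - f (L3m a w)) +
        if a = 0 then (qr K - 1) * f w - ((∑ y : K, f (L3m y w)) + f (M3m w) - f w) else 0 := by
    intro a
    by_cases ha : a = 0
    · subst ha
      rw [hz, if_pos rfl, hL0]
      ring
    · rw [AE_one f hs w ha, if_neg ha, add_zero]
  rw [Finset.sum_congr rfl fun a _ => hall a, Finset.sum_add_distrib, Finset.sum_sub_distrib, Finset.sum_ite_eq',
    if_pos (Finset.mem_univ _), Finset.sum_const]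
  simp only [Finset.card_univ, nsmul_eq_mul, qr]
  ring

end Pool.Agent.Pf4
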