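import Pool.Agent.Pf4.AEl

/-!
# The chain facts

`ch [(o1, i1), ..., (ok, ik)] f w` is the sum of the values of `f` at the composition of the maps of `o1, ..., ok`, the map of
`o1` is applied first.  In every statement below the two sides count the same linear forms; the pairing of the variables is given
in the docstrings and the equality of the two forms is `ring`.
-/

set_option autoImplicit false
set_option maxRecDepth 10000

open scoped BigOperators Classical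

namespace Pool.Agent.Pf4

variable {K : Type} [Field K] [Fintype K]

omit [Field K] in
private theorem CS_succ {n : ℕ} (G : (Fin (n + 1) → K) → ℝ) :
    ∑ y, G y = ∑ a : K, ∑ y : Fin n → K, G (Fin.cons a y) := by
  rw [← Fintype.sum_prod_type']
  exact (Fintype.sum_equiv (Fin.consEquiv fun _ => K) _ _ (fun _ => rfl)).symm

omit [Field K] in
private theorem CS_zero (G : (Fin 0 → K) → ℝ) : ∑ y, G y = G Fin.elim0 := by
  rw [Fintype.sum_unique]
  exact congrArg G (Subsingleton.elim _ _)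

set_option linter.unusedSectionVars false in
/-- MODULE CS.  Sums over four variables. -/
theorem sum4 (F : K → K → K → K → ℝ) :
    (∑ y : Fin 4 → K, F (y 0) (y 1) (y 2) (y 3)) = ∑ a : K, ∑ b : K, ∑ c : K, ∑ d : K, F a b c d := by
  rw [CS_succ]
  refine Finset.sum_congr rfl fun a _ => ?_
  rw [CS_succ]
  refine Finset.sum_congr rfl fun b _ => ?_
  rw [CS_succ]
  refine Finset.sum_congr rfl fun c _ => ?_
  rw [CS_succ]
  refine Finset.sum_congr rfl fun d _ => ?_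
  rw [CS_zero]
  rfl

set_option linter.unusedSectionVars false in
/-- MODULE CS.  Sums over six variables. -/
theorem sum6 (F : K → K → K → K → K → K → ℝ) :
    (∑ y : Fin 6 → K, F (y 0) (y 1) (y 2) (y 3) (y 4) (y 5)) =
      ∑ a : K, ∑ b : K, ∑ c : K, ∑ d : K, ∑ e : K, ∑ f : K, F a b c d e f := by
  rw [CS_succ]
  refine Finset.sum_congr rfl fun a _ => ?_
  rw [CS_succ]
  refine Finset.sum_congr rfl fun b _ => ?_
  rw [CS_succ]
  refine Finset.sum_congr rfl fun c _ => ?_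
  rw [CS_succ]
  refine Finset.sum_congr rfl fun d _ => ?_
  rw [CS_succ]
  refine Finset.sum_congr rfl fun e _ => ?_
  rw [CS_succ]
  refine Finset.sum_congr rfl fun f _ => ?_
  rw [CS_zero]
  rfl

/-- MODULE CS. -/
theorem sum_add (g : K → ℝ) : (∑ a : K, ∑ b : K, g (a + b)) = qr K * ∑ a : K, g a := by
  have h : ∀ a : K, ∑ b : K, g (a + b) = ∑ b : K, g b := fun a =>
    Fintype.sum_equiv (Equiv.addLeft a) _ _ (fun _ => rfl)
  rw [Finset.sum_congr rfl fun a _ => h a, Finset.sum_const, Finset.card_univ, nsmul_eq_mul]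
  rfl

omit [Field K] in
private theorem CA_swap (G : K → K → K → K → ℝ) :
    (∑ a : K, ∑ b : K, ∑ c : K, ∑ d : K, G a b c d) = ∑ a : K, ∑ c : K, ∑ b : K, ∑ d : K, G a b c d :=
  Finset.sum_congr rfl fun _ _ => Finset.sum_comm

/-- MODULE CA.  `x0` of `X` depends on `α = a + c`, `β = b + d` only and is `(P3m α (P3m β w)).x0`; `sum_add` twice. -/
theorem ca1 (w : W5 K) : (∑ y : Fin 4 → K, jJ (Lt.X .a y w)) = qr K ^ 2 * ch [(.P, 3), (.P, 3)] jJ w := by
  have h1 : ∀ a b c d : K, jJ (XA a b c d w) = jJ (P3m (b + d) (P3m (a + c) w)) := by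
    intro a b c d
    have : (XA a b c d w).x0 = (P3m (b + d) (P3m (a + c) w)).x0 := by
      simp only [XA, P3m]
      ring
    simp only [jJ, this]
  have h2 : (∑ y : Fin 4 → K, jJ (Lt.X .a y w)) =
      ∑ a : K, ∑ b : K, ∑ c : K, ∑ d : K, jJ (P3m (b + d) (P3m (a + c) w)) := by
    rw [← sum4 fun a b c d => jJ (P3m (b + d) (P3m (a + c) w))]
    exact Finset.sum_congr rfl fun y _ => h1 _ _ _ _
  rw [h2, CA_swap]
  have h3 : ∀ a c : K, (∑ b : K, ∑ d : K, jJ (P3m (b + d) (P3m (a + c) w))) =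
      qr K * ∑ t : K, jJ (P3m t (P3m (a + c) w)) := fun a c => sum_add fun t => jJ (P3m t (P3m (a + c) w))
  simp only [h3, ← Finset.mul_sum]
  rw [sum_add fun s => ∑ t : K, jJ (P3m t (P3m s w)), pow_two, mul_assoc]
  rfl

/-- MODULE CA.  `x4` of `X` is `(P1m c (P1m d (P2m a (P2m b w)))).x0`, where `P1m y w = (P3m y w.rt).tr`,
`P2m y w = (P3m y w.tr).rt`. -/
theorem ca2 (w : W5 K) :
    (∑ y : Fin 4 → K, jF (Lt.X .a y w)) = ch [(.P, 2), (.P, 2), (.P, 1), (.P, 1)] jJ w := by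
  rw [← show (∑ a : K, ∑ b : K, ∑ c : K, ∑ d : K,
      jJ (P3m d (P3m c (P3m b (P3m a w.tr).rt.tr).rt.rt).tr.rt).tr) =
      ch [(.P, 2), (.P, 2), (.P, 1), (.P, 1)] jJ w from rfl]
  rw [← sum4 fun a b c d => jJ (P3m d (P3m c (P3m b (P3m a w.tr).rt.tr).rt.rt).tr.rt).tr]
  refine Finset.sum_congr rfl fun y _ => ?_
  have : (XA (y 0) (y 1) (y 2) (y 3) w).x4 =
      (P3m (y 3) (P3m (y 2) (P3m (y 1) (P3m (y 0) w.tr).rt.tr).rt.rt).tr.rt).tr.x0 := by
    simp only [XA, P3m, W5.rt, W5.tr]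
    ring
  simp only [jJ, jF, ← this]
  rfl

/-- MODULE CA.  `x1 + x2` of `X` is `(P3m c (P3m d (S1m a b w))).x0`, `S1m a b w = (S3m a b w.rt).tr`. -/
theorem ca3 (w : W5 K) : (∑ y : Fin 4 → K, jS12 (Lt.X .a y w)) = ch [(.S, 1), (.P, 3), (.P, 3)] jJ w := by
  rw [← show (∑ a : K, ∑ b : K, ∑ c : K, ∑ d : K,
      jJ (P3m d (P3m c (S3m a b w.rt).tr))) =
      ch [(.S, 1), (.P, 3), (.P, 3)] jJ w from rfl]
  rw [← sum4 fun a b c d => jJ (P3m d (P3m c (S3m a b w.rt).tr))]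
  refine Finset.sum_congr rfl fun y _ => ?_
  have : (XA (y 0) (y 1) (y 2) (y 3) w).x1 + (XA (y 0) (y 1) (y 2) (y 3) w).x2 =
      (P3m (y 3) (P3m (y 2) (S3m (y 0) (y 1) w.rt).tr)).x0 := by
    simp only [XA, P3m, S3m, W5.rt, W5.tr]
    ring
  simp only [jJ, jS12, ← this]
  rfl

/-- MODULE CA.  `x1 + x3` of `X` is `(P3m (b + d) (P2m a (P1m c w))).x0`. -/
theorem ca4 (w : W5 K) :
    (∑ y : Fin 4 → K, jS13 (Lt.X .a y w)) = qr K * ch [(.P, 1), (.P, 2), (.P, 3)] jJ w := by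
  rw [← show (∑ c : K, ∑ a : K, ∑ t : K, jJ (P3m t (P3m a (P3m c w.rt).tr.tr).rt)) =
      ch [(.P, 1), (.P, 2), (.P, 3)] jJ w from rfl]
  have h2 : (∑ y : Fin 4 → K, jS13 (Lt.X .a y w)) =
      ∑ a : K, ∑ b : K, ∑ c : K, ∑ d : K, jJ (P3m (b + d) (P3m a (P3m c w.rt).tr.tr).rt) := by
    rw [← sum4 fun a b c d => jJ (P3m (b + d) (P3m a (P3m c w.rt).tr.tr).rt)]
    refine Finset.sum_congr rfl fun y _ => ?_
    have : (XA (y 0) (y 1) (y 2) (y 3) w).x1 + (XA (y 0) (y 1) (y 2) (y 3) w).x3 =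
        (P3m (y 1 + y 3) (P3m (y 0) (P3m (y 2) w.rt).tr.tr).rt).x0 := by
      simp only [XA, P3m, W5.rt, W5.tr]
      ring
    simp only [jJ, jS13, ← this]
    rfl
  rw [h2, CA_swap, Finset.sum_comm, Finset.mul_sum]
  refine Finset.sum_congr rfl fun c _ => ?_
  rw [Finset.mul_sum]
  exact Finset.sum_congr rfl fun a _ => sum_add fun t => jJ (P3m t (P3m a (P3m c w.rt).tr.tr).rt)


private theorem CB_sum5 (G : K → K → K → K → K → ℝ) :
    (∑ y : Fin 4 → K, ∑ z : K, G (y 0) (y 1) (y 2) (y 3) z) =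
      ∑ a : K, ∑ b : K, ∑ c : K, ∑ d : K, ∑ z : K, G a b c d z :=
  sum4 fun a b c d => ∑ z : K, G a b c d z

omit [Field K] in
private theorem CB_perm6 (G : K → K → K → K → K → ℝ) :
    (∑ a : K, ∑ b : K, ∑ c : K, ∑ d : K, ∑ z : K, G a b c d z) =
      ∑ d : K, ∑ b : K, ∑ z : K, ∑ c : K, ∑ a : K, G a b c d z := by
  have e1 : ∀ a : K, (∑ b : K, ∑ c : K, ∑ d : K, ∑ z : K, G a b c d z) =
      ∑ d : K, ∑ b : K, ∑ z : K, ∑ c : K, G a b c d z := by
    intro a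
    rw [Finset.sum_congr rfl fun b _ => Finset.sum_comm, Finset.sum_comm]
    exact Finset.sum_congr rfl fun d _ => Finset.sum_congr rfl fun b _ => Finset.sum_comm
  rw [Finset.sum_congr rfl fun a _ => e1 a, Finset.sum_comm]
  refine Finset.sum_congr rfl fun d _ => ?_
  rw [Finset.sum_comm]
  refine Finset.sum_congr rfl fun b _ => ?_
  rw [Finset.sum_comm]
  refine Finset.sum_congr rfl fun z _ => ?_
  rw [Finset.sum_comm]

omit [Field K] in
private theorem CB_perm7 (G : K → K → K → K → K → ℝ) :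
    (∑ a : K, ∑ b : K, ∑ c : K, ∑ d : K, ∑ z : K, G a b c d z) =
      ∑ z : K, ∑ d : K, ∑ c : K, ∑ b : K, ∑ a : K, G a b c d z := by
  have e1 : ∀ a b : K, (∑ c : K, ∑ d : K, ∑ z : K, G a b c d z) = ∑ z : K, ∑ d : K, ∑ c : K, G a b c d z := by
    intro a b
    rw [Finset.sum_comm, Finset.sum_congr rfl fun d _ => Finset.sum_comm, Finset.sum_comm]
  have e2 : ∀ a : K, (∑ b : K, ∑ c : K, ∑ d : K, ∑ z : K, G a b c d z) =
      ∑ z : K, ∑ d : K, ∑ c : K, ∑ b : K, G a b c d z := by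
    intro a
    rw [Finset.sum_congr rfl fun b _ => e1 a b, Finset.sum_comm]
    refine Finset.sum_congr rfl fun z _ => ?_
    rw [Finset.sum_comm]
    exact Finset.sum_congr rfl fun d _ => Finset.sum_comm
  rw [Finset.sum_congr rfl fun a _ => e2 a, Finset.sum_comm]
  refine Finset.sum_congr rfl fun z _ => ?_
  rw [Finset.sum_comm]
  refine Finset.sum_congr rfl fun d _ => ?_
  rw [Finset.sum_comm]
  exact Finset.sum_congr rfl fun c _ => Finset.sum_comm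

/-- MODULE CB.  `(P1m y X).x0 = y * X.x0 + X.x2 + X.x3` is `(P2m b (P1m d (L3m y (P3m (a + c) w)))).x0`. -/
theorem ca5 (w : W5 K) :
    (∑ y : Fin 4 → K, ch [(.P, 1)] jJ (Lt.X .a y w)) = qr K * ch [(.P, 3), (.L, 3), (.P, 1), (.P, 2)] jJ w := by
  rw [← show (∑ t : K, ∑ z : K, ∑ d : K, ∑ b : K,
      jJ (P3m b (P3m d (L3m z (P3m t w)).rt).tr.tr).rt) =
      ch [(.P, 3), (.L, 3), (.P, 1), (.P, 2)] jJ w from rfl]
  have h2 : (∑ y : Fin 4 → K, ch [(.P, 1)] jJ (Lt.X .a y w)) =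
      ∑ a : K, ∑ b : K, ∑ c : K, ∑ d : K, ∑ z : K,
        jJ (P3m b (P3m d (L3m z (P3m (a + c) w)).rt).tr.tr).rt := by
    rw [← CB_sum5 fun a b c d z => jJ (P3m b (P3m d (L3m z (P3m (a + c) w)).rt).tr.tr).rt]
    refine Finset.sum_congr rfl fun y _ => ?_
    rw [← show (∑ z : K, jJ (P3m z (Lt.X .a y w).rt).tr) = ch [(.P, 1)] jJ (Lt.X .a y w) from rfl]
    refine Finset.sum_congr rfl fun z _ => ?_
    have : (P3m z (XA (y 0) (y 1) (y 2) (y 3) w).rt).tr.x0 =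
        (P3m (y 1) (P3m (y 3) (L3m z (P3m (y 0 + y 2) w)).rt).tr.tr).rt.x0 := by
      simp only [XA, P3m, L3m, W5.rt, W5.tr]
      ring
    simp only [jJ, ← this]
    rfl
  rw [h2, CA_swap]
  have h3 : ∀ a c : K, (∑ b : K, ∑ d : K, ∑ z : K, jJ (P3m b (P3m d (L3m z (P3m (a + c) w)).rt).tr.tr).rt) =
      ∑ z : K, ∑ d : K, ∑ b : K, jJ (P3m b (P3m d (L3m z (P3m (a + c) w)).rt).tr.tr).rt := by
    intro a c
    rw [Finset.sum_comm]
    rw [Finset.sum_congr rfl fun d _ => Finset.sum_comm, Finset.sum_comm]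
  simp only [h3]
  exact sum_add fun t => ∑ z : K, ∑ d : K, ∑ b : K, jJ (P3m b (P3m d (L3m z (P3m t w)).rt).tr.tr).rt

/-- MODULE CB.  `(L1m y X).x4 = X.x4 + y * (X.x2 + X.x3)` is `(P2m a (P1m c (L3m y (P2m b (P1m d w))))).x0`. -/
theorem ca6 (w : W5 K) :
    (∑ y : Fin 4 → K, ch [(.L, 1)] jF (Lt.X .a y w)) =
      ch [(.P, 1), (.P, 2), (.L, 3), (.P, 1), (.P, 2)] jJ w := by
  rw [← show (∑ d : K, ∑ b : K, ∑ z : K, ∑ c : K, ∑ a : K,
      jJ (P3m a (P3m c (L3m z (P3m b (P3m d w.rt).tr.tr).rt).rt).tr.tr).rt) =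
      ch [(.P, 1), (.P, 2), (.L, 3), (.P, 1), (.P, 2)] jJ w from rfl]
  have h2 : (∑ y : Fin 4 → K, ch [(.L, 1)] jF (Lt.X .a y w)) =
      ∑ a : K, ∑ b : K, ∑ c : K, ∑ d : K, ∑ z : K,
        jJ (P3m a (P3m c (L3m z (P3m b (P3m d w.rt).tr.tr).rt).rt).tr.tr).rt := by
    rw [← CB_sum5 fun a b c d z => jJ (P3m a (P3m c (L3m z (P3m b (P3m d w.rt).tr.tr).rt).rt).tr.tr).rt]
    refine Finset.sum_congr rfl fun y _ => ?_
    rw [← show (∑ z : K, jF (L3m z (Lt.X .a y w).rt).tr) = ch [(.L, 1)] jF (Lt.X .a y w) from rfl]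
    refine Finset.sum_congr rfl fun z _ => ?_
    have : (L3m z (XA (y 0) (y 1) (y 2) (y 3) w).rt).tr.x4 =
        (P3m (y 0) (P3m (y 2) (L3m z (P3m (y 1) (P3m (y 3) w.rt).tr.tr).rt).rt).tr.tr).rt.x0 := by
      simp only [XA, P3m, L3m, W5.rt, W5.tr]
      ring
    simp only [jJ, jF, ← this]
    rfl
  exact h2.trans (CB_perm6 _)

/-- MODULE CB.  `(L3m y X).x4 = X.x4 + y * (X.x1 + X.x2)` is `(P2m a (P2m b (P1m c (P1m d (L3m y w))))).x0`. -/
theorem ca7 (w : W5 K) :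
    (∑ y : Fin 4 → K, ch [(.L, 3)] jF (Lt.X .a y w)) =
      ch [(.L, 3), (.P, 1), (.P, 1), (.P, 2), (.P, 2)] jJ w := by
  rw [← show (∑ z : K, ∑ d : K, ∑ c : K, ∑ b : K, ∑ a : K,
      jJ (P3m a (P3m b (P3m c (P3m d (L3m z w).rt).tr.rt).tr.tr).rt.tr).rt) =
      ch [(.L, 3), (.P, 1), (.P, 1), (.P, 2), (.P, 2)] jJ w from rfl]
  have h2 : (∑ y : Fin 4 → K, ch [(.L, 3)] jF (Lt.X .a y w)) =
      ∑ a : K, ∑ b : K, ∑ c : K, ∑ d : K, ∑ z : K,
        jJ (P3m a (P3m b (P3m c (P3m d (L3m z w).rt).tr.rt).tr.tr).rt.tr).rt := by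
    rw [← CB_sum5 fun a b c d z => jJ (P3m a (P3m b (P3m c (P3m d (L3m z w).rt).tr.rt).tr.tr).rt.tr).rt]
    refine Finset.sum_congr rfl fun y _ => ?_
    rw [← show (∑ z : K, jF (L3m z (Lt.X .a y w))) = ch [(.L, 3)] jF (Lt.X .a y w) from rfl]
    refine Finset.sum_congr rfl fun z _ => ?_
    have : (L3m z (XA (y 0) (y 1) (y 2) (y 3) w)).x4 =
        (P3m (y 0) (P3m (y 1) (P3m (y 2) (P3m (y 3) (L3m z w).rt).tr.rt).tr.tr).rt.tr).rt.x0 := by
      simp only [XA, P3m, L3m, W5.rt, W5.tr]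
      ring
    simp only [jJ, jF, ← this]
    rfl
  exact h2.trans (CB_perm7 _)

omit [Field K] in
private theorem CC_pull3 (G : K → K → K → ℝ) :
    (∑ a : K, ∑ b : K, ∑ c : K, G a b c) = ∑ c : K, ∑ a : K, ∑ b : K, G a b c := by
  rw [Finset.sum_congr rfl fun a _ => Finset.sum_comm, Finset.sum_comm]

omit [Field K] in
private theorem CC_pull4 (G : K → K → K → K → ℝ) :
    (∑ a : K, ∑ b : K, ∑ c : K, ∑ d : K, G a b c d) = ∑ d : K, ∑ a : K, ∑ b : K, ∑ c : K, G a b c d := by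
  rw [Finset.sum_congr rfl fun a _ => CC_pull3 (fun b c d => G a b c d), Finset.sum_comm]

private theorem CC_shift (a : K) (g : K → ℝ) : (∑ b : K, g (a + b)) = ∑ b : K, g b :=
  Fintype.sum_equiv (Equiv.addLeft a) _ _ (fun _ => rfl)

omit [Field K] in
private theorem CC_const (r : ℝ) : (∑ _a : K, r) = qr K * r := by
  rw [Finset.sum_const, Finset.card_univ, nsmul_eq_mul]
  rfl

private theorem CC_s1 (G : K → K → K → ℝ) :
    (∑ a : K, ∑ b : K, ∑ c : K, ∑ d : K, ∑ e : K, ∑ f : K, G (c + e) (a + f) (b + d)) =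
      qr K ^ 3 * ∑ c : K, ∑ a : K, ∑ b : K, G c a b := by
  have h1 : ∀ a b c d e : K, (∑ f : K, G (c + e) (a + f) (b + d)) = ∑ f : K, G (c + e) f (b + d) :=
    fun a b c d e => CC_shift a fun f => G (c + e) f (b + d)
  have h2 : ∀ c d : K, (∑ e : K, ∑ f : K, G (c + e) f d) = ∑ e : K, ∑ f : K, G e f d :=
    fun c d => CC_shift c fun e => ∑ f : K, G e f d
  have h3 : ∀ b c : K, (∑ d : K, ∑ e : K, ∑ f : K, G (c + e) f (b + d)) =
      ∑ d : K, ∑ e : K, ∑ f : K, G (c + e) f d :=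
    fun b c => CC_shift b fun d => ∑ e : K, ∑ f : K, G (c + e) f d
  simp only [h1]
  simp only [h3]
  simp only [h2]
  simp only [CC_const]
  have h4 : (∑ d : K, ∑ e : K, ∑ f : K, G e f d) = ∑ c : K, ∑ a : K, ∑ b : K, G c a b := by
    rw [Finset.sum_comm]
    exact Finset.sum_congr rfl fun e _ => Finset.sum_comm
  rw [h4]
  ring

/-- MODULE CC.  `x0` of `X` is `(P3m (b + d) (P2m (a + f) (P1m (c + e) w))).x0`, or any other assignment of
`α = a + f, β = b + d, γ = c + e` for which the forms agree: `X0 = x0 α β γ + x1 γ (α + β) + x2 α (β + γ) + x3 β (α + γ) +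
x4 (α + β + γ)`. -/
theorem chh1 (w : W5 K) :
    (∑ y : Fin 6 → K, jJ (Lt.X .h y w)) = qr K ^ 3 * ch [(.P, 1), (.P, 2), (.P, 3)] jJ w := by
  rw [← show (∑ c : K, ∑ a : K, ∑ b : K, jJ (P3m b (P3m a (P3m c w.rt).tr.tr).rt)) =
      ch [(.P, 1), (.P, 2), (.P, 3)] jJ w from rfl]
  rw [← CC_s1 fun c a b => jJ (P3m b (P3m a (P3m c w.rt).tr.tr).rt)]
  rw [← sum6 fun a b c d e f => jJ (P3m (b + d) (P3m (a + f) (P3m (c + e) w.rt).tr.tr).rt)]
  refine Finset.sum_congr rfl fun y _ => ?_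
  have : (XH (y 0) (y 1) (y 2) (y 3) (y 4) (y 5) w).x0 =
      (P3m (y 1 + y 3) (P3m (y 0 + y 5) (P3m (y 2 + y 4) w.rt).tr.tr).rt).x0 := by
    simp only [XH, P3m, W5.rt, W5.tr]
    ring
  simp only [jJ, ← this]
  rfl

private theorem CC_s2 (G : K → K → K → K → K → ℝ) :
    (∑ a : K, ∑ b : K, ∑ c : K, ∑ d : K, ∑ e : K, ∑ f : K, G (c + e) a b f d) =
      qr K * ∑ e : K, ∑ a : K, ∑ b : K, ∑ f : K, ∑ d : K, G e a b f d := by
  have h2 : ∀ a b c d : K, (∑ e : K, ∑ f : K, G (c + e) a b f d) = ∑ e : K, ∑ f : K, G e a b f d :=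
    fun a b c d => CC_shift c fun e => ∑ f : K, G e a b f d
  simp only [h2]
  simp only [CC_const, ← Finset.mul_sum]
  rw [CC_pull4 fun a b d e => ∑ f : K, G e a b f d]
  refine congrArg (fun r => qr K * r) ?_
  exact Finset.sum_congr rfl fun e _ => Finset.sum_congr rfl fun a _ => Finset.sum_congr rfl fun b _ =>
    Finset.sum_comm

/-- MODULE CC.  `x2 + x3` of `X` is `(P3m d (P2m f (S1m a b (P1m (c + e) w)))).x0`. -/
theorem chh2 (w : W5 K) :
    (∑ y : Fin 6 → K, jS23 (Lt.X .h y w)) = qr K * ch [(.P, 1), (.S, 1), (.P, 2), (.P, 3)] jJ w := by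
  rw [← show (∑ t : K, ∑ a : K, ∑ b : K, ∑ f : K, ∑ d : K,
      jJ (P3m d (P3m f (S3m a b (P3m t w.rt).tr.rt).tr.tr).rt)) =
      ch [(.P, 1), (.S, 1), (.P, 2), (.P, 3)] jJ w from rfl]
  rw [← CC_s2 fun t a b f d => jJ (P3m d (P3m f (S3m a b (P3m t w.rt).tr.rt).tr.tr).rt)]
  rw [← sum6 fun a b c d e f => jJ (P3m d (P3m f (S3m a b (P3m (c + e) w.rt).tr.rt).tr.tr).rt)]
  refine Finset.sum_congr rfl fun y _ => ?_
  have : (XH (y 0) (y 1) (y 2) (y 3) (y 4) (y 5) w).x2 + (XH (y 0) (y 1) (y 2) (y 3) (y 4) (y 5) w).x3 =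
      (P3m (y 3) (P3m (y 5) (S3m (y 0) (y 1) (P3m (y 2 + y 4) w.rt).tr.rt).tr.tr).rt).x0 := by
    simp only [XH, P3m, S3m, W5.rt, W5.tr]
    ring
  simp only [jJ, jS23, ← this]
  rfl

omit [Field K] in
private theorem CD_pull3 (G : K → K → K → ℝ) :
    (∑ a : K, ∑ b : K, ∑ c : K, G a b c) = ∑ c : K, ∑ a : K, ∑ b : K, G a b c := by
  rw [Finset.sum_congr rfl fun a _ => Finset.sum_comm, Finset.sum_comm]

omit [Field K] in
private theorem CD_pull4 (G : K → K → K → K → ℝ) :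
    (∑ a : K, ∑ b : K, ∑ c : K, ∑ d : K, G a b c d) = ∑ d : K, ∑ a : K, ∑ b : K, ∑ c : K, G a b c d := by
  rw [Finset.sum_congr rfl fun a _ => CD_pull3 (fun b c d => G a b c d), Finset.sum_comm]

private theorem CD_shift (a : K) (g : K → ℝ) : (∑ b : K, g (a + b)) = ∑ b : K, g b :=
  Fintype.sum_equiv (Equiv.addLeft a) _ _ (fun _ => rfl)

omit [Field K] in
private theorem CD_const (r : ℝ) : (∑ _a : K, r) = qr K * r := by
  rw [Finset.sum_const, Finset.card_univ, nsmul_eq_mul]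
  rfl

private theorem CD_sum7 (G : K → K → K → K → K → K → K → ℝ) :
    (∑ y : Fin 6 → K, ∑ z : K, G (y 0) (y 1) (y 2) (y 3) (y 4) (y 5) z) =
      ∑ a : K, ∑ b : K, ∑ c : K, ∑ d : K, ∑ e : K, ∑ f : K, ∑ z : K, G a b c d e f z :=
  sum6 fun a b c d e f => ∑ z : K, G a b c d e f z

private theorem CD_s3 (G : K → K → K → K → K → K → ℝ) :
    (∑ a : K, ∑ b : K, ∑ c : K, ∑ d : K, ∑ e : K, ∑ f : K, ∑ z : K, G (c + e) d f z a b) =
      qr K * ∑ e : K, ∑ d : K, ∑ f : K, ∑ z : K, ∑ a : K, ∑ b : K, G e d f z a b := by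
  have h2 : ∀ a b c d : K, (∑ e : K, ∑ f : K, ∑ z : K, G (c + e) d f z a b) =
      ∑ e : K, ∑ f : K, ∑ z : K, G e d f z a b :=
    fun a b c d => CD_shift c fun e => ∑ f : K, ∑ z : K, G e d f z a b
  simp only [h2]
  simp only [CD_const, ← Finset.mul_sum]
  rw [CD_pull4 fun a b d e => ∑ f : K, ∑ z : K, G e d f z a b]
  refine congrArg (fun r => qr K * r) ?_
  refine Finset.sum_congr rfl fun e _ => ?_
  rw [CD_pull3 fun a b d => ∑ f : K, ∑ z : K, G e d f z a b]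
  refine Finset.sum_congr rfl fun d _ => ?_
  rw [CD_pull3 fun a b f => ∑ z : K, G e d f z a b]
  exact Finset.sum_congr rfl fun f _ => CD_pull3 fun a b z => G e d f z a b

omit [Field K] in
private theorem CD_s4 (G : K → K → K → K → K → K → K → ℝ) :
    (∑ a : K, ∑ b : K, ∑ c : K, ∑ d : K, ∑ e : K, ∑ f : K, ∑ z : K, G a b f d z e c) =
      ∑ a : K, ∑ b : K, ∑ f : K, ∑ d : K, ∑ z : K, ∑ e : K, ∑ c : K, G a b f d z e c := by
  refine Finset.sum_congr rfl fun a _ => Finset.sum_congr rfl fun b _ => ?_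
  rw [CD_pull4 fun c d e f => ∑ z : K, G a b f d z e c]
  refine Finset.sum_congr rfl fun f _ => ?_
  rw [Finset.sum_comm]
  refine Finset.sum_congr rfl fun d _ => ?_
  rw [CD_pull3 fun c e z => G a b f d z e c]
  exact Finset.sum_congr rfl fun z _ => Finset.sum_comm

/-- MODULE CD.  `(P1m y X).x0` is `(P3m b (P2m a (P1m y (L3m f (L2m d (P1m (c + e) w)))))).x0`. -/
theorem chh3 (w : W5 K) :
    (∑ y : Fin 6 → K, ch [(.P, 1)] jJ (Lt.X .h y w)) =
      qr K * ch [(.P, 1), (.L, 2), (.L, 3), (.P, 1), (.P, 2), (.P, 3)] jJ w := by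
  rw [← show (∑ t : K, ∑ d : K, ∑ f : K, ∑ z : K, ∑ a : K, ∑ b : K,
      jJ (P3m b (P3m a (P3m z (L3m f (L3m d (P3m t w.rt).tr.tr).rt).rt).tr.tr).rt)) =
      ch [(.P, 1), (.L, 2), (.L, 3), (.P, 1), (.P, 2), (.P, 3)] jJ w from rfl]
  rw [← CD_s3 fun t d f z a b => jJ (P3m b (P3m a (P3m z (L3m f (L3m d (P3m t w.rt).tr.tr).rt).rt).tr.tr).rt)]
  rw [← CD_sum7 fun a b c d e f z =>
    jJ (P3m b (P3m a (P3m z (L3m f (L3m d (P3m (c + e) w.rt).tr.tr).rt).rt).tr.tr).rt)]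
  refine Finset.sum_congr rfl fun y _ => ?_
  rw [← show (∑ z : K, jJ (P3m z (Lt.X .h y w).rt).tr) = ch [(.P, 1)] jJ (Lt.X .h y w) from rfl]
  refine Finset.sum_congr rfl fun z _ => ?_
  have : (P3m z (XH (y 0) (y 1) (y 2) (y 3) (y 4) (y 5) w).rt).tr.x0 =
      (P3m (y 1) (P3m (y 0) (P3m z (L3m (y 5) (L3m (y 3) (P3m (y 2 + y 4) w.rt).tr.tr).rt).rt).tr.tr).rt).x0 := by
    simp only [XH, P3m, L3m, W5.rt, W5.tr]
    ring
  simp only [jJ, ← this]
  rfl

/-- MODULE CD.  `(L1m y X).x4` is `(P3m c (P2m e (L1m y (P3m d (P2m f (S1m a b w)))))).x0`. -/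
theorem chh4 (w : W5 K) :
    (∑ y : Fin 6 → K, ch [(.L, 1)] jF (Lt.X .h y w)) =
      ch [(.S, 1), (.P, 2), (.P, 3), (.L, 1), (.P, 2), (.P, 3)] jJ w := by
  rw [← show (∑ a : K, ∑ b : K, ∑ f : K, ∑ d : K, ∑ z : K, ∑ e : K, ∑ c : K,
      jJ (P3m c (P3m e (L3m z (P3m d (P3m f (S3m a b w.rt).tr.tr).rt).rt).tr.tr).rt)) =
      ch [(.S, 1), (.P, 2), (.P, 3), (.L, 1), (.P, 2), (.P, 3)] jJ w from rfl]
  rw [← CD_s4 fun a b f d z e c =>
    jJ (P3m c (P3m e (L3m z (P3m d (P3m f (S3m a b w.rt).tr.tr).rt).rt).tr.tr).rt)]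
  rw [← CD_sum7 fun a b c d e f z =>
    jJ (P3m c (P3m e (L3m z (P3m d (P3m f (S3m a b w.rt).tr.tr).rt).rt).tr.tr).rt)]
  refine Finset.sum_congr rfl fun y _ => ?_
  rw [← show (∑ z : K, jF (L3m z (Lt.X .h y w).rt).tr) = ch [(.L, 1)] jF (Lt.X .h y w) from rfl]
  refine Finset.sum_congr rfl fun z _ => ?_
  have : (L3m z (XH (y 0) (y 1) (y 2) (y 3) (y 4) (y 5) w).rt).tr.x4 =
      (P3m (y 2) (P3m (y 4) (L3m z (P3m (y 3) (P3m (y 5) (S3m (y 0) (y 1) w.rt).tr.tr).rt).rt).tr.tr).rt).x0 := by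
    simp only [XH, P3m, L3m, S3m, W5.rt, W5.tr]
    ring
  simp only [jJ, jF, ← this]
  rfl

omit [Fintype K] in
private theorem CE_b0 (w : W5 K) : bas 0 w = if w = 0 then 0 else 1 := by
  by_cases hw : w = 0
  · simp [bas, hw]
  · have : bc (0 : Fin 20) w := trivial
    simp only [bas, hw, this, ne_eq, not_false_eq_true, and_self, if_true, if_false]

omit [Fintype K] in
private theorem CE_b {i : Fin 20} {c : Prop} (w : W5 K) (h : bc i w ↔ c) :
    bas i w = if w = 0 then 0 else if c then 1 else 0 := by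
  by_cases hw : w = 0
  · simp [bas, hw]
  · by_cases hc : c
    · have : bc i w := h.2 hc
      simp only [bas, hw, this, hc, ne_eq, not_false_eq_true, and_self, if_true, if_false]
    · have : ¬ bc i w := fun q => hc (h.1 q)
      simp only [bas, hw, this, hc, ne_eq, not_false_eq_true, and_false, if_false]

omit [Fintype K] in
private theorem CE_j {i : Fin 20} {x : K} (w : W5 K) (h : bc i w ↔ x = 0) (h0 : w = 0 → x = 0) :
    (if x = 0 then (0 : ℝ) else 1) = bas 0 w - bas i w := by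
  rw [CE_b0, CE_b w h]
  by_cases hw : w = 0
  · rw [if_pos (h0 hw), if_pos hw, if_pos hw, sub_zero]
  · by_cases hx : x = 0 <;> simp [hw, hx]

private theorem CE_cnt (u v : K) :
    (∑ y : K, (if y * u + v = 0 then (0 : ℝ) else 1)) =
      if u = 0 then (if v = 0 then 0 else qr K) else qr K - 1 := by
  have hq : qr K = ∑ _y : K, (1 : ℝ) := by
    rw [Finset.sum_const, Finset.card_univ, nsmul_eq_mul, mul_one]
    rfl
  by_cases hu : u = 0
  · rw [if_pos hu]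
    by_cases hv : v = 0
    · rw [if_pos hv]
      refine Finset.sum_eq_zero fun y _ => ?_
      rw [if_pos (by rw [hu, hv, mul_zero, add_zero])]
    · rw [if_neg hv, hq]
      refine Finset.sum_congr rfl fun y _ => ?_
      rw [if_neg (by rw [hu, mul_zero, zero_add]; exact hv)]
  · rw [if_neg hu, hq]
    have h1 : (∑ y : K, (if y * u + v = 0 then (0 : ℝ) else 1)) =
        (∑ _y : K, (1 : ℝ)) - ∑ y : K, if y = -v / u then (1 : ℝ) else 0 := by
      rw [← Finset.sum_sub_distrib]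
      refine Finset.sum_congr rfl fun y _ => ?_
      have : y * u + v = 0 ↔ y = -v / u := by
        rw [eq_div_iff hu]
        exact ⟨fun h => by linear_combination h, fun h => by linear_combination h⟩
      by_cases hy : y = -v / u
      · rw [if_pos (this.2 hy), if_pos hy, sub_self]
      · rw [if_neg (fun q => hy (this.1 q)), if_neg hy, sub_zero]
    rw [h1, Finset.sum_ite_eq' Finset.univ (-v / u) (fun _ => (1 : ℝ)), if_pos (Finset.mem_univ _)]

omit [Fintype K] in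
private theorem CE_two {p r s : K} (h : r + s = 0) (h2 : p * (r + s) + r * s = 0) : r = 0 ∧ s = 0 := by
  have h3 : r * s = 0 := by rw [h, mul_zero, zero_add] at h2; exact h2
  rcases mul_eq_zero.1 h3 with h4 | h4
  · exact ⟨h4, by rw [h4, zero_add] at h; exact h⟩
  · exact ⟨by rw [h4, add_zero] at h; exact h, h4⟩

private theorem CE_final {i j : Fin 20} {u v : K} {c : Prop} (w : W5 K) (hi : bc i w ↔ u = 0) (hj : bc j w ↔ c)
    (hc : c ↔ u = 0 ∧ v = 0) (h0 : w = 0 → u = 0 ∧ v = 0) :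
    (if u = 0 then (if v = 0 then 0 else qr K) else qr K - 1) =
      (qr K - 1) * bas 0 w + bas i w - qr K * bas j w := by
  rw [CE_b0, CE_b w hi, CE_b w hj]
  by_cases hw : w = 0
  · rw [if_pos (h0 hw).1, if_pos (h0 hw).2]
    simp [hw]
  · by_cases hu : u = 0
    · by_cases hv : v = 0
      · rw [if_pos hu, if_pos hv, if_neg hw, if_neg hw, if_neg hw, if_pos hu, if_pos (hc.2 ⟨hu, hv⟩)]
        ring
      · rw [if_pos hu, if_neg hv, if_neg hw, if_neg hw, if_neg hw, if_pos hu,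
          if_neg (fun q => hv (hc.1 q).2)]
        ring
    · rw [if_neg hu, if_neg hw, if_neg hw, if_neg hw, if_neg hu, if_neg (fun q => hu (hc.1 q).1)]
      ring

set_option linter.unusedSectionVars false in
/-- MODULE CE.  For `w.Iso`: `1 - x0` etc. in terms of the twenty functions (all vectors, `w = 0` included). -/
theorem jJ_eq (w : W5 K) : jJ w = bas 0 w - bas 1 w :=
  CE_j w Iff.rfl fun h => by rw [h]; rfl

set_option linter.unusedSectionVars false in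
/-- MODULE CE. -/
theorem jF_eq (w : W5 K) : jF w = bas 0 w - bas 2 w :=
  CE_j w Iff.rfl fun h => by rw [h]; rfl

set_option linter.unusedSectionVars false in
/-- MODULE CE. -/
theorem jS12_eq (w : W5 K) : jS12 w = bas 0 w - bas 8 w :=
  CE_j w Iff.rfl fun h => by rw [h]; exact add_zero _

set_option linter.unusedSectionVars false in
/-- MODULE CE. -/
theorem jS13_eq (w : W5 K) : jS13 w = bas 0 w - bas 7 w :=
  CE_j w Iff.rfl fun h => by rw [h]; exact add_zero _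

set_option linter.unusedSectionVars false in
/-- MODULE CE. -/
theorem jS23_eq (w : W5 K) : jS23 w = bas 0 w - bas 6 w :=
  CE_j w Iff.rfl fun h => by rw [h]; exact add_zero _

/-- MODULE CE.  The number of `y` with `(P1m y w).x0 = y * x0 + x2 + x3 ≠ 0`. -/
theorem chP1J (w : W5 K) (hw : w.Iso) :
    ch [(.P, 1)] jJ w = (qr K - 1) * bas 0 w + bas 1 w - qr K * bas 9 w := by
  have h1 : ch [(.P, 1)] jJ w = ∑ y : K, (if y * w.x0 + (w.x2 + w.x3) = 0 then (0 : ℝ) else 1) := by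
    rw [← show (∑ z : K, jJ (P3m z w.rt).tr) = ch [(.P, 1)] jJ w from rfl]
    refine Finset.sum_congr rfl fun z _ => ?_
    rw [← add_assoc]
    rfl
  rw [h1, CE_cnt]
  refine CE_final (c := w.x0 = 0 ∧ w.x2 = 0 ∧ w.x3 = 0) w Iff.rfl Iff.rfl ⟨fun h => ?_, fun h => ?_⟩ fun h => ?_
  · exact ⟨h.1, by rw [h.2.1, h.2.2, add_zero]⟩
  · refine ⟨h.1, CE_two (p := w.x1) h.2 ?_⟩
    have hw' : w.x0 * w.x4 = w.x1 * w.x2 + w.x1 * w.x3 + w.x2 * w.x3 := hw
    rw [h.1] at hw'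
    linear_combination -hw'
  · rw [h]
    exact ⟨rfl, add_zero _⟩

/-- MODULE CE.  The number of `y` with `(L1m y w).x4 = x4 + y * (x2 + x3) ≠ 0`. -/
theorem chL1F (w : W5 K) (hw : w.Iso) :
    ch [(.L, 1)] jF w = (qr K - 1) * bas 0 w + bas 6 w - qr K * bas 12 w := by
  have h1 : ch [(.L, 1)] jF w = ∑ y : K, (if y * (w.x2 + w.x3) + w.x4 = 0 then (0 : ℝ) else 1) := by
    rw [← show (∑ z : K, jF (L3m z w.rt).tr) = ch [(.L, 1)] jF w from rfl]
    refine Finset.sum_congr rfl fun z _ => ?_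
    rw [add_comm]
    rfl
  rw [h1, CE_cnt]
  refine CE_final (c := w.x4 = 0 ∧ w.x2 = 0 ∧ w.x3 = 0) w Iff.rfl Iff.rfl ⟨fun h => ?_, fun h => ?_⟩ fun h => ?_
  · exact ⟨by rw [h.2.1, h.2.2, add_zero], h.1⟩
  · refine ⟨h.2, CE_two (p := w.x1) h.1 ?_⟩
    have hw' : w.x0 * w.x4 = w.x1 * w.x2 + w.x1 * w.x3 + w.x2 * w.x3 := hw
    rw [h.2] at hw'
    linear_combination -hw'
  · rw [h]
    exact ⟨add_zero _, rfl⟩

/-- MODULE CE. -/
theorem chL3F (w : W5 K) (hw : w.Iso) :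
    ch [(.L, 3)] jF w = (qr K - 1) * bas 0 w + bas 8 w - qr K * bas 14 w := by
  have h1 : ch [(.L, 3)] jF w = ∑ y : K, (if y * (w.x1 + w.x2) + w.x4 = 0 then (0 : ℝ) else 1) := by
    rw [← show (∑ z : K, jF (L3m z w)) = ch [(.L, 3)] jF w from rfl]
    refine Finset.sum_congr rfl fun z _ => ?_
    rw [add_comm]
    rfl
  rw [h1, CE_cnt]
  refine CE_final (c := w.x4 = 0 ∧ w.x1 = 0 ∧ w.x2 = 0) w Iff.rfl Iff.rfl ⟨fun h => ?_, fun h => ?_⟩ fun h => ?_
  · exact ⟨by rw [h.2.1, h.2.2, add_zero], h.1⟩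
  · refine ⟨h.2, CE_two (p := w.x3) h.1 ?_⟩
    have hw' : w.x0 * w.x4 = w.x1 * w.x2 + w.x1 * w.x3 + w.x2 * w.x3 := hw
    rw [h.2] at hw'
    linear_combination -hw'
  · rw [h]
    exact ⟨add_zero _, rfl⟩

omit [Field K] in
private theorem CE_reix {n : ℕ} (σ : Equiv.Perm (Fin n)) (G : (Fin n → K) → ℝ) :
    (∑ y : Fin n → K, G (fun i => y (σ i))) = ∑ y : Fin n → K, G y :=
  Fintype.sum_equiv (Equiv.arrowCongr σ.symm (Equiv.refl K)) _ _ fun _ => rfl

/-- MODULE CE.  Exchange of the two new vertices: `XA b a d c w = (XA a b c d w).sw`. -/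
theorem a_sw (f : W5 K → ℝ) (w : W5 K) : (∑ y : Fin 4 → K, f (Lt.X .a y w).sw) = ∑ y : Fin 4 → K, f (Lt.X .a y w) := by
  have h : ∀ a b c d : K, (XA a b c d w).sw = XA b a d c w := by
    intro a b c d
    ext <;> simp only [XA, W5.sw] <;> ring
  rw [show (∑ y : Fin 4 → K, f (Lt.X .a y w)) = ∑ y : Fin 4 → K, f (XA (y 0) (y 1) (y 2) (y 3) w) from rfl,
    show (∑ y : Fin 4 → K, f (Lt.X .a y w).sw) = ∑ y : Fin 4 → K, f (XA (y 0) (y 1) (y 2) (y 3) w).sw from rfl]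
  simp only [h]
  rw [sum4 fun a b c d => f (XA b a d c w), sum4 fun a b c d => f (XA a b c d w), Finset.sum_comm]
  exact Finset.sum_congr rfl fun a _ => Finset.sum_congr rfl fun b _ => Finset.sum_comm

/-- MODULE CE.  Rotation: `XH a b c d e f w.rt = (XH e f b a d c w).rt`. -/
theorem h_rt (f : W5 K → ℝ) (w : W5 K) :
    (∑ y : Fin 6 → K, f (Lt.X .h y w).rt) = ∑ y : Fin 6 → K, f (Lt.X .h y w.rt) := by
  have h : ∀ a b c d e g : K, XH a b c d e g w.rt = (XH e g b a d c w).rt := by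
    intro a b c d e g
    ext <;> simp only [XH, W5.rt] <;> ring
  have h2 : (∑ y : Fin 6 → K, f (Lt.X .h y w.rt)) =
      ∑ y : Fin 6 → K, f (XH (y 4) (y 5) (y 1) (y 0) (y 3) (y 2) w).rt := by
    refine Finset.sum_congr rfl fun y _ => ?_
    rw [← h]
    rfl
  rw [h2]
  have hb : Function.Bijective (![4, 5, 1, 0, 3, 2] : Fin 6 → Fin 6) := by decide
  exact (CE_reix (Equiv.ofBijective _ hb) fun y => f (XH (y 0) (y 1) (y 2) (y 3) (y 4) (y 5) w).rt).symm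

end Pool.Agent.Pf4
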