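import Pool.Agent.Pf4.AAri
import Pool.Agent.Pf4.ACh

/-!
# The direct facts for the letter `a`
-/

set_option autoImplicit false
set_option maxRecDepth 10000

open scoped BigOperators Classical

namespace Pool.Agent.Pf4

section

variable {K : Type} [Field K]

/-- The condition on `(a, b, c, d)` which decides the vanishing of `x0, x1, x2` of `XA a b c d w`. -/
def Zc (x s a b c d : K) : Prop :=
  a * d = b * c ∧ s * (a + b) + x * (b * (a + c)) = 0 ∧ s * (c + d) + x * (d * (a + c)) = 0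

/-- MODULE DA.  `ring`. -/
theorem XA_adj (a b c d : K) (w : W5 K) :
    XA (-a) (-c) (-b) (-d) (XA a b c d w) = w.sm ((a * d - b * c) ^ 2) := by
  ext <;> simp only [XA, W5.sm] <;> ring

/-- MODULE DA.  Let `X = XA a b c d w`, `s = x1 + x2`, `F = s * (a + b) + x0 * (b * (a + c))`,
`G = s * (c + d) + x0 * (d * (a + c))`.  `→`: by `XA_adj` (the first three coordinates of the left side depend on the first three
coordinates of `X` only) `(a * d - b * c) ^ 2` kills `x0, x1, x2`, which are not all `0`; so `a * d = b * c`.  If `a * d = b * c`,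
then `X.x0 = F + G`, `X.x1 = c * F = a * G`, `X.x2 = d * F = b * G`; so `G = -F` and `a F = b F = c F = d F = 0`, and `F ≠ 0`
would give `a = b = c = d = 0`, `F = 0`.  `←`: the same formulas. -/
theorem zc_iff {w : W5 K} (h : w.x0 ≠ 0 ∨ w.x1 + w.x2 ≠ 0) (a b c d : K) :
    ((XA a b c d w).x0 = 0 ∧ (XA a b c d w).x1 = 0 ∧ (XA a b c d w).x2 = 0) ↔
      Zc w.x0 (w.x1 + w.x2) a b c d := by
  unfold Zc
  constructor
  · rintro ⟨h0, h1, h2⟩
    simp only [XA] at h0 h1 h2
    have e0 : (a * d - b * c) ^ 2 * w.x0 = 0 := by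
      linear_combination ((a + b) * (c + d)) * h0 - (a + b + c + d) * (h1 + h2)
    have e1 : (a * d - b * c) ^ 2 * (w.x1 + w.x2) = 0 := by
      linear_combination (-(a * b * (c + d)) - c * d * (a + b)) * h0 + (a + c) * (b + d) * (h1 + h2)
    have key : a * d = b * c := by
      have h3 : (a * d - b * c) ^ 2 = 0 := by
        rcases h with h | h
        · exact (mul_eq_zero.mp e0).resolve_right h
        · exact (mul_eq_zero.mp e1).resolve_right h
      exact sub_eq_zero.mp (pow_eq_zero_iff (two_ne_zero)|>.mp h3)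
    have hF : (w.x1 + w.x2) * (a + b) + w.x0 * (b * (a + c)) = 0 := by
      by_contra hF
      have hc : c = 0 := (mul_eq_zero.mp (show c * ((w.x1 + w.x2) * (a + b) + w.x0 * (b * (a + c))) = 0 by
        linear_combination h1 - (w.x2 + w.x0 * c) * key)).resolve_right hF
      have hd : d = 0 := (mul_eq_zero.mp (show d * ((w.x1 + w.x2) * (a + b) + w.x0 * (b * (a + c))) = 0 by
        linear_combination h2 + w.x2 * key)).resolve_right hF
      have ha : a = 0 := (mul_eq_zero.mp (show a * ((w.x1 + w.x2) * (a + b) + w.x0 * (b * (a + c))) = 0 by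
        linear_combination a * h0 - h1 - (w.x1 + w.x0 * a) * key)).resolve_right hF
      have hb : b = 0 := (mul_eq_zero.mp (show b * ((w.x1 + w.x2) * (a + b) + w.x0 * (b * (a + c))) = 0 by
        linear_combination b * h0 - h2 + w.x1 * key)).resolve_right hF
      apply hF
      rw [ha, hb]
      ring
    exact ⟨key, hF, by linear_combination h0 - hF⟩
  · rintro ⟨key, hF, hG⟩
    simp only [XA]
    refine ⟨by linear_combination hF + hG, ?_, ?_⟩
    · linear_combination c * hF + (w.x2 + w.x0 * c) * key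
    · linear_combination d * hF - w.x2 * key

/-- MODULE DA.  `w = (0, 0, 0, x3, x4)`, `X = XA a b c d w`.  `→`: by `XA_adj` (or the determinant `(a * d - b * c) ^ 2` of
`(x3, x4) ↦ (X.x3, X.x4)`) `a * d = b * c`.  If `a * d = b * c`, then with `F = x4 * (a + b) + x3 * (b * (a + c))`,
`G = x4 * (c + d) + x3 * (d * (a + c))`: `X.x3 = F + G`, `X.x4 = (c + d) * F = (a + b) * G`.  If `F ≠ 0`, then `c + d = 0`,
`a + b = 0` (as `G = -F`), so `F = -x3 * b * (b + d)`, `G = -x3 * d * (b + d)`, `F + G = -x3 * (b + d) ^ 2 = 0`, `F = 0`. -/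
theorem zc_iff2 {w : W5 K} (h0 : w.x0 = 0) (h1 : w.x1 = 0) (h2 : w.x2 = 0) (h : w ≠ 0) (a b c d : K) :
    ((XA a b c d w).x3 = 0 ∧ (XA a b c d w).x4 = 0) ↔ Zc w.x3 w.x4 a b c d := by
  unfold Zc
  constructor
  · rintro ⟨g3, g4⟩
    simp only [XA, h0, h1, h2, zero_mul, zero_add, add_zero] at g3 g4
    have e3 : (a * d - b * c) ^ 2 * w.x3 = 0 := by
      linear_combination ((a + b) * (c + d)) * g3 - (a + b + c + d) * g4
    have e4 : (a * d - b * c) ^ 2 * w.x4 = 0 := by
      linear_combination (-(a * c * (b + d)) - b * d * (a + c)) * g3 + (a + c) * (b + d) * g4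
    have h34 : w.x3 ≠ 0 ∨ w.x4 ≠ 0 := by
      by_contra hn
      rw [not_or, not_not, not_not] at hn
      exact h (W5.ext h0 h1 h2 hn.1 hn.2)
    have key : a * d = b * c := by
      have h3 : (a * d - b * c) ^ 2 = 0 := by
        rcases h34 with h | h
        · exact (mul_eq_zero.mp e3).resolve_right h
        · exact (mul_eq_zero.mp e4).resolve_right h
      exact sub_eq_zero.mp (pow_eq_zero_iff (two_ne_zero)|>.mp h3)
    have hF : w.x4 * (a + b) + w.x3 * (b * (a + c)) = 0 := by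
      by_contra hF
      have hcd : c + d = 0 := (mul_eq_zero.mp (show (c + d) * (w.x4 * (a + b) + w.x3 * (b * (a + c))) = 0 by
        linear_combination g4 - (w.x3 * c) * key)).resolve_right hF
      have hab : a + b = 0 := (mul_eq_zero.mp (show (a + b) * (w.x4 * (a + b) + w.x3 * (b * (a + c))) = 0 by
        linear_combination (a + b) * g3 - g4 - (w.x3 * a) * key)).resolve_right hF
      have hd : d = -c := by linear_combination hcd
      have hb : b = -a := by linear_combination hab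
      subst hd hb
      have g5 : w.x3 * (a + c) ^ 2 = 0 := by linear_combination -g3
      rcases mul_eq_zero.mp g5 with g | g
      · apply hF
        rw [g]
        ring
      · have g6 : a + c = 0 := pow_eq_zero_iff (two_ne_zero)|>.mp g
        apply hF
        rw [g6]
        ring
    exact ⟨key, hF, by linear_combination g3 - hF⟩
  · rintro ⟨key, hF, hG⟩
    simp only [XA, h0, h1, h2, zero_mul, zero_add, add_zero]
    refine ⟨by linear_combination hF + hG, ?_⟩
    linear_combination (c + d) * hF + (w.x3 * c) * key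

/-- MODULE DB.  The coordinates `x3`, `x4` of `XA a b c d w` for `b = -(s * a) / κ`, `d = -(s * c) / κ`, `s = x1 + x2`,
`κ = s + x0 * (a + c)`.  Clear the denominators; multiply by `s` (`s ≠ 0`) and use `x0 * x4 = x1 * x2 + s * x3`. -/
theorem zc_x34 {w : W5 K} (hw : w.Iso) (hs : w.x1 + w.x2 ≠ 0) {a c : K}
    (hk : w.x1 + w.x2 + w.x0 * (a + c) ≠ 0) :
    (w.x1 + w.x2 + w.x0 * (a + c)) * (XA a (-((w.x1 + w.x2) * a) / (w.x1 + w.x2 + w.x0 * (a + c))) c
        (-((w.x1 + w.x2) * c) / (w.x1 + w.x2 + w.x0 * (a + c))) w).x3 = -(w.x1 * c - w.x2 * a) ^ 2 ∧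
    (w.x1 + w.x2 + w.x0 * (a + c)) ^ 2 * (XA a (-((w.x1 + w.x2) * a) / (w.x1 + w.x2 + w.x0 * (a + c))) c
        (-((w.x1 + w.x2) * c) / (w.x1 + w.x2 + w.x0 * (a + c))) w).x4 =
      -(w.x0 * a * c * (w.x1 * c - w.x2 * a) ^ 2) := by
  have _ := hs
  obtain ⟨b, hb', hb⟩ : ∃ b, -((w.x1 + w.x2) * a) / (w.x1 + w.x2 + w.x0 * (a + c)) = b ∧
      (w.x1 + w.x2 + w.x0 * (a + c)) * b + (w.x1 + w.x2) * a = 0 :=
    ⟨_, rfl, by rw [mul_div_cancel₀ _ hk]; ring⟩
  obtain ⟨d, hd', hd⟩ : ∃ d, -((w.x1 + w.x2) * c) / (w.x1 + w.x2 + w.x0 * (a + c)) = d ∧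
      (w.x1 + w.x2 + w.x0 * (a + c)) * d + (w.x1 + w.x2) * c = 0 :=
    ⟨_, rfl, by rw [mul_div_cancel₀ _ hk]; ring⟩
  rw [hb', hd']
  unfold W5.Iso at hw
  simp only [XA]
  constructor
  · linear_combination (w.x2 * a + w.x3 * (a + c) + w.x4) * hb + (w.x1 * c + w.x3 * (a + c) + w.x4) * hd +
      (a + c) ^ 2 * hw
  · linear_combination
      ((w.x2 * a * c + w.x3 * a * c + w.x4 * c) * (w.x1 + w.x2 + w.x0 * (a + c)) +
        (w.x0 * a * c + w.x1 * c + w.x2 * a + w.x3 * (a + c) + w.x4) * ((w.x1 + w.x2 + w.x0 * (a + c)) * d)) * hb +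
      ((w.x1 * a * c + w.x3 * a * c + w.x4 * a) * (w.x1 + w.x2 + w.x0 * (a + c)) -
        (w.x0 * a * c + w.x1 * c + w.x2 * a + w.x3 * (a + c) + w.x4) * ((w.x1 + w.x2) * a)) * hd +
      (a * c * w.x0 * (a + c) ^ 2) * hw

variable [Fintype K]

/-- MODULE DB.  For `s ≠ 0`: with `κ = s + x * (a + c)` the two equations are `s * a + b * κ = 0`, `s * c + d * κ = 0`; `κ = 0`
would give `a = c = 0`, `κ = s`; so `κ ≠ 0`, `b = -(s * a) / κ`, `d = -(s * c) / κ`, and then `a * d = b * c`. -/
theorem sum_Zc {x s : K} (hs : s ≠ 0) (F : K → K → K → K → ℝ) :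
    (∑ a : K, ∑ b : K, ∑ c : K, ∑ d : K, if Zc x s a b c d then F a b c d else 0) =
      ∑ a : K, ∑ c : K, if s + x * (a + c) = 0 then 0
        else F a (-(s * a) / (s + x * (a + c))) c (-(s * c) / (s + x * (a + c))) := by
  refine Finset.sum_congr rfl fun a _ => ?_
  rw [Finset.sum_comm]
  refine Finset.sum_congr rfl fun c _ => ?_
  by_cases hk : s + x * (a + c) = 0
  · rw [if_pos hk]
    refine Finset.sum_eq_zero fun b _ => Finset.sum_eq_zero fun d _ => if_neg ?_
    rintro ⟨_, h1, h2⟩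
    have ha : a = 0 := (mul_eq_zero.mp (show s * a = 0 by linear_combination h1 - b * hk)).resolve_left hs
    have hc : c = 0 := (mul_eq_zero.mp (show s * c = 0 by linear_combination h2 - d * hk)).resolve_left hs
    apply hs
    rw [ha, hc] at hk
    linear_combination hk
  · rw [if_neg hk]
    have key : ∀ b d : K, Zc x s a b c d ↔ b = -(s * a) / (s + x * (a + c)) ∧ d = -(s * c) / (s + x * (a + c)) := by
      intro b d
      rw [eq_div_iff hk, eq_div_iff hk]
      constructor
      · rintro ⟨_, h1, h2⟩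
        exact ⟨by linear_combination h1, by linear_combination h2⟩
      · rintro ⟨h1, h2⟩
        refine ⟨?_, by linear_combination h1, by linear_combination h2⟩
        have h3 : (s + x * (a + c)) * (a * d - b * c) = 0 := by linear_combination a * h2 - c * h1
        exact sub_eq_zero.mp ((mul_eq_zero.mp h3).resolve_left hk)
    rw [Finset.sum_eq_single (-(s * a) / (s + x * (a + c))), Finset.sum_eq_single (-(s * c) / (s + x * (a + c)))]
    · exact if_pos ((key _ _).mpr ⟨rfl, rfl⟩)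
    · intro d _ hd
      exact if_neg fun h => hd ((key _ _).mp h).2
    · intro h
      exact absurd (Finset.mem_univ _) h
    · intro b _ hb
      exact Finset.sum_eq_zero fun d _ => if_neg fun h => hb ((key _ _).mp h).1
    · intro h
      exact absurd (Finset.mem_univ _) h

/-- MODULE DB.  For `s = 0`: `a * d = b * c`, `b * (a + c) = 0`, `d * (a + c) = 0`.  If `a + c ≠ 0`, then `b = d = 0`; if
`c = -a`, then `a * (b + d) = 0`: `a = c = 0`, `b, d` free, or `a ≠ 0`, `d = -b`. -/
theorem sum_Zc0 {x : K} (hx : x ≠ 0) (F : K → K → K → K → ℝ) :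
    (∑ a : K, ∑ b : K, ∑ c : K, ∑ d : K, if Zc x 0 a b c d then F a b c d else 0) =
      (∑ a : K, ∑ c : K, if a + c = 0 then 0 else F a 0 c 0) + (∑ b : K, ∑ d : K, F 0 b 0 d) +
        ∑ a : K, ∑ b : K, if a = 0 then 0 else F a b (-a) (-b) := by
  have key : ∀ a c : K, (∑ b : K, ∑ d : K, if Zc x 0 a b c d then F a b c d else 0) =
      (if a + c = 0 then 0 else F a 0 c 0) +
        (if c = -a then (if a = 0 then (∑ b : K, ∑ d : K, F 0 b 0 d) else ∑ b : K, F a b (-a) (-b)) else 0) := by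
    intro a c
    by_cases hac : a + c = 0
    · have hc : c = -a := by linear_combination hac
      subst hc
      rw [if_pos hac, if_pos rfl, zero_add]
      by_cases ha : a = 0
      · subst ha
        rw [if_pos rfl, neg_zero]
        refine Finset.sum_congr rfl fun b _ => Finset.sum_congr rfl fun d _ => if_pos ?_
        exact ⟨by ring, by ring, by ring⟩
      · rw [if_neg ha]
        refine Finset.sum_congr rfl fun b _ => ?_
        rw [Finset.sum_eq_single (-b)]
        · exact if_pos ⟨by ring, by ring, by ring⟩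
        · intro d _ hd
          refine if_neg fun h => hd ?_
          have h1 : a * (b + d) = 0 := by linear_combination h.1
          linear_combination (mul_eq_zero.mp h1).resolve_left ha
        · intro h
          exact absurd (Finset.mem_univ _) h
    · rw [if_neg hac, if_neg (fun h => hac (by rw [h]; ring)), add_zero]
      have h0 : ∀ b d : K, Zc x 0 a b c d ↔ b = 0 ∧ d = 0 := by
        intro b d
        constructor
        · rintro ⟨_, h1, h2⟩
          have hxa : x * (a + c) ≠ 0 := mul_ne_zero hx hac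
          exact ⟨(mul_eq_zero.mp (show b * (x * (a + c)) = 0 by linear_combination h1)).resolve_right hxa,
            (mul_eq_zero.mp (show d * (x * (a + c)) = 0 by linear_combination h2)).resolve_right hxa⟩
        · rintro ⟨rfl, rfl⟩
          exact ⟨by ring, by ring, by ring⟩
      rw [Finset.sum_eq_single 0, Finset.sum_eq_single 0]
      · exact if_pos ((h0 _ _).mpr ⟨rfl, rfl⟩)
      · intro d _ hd
        exact if_neg fun h => hd ((h0 _ _).mp h).2
      · intro h
        exact absurd (Finset.mem_univ _) h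
      · intro b _ hb
        exact Finset.sum_eq_zero fun d _ => if_neg fun h => hb ((h0 _ _).mp h).1
      · intro h
        exact absurd (Finset.mem_univ _) h
  have h1 : (∑ a : K, ∑ b : K, ∑ c : K, ∑ d : K, if Zc x 0 a b c d then F a b c d else 0) =
      ∑ a : K, ∑ c : K, ((if a + c = 0 then 0 else F a 0 c 0) +
        (if c = -a then (if a = 0 then (∑ b : K, ∑ d : K, F 0 b 0 d) else ∑ b : K, F a b (-a) (-b)) else 0)) := by
    refine Finset.sum_congr rfl fun a _ => ?_
    rw [Finset.sum_comm]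
    exact Finset.sum_congr rfl fun c _ => key a c
  rw [h1]
  simp only [Finset.sum_add_distrib]
  rw [add_assoc]
  congr 1
  have h2 : ∀ a : K, (∑ c : K, (if c = -a then (if a = 0 then (∑ b : K, ∑ d : K, F 0 b 0 d)
      else ∑ b : K, F a b (-a) (-b)) else 0)) =
      (if a = 0 then (∑ b : K, ∑ d : K, F 0 b 0 d) else 0) + ∑ b : K, if a = 0 then 0 else F a b (-a) (-b) := by
    intro a
    rw [Finset.sum_eq_single (-a)]
    · rw [if_pos rfl]
      by_cases ha : a = 0
      · simp only [if_pos ha, Finset.sum_const_zero, add_zero]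
      · simp only [if_neg ha, zero_add]
    · intro c _ hc
      exact if_neg hc
    · intro h
      exact absurd (Finset.mem_univ _) h
  rw [Finset.sum_congr rfl fun a _ => h2 a, Finset.sum_add_distrib]
  congr 1
  rw [Finset.sum_eq_single 0]
  · exact if_pos rfl
  · intro a _ ha
    exact if_neg ha
  · intro h
    exact absurd (Finset.mem_univ _) h

/-- The number of `y` for which `x0, x1, x2` of `X` vanish. -/
noncomputable def nZ (w : W5 K) : ℝ :=
  ∑ y : Fin 4 → K, if (Lt.X .a y w).x0 = 0 ∧ (Lt.X .a y w).x1 = 0 ∧ (Lt.X .a y w).x2 = 0 then 1 else 0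

/-- The number of `y` for which `x0, x1, x2, x3` of `X` vanish. -/
noncomputable def n3 (w : W5 K) : ℝ :=
  ∑ y : Fin 4 → K, if (Lt.X .a y w).x0 = 0 ∧ (Lt.X .a y w).x1 = 0 ∧ (Lt.X .a y w).x2 = 0 ∧
    (Lt.X .a y w).x3 = 0 then 1 else 0

/-- The number of `y` for which `x0, x1, x2, x4` of `X` vanish. -/
noncomputable def n4 (w : W5 K) : ℝ :=
  ∑ y : Fin 4 → K, if (Lt.X .a y w).x0 = 0 ∧ (Lt.X .a y w).x1 = 0 ∧ (Lt.X .a y w).x2 = 0 ∧
    (Lt.X .a y w).x4 = 0 then 1 else 0

/-- The number of `y` for which `X` vanishes. -/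
noncomputable def nU (w : W5 K) : ℝ := ∑ y : Fin 4 → K, if Lt.X .a y w = 0 then 1 else 0

omit [Field K] in
private theorem DC_one : (∑ _a : K, (1 : ℝ)) = qr K := by
  simp [qr]

omit [Field K] in
private theorem DC_ne (a0 : K) : (∑ a : K, if a = a0 then (0 : ℝ) else 1) = qr K - 1 := by
  have h : ∀ a : K, (if a = a0 then (0 : ℝ) else 1) = 1 - (if a = a0 then (1 : ℝ) else 0) := by
    intro a
    by_cases h1 : a = a0
    · rw [if_pos h1, if_pos h1, sub_self]
    · rw [if_neg h1, if_neg h1, sub_zero]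
  rw [Finset.sum_congr rfl (fun a _ => h a), Finset.sum_sub_distrib, DC_one,
    Finset.sum_ite_eq' Finset.univ a0, if_pos (Finset.mem_univ _)]

/-- The number of values of the variables with `x0 = x1 = x2 = 0` and `g`. -/
private noncomputable def DC_N (g : W5 K → Prop) (w : W5 K) : ℝ :=
  ∑ y : Fin 4 → K, if (XA (y 0) (y 1) (y 2) (y 3) w).x0 = 0 ∧
      (XA (y 0) (y 1) (y 2) (y 3) w).x1 = 0 ∧ (XA (y 0) (y 1) (y 2) (y 3) w).x2 = 0 ∧
      g (XA (y 0) (y 1) (y 2) (y 3) w) then (1 : ℝ) else 0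

/-- Reduction of the four numbers. -/
private theorem DC_red {w : W5 K} (h : w.x0 ≠ 0 ∨ w.x1 + w.x2 ≠ 0) (g : W5 K → Prop) :
    DC_N g w = ∑ a : K, ∑ b : K, ∑ c : K, ∑ d : K, if Zc w.x0 (w.x1 + w.x2) a b c d then
      (if g (XA a b c d w) then (1 : ℝ) else 0) else 0 := by
  rw [DC_N, ← sum4 (fun a b c d => if Zc w.x0 (w.x1 + w.x2) a b c d then
      (if g (XA a b c d w) then (1 : ℝ) else 0) else 0)]
  refine Finset.sum_congr rfl (fun y _ => ?_)
  have hz := zc_iff h (y 0) (y 1) (y 2) (y 3)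
  by_cases h1 : Zc w.x0 (w.x1 + w.x2) (y 0) (y 1) (y 2) (y 3)
  · obtain ⟨h2, h3, h4⟩ := hz.2 h1
    rw [if_pos h1]
    by_cases h5 : g (XA (y 0) (y 1) (y 2) (y 3) w)
    · rw [if_pos h5, if_pos ⟨h2, h3, h4, h5⟩]
    · rw [if_neg h5, if_neg (fun h6 => h5 h6.2.2.2)]
  · rw [if_neg h1, if_neg (fun h6 => h1 (hz.1 ⟨h6.1, h6.2.1, h6.2.2.1⟩))]

private theorem DC_nZ (w : W5 K) : nZ w = DC_N (fun _ => True) w := by
  have e : nZ w = ∑ y : Fin 4 → K,
    if (XA (y 0) (y 1) (y 2) (y 3) w).x0 = 0 ∧ (XA (y 0) (y 1) (y 2) (y 3) w).x1 = 0 ∧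
      (XA (y 0) (y 1) (y 2) (y 3) w).x2 = 0 then (1 : ℝ) else 0 := rfl
  rw [e, DC_N]
  refine Finset.sum_congr rfl (fun y _ => ?_)
  by_cases h : (XA (y 0) (y 1) (y 2) (y 3) w).x0 = 0 ∧ (XA (y 0) (y 1) (y 2) (y 3) w).x1 = 0 ∧
      (XA (y 0) (y 1) (y 2) (y 3) w).x2 = 0
  · rw [if_pos h, if_pos ⟨h.1, h.2.1, h.2.2, trivial⟩]
  · rw [if_neg h, if_neg (fun h1 => h ⟨h1.1, h1.2.1, h1.2.2.1⟩)]

private theorem DC_n3 (w : W5 K) : n3 w = DC_N (fun X => X.x3 = 0) w := rfl

private theorem DC_n4 (w : W5 K) : n4 w = DC_N (fun X => X.x4 = 0) w := rfl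

private theorem DC_nU (w : W5 K) : nU w = DC_N (fun X => X.x3 = 0 ∧ X.x4 = 0) w := by
  have e0 : nU w = ∑ y : Fin 4 → K, if XA (y 0) (y 1) (y 2) (y 3) w = 0 then (1 : ℝ) else 0 := rfl
  rw [e0, DC_N]
  refine Finset.sum_congr rfl (fun y _ => ?_)
  have e : XA (y 0) (y 1) (y 2) (y 3) w = 0 ↔ (XA (y 0) (y 1) (y 2) (y 3) w).x0 = 0 ∧
      (XA (y 0) (y 1) (y 2) (y 3) w).x1 = 0 ∧
      (XA (y 0) (y 1) (y 2) (y 3) w).x2 = 0 ∧ ((XA (y 0) (y 1) (y 2) (y 3) w).x3 = 0 ∧
      (XA (y 0) (y 1) (y 2) (y 3) w).x4 = 0) := W5.ext_iff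
  by_cases h : XA (y 0) (y 1) (y 2) (y 3) w = 0
  · rw [if_pos h, if_pos (e.1 h)]
  · rw [if_neg h, if_neg (fun h1 => h (e.2 h1))]

/-- The sum over a line. -/
private theorem DC_line {u v : K} (h : u ≠ 0 ∨ v ≠ 0) (f : K → K → ℝ) :
    (∑ a : K, ∑ c : K, if u * c = v * a then f a c else 0) = ∑ r : K, f (r * u) (r * v) := by
  by_cases hu : u = 0
  · have hv : v ≠ 0 := by
      rcases h with h | h
      · exact absurd hu h
      · exact h
    have h1 : ∀ a : K, (∑ c : K, if u * c = v * a then f a c else 0) =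
        if a = 0 then (∑ c : K, f 0 c) else 0 := by
      intro a
      by_cases ha : a = 0
      · rw [if_pos ha]
        refine Finset.sum_congr rfl (fun c _ => ?_)
        rw [if_pos (by rw [hu, ha, zero_mul, mul_zero]), ha]
      · rw [if_neg ha]
        refine Finset.sum_eq_zero (fun c _ => ?_)
        rw [if_neg]
        rw [hu, zero_mul]
        exact fun h2 => (mul_ne_zero hv ha) h2.symm
    rw [Finset.sum_congr rfl (fun a _ => h1 a), Finset.sum_ite_eq' Finset.univ (0 : K),
      if_pos (Finset.mem_univ _)]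
    rw [← Equiv.sum_comp (Equiv.mulRight₀ v hv) (fun c => f 0 c)]
    refine Finset.sum_congr rfl (fun r _ => ?_)
    rw [hu, mul_zero]
    rfl
  · have h1 : ∀ a : K, (∑ c : K, if u * c = v * a then f a c else 0) = f a (v * a / u) := by
      intro a
      have h2 : ∀ c : K, (if u * c = v * a then f a c else 0) =
          if c = v * a / u then f a c else 0 := by
        intro c
        have e : u * c = v * a ↔ c = v * a / u := by
          rw [eq_div_iff hu, mul_comm c u]
        by_cases h3 : u * c = v * a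
        · rw [if_pos h3, if_pos (e.1 h3)]
        · rw [if_neg h3, if_neg (fun h4 => h3 (e.2 h4))]
      rw [Finset.sum_congr rfl (fun c _ => h2 c), Finset.sum_ite_eq' Finset.univ (v * a / u),
        if_pos (Finset.mem_univ _)]
    rw [Finset.sum_congr rfl (fun a _ => h1 a),
      ← Equiv.sum_comp (Equiv.mulRight₀ u hu) (fun a => f a (v * a / u))]
    refine Finset.sum_congr rfl (fun r _ => ?_)
    have e1 : (Equiv.mulRight₀ u hu) r = r * u := rfl
    rw [e1, show v * (r * u) / u = r * v by field_simp]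

/-- The number of `c` with `s + x * c ≠ 0`. -/
private theorem DC_lin {x s : K} (hs : s ≠ 0) :
    (∑ c : K, if s + x * c = 0 then (0 : ℝ) else 1) = if x = 0 then qr K else qr K - 1 := by
  by_cases hx : x = 0
  · rw [if_pos hx, ← DC_one]
    refine Finset.sum_congr rfl (fun c _ => ?_)
    rw [if_neg (by rw [hx, zero_mul, add_zero]; exact hs)]
  · rw [if_neg hx, ← DC_ne (-s / x)]
    refine Finset.sum_congr rfl (fun c _ => ?_)
    have e : s + x * c = 0 ↔ c = -s / x := by
      rw [eq_div_iff hx]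
      constructor
      · intro h
        linear_combination h
      · intro h
        linear_combination h
    by_cases h : s + x * c = 0
    · rw [if_pos h, if_pos (e.1 h)]
    · rw [if_neg h, if_neg (fun h1 => h (e.2 h1))]

private theorem DC_kap {x s : K} (hs : s ≠ 0) :
    (∑ a : K, ∑ c : K, if s + x * (a + c) = 0 then (0 : ℝ) else 1) =
      if x = 0 then qr K ^ 2 else qr K ^ 2 - qr K := by
  have h1 : ∀ a : K, (∑ c : K, if s + x * (a + c) = 0 then (0 : ℝ) else 1) =
      if x = 0 then qr K else qr K - 1 := by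
    intro a
    rw [← DC_lin (x := x) hs]
    exact Equiv.sum_comp (Equiv.addLeft a) (fun c => if s + x * c = 0 then (0 : ℝ) else 1)
  rw [Finset.sum_congr rfl (fun a _ => h1 a), Finset.sum_const, Finset.card_univ, nsmul_eq_mul]
  have e : (Fintype.card K : ℝ) = qr K := rfl
  rw [e]
  by_cases hx : x = 0
  · rw [if_pos hx, if_pos hx]
    ring
  · rw [if_neg hx, if_neg hx]
    ring

private theorem DC_kl {x u v : K} (hs : u + v ≠ 0) :
    (∑ a : K, ∑ c : K, if u + v + x * (a + c) = 0 then (0 : ℝ) else if u * c = v * a then 1 else 0) =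
      if x = 0 then qr K else qr K - 1 := by
  have h : u ≠ 0 ∨ v ≠ 0 := by
    by_contra h
    push Not at h
    exact hs (by rw [h.1, h.2, add_zero])
  have h1 : ∀ a c : K, (if u + v + x * (a + c) = 0 then (0 : ℝ) else if u * c = v * a then 1 else 0) =
      if u * c = v * a then (if u + v + x * (a + c) = 0 then (0 : ℝ) else 1) else 0 := by
    intro a c
    by_cases h2 : u * c = v * a
    · rw [if_pos h2, if_pos h2]
    · rw [if_neg h2, if_neg h2, ite_self]
  rw [Finset.sum_congr rfl (fun a _ => Finset.sum_congr rfl (fun c _ => h1 a c)),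
    DC_line h (fun a c => if u + v + x * (a + c) = 0 then (0 : ℝ) else 1), ← DC_lin (x := x) hs]
  have h3 : ∀ r : K, (if u + v + x * (r * u + r * v) = 0 then (0 : ℝ) else 1) =
      if u + v + x * ((Equiv.mulRight₀ (u + v) hs) r) = 0 then (0 : ℝ) else 1 := by
    intro r
    have e : (Equiv.mulRight₀ (u + v) hs) r = r * u + r * v := mul_add r u v
    rw [e]
  rw [Finset.sum_congr rfl (fun r _ => h3 r)]
  exact Equiv.sum_comp (Equiv.mulRight₀ (u + v) hs) (fun c => if u + v + x * c = 0 then (0 : ℝ) else 1)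

/-- The lines `a = 0` and `c = 0`. -/
private theorem DC_ka {x s : K} (hs : s ≠ 0) (hx : x ≠ 0) :
    (∑ a : K, ∑ c : K, if s + x * (a + c) = 0 then (0 : ℝ) else if a = 0 then 1 else 0) =
      qr K - 1 := by
  have h1 : ∀ a : K, (∑ c : K, if s + x * (a + c) = 0 then (0 : ℝ) else if a = 0 then 1 else 0) =
      if a = 0 then qr K - 1 else 0 := by
    intro a
    by_cases ha : a = 0
    · have h2 := DC_lin (x := x) hs
      rw [if_neg hx] at h2
      simp only [ha, if_true, zero_add]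
      exact h2
    · simp only [ha, if_false, ite_self, Finset.sum_const_zero]
  rw [Finset.sum_congr rfl (fun a _ => h1 a), Finset.sum_ite_eq' Finset.univ (0 : K),
    if_pos (Finset.mem_univ _)]

private theorem DC_kc {x s : K} (hs : s ≠ 0) (hx : x ≠ 0) :
    (∑ a : K, ∑ c : K, if s + x * (a + c) = 0 then (0 : ℝ) else if c = 0 then 1 else 0) =
      qr K - 1 := by
  rw [Finset.sum_comm, ← DC_ka hs hx]
  refine Finset.sum_congr rfl (fun c _ => Finset.sum_congr rfl (fun a _ => ?_))
  rw [add_comm a c]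

private theorem DC_k0 {x s : K} (hs : s ≠ 0) :
    (∑ a : K, ∑ c : K, if s + x * (a + c) = 0 then (0 : ℝ) else if a = 0 ∧ c = 0 then 1 else 0) =
      1 := by
  have h1 : ∀ a c : K, (if s + x * (a + c) = 0 then (0 : ℝ) else if a = 0 ∧ c = 0 then 1 else 0) =
      if c = 0 then (if a = 0 then (1 : ℝ) else 0) else 0 := by
    intro a c
    by_cases ha : a = 0
    · by_cases hc : c = 0
      · simp [ha, hc, hs]
      · simp [ha, hc]
    · simp [ha]
  rw [Finset.sum_congr rfl (fun a _ => Finset.sum_congr rfl (fun c _ => h1 a c))]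
  have h2 : ∀ a : K, (∑ c : K, if c = 0 then (if a = 0 then (1 : ℝ) else 0) else 0) =
      if a = 0 then (1 : ℝ) else 0 := by
    intro a
    rw [Finset.sum_ite_eq' Finset.univ (0 : K), if_pos (Finset.mem_univ _)]
  rw [Finset.sum_congr rfl (fun a _ => h2 a), Finset.sum_ite_eq' Finset.univ (0 : K),
    if_pos (Finset.mem_univ _)]

private theorem DC_s {w : W5 K} (hs : w.x1 + w.x2 ≠ 0) (g : W5 K → Prop) :
    DC_N g w = ∑ a : K, ∑ c : K, if w.x1 + w.x2 + w.x0 * (a + c) = 0 then 0
        else if g (XA a (-((w.x1 + w.x2) * a) / (w.x1 + w.x2 + w.x0 * (a + c))) c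
          (-((w.x1 + w.x2) * c) / (w.x1 + w.x2 + w.x0 * (a + c))) w) then (1 : ℝ) else 0 := by
  rw [DC_red (Or.inr hs) g,
    sum_Zc hs (fun a b c d => if g (XA a b c d w) then (1 : ℝ) else 0)]

omit [Field K] in
private theorem DC_comb3 {f g h : K → K → ℝ} {u v t : ℝ} (hf : (∑ a : K, ∑ c : K, f a c) = u)
    (hg : (∑ a : K, ∑ c : K, g a c) = v) (hh : (∑ a : K, ∑ c : K, h a c) = t) :
    (∑ a : K, ∑ c : K, (f a c + g a c - h a c)) = u + v - t := by
  simp only [Finset.sum_sub_distrib, Finset.sum_add_distrib, hf, hg, hh]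

omit [Field K] in
private theorem DC_comb5 {f g k h : K → K → ℝ} {u v r t : ℝ} (hf : (∑ a : K, ∑ c : K, f a c) = u)
    (hg : (∑ a : K, ∑ c : K, g a c) = v) (hk : (∑ a : K, ∑ c : K, k a c) = r)
    (hh : (∑ a : K, ∑ c : K, h a c) = t) :
    (∑ a : K, ∑ c : K, (f a c + g a c + k a c - h a c - h a c)) = u + v + r - t - t := by
  simp only [Finset.sum_sub_distrib, Finset.sum_add_distrib, hf, hg, hk, hh]

/-- MODULE DC.  `sum4`, `zc_iff`, `sum_Zc`, `zc_x34`: the four numbers are the numbers of `(a, c)` with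
`κ = s + x0 * (a + c) ≠ 0` and: nothing; `x1 * c = x2 * a`; `x1 * c = x2 * a`; `x0 * a * c * (x1 * c - x2 * a) = 0`.
The solutions of `x1 * c = x2 * a` are the multiples `(r * x1, r * x2)` (one of `x1, x2` is not `0`), `κ = s * (1 + r * x0)`.
For `x0 ≠ 0` the last set is the union of the lines `a = 0`, `c = 0`, `x1 * c = x2 * a` without one point on each of them (the
point with `κ = 0`), the origin is a common point; the three lines are different iff `x1 ≠ 0`, `x2 ≠ 0`, otherwise two of them are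
equal. -/
theorem cases_s {w : W5 K} (hw : w.Iso) (hs : w.x1 + w.x2 ≠ 0) :
    nZ w = (if w.x0 = 0 then qr K ^ 2 else qr K ^ 2 - qr K) ∧
    n3 w = (if w.x0 = 0 then qr K else qr K - 1) ∧ nU w = (if w.x0 = 0 then qr K else qr K - 1) ∧
    n4 w = (if w.x0 = 0 then qr K ^ 2 else if w.x1 = 0 ∨ w.x2 = 0 then 2 * qr K - 3 else 3 * qr K - 5) := by
  have hx3 : ∀ a c : K, w.x1 + w.x2 + w.x0 * (a + c) ≠ 0 →
      ((XA a (-((w.x1 + w.x2) * a) / (w.x1 + w.x2 + w.x0 * (a + c))) c
        (-((w.x1 + w.x2) * c) / (w.x1 + w.x2 + w.x0 * (a + c))) w).x3 = 0 ↔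
        w.x1 * c = w.x2 * a) := by
    intro a c hk
    have h1 := (zc_x34 hw hs hk).1
    constructor
    · intro h2
      rw [h2, mul_zero] at h1
      have h3 : (w.x1 * c - w.x2 * a) ^ 2 = 0 := by linear_combination h1
      have h4 := pow_eq_zero_iff (two_ne_zero) |>.1 h3
      exact sub_eq_zero.1 h4
    · intro h2
      rw [h2, sub_self] at h1
      have h3 : (w.x1 + w.x2 + w.x0 * (a + c)) *
        (XA a (-((w.x1 + w.x2) * a) / (w.x1 + w.x2 + w.x0 * (a + c))) c
        (-((w.x1 + w.x2) * c) / (w.x1 + w.x2 + w.x0 * (a + c))) w).x3 = 0 := by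
        rw [h1]
        ring
      exact (mul_eq_zero.1 h3).resolve_left hk
  have hx4 : ∀ a c : K, w.x1 + w.x2 + w.x0 * (a + c) ≠ 0 →
      ((XA a (-((w.x1 + w.x2) * a) / (w.x1 + w.x2 + w.x0 * (a + c))) c
        (-((w.x1 + w.x2) * c) / (w.x1 + w.x2 + w.x0 * (a + c))) w).x4 = 0 ↔
        w.x0 = 0 ∨ a = 0 ∨ c = 0 ∨ w.x1 * c = w.x2 * a) := by
    intro a c hk
    have h1 := (zc_x34 hw hs hk).2
    constructor
    · intro h2
      rw [h2, mul_zero] at h1
      have h3 : w.x0 * a * c * (w.x1 * c - w.x2 * a) ^ 2 = 0 := by linear_combination h1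
      rcases mul_eq_zero.1 h3 with h4 | h4
      · rcases mul_eq_zero.1 h4 with h5 | h5
        · rcases mul_eq_zero.1 h5 with h6 | h6
          · exact Or.inl h6
          · exact Or.inr (Or.inl h6)
        · exact Or.inr (Or.inr (Or.inl h5))
      · exact Or.inr (Or.inr (Or.inr (sub_eq_zero.1 (pow_eq_zero_iff (two_ne_zero) |>.1 h4))))
    · intro h2
      have h3 : w.x0 * a * c * (w.x1 * c - w.x2 * a) ^ 2 = 0 := by
        rcases h2 with h2 | h2 | h2 | h2
        · rw [h2]; ring
        · rw [h2]; ring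
        · rw [h2]; ring
        · rw [h2]; ring
      rw [h3, neg_zero] at h1
      exact (mul_eq_zero.1 h1).resolve_left (pow_ne_zero 2 hk)
  have e3 : n3 w = if w.x0 = 0 then qr K else qr K - 1 := by
    rw [DC_n3, DC_s hs (fun X => X.x3 = 0), ← DC_kl (x := w.x0) hs]
    refine Finset.sum_congr rfl (fun a _ => Finset.sum_congr rfl (fun c _ => ?_))
    by_cases hk : w.x1 + w.x2 + w.x0 * (a + c) = 0
    · rw [if_pos hk, if_pos hk]
    · rw [if_neg hk, if_neg hk]
      by_cases h : w.x1 * c = w.x2 * a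
      · rw [if_pos h, if_pos ((hx3 a c hk).2 h)]
      · rw [if_neg h, if_neg (fun h1 => h ((hx3 a c hk).1 h1))]
  refine ⟨?_, e3, ?_, ?_⟩
  · rw [DC_nZ, DC_s hs (fun _ => True), ← DC_kap (x := w.x0) hs]
    refine Finset.sum_congr rfl (fun a _ => Finset.sum_congr rfl (fun c _ => ?_))
    rw [if_pos trivial]
  · rw [DC_nU, DC_s hs (fun X => X.x3 = 0 ∧ X.x4 = 0), ← DC_kl (x := w.x0) hs]
    refine Finset.sum_congr rfl (fun a _ => Finset.sum_congr rfl (fun c _ => ?_))
    by_cases hk : w.x1 + w.x2 + w.x0 * (a + c) = 0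
    · rw [if_pos hk, if_pos hk]
    · rw [if_neg hk, if_neg hk]
      by_cases h : w.x1 * c = w.x2 * a
      · rw [if_pos h, if_pos ⟨(hx3 a c hk).2 h, (hx4 a c hk).2 (Or.inr (Or.inr (Or.inr h)))⟩]
      · rw [if_neg h, if_neg (fun h1 => h ((hx3 a c hk).1 h1.1))]
  · rw [DC_n4, DC_s hs (fun X => X.x4 = 0)]
    by_cases hx : w.x0 = 0
    · rw [if_pos hx]
      have h1 := DC_kap (x := w.x0) hs
      rw [if_pos hx] at h1
      rw [← h1]
      refine Finset.sum_congr rfl (fun a _ => Finset.sum_congr rfl (fun c _ => ?_))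
      by_cases hk : w.x1 + w.x2 + w.x0 * (a + c) = 0
      · rw [if_pos hk, if_pos hk]
      · rw [if_neg hk, if_neg hk, if_pos ((hx4 a c hk).2 (Or.inl hx))]
    · rw [if_neg hx]
      have hA := DC_ka hs hx
      have hC := DC_kc hs hx
      have hL := DC_kl (x := w.x0) hs
      rw [if_neg hx] at hL
      have h0 := DC_k0 (x := w.x0) hs
      by_cases h12 : w.x1 = 0 ∨ w.x2 = 0
      · rw [if_pos h12]
        have e : (2 : ℝ) * qr K - 3 = (qr K - 1) + (qr K - 1) - 1 := by ring
        rw [e, ← DC_comb3 hA hC h0]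
        refine Finset.sum_congr rfl (fun a _ => ?_)
        refine Finset.sum_congr rfl (fun c _ => ?_)
        by_cases hk : w.x1 + w.x2 + w.x0 * (a + c) = 0
        · simp only [if_pos hk]
          norm_num
        · simp only [if_neg hk]
          have hl : w.x1 * c = w.x2 * a → a = 0 ∨ c = 0 := by
            intro h
            rcases h12 with h1 | h1
            · rw [h1, zero_mul] at h
              rw [h1, zero_add] at hs
              exact Or.inl ((mul_eq_zero.1 h.symm).resolve_left hs)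
            · rw [h1, zero_mul] at h
              rw [h1, add_zero] at hs
              exact Or.inr ((mul_eq_zero.1 h).resolve_left hs)
          by_cases ha : a = 0
          · rw [if_pos ((hx4 a c hk).2 (Or.inr (Or.inl ha))), if_pos ha]
            by_cases hc : c = 0
            · rw [if_pos hc, if_pos (show a = 0 ∧ c = 0 from ⟨ha, hc⟩)]
              norm_num
            · rw [if_neg hc, if_neg (fun h : a = 0 ∧ c = 0 => hc h.2)]
              norm_num
          · rw [if_neg ha, if_neg (fun h : a = 0 ∧ c = 0 => ha h.1)]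
            by_cases hc : c = 0
            · rw [if_pos hc, if_pos ((hx4 a c hk).2 (Or.inr (Or.inr (Or.inl hc))))]
              norm_num
            · rw [if_neg hc, if_neg]
              · norm_num
              · intro h
                rcases (hx4 a c hk).1 h with h | h | h | h
                · exact hx h
                · exact ha h
                · exact hc h
                · rcases hl h with h | h
                  · exact ha h
                  · exact hc h
      · rw [if_neg h12]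
        push Not at h12
        have e : (3 : ℝ) * qr K - 5 = (qr K - 1) + (qr K - 1) + (qr K - 1) - 1 - 1 := by ring
        rw [e, ← DC_comb5 hA hC hL h0]
        refine Finset.sum_congr rfl (fun a _ => ?_)
        refine Finset.sum_congr rfl (fun c _ => ?_)
        by_cases hk : w.x1 + w.x2 + w.x0 * (a + c) = 0
        · simp only [if_pos hk]
          norm_num
        · simp only [if_neg hk]
          by_cases ha : a = 0
          · rw [if_pos ((hx4 a c hk).2 (Or.inr (Or.inl ha))), if_pos ha]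
            by_cases hc : c = 0
            · have hl : w.x1 * c = w.x2 * a := by rw [ha, hc, mul_zero, mul_zero]
              rw [if_pos hc, if_pos hl, if_pos (show a = 0 ∧ c = 0 from ⟨ha, hc⟩)]
              norm_num
            · have hl : ¬ w.x1 * c = w.x2 * a := by
                rw [ha, mul_zero]
                exact mul_ne_zero h12.1 hc
              rw [if_neg hc, if_neg hl, if_neg (fun h : a = 0 ∧ c = 0 => hc h.2)]
              norm_num
          · rw [if_neg ha, if_neg (fun h : a = 0 ∧ c = 0 => ha h.1)]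
            by_cases hc : c = 0
            · have hl : ¬ w.x1 * c = w.x2 * a := by
                rw [hc, mul_zero]
                exact fun h => (mul_ne_zero h12.2 ha) h.symm
              rw [if_pos hc, if_pos ((hx4 a c hk).2 (Or.inr (Or.inr (Or.inl hc)))), if_neg hl]
              norm_num
            · rw [if_neg hc]
              by_cases hl : w.x1 * c = w.x2 * a
              · rw [if_pos hl, if_pos ((hx4 a c hk).2 (Or.inr (Or.inr (Or.inr hl))))]
                norm_num
              · rw [if_neg hl, if_neg]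
                · norm_num
                · intro h
                  rcases (hx4 a c hk).1 h with h | h | h | h
                  · exact hx h
                  · exact ha h
                  · exact hc h
                  · exact hl h

omit [Field K] in
private theorem DD_card : (Fintype.card K : ℝ) = qr K := rfl

omit [Field K] in
/-- All pairs. -/
private theorem DD_all : (∑ _a : K, ∑ _c : K, (1 : ℝ)) = qr K ^ 2 := by
  simp only [Finset.sum_const, Finset.card_univ, nsmul_eq_mul, DD_card]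
  ring

/-- `a + c = 0`. -/
private theorem DD_diag : (∑ a : K, ∑ c : K, if a + c = 0 then (1 : ℝ) else 0) = qr K := by
  rw [← DC_one]
  refine Finset.sum_congr rfl (fun a _ => ?_)
  have h : ∀ c : K, (if a + c = 0 then (1 : ℝ) else 0) = if c = -a then (1 : ℝ) else 0 := by
    intro c
    by_cases h1 : c = -a
    · rw [if_pos h1, if_pos (by rw [h1, add_neg_cancel])]
    · rw [if_neg h1, if_neg (fun h2 => h1 (by linear_combination h2))]
  rw [Finset.sum_congr rfl (fun c _ => h c), Finset.sum_ite_eq' Finset.univ (-a),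
    if_pos (Finset.mem_univ _)]

/-- `a = 0`. -/
private theorem DD_a : (∑ a : K, ∑ _c : K, if a = 0 then (1 : ℝ) else 0) = qr K := by
  rw [Finset.sum_comm, ← DC_one]
  refine Finset.sum_congr rfl (fun c _ => ?_)
  rw [Finset.sum_ite_eq' Finset.univ (0 : K), if_pos (Finset.mem_univ _)]

private theorem DD_c : (∑ _a : K, ∑ c : K, if c = 0 then (1 : ℝ) else 0) = qr K := by
  rw [Finset.sum_comm, DD_a]

private theorem DD_0 : (∑ a : K, ∑ c : K, if a = 0 ∧ c = 0 then (1 : ℝ) else 0) = 1 := by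
  have h1 : ∀ a c : K, (if a = 0 ∧ c = 0 then (1 : ℝ) else 0) =
      if c = 0 then (if a = 0 then (1 : ℝ) else 0) else 0 := by
    intro a c
    by_cases ha : a = 0
    · by_cases hc : c = 0
      · rw [if_pos hc, if_pos ha, if_pos ⟨ha, hc⟩]
      · rw [if_neg hc, if_neg (fun h => hc h.2)]
    · rw [if_neg ha, if_neg (fun h => ha h.1), ite_self]
  rw [Finset.sum_congr rfl (fun a _ => Finset.sum_congr rfl (fun c _ => h1 a c))]
  have h2 : ∀ a : K, (∑ c : K, if c = 0 then (if a = 0 then (1 : ℝ) else 0) else 0) =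
      if a = 0 then (1 : ℝ) else 0 := by
    intro a
    rw [Finset.sum_ite_eq' Finset.univ (0 : K), if_pos (Finset.mem_univ _)]
  rw [Finset.sum_congr rfl (fun a _ => h2 a), Finset.sum_ite_eq' Finset.univ (0 : K),
    if_pos (Finset.mem_univ _)]

/-- Comparison of two double sums with a linear combination. -/
private theorem DD_i1 : (∑ a : K, ∑ c : K, if a + c = 0 then (0 : ℝ) else 1) = qr K ^ 2 - qr K := by
  have h : ∀ a c : K, (if a + c = 0 then (0 : ℝ) else 1) = 1 - (if a + c = 0 then (1 : ℝ) else 0) := by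
    intro a c
    by_cases h1 : a + c = 0
    · rw [if_pos h1, if_pos h1, sub_self]
    · rw [if_neg h1, if_neg h1, sub_zero]
  simp only [h, Finset.sum_sub_distrib]
  rw [DD_all, DD_diag]

private theorem DD_i2 : (∑ a : K, ∑ c : K, if a + c = 0 then (0 : ℝ) else if a * c = 0 then 1 else 0) =
    2 * qr K - 2 := by
  have h : ∀ a c : K, (if a + c = 0 then (0 : ℝ) else if a * c = 0 then 1 else 0) =
      (if a = 0 then (1 : ℝ) else 0) + (if c = 0 then (1 : ℝ) else 0) -
        (if a = 0 ∧ c = 0 then (1 : ℝ) else 0) - (if a = 0 ∧ c = 0 then (1 : ℝ) else 0) := by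
    intro a c
    by_cases ha : a = 0
    · by_cases hc : c = 0
      · simp [ha, hc]
      · simp [ha, hc]
    · by_cases hc : c = 0
      · simp [ha, hc]
      · simp [ha, hc]
  simp only [h, Finset.sum_sub_distrib, Finset.sum_add_distrib]
  rw [DD_a, DD_c, DD_0]
  ring

private theorem DD_ii : (∑ a : K, ∑ c : K, if a * c = 0 then (1 : ℝ) else 0) = 2 * qr K - 1 := by
  have h : ∀ a c : K, (if a * c = 0 then (1 : ℝ) else 0) =
      (if a = 0 then (1 : ℝ) else 0) + (if c = 0 then (1 : ℝ) else 0) -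
        (if a = 0 ∧ c = 0 then (1 : ℝ) else 0) := by
    intro a c
    by_cases ha : a = 0
    · by_cases hc : c = 0
      · simp [ha, hc]
      · simp [ha, hc]
    · by_cases hc : c = 0
      · simp [ha, hc]
      · simp [ha, hc]
  simp only [h, Finset.sum_sub_distrib, Finset.sum_add_distrib]
  rw [DD_a, DD_c, DD_0]
  ring

private theorem DD_iii : (∑ a : K, ∑ _b : K, if a = 0 then (0 : ℝ) else 1) = qr K ^ 2 - qr K := by
  have h : ∀ a : K, (if a = 0 then (0 : ℝ) else 1) = 1 - (if a = 0 then (1 : ℝ) else 0) := by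
    intro a
    by_cases h1 : a = 0
    · rw [if_pos h1, if_pos h1, sub_self]
    · rw [if_neg h1, if_neg h1, sub_zero]
  simp only [h, Finset.sum_sub_distrib]
  rw [DD_all, DD_a]

/-- The third family for `x4 = 0`. -/
private theorem DD_iii0 : (∑ a : K, ∑ b : K, if a = 0 then (0 : ℝ) else if b = 0 then 1 else 0) =
    qr K - 1 := by
  have h : ∀ a b : K, (if a = 0 then (0 : ℝ) else if b = 0 then 1 else 0) =
      (if b = 0 then (1 : ℝ) else 0) - (if a = 0 ∧ b = 0 then (1 : ℝ) else 0) := by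
    intro a b
    by_cases ha : a = 0
    · by_cases hc : b = 0
      · simp [ha, hc]
      · simp [ha, hc]
    · by_cases hc : b = 0
      · simp [ha, hc]
      · simp [ha, hc]
  simp only [h, Finset.sum_sub_distrib]
  rw [DD_c, DD_0]

/-- The third family for `x4 ≠ 0`. -/
private theorem DD_iii1 {x u : K} (hx : x ≠ 0) (hu : u ≠ 0) :
    (∑ a : K, ∑ b : K, if a = 0 then (0 : ℝ) else if x * a * b + u * (a + b) = 0 then 1 else 0) =
      qr K - 2 := by
  have h : ∀ a : K, (∑ b : K, if a = 0 then (0 : ℝ) else if x * a * b + u * (a + b) = 0 then 1 else 0) =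
      1 - (if a = 0 then (1 : ℝ) else 0) - (if a = -u / x then (1 : ℝ) else 0) := by
    intro a
    have hux : -u / x ≠ 0 := div_ne_zero (neg_ne_zero.2 hu) hx
    by_cases ha : a = 0
    · rw [if_pos ha, if_neg (by rw [ha]; exact fun h => hux h.symm)]
      simp [ha]
    · rw [if_neg ha]
      have h1 : ∀ b : K, (if a = 0 then (0 : ℝ) else if x * a * b + u * (a + b) = 0 then 1 else 0) =
          if b * (x * a + u) + u * a = 0 then (1 : ℝ) else 0 := by
        intro b
        rw [if_neg ha]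
        have e : x * a * b + u * (a + b) = b * (x * a + u) + u * a := by ring
        rw [e]
      rw [Finset.sum_congr rfl (fun b _ => h1 b), card_lin, if_neg (mul_ne_zero hu ha)]
      have e : x * a + u = 0 ↔ a = -u / x := by
        rw [eq_div_iff hx]
        constructor
        · intro h
          linear_combination h
        · intro h
          linear_combination h
      by_cases h2 : x * a + u = 0
      · rw [if_pos h2, if_pos (e.1 h2)]
        norm_num
      · rw [if_neg h2, if_neg (fun h3 => h2 (e.2 h3))]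
        norm_num
  rw [Finset.sum_congr rfl (fun a _ => h a), Finset.sum_sub_distrib, Finset.sum_sub_distrib, DC_one,
    Finset.sum_ite_eq' Finset.univ (0 : K), if_pos (Finset.mem_univ _),
    Finset.sum_ite_eq' Finset.univ (-u / x), if_pos (Finset.mem_univ _)]
  ring

/-- The three families. -/
private theorem DD_red {w : W5 K} (hs : w.x1 + w.x2 = 0) (hx : w.x0 ≠ 0) (g : W5 K → Prop) :
    DC_N g w = (∑ a : K, ∑ c : K, if a + c = 0 then (0 : ℝ) else if g (XA a 0 c 0 w) then 1 else 0) +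
    (∑ b : K, ∑ d : K, if g (XA 0 b 0 d w) then (1 : ℝ) else 0) +
    ∑ a : K, ∑ b : K, if a = 0 then (0 : ℝ) else if g (XA a b (-a) (-b) w) then 1 else 0 := by
  rw [DC_red (Or.inl hx) g, hs,
    sum_Zc0 hx (fun a b c d => if g (XA a b c d w) then (1 : ℝ) else 0)]

/-- MODULE DD.  `x2 = -x1`, `x0 * x4 = -x1 ^ 2` (so `x4 = 0` iff `x1 = 0`).  `sum4`, `zc_iff`, `sum_Zc0`.  The three families:
(i) `b = d = 0`, `a + c ≠ 0`: `X.x3 = x4 * (a + c)`, `X.x4 = x4 * a * c`; (ii) `a = c = 0`: `X.x3 = x4 * (b + d)`,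
`X.x4 = x4 * b * d`; (iii) `a ≠ 0`, `c = -a`, `d = -b`: `X.x3 = 0`, `x0 * X.x4 = (x0 * a * b + x1 * (a + b)) ^ 2`.
Numbers for `x4 = 0`: `nZ = n3 = 3 q ^ 2 - 2 q`, `nU = n4 = (q ^ 2 - q) + q ^ 2 + (q - 1)`.
For `x4 ≠ 0`: `n3 = 0 + q + (q - 1) q`, `n4 = 2 (q - 1) + (2 q - 1) + (q - 2)`, `nU = 0 + 1 + (q - 2)`. -/
theorem cases_0 {w : W5 K} (hw : w.Iso) (hs : w.x1 + w.x2 = 0) (hx : w.x0 ≠ 0) :
    nZ w = 3 * qr K ^ 2 - 2 * qr K ∧ n3 w = (if w.x4 = 0 then 3 * qr K ^ 2 - 2 * qr K else qr K ^ 2) ∧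
    nU w = (if w.x4 = 0 then 2 * qr K ^ 2 - 1 else qr K - 1) ∧
    n4 w = (if w.x4 = 0 then 2 * qr K ^ 2 - 1 else 5 * qr K - 5) := by
  have hx2 : w.x2 = -w.x1 := by linear_combination hs
  have h14 : w.x0 * w.x4 = -w.x1 ^ 2 := by
    unfold W5.Iso at hw
    rw [hx2] at hw
    linear_combination hw
  have i3 : ∀ a c : K, (XA a 0 c 0 w).x3 = w.x4 * (a + c) := by
    intro a c
    simp only [XA]
    ring
  have i4 : ∀ a c : K, (XA a 0 c 0 w).x4 = w.x4 * (a * c) := by
    intro a c
    simp only [XA]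
    ring
  have ii3 : ∀ b d : K, (XA 0 b 0 d w).x3 = w.x4 * (b + d) := by
    intro b d
    simp only [XA]
    ring
  have ii4 : ∀ b d : K, (XA 0 b 0 d w).x4 = w.x4 * (b * d) := by
    intro b d
    simp only [XA]
    ring
  have iii3 : ∀ a b : K, (XA a b (-a) (-b) w).x3 = 0 := by
    intro a b
    simp only [XA]
    rw [hx2]
    ring
  have iii4 : ∀ a b : K, (XA a b (-a) (-b) w).x4 = 0 ↔ w.x0 * a * b + w.x1 * (a + b) = 0 := by
    intro a b
    have e : w.x0 * (XA a b (-a) (-b) w).x4 = (w.x0 * a * b + w.x1 * (a + b)) ^ 2 := by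
      simp only [XA]
      rw [hx2]
      linear_combination (-(a + b) ^ 2) * h14
    constructor
    · intro h
      rw [h, mul_zero] at e
      exact (pow_eq_zero_iff two_ne_zero).1 e.symm
    · intro h
      rw [h] at e
      have e2 : w.x0 * (XA a b (-a) (-b) w).x4 = 0 := by
        rw [e]
        ring
      exact (mul_eq_zero.1 e2).resolve_left hx
  have h41 : w.x4 = 0 ↔ w.x1 = 0 := by
    constructor
    · intro h
      rw [h, mul_zero] at h14
      exact (pow_eq_zero_iff two_ne_zero).1 (by linear_combination h14)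
    · intro h
      rw [h] at h14
      have e2 : w.x0 * w.x4 = 0 := by
        rw [h14]
        ring
      exact (mul_eq_zero.1 e2).resolve_left hx
  refine ⟨?_, ?_, ?_, ?_⟩
  · rw [DC_nZ, DD_red hs hx (fun _ => True)]
    simp only [if_true]
    rw [DD_i1, DD_all, DD_iii]
    ring
  · rw [DC_n3, DD_red hs hx (fun X => X.x3 = 0)]
    simp only [i3, ii3, iii3, if_true]
    by_cases h4 : w.x4 = 0
    · simp only [h4, zero_mul, if_true]
      rw [DD_i1, DD_all, DD_iii]
      ring
    · rw [if_neg h4]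
      simp only [mul_eq_zero, h4, false_or]
      rw [DD_diag, DD_iii]
      have e : (∑ a : K, ∑ c : K, if a + c = 0 then (0 : ℝ) else if a + c = 0 then 1 else 0) = 0 := by
        refine Finset.sum_eq_zero (fun a _ => Finset.sum_eq_zero (fun c _ => ?_))
        by_cases h : a + c = 0
        · rw [if_pos h]
        · rw [if_neg h, if_neg h]
      rw [e]
      ring
  · rw [DC_nU, DD_red hs hx (fun X => X.x3 = 0 ∧ X.x4 = 0)]
    simp only [i3, ii3, iii3, i4, ii4, iii4, true_and]
    by_cases h4 : w.x4 = 0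
    · have h1 := h41.1 h4
      simp only [h4, h1, zero_mul, add_zero, and_self, if_true]
      rw [DD_i1, DD_all]
      have e : (∑ a : K, ∑ b : K, if a = 0 then (0 : ℝ) else if w.x0 * a * b = 0 then 1 else 0) =
          qr K - 1 := by
        rw [← DD_iii0]
        refine Finset.sum_congr rfl (fun a _ => Finset.sum_congr rfl (fun b _ => ?_))
        by_cases ha : a = 0
        · rw [if_pos ha, if_pos ha]
        · rw [if_neg ha, if_neg ha]
          simp [hx, ha]
      rw [e]
      ring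
    · rw [if_neg h4]
      have h1 : w.x1 ≠ 0 := fun h => h4 (h41.2 h)
      rw [DD_iii1 hx h1]
      have e1 : (∑ a : K, ∑ c : K, if a + c = 0 then (0 : ℝ) else
          if w.x4 * (a + c) = 0 ∧ w.x4 * (a * c) = 0 then 1 else 0) = 0 := by
        refine Finset.sum_eq_zero (fun a _ => Finset.sum_eq_zero (fun c _ => ?_))
        by_cases h : a + c = 0
        · rw [if_pos h]
        · rw [if_neg h, if_neg (fun h2 => (mul_ne_zero h4 h) h2.1)]
      have e2 : (∑ b : K, ∑ d : K, if w.x4 * (b + d) = 0 ∧ w.x4 * (b * d) = 0 then (1 : ℝ) else 0) =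
          1 := by
        refine Eq.trans (Finset.sum_congr rfl (fun b _ => Finset.sum_congr rfl (fun d _ => ?_))) DD_0
        by_cases h : b = 0 ∧ d = 0
        · rw [if_pos h, if_pos]
          rw [h.1, h.2]
          exact ⟨by ring, by ring⟩
        · rw [if_neg h, if_neg]
          rintro ⟨h5, h6⟩
          have h7 : b + d = 0 := (mul_eq_zero.1 h5).resolve_left h4
          have h8 : b * d = 0 := (mul_eq_zero.1 h6).resolve_left h4
          rcases mul_eq_zero.1 h8 with h9 | h9
          · exact h ⟨h9, by rw [h9, zero_add] at h7; exact h7⟩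
          · exact h ⟨by rw [h9, add_zero] at h7; exact h7, h9⟩
      rw [e1, e2]
      ring
  · rw [DC_n4, DD_red hs hx (fun X => X.x4 = 0)]
    simp only [i4, ii4, iii4]
    by_cases h4 : w.x4 = 0
    · have h1 := h41.1 h4
      simp only [h4, h1, zero_mul, add_zero, if_true]
      rw [DD_i1, DD_all]
      have e : (∑ a : K, ∑ b : K, if a = 0 then (0 : ℝ) else if w.x0 * a * b = 0 then 1 else 0) =
          qr K - 1 := by
        rw [← DD_iii0]
        refine Finset.sum_congr rfl (fun a _ => Finset.sum_congr rfl (fun b _ => ?_))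
        by_cases ha : a = 0
        · rw [if_pos ha, if_pos ha]
        · rw [if_neg ha, if_neg ha]
          simp [hx, ha]
      rw [e]
      ring
    · rw [if_neg h4]
      have h1 : w.x1 ≠ 0 := fun h => h4 (h41.2 h)
      rw [DD_iii1 hx h1]
      have e0 : ∀ u v : K, w.x4 * (u * v) = 0 ↔ u * v = 0 := by
        intro u v
        exact ⟨fun h => (mul_eq_zero.1 h).resolve_left h4, fun h => by rw [h, mul_zero]⟩
      simp only [e0]
      rw [DD_i2, DD_ii]
      ring

private theorem DE_single (a0 : K) (u v : ℝ) :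
    (∑ a : K, if a = a0 then u else v) = u + (qr K - 1) * v := by
  have h1 : ∀ a : K, (if a = a0 then u else v) = v + (if a = a0 then u - v else 0) := by
    intro a
    by_cases h : a = a0
    · rw [if_pos h, if_pos h]; ring
    · rw [if_neg h, if_neg h]; ring
  rw [Finset.sum_congr rfl fun a _ => h1 a, Finset.sum_add_distrib, Finset.sum_const,
    Finset.sum_ite_eq', if_pos (Finset.mem_univ _), Finset.card_univ, nsmul_eq_mul]
  unfold qr
  ring

private theorem DE_lin {x y : K} (hx : x ≠ 0) (u v : ℝ) :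
    (∑ a : K, if x * a + y = 0 then u else v) = u + (qr K - 1) * v := by
  rw [← DE_single (-y / x) u v]
  refine Finset.sum_congr rfl fun a _ => ?_
  refine if_congr ?_ rfl rfl
  constructor
  · intro h
    field_simp
    linear_combination h
  · intro h
    rw [h]
    field_simp
    ring

private theorem DE_const (v : ℝ) : (∑ _a : K, v) = qr K * v := by
  rw [Finset.sum_const, Finset.card_univ, nsmul_eq_mul]
  rfl

private theorem DE_cnt (x3 x4 : K) :
    (∑ a : K, ∑ b : K, if x3 * (a * b) + x4 * (a + b) = 0 then (1 : ℝ) else 0) =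
      if x3 = 0 then (if x4 = 0 then qr K ^ 2 else qr K) else if x4 = 0 then 2 * qr K - 1
        else qr K - 1 := by
  have h1 : ∀ a : K, (∑ b : K, if x3 * (a * b) + x4 * (a + b) = 0 then (1 : ℝ) else 0) =
      if x3 * a + x4 = 0 then (if x4 * a = 0 then qr K else 0) else 1 := by
    intro a
    rw [← card_lin (x3 * a + x4) (x4 * a)]
    refine Finset.sum_congr rfl fun b _ => ?_
    refine if_congr ?_ rfl rfl
    have e : x3 * (a * b) + x4 * (a + b) = b * (x3 * a + x4) + x4 * a := by ring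
    rw [e]
  rw [Finset.sum_congr rfl fun a _ => h1 a]
  by_cases h3 : x3 = 0
  · by_cases h4 : x4 = 0
    · rw [if_pos h3, if_pos h4]
      have h2 : ∀ a : K, (if x3 * a + x4 = 0 then (if x4 * a = 0 then qr K else 0) else (1 : ℝ)) =
          qr K := by
        intro a
        rw [if_pos (by rw [h3, h4]; ring), if_pos (by rw [h4]; ring)]
      rw [Finset.sum_congr rfl fun a _ => h2 a, DE_const]
      ring
    · rw [if_pos h3, if_neg h4]
      have h2 : ∀ a : K, (if x3 * a + x4 = 0 then (if x4 * a = 0 then qr K else 0) else (1 : ℝ)) =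
          1 := by
        intro a
        rw [if_neg]
        intro h
        apply h4
        rw [h3] at h
        linear_combination h
      rw [Finset.sum_congr rfl fun a _ => h2 a, DE_const]
      ring
  · by_cases h4 : x4 = 0
    · rw [if_neg h3, if_pos h4]
      have h2 : ∀ a : K, (if x3 * a + x4 = 0 then (if x4 * a = 0 then qr K else 0) else (1 : ℝ)) =
          if x3 * a + x4 = 0 then qr K else 1 := by
        intro a
        refine if_congr Iff.rfl ?_ rfl
        rw [if_pos (by rw [h4]; ring)]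
      rw [Finset.sum_congr rfl fun a _ => h2 a, DE_lin h3]
      ring
    · rw [if_neg h3, if_neg h4]
      have h2 : ∀ a : K, (if x3 * a + x4 = 0 then (if x4 * a = 0 then qr K else 0) else (1 : ℝ)) =
          if x3 * a + x4 = 0 then 0 else 1 := by
        intro a
        by_cases h : x3 * a + x4 = 0
        · rw [if_pos h, if_pos h, if_neg]
          intro h5
          rcases mul_eq_zero.1 h5 with h6 | h6
          · exact h4 h6
          · apply h4
            rw [h6] at h
            linear_combination h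
        · rw [if_neg h, if_neg h]
      rw [Finset.sum_congr rfl fun a _ => h2 a, DE_lin h3]
      ring

/-- MODULE DE.  `X.x0 = X.x1 = X.x2 = 0` always.  `X.x3 = x3 * α * β + x4 * (α + β)` with `α = a + c`, `β = b + d` (each pair
`(α, β)` comes from `q ^ 2` values; for `x3 ≠ 0 ≠ x4`: `(x3 * α + x4) * (x3 * β + x4) = x4 ^ 2` has `q - 1` solutions). -/
theorem cases_L3 {w : W5 K} (h0 : w.x0 = 0) (h1 : w.x1 = 0) (h2 : w.x2 = 0) (h : w ≠ 0) :
    nZ w = qr K ^ 4 ∧
    n3 w = (if w.x3 = 0 then qr K ^ 3 else if w.x4 = 0 then 2 * qr K ^ 3 - qr K ^ 2 else qr K ^ 3 - qr K ^ 2) := by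
  obtain ⟨x0, x1, x2, x3, x4⟩ := w
  dsimp only at h0 h1 h2
  subst h0 h1 h2
  have h34 : x3 = 0 → x4 ≠ 0 := by
    intro h3 h4
    apply h
    rw [h3, h4]
    rfl
  constructor
  · unfold nZ
    have e : ∀ y : Fin 4 → K, (if (Lt.X .a y (⟨0, 0, 0, x3, x4⟩ : W5 K)).x0 = 0 ∧
        (Lt.X .a y (⟨0, 0, 0, x3, x4⟩ : W5 K)).x1 = 0 ∧
        (Lt.X .a y (⟨0, 0, 0, x3, x4⟩ : W5 K)).x2 = 0 then (1 : ℝ) else 0) = 1 := by
      intro y
      rw [if_pos]
      simp only [Lt.X, XA]
      refine ⟨by ring, by ring, by ring⟩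
    rw [Finset.sum_congr rfl fun y _ => e y, Finset.sum_const, Finset.card_univ, Fintype.card_fun,
      Fintype.card_fin, nsmul_eq_mul, mul_one]
    unfold qr
    push_cast
    rfl
  · unfold n3
    have e : ∀ y : Fin 4 → K, (if (Lt.X .a y (⟨0, 0, 0, x3, x4⟩ : W5 K)).x0 = 0 ∧
        (Lt.X .a y (⟨0, 0, 0, x3, x4⟩ : W5 K)).x1 = 0 ∧
        (Lt.X .a y (⟨0, 0, 0, x3, x4⟩ : W5 K)).x2 = 0 ∧
        (Lt.X .a y (⟨0, 0, 0, x3, x4⟩ : W5 K)).x3 = 0 then (1 : ℝ) else 0) =
        (fun a b c d : K => if x3 * ((a + c) * (b + d)) + x4 * ((a + c) + (b + d)) = 0 then (1 : ℝ)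
          else 0) (y 0) (y 1) (y 2) (y 3) := by
      intro y
      refine if_congr ?_ rfl rfl
      simp only [Lt.X, XA]
      constructor
      · rintro ⟨-, -, -, h4⟩
        linear_combination h4
      · intro h4
        refine ⟨by ring, by ring, by ring, ?_⟩
        linear_combination h4
    refine ((Finset.sum_congr rfl fun y _ => e y).trans (sum4 fun a b c d : K =>
      if x3 * ((a + c) * (b + d)) + x4 * ((a + c) + (b + d)) = 0 then (1 : ℝ) else 0)).trans ?_
    have e2 : ∀ a : K, (∑ b : K, ∑ c : K, ∑ d : K,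
        (fun a b c d : K => if x3 * ((a + c) * (b + d)) + x4 * ((a + c) + (b + d)) = 0 then (1 : ℝ)
          else 0) a b c d) = ∑ c : K, qr K *
        ∑ β : K, if x3 * ((a + c) * β) + x4 * ((a + c) + β) = 0 then (1 : ℝ) else 0 := by
      intro a
      rw [Finset.sum_comm]
      refine Finset.sum_congr rfl fun c _ => ?_
      exact sum_add fun β => if x3 * ((a + c) * β) + x4 * ((a + c) + β) = 0 then (1 : ℝ) else 0
    rw [Finset.sum_congr rfl fun a _ => e2 a]
    rw [sum_add fun α : K => qr K *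
        ∑ β : K, if x3 * (α * β) + x4 * (α + β) = 0 then (1 : ℝ) else 0]
    rw [← Finset.mul_sum, DE_cnt]
    dsimp only
    by_cases h3 : x3 = 0
    · rw [if_pos h3, if_pos h3, if_neg (h34 h3)]
      ring
    · rw [if_neg h3, if_neg h3]
      by_cases h4 : x4 = 0
      · rw [if_pos h4, if_pos h4]
        ring
      · rw [if_neg h4, if_neg h4]
        ring

/-- MODULE DE.  `zc_iff2`, and the numbers of the solutions of `Zc` from `sum_Zc` (`s = x4 ≠ 0`) and `sum_Zc0` (`x4 = 0`) with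
`F = 1`. -/
theorem cases_LU {w : W5 K} (h0 : w.x0 = 0) (h1 : w.x1 = 0) (h2 : w.x2 = 0) (h : w ≠ 0) :
    nU w = (if w.x4 = 0 then 3 * qr K ^ 2 - 2 * qr K else if w.x3 = 0 then qr K ^ 2 else qr K ^ 2 - qr K) := by
  have e : ∀ y : Fin 4 → K, (if Lt.X .a y w = 0 then (1 : ℝ) else 0) =
      (fun a b c d : K => if Zc w.x3 w.x4 a b c d then (fun _ _ _ _ : K => (1 : ℝ)) a b c d else 0)
        (y 0) (y 1) (y 2) (y 3) := by
    intro y
    refine if_congr ?_ rfl rfl
    rw [← zc_iff2 h0 h1 h2 h]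
    constructor
    · intro h4
      have h5 : XA (y 0) (y 1) (y 2) (y 3) w = 0 := h4
      rw [h5]
      exact ⟨rfl, rfl⟩
    · rintro ⟨h4, h5⟩
      show XA (y 0) (y 1) (y 2) (y 3) w = 0
      have e0 : (XA (y 0) (y 1) (y 2) (y 3) w).x0 = 0 := by
        simp only [XA, h0, h1, h2]; ring
      have e1 : (XA (y 0) (y 1) (y 2) (y 3) w).x1 = 0 := by
        simp only [XA, h0, h1, h2]; ring
      have e2 : (XA (y 0) (y 1) (y 2) (y 3) w).x2 = 0 := by
        simp only [XA, h0, h1, h2]; ring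
      exact W5.ext e0 e1 e2 h4 h5
  unfold nU
  refine ((Finset.sum_congr rfl fun y _ => e y).trans (sum4 fun a b c d : K =>
    if Zc w.x3 w.x4 a b c d then (fun _ _ _ _ : K => (1 : ℝ)) a b c d else 0)).trans ?_
  by_cases h4 : w.x4 = 0
  · have h3 : w.x3 ≠ 0 := by
      intro h3
      exact h (W5.ext h0 h1 h2 h3 h4)
    rw [if_pos h4, h4, sum_Zc0 h3 fun _ _ _ _ : K => (1 : ℝ)]
    have f1 : (∑ a : K, ∑ c : K, if a + c = 0 then (0 : ℝ) else 1) = qr K * (0 + (qr K - 1) * 1) := by
      rw [sum_add fun α : K => if α = 0 then (0 : ℝ) else 1, DE_single]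
    have f2 : (∑ _b : K, ∑ _d : K, (1 : ℝ)) = qr K * (qr K * 1) := by
      rw [DE_const, DE_const]
    have f3 : (∑ a : K, ∑ _b : K, if a = 0 then (0 : ℝ) else 1) = 0 + (qr K - 1) * qr K := by
      have g : ∀ a : K, (∑ _b : K, if a = 0 then (0 : ℝ) else 1) = if a = 0 then 0 else qr K := by
        intro a
        rw [DE_const]
        by_cases ha : a = 0
        · rw [if_pos ha, if_pos ha, mul_zero]
        · rw [if_neg ha, if_neg ha, mul_one]
      rw [Finset.sum_congr rfl fun a _ => g a, DE_single]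
    rw [f1, f2, f3]
    ring
  · rw [if_neg h4, sum_Zc h4 fun _ _ _ _ : K => (1 : ℝ)]
    rw [sum_add fun α : K => if w.x4 + w.x3 * α = 0 then (0 : ℝ) else 1]
    by_cases h3 : w.x3 = 0
    · rw [if_pos h3]
      have g : ∀ α : K, (if w.x4 + w.x3 * α = 0 then (0 : ℝ) else 1) = 1 := by
        intro α
        rw [if_neg]
        rw [h3]
        intro h5
        apply h4
        linear_combination h5
      rw [Finset.sum_congr rfl fun a _ => g a, DE_const]
      ring
    · rw [if_neg h3]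
      have g : ∀ α : K, (if w.x4 + w.x3 * α = 0 then (0 : ℝ) else 1) =
          if w.x3 * α + w.x4 = 0 then 0 else 1 := by
        intro α
        rw [add_comm]
      rw [Finset.sum_congr rfl fun a _ => g a, DE_lin h3]
      ring

private theorem DF_cnt (e m : K) :
    (∑ c : K, ∑ d : K, if d * (e + m * c) + c * e = 0 then (1 : ℝ) else 0) =
      (if m = 0 then qr K else qr K - 1) +
        (if e = 0 then (if m = 0 then qr K ^ 2 - qr K else qr K) else 0) := by
  rw [Finset.sum_congr rfl fun c _ => card_lin (e + m * c) (c * e)]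
  by_cases he : e = 0
  · rw [if_pos he]
    by_cases hm : m = 0
    · rw [if_pos hm, if_pos hm]
      have g : ∀ c : K, (if e + m * c = 0 then (if c * e = 0 then qr K else 0) else (1 : ℝ)) = qr K := by
        intro c
        rw [if_pos (by rw [he, hm]; ring), if_pos (by rw [he]; ring)]
      rw [Finset.sum_congr rfl fun c _ => g c, DE_const]
      ring
    · rw [if_neg hm, if_neg hm]
      have g : ∀ c : K, (if e + m * c = 0 then (if c * e = 0 then qr K else 0) else (1 : ℝ)) =
          if m * c + 0 = 0 then qr K else 1 := by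
        intro c
        rw [he, zero_add, add_zero, mul_zero, if_pos rfl]
      rw [Finset.sum_congr rfl fun c _ => g c, DE_lin hm]
      ring
  · rw [if_neg he]
    by_cases hm : m = 0
    · rw [if_pos hm]
      have g : ∀ c : K, (if e + m * c = 0 then (if c * e = 0 then qr K else 0) else (1 : ℝ)) = 1 := by
        intro c
        rw [if_neg]
        rw [hm]
        intro h
        apply he
        linear_combination h
      rw [Finset.sum_congr rfl fun c _ => g c, DE_const]
      ring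
    · rw [if_neg hm]
      have g : ∀ c : K, (if e + m * c = 0 then (if c * e = 0 then qr K else 0) else (1 : ℝ)) =
          if m * c + e = 0 then 0 else 1 := by
        intro c
        by_cases h : e + m * c = 0
        · have h' : m * c + e = 0 := by rw [add_comm]; exact h
          rw [if_pos h, if_pos h', if_neg]
          intro h5
          rcases mul_eq_zero.1 h5 with h6 | h6
          · apply he
            rw [h6] at h
            linear_combination h
          · exact he h6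
        · have h' : ¬ m * c + e = 0 := by rw [add_comm]; exact h
          rw [if_neg h, if_neg h']
      rw [Finset.sum_congr rfl fun c _ => g c, DE_lin hm]
      ring

/-- MODULE DF.  `X.x4 = d * (e + x3 * c * m) + c * e` with `m = a + b`, `e = x3 * a * b + x4 * m`.  For given `(a, b)` the number
of `(c, d)` with `X.x4 = 0` is: `q ^ 2` if `e = 0` and `x3 * m = 0`; `2 q - 1` if `e = 0` and `x3 * m ≠ 0`; `q` if `e ≠ 0` and
`x3 * m = 0`; `q - 1` if `e ≠ 0` and `x3 * m ≠ 0`.  For `x3 ≠ 0`: `e = 0` has `q - 1` solutions `(a, b)` (`x4 ≠ 0`) or `2 q - 1`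
(`x4 = 0`), `m = 0` has `q`, both: only `a = b = 0`.  For `x3 = 0` (`x4 ≠ 0`): `X.x4 = x4 * (a + b) * (c + d)`. -/
theorem cases_L4 {w : W5 K} (h0 : w.x0 = 0) (h1 : w.x1 = 0) (h2 : w.x2 = 0) (h : w ≠ 0) :
    n4 w = (if w.x3 = 0 then 2 * qr K ^ 3 - qr K ^ 2 else if w.x4 = 0 then qr K ^ 3 + 2 * qr K ^ 2 - 2 * qr K
      else qr K ^ 3 + qr K ^ 2 - 2 * qr K) := by
  obtain ⟨x0, x1, x2, x3, x4⟩ := w
  dsimp only at h0 h1 h2
  subst h0 h1 h2
  have h34 : x3 = 0 → x4 ≠ 0 := by
    intro h3 h4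
    apply h
    rw [h3, h4]
    rfl
  unfold n4
  have e : ∀ y : Fin 4 → K, (if (Lt.X .a y (⟨0, 0, 0, x3, x4⟩ : W5 K)).x0 = 0 ∧
      (Lt.X .a y (⟨0, 0, 0, x3, x4⟩ : W5 K)).x1 = 0 ∧
      (Lt.X .a y (⟨0, 0, 0, x3, x4⟩ : W5 K)).x2 = 0 ∧
      (Lt.X .a y (⟨0, 0, 0, x3, x4⟩ : W5 K)).x4 = 0 then (1 : ℝ) else 0) =
      (fun a b c d : K => if d * ((x3 * (a * b) + x4 * (a + b)) + x3 * (a + b) * c) +
        c * (x3 * (a * b) + x4 * (a + b)) = 0 then (1 : ℝ) else 0) (y 0) (y 1) (y 2) (y 3) := by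
    intro y
    refine if_congr ?_ rfl rfl
    simp only [Lt.X, XA]
    constructor
    · rintro ⟨-, -, -, h4⟩
      linear_combination h4
    · intro h4
      refine ⟨by ring, by ring, by ring, ?_⟩
      linear_combination h4
  refine ((Finset.sum_congr rfl fun y _ => e y).trans (sum4 fun a b c d : K =>
    if d * ((x3 * (a * b) + x4 * (a + b)) + x3 * (a + b) * c) +
      c * (x3 * (a * b) + x4 * (a + b)) = 0 then (1 : ℝ) else 0)).trans ?_
  have e2 : ∀ a b : K, (∑ c : K, ∑ d : K,
      (fun a b c d : K => if d * ((x3 * (a * b) + x4 * (a + b)) + x3 * (a + b) * c) +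
        c * (x3 * (a * b) + x4 * (a + b)) = 0 then (1 : ℝ) else 0) a b c d) =
      (if x3 * (a + b) = 0 then qr K else qr K - 1) +
        (if x3 * (a * b) + x4 * (a + b) = 0 then (if x3 * (a + b) = 0 then qr K ^ 2 - qr K else qr K)
          else 0) := by
    intro a b
    exact DF_cnt (x3 * (a * b) + x4 * (a + b)) (x3 * (a + b))
  rw [Finset.sum_congr rfl fun a _ => Finset.sum_congr rfl fun b _ => e2 a b]
  dsimp only
  by_cases h3 : x3 = 0
  · have h4 : x4 ≠ 0 := h34 h3
    rw [if_pos h3]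
    have g : ∀ a b : K, (if x3 * (a + b) = 0 then qr K else qr K - 1) +
        (if x3 * (a * b) + x4 * (a + b) = 0 then (if x3 * (a + b) = 0 then qr K ^ 2 - qr K else qr K)
          else 0) = if a + b = 0 then qr K ^ 2 else qr K := by
      intro a b
      rw [h3, zero_mul, zero_mul, if_pos rfl, if_pos rfl, zero_add]
      by_cases hab : a + b = 0
      · rw [if_pos hab, if_pos (by rw [hab, mul_zero])]
        ring
      · rw [if_neg hab, if_neg (mul_ne_zero h4 hab)]
        ring
    rw [Finset.sum_congr rfl fun a _ => Finset.sum_congr rfl fun b _ => g a b,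
      sum_add fun α : K => if α = 0 then qr K ^ 2 else qr K, DE_single]
    ring
  · rw [if_neg h3]
    have g : ∀ a b : K, (if x3 * (a + b) = 0 then qr K else qr K - 1) +
        (if x3 * (a * b) + x4 * (a + b) = 0 then (if x3 * (a + b) = 0 then qr K ^ 2 - qr K else qr K)
          else 0) = (if a + b = 0 then qr K else qr K - 1) +
        (qr K * (if x3 * (a * b) + x4 * (a + b) = 0 then 1 else 0) +
          (if a = 0 then (if b = 0 then qr K ^ 2 - 2 * qr K else 0) else 0)) := by
      intro a b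
      have h5 : x3 * (a + b) = 0 ↔ a + b = 0 := by
        constructor
        · intro h6
          rcases mul_eq_zero.1 h6 with h7 | h7
          · exact absurd h7 h3
          · exact h7
        · intro h6
          rw [h6, mul_zero]
      by_cases hab : a + b = 0
      · rw [if_pos (h5.2 hab), if_pos (h5.2 hab), if_pos hab]
        by_cases ha : a = 0
        · have hb : b = 0 := by rw [ha] at hab; linear_combination hab
          rw [if_pos ha, if_pos hb, if_pos (by rw [ha, hb]; ring), if_pos (by rw [ha, hb]; ring)]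
          ring
        · have hne : ¬ x3 * (a * b) + x4 * (a + b) = 0 := by
            have hb : b = -a := by linear_combination hab
            intro h6
            rw [hb] at h6
            have h7 : x3 * (a * a) = 0 := by linear_combination -h6
            rcases mul_eq_zero.1 h7 with h8 | h8
            · exact h3 h8
            · rcases mul_eq_zero.1 h8 with h9 | h9
              · exact ha h9
              · exact ha h9
          rw [if_neg ha, if_neg hne, if_neg hne]
          ring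
      · have h6 : ¬ x3 * (a + b) = 0 := fun h7 => hab (h5.1 h7)
        rw [if_neg h6, if_neg h6, if_neg hab]
        have h8 : (if a = 0 then (if b = 0 then qr K ^ 2 - 2 * qr K else 0) else (0 : ℝ)) = 0 := by
          by_cases ha : a = 0
          · rw [if_pos ha, if_neg]
            intro hb
            apply hab
            rw [ha, hb, add_zero]
          · rw [if_neg ha]
        rw [h8]
        by_cases h7 : x3 * (a * b) + x4 * (a + b) = 0
        · rw [if_pos h7, if_pos h7]
          ring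
        · rw [if_neg h7, if_neg h7]
          ring
    rw [Finset.sum_congr rfl fun a _ => Finset.sum_congr rfl fun b _ => g a b]
    have k1 : (∑ a : K, ∑ b : K, ((if a + b = 0 then qr K else qr K - 1) +
        (qr K * (if x3 * (a * b) + x4 * (a + b) = 0 then 1 else 0) +
          (if a = 0 then (if b = 0 then qr K ^ 2 - 2 * qr K else 0) else 0)))) =
        (∑ a : K, ∑ b : K, (if a + b = 0 then qr K else qr K - 1)) +
        (qr K * (∑ a : K, ∑ b : K, if x3 * (a * b) + x4 * (a + b) = 0 then (1 : ℝ) else 0) +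
          ∑ a : K, ∑ b : K, (if a = 0 then (if b = 0 then qr K ^ 2 - 2 * qr K else 0) else 0)) := by
      simp only [Finset.sum_add_distrib, Finset.mul_sum]
    have k2 : (∑ a : K, ∑ b : K, (if a = 0 then (if b = 0 then qr K ^ 2 - 2 * qr K else 0)
        else (0 : ℝ))) = qr K ^ 2 - 2 * qr K := by
      have g2 : ∀ a : K, (∑ b : K, (if a = 0 then (if b = 0 then qr K ^ 2 - 2 * qr K else 0)
          else (0 : ℝ))) = if a = 0 then qr K ^ 2 - 2 * qr K else 0 := by
        intro a
        by_cases ha : a = 0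
        · rw [if_pos ha]
          have g3 : ∀ b : K, (if a = 0 then (if b = 0 then qr K ^ 2 - 2 * qr K else 0)
              else (0 : ℝ)) = if b = 0 then qr K ^ 2 - 2 * qr K else 0 := by
            intro b
            rw [if_pos ha]
          rw [Finset.sum_congr rfl fun b _ => g3 b, DE_single]
          ring
        · rw [if_neg ha]
          have g3 : ∀ b : K, (if a = 0 then (if b = 0 then qr K ^ 2 - 2 * qr K else 0)
              else (0 : ℝ)) = 0 := by
            intro b
            rw [if_neg ha]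
          rw [Finset.sum_congr rfl fun b _ => g3 b, Finset.sum_const_zero]
      rw [Finset.sum_congr rfl fun a _ => g2 a, DE_single]
      ring
    rw [k1, k2, DE_cnt, if_neg h3, sum_add fun α : K => if α = 0 then qr K else qr K - 1, DE_single]
    by_cases h4 : x4 = 0
    · rw [if_pos h4, if_pos h4]
      ring
    · rw [if_neg h4, if_neg h4]
      ring

private noncomputable def DG_de (x : K) : ℝ := if x = 0 then 1 else 0

private theorem DG_lin2 (B D C : K) :
    (∑ b : K, ∑ d : K, if b * B + (d * D + C) = 0 then (1 : ℝ) else 0) =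
      qr K + DG_de B * DG_de D * (DG_de C * qr K ^ 2 - qr K) := by
  have h1 : ∀ b : K, (∑ d : K, if b * B + (d * D + C) = 0 then (1 : ℝ) else 0) =
      if D = 0 then (if b * B + C = 0 then qr K else 0) else 1 := by
    intro b
    rw [← card_lin D (b * B + C)]
    refine Finset.sum_congr rfl fun d _ => ?_
    have : b * B + (d * D + C) = d * D + (b * B + C) := by ring
    rw [this]
  rw [Finset.sum_congr rfl fun b _ => h1 b]
  by_cases hD : D = 0
  · have h2 : (∑ b : K, if D = 0 then (if b * B + C = 0 then qr K else 0) else 1) =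
        qr K * ∑ b : K, if b * B + C = 0 then (1 : ℝ) else 0 := by
      rw [Finset.mul_sum]
      refine Finset.sum_congr rfl fun b _ => ?_
      rw [if_pos hD, mul_ite, mul_one, mul_zero]
    rw [h2, card_lin]
    by_cases hB : B = 0
    · by_cases hC : C = 0
      · simp only [DG_de, hB, hC, hD, if_true]
        ring
      · simp only [DG_de, hB, hC, hD, if_true, if_false]
        ring
    · simp only [DG_de, hB, if_false]
      ring
  · have h2 : (∑ b : K, if D = 0 then (if b * B + C = 0 then qr K else 0) else (1 : ℝ)) = qr K := by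
      rw [Finset.sum_congr rfl fun b _ => if_neg hD, Finset.sum_const, Finset.card_univ,
        nsmul_eq_mul, mul_one]
      rfl
    rw [h2]
    simp [DG_de, hD]

private theorem DG_g (x0 x1 x2 a c : K) :
    DG_de (c * (x0 * a + x1)) * DG_de (a * (x0 * c + x2)) *
        (DG_de (a * c * (x1 + x2)) * qr K ^ 2 - qr K) =
      DG_de a * DG_de c * (qr K ^ 2 - qr K) +
      DG_de a * (1 - DG_de c) * (DG_de x1 * (qr K ^ 2 - qr K)) +
      (1 - DG_de a) * DG_de c * (DG_de x2 * (qr K ^ 2 - qr K)) +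
      ((1 - DG_de a) * DG_de (a * x0 + x1)) * ((1 - DG_de c) * DG_de (c * x0 + x2)) *
        (DG_de (x1 + x2) * qr K ^ 2 - qr K) := by
  have e1 : x0 * a = a * x0 := mul_comm _ _
  have e2 : x0 * c = c * x0 := mul_comm _ _
  by_cases ha : a = 0
  · by_cases hc : c = 0
    · simp [DG_de, ha, hc]
    · simp [DG_de, ha, hc]
  · by_cases hc : c = 0
    · simp [DG_de, ha, hc]
    · simp [DG_de, ha, hc, e1, e2]

private theorem DG_s1 : ∑ a : K, DG_de a = 1 := by
  simp [DG_de]

private theorem DG_s2 : ∑ a : K, (1 - DG_de a) = qr K - 1 := by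
  rw [Finset.sum_sub_distrib, DG_s1, Finset.sum_const, Finset.card_univ, nsmul_eq_mul, mul_one]
  rfl

private theorem DG_s3 (x0 x1 : K) : ∑ a : K, ((1 - DG_de a) * DG_de (a * x0 + x1)) =
    (if x0 = 0 then (if x1 = 0 then qr K else 0) else 1) - DG_de x1 := by
  have h : ∀ a : K, (1 - DG_de a) * DG_de (a * x0 + x1) =
      (if a * x0 + x1 = 0 then (1 : ℝ) else 0) - DG_de a * DG_de x1 := by
    intro a
    by_cases ha : a = 0
    · simp [DG_de, ha]
    · simp [DG_de, ha]
  rw [Finset.sum_congr rfl fun a _ => h a, Finset.sum_sub_distrib, card_lin, ← Finset.sum_mul,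
    DG_s1, one_mul]

omit [Field K] in
private theorem DG_fac (f g : K → ℝ) (r : ℝ) :
    ∑ a : K, ∑ c : K, f a * g c * r = (∑ a : K, f a) * (∑ c : K, g c) * r := by
  rw [Finset.sum_mul_sum, Finset.sum_mul]
  refine Finset.sum_congr rfl fun a _ => ?_
  rw [Finset.sum_mul]

private theorem DG_tot (x0 x1 x2 : K) :
    ∑ a : K, ∑ c : K, (qr K + DG_de (c * (x0 * a + x1)) * DG_de (a * (x0 * c + x2)) *
        (DG_de (a * c * (x1 + x2)) * qr K ^ 2 - qr K)) =
      qr K ^ 3 + (qr K ^ 2 - qr K) + (qr K - 1) * (DG_de x1 * (qr K ^ 2 - qr K)) +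
        (qr K - 1) * (DG_de x2 * (qr K ^ 2 - qr K)) +
        ((if x0 = 0 then (if x1 = 0 then qr K else 0) else 1) - DG_de x1) *
          ((if x0 = 0 then (if x2 = 0 then qr K else 0) else 1) - DG_de x2) *
          (DG_de (x1 + x2) * qr K ^ 2 - qr K) := by
  have h : ∀ a c : K, qr K + DG_de (c * (x0 * a + x1)) * DG_de (a * (x0 * c + x2)) *
        (DG_de (a * c * (x1 + x2)) * qr K ^ 2 - qr K) =
      1 * 1 * qr K + (DG_de a * DG_de c * (qr K ^ 2 - qr K) +
      DG_de a * (1 - DG_de c) * (DG_de x1 * (qr K ^ 2 - qr K)) +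
      (1 - DG_de a) * DG_de c * (DG_de x2 * (qr K ^ 2 - qr K)) +
      ((1 - DG_de a) * DG_de (a * x0 + x1)) * ((1 - DG_de c) * DG_de (c * x0 + x2)) *
        (DG_de (x1 + x2) * qr K ^ 2 - qr K)) := by
    intro a c
    rw [DG_g, one_mul, one_mul]
  rw [Finset.sum_congr rfl fun a _ => Finset.sum_congr rfl fun c _ => h a c]
  simp only [Finset.sum_add_distrib]
  rw [DG_fac (fun _ : K => (1 : ℝ)) (fun _ : K => (1 : ℝ)), DG_fac (fun a : K => DG_de a) (fun c : K => DG_de c),
    DG_fac (fun a : K => DG_de a) (fun c : K => 1 - DG_de c),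
    DG_fac (fun a : K => 1 - DG_de a) (fun c : K => DG_de c),
    DG_fac (fun a : K => (1 - DG_de a) * DG_de (a * x0 + x1))
      (fun c : K => (1 - DG_de c) * DG_de (c * x0 + x2)),
    DG_s1, DG_s2, DG_s3, DG_s3]
  have hq : ∑ _a : K, (1 : ℝ) = qr K := by
    rw [Finset.sum_const, Finset.card_univ, nsmul_eq_mul, mul_one]
    rfl
  rw [hq]
  ring

/-- MODULE DG.  `X.x1 = b * (c * (x0 * a + x1)) + d * (a * (x0 * c + x2)) + a * c * (x1 + x2)` is linear in `(b, d)`: for given
`(a, c)` the number of `(b, d)` is `q` if one of the coefficients is not `0`, otherwise `q ^ 2` or `0`.  Both coefficients vanish: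
`a = c = 0`; `a = 0`, `c ≠ 0`, `x1 = 0`; `a ≠ 0`, `c = 0`, `x2 = 0`; `a, c ≠ 0` with `x0 * a = -x1`, `x0 * c = -x2` (one pair if
`x0, x1, x2 ≠ 0`, all pairs if `x0 = x1 = x2 = 0`). -/
theorem card_x1 (w : W5 K) :
    (∑ y : Fin 4 → K, if (Lt.X .a y w).x1 = 0 then (1 : ℝ) else 0) =
      qr K ^ 3 + (qr K ^ 2 - qr K) * (1 + (qr K - 1) * ((if w.x1 = 0 then 1 else 0) + (if w.x2 = 0 then 1 else 0))) +
        (if w.x0 ≠ 0 ∧ w.x1 ≠ 0 ∧ w.x2 ≠ 0 then (if w.x1 + w.x2 = 0 then qr K ^ 2 else 0) - qr K else 0) +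
        (if w.x0 = 0 ∧ w.x1 = 0 ∧ w.x2 = 0 then (qr K - 1) ^ 2 * (qr K ^ 2 - qr K) else 0) := by
  have h1 : ∀ a b c d : K, (XA a b c d w).x1 =
      b * (c * (w.x0 * a + w.x1)) + (d * (a * (w.x0 * c + w.x2)) + a * c * (w.x1 + w.x2)) := by
    intro a b c d
    simp only [XA]
    ring
  have h2 : (∑ y : Fin 4 → K, if (Lt.X .a y w).x1 = 0 then (1 : ℝ) else 0) =
      ∑ a : K, ∑ b : K, ∑ c : K, ∑ d : K, if (XA a b c d w).x1 = 0 then (1 : ℝ) else 0 :=
    sum4 (fun a b c d => if (XA a b c d w).x1 = 0 then (1 : ℝ) else 0)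
  have h3 : (∑ a : K, ∑ b : K, ∑ c : K, ∑ d : K, if (XA a b c d w).x1 = 0 then (1 : ℝ) else 0) =
      ∑ a : K, ∑ c : K, (qr K + DG_de (c * (w.x0 * a + w.x1)) * DG_de (a * (w.x0 * c + w.x2)) *
        (DG_de (a * c * (w.x1 + w.x2)) * qr K ^ 2 - qr K)) := by
    refine Finset.sum_congr rfl fun a _ => ?_
    rw [Finset.sum_comm]
    refine Finset.sum_congr rfl fun c _ => ?_
    rw [← DG_lin2]
    refine Finset.sum_congr rfl fun b _ => Finset.sum_congr rfl fun d _ => ?_
    rw [h1]
  rw [h2, h3, DG_tot]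
  clear h1 h2 h3
  unfold DG_de
  generalize qr K = q
  generalize w.x0 = x0
  generalize w.x1 = x1
  generalize w.x2 = x2
  by_cases h0 : x0 = 0
  · by_cases h1 : x1 = 0
    · by_cases h2 : x2 = 0
      · simp only [h0, h1, h2, if_true, add_zero, ne_eq, not_true_eq_false, if_false, and_self]
        ring
      · simp only [h0, h1, h2, if_true, zero_add, ne_eq, not_true_eq_false, false_and, if_false,
          and_false]
        ring
    · by_cases h2 : x2 = 0
      · simp only [h0, h1, h2, if_true, add_zero, ne_eq, not_true_eq_false, false_and, if_false,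
          and_false]
        ring
      · simp only [h0, h1, h2, if_true, ne_eq, not_true_eq_false, false_and, if_false,
          and_false]
        ring
  · by_cases h1 : x1 = 0
    · by_cases h2 : x2 = 0
      · simp only [h0, h1, h2, if_true, add_zero, ne_eq, not_true_eq_false, false_and, if_false,
          and_false]
        ring
      · simp only [h0, h1, h2, if_true, zero_add, ne_eq, not_true_eq_false, false_and, if_false,
          and_false]
        ring
    · by_cases h2 : x2 = 0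
      · simp only [h0, h1, h2, if_true, add_zero, ne_eq, not_true_eq_false, false_and, if_false,
          and_false]
        ring
      · by_cases h12 : x1 + x2 = 0
        · simp only [h0, h1, h2, h12, if_true, ne_eq, not_false_eq_true, if_false, and_self]
          ring
        · simp only [h0, h1, h2, h12, if_true, ne_eq, not_false_eq_true, if_false, and_self]
          ring

omit [Field K] in
private theorem A_DH_q4 : (∑ _y : Fin 4 → K, (1 : ℝ)) = qr K ^ 4 := by
  rw [Finset.sum_const, Finset.card_univ, Fintype.card_fun, Fintype.card_fin, nsmul_eq_mul, mul_one, Nat.cast_pow]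
  rfl

omit [Fintype K] in
private theorem A_DH_pt (i : Fin 20) (h : bc i (0 : W5 K)) (X : W5 K) :
    bas i X = (if bc i X then (1 : ℝ) else 0) - (if X = 0 then 1 else 0) := by
  unfold bas
  by_cases hX : X = 0
  · subst hX
    simp [h]
  · simp [hX]

omit [Fintype K] in
private theorem A_DH_v (i : Fin 20) {w : W5 K} (h0 : w ≠ 0) {p : Prop} [Decidable p] (h : bc i w ↔ p) :
    bas i w = if p then (1 : ℝ) else 0 := by
  unfold bas
  by_cases hp : p
  · rw [if_pos ⟨h0, h.2 hp⟩, if_pos hp]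
  · rw [if_neg (fun hh => hp (h.1 hh.2)), if_neg hp]

private theorem A_DH_sum0 (w : W5 K) : (∑ y : Fin 4 → K, bas 0 (Lt.X .a y w)) = qr K ^ 4 - nU w := by
  have h : ∀ y : Fin 4 → K, bas 0 (Lt.X .a y w) = 1 - (if Lt.X .a y w = 0 then 1 else 0) := by
    intro y
    rw [A_DH_pt 0 trivial]
    rw [if_pos (show bc 0 (Lt.X .a y w) from trivial)]
  rw [Finset.sum_congr rfl fun y _ => h y, Finset.sum_sub_distrib, A_DH_q4]
  rfl

private theorem A_DH_sum11 (w : W5 K) : (∑ y : Fin 4 → K, bas 11 (Lt.X .a y w)) = nZ w - nU w := by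
  have h : ∀ y : Fin 4 → K, bas 11 (Lt.X .a y w) =
      (if (Lt.X .a y w).x0 = 0 ∧ (Lt.X .a y w).x1 = 0 ∧ (Lt.X .a y w).x2 = 0 then 1 else 0) -
        (if Lt.X .a y w = 0 then 1 else 0) := by
    intro y
    rw [A_DH_pt 11 ⟨rfl, rfl, rfl⟩]
    exact congrArg₂ _ (if_congr Iff.rfl rfl rfl) rfl
  rw [Finset.sum_congr rfl fun y _ => h y, Finset.sum_sub_distrib]
  rfl

private theorem A_DH_sum16 (w : W5 K) : (∑ y : Fin 4 → K, bas 16 (Lt.X .a y w)) = n3 w - nU w := by
  have h : ∀ y : Fin 4 → K, bas 16 (Lt.X .a y w) =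
      (if (Lt.X .a y w).x0 = 0 ∧ (Lt.X .a y w).x1 = 0 ∧ (Lt.X .a y w).x2 = 0 ∧ (Lt.X .a y w).x3 = 0 then 1 else 0) -
        (if Lt.X .a y w = 0 then 1 else 0) := by
    intro y
    rw [A_DH_pt 16 ⟨rfl, rfl, rfl, rfl⟩]
    exact congrArg₂ _ (if_congr Iff.rfl rfl rfl) rfl
  rw [Finset.sum_congr rfl fun y _ => h y, Finset.sum_sub_distrib]
  rfl

private theorem A_DH_sum19 (w : W5 K) : (∑ y : Fin 4 → K, bas 19 (Lt.X .a y w)) = n4 w - nU w := by
  have h : ∀ y : Fin 4 → K, bas 19 (Lt.X .a y w) =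
      (if (Lt.X .a y w).x0 = 0 ∧ (Lt.X .a y w).x1 = 0 ∧ (Lt.X .a y w).x2 = 0 ∧ (Lt.X .a y w).x4 = 0 then 1 else 0) -
        (if Lt.X .a y w = 0 then 1 else 0) := by
    intro y
    rw [A_DH_pt 19 ⟨rfl, rfl, rfl, rfl⟩]
    exact congrArg₂ _ (if_congr Iff.rfl rfl rfl) rfl
  rw [Finset.sum_congr rfl fun y _ => h y, Finset.sum_sub_distrib]
  rfl

private theorem A_DH_sum3 (w : W5 K) : (∑ y : Fin 4 → K, bas 3 (Lt.X .a y w)) =
    (∑ y : Fin 4 → K, if (Lt.X .a y w).x1 = 0 then (1 : ℝ) else 0) - nU w := by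
  have h : ∀ y : Fin 4 → K, bas 3 (Lt.X .a y w) =
      (if (Lt.X .a y w).x1 = 0 then 1 else 0) - (if Lt.X .a y w = 0 then 1 else 0) := by
    intro y
    rw [A_DH_pt 3 rfl]
    exact congrArg₂ _ (if_congr Iff.rfl rfl rfl) rfl
  rw [Finset.sum_congr rfl fun y _ => h y, Finset.sum_sub_distrib]
  rfl

omit [Fintype K] in
/-- The values of the functions for `x1 + x2 ≠ 0`. -/
private theorem A_DH_s {w : W5 K} (hw : w.Iso) (h0 : w ≠ 0) (hs : w.x1 + w.x2 ≠ 0) :
    bas 0 w = 1 ∧ bas 1 w = (if w.x0 = 0 then 1 else 0) ∧ bas 3 w = (if w.x1 = 0 then 1 else 0) ∧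
    bas 4 w = (if w.x2 = 0 then 1 else 0) ∧ bas 8 w = 0 ∧ bas 9 w = (if w.x0 = 0 ∧ w.x2 = 0 then 1 else 0) ∧
    bas 10 w = (if w.x0 = 0 ∧ w.x1 = 0 then 1 else 0) ∧ bas 11 w = 0 ∧ bas 14 w = 0 ∧ bas 16 w = 0 ∧ bas 19 w = 0 := by
  have h12 : ¬(w.x1 = 0 ∧ w.x2 = 0) := fun h => hs (by rw [h.1, h.2, add_zero])
  have hw' : w.x0 * w.x4 = w.x1 * w.x2 + w.x1 * w.x3 + w.x2 * w.x3 := hw
  refine ⟨?_, A_DH_v 1 h0 Iff.rfl, A_DH_v 3 h0 Iff.rfl, A_DH_v 4 h0 Iff.rfl, ?_, ?_, ?_, ?_, ?_, ?_, ?_⟩
  · exact (A_DH_v 0 h0 (p := True) Iff.rfl).trans (if_pos trivial)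
  · exact (A_DH_v 8 h0 (p := False) ⟨fun h => hs h, False.elim⟩).trans (if_neg id)
  · refine A_DH_v 9 h0 (p := w.x0 = 0 ∧ w.x2 = 0) ⟨fun h => ⟨h.1, h.2.1⟩, fun h => ⟨h.1, h.2, ?_⟩⟩
    rw [h.1, h.2] at hw'
    have : w.x1 * w.x3 = 0 := by linear_combination -hw'
    exact (mul_eq_zero.1 this).resolve_left fun h1 => h12 ⟨h1, h.2⟩
  · refine A_DH_v 10 h0 (p := w.x0 = 0 ∧ w.x1 = 0) ⟨fun h => ⟨h.1, h.2.1⟩, fun h => ⟨h.1, h.2, ?_⟩⟩
    rw [h.1, h.2] at hw'
    have : w.x2 * w.x3 = 0 := by linear_combination -hw'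
    exact (mul_eq_zero.1 this).resolve_left fun h1 => h12 ⟨h.2, h1⟩
  · exact (A_DH_v 11 h0 (p := False) ⟨fun h => h12 ⟨h.2.1, h.2.2⟩, False.elim⟩).trans (if_neg id)
  · exact (A_DH_v 14 h0 (p := False) ⟨fun h => h12 ⟨h.2.1, h.2.2⟩, False.elim⟩).trans (if_neg id)
  · exact (A_DH_v 16 h0 (p := False) ⟨fun h => h12 ⟨h.2.1, h.2.2.1⟩, False.elim⟩).trans (if_neg id)
  · exact (A_DH_v 19 h0 (p := False) ⟨fun h => h12 ⟨h.2.1, h.2.2.1⟩, False.elim⟩).trans (if_neg id)

omit [Fintype K] in
/-- For `x1 + x2 = 0`, `x0 ≠ 0` the three conditions `x1 = 0`, `x2 = 0`, `x4 = 0` are equivalent. -/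
private theorem A_DH_e {w : W5 K} (hw : w.Iso) (hs : w.x1 + w.x2 = 0) (hx : w.x0 ≠ 0) :
    (w.x1 = 0 ↔ w.x4 = 0) ∧ (w.x2 = 0 ↔ w.x4 = 0) := by
  have hw' : w.x0 * w.x4 = w.x1 * w.x2 + w.x1 * w.x3 + w.x2 * w.x3 := hw
  have h2 : w.x2 = -w.x1 := by linear_combination hs
  have h4 : w.x0 * w.x4 = -(w.x1 * w.x1) := by
    rw [h2] at hw'
    linear_combination hw'
  have h14 : w.x1 = 0 ↔ w.x4 = 0 := by
    constructor
    · intro h
      rw [h, mul_zero, neg_zero] at h4
      exact (mul_eq_zero.1 h4).resolve_left hx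
    · intro h
      rw [h, mul_zero] at h4
      exact mul_self_eq_zero.1 (neg_eq_zero.1 h4.symm)
  refine ⟨h14, ?_⟩
  rw [← h14, h2, neg_eq_zero]

omit [Fintype K] in
/-- The values of the functions for `x1 + x2 = 0`, `x0 ≠ 0`. -/
private theorem A_DH_0 {w : W5 K} (hw : w.Iso) (h0 : w ≠ 0) (hs : w.x1 + w.x2 = 0) (hx : w.x0 ≠ 0) :
    bas 0 w = 1 ∧ bas 1 w = 0 ∧ bas 3 w = (if w.x4 = 0 then 1 else 0) ∧
    bas 4 w = (if w.x4 = 0 then 1 else 0) ∧ bas 8 w = 1 ∧ bas 9 w = 0 ∧
    bas 10 w = 0 ∧ bas 11 w = 0 ∧ bas 14 w = (if w.x4 = 0 then 1 else 0) ∧ bas 16 w = 0 ∧ bas 19 w = 0 := by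
  obtain ⟨e1, e2⟩ := A_DH_e hw hs hx
  refine ⟨?_, ?_, A_DH_v 3 h0 e1, A_DH_v 4 h0 e2, ?_, ?_, ?_, ?_, ?_, ?_, ?_⟩
  · exact (A_DH_v 0 h0 (p := True) Iff.rfl).trans (if_pos trivial)
  · exact (A_DH_v 1 h0 (p := False) ⟨fun h => hx h, False.elim⟩).trans (if_neg id)
  · exact (A_DH_v 8 h0 (p := True) ⟨fun _ => trivial, fun _ => hs⟩).trans (if_pos trivial)
  · exact (A_DH_v 9 h0 (p := False) ⟨fun h => hx h.1, False.elim⟩).trans (if_neg id)
  · exact (A_DH_v 10 h0 (p := False) ⟨fun h => hx h.1, False.elim⟩).trans (if_neg id)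
  · exact (A_DH_v 11 h0 (p := False) ⟨fun h => hx h.1, False.elim⟩).trans (if_neg id)
  · exact A_DH_v 14 h0 ⟨fun h => h.1, fun h => ⟨h, e1.2 h, e2.2 h⟩⟩
  · exact (A_DH_v 16 h0 (p := False) ⟨fun h => hx h.1, False.elim⟩).trans (if_neg id)
  · exact (A_DH_v 19 h0 (p := False) ⟨fun h => hx h.1, False.elim⟩).trans (if_neg id)

omit [Fintype K] in
/-- The values of the functions for `x0 = x1 = x2 = 0`. -/
private theorem A_DH_L {w : W5 K} (h0 : w ≠ 0) (hx : w.x0 = 0) (h1 : w.x1 = 0) (h2 : w.x2 = 0) :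
    bas 0 w = 1 ∧ bas 1 w = 1 ∧ bas 3 w = 1 ∧ bas 4 w = 1 ∧ bas 8 w = 1 ∧ bas 9 w = (if w.x3 = 0 then 1 else 0) ∧
    bas 10 w = (if w.x3 = 0 then 1 else 0) ∧ bas 11 w = 1 ∧ bas 14 w = (if w.x4 = 0 then 1 else 0) ∧
    bas 16 w = (if w.x3 = 0 then 1 else 0) ∧ bas 19 w = (if w.x4 = 0 then 1 else 0) := by
  refine ⟨?_, ?_, ?_, ?_, ?_, ?_, ?_, ?_, ?_, ?_, ?_⟩
  · exact (A_DH_v 0 h0 (p := True) Iff.rfl).trans (if_pos trivial)
  · exact (A_DH_v 1 h0 (p := True) ⟨fun _ => trivial, fun _ => hx⟩).trans (if_pos trivial)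
  · exact (A_DH_v 3 h0 (p := True) ⟨fun _ => trivial, fun _ => h1⟩).trans (if_pos trivial)
  · exact (A_DH_v 4 h0 (p := True) ⟨fun _ => trivial, fun _ => h2⟩).trans (if_pos trivial)
  · exact (A_DH_v 8 h0 (p := True) ⟨fun _ => trivial, fun _ => by show w.x1 + w.x2 = 0; rw [h1, h2, add_zero]⟩).trans
      (if_pos trivial)
  · exact A_DH_v 9 h0 ⟨fun h => h.2.2, fun h => ⟨hx, h2, h⟩⟩
  · exact A_DH_v 10 h0 ⟨fun h => h.2.2, fun h => ⟨hx, h1, h⟩⟩
  · exact (A_DH_v 11 h0 (p := True) ⟨fun _ => trivial, fun _ => ⟨hx, h1, h2⟩⟩).trans (if_pos trivial)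
  · exact A_DH_v 14 h0 ⟨fun h => h.1, fun h => ⟨h, h1, h2⟩⟩
  · exact A_DH_v 16 h0 ⟨fun h => h.2.2.2, fun h => ⟨hx, h1, h2, h⟩⟩
  · exact A_DH_v 19 h0 ⟨fun h => h.2.2.2, fun h => ⟨hx, h1, h2, h⟩⟩

omit [Fintype K] in
/-- The three cases. -/
private theorem A_DH_c {w : W5 K} (hw : w.Iso) :
    w.x1 + w.x2 ≠ 0 ∨ (w.x1 + w.x2 = 0 ∧ w.x0 ≠ 0) ∨ (w.x0 = 0 ∧ w.x1 = 0 ∧ w.x2 = 0) := by
  by_cases hs : w.x1 + w.x2 = 0
  · by_cases hx : w.x0 = 0
    · refine Or.inr (Or.inr ?_)
      have hw' : w.x0 * w.x4 = w.x1 * w.x2 + w.x1 * w.x3 + w.x2 * w.x3 := hw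
      have h2 : w.x2 = -w.x1 := by linear_combination hs
      have h1 : w.x1 = 0 := by
        rw [hx, h2] at hw'
        have : w.x1 * w.x1 = 0 := by linear_combination hw'
        exact mul_self_eq_zero.1 this
      exact ⟨hx, h1, by rw [h2, h1, neg_zero]⟩
    · exact Or.inr (Or.inl ⟨hs, hx⟩)
  · exact Or.inl hs

/-- MODULE DH.  The sum is `q ^ 4 - nU w`; compare in the cases (`cases_s`, `cases_0`, `cases_L3`, `cases_LU`, `cases_L4`). -/
theorem ra0 {w : W5 K} (hw : w.Iso) (h0 : w ≠ 0) : (∑ y : Fin 4 → K, bas 0 (Lt.X .a y w)) =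
    (qr K ^ 4 - qr K + 1) * bas 0 w - bas 1 w + (-qr K ^ 2 + 2 * qr K) * bas 11 w + (-2 * qr K ^ 2 + qr K) * bas 14 w - qr K * bas 16 w := by
  rw [A_DH_sum0]
  rcases A_DH_c hw with hs | ⟨hs, hx⟩ | ⟨hx, h1, h2⟩
  · obtain ⟨b0, b1, b3, b4, b8, b9, b10, b11, b14, b16, b19⟩ := A_DH_s hw h0 hs
    obtain ⟨cZ, c3, cU, c4⟩ := cases_s hw hs
    have h12 : ¬(w.x1 = 0 ∧ w.x2 = 0) := fun h => hs (by rw [h.1, h.2, add_zero])
    rw [cU, b0, b1, b11, b14, b16]
    by_cases h1 : w.x1 = 0
    · have h2 : ¬w.x2 = 0 := fun h => h12 ⟨h1, h⟩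
      by_cases hx : w.x0 = 0 <;> simp only [hs, hx, h1, h2, ite_true, ite_false, if_true, if_false, and_true, true_and, and_false, false_and, or_true, true_or, or_false, false_or, ne_eq, not_true_eq_false, not_false_eq_true] <;> ring
    · by_cases hx : w.x0 = 0 <;> by_cases h2 : w.x2 = 0 <;> simp only [hs, hx, h1, h2, if_true, if_false, and_true, true_and, and_false, false_and, or_true, true_or, or_false, false_or, ne_eq, not_true_eq_false, not_false_eq_true] <;> ring
  · obtain ⟨b0, b1, b3, b4, b8, b9, b10, b11, b14, b16, b19⟩ := A_DH_0 hw h0 hs hx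
    obtain ⟨cZ, c3, cU, c4⟩ := cases_0 hw hs hx
    obtain ⟨e1, e2⟩ := A_DH_e hw hs hx
    rw [cU, b0, b1, b11, b14, b16]
    by_cases h4 : w.x4 = 0 <;> simp only [h4, if_true, if_false] <;> ring
  · obtain ⟨b0, b1, b3, b4, b8, b9, b10, b11, b14, b16, b19⟩ := A_DH_L h0 hx h1 h2
    obtain ⟨cZ, c3⟩ := cases_L3 hx h1 h2 h0
    have cU := cases_LU hx h1 h2 h0
    have c4 := cases_L4 hx h1 h2 h0
    rw [cU, b0, b1, b11, b14, b16]
    have h34 : ¬(w.x3 = 0 ∧ w.x4 = 0) := fun h => h0 (W5.ext hx h1 h2 h.1 h.2)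
    by_cases h3 : w.x3 = 0
    · have h4 : ¬w.x4 = 0 := fun h => h34 ⟨h3, h⟩
      simp only [hx, h1, h2, h3, h4, add_zero, if_true, if_false, and_true, true_and, and_false, false_and, ne_eq, not_true_eq_false, not_false_eq_true]
      ring
    · by_cases h4 : w.x4 = 0 <;> simp only [hx, h1, h2, h3, h4, add_zero, if_true, if_false, and_true, true_and, and_false, false_and, ne_eq, not_true_eq_false, not_false_eq_true] <;> ring

/-- MODULE DH.  The sum is `nZ w - nU w`; compare in the cases (`cases_s`, `cases_0`, `cases_L3`, `cases_LU`, `cases_L4`). -/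
theorem ra11 {w : W5 K} (hw : w.Iso) (h0 : w ≠ 0) : (∑ y : Fin 4 → K, bas 11 (Lt.X .a y w)) =
    (qr K ^ 2 - 2 * qr K + 1) * bas 0 w + (qr K - 1) * bas 1 w + (2 * qr K ^ 2 - qr K) * bas 8 w + (qr K ^ 4 - 4 * qr K ^ 2 + 3 * qr K) * bas 11 w + (-2 * qr K ^ 2 + qr K) * bas 14 w - qr K * bas 16 w := by
  rw [A_DH_sum11]
  rcases A_DH_c hw with hs | ⟨hs, hx⟩ | ⟨hx, h1, h2⟩
  · obtain ⟨b0, b1, b3, b4, b8, b9, b10, b11, b14, b16, b19⟩ := A_DH_s hw h0 hs
    obtain ⟨cZ, c3, cU, c4⟩ := cases_s hw hs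
    have h12 : ¬(w.x1 = 0 ∧ w.x2 = 0) := fun h => hs (by rw [h.1, h.2, add_zero])
    rw [cZ, cU, b0, b1, b8, b11, b14, b16]
    by_cases h1 : w.x1 = 0
    · have h2 : ¬w.x2 = 0 := fun h => h12 ⟨h1, h⟩
      by_cases hx : w.x0 = 0 <;> simp only [hs, hx, h1, h2, ite_true, ite_false, if_true, if_false, and_true, true_and, and_false, false_and, or_true, true_or, or_false, false_or, ne_eq, not_true_eq_false, not_false_eq_true] <;> ring
    · by_cases hx : w.x0 = 0 <;> by_cases h2 : w.x2 = 0 <;> simp only [hs, hx, h1, h2, if_true, if_false, and_true, true_and, and_false, false_and, or_true, true_or, or_false, false_or, ne_eq, not_true_eq_false, not_false_eq_true] <;> ring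
  · obtain ⟨b0, b1, b3, b4, b8, b9, b10, b11, b14, b16, b19⟩ := A_DH_0 hw h0 hs hx
    obtain ⟨cZ, c3, cU, c4⟩ := cases_0 hw hs hx
    obtain ⟨e1, e2⟩ := A_DH_e hw hs hx
    rw [cZ, cU, b0, b1, b8, b11, b14, b16]
    by_cases h4 : w.x4 = 0 <;> simp only [h4, if_true, if_false] <;> ring
  · obtain ⟨b0, b1, b3, b4, b8, b9, b10, b11, b14, b16, b19⟩ := A_DH_L h0 hx h1 h2
    obtain ⟨cZ, c3⟩ := cases_L3 hx h1 h2 h0
    have cU := cases_LU hx h1 h2 h0
    have c4 := cases_L4 hx h1 h2 h0
    rw [cZ, cU, b0, b1, b8, b11, b14, b16]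
    have h34 : ¬(w.x3 = 0 ∧ w.x4 = 0) := fun h => h0 (W5.ext hx h1 h2 h.1 h.2)
    by_cases h3 : w.x3 = 0
    · have h4 : ¬w.x4 = 0 := fun h => h34 ⟨h3, h⟩
      simp only [hx, h1, h2, h3, h4, add_zero, if_true, if_false, and_true, true_and, and_false, false_and, ne_eq, not_true_eq_false, not_false_eq_true]
      ring
    · by_cases h4 : w.x4 = 0 <;> simp only [hx, h1, h2, h3, h4, add_zero, if_true, if_false, and_true, true_and, and_false, false_and, ne_eq, not_true_eq_false, not_false_eq_true] <;> ring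

/-- MODULE DH.  The sum is `n3 w - nU w`; compare in the cases (`cases_s`, `cases_0`, `cases_L3`, `cases_LU`, `cases_L4`). -/
theorem ra16 {w : W5 K} (hw : w.Iso) (h0 : w ≠ 0) : (∑ y : Fin 4 → K, bas 16 (Lt.X .a y w)) =
    (qr K ^ 2 - qr K + 1) * bas 8 w + (qr K ^ 3 - 3 * qr K ^ 2 + 2 * qr K - 1) * bas 11 w - qr K * bas 14 w + (qr K ^ 2 - qr K) * bas 16 w + (qr K ^ 3 - 2 * qr K ^ 2 + 2 * qr K) * bas 19 w := by
  rw [A_DH_sum16]
  rcases A_DH_c hw with hs | ⟨hs, hx⟩ | ⟨hx, h1, h2⟩
  · obtain ⟨b0, b1, b3, b4, b8, b9, b10, b11, b14, b16, b19⟩ := A_DH_s hw h0 hs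
    obtain ⟨cZ, c3, cU, c4⟩ := cases_s hw hs
    have h12 : ¬(w.x1 = 0 ∧ w.x2 = 0) := fun h => hs (by rw [h.1, h.2, add_zero])
    rw [c3, cU, b8, b11, b14, b16, b19]
    by_cases h1 : w.x1 = 0
    · have h2 : ¬w.x2 = 0 := fun h => h12 ⟨h1, h⟩
      by_cases hx : w.x0 = 0 <;> simp only [hs, hx, h1, h2, ite_true, ite_false, if_true, if_false, and_true, true_and, and_false, false_and, or_true, true_or, or_false, false_or, ne_eq, not_true_eq_false, not_false_eq_true] <;> ring
    · by_cases hx : w.x0 = 0 <;> by_cases h2 : w.x2 = 0 <;> simp only [hs, hx, h1, h2, if_true, if_false, and_true, true_and, and_false, false_and, or_true, true_or, or_false, false_or, ne_eq, not_true_eq_false, not_false_eq_true] <;> ring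
  · obtain ⟨b0, b1, b3, b4, b8, b9, b10, b11, b14, b16, b19⟩ := A_DH_0 hw h0 hs hx
    obtain ⟨cZ, c3, cU, c4⟩ := cases_0 hw hs hx
    obtain ⟨e1, e2⟩ := A_DH_e hw hs hx
    rw [c3, cU, b8, b11, b14, b16, b19]
    by_cases h4 : w.x4 = 0 <;> simp only [h4, if_true, if_false] <;> ring
  · obtain ⟨b0, b1, b3, b4, b8, b9, b10, b11, b14, b16, b19⟩ := A_DH_L h0 hx h1 h2
    obtain ⟨cZ, c3⟩ := cases_L3 hx h1 h2 h0
    have cU := cases_LU hx h1 h2 h0
    have c4 := cases_L4 hx h1 h2 h0
    rw [c3, cU, b8, b11, b14, b16, b19]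
    have h34 : ¬(w.x3 = 0 ∧ w.x4 = 0) := fun h => h0 (W5.ext hx h1 h2 h.1 h.2)
    by_cases h3 : w.x3 = 0
    · have h4 : ¬w.x4 = 0 := fun h => h34 ⟨h3, h⟩
      simp only [hx, h1, h2, h3, h4, add_zero, if_true, if_false, and_true, true_and, and_false, false_and, ne_eq, not_true_eq_false, not_false_eq_true]
      ring
    · by_cases h4 : w.x4 = 0 <;> simp only [hx, h1, h2, h3, h4, add_zero, if_true, if_false, and_true, true_and, and_false, false_and, ne_eq, not_true_eq_false, not_false_eq_true] <;> ring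

/-- MODULE DH.  The sum is `n4 w - nU w`; compare in the cases (`cases_s`, `cases_0`, `cases_L3`, `cases_LU`, `cases_L4`). -/
theorem ra19 {w : W5 K} (hw : w.Iso) (h0 : w ≠ 0) : (∑ y : Fin 4 → K, bas 19 (Lt.X .a y w)) =
    (2 * qr K - 4) * bas 0 w + (qr K ^ 2 - 3 * qr K + 4) * bas 1 w + (-qr K + 2) * bas 3 w + (-qr K + 2) * bas 4 w + 2 * qr K * bas 8 w + (qr K - 2) * bas 9 w + (qr K - 2) * bas 10 w + (qr K ^ 3 - qr K ^ 2 - 4) * bas 11 w - 2 * qr K * bas 14 w + (qr K ^ 3 - 2 * qr K ^ 2 - qr K + 4) * bas 16 w + (-qr K ^ 2 + 3 * qr K) * bas 19 w := by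
  rw [A_DH_sum19]
  rcases A_DH_c hw with hs | ⟨hs, hx⟩ | ⟨hx, h1, h2⟩
  · obtain ⟨b0, b1, b3, b4, b8, b9, b10, b11, b14, b16, b19⟩ := A_DH_s hw h0 hs
    obtain ⟨cZ, c3, cU, c4⟩ := cases_s hw hs
    have h12 : ¬(w.x1 = 0 ∧ w.x2 = 0) := fun h => hs (by rw [h.1, h.2, add_zero])
    rw [c4, cU, b0, b1, b3, b4, b8, b9, b10, b11, b14, b16, b19]
    by_cases h1 : w.x1 = 0
    · have h2 : ¬w.x2 = 0 := fun h => h12 ⟨h1, h⟩
      by_cases hx : w.x0 = 0 <;> simp only [hs, hx, h1, h2, ite_true, ite_false, if_true, if_false, and_true, true_and, and_false, false_and, or_true, true_or, or_false, false_or, ne_eq, not_true_eq_false, not_false_eq_true] <;> ring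
    · by_cases hx : w.x0 = 0 <;> by_cases h2 : w.x2 = 0 <;> simp only [hs, hx, h1, h2, if_true, if_false, and_true, true_and, and_false, false_and, or_true, true_or, or_false, false_or, ne_eq, not_true_eq_false, not_false_eq_true] <;> ring
  · obtain ⟨b0, b1, b3, b4, b8, b9, b10, b11, b14, b16, b19⟩ := A_DH_0 hw h0 hs hx
    obtain ⟨cZ, c3, cU, c4⟩ := cases_0 hw hs hx
    obtain ⟨e1, e2⟩ := A_DH_e hw hs hx
    rw [c4, cU, b0, b1, b3, b4, b8, b9, b10, b11, b14, b16, b19]
    by_cases h4 : w.x4 = 0 <;> simp only [h4, if_true, if_false] <;> ring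
  · obtain ⟨b0, b1, b3, b4, b8, b9, b10, b11, b14, b16, b19⟩ := A_DH_L h0 hx h1 h2
    obtain ⟨cZ, c3⟩ := cases_L3 hx h1 h2 h0
    have cU := cases_LU hx h1 h2 h0
    have c4 := cases_L4 hx h1 h2 h0
    rw [c4, cU, b0, b1, b3, b4, b8, b9, b10, b11, b14, b16, b19]
    have h34 : ¬(w.x3 = 0 ∧ w.x4 = 0) := fun h => h0 (W5.ext hx h1 h2 h.1 h.2)
    by_cases h3 : w.x3 = 0
    · have h4 : ¬w.x4 = 0 := fun h => h34 ⟨h3, h⟩
      simp only [hx, h1, h2, h3, h4, add_zero, if_true, if_false, and_true, true_and, and_false, false_and, ne_eq, not_true_eq_false, not_false_eq_true]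
      ring
    · by_cases h4 : w.x4 = 0 <;> simp only [hx, h1, h2, h3, h4, add_zero, if_true, if_false, and_true, true_and, and_false, false_and, ne_eq, not_true_eq_false, not_false_eq_true] <;> ring

/-- MODULE DH.  The sum is `card_x1` minus `nU w`; compare in the cases (`cases_s`, `cases_0`, `cases_L3`, `cases_LU`, `cases_L4`). -/
theorem ra3 {w : W5 K} (hw : w.Iso) (h0 : w ≠ 0) : (∑ y : Fin 4 → K, bas 3 (Lt.X .a y w)) =
    (qr K ^ 3 + qr K ^ 2 - 3 * qr K + 1) * bas 0 w + (qr K - 1) * bas 1 w + (qr K ^ 3 - 2 * qr K ^ 2 + 2 * qr K) * bas 3 w + (qr K ^ 3 - 2 * qr K ^ 2 + 2 * qr K) * bas 4 w + qr K ^ 2 * bas 8 w - qr K * bas 9 w - qr K * bas 10 w + (qr K ^ 4 - 3 * qr K ^ 3 + qr K ^ 2 - qr K) * bas 11 w - 3 * qr K ^ 2 * bas 14 w + qr K * bas 16 w + (qr K ^ 2 + qr K) * bas 19 w := by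
  rw [A_DH_sum3]
  rw [card_x1]
  rcases A_DH_c hw with hs | ⟨hs, hx⟩ | ⟨hx, h1, h2⟩
  · obtain ⟨b0, b1, b3, b4, b8, b9, b10, b11, b14, b16, b19⟩ := A_DH_s hw h0 hs
    obtain ⟨cZ, c3, cU, c4⟩ := cases_s hw hs
    have h12 : ¬(w.x1 = 0 ∧ w.x2 = 0) := fun h => hs (by rw [h.1, h.2, add_zero])
    rw [cU, b0, b1, b3, b4, b8, b9, b10, b11, b14, b16, b19]
    by_cases h1 : w.x1 = 0
    · have h2 : ¬w.x2 = 0 := fun h => h12 ⟨h1, h⟩
      by_cases hx : w.x0 = 0 <;> simp only [hs, hx, h1, h2, ite_true, ite_false, if_true, if_false, and_true, true_and, and_false, false_and, or_true, true_or, or_false, false_or, ne_eq, not_true_eq_false, not_false_eq_true] <;> ring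
    · by_cases hx : w.x0 = 0 <;> by_cases h2 : w.x2 = 0 <;> simp only [hs, hx, h1, h2, if_true, if_false, and_true, true_and, and_false, false_and, or_true, true_or, or_false, false_or, ne_eq, not_true_eq_false, not_false_eq_true] <;> ring
  · obtain ⟨b0, b1, b3, b4, b8, b9, b10, b11, b14, b16, b19⟩ := A_DH_0 hw h0 hs hx
    obtain ⟨cZ, c3, cU, c4⟩ := cases_0 hw hs hx
    obtain ⟨e1, e2⟩ := A_DH_e hw hs hx
    rw [cU, b0, b1, b3, b4, b8, b9, b10, b11, b14, b16, b19]
    by_cases h4 : w.x4 = 0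
    · have h1 := e1.2 h4
      have h2 := e2.2 h4
      simp only [hs, hx, h1, h2, h4, if_true, if_false, and_true, true_and, and_false, false_and, ne_eq, not_true_eq_false, not_false_eq_true]
      ring
    · have h1 : ¬w.x1 = 0 := fun h => h4 (e1.1 h)
      have h2 : ¬w.x2 = 0 := fun h => h4 (e2.1 h)
      simp only [hs, hx, h1, h2, h4, if_true, if_false, and_true, true_and, and_false, false_and, ne_eq, not_true_eq_false, not_false_eq_true]
      ring
  · obtain ⟨b0, b1, b3, b4, b8, b9, b10, b11, b14, b16, b19⟩ := A_DH_L h0 hx h1 h2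
    obtain ⟨cZ, c3⟩ := cases_L3 hx h1 h2 h0
    have cU := cases_LU hx h1 h2 h0
    have c4 := cases_L4 hx h1 h2 h0
    rw [cU, b0, b1, b3, b4, b8, b9, b10, b11, b14, b16, b19]
    have h34 : ¬(w.x3 = 0 ∧ w.x4 = 0) := fun h => h0 (W5.ext hx h1 h2 h.1 h.2)
    by_cases h3 : w.x3 = 0
    · have h4 : ¬w.x4 = 0 := fun h => h34 ⟨h3, h⟩
      simp only [hx, h1, h2, h3, h4, add_zero, if_true, if_false, and_true, true_and, and_false, false_and, ne_eq, not_true_eq_false, not_false_eq_true]
      ring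
    · by_cases h4 : w.x4 = 0 <;> simp only [hx, h1, h2, h3, h4, add_zero, if_true, if_false, and_true, true_and, and_false, false_and, ne_eq, not_true_eq_false, not_false_eq_true] <;> ring

end

end Pool.Agent.Pf4
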