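import Pool.Agent.Pf4.BasD

/-!
# Elementary operators and the arithmetic of coefficient lists
-/

set_option autoImplicit false
set_option maxRecDepth 10000

open scoped BigOperators Classical

namespace Pool.Agent.Pf4

section arith

/-- Sum of polynomials (lists of coefficients). -/
def pad : List ℤ → List ℤ → List ℤ
  | [], l => l
  | x :: l, [] => x :: l
  | x :: l, y :: m => (x + y) :: pad l m

/-- Product of polynomials. -/
def pml : List ℤ → List ℤ → List ℤ
  | [], _ => []
  | x :: l, m => pad (m.map (x * ·)) (0 :: pml l m)

/-- All coefficients are zero. -/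
def pzA : List ℤ → Bool
  | [] => true
  | x :: l => decide (x = 0) && pzA l

/-- Vectors of twenty polynomials. -/
abbrev Vc := List (List ℤ)

def vad (v w : Vc) : Vc := (List.range 20).map fun j => pad (v.getD j []) (w.getD j [])

def vsc (p : List ℤ) (v : Vc) : Vc := (List.range 20).map fun j => pml p (v.getD j [])

def vml (v : Vc) (m : List Vc) : Vc :=
  (List.range 20).map fun j => (List.range 20).foldr (fun i s => pad (pml (v.getD i []) ((m.getD i []).getD j [])) s) []

/-- Permutation of the coordinates: the coordinate `i` is moved to the place `r i`. -/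
def vpm (r : List ℕ) (v : Vc) : Vc :=
  (List.range 20).map fun j => (List.range 20).foldr (fun i s => pad (if r.getD i 0 = j then v.getD i [] else []) s) []

/-- Equality. -/
def veqA (v w : Vc) : Bool := (List.range 20).all fun j => pzA (pad (v.getD j []) ((w.getD j []).map (-1 * ·)))

/-- The polynomial `q ^ n * l (1 / q)`. -/
def rv (n : ℕ) (l : List ℤ) : List ℤ := (List.range (n + 1)).map fun k => l.getD (n - k) 0

end arith

section defs

/-- The matrix of `P3` (powers of `q`). -/
def mP : List Vc := [
  [[0, 1], [], [], [], [], [], [], [], [], [], [], [], [], [], [-1], [], [], [], [], []],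
  [[1], [-1], [], [], [], [], [], [], [], [], [], [0, 1], [], [], [-1], [], [], [], [], []],
  [[1], [], [-1, 1], [], [], [], [], [], [], [], [], [], [], [], [-1], [], [], [], [], []],
  [[1], [], [], [-1, 1], [], [], [], [], [], [], [], [], [], [], [-1], [], [], [], [], []],
  [[1], [], [], [], [-1, 1], [], [], [], [], [], [], [], [], [], [-1], [], [], [], [], []],
  [[1], [], [], [], [], [-1], [], [], [], [], [], [], [0, 1], [0, 1], [-1], [0, -1], [], [], [], []],
  [[1], [], [], [], [], [], [-1], [], [], [], [], [], [0, 1], [], [-1], [], [], [], [], []],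
  [[1], [], [], [], [], [], [], [-1], [], [], [], [], [], [0, 1], [-1], [], [], [], [], []],
  [[1], [], [], [], [], [], [], [], [-1, 1], [], [], [], [], [], [-1], [], [], [], [], []],
  [[], [], [], [], [1], [], [], [], [], [-1], [], [], [], [], [-1], [], [], [], [], []],
  [[], [], [], [1], [], [], [], [], [], [], [-1], [], [], [], [-1], [], [], [], [], []],
  [[], [], [], [], [], [], [], [], [1], [], [], [-1, 1], [], [], [-1], [], [], [], [], []],
  [[], [], [1], [], [], [], [], [], [], [], [], [], [-1, 1], [], [-1], [], [], [], [], []],
  [[], [], [1], [], [], [], [], [], [], [], [], [], [], [-1, 1], [-1], [], [], [], [], []],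
  [[1], [], [], [], [], [], [], [], [], [], [], [], [], [], [-2, 1], [], [], [], [], []],
  [[], [], [1], [], [], [], [], [], [], [], [], [], [], [], [-1], [-1, 1], [], [], [], []],
  [[], [], [], [], [], [], [], [], [], [], [], [1], [], [], [], [], [-1], [], [], [-1]],
  [[], [], [], [], [], [], [], [], [], [], [], [], [1], [], [], [-1], [], [-1], [], []],
  [[], [], [], [], [], [], [], [], [], [], [], [], [], [1], [], [-1], [], [], [-1], []],
  [[], [], [], [], [], [], [], [], [1], [], [], [], [], [], [-1], [], [], [], [], [-1, 1]]]

/-- The matrix of `L3`. -/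
def mL : List Vc := [
  [[0, 1], [], [], [], [], [], [], [], [], [], [], [], [], [], [], [], [], [], [], []],
  [[], [0, 1], [], [], [], [], [], [], [], [], [], [], [], [], [], [], [], [], [], []],
  [[1], [], [], [], [], [], [], [], [-1], [], [], [], [], [], [0, 1], [], [], [], [], []],
  [[], [], [], [0, 1], [], [], [], [], [], [], [], [], [], [], [], [], [], [], [], []],
  [[], [], [], [], [0, 1], [], [], [], [], [], [], [], [], [], [], [], [], [], [], []],
  [[1], [-1], [], [], [], [], [], [], [], [0, 1], [0, 1], [], [], [], [], [], [0, -1], [], [], []],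
  [[1], [-1], [], [], [], [], [], [], [], [0, 1], [], [], [], [], [], [], [], [], [], []],
  [[1], [-1], [], [], [], [], [], [], [], [], [0, 1], [], [], [], [], [], [], [], [], []],
  [[], [], [], [], [], [], [], [], [0, 1], [], [], [], [], [], [], [], [], [], [], []],
  [[], [], [], [], [], [], [], [], [], [0, 1], [], [], [], [], [], [], [], [], [], []],
  [[], [], [], [], [], [], [], [], [], [], [0, 1], [], [], [], [], [], [], [], [], []],
  [[], [], [], [], [], [], [], [], [], [], [], [0, 1], [], [], [], [], [], [], [], []],
  [[], [], [], [], [1], [], [], [], [], [], [], [-1], [], [], [], [], [], [], [], []],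
  [[], [], [], [1], [], [], [], [], [], [], [], [-1], [], [], [], [], [], [], [], []],
  [[], [], [], [], [], [], [], [], [], [], [], [], [], [], [0, 1], [], [], [], [], []],
  [[], [], [], [], [], [], [], [], [], [], [], [], [], [], [1], [], [], [], [], [-1]],
  [[], [], [], [], [], [], [], [], [], [], [], [], [], [], [], [], [0, 1], [], [], []],
  [[], [], [], [], [], [], [], [], [], [1], [], [], [], [], [], [], [-1], [], [], []],
  [[], [], [], [], [], [], [], [], [], [], [1], [], [], [], [], [], [-1], [], [], []],
  [[], [], [], [], [], [], [], [], [], [], [], [], [], [], [], [], [], [], [], [0, 1]]]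

/-- The matrix of `f ↦ f (P3m 0 w)`. -/
def mN : List Vc := [
  [[1], [], [], [], [], [], [], [], [], [], [], [], [], [], [-1], [], [], [], [], []],
  [[], [], [], [], [], [], [], [], [1], [], [], [], [], [], [-1], [], [], [], [], []],
  [[1], [], [], [], [], [], [], [], [], [], [], [], [], [], [-1], [], [], [], [], []],
  [[1], [], [], [], [], [], [], [], [], [], [], [], [], [], [-1], [], [], [], [], []],
  [[1], [], [], [], [], [], [], [], [], [], [], [], [], [], [-1], [], [], [], [], []],
  [[], [], [1], [], [], [], [], [], [], [], [], [], [], [], [-1], [], [], [], [], []],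
  [[], [], [1], [], [], [], [], [], [], [], [], [], [], [], [-1], [], [], [], [], []],
  [[], [], [1], [], [], [], [], [], [], [], [], [], [], [], [-1], [], [], [], [], []],
  [[1], [], [], [], [], [], [], [], [], [], [], [], [], [], [-1], [], [], [], [], []],
  [[], [], [], [], [], [], [], [], [], [], [], [], [], [], [], [], [], [], [], []],
  [[], [], [], [], [], [], [], [], [], [], [], [], [], [], [], [], [], [], [], []],
  [[], [], [], [], [], [], [], [], [1], [], [], [], [], [], [-1], [], [], [], [], []],
  [[], [], [1], [], [], [], [], [], [], [], [], [], [], [], [-1], [], [], [], [], []],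
  [[], [], [1], [], [], [], [], [], [], [], [], [], [], [], [-1], [], [], [], [], []],
  [[1], [], [], [], [], [], [], [], [], [], [], [], [], [], [-1], [], [], [], [], []],
  [[], [], [1], [], [], [], [], [], [], [], [], [], [], [], [-1], [], [], [], [], []],
  [[], [], [], [], [], [], [], [], [], [], [], [], [], [], [], [], [], [], [], []],
  [[], [], [], [], [], [], [], [], [], [], [], [], [], [], [], [], [], [], [], []],
  [[], [], [], [], [], [], [], [], [], [], [], [], [], [], [], [], [], [], [], []],
  [[], [], [], [], [], [], [], [], [1], [], [], [], [], [], [-1], [], [], [], [], []]]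

/-- The matrix of `f ↦ f (M3m w)`. -/
def mM : List Vc := [
  [[1], [], [], [], [], [], [], [], [], [], [], [-1], [], [], [], [], [], [], [], []],
  [[1], [], [], [], [], [], [], [], [], [], [], [-1], [], [], [], [], [], [], [], []],
  [[], [], [], [], [], [], [], [], [1], [], [], [-1], [], [], [], [], [], [], [], []],
  [[1], [], [], [], [], [], [], [], [], [], [], [-1], [], [], [], [], [], [], [], []],
  [[1], [], [], [], [], [], [], [], [], [], [], [-1], [], [], [], [], [], [], [], []],
  [[], [1], [], [], [], [], [], [], [], [], [], [-1], [], [], [], [], [], [], [], []],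
  [[], [1], [], [], [], [], [], [], [], [], [], [-1], [], [], [], [], [], [], [], []],
  [[], [1], [], [], [], [], [], [], [], [], [], [-1], [], [], [], [], [], [], [], []],
  [[1], [], [], [], [], [], [], [], [], [], [], [-1], [], [], [], [], [], [], [], []],
  [[], [1], [], [], [], [], [], [], [], [], [], [-1], [], [], [], [], [], [], [], []],
  [[], [1], [], [], [], [], [], [], [], [], [], [-1], [], [], [], [], [], [], [], []],
  [[1], [], [], [], [], [], [], [], [], [], [], [-1], [], [], [], [], [], [], [], []],
  [[], [], [], [], [], [], [], [], [], [], [], [], [], [], [], [], [], [], [], []],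
  [[], [], [], [], [], [], [], [], [], [], [], [], [], [], [], [], [], [], [], []],
  [[], [], [], [], [], [], [], [], [1], [], [], [-1], [], [], [], [], [], [], [], []],
  [[], [], [], [], [], [], [], [], [], [], [], [], [], [], [], [], [], [], [], []],
  [[], [1], [], [], [], [], [], [], [], [], [], [-1], [], [], [], [], [], [], [], []],
  [[], [], [], [], [], [], [], [], [], [], [], [], [], [], [], [], [], [], [], []],
  [[], [], [], [], [], [], [], [], [], [], [], [], [], [], [], [], [], [], [], []],
  [[], [], [], [], [], [], [], [], [1], [], [], [-1], [], [], [], [], [], [], [], []]]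

/-- The inverse rotation of the indices. -/
def rotI' : List ℕ := [0, 1, 2, 5, 3, 4, 8, 6, 7, 11, 9, 10, 14, 12, 13, 15, 16, 19, 17, 18]

/-- The exchange of the terminals `1`, `2`. -/
def swI : List ℕ := [0, 1, 2, 4, 3, 5, 7, 6, 8, 10, 9, 11, 13, 12, 14, 15, 16, 18, 17, 19]

/-- The elementary operators: `P`, `L` (sum over all values of the variable), `Pn`, `Ln` (sum over the nonzero values), `S`
(two parallel edges). -/
inductive El
  | P | Pn | L | Ln | S

/-- The matrix. -/
def El.mat : El → List Vc
  | .P => mP
  | .Pn => (List.range 20).map fun i => vad (mP.getD i []) (vsc [-1] (mN.getD i []))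
  | .L => mL
  | .Ln => (List.range 20).map fun i => (List.range 20).map fun j =>
      pad ((mL.getD i []).getD j []) (if i = j then [-1] else [])
  | .S => (List.range 20).map fun i => (List.range 20).map fun j =>
      pad (pml [-2, 1] ((mL.getD i []).getD j [])) (pad (if i = j then [0, 1] else [])
        (pml [-1, 1] ((mM.getD i []).getD j [])))

/-- The matrix, applied at a terminal. -/
def El.vc (o : El) (i : ℕ) (v : Vc) : Vc :=
  match i with
  | 1 => vpm rotI (vml (vpm rotI' v) o.mat)
  | 2 => vpm rotI' (vml (vpm rotI v) o.mat)
  | _ => vml v o.mat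

/-- A chain of elementary operators; the first one is the outer one. -/
def cv : List (El × ℕ) → Vc → Vc
  | [], v => v
  | (o, i) :: l, v => o.vc i (cv l v)

variable {K : Type} [Field K]

/-- Two parallel edges (`a`, `b`) between the terminal `3` and a new vertex, which becomes the terminal `3`. -/
def S3m (a b : K) (w : W5 K) : W5 K :=
  ⟨(a + b) * w.x0, (a + b) * w.x1, (a + b) * w.x2, (a + b) * w.x3 + a * b * w.x0,
    (a + b) * w.x4 + a * b * (w.x1 + w.x2)⟩

variable [Fintype K]

/-- The elementary operator at the terminal `3`. -/
noncomputable def El.op (o : El) (f : W5 K → ℝ) (w : W5 K) : ℝ :=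
  match o with
  | .P => ∑ y : K, f (P3m y w)
  | .Pn => ∑ y : K, if y = 0 then 0 else f (P3m y w)
  | .L => ∑ y : K, f (L3m y w)
  | .Ln => ∑ y : K, if y = 0 then 0 else f (L3m y w)
  | .S => ∑ a : K, ∑ b : K, f (S3m a b w)

/-- The elementary operator at the terminal `i`. -/
noncomputable def El.at (o : El) (i : ℕ) (f : W5 K → ℝ) (w : W5 K) : ℝ :=
  match i with
  | 1 => o.op (fun v => f v.tr) w.rt
  | 2 => o.op (fun v => f v.rt) w.tr
  | _ => o.op f w

/-- A chain of elementary operators; the first one is the outer one, that is, its map is applied first. -/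
noncomputable def ch : List (El × ℕ) → (W5 K → ℝ) → W5 K → ℝ
  | [], f => f
  | (o, i) :: l, f => o.at i (ch l f)

/-- The function with given coefficients (polynomials in `q`). -/
noncomputable def bq (v : Vc) (w : W5 K) : ℝ := ∑ i : Fin 20, lev (qr K) (v.getD i []) * bas i w

/-- The function `1 - x0`: the closing with all three terminals isolated. -/
noncomputable def jJ (w : W5 K) : ℝ := if w.x0 = 0 then 0 else 1

/-- The function `1 - x4`. -/
noncomputable def jF (w : W5 K) : ℝ := if w.x4 = 0 then 0 else 1

/-- The function `1 - s3`. -/
noncomputable def jS12 (w : W5 K) : ℝ := if w.x1 + w.x2 = 0 then 0 else 1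

/-- The function `1 - s2`. -/
noncomputable def jS13 (w : W5 K) : ℝ := if w.x1 + w.x3 = 0 then 0 else 1

/-- The function `1 - s1`. -/
noncomputable def jS23 (w : W5 K) : ℝ := if w.x2 + w.x3 = 0 then 0 else 1

end defs

end Pool.Agent.Pf4
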