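import Pool.Agent.Pf4.ADir

/-!
# The direct facts for the letter `h`
-/

set_option autoImplicit false
set_option maxRecDepth 10000

open scoped BigOperators Classical

namespace Pool.Agent.Pf4

section

variable {K : Type} [Field K]

/-- The four coordinates of the vector `ct w l`, `l = (j1, j2, u1, u2)`. -/
def cA (w : W5 K) (j1 j2 _u1 u2 : K) : K := -(w.x0 * u2) - w.x3 * j1 - (w.x2 + w.x3) * j2

/-- The second coordinate. -/
def cB (w : W5 K) (j1 j2 u1 _u2 : K) : K := w.x0 * u1 + (w.x1 + w.x3) * j1 + w.x3 * j2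

/-- The third coordinate. -/
def cC (w : W5 K) (_j1 j2 u1 u2 : K) : K := -(w.x3 * u1) + (w.x1 + w.x3) * u2 + w.x4 * j2

/-- The fourth coordinate. -/
def cD (w : W5 K) (j1 _j2 u1 u2 : K) : K := -((w.x2 + w.x3) * u1) + w.x3 * u2 - w.x4 * j1

/-- `l` is in the plane of `w`. -/
def In4 (w : W5 K) (j1 j2 u1 u2 : K) : Prop :=
  cA w j1 j2 u1 u2 = 0 ∧ cB w j1 j2 u1 u2 = 0 ∧ cC w j1 j2 u1 u2 = 0 ∧ cD w j1 j2 u1 u2 = 0

/-- The vector of the wedge product of `l` and `m`. -/
def wd (l1 l2 l3 l4 m1 m2 m3 m4 : K) : W5 K :=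
  ⟨l1 * m2 - l2 * m1, (l2 * m3 - l3 * m2) - (l2 * m4 - l4 * m2), -(l1 * m4 - l4 * m1) - (l2 * m4 - l4 * m2),
    l2 * m4 - l4 * m2, l3 * m4 - l4 * m3⟩

/-- The wedge product of `l` and `ct w l`. -/
def kap (w : W5 K) (j1 j2 u1 u2 : K) : W5 K :=
  wd j1 j2 u1 u2 (cA w j1 j2 u1 u2) (cB w j1 j2 u1 u2) (cC w j1 j2 u1 u2) (cD w j1 j2 u1 u2)

/-- MODULE HA.  Five polynomial identities (`ring`). -/
theorem kap_chain (a b c d e f : K) (w : W5 K) :
    (L3m (-b) (P3m (-d) (L3m (-c) (P3m (-e) (L3m (-f) ⟨(XH a b c d e f w).x0, (XH a b c d e f w).x3,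
      (XH a b c d e f w).x1, (XH a b c d e f w).x2, (XH a b c d e f w).x4⟩).rt).tr.tr).rt).rt).tr =
    ⟨d * e * (a * d * e + b * c * f) * w.x0 +
        (kap w (d * e - c * f) (f * (c + d)) (f * (d * e) - b * c * f) (f * (d * e) + c * d * f)).x0,
      d * e * (a * d * e + b * c * f) * w.x1 +
        (kap w (d * e - c * f) (f * (c + d)) (f * (d * e) - b * c * f) (f * (d * e) + c * d * f)).x1,
      d * e * (a * d * e + b * c * f) * w.x2 +
        (kap w (d * e - c * f) (f * (c + d)) (f * (d * e) - b * c * f) (f * (d * e) + c * d * f)).x2,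
      d * e * (a * d * e + b * c * f) * w.x3 +
        (kap w (d * e - c * f) (f * (c + d)) (f * (d * e) - b * c * f) (f * (d * e) + c * d * f)).x3,
      d * e * (a * d * e + b * c * f) * w.x4 +
        (kap w (d * e - c * f) (f * (c + d)) (f * (d * e) - b * c * f) (f * (d * e) + c * d * f)).x4⟩ := by
  ext <;> simp only [kap, wd, cA, cB, cC, cD, XH, L3m, P3m, W5.rt, W5.tr] <;> ring

private theorem HA_eq0 (w : W5 K) :
    w = 0 ↔ w.x0 = 0 ∧ w.x1 = 0 ∧ w.x2 = 0 ∧ w.x3 = 0 ∧ w.x4 = 0 := by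
  rw [W5.ext_iff]
  rfl

private theorem HA_om {x0 x1 x2 x3 x4 l1 l2 l3 l4 m1 m2 m3 m4 : K}
    (h1 : m1 = -(x0 * l4) - x3 * l1 - (x2 + x3) * l2) (h2 : m2 = x0 * l3 + (x1 + x3) * l1 + x3 * l2)
    (h3 : m3 = -(x3 * l3) + (x1 + x3) * l4 + x4 * l2) (h4 : m4 = -((x2 + x3) * l3) + x3 * l4 - x4 * l1) :
    l1 * m3 + l2 * m4 - l3 * m1 - l4 * m2 = 0 := by
  linear_combination l1 * h3 + l2 * h4 - l3 * h1 - l4 * h2

private theorem HA_core {x0 x1 x2 x3 x4 l1 l2 l3 l4 m1 m2 m3 m4 : K} (Q : x0 * x4 = x1 * x2 + x1 * x3 + x2 * x3)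
    (h1 : m1 = -(x0 * l4) - x3 * l1 - (x2 + x3) * l2) (h2 : m2 = x0 * l3 + (x1 + x3) * l1 + x3 * l2)
    (h3 : m3 = -(x3 * l3) + (x1 + x3) * l4 + x4 * l2) (h4 : m4 = -((x2 + x3) * l3) + x3 * l4 - x4 * l1)
    (a12 : l1 * m2 = l2 * m1) (a14 : l1 * m4 = l4 * m1) (a23 : l2 * m3 = l3 * m2)
    (a34 : l3 * m4 = l4 * m3) : m1 = 0 ∧ m2 = 0 ∧ m3 = 0 ∧ m4 = 0 := by
  refine ⟨?_, ?_, ?_, ?_⟩
  · have : m1 * m1 = 0 := by
      linear_combination m1 * h1 + x0 * a14 + (x2 + x3) * a12 + (-l1 * x0) * h4 + (-l1 * x3) * h1 +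
        (-l1 * (x2 + x3)) * h2 + l1 * l1 * Q
    exact mul_self_eq_zero.1 this
  · have : m2 * m2 = 0 := by
      linear_combination m2 * h2 - x0 * a23 + (x1 + x3) * a12 + l2 * x0 * h3 + l2 * (x1 + x3) * h1 +
        l2 * x3 * h2 + l2 * l2 * Q
    exact mul_self_eq_zero.1 this
  · have : m3 * m3 = 0 := by
      linear_combination m3 * h3 - (x1 + x3) * a34 + x4 * a23 + l3 * (-x3) * h3 + l3 * (x1 + x3) * h4 +
        l3 * x4 * h2 + l3 * l3 * Q
    exact mul_self_eq_zero.1 this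
  · have : m4 * m4 = 0 := by
      linear_combination m4 * h4 - (x2 + x3) * a34 - x4 * a14 + l4 * (-(x2 + x3)) * h3 + l4 * x3 * h4 -
        l4 * x4 * h1 + l4 * l4 * Q
    exact mul_self_eq_zero.1 this

private theorem HA_all {x0 x1 x2 x3 x4 l1 l2 l3 l4 m1 m2 m3 m4 r : K} (Q : x0 * x4 = x1 * x2 + x1 * x3 + x2 * x3)
    (h0 : ¬ (x0 = 0 ∧ x1 = 0 ∧ x2 = 0 ∧ x3 = 0 ∧ x4 = 0))
    (h1 : m1 = -(x0 * l4) - x3 * l1 - (x2 + x3) * l2) (h2 : m2 = x0 * l3 + (x1 + x3) * l1 + x3 * l2)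
    (h3 : m3 = -(x3 * l3) + (x1 + x3) * l4 + x4 * l2) (h4 : m4 = -((x2 + x3) * l3) + x3 * l4 - x4 * l1)
    (e0 : r * x0 + (l1 * m2 - l2 * m1) = 0)
    (e1 : r * x1 + ((l2 * m3 - l3 * m2) - (l2 * m4 - l4 * m2)) = 0)
    (e2 : r * x2 + (-(l1 * m4 - l4 * m1) - (l2 * m4 - l4 * m2)) = 0)
    (e3 : r * x3 + (l2 * m4 - l4 * m2) = 0) (e4 : r * x4 + (l3 * m4 - l4 * m3) = 0) :
    r = 0 ∧ m1 = 0 ∧ m2 = 0 ∧ m3 = 0 ∧ m4 = 0 := by
  have om := HA_om h1 h2 h3 h4
  have r1 : r * m1 = 0 := by linear_combination r * h1 - l4 * e0 - l1 * e3 - l2 * (e2 + e3)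
  have r2 : r * m2 = 0 := by linear_combination r * h2 + l3 * e0 + l1 * (e1 + e3) + l2 * e3 - l2 * om
  have r3 : r * m3 = 0 := by linear_combination r * h3 - l3 * e3 + l4 * (e1 + e3) + l2 * e4
  have r4 : r * m4 = 0 := by linear_combination r * h4 - l3 * (e2 + e3) + l4 * e3 - l1 * e4 - l4 * om
  have hr : r = 0 := by
    by_contra hr
    have z1 : m1 = 0 := by simpa [hr] using r1
    have z2 : m2 = 0 := by simpa [hr] using r2
    have z3 : m3 = 0 := by simpa [hr] using r3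
    have z4 : m4 = 0 := by simpa [hr] using r4
    rw [z1, z2] at e0
    rw [z2, z3, z4] at e1
    rw [z1, z2, z4] at e2
    rw [z2, z4] at e3
    rw [z3, z4] at e4
    apply h0
    refine ⟨?_, ?_, ?_, ?_, ?_⟩
    · simpa [hr] using e0
    · simpa [hr] using e1
    · simpa [hr] using e2
    · simpa [hr] using e3
    · simpa [hr] using e4
  refine ⟨hr, ?_⟩
  subst hr
  have a12 : l1 * m2 = l2 * m1 := by linear_combination e0
  have a24 : l2 * m4 = l4 * m2 := by linear_combination e3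
  have a23 : l2 * m3 = l3 * m2 := by linear_combination e1 + e3
  have a14 : l1 * m4 = l4 * m1 := by linear_combination (-1 : K) * e2 - e3
  have a34 : l3 * m4 = l4 * m3 := by linear_combination e4
  exact HA_core Q h1 h2 h3 h4 a12 a14 a23 a34

/-- MODULE HA.  With `l = (j1, j2, u1, u2)`, `m = ct w l = (cA, cB, cC, cD) w l`: polynomial identities: (1) `ct (kap w l) l = 0`
(all four coordinates), (2) `om l m = l1 m3 + l2 m4 - l3 m1 - l4 m2 = 0`, (3) `ct w m = Q(w) l`, which is `0` for `w.Iso`.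
Proof.  Applying `ct (-) l` to `κ w + kap w l = 0` gives `κ m = 0`.  If `m = 0`, then `kap w l = 0` and `κ w = 0`, `κ = 0`.  If
`κ = 0`, then `kap w l = wd l m = 0`, with (2) all `l_i m_j = l_j m_i`; if `l = 0` then `m = 0`; if `l_i ≠ 0`, then
`l_i m = m_i l`, apply `ct w`: `0 = m_i m`, so `m_i = 0` or `m = 0`, and `m_i = 0` gives `l_i m = 0`. -/
theorem kap_zero {w : W5 K} (hw : w.Iso) (h0 : w ≠ 0) {r j1 j2 u1 u2 : K}
    (e0 : r * w.x0 + (kap w j1 j2 u1 u2).x0 = 0) (e1 : r * w.x1 + (kap w j1 j2 u1 u2).x1 = 0)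
    (e2 : r * w.x2 + (kap w j1 j2 u1 u2).x2 = 0) (e3 : r * w.x3 + (kap w j1 j2 u1 u2).x3 = 0)
    (e4 : r * w.x4 + (kap w j1 j2 u1 u2).x4 = 0) : r = 0 ∧ In4 w j1 j2 u1 u2 := by
  have h := HA_all (r := r) (l1 := j1) (l2 := j2) (l3 := u1) (l4 := u2) (m1 := cA w j1 j2 u1 u2)
    (m2 := cB w j1 j2 u1 u2) (m3 := cC w j1 j2 u1 u2) (m4 := cD w j1 j2 u1 u2) hw
    (fun h => h0 ((HA_eq0 w).2 h)) rfl rfl rfl rfl e0 e1 e2 e3 e4
  exact h

private theorem HA_L3 {y : K} {v : W5 K} (h : L3m y v = 0) : v = 0 := by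
  rw [HA_eq0] at h ⊢
  obtain ⟨h1, h2, h3, h4, h5⟩ := h
  simp only [L3m] at h1 h2 h3 h4 h5
  rw [h1] at h4
  rw [h2, h3] at h5
  exact ⟨h1, h2, h3, by simpa using h4, by simpa using h5⟩

private theorem HA_P3 {y : K} (hy : y ≠ 0) {v : W5 K} (h : P3m y v = 0) : v = 0 := by
  rw [HA_eq0] at h ⊢
  obtain ⟨h1, h2, h3, h4, h5⟩ := h
  simp only [P3m] at h1 h2 h3 h4 h5
  have e1 : v.x1 = 0 := by simpa [hy] using h2
  have e2 : v.x2 = 0 := by simpa [hy] using h3
  have e4 : v.x4 = 0 := by simpa [hy] using h5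
  rw [e1, e2] at h1
  rw [e4] at h4
  exact ⟨by simpa [hy] using h1, e1, e2, by simpa [hy] using h4, e4⟩

private theorem HA_rt {v : W5 K} (h : v.rt = 0) : v = 0 := by
  rw [HA_eq0] at h ⊢
  simp only [W5.rt] at h
  tauto

private theorem HA_tr {v : W5 K} (h : v.tr = 0) : v = 0 := by
  rw [HA_eq0] at h ⊢
  simp only [W5.tr] at h
  tauto

private theorem HA_chain0 (b c d e f : K) :
    (L3m (-b) (P3m (-d) (L3m (-c) (P3m (-e) (L3m (-f) (0 : W5 K)).rt).tr.tr).rt).rt).tr = 0 := by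
  rw [HA_eq0]
  have z0 : (0 : W5 K).x0 = 0 := rfl
  have z1 : (0 : W5 K).x1 = 0 := rfl
  have z2 : (0 : W5 K).x2 = 0 := rfl
  have z3 : (0 : W5 K).x3 = 0 := rfl
  have z4 : (0 : W5 K).x4 = 0 := rfl
  simp [L3m, P3m, W5.rt, W5.tr, z0, z1, z2, z3, z4]

/-- MODULE HA.  `→`: `kap_chain` with left side `0`, then `kap_zero` with `r = d e (a d e + b c f)`.  `←`: `In4` gives
`kap = 0`, so the left side of `kap_chain` is `0`, and `L3m y`, `P3m y` (`y ≠ 0`), `rt`, `tr` have no kernel. -/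
theorem xh_iff {w : W5 K} (hw : w.Iso) (h0 : w ≠ 0) {a b c d e f : K} (hd : d ≠ 0) (he : e ≠ 0) :
    XH a b c d e f w = 0 ↔ a * d * e + b * c * f = 0 ∧
      In4 w (d * e - c * f) (f * (c + d)) (f * (d * e) - b * c * f) (f * (d * e) + c * d * f) := by
  have hc := kap_chain a b c d e f w
  constructor
  · intro h
    have h' := (HA_eq0 _).1 h
    have hX : (⟨(XH a b c d e f w).x0, (XH a b c d e f w).x3, (XH a b c d e f w).x1, (XH a b c d e f w).x2,
        (XH a b c d e f w).x4⟩ : W5 K) = 0 := by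
      rw [HA_eq0]
      tauto
    rw [hX, HA_chain0] at hc
    have hc' := (HA_eq0 _).1 hc.symm
    obtain ⟨e0, e1, e2, e3, e4⟩ := hc'
    obtain ⟨hr, hI⟩ := kap_zero hw h0 e0 e1 e2 e3 e4
    refine ⟨?_, hI⟩
    have := mul_ne_zero hd he
    simpa [this] using hr
  · rintro ⟨hs, hI⟩
    obtain ⟨i1, i2, i3, i4⟩ := hI
    have hk : kap w (d * e - c * f) (f * (c + d)) (f * (d * e) - b * c * f) (f * (d * e) + c * d * f) = 0 := by
      rw [HA_eq0]
      simp [kap, wd, i1, i2, i3, i4]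
    rw [hk, hs] at hc
    have hz : (⟨d * e * 0 * w.x0 + (0 : W5 K).x0, d * e * 0 * w.x1 + (0 : W5 K).x1, d * e * 0 * w.x2 + (0 : W5 K).x2,
        d * e * 0 * w.x3 + (0 : W5 K).x3, d * e * 0 * w.x4 + (0 : W5 K).x4⟩ : W5 K) = 0 := by
      rw [HA_eq0]
      have z0 : (0 : W5 K).x0 = 0 := rfl
      have z1 : (0 : W5 K).x1 = 0 := rfl
      have z2 : (0 : W5 K).x2 = 0 := rfl
      have z3 : (0 : W5 K).x3 = 0 := rfl
      have z4 : (0 : W5 K).x4 = 0 := rfl
      simp [z0, z1, z2, z3, z4]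
    rw [hz] at hc
    have g1 := HA_L3 (HA_rt (HA_P3 (neg_ne_zero.2 he) (HA_tr (HA_tr (HA_L3 (HA_rt (HA_P3 (neg_ne_zero.2 hd)
      (HA_rt (HA_L3 (HA_tr hc))))))))))
    rw [HA_eq0] at g1 ⊢
    tauto

/-- MODULE HF.  `ring`. -/
theorem XH_adj (a b c d e f : K) (w : W5 K) :
    XH (-c) (-e) (-a) (-f) (-b) (-d) (XH a b c d e f w) = w.sm (-(a * d * e + b * c * f) ^ 2) := by
  ext <;> simp only [XH, W5.sm] <;> ring

/-- The only coordinate which is not zero is `x4`. -/
def OnJ (w : W5 K) : Prop := w.x0 = 0 ∧ w.x1 = 0 ∧ w.x2 = 0 ∧ w.x3 = 0 ∧ w.x4 ≠ 0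

private theorem HF_J {w : W5 K} {a b c d e f : K} (h : OnJ (XH a b c d e f w)) :
    -((XH a b c d e f w).x4 * ((a + f) + (b + d) + (c + e))) = -(a * d * e + b * c * f) ^ 2 * w.x0 ∧
    (XH a b c d e f w).x4 * ((a + f) * (b + d)) = -(a * d * e + b * c * f) ^ 2 * w.x1 ∧
    (XH a b c d e f w).x4 * ((b + d) * (c + e)) = -(a * d * e + b * c * f) ^ 2 * w.x2 ∧
    (XH a b c d e f w).x4 * ((c + e) * (a + f)) = -(a * d * e + b * c * f) ^ 2 * w.x3 ∧
    -((XH a b c d e f w).x4 * ((a + f) * (b + d) * (c + e))) = -(a * d * e + b * c * f) ^ 2 * w.x4 := by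
  obtain ⟨h0, h1, h2, h3, -⟩ := h
  have hadj := XH_adj a b c d e f w
  have hX : XH a b c d e f w = ⟨0, 0, 0, 0, (XH a b c d e f w).x4⟩ := by
    ext
    · exact h0
    · exact h1
    · exact h2
    · exact h3
    · rfl
  generalize (XH a b c d e f w).x4 = m at hX ⊢
  rw [hX] at hadj
  have g0 := congrArg W5.x0 hadj
  have g1 := congrArg W5.x1 hadj
  have g2 := congrArg W5.x2 hadj
  have g3 := congrArg W5.x3 hadj
  have g4 := congrArg W5.x4 hadj
  simp only [XH, W5.sm] at g0 g1 g2 g3 g4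
  refine ⟨?_, ?_, ?_, ?_, ?_⟩
  · linear_combination g0
  · linear_combination g1
  · linear_combination g2
  · linear_combination g3
  · linear_combination g4

private theorem HF_X (a b c d e f r : K) :
    XH a b c d e f ((⟨(a + f) + (b + d) + (c + e), -((a + f) * (b + d)),
      -((b + d) * (c + e)), -((c + e) * (a + f)), (a + f) * (b + d) * (c + e)⟩ : W5 K).sm r) =
      ⟨0, 0, 0, 0, r * (a * d * e + b * c * f) ^ 2⟩ := by
  ext <;> simp only [XH, W5.sm] <;> ring

/-- MODULE HF.  Let `α = a + f`, `β = b + d`, `γ = c + e`, `σ = a d e + b c f ≠ 0`.  `→`: if `XH a b c d e f w = (0, 0, 0, 0, μ)`,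
apply the map of `XH_adj`: `-σ ^ 2 w = μ (-(α + β + γ), α β, β γ, γ α, -α β γ)`.  `←`: by `XH_adj` for `(c, e, a, f, b, d)` with
the signs (the same identity, `σ` is the same up to sign) `XH a b c d e f` maps the vector on the right to `± σ ^ 2 (0,0,0,0,1)`
times `ν`. -/
theorem onJ_iff {w : W5 K} {a b c d e f : K} (hs : a * d * e + b * c * f ≠ 0) :
    OnJ (XH a b c d e f w) ↔ ∃ r : K, r ≠ 0 ∧ w = (⟨(a + f) + (b + d) + (c + e), -((a + f) * (b + d)),
      -((b + d) * (c + e)), -((c + e) * (a + f)), (a + f) * (b + d) * (c + e)⟩ : W5 K).sm r := by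
  constructor
  · intro h
    obtain ⟨g0, g1, g2, g3, g4⟩ := HF_J h
    have h4 := h.2.2.2.2
    have hs2 : (a * d * e + b * c * f) ^ 2 ≠ 0 := pow_ne_zero 2 hs
    refine ⟨(XH a b c d e f w).x4 / (a * d * e + b * c * f) ^ 2, div_ne_zero h4 hs2, ?_⟩
    ext
    · simp only [W5.sm]
      rw [div_mul_eq_mul_div, eq_div_iff hs2]
      linear_combination g0
    · simp only [W5.sm]
      rw [div_mul_eq_mul_div, eq_div_iff hs2]
      linear_combination g1
    · simp only [W5.sm]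
      rw [div_mul_eq_mul_div, eq_div_iff hs2]
      linear_combination g2
    · simp only [W5.sm]
      rw [div_mul_eq_mul_div, eq_div_iff hs2]
      linear_combination g3
    · simp only [W5.sm]
      rw [div_mul_eq_mul_div, eq_div_iff hs2]
      linear_combination g4
  · rintro ⟨r, hr, rfl⟩
    rw [HF_X]
    exact ⟨rfl, rfl, rfl, rfl, mul_ne_zero hr (pow_ne_zero 2 hs)⟩

/-- MODULE HF.  By `XH_adj` the vector `(-(α + β + γ), α β, β γ, γ α, -α β γ)` vanishes. -/
theorem onJ_zero {w : W5 K} {a b c d e f : K} (hs : a * d * e + b * c * f = 0) (h : OnJ (XH a b c d e f w)) :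
    a + f = 0 ∧ b + d = 0 ∧ c + e = 0 := by
  obtain ⟨g0, g1, g2, g3, g4⟩ := HF_J h
  have h4 := h.2.2.2.2
  rw [hs] at g0 g1 g2 g3
  have k0 : (a + f) + (b + d) + (c + e) = 0 := by
    have : (XH a b c d e f w).x4 * ((a + f) + (b + d) + (c + e)) = 0 := by linear_combination (-1 : K) * g0
    exact (mul_eq_zero.1 this).resolve_left h4
  have k1 : (a + f) * (b + d) = 0 := by
    have : (XH a b c d e f w).x4 * ((a + f) * (b + d)) = 0 := by linear_combination g1
    exact (mul_eq_zero.1 this).resolve_left h4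
  have k2 : (b + d) * (c + e) = 0 := by
    have : (XH a b c d e f w).x4 * ((b + d) * (c + e)) = 0 := by linear_combination g2
    exact (mul_eq_zero.1 this).resolve_left h4
  have k3 : (c + e) * (a + f) = 0 := by
    have : (XH a b c d e f w).x4 * ((c + e) * (a + f)) = 0 := by linear_combination g3
    exact (mul_eq_zero.1 this).resolve_left h4
  refine ⟨?_, ?_, ?_⟩
  · have : (a + f) * (a + f) = 0 := by linear_combination (a + f) * k0 - k1 - k3
    exact mul_self_eq_zero.1 this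
  · have : (b + d) * (b + d) = 0 := by linear_combination (b + d) * k0 - k1 - k2
    exact mul_self_eq_zero.1 this
  · have : (c + e) * (c + e) = 0 := by linear_combination (c + e) * k0 - k2 - k3
    exact mul_self_eq_zero.1 this

variable [Fintype K]

/-- The number of `y` with all variables `≠ 0` and `XH y w = 0`. -/
noncomputable def nH (w : W5 K) : ℝ :=
  ∑ a : K, ∑ b : K, ∑ c : K, ∑ d : K, ∑ e : K, ∑ f : K,
    if a ≠ 0 ∧ b ≠ 0 ∧ c ≠ 0 ∧ d ≠ 0 ∧ e ≠ 0 ∧ f ≠ 0 ∧ XH a b c d e f w = 0 then 1 else 0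

/-- The reduced number. -/
noncomputable def n5 (w : W5 K) : ℝ :=
  ∑ k1 : K, ∑ k3 : K, ∑ p1 : K, ∑ p2 : K, ∑ p3 : K,
    if k1 ≠ 0 ∧ k3 ≠ 0 ∧ p1 ≠ 0 ∧ p2 ≠ 0 ∧ p3 ≠ 0 ∧ In4 w (1 - k3) (k3 - k1) (p3 - p1) (p3 - p2) then 1 else 0

private theorem HB_in4 (w : W5 K) {s : K} (hs : s ≠ 0) (a b c d : K) :
    In4 w (s * a) (s * b) (s * c) (s * d) ↔ In4 w a b c d := by
  have h1 : cA w (s * a) (s * b) (s * c) (s * d) = s * cA w a b c d := by
    unfold cA
    ring
  have h2 : cB w (s * a) (s * b) (s * c) (s * d) = s * cB w a b c d := by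
    unfold cB
    ring
  have h3 : cC w (s * a) (s * b) (s * c) (s * d) = s * cC w a b c d := by
    unfold cC
    ring
  have h4 : cD w (s * a) (s * b) (s * c) (s * d) = s * cD w a b c d := by
    unfold cD
    ring
  unfold In4
  rw [h1, h2, h3, h4]
  simp [hs]

private theorem HB_sum6 (P : K → K → K → K → K → K → Prop) [∀ a b c d e f, Decidable (P a b c d e f)] :
    (∑ a : K, ∑ b : K, ∑ c : K, ∑ d : K, ∑ e : K, ∑ f : K, if P a b c d e f then (1 : ℝ) else 0) =
      ((Finset.univ.filter (fun x : K × K × K × K × K × K =>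
        P x.1 x.2.1 x.2.2.1 x.2.2.2.1 x.2.2.2.2.1 x.2.2.2.2.2)).card : ℝ) := by
  rw [Finset.card_filter]
  push_cast
  simp only [Fintype.sum_prod_type]

private theorem HB_sum5 (P : K → K → K → K → K → Prop) [∀ a b c d e, Decidable (P a b c d e)] :
    (∑ a : K, ∑ b : K, ∑ c : K, ∑ d : K, ∑ e : K, if P a b c d e then (1 : ℝ) else 0) =
      ((Finset.univ.filter (fun x : K × K × K × K × K =>
        P x.1 x.2.1 x.2.2.1 x.2.2.2.1 x.2.2.2.2)).card : ℝ) := by
  rw [Finset.card_filter]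
  push_cast
  simp only [Fintype.sum_prod_type]

/-- MODULE HB.  By `xh_iff` the variables `b, c, d, e, f ≠ 0` are free up to `In4`, and `a = -(b c f) / (d e)`.  Bijection:
`k1 = -f / e`, `k3 = c f / (d e)`, `p1 = b c f / (d e)`, `p2 = -c f / e`, `p3 = f`; inverse: `a = -p1`, `b = p1 / k3`,
`c = p2 / k1`, `d = -p2 / k3`, `e = -p3 / k1`, `f = p3`.  The vector `l` of `xh_iff` is `d e` times
`(1 - k3, k3 - k1, p3 - p1, p3 - p2)`, and `In4` is homogeneous in `l`. -/
theorem nH_eq {w : W5 K} (hw : w.Iso) (h0 : w ≠ 0) : nH w = n5 w := by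
  unfold nH n5
  rw [HB_sum6, HB_sum5]
  congr 1
  refine Finset.card_bij'
    (fun x _ => (-x.2.2.2.2.2 / x.2.2.2.2.1, x.2.2.1 * x.2.2.2.2.2 / (x.2.2.2.1 * x.2.2.2.2.1),
      x.2.1 * x.2.2.1 * x.2.2.2.2.2 / (x.2.2.2.1 * x.2.2.2.2.1), -(x.2.2.1 * x.2.2.2.2.2) / x.2.2.2.2.1,
      x.2.2.2.2.2))
    (fun x _ => (-x.2.2.1, x.2.2.1 / x.2.1, x.2.2.2.1 / x.1, -x.2.2.2.1 / x.2.1, -x.2.2.2.2 / x.1, x.2.2.2.2))
    ?_ ?_ ?_ ?_
  · rintro ⟨a, b, c, d, e, f⟩ h
    simp only [Finset.mem_filter, Finset.mem_univ, true_and] at h ⊢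
    obtain ⟨ha, hb, hc, hd, he, hf, hX⟩ := h
    rw [xh_iff hw h0 hd he] at hX
    obtain ⟨hs, hI⟩ := hX
    have hde : d * e ≠ 0 := mul_ne_zero hd he
    refine ⟨div_ne_zero (neg_ne_zero.2 hf) he, div_ne_zero (mul_ne_zero hc hf) hde,
      div_ne_zero (mul_ne_zero (mul_ne_zero hb hc) hf) hde, div_ne_zero (neg_ne_zero.2 (mul_ne_zero hc hf)) he, hf, ?_⟩
    rw [← HB_in4 w hde]
    have q1 : d * e * (1 - c * f / (d * e)) = d * e - c * f := by
      rw [mul_sub, mul_div_cancel₀ _ hde, mul_one]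
    have q2 : d * e * (c * f / (d * e) - -f / e) = f * (c + d) := by
      rw [mul_sub, mul_div_cancel₀ _ hde]
      field_simp
      ring
    have q3 : d * e * (f - b * c * f / (d * e)) = f * (d * e) - b * c * f := by
      rw [mul_sub, mul_div_cancel₀ _ hde]
      ring
    have q4 : d * e * (f - -(c * f) / e) = f * (d * e) + c * d * f := by
      field_simp
      ring
    rw [q1, q2, q3, q4]
    exact hI
  · rintro ⟨k1, k3, p1, p2, p3⟩ h
    simp only [Finset.mem_filter, Finset.mem_univ, true_and] at h ⊢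
    obtain ⟨hk1, hk3, hp1, hp2, hp3, hI⟩ := h
    have hd : -p2 / k3 ≠ 0 := div_ne_zero (neg_ne_zero.2 hp2) hk3
    have he : -p3 / k1 ≠ 0 := div_ne_zero (neg_ne_zero.2 hp3) hk1
    refine ⟨neg_ne_zero.2 hp1, div_ne_zero hp1 hk3, div_ne_zero hp2 hk1, hd, he, hp3, ?_⟩
    rw [xh_iff hw h0 hd he]
    refine ⟨?_, ?_⟩
    · field_simp
      ring
    · have hde : p2 * p3 / (k1 * k3) ≠ 0 := div_ne_zero (mul_ne_zero hp2 hp3) (mul_ne_zero hk1 hk3)
      rw [← HB_in4 w hde] at hI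
      have q1 : p2 * p3 / (k1 * k3) * (1 - k3) = -p2 / k3 * (-p3 / k1) - p2 / k1 * p3 := by
        field_simp
      have q2 : p2 * p3 / (k1 * k3) * (k3 - k1) = p3 * (p2 / k1 + -p2 / k3) := by
        field_simp
        ring
      have q3 : p2 * p3 / (k1 * k3) * (p3 - p1) = p3 * (-p2 / k3 * (-p3 / k1)) - p1 / k3 * (p2 / k1) * p3 := by
        field_simp
      have q4 : p2 * p3 / (k1 * k3) * (p3 - p2) = p3 * (-p2 / k3 * (-p3 / k1)) + p2 / k1 * (-p2 / k3) * p3 := by
        field_simp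
        ring
      rw [q1, q2, q3, q4] at hI
      exact hI
  · rintro ⟨a, b, c, d, e, f⟩ h
    simp only [Finset.mem_filter, Finset.mem_univ, true_and] at h
    obtain ⟨ha, hb, hc, hd, he, hf, hX⟩ := h
    rw [xh_iff hw h0 hd he] at hX
    obtain ⟨hs, -⟩ := hX
    simp only [Prod.mk.injEq, and_true]
    refine ⟨?_, ?_, ?_, ?_, ?_⟩
    · have hde : d * e ≠ 0 := mul_ne_zero hd he
      rw [neg_eq_iff_eq_neg, div_eq_iff hde]
      linear_combination hs
    · field_simp
    · field_simp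
    · field_simp
    · field_simp
  · rintro ⟨k1, k3, p1, p2, p3⟩ h
    simp only [Finset.mem_filter, Finset.mem_univ, true_and] at h
    obtain ⟨hk1, hk3, hp1, hp2, hp3, hI⟩ := h
    simp only [Prod.mk.injEq, and_true]
    refine ⟨?_, ?_, ?_, ?_⟩
    · field_simp
    · field_simp
    · field_simp
    · field_simp

private theorem HC_in (α β : K) :
    (∑ y : K, if y ≠ 0 ∧ α * y + β = 0 then (1 : ℝ) else 0) =
      if α = 0 then (if β = 0 then qr K - 1 else 0) else (if β = 0 then 0 else 1) := by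
  have h1 : ∀ y : K, (if y ≠ 0 ∧ α * y + β = 0 then (1 : ℝ) else 0) =
      (if y * α + β = 0 then (1 : ℝ) else 0) - if y = 0 then (if β = 0 then (1 : ℝ) else 0) else 0 := by
    intro y
    rw [mul_comm α y]
    by_cases hy : y = 0
    · subst hy
      simp
    · simp [hy]
  rw [Finset.sum_congr rfl fun y _ => h1 y, Finset.sum_sub_distrib, card_lin, Finset.sum_ite_eq',
    if_pos (Finset.mem_univ _)]
  split_ifs <;> simp

private theorem HC_out (α β γ : K) :
    (∑ k1 : K, ∑ k3 : K, if k1 ≠ 0 ∧ k3 ≠ 0 ∧ α * k1 + β + γ * k3 = 0 then (1 : ℝ) else 0) =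
      if γ = 0 then (qr K - 1) * (if α = 0 then (if β = 0 then qr K - 1 else 0) else (if β = 0 then 0 else 1))
      else (qr K - 1) - (if α = 0 then (if β = 0 then qr K - 1 else 0) else (if β = 0 then 0 else 1)) := by
  have h1 : ∀ k1 : K, (∑ k3 : K, if k1 ≠ 0 ∧ k3 ≠ 0 ∧ α * k1 + β + γ * k3 = 0 then (1 : ℝ) else 0) =
      if γ = 0 then (qr K - 1) * (if k1 ≠ 0 ∧ α * k1 + β = 0 then (1 : ℝ) else 0)
      else (1 - if k1 = 0 then (1 : ℝ) else 0) - (if k1 ≠ 0 ∧ α * k1 + β = 0 then (1 : ℝ) else 0) := by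
    intro k1
    by_cases hk : k1 = 0
    · subst hk
      simp
    · have h2 : ∀ k3 : K, (if k1 ≠ 0 ∧ k3 ≠ 0 ∧ α * k1 + β + γ * k3 = 0 then (1 : ℝ) else 0) =
          if k3 ≠ 0 ∧ γ * k3 + (α * k1 + β) = 0 then (1 : ℝ) else 0 := by
        intro k3
        rw [add_comm (γ * k3)]
        simp [hk]
      rw [Finset.sum_congr rfl fun k3 _ => h2 k3, HC_in]
      by_cases hg : γ = 0
      · by_cases hb : α * k1 + β = 0 <;> simp [hg, hb, hk]
      · by_cases hb : α * k1 + β = 0 <;> simp [hg, hb, hk]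
  rw [Finset.sum_congr rfl fun k1 _ => h1 k1]
  by_cases hg : γ = 0
  · simp only [if_pos hg]
    rw [← Finset.mul_sum, HC_in]
  · simp only [if_neg hg]
    rw [Finset.sum_sub_distrib, HC_in, Finset.sum_sub_distrib, Finset.sum_ite_eq', if_pos (Finset.mem_univ _)]
    simp [qr]

/-- MODULE HC.  The number of points of the line `α k1 + β + γ k3 = 0`, `α + β + γ = 0`, with `k1, k3 ≠ 0`. -/
theorem card_line {α β γ : K} (h : α + β + γ = 0) :
    (∑ k1 : K, ∑ k3 : K, if k1 ≠ 0 ∧ k3 ≠ 0 ∧ α * k1 + β + γ * k3 = 0 then (1 : ℝ) else 0) =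
      (qr K - 2) + (if α = 0 then 1 else 0) + (if β = 0 then 1 else 0) + (if γ = 0 then 1 else 0) +
        (if α = 0 ∧ β = 0 then qr K ^ 2 - 3 * qr K else 0) := by
  rw [HC_out]
  by_cases ha : α = 0
  · by_cases hb : β = 0
    · have hg : γ = 0 := by rw [ha, hb] at h; simpa using h
      simp only [ha, hb, hg, if_true, and_self]
      ring
    · have hg : γ ≠ 0 := by
        intro hg
        rw [ha, hg] at h
        exact hb (by simpa using h)
      simp only [ha, hb, hg, if_true, if_false, and_false]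
      ring
  · by_cases hb : β = 0
    · have hg : γ ≠ 0 := by
        intro hg
        rw [hb, hg] at h
        exact ha (by simpa using h)
      simp only [ha, hb, hg, if_true, if_false, false_and]
      ring
    · by_cases hg : γ = 0
      · simp only [ha, hb, hg, if_true, if_false, false_and]
        ring
      · simp only [ha, hb, hg, if_false, false_and]
        ring

private theorem HC_two (a b : K) (C : Prop) [Decidable C] :
    (∑ p2 : K, ∑ p3 : K, if p2 = a ∧ p3 = b ∧ C then (1 : ℝ) else 0) = if C then 1 else 0 := by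
  rw [Finset.sum_eq_single a, Finset.sum_eq_single b]
  · simp
  · intro p _ hp
    simp [hp]
  · intro h
    exact absurd (Finset.mem_univ _) h
  · intro p _ hp
    simp [hp]
  · intro h
    exact absurd (Finset.mem_univ _) h

private theorem HC_three (A B : K) :
    (∑ p : K, if p ≠ 0 ∧ p + A ≠ 0 ∧ p + B ≠ 0 then (1 : ℝ) else 0) =
      qr K - 3 + (if A = 0 then 1 else 0) + (if A = B then 1 else 0) + (if B = 0 then 1 else 0) -
        (if A = 0 ∧ A = B then 1 else 0) := by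
  have h1 : ∀ p : K, (if p ≠ 0 ∧ p + A ≠ 0 ∧ p + B ≠ 0 then (1 : ℝ) else 0) =
      1 - (if p = 0 then (1 : ℝ) else 0) - (if p = -A then (1 : ℝ) else 0) - (if p = -B then (1 : ℝ) else 0) +
        (if p = 0 then (if A = 0 then (1 : ℝ) else 0) else 0) +
        (if p = -A then (if A = B then (1 : ℝ) else 0) else 0) +
        (if p = 0 then (if B = 0 then (1 : ℝ) else 0) else 0) -
        (if p = 0 then (if A = 0 ∧ A = B then (1 : ℝ) else 0) else 0) := by
    intro p
    by_cases hp : p = 0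
    · subst hp
      by_cases hA : A = 0
      · subst hA
        by_cases hB : (0 : K) = B
        · subst hB
          simp
          try norm_num
        · have hB' : B ≠ 0 := fun h => hB h.symm
          simp [hB, hB']
      · by_cases hB : B = 0
        · subst hB
          simp [hA]
        · have hA' : (0 : K) ≠ -A := fun h => hA (neg_eq_zero.1 h.symm)
          have hB' : (0 : K) ≠ -B := fun h => hB (neg_eq_zero.1 h.symm)
          simp [hA, hB]
    · by_cases hA : p = -A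
      · have hA1 : p + A = 0 := by rw [hA]; ring
        by_cases hB : A = B
        · have hB' : p = -B := by rw [← hB]; exact hA
          rw [if_neg (fun h => h.2.1 hA1)]
          simp only [if_neg hp, if_pos hA, if_pos hB, if_pos hB']
          norm_num
        · have hB1 : p ≠ -B := by
            intro h
            exact hB (neg_injective (hA.symm.trans h))
          rw [if_neg (fun h => h.2.1 hA1)]
          simp only [if_neg hp, if_pos hA, if_neg hB, if_neg hB1]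
          norm_num
      · by_cases hB : p = -B
        · have hB1 : p + B = 0 := by rw [hB]; ring
          rw [if_neg (fun h => h.2.2 hB1)]
          simp only [if_neg hp, if_neg hA, if_pos hB]
          norm_num
        · have hA1 : p + A ≠ 0 := fun h => hA (eq_neg_of_add_eq_zero_left h)
          have hB1 : p + B ≠ 0 := fun h => hB (eq_neg_of_add_eq_zero_left h)
          rw [if_pos ⟨hp, hA1, hB1⟩]
          simp only [if_neg hp, if_neg hA, if_neg hB]
          norm_num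
  rw [Finset.sum_congr rfl fun p _ => h1 p]
  simp only [Finset.sum_add_distrib, Finset.sum_sub_distrib, Finset.sum_ite_eq', if_pos (Finset.mem_univ _)]
  simp only [Finset.sum_const, Finset.card_univ, nsmul_eq_mul, mul_one]
  unfold qr
  ring

/-- MODULE HC.  For `x0 ≠ 0` and fixed `k1, k3` (`j1 = 1 - k3`, `j2 = k3 - k1`, `j3 = k1 - 1`): `In4` means
`x0 p3 - x3 j3 = x0 p2 - x2 j2 = x0 p1 - x1 j1 =: t` (the last two equations follow by `Iso`), so `(p1, p2, p3)` is given by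
`t`, and `p_i ≠ 0` means `t ≠ -x_i j_i`: `q` minus the number of different values among three. -/
theorem card_t {w : W5 K} (hw : w.Iso) (hx : w.x0 ≠ 0) (k1 k3 : K) :
    (∑ p1 : K, ∑ p2 : K, ∑ p3 : K,
      if p1 ≠ 0 ∧ p2 ≠ 0 ∧ p3 ≠ 0 ∧ In4 w (1 - k3) (k3 - k1) (p3 - p1) (p3 - p2) then (1 : ℝ) else 0) =
      qr K - 3 + (if w.x1 * (1 - k3) = w.x2 * (k3 - k1) then 1 else 0) +
        (if w.x2 * (k3 - k1) = w.x3 * (k1 - 1) then 1 else 0) + (if w.x1 * (1 - k3) = w.x3 * (k1 - 1) then 1 else 0) -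
        (if w.x1 * (1 - k3) = w.x2 * (k3 - k1) ∧ w.x2 * (k3 - k1) = w.x3 * (k1 - 1) then 1 else 0) := by
  have h1 : ∀ p1 : K, (∑ p2 : K, ∑ p3 : K,
      if p1 ≠ 0 ∧ p2 ≠ 0 ∧ p3 ≠ 0 ∧ In4 w (1 - k3) (k3 - k1) (p3 - p1) (p3 - p2) then (1 : ℝ) else 0) =
      if p1 ≠ 0 ∧ p1 + (w.x2 * (k3 - k1) - w.x1 * (1 - k3)) / w.x0 ≠ 0 ∧
        p1 + (w.x3 * (k1 - 1) - w.x1 * (1 - k3)) / w.x0 ≠ 0 then (1 : ℝ) else 0 := by
    intro p1
    rw [← HC_two (p1 + (w.x2 * (k3 - k1) - w.x1 * (1 - k3)) / w.x0)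
      (p1 + (w.x3 * (k1 - 1) - w.x1 * (1 - k3)) / w.x0)]
    refine Finset.sum_congr rfl fun p2 _ => Finset.sum_congr rfl fun p3 _ => if_congr ?_ rfl rfl
    have hI : In4 w (1 - k3) (k3 - k1) (p3 - p1) (p3 - p2) ↔
        p2 = p1 + (w.x2 * (k3 - k1) - w.x1 * (1 - k3)) / w.x0 ∧
        p3 = p1 + (w.x3 * (k1 - 1) - w.x1 * (1 - k3)) / w.x0 := by
      unfold In4
      unfold W5.Iso at hw
      constructor
      · rintro ⟨ha, hb, -, -⟩
        unfold cA at ha
        unfold cB at hb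
        constructor
        · rw [← sub_eq_iff_eq_add', eq_div_iff hx]
          linear_combination ha + hb
        · rw [← sub_eq_iff_eq_add', eq_div_iff hx]
          linear_combination hb
      · rintro ⟨ha, hb⟩
        rw [← sub_eq_iff_eq_add', eq_div_iff hx] at ha hb
        refine ⟨?_, ?_, ?_, ?_⟩
        · unfold cA
          linear_combination ha - hb
        · unfold cB
          linear_combination hb
        · have : w.x0 * cC w (1 - k3) (k3 - k1) (p3 - p1) (p3 - p2) = 0 := by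
            unfold cC
            linear_combination (k3 - k1) * hw - w.x3 * hb + (w.x1 + w.x3) * (hb - ha)
          exact (mul_eq_zero.1 this).resolve_left hx
        · have : w.x0 * cD w (1 - k3) (k3 - k1) (p3 - p1) (p3 - p2) = 0 := by
            unfold cD
            linear_combination (-(1 - k3)) * hw - (w.x2 + w.x3) * hb + w.x3 * (hb - ha)
          exact (mul_eq_zero.1 this).resolve_left hx
    rw [hI]
    constructor
    · rintro ⟨g1, g2, g3, g4, g5⟩
      exact ⟨g4, g5, g1, g4 ▸ g2, g5 ▸ g3⟩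
    · rintro ⟨g4, g5, g1, g2, g3⟩
      exact ⟨g1, g4.symm ▸ g2, g5.symm ▸ g3, g4, g5⟩
  rw [Finset.sum_congr rfl fun p1 _ => h1 p1, HC_three]
  have i1 : (w.x2 * (k3 - k1) - w.x1 * (1 - k3)) / w.x0 = 0 ↔ w.x1 * (1 - k3) = w.x2 * (k3 - k1) := by
    rw [div_eq_zero_iff, or_iff_left hx, sub_eq_zero, eq_comm]
  have i2 : (w.x3 * (k1 - 1) - w.x1 * (1 - k3)) / w.x0 = 0 ↔ w.x1 * (1 - k3) = w.x3 * (k1 - 1) := by
    rw [div_eq_zero_iff, or_iff_left hx, sub_eq_zero, eq_comm]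
  have i3 : (w.x2 * (k3 - k1) - w.x1 * (1 - k3)) / w.x0 = (w.x3 * (k1 - 1) - w.x1 * (1 - k3)) / w.x0 ↔
      w.x2 * (k3 - k1) = w.x3 * (k1 - 1) := by
    rw [div_left_inj' hx, sub_left_inj]
  rw [if_congr i1 rfl rfl, if_congr i2 rfl rfl, if_congr i3 rfl rfl, if_congr (and_congr i1 i3) rfl rfl]

/-- MODULE HC.  `x0 ≠ 0`, so `x4 = 0` iff `x1 x2 + x1 x3 + x2 x3 = 0`.  All `x_i ≠ 0`: `j_i = c / x_i`, the sum of the `j_i`
is `0`: for `x4 ≠ 0` only `c = 0`, `k1 = k3 = 1`; for `x4 = 0`: `k3 = 1 - c / x1`, `k1 = 1 + c / x3`, `c ≠ x1`, `c ≠ -x3`, and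
`x1 + x3 ≠ 0`.  Exactly one `x_i = 0`: `k1 = k3 = 1`.  Exactly two: one `j_i = 0`, `q - 1` pairs.  All: `(q - 1) ^ 2`. -/
theorem card_all {w : W5 K} (hw : w.Iso) (hx : w.x0 ≠ 0) :
    (∑ k1 : K, ∑ k3 : K, if k1 ≠ 0 ∧ k3 ≠ 0 ∧ w.x1 * (1 - k3) = w.x2 * (k3 - k1) ∧
      w.x2 * (k3 - k1) = w.x3 * (k1 - 1) then (1 : ℝ) else 0) =
      1 + (qr K - 3) * bas 2 w + bas 12 w + bas 13 w + bas 14 w + (qr K ^ 2 - 3 * qr K) * bas 15 w := by
  have hb : ∀ i : Fin 20, bas i w = if bc i w then 1 else 0 := by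
    intro i
    unfold bas
    refine if_congr ?_ rfl rfl
    constructor
    · exact fun h => h.2
    · intro h
      refine ⟨?_, h⟩
      intro hw0
      apply hx
      rw [hw0]
      rfl
  have b2 : bc 2 w ↔ w.x4 = 0 := Iff.rfl
  have b12 : bc 12 w ↔ w.x4 = 0 ∧ w.x2 = 0 ∧ w.x3 = 0 := Iff.rfl
  have b13 : bc 13 w ↔ w.x4 = 0 ∧ w.x1 = 0 ∧ w.x3 = 0 := Iff.rfl
  have b14 : bc 14 w ↔ w.x4 = 0 ∧ w.x1 = 0 ∧ w.x2 = 0 := Iff.rfl
  have b15 : bc 15 w ↔ w.x1 = 0 ∧ w.x2 = 0 ∧ w.x3 = 0 ∧ w.x4 = 0 := Iff.rfl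
  rw [hb, hb, hb, hb, hb, if_congr b2 rfl rfl, if_congr b12 rfl rfl, if_congr b13 rfl rfl,
    if_congr b14 rfl rfl, if_congr b15 rfl rfl]
  unfold W5.Iso at hw
  by_cases h4 : w.x4 = 0
  · rw [h4, mul_zero] at hw
    by_cases h12 : w.x1 = 0 ∧ w.x2 = 0
    · obtain ⟨e1, e2⟩ := h12
      have h1 : ∀ k1 k3 : K, (if k1 ≠ 0 ∧ k3 ≠ 0 ∧ w.x1 * (1 - k3) = w.x2 * (k3 - k1) ∧
          w.x2 * (k3 - k1) = w.x3 * (k1 - 1) then (1 : ℝ) else 0) =
          if k1 ≠ 0 ∧ k3 ≠ 0 ∧ (-w.x3) * k1 + w.x3 + 0 * k3 = 0 then (1 : ℝ) else 0 := by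
        intro k1 k3
        refine if_congr (and_congr_right fun _ => and_congr_right fun _ => ?_) rfl rfl
        rw [e1, e2]
        constructor
        · rintro ⟨-, h⟩
          linear_combination h
        · intro h
          exact ⟨by ring, by linear_combination h⟩
      rw [Finset.sum_congr rfl fun k1 _ => Finset.sum_congr rfl fun k3 _ => h1 k1 k3,
        card_line (by ring : -w.x3 + w.x3 + 0 = 0)]
      by_cases e3 : w.x3 = 0
      · simp [e1, e2, e3, h4]
        ring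
      · simp [e1, e2, e3, h4]
        ring
    · have h1 : ∀ k1 k3 : K, (if k1 ≠ 0 ∧ k3 ≠ 0 ∧ w.x1 * (1 - k3) = w.x2 * (k3 - k1) ∧
          w.x2 * (k3 - k1) = w.x3 * (k1 - 1) then (1 : ℝ) else 0) =
          if k1 ≠ 0 ∧ k3 ≠ 0 ∧ w.x2 * k1 + w.x1 + (-(w.x1 + w.x2)) * k3 = 0 then (1 : ℝ) else 0 := by
        intro k1 k3
        refine if_congr (and_congr_right fun _ => and_congr_right fun _ => ?_) rfl rfl
        constructor
        · rintro ⟨h, -⟩
          linear_combination h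
        · intro h
          refine ⟨by linear_combination h, ?_⟩
          by_cases e2 : w.x2 = 0
          · have e1 : w.x1 ≠ 0 := fun e1 => h12 ⟨e1, e2⟩
            have e3 : w.x3 = 0 := by
              rw [e2] at hw
              have : w.x1 * w.x3 = 0 := by linear_combination (-1 : K) * hw
              exact (mul_eq_zero.1 this).resolve_left e1
            rw [e2, e3]
            ring
          · have : w.x2 * (w.x2 * (k3 - k1) - w.x3 * (k1 - 1)) = 0 := by
              linear_combination (-(w.x2 + w.x3)) * h + (k3 - 1) * hw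
            rcases mul_eq_zero.1 this with h' | h'
            · exact absurd h' e2
            · linear_combination h'
      rw [Finset.sum_congr rfl fun k1 _ => Finset.sum_congr rfl fun k3 _ => h1 k1 k3,
        card_line (by ring : w.x2 + w.x1 + -(w.x1 + w.x2) = 0)]
      have hs : -(w.x1 + w.x2) ≠ 0 := by
        intro h
        have h2 : w.x2 = -w.x1 := by linear_combination (-1 : K) * h
        rw [h2] at hw
        have h3 : w.x1 * w.x1 = 0 := by linear_combination hw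
        have e1 := mul_self_eq_zero.1 h3
        exact h12 ⟨e1, by rw [h2, e1, neg_zero]⟩
      by_cases e1 : w.x1 = 0
      · have e2 : w.x2 ≠ 0 := fun e2 => h12 ⟨e1, e2⟩
        have e3 : w.x3 = 0 := by
          rw [e1] at hw
          have : w.x2 * w.x3 = 0 := by linear_combination (-1 : K) * hw
          exact (mul_eq_zero.1 this).resolve_left e2
        rw [if_neg hs]
        simp [e1, e2, e3, h4]
        ring
      · by_cases e2 : w.x2 = 0
        · have e3 : w.x3 = 0 := by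
            rw [e2] at hw
            have : w.x1 * w.x3 = 0 := by linear_combination (-1 : K) * hw
            exact (mul_eq_zero.1 this).resolve_left e1
          rw [if_neg hs]
          simp [e1, e2, e3, h4]
          ring
        · rw [if_neg hs]
          simp [e1, e2, h4]
          ring
  · have h1 : ∀ k1 k3 : K, (if k1 ≠ 0 ∧ k3 ≠ 0 ∧ w.x1 * (1 - k3) = w.x2 * (k3 - k1) ∧
        w.x2 * (k3 - k1) = w.x3 * (k1 - 1) then (1 : ℝ) else 0) =
        if k1 = 1 ∧ k3 = 1 ∧ True then (1 : ℝ) else 0 := by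
      intro k1 k3
      refine if_congr ?_ rfl rfl
      constructor
      · rintro ⟨-, -, h, h'⟩
        have hD : w.x0 * w.x4 ≠ 0 := mul_ne_zero hx h4
        have g1 : w.x0 * w.x4 * (k3 - 1) = 0 := by
          linear_combination (k3 - 1) * hw - (w.x2 + w.x3) * h - w.x2 * h'
        have g2 : w.x0 * w.x4 * (k1 - 1) = 0 := by
          linear_combination (k1 - 1) * hw - w.x2 * h - (w.x1 + w.x2) * h'
        have g1' : k3 = 1 := sub_eq_zero.1 ((mul_eq_zero.1 g1).resolve_left hD)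
        have g2' : k1 = 1 := sub_eq_zero.1 ((mul_eq_zero.1 g2).resolve_left hD)
        exact ⟨g2', g1', trivial⟩
      · rintro ⟨rfl, rfl, -⟩
        refine ⟨one_ne_zero, one_ne_zero, ?_, ?_⟩ <;> ring
    rw [Finset.sum_congr rfl fun k1 _ => Finset.sum_congr rfl fun k3 _ => h1 k1 k3, HC_two]
    simp [h4]

private theorem HD_inner (w : W5 K) (k1 k3 : K) :
    (∑ p1 : K, ∑ p2 : K, ∑ p3 : K, if k1 ≠ 0 ∧ k3 ≠ 0 ∧ p1 ≠ 0 ∧ p2 ≠ 0 ∧ p3 ≠ 0 ∧
      In4 w (1 - k3) (k3 - k1) (p3 - p1) (p3 - p2) then (1 : ℝ) else 0) =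
    if k1 ≠ 0 ∧ k3 ≠ 0 then (∑ p1 : K, ∑ p2 : K, ∑ p3 : K, if p1 ≠ 0 ∧ p2 ≠ 0 ∧ p3 ≠ 0 ∧
      In4 w (1 - k3) (k3 - k1) (p3 - p1) (p3 - p2) then (1 : ℝ) else 0) else 0 := by
  by_cases h1 : k1 = 0
  · simp [h1]
  · by_cases h3 : k3 = 0
    · simp [h3]
    · simp [h1, h3]

private theorem HD_bas {w : W5 K} (hw : w ≠ 0) (i : Fin 20) : bas i w = if bc i w then 1 else 0 := by
  unfold bas
  refine if_congr ?_ rfl rfl
  exact ⟨fun h => h.2, fun h => ⟨hw, h⟩⟩

/-- MODULE HD.  Sum `card_t` over `k1, k3 ≠ 0`, use `card_line` three times (`α, β, γ = x2, x1, -(x1 + x2)`; `-(x2 + x3), x3, x2`;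
`-x3, x1 + x3, -x1`) and `card_all`. -/
theorem n5_x0 {w : W5 K} (hw : w.Iso) (hx : w.x0 ≠ 0) : n5 w =
    (qr K ^ 3 - 5 * qr K ^ 2 + 10 * qr K - 10) * bas 0 w + (-qr K + 3) * bas 1 w + (-qr K + 3) * bas 2 w + 2 * bas 3 w + 2 * bas 4 w + 2 * bas 5 w + bas 6 w + bas 7 w + bas 8 w + (qr K ^ 2 - 3 * qr K - 1) * bas 9 w + (qr K ^ 2 - 3 * qr K - 1) * bas 10 w + (qr K ^ 2 - 3 * qr K - 1) * bas 11 w + (qr K ^ 2 - 3 * qr K - 1) * bas 12 w + (qr K ^ 2 - 3 * qr K - 1) * bas 13 w + (qr K ^ 2 - 3 * qr K - 1) * bas 14 w + (-qr K ^ 2 + 3 * qr K) * bas 15 w + (-qr K ^ 2 + 3 * qr K) * bas 16 w + qr K * bas 17 w + qr K * bas 18 w + qr K * bas 19 w := by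
  have hw0 : w ≠ 0 := by
    intro h
    apply hx
    rw [h]
    rfl
  have hL : ∀ α β γ : K, α + β + γ = 0 → (∑ k1 : K, ∑ k3 : K, if k1 ≠ 0 ∧ k3 ≠ 0 ∧ α * k1 + β + γ * k3 = 0 then
      (1 : ℝ) else 0) = (qr K - 2) + (if α = 0 then 1 else 0) + (if β = 0 then 1 else 0) + (if γ = 0 then 1 else 0) +
        (if α = 0 ∧ β = 0 then qr K ^ 2 - 3 * qr K else 0) := fun α β γ h => card_line h
  have h1 : ∀ k1 k3 : K, (∑ p1 : K, ∑ p2 : K, ∑ p3 : K, if k1 ≠ 0 ∧ k3 ≠ 0 ∧ p1 ≠ 0 ∧ p2 ≠ 0 ∧ p3 ≠ 0 ∧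
      In4 w (1 - k3) (k3 - k1) (p3 - p1) (p3 - p2) then (1 : ℝ) else 0) =
      (qr K - 3) * (if k1 ≠ 0 ∧ k3 ≠ 0 ∧ (0 : K) * k1 + 0 + 0 * k3 = 0 then (1 : ℝ) else 0) +
      (if k1 ≠ 0 ∧ k3 ≠ 0 ∧ w.x2 * k1 + w.x1 + (-(w.x1 + w.x2)) * k3 = 0 then (1 : ℝ) else 0) +
      (if k1 ≠ 0 ∧ k3 ≠ 0 ∧ (-(w.x2 + w.x3)) * k1 + w.x3 + w.x2 * k3 = 0 then (1 : ℝ) else 0) +
      (if k1 ≠ 0 ∧ k3 ≠ 0 ∧ (-w.x3) * k1 + (w.x1 + w.x3) + (-w.x1) * k3 = 0 then (1 : ℝ) else 0) -
      (if k1 ≠ 0 ∧ k3 ≠ 0 ∧ w.x1 * (1 - k3) = w.x2 * (k3 - k1) ∧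
        w.x2 * (k3 - k1) = w.x3 * (k1 - 1) then (1 : ℝ) else 0) := by
    intro k1 k3
    rw [HD_inner, card_t hw hx]
    by_cases h1 : k1 = 0
    · simp [h1]
    · by_cases h3 : k3 = 0
      · simp [h3]
      · have i1 : (w.x1 * (1 - k3) = w.x2 * (k3 - k1)) ↔
            (k1 ≠ 0 ∧ k3 ≠ 0 ∧ w.x2 * k1 + w.x1 + (-(w.x1 + w.x2)) * k3 = 0) := by
          constructor
          · intro h
            exact ⟨h1, h3, by linear_combination h⟩
          · rintro ⟨-, -, h⟩
            linear_combination h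
        have i2 : (w.x2 * (k3 - k1) = w.x3 * (k1 - 1)) ↔
            (k1 ≠ 0 ∧ k3 ≠ 0 ∧ (-(w.x2 + w.x3)) * k1 + w.x3 + w.x2 * k3 = 0) := by
          constructor
          · intro h
            exact ⟨h1, h3, by linear_combination h⟩
          · rintro ⟨-, -, h⟩
            linear_combination h
        have i3 : (w.x1 * (1 - k3) = w.x3 * (k1 - 1)) ↔
            (k1 ≠ 0 ∧ k3 ≠ 0 ∧ (-w.x3) * k1 + (w.x1 + w.x3) + (-w.x1) * k3 = 0) := by
          constructor
          · intro h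
            exact ⟨h1, h3, by linear_combination h⟩
          · rintro ⟨-, -, h⟩
            linear_combination h
        have i4 : (w.x1 * (1 - k3) = w.x2 * (k3 - k1) ∧ w.x2 * (k3 - k1) = w.x3 * (k1 - 1)) ↔
            (k1 ≠ 0 ∧ k3 ≠ 0 ∧ w.x1 * (1 - k3) = w.x2 * (k3 - k1) ∧ w.x2 * (k3 - k1) = w.x3 * (k1 - 1)) := by
          constructor
          · intro h
            exact ⟨h1, h3, h⟩
          · rintro ⟨-, -, h⟩
            exact h
        have i0 : (k1 ≠ 0 ∧ k3 ≠ 0 ∧ (0 : K) * k1 + 0 + 0 * k3 = 0) := ⟨h1, h3, by ring⟩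
        rw [if_pos ⟨h1, h3⟩, if_pos i0, if_congr i4 rfl rfl, if_congr i1 rfl rfl, if_congr i2 rfl rfl,
          if_congr i3 rfl rfl]
        ring
  unfold n5
  rw [Finset.sum_congr rfl fun k1 _ => Finset.sum_congr rfl fun k3 _ => h1 k1 k3]
  simp only [Finset.sum_add_distrib, Finset.sum_sub_distrib, ← Finset.mul_sum]
  rw [hL _ _ _ (by ring), hL _ _ _ (by ring), hL _ _ _ (by ring), hL _ _ _ (by ring), card_all hw hx]
  unfold W5.Iso at hw
  have g23 : w.x2 = 0 → w.x3 = 0 → w.x4 = 0 := by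
    intro e2 e3
    rw [e2, e3] at hw
    have : w.x0 * w.x4 = 0 := by linear_combination hw
    exact (mul_eq_zero.1 this).resolve_left hx
  have g13 : w.x1 = 0 → w.x3 = 0 → w.x4 = 0 := by
    intro e2 e3
    rw [e2, e3] at hw
    have : w.x0 * w.x4 = 0 := by linear_combination hw
    exact (mul_eq_zero.1 this).resolve_left hx
  have g12 : w.x1 = 0 → w.x2 = 0 → w.x4 = 0 := by
    intro e2 e3
    rw [e2, e3] at hw
    have : w.x0 * w.x4 = 0 := by linear_combination hw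
    exact (mul_eq_zero.1 this).resolve_left hx
  have c0 : bas 0 w = 1 := by rw [HD_bas hw0]; exact if_pos trivial
  have c1 : bas 1 w = 0 := by rw [HD_bas hw0]; exact if_neg hx
  have c9 : bas 9 w = 0 := by rw [HD_bas hw0]; exact if_neg (fun h => hx h.1)
  have c10 : bas 10 w = 0 := by rw [HD_bas hw0]; exact if_neg (fun h => hx h.1)
  have c11 : bas 11 w = 0 := by rw [HD_bas hw0]; exact if_neg (fun h => hx h.1)
  have c16 : bas 16 w = 0 := by rw [HD_bas hw0]; exact if_neg (fun h => hx h.1)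
  have c17 : bas 17 w = 0 := by rw [HD_bas hw0]; exact if_neg (fun h => hx h.1)
  have c18 : bas 18 w = 0 := by rw [HD_bas hw0]; exact if_neg (fun h => hx h.1)
  have c19 : bas 19 w = 0 := by rw [HD_bas hw0]; exact if_neg (fun h => hx h.1)
  have c3 : (if w.x1 = 0 then (1 : ℝ) else 0) = bas 3 w := by rw [HD_bas hw0]; exact if_congr Iff.rfl rfl rfl
  have c3' : (if -w.x1 = 0 then (1 : ℝ) else 0) = bas 3 w := by
    rw [HD_bas hw0]; exact if_congr neg_eq_zero rfl rfl
  have c4 : (if w.x2 = 0 then (1 : ℝ) else 0) = bas 4 w := by rw [HD_bas hw0]; exact if_congr Iff.rfl rfl rfl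
  have c5 : (if w.x3 = 0 then (1 : ℝ) else 0) = bas 5 w := by rw [HD_bas hw0]; exact if_congr Iff.rfl rfl rfl
  have c5' : (if -w.x3 = 0 then (1 : ℝ) else 0) = bas 5 w := by
    rw [HD_bas hw0]; exact if_congr neg_eq_zero rfl rfl
  have c6 : (if -(w.x2 + w.x3) = 0 then (1 : ℝ) else 0) = bas 6 w := by
    rw [HD_bas hw0]; exact if_congr neg_eq_zero rfl rfl
  have c7 : (if w.x1 + w.x3 = 0 then (1 : ℝ) else 0) = bas 7 w := by
    rw [HD_bas hw0]; exact if_congr Iff.rfl rfl rfl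
  have c8 : (if -(w.x1 + w.x2) = 0 then (1 : ℝ) else 0) = bas 8 w := by
    rw [HD_bas hw0]; exact if_congr neg_eq_zero rfl rfl
  have c14 : (if w.x2 = 0 ∧ w.x1 = 0 then (qr K ^ 2 - 3 * qr K : ℝ) else 0) = (qr K ^ 2 - 3 * qr K) * bas 14 w := by
    rw [HD_bas hw0, mul_ite, mul_one, mul_zero]
    refine if_congr ?_ rfl rfl
    constructor
    · rintro ⟨a, b⟩
      exact ⟨g12 b a, b, a⟩
    · rintro ⟨-, b, a⟩
      exact ⟨a, b⟩
  have c12 : (if -(w.x2 + w.x3) = 0 ∧ w.x3 = 0 then (qr K ^ 2 - 3 * qr K : ℝ) else 0) =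
      (qr K ^ 2 - 3 * qr K) * bas 12 w := by
    rw [HD_bas hw0, mul_ite, mul_one, mul_zero]
    refine if_congr ?_ rfl rfl
    constructor
    · rintro ⟨a, b⟩
      have a' : w.x2 = 0 := by linear_combination (-1 : K) * a - b
      exact ⟨g23 a' b, a', b⟩
    · rintro ⟨-, b, a⟩
      exact ⟨by rw [b, a]; simp, a⟩
  have c13 : (if -w.x3 = 0 ∧ w.x1 + w.x3 = 0 then (qr K ^ 2 - 3 * qr K : ℝ) else 0) =
      (qr K ^ 2 - 3 * qr K) * bas 13 w := by
    rw [HD_bas hw0, mul_ite, mul_one, mul_zero]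
    refine if_congr ?_ rfl rfl
    constructor
    · rintro ⟨a, b⟩
      have a' : w.x3 = 0 := neg_eq_zero.1 a
      have b' : w.x1 = 0 := by rw [a', add_zero] at b; exact b
      exact ⟨g13 b' a', b', a'⟩
    · rintro ⟨-, b, a⟩
      exact ⟨by rw [a]; simp, by rw [b, a]; simp⟩
  rw [c14, c12, c13, c3, c3', c4, c5, c5', c6, c7, c8, c0, c1, c9, c10, c11, c16, c17, c18, c19]
  simp only [if_true, and_self]
  ring

private theorem HE_two {β γ : K} (hβ : β ≠ 0) (hγ : γ ≠ 0) (δ : K) :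
    (∑ y : K, ∑ z : K, if y ≠ 0 ∧ z ≠ 0 ∧ β * y + γ * z = δ then (1 : ℝ) else 0) =
      qr K - 2 + (if δ = 0 then 1 else 0) := by
  have h1 : ∀ y z : K, (if y ≠ 0 ∧ z ≠ 0 ∧ β * y + γ * z = δ then (1 : ℝ) else 0) =
      if y ≠ 0 ∧ z ≠ 0 ∧ β * y + (-δ) + γ * z = 0 then (1 : ℝ) else 0 := by
    intro y z
    refine if_congr (and_congr_right fun _ => and_congr_right fun _ => ?_) rfl rfl
    constructor
    · intro h
      linear_combination h
    · intro h
      linear_combination h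
  rw [Finset.sum_congr rfl fun y _ => Finset.sum_congr rfl fun z _ => h1 y z, HC_out]
  by_cases hd : δ = 0
  · simp [hβ, hγ, hd]
    ring
  · simp [hβ, hγ, hd]
    ring

private theorem HE_ne : (∑ y : K, if y ≠ 0 then (1 : ℝ) else 0) = qr K - 1 := by
  have h1 : ∀ y : K, (if y ≠ 0 then (1 : ℝ) else 0) = 1 - if y = 0 then (1 : ℝ) else 0 := by
    intro y
    by_cases hy : y = 0 <;> simp [hy]
  rw [Finset.sum_congr rfl fun y _ => h1 y, Finset.sum_sub_distrib, Finset.sum_ite_eq',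
    if_pos (Finset.mem_univ _)]
  simp [qr]

/-- All three coefficients are not zero. -/
private theorem HE_a {α β γ : K} (hα : α ≠ 0) (hβ : β ≠ 0) (hγ : γ ≠ 0) (δ : K) :
    (∑ x : K, ∑ y : K, ∑ z : K, if x ≠ 0 ∧ y ≠ 0 ∧ z ≠ 0 ∧ α * x + β * y + γ * z = δ then (1 : ℝ) else 0) =
      (qr K - 1) * (qr K - 2) + 1 + (-1) * (if δ = 0 then 1 else 0) := by
  have h1 : ∀ x : K, (∑ y : K, ∑ z : K, if x ≠ 0 ∧ y ≠ 0 ∧ z ≠ 0 ∧ α * x + β * y + γ * z = δ then (1 : ℝ) else 0) =
      (qr K - 2) * (if x ≠ 0 then (1 : ℝ) else 0) + (if x ≠ 0 ∧ α * x + (-δ) = 0 then (1 : ℝ) else 0) := by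
    intro x
    by_cases hx : x = 0
    · simp [hx]
    · have h2 : ∀ y z : K, (if x ≠ 0 ∧ y ≠ 0 ∧ z ≠ 0 ∧ α * x + β * y + γ * z = δ then (1 : ℝ) else 0) =
          if y ≠ 0 ∧ z ≠ 0 ∧ β * y + γ * z = δ - α * x then (1 : ℝ) else 0 := by
        intro y z
        refine if_congr ?_ rfl rfl
        constructor
        · rintro ⟨-, g1, g2, g3⟩
          exact ⟨g1, g2, by linear_combination g3⟩
        · rintro ⟨g1, g2, g3⟩
          exact ⟨hx, g1, g2, by linear_combination g3⟩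
      rw [Finset.sum_congr rfl fun y _ => Finset.sum_congr rfl fun z _ => h2 y z, HE_two hβ hγ, if_pos hx, mul_one]
      congr 1
      refine if_congr ?_ rfl rfl
      constructor
      · intro h
        exact ⟨hx, by linear_combination (-1 : K) * h⟩
      · rintro ⟨-, h⟩
        linear_combination (-1 : K) * h
  rw [Finset.sum_congr rfl fun x _ => h1 x, Finset.sum_add_distrib, ← Finset.mul_sum, HE_ne, HC_in, if_neg hα]
  by_cases hd : δ = 0
  · simp [hd]
    ring
  · simp [hd]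
    ring

/-- The first variable is free. -/
private theorem HE_b {α β γ : K} (hα : α = 0) (hβ : β ≠ 0) (hγ : γ ≠ 0) (δ : K) :
    (∑ x : K, ∑ y : K, ∑ z : K, if x ≠ 0 ∧ y ≠ 0 ∧ z ≠ 0 ∧ α * x + β * y + γ * z = δ then (1 : ℝ) else 0) =
      (qr K - 1) * (qr K - 2) + (qr K - 1) * (if δ = 0 then 1 else 0) := by
  have h1 : ∀ x : K, (∑ y : K, ∑ z : K, if x ≠ 0 ∧ y ≠ 0 ∧ z ≠ 0 ∧ α * x + β * y + γ * z = δ then (1 : ℝ) else 0) =
      (qr K - 2 + (if δ = 0 then 1 else 0)) * (if x ≠ 0 then (1 : ℝ) else 0) := by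
    intro x
    by_cases hx : x = 0
    · simp [hx]
    · have h2 : ∀ y z : K, (if x ≠ 0 ∧ y ≠ 0 ∧ z ≠ 0 ∧ α * x + β * y + γ * z = δ then (1 : ℝ) else 0) =
          if y ≠ 0 ∧ z ≠ 0 ∧ β * y + γ * z = δ then (1 : ℝ) else 0 := by
        intro y z
        rw [hα]
        refine if_congr ?_ rfl rfl
        constructor
        · rintro ⟨-, g1, g2, g3⟩
          exact ⟨g1, g2, by linear_combination g3⟩
        · rintro ⟨g1, g2, g3⟩
          exact ⟨hx, g1, g2, by linear_combination g3⟩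
      rw [Finset.sum_congr rfl fun y _ => Finset.sum_congr rfl fun z _ => h2 y z, HE_two hβ hγ, if_pos hx, mul_one]
  rw [Finset.sum_congr rfl fun x _ => h1 x, ← Finset.mul_sum, HE_ne]
  ring

/-- The second variable is free. -/
private theorem HE_c {α β γ : K} (hα : α ≠ 0) (hβ : β = 0) (hγ : γ ≠ 0) (δ : K) :
    (∑ x : K, ∑ y : K, ∑ z : K, if x ≠ 0 ∧ y ≠ 0 ∧ z ≠ 0 ∧ α * x + β * y + γ * z = δ then (1 : ℝ) else 0) =
      (qr K - 1) * (qr K - 2) + (qr K - 1) * (if δ = 0 then 1 else 0) := by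
  rw [Finset.sum_comm, ← HE_b (rfl : (0 : K) = 0) hα hγ δ]
  refine Finset.sum_congr rfl fun x _ => Finset.sum_congr rfl fun y _ => Finset.sum_congr rfl fun z _ => ?_
  refine if_congr ?_ rfl rfl
  rw [hβ]
  constructor
  · rintro ⟨g1, g2, g3, g4⟩
    exact ⟨g2, g1, g3, by linear_combination g4⟩
  · rintro ⟨g1, g2, g3, g4⟩
    exact ⟨g2, g1, g3, by linear_combination g4⟩

/-- The third variable is free. -/
private theorem HE_d {α β γ : K} (hα : α ≠ 0) (hβ : β ≠ 0) (hγ : γ = 0) (δ : K) :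
    (∑ x : K, ∑ y : K, ∑ z : K, if x ≠ 0 ∧ y ≠ 0 ∧ z ≠ 0 ∧ α * x + β * y + γ * z = δ then (1 : ℝ) else 0) =
      (qr K - 1) * (qr K - 2) + (qr K - 1) * (if δ = 0 then 1 else 0) := by
  rw [← HE_c hα (rfl : (0 : K) = 0) hβ δ]
  refine Finset.sum_congr rfl fun x _ => ?_
  rw [Finset.sum_comm]
  refine Finset.sum_congr rfl fun y _ => Finset.sum_congr rfl fun z _ => ?_
  refine if_congr ?_ rfl rfl
  rw [hγ]
  constructor
  · rintro ⟨g1, g2, g3, g4⟩
    exact ⟨g1, g3, g2, by linear_combination g4⟩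
  · rintro ⟨g1, g2, g3, g4⟩
    exact ⟨g1, g3, g2, by linear_combination g4⟩

/-- No equation. -/
private theorem HE_e : (∑ x : K, ∑ y : K, ∑ z : K, if x ≠ 0 ∧ y ≠ 0 ∧ z ≠ 0 then (1 : ℝ) else 0) =
    (qr K - 1) ^ 3 := by
  have h1 : ∀ x y z : K, (if x ≠ 0 ∧ y ≠ 0 ∧ z ≠ 0 then (1 : ℝ) else 0) =
      (if x ≠ 0 then (1 : ℝ) else 0) * ((if y ≠ 0 then (1 : ℝ) else 0) * (if z ≠ 0 then (1 : ℝ) else 0)) := by
    intro x y z
    by_cases hx : x = 0 <;> by_cases hy : y = 0 <;> by_cases hz : z = 0 <;> simp [hx, hy, hz]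
  rw [Finset.sum_congr rfl fun x _ => Finset.sum_congr rfl fun y _ => Finset.sum_congr rfl fun z _ => h1 x y z]
  simp only [← Finset.mul_sum, ← Finset.sum_mul, HE_ne]
  ring

private theorem HE_main (w : W5 K) (P : K → K → Prop) (D : K → K → K) (c1 c2 L : ℝ)
    (hS : ∀ k1 k3 : K, (∑ p1 : K, ∑ p2 : K, ∑ p3 : K, if p1 ≠ 0 ∧ p2 ≠ 0 ∧ p3 ≠ 0 ∧
      In4 w (1 - k3) (k3 - k1) (p3 - p1) (p3 - p2) then (1 : ℝ) else 0) =
      if P k1 k3 then c1 + c2 * (if w.x4 * D k1 k3 = 0 then 1 else 0) else 0)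
    (hP : ∀ k1 k3 : K, (P k1 k3 ∧ D k1 k3 = 0) ↔ (k1 = 1 ∧ k3 = 1))
    (hL : (∑ k1 : K, ∑ k3 : K, if k1 ≠ 0 ∧ k3 ≠ 0 ∧ P k1 k3 then (1 : ℝ) else 0) = L) :
    n5 w = c1 * L + c2 * (if w.x4 = 0 then L else 1) := by
  unfold n5
  have h1 : ∀ k1 k3 : K, (∑ p1 : K, ∑ p2 : K, ∑ p3 : K, if k1 ≠ 0 ∧ k3 ≠ 0 ∧ p1 ≠ 0 ∧ p2 ≠ 0 ∧ p3 ≠ 0 ∧
      In4 w (1 - k3) (k3 - k1) (p3 - p1) (p3 - p2) then (1 : ℝ) else 0) =
      c1 * (if k1 ≠ 0 ∧ k3 ≠ 0 ∧ P k1 k3 then (1 : ℝ) else 0) +
      c2 * (if w.x4 = 0 then (if k1 ≠ 0 ∧ k3 ≠ 0 ∧ P k1 k3 then (1 : ℝ) else 0)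
        else (if k1 = 1 ∧ k3 = 1 ∧ True then (1 : ℝ) else 0)) := by
    intro k1 k3
    rw [HD_inner, hS]
    by_cases g1 : k1 = 0
    · have : ¬ (0 : K) = 1 := zero_ne_one
      simp [g1, this]
    · by_cases g3 : k3 = 0
      · have : ¬ (0 : K) = 1 := zero_ne_one
        simp [g3, this]
      · by_cases hp : P k1 k3
        · by_cases h4 : w.x4 = 0
          · simp [g1, g3, hp, h4]
          · have hiff : (w.x4 * D k1 k3 = 0) ↔ (k1 = 1 ∧ k3 = 1 ∧ True) := by
              rw [mul_eq_zero, or_iff_right h4, and_true, ← hP]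
              exact ⟨fun h => ⟨hp, h⟩, fun h => h.2⟩
            rw [if_pos ⟨g1, g3⟩, if_pos hp, if_pos (show k1 ≠ 0 ∧ k3 ≠ 0 ∧ P k1 k3 from ⟨g1, g3, hp⟩), if_neg h4,
              if_congr hiff rfl rfl]
            ring
        · have hn : ¬ (k1 = 1 ∧ k3 = 1) := fun h => hp ((hP k1 k3).2 h).1
          have hn' : ¬ (k1 = 1 ∧ k3 = 1 ∧ True) := fun h => hn ⟨h.1, h.2.1⟩
          rw [if_pos ⟨g1, g3⟩, if_neg hp, if_neg (fun h => hp h.2.2), if_neg hn']
          simp
  rw [Finset.sum_congr rfl fun k1 _ => Finset.sum_congr rfl fun k3 _ => h1 k1 k3]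
  simp only [Finset.sum_add_distrib, ← Finset.mul_sum]
  rw [hL]
  by_cases h4 : w.x4 = 0
  · simp only [if_pos h4]
    rw [hL]
  · simp only [if_neg h4]
    rw [HC_two]
    simp

private theorem HE_vals {w : W5 K} (h0 : w ≠ 0) :
    (bas 0 w = 1 ∧ bas 1 w = (if w.x0 = 0 then 1 else 0) ∧ bas 2 w = (if w.x4 = 0 then 1 else 0) ∧
      bas 3 w = (if w.x1 = 0 then 1 else 0) ∧ bas 4 w = (if w.x2 = 0 then 1 else 0) ∧
      bas 5 w = (if w.x3 = 0 then 1 else 0) ∧ bas 6 w = (if w.x2 + w.x3 = 0 then 1 else 0) ∧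
      bas 7 w = (if w.x1 + w.x3 = 0 then 1 else 0) ∧ bas 8 w = (if w.x1 + w.x2 = 0 then 1 else 0) ∧
      bas 9 w = (if w.x0 = 0 ∧ w.x2 = 0 ∧ w.x3 = 0 then 1 else 0)) ∧
      (bas 10 w = (if w.x0 = 0 ∧ w.x1 = 0 ∧ w.x3 = 0 then 1 else 0) ∧
      bas 11 w = (if w.x0 = 0 ∧ w.x1 = 0 ∧ w.x2 = 0 then 1 else 0) ∧
      bas 12 w = (if w.x4 = 0 ∧ w.x2 = 0 ∧ w.x3 = 0 then 1 else 0) ∧
      bas 13 w = (if w.x4 = 0 ∧ w.x1 = 0 ∧ w.x3 = 0 then 1 else 0) ∧
      bas 14 w = (if w.x4 = 0 ∧ w.x1 = 0 ∧ w.x2 = 0 then 1 else 0) ∧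
      bas 15 w = (if w.x1 = 0 ∧ w.x2 = 0 ∧ w.x3 = 0 ∧ w.x4 = 0 then 1 else 0) ∧
      bas 16 w = (if w.x0 = 0 ∧ w.x1 = 0 ∧ w.x2 = 0 ∧ w.x3 = 0 then 1 else 0) ∧
      bas 17 w = (if w.x0 = 0 ∧ w.x2 = 0 ∧ w.x3 = 0 ∧ w.x4 = 0 then 1 else 0) ∧
      bas 18 w = (if w.x0 = 0 ∧ w.x1 = 0 ∧ w.x3 = 0 ∧ w.x4 = 0 then 1 else 0) ∧
      bas 19 w = (if w.x0 = 0 ∧ w.x1 = 0 ∧ w.x2 = 0 ∧ w.x4 = 0 then 1 else 0)) := by
  simp only [HD_bas h0]
  refine ⟨⟨if_pos trivial, ?_, ?_, ?_, ?_, ?_, ?_, ?_, ?_, ?_⟩, ?_, ?_, ?_, ?_, ?_, ?_, ?_, ?_, ?_, ?_⟩ <;>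
    exact if_congr Iff.rfl rfl rfl

/-- MODULE HE.  `x0 = 0`.  Case A: all `x_i ≠ 0` (then `x_i + x_j ≠ 0` by `Iso`, e.g. `(x1 + x3) (x2 + x3) = x3 ^ 2`): the first
two equations of `In4` are the line `-x3 k1 + (x1 + x3) - x1 k3 = 0` (`q - 2` points, `card_line`), the last two are
`x3 p1 - (x1 + x3) p2 + x1 p3 = -x4 (k3 - k1)`, which has `q ^ 2 - 3 q + 3` solutions with all `p_i ≠ 0` if the right side is not
`0`, `q ^ 2 - 3 q + 2` if it is `0` (that is `x4 = 0` or `k1 = k3 = 1`).  Case B: only one `x_i ≠ 0`: `j_i = 0` (`i = 1`: `k3 = 1`;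
`i = 2`: `k1 = k3`; `i = 3`: `k1 = 1`) and one equation `p_j - p_k = ± (x4 / x_i) (k - 1)`, `p_i` is free: `(q - 1) ^ 3` if `x4 = 0`,
`(q - 1) (q ^ 2 - 3 q + 3)` if `x4 ≠ 0`.  Case C: all `x_i = 0`: `k1 = k3 = 1`, `(q - 1) ^ 3`. -/
theorem n5_x00 {w : W5 K} (hw : w.Iso) (h0 : w ≠ 0) (hx : w.x0 = 0) : n5 w =
    (qr K ^ 3 - 5 * qr K ^ 2 + 10 * qr K - 10) * bas 0 w + (-qr K + 3) * bas 1 w + (-qr K + 3) * bas 2 w + 2 * bas 3 w + 2 * bas 4 w + 2 * bas 5 w + bas 6 w + bas 7 w + bas 8 w + (qr K ^ 2 - 3 * qr K - 1) * bas 9 w + (qr K ^ 2 - 3 * qr K - 1) * bas 10 w + (qr K ^ 2 - 3 * qr K - 1) * bas 11 w + (qr K ^ 2 - 3 * qr K - 1) * bas 12 w + (qr K ^ 2 - 3 * qr K - 1) * bas 13 w + (qr K ^ 2 - 3 * qr K - 1) * bas 14 w + (-qr K ^ 2 + 3 * qr K) * bas 15 w + (-qr K ^ 2 + 3 * qr K) * bas 16 w + qr K * bas 17 w + qr K * bas 18 w + qr K * bas 19 w := by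
  obtain ⟨⟨v0, v1, v2, v3, v4, v5, v6, v7, v8, v9⟩, v10, v11, v12, v13, v14, v15, v16, v17, v18, v19⟩ := HE_vals h0
  rw [v0, v1, v2, v3, v4, v5, v6, v7, v8, v9, v10, v11, v12, v13, v14, v15, v16, v17, v18, v19]
  clear v0 v1 v2 v3 v4 v5 v6 v7 v8 v9 v10 v11 v12 v13 v14 v15 v16 v17 v18 v19
  unfold W5.Iso at hw
  rw [hx, zero_mul] at hw
  have t11 : (1 : K) = 1 := rfl
  by_cases e1 : w.x1 = 0
  · rw [e1] at hw
    by_cases e2 : w.x2 = 0
    · by_cases e3 : w.x3 = 0
      · -- case C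
        have h4 : w.x4 ≠ 0 := by
          intro h4
          apply h0
          rw [HA_eq0]
          exact ⟨hx, e1, e2, e3, h4⟩
        have hn := HE_main w (fun k1 k3 => k1 = 1 ∧ k3 = 1) (fun _ _ => 0) ((qr K - 1) ^ 3) 0 1 (by
          intro k1 k3
          have hI : ∀ p1 p2 p3 : K, In4 w (1 - k3) (k3 - k1) (p3 - p1) (p3 - p2) ↔ (k1 = 1 ∧ k3 = 1) := by
            intro p1 p2 p3
            unfold In4 cA cB cC cD
            rw [hx, e1, e2, e3]
            constructor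
            · rintro ⟨-, -, h1, h2⟩
              have g3 : w.x4 * (1 - k3) = 0 := by linear_combination (-1 : K) * h2
              have g4 := (mul_eq_zero.1 g3).resolve_left h4
              have g1 : w.x4 * (k3 - k1) = 0 := by linear_combination h1
              have g5 := (mul_eq_zero.1 g1).resolve_left h4
              exact ⟨by linear_combination (-1 : K) * g4 - g5, by linear_combination (-1 : K) * g4⟩
            · rintro ⟨rfl, rfl⟩
              refine ⟨?_, ?_, ?_, ?_⟩ <;> ring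
          simp only [hI]
          by_cases hk : k1 = 1 ∧ k3 = 1
          · simp only [if_pos hk]
            rw [zero_mul, add_zero, ← HE_e]
            refine Finset.sum_congr rfl fun x _ => Finset.sum_congr rfl fun y _ => Finset.sum_congr rfl fun z _ => ?_
            refine if_congr ?_ rfl rfl
            tauto
          · simp only [if_neg hk]
            refine Finset.sum_eq_zero fun x _ => Finset.sum_eq_zero fun y _ => Finset.sum_eq_zero fun z _ => ?_
            rw [if_neg]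
            tauto) (by
          intro k1 k3
          tauto) (by
          calc _ = ∑ k1 : K, ∑ k3 : K, (if k1 = 1 ∧ k3 = 1 ∧ True then (1 : ℝ) else 0) := by
                refine Finset.sum_congr rfl fun k1 _ => Finset.sum_congr rfl fun k3 _ => ?_
                by_cases h : k1 = 1 ∧ k3 = 1
                · have g : k1 ≠ 0 ∧ k3 ≠ 0 ∧ (k1 = 1 ∧ k3 = 1) := by
                    refine ⟨?_, ?_, h⟩
                    · rw [h.1]
                      exact one_ne_zero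
                    · rw [h.2]
                      exact one_ne_zero
                  rw [if_pos g, if_pos (⟨h.1, h.2, trivial⟩ : k1 = 1 ∧ k3 = 1 ∧ True)]
                · rw [if_neg (fun g => h g.2.2), if_neg (fun g => h ⟨g.1, g.2.1⟩)]
            _ = 1 := by
                rw [HC_two]
                simp)
        rw [hn]
        simp [hx, e1, e2, e3, h4]
        ring
      · -- case B3
        have hn := HE_main w (fun k1 k3 => k1 = 1) (fun k1 k3 => k3 - 1) ((qr K - 1) * (qr K - 2)) (qr K - 1)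
          (qr K - 1) (by
          intro k1 k3
          have hI : ∀ p1 p2 p3 : K, In4 w (1 - k3) (k3 - k1) (p3 - p1) (p3 - p2) ↔
              (k1 = 1 ∧ w.x3 * p1 + (-w.x3) * p2 + 0 * p3 = -(w.x4 * (k3 - 1))) := by
            intro p1 p2 p3
            unfold In4 cA cB cC cD
            rw [hx, e1, e2]
            constructor
            · rintro ⟨h1, -, h3, -⟩
              have g3 : w.x3 * (k1 - 1) = 0 := by linear_combination h1
              have g4 := (mul_eq_zero.1 g3).resolve_left e3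
              have g5 : k1 = 1 := sub_eq_zero.1 g4
              refine ⟨g5, ?_⟩
              rw [g5] at h3
              linear_combination h3
            · rintro ⟨h1, h2⟩
              rw [h1]
              refine ⟨?_, ?_, ?_, ?_⟩
              · ring
              · ring
              · linear_combination h2
              · linear_combination h2
          simp only [hI]
          by_cases hk : k1 = 1
          · simp only [hk, true_and]
            rw [if_true, HE_d e3 (neg_ne_zero.2 e3) rfl]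
            simp only [neg_eq_zero]
          · simp only [hk, false_and, and_false, if_false, Finset.sum_const_zero]) (by
          intro k1 k3
          rw [sub_eq_zero]) (by
          have h1 : ∀ k1 k3 : K, (if k1 ≠ 0 ∧ k3 ≠ 0 ∧ k1 = 1 then (1 : ℝ) else 0) =
              if k1 ≠ 0 ∧ k3 ≠ 0 ∧ 1 * k1 + (-1) + 0 * k3 = 0 then (1 : ℝ) else 0 := by
            intro k1 k3
            refine if_congr (and_congr_right fun _ => and_congr_right fun _ => ?_) rfl rfl
            constructor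
            · intro h
              linear_combination h
            · intro h
              linear_combination h
          rw [Finset.sum_congr rfl fun k1 _ => Finset.sum_congr rfl fun k3 _ => h1 k1 k3,
            card_line (by ring : (1 : K) + -1 + 0 = 0)]
          simp
          ring)
        rw [hn]
        by_cases h4 : w.x4 = 0
        · simp [hx, e1, e2, e3, h4]
          ring
        · simp [hx, e1, e2, e3, h4]
          ring
    · have e3 : w.x3 = 0 := by
        have : w.x2 * w.x3 = 0 := by linear_combination (-1 : K) * hw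
        exact (mul_eq_zero.1 this).resolve_left e2
      -- case B2
      have hn := HE_main w (fun k1 k3 => k1 = k3) (fun k1 k3 => 1 - k3) ((qr K - 1) * (qr K - 2)) (qr K - 1)
        (qr K - 1) (by
        intro k1 k3
        have hI : ∀ p1 p2 p3 : K, In4 w (1 - k3) (k3 - k1) (p3 - p1) (p3 - p2) ↔
            (k1 = k3 ∧ (-w.x2) * p1 + 0 * p2 + w.x2 * p3 = -(w.x4 * (1 - k3))) := by
          intro p1 p2 p3
          unfold In4 cA cB cC cD
          rw [hx, e1, e3]
          constructor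
          · rintro ⟨h1, -, -, h4⟩
            have g3 : w.x2 * (k1 - k3) = 0 := by linear_combination h1
            have g4 := (mul_eq_zero.1 g3).resolve_left e2
            have g5 : k1 = k3 := sub_eq_zero.1 g4
            refine ⟨g5, ?_⟩
            linear_combination (-1 : K) * h4
          · rintro ⟨h1, h2⟩
            rw [h1]
            refine ⟨?_, ?_, ?_, ?_⟩
            · ring
            · ring
            · ring
            · linear_combination (-1 : K) * h2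
        simp only [hI]
        by_cases hk : k1 = k3
        · simp only [hk, true_and]
          rw [if_true, HE_c (neg_ne_zero.2 e2) rfl e2]
          simp only [neg_eq_zero]
        · simp only [hk, false_and, and_false, if_false, Finset.sum_const_zero]) (by
        intro k1 k3
        rw [sub_eq_zero]
        constructor
        · rintro ⟨h1, h2⟩
          exact ⟨h1.trans h2.symm, h2.symm⟩
        · rintro ⟨h1, h2⟩
          exact ⟨h1.trans h2.symm, h2.symm⟩) (by
        have h1 : ∀ k1 k3 : K, (if k1 ≠ 0 ∧ k3 ≠ 0 ∧ k1 = k3 then (1 : ℝ) else 0) =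
            if k1 ≠ 0 ∧ k3 ≠ 0 ∧ 1 * k1 + 0 + (-1) * k3 = 0 then (1 : ℝ) else 0 := by
          intro k1 k3
          refine if_congr (and_congr_right fun _ => and_congr_right fun _ => ?_) rfl rfl
          constructor
          · intro h
            linear_combination h
          · intro h
            linear_combination h
        rw [Finset.sum_congr rfl fun k1 _ => Finset.sum_congr rfl fun k3 _ => h1 k1 k3,
          card_line (by ring : (1 : K) + 0 + -1 = 0)]
        simp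
        ring)
      rw [hn]
      by_cases h4 : w.x4 = 0
      · simp [hx, e1, e2, e3, h4]
        ring
      · simp [hx, e1, e2, e3, h4]
        ring
  · by_cases e2 : w.x2 = 0
    · have e3 : w.x3 = 0 := by
        rw [e2] at hw
        have : w.x1 * w.x3 = 0 := by linear_combination (-1 : K) * hw
        exact (mul_eq_zero.1 this).resolve_left e1
      -- case B1
      have hn := HE_main w (fun k1 k3 => k3 = 1) (fun k1 k3 => 1 - k1) ((qr K - 1) * (qr K - 2)) (qr K - 1)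
        (qr K - 1) (by
        intro k1 k3
        have hI : ∀ p1 p2 p3 : K, In4 w (1 - k3) (k3 - k1) (p3 - p1) (p3 - p2) ↔
            (k3 = 1 ∧ 0 * p1 + (-w.x1) * p2 + w.x1 * p3 = -(w.x4 * (1 - k1))) := by
          intro p1 p2 p3
          unfold In4 cA cB cC cD
          rw [hx, e2, e3]
          constructor
          · rintro ⟨-, h2, h3, -⟩
            have g3 : w.x1 * (1 - k3) = 0 := by linear_combination h2
            have g4 := (mul_eq_zero.1 g3).resolve_left e1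
            have g5 : k3 = 1 := (sub_eq_zero.1 g4).symm
            refine ⟨g5, ?_⟩
            rw [g5] at h3
            linear_combination h3
          · rintro ⟨h1, h2⟩
            rw [h1]
            refine ⟨?_, ?_, ?_, ?_⟩
            · ring
            · ring
            · linear_combination h2
            · ring
        simp only [hI]
        by_cases hk : k3 = 1
        · simp only [hk, true_and]
          rw [if_true, HE_b rfl (neg_ne_zero.2 e1) e1]
          simp only [neg_eq_zero]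
        · simp only [hk, false_and, and_false, if_false, Finset.sum_const_zero]) (by
        intro k1 k3
        rw [sub_eq_zero]
        constructor
        · rintro ⟨h1, h2⟩
          exact ⟨h2.symm, h1⟩
        · rintro ⟨h1, h2⟩
          exact ⟨h2, h1.symm⟩) (by
        have h1 : ∀ k1 k3 : K, (if k1 ≠ 0 ∧ k3 ≠ 0 ∧ k3 = 1 then (1 : ℝ) else 0) =
            if k1 ≠ 0 ∧ k3 ≠ 0 ∧ 0 * k1 + (-1) + 1 * k3 = 0 then (1 : ℝ) else 0 := by
          intro k1 k3
          refine if_congr (and_congr_right fun _ => and_congr_right fun _ => ?_) rfl rfl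
          constructor
          · intro h
            linear_combination h
          · intro h
            linear_combination h
        rw [Finset.sum_congr rfl fun k1 _ => Finset.sum_congr rfl fun k3 _ => h1 k1 k3,
          card_line (by ring : (0 : K) + -1 + 1 = 0)]
        simp
        ring)
      rw [hn]
      by_cases h4 : w.x4 = 0
      · simp [hx, e1, e2, e3, h4]
        ring
      · simp [hx, e1, e2, e3, h4]
        ring
    · -- case A
      have e3 : w.x3 ≠ 0 := by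
        intro e3
        rw [e3] at hw
        have : w.x1 * w.x2 = 0 := by linear_combination (-1 : K) * hw
        rcases mul_eq_zero.1 this with h | h
        · exact e1 h
        · exact e2 h
      have s12 : w.x1 + w.x2 ≠ 0 := by
        intro h
        have : w.x1 * w.x1 = 0 := by linear_combination hw + (w.x1 + w.x3) * h
        exact e1 (mul_self_eq_zero.1 this)
      have s13 : w.x1 + w.x3 ≠ 0 := by
        intro h
        have : w.x1 * w.x1 = 0 := by linear_combination hw + (w.x1 + w.x2) * h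
        exact e1 (mul_self_eq_zero.1 this)
      have s23 : w.x2 + w.x3 ≠ 0 := by
        intro h
        have : w.x2 * w.x2 = 0 := by linear_combination hw + (w.x2 + w.x1) * h
        exact e2 (mul_self_eq_zero.1 this)
      have hn := HE_main w (fun k1 k3 => (-w.x3) * k1 + (w.x1 + w.x3) + (-w.x1) * k3 = 0) (fun k1 k3 => k3 - k1)
        ((qr K - 1) * (qr K - 2) + 1) (-1) (qr K - 2) (by
        intro k1 k3
        have hI : ∀ p1 p2 p3 : K, In4 w (1 - k3) (k3 - k1) (p3 - p1) (p3 - p2) ↔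
            ((-w.x3) * k1 + (w.x1 + w.x3) + (-w.x1) * k3 = 0 ∧
              w.x3 * p1 + (-(w.x1 + w.x3)) * p2 + w.x1 * p3 = -(w.x4 * (k3 - k1))) := by
          intro p1 p2 p3
          unfold In4 cA cB cC cD
          rw [hx]
          constructor
          · rintro ⟨-, h2, h3, -⟩
            exact ⟨by linear_combination h2, by linear_combination h3⟩
          · rintro ⟨h1, h2⟩
            refine ⟨?_, ?_, ?_, ?_⟩
            · have : (w.x1 + w.x3) * (-(0 * (p3 - p2)) - w.x3 * (1 - k3) - (w.x2 + w.x3) * (k3 - k1)) = 0 := by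
                linear_combination (-w.x3) * h1 + (k3 - k1) * hw
              exact (mul_eq_zero.1 this).resolve_left s13
            · linear_combination h1
            · linear_combination h2
            · have : w.x3 * (-((w.x2 + w.x3) * (p3 - p1)) + w.x3 * (p3 - p2) - w.x4 * (1 - k3)) = 0 := by
                have hA : (w.x1 + w.x3) * (w.x3 * (1 - k3) + (w.x2 + w.x3) * (k3 - k1)) = 0 := by
                  linear_combination w.x3 * h1 - (k3 - k1) * hw
                have hA' := (mul_eq_zero.1 hA).resolve_left s13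
                linear_combination (w.x2 + w.x3) * h2 - w.x4 * hA' - (p2 - p3) * hw
              exact (mul_eq_zero.1 this).resolve_left e3
        simp only [hI]
        by_cases hk : (-w.x3) * k1 + (w.x1 + w.x3) + (-w.x1) * k3 = 0
        · simp only [hk, true_and]
          rw [if_true, HE_a e3 (neg_ne_zero.2 s13) e1]
          simp only [neg_eq_zero]
        · simp only [hk, false_and, and_false, if_false, Finset.sum_const_zero]) (by
        intro k1 k3
        constructor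
        · rintro ⟨h1, h2⟩
          have g : k3 = k1 := sub_eq_zero.1 h2
          rw [g] at h1
          have g2 : (w.x1 + w.x3) * (1 - k1) = 0 := by linear_combination h1
          have g3 := (mul_eq_zero.1 g2).resolve_left s13
          have g4 : k1 = 1 := (sub_eq_zero.1 g3).symm
          exact ⟨g4, g.trans g4⟩
        · rintro ⟨h1, h2⟩
          rw [h1, h2]
          constructor <;> ring) (by
        rw [card_line (by ring : -w.x3 + (w.x1 + w.x3) + -w.x1 = 0)]
        simp [e1, e3, s13])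
      rw [hn]
      by_cases h4 : w.x4 = 0
      · simp [hx, e1, e2, e3, s12, s13, s23, h4]
        ring
      · simp [hx, e1, e2, e3, s12, s13, s23, h4]
        ring

private theorem HG_one (g : K → ℝ) : (∑ a : K, g a) = g 0 + ∑ a : K, if a = 0 then 0 else g a := by
  have h : ∀ a : K, g a = (if a = 0 then g 0 else 0) + if a = 0 then 0 else g a := by
    intro a
    by_cases ha : a = 0 <;> simp [ha]
  rw [Finset.sum_congr rfl fun a _ => h a, Finset.sum_add_distrib, Finset.sum_ite_eq' Finset.univ,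
    if_pos (Finset.mem_univ _)]

/-- MODULE HG.  A sum over six variables, by the first variable (in the order `a, b, c, d, e, f`) which is `0`. -/
theorem split6 (G : K → K → K → K → K → K → ℝ) :
    (∑ a : K, ∑ b : K, ∑ c : K, ∑ d : K, ∑ e : K, ∑ f : K, G a b c d e f) =
      (∑ b : K, ∑ c : K, ∑ d : K, ∑ e : K, ∑ f : K, G 0 b c d e f) +
      (∑ a : K, ∑ c : K, ∑ d : K, ∑ e : K, ∑ f : K, if a = 0 then 0 else G a 0 c d e f) +
      (∑ a : K, ∑ b : K, ∑ d : K, ∑ e : K, ∑ f : K, if a = 0 ∨ b = 0 then 0 else G a b 0 d e f) +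
      (∑ a : K, ∑ b : K, ∑ c : K, ∑ e : K, ∑ f : K, if a = 0 ∨ b = 0 ∨ c = 0 then 0 else G a b c 0 e f) +
      (∑ a : K, ∑ b : K, ∑ c : K, ∑ d : K, ∑ f : K, if a = 0 ∨ b = 0 ∨ c = 0 ∨ d = 0 then 0 else G a b c d 0 f) +
      (∑ a : K, ∑ b : K, ∑ c : K, ∑ d : K, ∑ e : K,
        if a = 0 ∨ b = 0 ∨ c = 0 ∨ d = 0 ∨ e = 0 then 0 else G a b c d e 0) +
      (∑ a : K, ∑ b : K, ∑ c : K, ∑ d : K, ∑ e : K, ∑ f : K,
        if a = 0 ∨ b = 0 ∨ c = 0 ∨ d = 0 ∨ e = 0 ∨ f = 0 then 0 else G a b c d e f) := by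
  have e1 : ∀ (a : K) (x : ℝ), (if a = 0 then 0 else x) = (if a = 0 then 0 else 1) * x := by
    intro a x
    by_cases ha : a = 0 <;> simp [ha]
  have e2 : ∀ (a : K) (p : Prop) [Decidable p] (x : ℝ), (if a = 0 ∨ p then 0 else x) = (if a = 0 then 0 else 1) * (if p then 0 else x) := by
    intro a p _ x
    by_cases ha : a = 0 <;> simp [ha]
  have o : ∀ g : K → ℝ, (∑ a : K, g a) = g 0 + ∑ a : K, (if a = 0 then 0 else 1) * g a := by
    intro g
    rw [HG_one g]
    simp only [← e1]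
  have f6 : ∀ a b c d e : K, (∑ f : K, G a b c d e f) = G a b c d e 0 +
      ∑ f : K, (if f = 0 then 0 else 1) * G a b c d e f := fun a b c d e => o (G a b c d e)
  have f5 : ∀ a b c d : K, (∑ e : K, ∑ f : K, G a b c d e f) = (∑ f : K, G a b c d 0 f) +
      ∑ e : K, (if e = 0 then 0 else 1) * (G a b c d e 0 + ∑ f : K, (if f = 0 then 0 else 1) * G a b c d e f) := by
    intro a b c d
    rw [o (fun e => ∑ f : K, G a b c d e f)]
    simp only [f6]
  have f4 : ∀ a b c : K, (∑ d : K, ∑ e : K, ∑ f : K, G a b c d e f) = (∑ e : K, ∑ f : K, G a b c 0 e f) +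
      ∑ d : K, (if d = 0 then 0 else 1) * ((∑ f : K, G a b c d 0 f) +
      ∑ e : K, (if e = 0 then 0 else 1) * (G a b c d e 0 + ∑ f : K, (if f = 0 then 0 else 1) * G a b c d e f)) := by
    intro a b c
    rw [o (fun d => ∑ e : K, ∑ f : K, G a b c d e f)]
    simp only [f5]
  have f3 : ∀ a b : K, (∑ c : K, ∑ d : K, ∑ e : K, ∑ f : K, G a b c d e f) =
      (∑ d : K, ∑ e : K, ∑ f : K, G a b 0 d e f) +
      ∑ c : K, (if c = 0 then 0 else 1) * ((∑ e : K, ∑ f : K, G a b c 0 e f) +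
      ∑ d : K, (if d = 0 then 0 else 1) * ((∑ f : K, G a b c d 0 f) +
      ∑ e : K, (if e = 0 then 0 else 1) * (G a b c d e 0 + ∑ f : K, (if f = 0 then 0 else 1) * G a b c d e f))) := by
    intro a b
    rw [o (fun c => ∑ d : K, ∑ e : K, ∑ f : K, G a b c d e f)]
    simp only [f4]
  have f2 : ∀ a : K, (∑ b : K, ∑ c : K, ∑ d : K, ∑ e : K, ∑ f : K, G a b c d e f) =
      (∑ c : K, ∑ d : K, ∑ e : K, ∑ f : K, G a 0 c d e f) +
      ∑ b : K, (if b = 0 then 0 else 1) * ((∑ d : K, ∑ e : K, ∑ f : K, G a b 0 d e f) +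
      ∑ c : K, (if c = 0 then 0 else 1) * ((∑ e : K, ∑ f : K, G a b c 0 e f) +
      ∑ d : K, (if d = 0 then 0 else 1) * ((∑ f : K, G a b c d 0 f) +
      ∑ e : K, (if e = 0 then 0 else 1) * (G a b c d e 0 + ∑ f : K, (if f = 0 then 0 else 1) * G a b c d e f)))) := by
    intro a
    rw [o (fun b => ∑ c : K, ∑ d : K, ∑ e : K, ∑ f : K, G a b c d e f)]
    simp only [f3]
  have f1 : (∑ a : K, ∑ b : K, ∑ c : K, ∑ d : K, ∑ e : K, ∑ f : K, G a b c d e f) =
      (∑ b : K, ∑ c : K, ∑ d : K, ∑ e : K, ∑ f : K, G 0 b c d e f) +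
      ∑ a : K, (if a = 0 then 0 else 1) * ((∑ c : K, ∑ d : K, ∑ e : K, ∑ f : K, G a 0 c d e f) +
      ∑ b : K, (if b = 0 then 0 else 1) * ((∑ d : K, ∑ e : K, ∑ f : K, G a b 0 d e f) +
      ∑ c : K, (if c = 0 then 0 else 1) * ((∑ e : K, ∑ f : K, G a b c 0 e f) +
      ∑ d : K, (if d = 0 then 0 else 1) * ((∑ f : K, G a b c d 0 f) +
      ∑ e : K, (if e = 0 then 0 else 1) * (G a b c d e 0 + ∑ f : K, (if f = 0 then 0 else 1) * G a b c d e f))))) := by
    rw [o (fun a => ∑ b : K, ∑ c : K, ∑ d : K, ∑ e : K, ∑ f : K, G a b c d e f)]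
    simp only [f2]
  rw [f1]
  simp only [e2, e1 _ (G _ _ _ _ _ _)]
  simp only [mul_add, Finset.sum_add_distrib, Finset.mul_sum]
  ring

/-- MODULE HH.  `XH 0 b c d e f w` is `u.tr` for `u = P3m b (L2m d (P1m c (L3m e (P2m f w))))`, where
`P1m y w = (P3m y w.rt).tr`, `P2m y w = (P3m y w.tr).rt`, `L2m y w = (L3m y w.tr).rt` (`ring`). -/
theorem XH_zero (b c d e f : K) (w : W5 K) :
    XH 0 b c d e f w = (P3m b (L3m d (P3m c (L3m e (P3m f w.tr).rt).rt).tr.tr).rt).tr := by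
  ext <;> simp only [XH, L3m, P3m, W5.rt, W5.tr] <;> ring

/-- MODULE HH.  The six symmetries which move `b, c, d, e, f` to the place of `a` (`ring`). -/
theorem XH_sym (a b c d e f : K) (w : W5 K) :
    (XH a b c d e f w).tr.sw = XH b a e f c d w.tr.sw ∧ (XH a b c d e f w).sw = XH c d a b f e w.sw ∧
    (XH a b c d e f w).rt = XH d c f e a b w.rt ∧ (XH a b c d e f w).tr = XH e f b a d c w.tr ∧
    (XH a b c d e f w).rt.sw = XH f e d c b a w.rt.sw := by
  refine ⟨?_, ?_, ?_, ?_, ?_⟩ <;> ext <;> simp only [XH, W5.rt, W5.tr, W5.sw] <;> ring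

/-- The weight of a value of the variable. -/
private noncomputable def HH_wt (o : El) (y : K) : ℝ :=
  match o with
  | .P => 1
  | .L => 1
  | _ => if y = 0 then 0 else 1

private theorem HH_P {o : El} (ho : o = .P ∨ o = .Pn) (f : W5 K → ℝ) (w : W5 K) :
    o.op f w = ∑ y : K, HH_wt o y * f (P3m y w) := by
  rcases ho with rfl | rfl
  · simp [El.op, HH_wt]
  · refine Finset.sum_congr rfl fun y _ => ?_
    by_cases hy : y = 0 <;> simp [HH_wt, hy]

private theorem HH_L {o : El} (ho : o = .L ∨ o = .Ln) (f : W5 K → ℝ) (w : W5 K) :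
    o.op f w = ∑ y : K, HH_wt o y * f (L3m y w) := by
  rcases ho with rfl | rfl
  · simp [El.op, HH_wt]
  · refine Finset.sum_congr rfl fun y _ => ?_
    by_cases hy : y = 0 <;> simp [HH_wt, hy]

private theorem HH_sum5 (H : K → K → K → K → K → ℝ) :
    (∑ a : K, ∑ b : K, ∑ c : K, ∑ d : K, ∑ e : K, H a b c d e) =
      ∑ p : K × K × K × K × K, H p.1 p.2.1 p.2.2.1 p.2.2.2.1 p.2.2.2.2 := by
  simp only [Fintype.sum_prod_type]

/-- The chains. -/
private theorem HH_ch {of oe oc od ob : El} (hf : of = .P ∨ of = .Pn) (he : oe = .L ∨ oe = .Ln)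
    (hc : oc = .P ∨ oc = .Pn) (hd : od = .L ∨ od = .Ln) (hb : ob = .P ∨ ob = .Pn) (g : W5 K → ℝ)
    (hr : ∀ w : W5 K, g w.rt = g w) (w : W5 K) :
    ch [(of, 2), (oe, 3), (oc, 1), (od, 2), (ob, 3)] g w =
      ∑ p : K × K × K × K × K, HH_wt of p.1 * (HH_wt oe p.2.1 * (HH_wt oc p.2.2.1 * (HH_wt od p.2.2.2.1 *
        (HH_wt ob p.2.2.2.2 * g (XH 0 p.2.2.2.2 p.2.2.1 p.2.2.2.1 p.2.1 p.1 w))))) := by
  rw [← HH_sum5 (fun f e c d b => HH_wt of f * (HH_wt oe e * (HH_wt oc c * (HH_wt od d *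
        (HH_wt ob b * g (XH 0 b c d e f w))))))]
  simp only [ch, El.at, HH_P hf, HH_P hc, HH_P hb, HH_L he, HH_L hd, Finset.mul_sum]
  refine Finset.sum_congr rfl fun f _ => Finset.sum_congr rfl fun e _ => Finset.sum_congr rfl fun c _ =>
    Finset.sum_congr rfl fun d _ => Finset.sum_congr rfl fun b _ => ?_
  rw [XH_zero, ← hr ((P3m b _).tr)]
  rfl

private theorem HH_g {g : W5 K → ℝ} (hr : ∀ w : W5 K, g w.rt = g w) (w : W5 K) : g w.tr = g w := by
  rw [← hr w.tr]
  rfl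

private def HH_ea : (K × K × K × K × K) ≃ (K × K × K × K × K) where
  toFun := fun (b, c, d, e, f) => (f, e, c, d, b)
  invFun := fun (f, e, c, d, b) => (b, c, d, e, f)
  left_inv := by rintro ⟨b, c, d, e, f⟩; rfl
  right_inv := by rintro ⟨f, e, c, d, b⟩; rfl

private def HH_eb : (K × K × K × K × K) ≃ (K × K × K × K × K) where
  toFun := fun (a, c, d, e, f) => (d, c, e, f, a)
  invFun := fun (d, c, e, f, a) => (a, c, d, e, f)
  left_inv := by rintro ⟨a, c, d, e, f⟩; rfl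
  right_inv := by rintro ⟨d, c, e, f, a⟩; rfl

private def HH_ec : (K × K × K × K × K) ≃ (K × K × K × K × K) where
  toFun := fun (a, b, d, e, f) => (e, f, a, b, d)
  invFun := fun (e, f, a, b, d) => (a, b, d, e, f)
  left_inv := by rintro ⟨a, b, d, e, f⟩; rfl
  right_inv := by rintro ⟨e, f, a, b, d⟩; rfl

private def HH_ed : (K × K × K × K × K) ≃ (K × K × K × K × K) where
  toFun := fun (a, b, c, e, f) => (b, a, f, e, c)
  invFun := fun (b, a, f, e, c) => (a, b, c, e, f)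
  left_inv := by rintro ⟨a, b, c, e, f⟩; rfl
  right_inv := by rintro ⟨b, a, f, e, c⟩; rfl

private def HH_ee : (K × K × K × K × K) ≃ (K × K × K × K × K) where
  toFun := fun (a, b, c, d, f) => (c, d, b, a, f)
  invFun := fun (c, d, b, a, f) => (a, b, c, d, f)
  left_inv := by rintro ⟨a, b, c, d, f⟩; rfl
  right_inv := by rintro ⟨c, d, b, a, f⟩; rfl

private def HH_ef : (K × K × K × K × K) ≃ (K × K × K × K × K) where
  toFun := fun (a, b, c, d, e) => (a, b, d, c, e)
  invFun := fun (a, b, d, c, e) => (a, b, c, d, e)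
  left_inv := by rintro ⟨a, b, c, d, e⟩; rfl
  right_inv := by rintro ⟨a, b, d, c, e⟩; rfl

/-- MODULE HH.  `split6` for `G = g (XH ...)`, `XH_sym`, `XH_zero`; the remaining variables of the six terms, as places
`(b, c, d, e, f)` of `XH 0 b c d e f`: `(b, c, d, e, f)`; `(a, e, f, c, d)`; `(d, a, b, f, e)`; `(c, f, e, a, b)`;
`(f, b, a, d, c)`; `(e, d, c, b, a)`. -/
theorem h_split (g : W5 K → ℝ) (hr : ∀ w : W5 K, g w.rt = g w) (hs : ∀ w : W5 K, g w.sw = g w) (w : W5 K) :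
    (∑ y : Fin 6 → K, g (Lt.X .h y w)) =
      ch [(.P, 2), (.L, 3), (.P, 1), (.L, 2), (.P, 3)] g w +
      ch [(.P, 2), (.L, 3), (.P, 1), (.L, 2), (.Pn, 3)] g w.tr.sw +
      ch [(.P, 2), (.L, 3), (.Pn, 1), (.Ln, 2), (.P, 3)] g w.sw +
      ch [(.Pn, 2), (.Ln, 3), (.P, 1), (.L, 2), (.Pn, 3)] g w.rt +
      ch [(.Pn, 2), (.Ln, 3), (.Pn, 1), (.Ln, 2), (.P, 3)] g w.tr +
      ch [(.Pn, 2), (.Ln, 3), (.Pn, 1), (.Ln, 2), (.Pn, 3)] g w.rt.sw +
      ∑ a : K, ∑ b : K, ∑ c : K, ∑ d : K, ∑ e : K, ∑ f : K,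
        if a = 0 ∨ b = 0 ∨ c = 0 ∨ d = 0 ∨ e = 0 ∨ f = 0 then 0 else g (XH a b c d e f w) := by
  have ht := HH_g hr
  have h0 : (∑ y : Fin 6 → K, g (Lt.X .h y w)) =
      ∑ a : K, ∑ b : K, ∑ c : K, ∑ d : K, ∑ e : K, ∑ f : K, g (XH a b c d e f w) :=
    sum6 (fun a b c d e f => g (XH a b c d e f w))
  rw [h0, split6 (fun a b c d e f => g (XH a b c d e f w))]
  have p1 : El.P = .P ∨ El.P = .Pn := Or.inl rfl
  have p2 : El.Pn = .P ∨ El.Pn = .Pn := Or.inr rfl
  have l1 : El.L = .L ∨ El.L = .Ln := Or.inl rfl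
  have l2 : El.Ln = .L ∨ El.Ln = .Ln := Or.inr rfl
  have s1 : ∀ a b c d e f : K, g (XH a b c d e f w) = g (XH b a e f c d w.tr.sw) := by
    intro a b c d e f
    rw [← (XH_sym a b c d e f w).1, hs, ht]
  have s2 : ∀ a b c d e f : K, g (XH a b c d e f w) = g (XH c d a b f e w.sw) := by
    intro a b c d e f
    rw [← (XH_sym a b c d e f w).2.1, hs]
  have s3 : ∀ a b c d e f : K, g (XH a b c d e f w) = g (XH d c f e a b w.rt) := by
    intro a b c d e f
    rw [← (XH_sym a b c d e f w).2.2.1, hr]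
  have s4 : ∀ a b c d e f : K, g (XH a b c d e f w) = g (XH e f b a d c w.tr) := by
    intro a b c d e f
    rw [← (XH_sym a b c d e f w).2.2.2.1, ht]
  have s5 : ∀ a b c d e f : K, g (XH a b c d e f w) = g (XH f e d c b a w.rt.sw) := by
    intro a b c d e f
    rw [← (XH_sym a b c d e f w).2.2.2.2, hs, hr]
  have t1 : (∑ b : K, ∑ c : K, ∑ d : K, ∑ e : K, ∑ f : K, g (XH 0 b c d e f w)) =
      ch [(.P, 2), (.L, 3), (.P, 1), (.L, 2), (.P, 3)] g w := by
    rw [HH_ch p1 l1 p1 l1 p1 g hr, HH_sum5 (fun b c d e f => g (XH 0 b c d e f w))]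
    refine Fintype.sum_equiv HH_ea _ _ ?_
    rintro ⟨b, c, d, e, f⟩
    simp [HH_ea, HH_wt]
  have t2 : (∑ a : K, ∑ c : K, ∑ d : K, ∑ e : K, ∑ f : K, if a = 0 then 0 else g (XH a 0 c d e f w)) =
      ch [(.P, 2), (.L, 3), (.P, 1), (.L, 2), (.Pn, 3)] g w.tr.sw := by
    rw [HH_ch p1 l1 p1 l1 p2 g hr, HH_sum5 (fun a c d e f => if a = 0 then 0 else g (XH a 0 c d e f w))]
    refine Fintype.sum_equiv HH_eb _ _ ?_
    rintro ⟨a, c, d, e, f⟩
    by_cases ha : a = 0
    · simp [HH_eb, HH_wt, ha]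
    simp [HH_eb, HH_wt, ha, s1 a 0 c d e f]
  have t3 : (∑ a : K, ∑ b : K, ∑ d : K, ∑ e : K, ∑ f : K, if a = 0 ∨ b = 0 then 0 else g (XH a b 0 d e f w)) =
      ch [(.P, 2), (.L, 3), (.Pn, 1), (.Ln, 2), (.P, 3)] g w.sw := by
    rw [HH_ch p1 l1 p2 l2 p1 g hr, HH_sum5 (fun a b d e f => if a = 0 ∨ b = 0 then 0 else g (XH a b 0 d e f w))]
    refine Fintype.sum_equiv HH_ec _ _ ?_
    rintro ⟨a, b, d, e, f⟩
    by_cases ha : a = 0
    · simp [HH_ec, HH_wt, ha]
    by_cases hb : b = 0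
    · simp [HH_ec, HH_wt, hb]
    simp [HH_ec, HH_wt, ha, hb, s2 a b 0 d e f]
  have t4 : (∑ a : K, ∑ b : K, ∑ c : K, ∑ e : K, ∑ f : K, if a = 0 ∨ b = 0 ∨ c = 0 then 0 else g (XH a b c 0 e f w)) =
      ch [(.Pn, 2), (.Ln, 3), (.P, 1), (.L, 2), (.Pn, 3)] g w.rt := by
    rw [HH_ch p2 l2 p1 l1 p2 g hr, HH_sum5 (fun a b c e f => if a = 0 ∨ b = 0 ∨ c = 0 then 0 else g (XH a b c 0 e f w))]
    refine Fintype.sum_equiv HH_ed _ _ ?_
    rintro ⟨a, b, c, e, f⟩
    by_cases ha : a = 0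
    · simp [HH_ed, HH_wt, ha]
    by_cases hb : b = 0
    · simp [HH_ed, HH_wt, hb]
    by_cases hc : c = 0
    · simp [HH_ed, HH_wt, hc]
    simp [HH_ed, HH_wt, ha, hb, hc, s3 a b c 0 e f]
  have t5 : (∑ a : K, ∑ b : K, ∑ c : K, ∑ d : K, ∑ f : K, if a = 0 ∨ b = 0 ∨ c = 0 ∨ d = 0 then 0 else g (XH a b c d 0 f w)) =
      ch [(.Pn, 2), (.Ln, 3), (.Pn, 1), (.Ln, 2), (.P, 3)] g w.tr := by
    rw [HH_ch p2 l2 p2 l2 p1 g hr,
      HH_sum5 (fun a b c d f => if a = 0 ∨ b = 0 ∨ c = 0 ∨ d = 0 then 0 else g (XH a b c d 0 f w))]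
    refine Fintype.sum_equiv HH_ee _ _ ?_
    rintro ⟨a, b, c, d, f⟩
    by_cases ha : a = 0
    · simp [HH_ee, HH_wt, ha]
    by_cases hb : b = 0
    · simp [HH_ee, HH_wt, hb]
    by_cases hc : c = 0
    · simp [HH_ee, HH_wt, hc]
    by_cases hd : d = 0
    · simp [HH_ee, HH_wt, hd]
    simp [HH_ee, HH_wt, ha, hb, hc, hd, s4 a b c d 0 f]
  have t6 : (∑ a : K, ∑ b : K, ∑ c : K, ∑ d : K, ∑ e : K, if a = 0 ∨ b = 0 ∨ c = 0 ∨ d = 0 ∨ e = 0 then 0 else g (XH a b c d e 0 w)) =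
      ch [(.Pn, 2), (.Ln, 3), (.Pn, 1), (.Ln, 2), (.Pn, 3)] g w.rt.sw := by
    rw [HH_ch p2 l2 p2 l2 p2 g hr,
      HH_sum5 (fun a b c d e => if a = 0 ∨ b = 0 ∨ c = 0 ∨ d = 0 ∨ e = 0 then 0 else g (XH a b c d e 0 w))]
    refine Fintype.sum_equiv HH_ef _ _ ?_
    rintro ⟨a, b, c, d, e⟩
    by_cases ha : a = 0
    · simp [HH_ef, HH_wt, ha]
    by_cases hb : b = 0
    · simp [HH_ef, HH_wt, hb]
    by_cases hc : c = 0
    · simp [HH_ef, HH_wt, hc]
    by_cases hd : d = 0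
    · simp [HH_ef, HH_wt, hd]
    by_cases he : e = 0
    · simp [HH_ef, HH_wt, he]
    simp [HH_ef, HH_wt, ha, hb, hc, hd, he, s5 a b c d e 0]
  rw [t1, t2, t3, t4, t5, t6]

private theorem HI_one : (∑ p : K, if p ≠ 0 then (1 : ℝ) else 0) = qr K - 1 := by
  have h : ∀ a : K, (if a ≠ 0 then (1 : ℝ) else 0) = 1 - if a = 0 then 1 else 0 := by
    intro a
    by_cases ha : a = 0 <;> simp [ha]
  rw [Finset.sum_congr rfl fun a _ => h a, Finset.sum_sub_distrib]
  simp [qr]

private theorem HI_c (r : ℝ) : (∑ _p : K, r) = qr K * r := by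
  simp [qr]

private theorem HI_lin (P Q : K) : (∑ a : K, if a * P + Q ≠ 0 then (1 : ℝ) else 0) =
    qr K - if P = 0 then (if Q = 0 then qr K else 0) else 1 := by
  rw [← card_lin P Q]
  have h : ∀ a : K, (if a * P + Q ≠ 0 then (1 : ℝ) else 0) = 1 - if a * P + Q = 0 then 1 else 0 := by
    intro a
    by_cases ha : a * P + Q = 0 <;> simp [ha]
  rw [Finset.sum_congr rfl fun a _ => h a, Finset.sum_sub_distrib, HI_c]
  ring

/-- MODULE HI.  For given `α, β, γ` (`f = α - a`, `d = β - b`, `e = γ - c`) `σ = a d e + b c f = β γ a - β a c - γ a b + α b c`.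
For `α β γ ≠ 0` substitute `a = α a'` etc.: `σ = α β γ (a' (1 - b' - c') + b' c')`, zero for `q ^ 2 + q` triples; if `α β γ = 0` but
not all are `0`: `2 q ^ 2 - q`; if all are `0`: always. -/
theorem card_sig (α β γ : K) :
    (∑ a : K, ∑ b : K, ∑ c : K, if a * (β - b) * (γ - c) + b * c * (α - a) ≠ 0 then (1 : ℝ) else 0) =
      if α = 0 ∧ β = 0 ∧ γ = 0 then 0 else if α = 0 ∨ β = 0 ∨ γ = 0 then qr K * (qr K - 1) ^ 2
        else qr K ^ 3 - qr K ^ 2 - qr K := by
  have hq : ((Fintype.card K : ℕ) : ℝ) = qr K := rfl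
  have h1 : (∑ a : K, ∑ b : K, ∑ c : K, if a * (β - b) * (γ - c) + b * c * (α - a) ≠ 0 then (1 : ℝ) else 0) =
      ∑ b : K, ∑ c : K, (qr K - if β * γ - β * c - γ * b = 0 then (if α * b * c = 0 then qr K else 0) else 1) := by
    rw [Finset.sum_comm]
    refine Finset.sum_congr rfl fun b _ => ?_
    rw [Finset.sum_comm]
    refine Finset.sum_congr rfl fun c _ => ?_
    rw [← HI_lin]
    refine Finset.sum_congr rfl fun a _ => ?_
    have : a * (β - b) * (γ - c) + b * c * (α - a) = a * (β * γ - β * c - γ * b) + α * b * c := by ring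
    rw [this]
  rw [h1]
  simp only [Finset.sum_sub_distrib, HI_c]
  by_cases hb : β = 0
  · subst hb
    by_cases hg : γ = 0
    · subst hg
      have e : ∀ b c : K, (if (0 : K) * 0 - 0 * c - 0 * b = 0 then (if α * b * c = 0 then qr K else 0) else 1) =
          if α * b * c = 0 then qr K else 0 := by
        intro b c
        rw [if_pos (by ring)]
      simp only [e]
      by_cases ha : α = 0
      · subst ha
        simp [hq]
      · have e2 : ∀ b : K, (∑ c : K, if α * b * c = 0 then qr K else 0) = qr K + (if b = 0 then qr K * qr K - qr K else 0) := by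
          intro b
          by_cases hb : b = 0
          · simp [hb, hq]
          · simp [hb, ha]
        simp only [e2, Finset.sum_add_distrib, HI_c, Finset.sum_ite_eq', Finset.mem_univ, if_true]
        simp [ha]
        ring
    · have e : ∀ b c : K, (if (0 : K) * γ - 0 * c - γ * b = 0 then (if α * b * c = 0 then qr K else 0) else 1) =
          1 + (if b = 0 then qr K - 1 else 0) := by
        intro b c
        by_cases hb : b = 0
        · simp [hb]
        · simp [hb, hg]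
      simp only [e, Finset.sum_add_distrib, HI_c]
      rw [← Finset.mul_sum]
      simp [hg]
      ring
  · by_cases hg : γ = 0
    · subst hg
      have e : ∀ b c : K, (if β * 0 - β * c - 0 * b = 0 then (if α * b * c = 0 then qr K else 0) else 1) =
          1 + (if c = 0 then qr K - 1 else 0) := by
        intro b c
        by_cases hc : c = 0
        · simp [hc]
        · simp [hb, hc]
      simp only [e, Finset.sum_add_distrib, HI_c]
      simp [hb, HI_c]
      ring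
    · have e : ∀ b : K, (∑ c : K, if β * γ - β * c - γ * b = 0 then (if α * b * c = 0 then qr K else 0) else (1 : ℝ)) =
          (qr K - 1) + (if α = 0 then qr K else (if b = 0 then qr K else 0) + if b = β then qr K else 0) := by
        intro b
        have e1 : ∀ c : K, (if β * γ - β * c - γ * b = 0 then (if α * b * c = 0 then qr K else 0) else (1 : ℝ)) =
            1 + if c = γ - γ * b / β then (if α * b * (γ - γ * b / β) = 0 then qr K else 0) - 1 else 0 := by
          intro c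
          by_cases hc : c = γ - γ * b / β
          · have : β * γ - β * c - γ * b = 0 := by
              rw [hc]
              field_simp
              ring
            rw [if_pos this, if_pos hc, hc]
            ring
          · have : ¬ β * γ - β * c - γ * b = 0 := by
              intro h
              apply hc
              field_simp
              linear_combination -h
            rw [if_neg this, if_neg hc]
            ring
        simp only [e1, Finset.sum_add_distrib, HI_c, Finset.sum_ite_eq', Finset.mem_univ, if_true]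
        by_cases ha : α = 0
        · simp [ha]
          ring
        by_cases h0 : b = 0
        · have : b ≠ β := fun h => hb (h ▸ h0)
          rw [h0]
          simp [Ne.symm hb, ha]
          ring
        by_cases h2 : b = β
        · subst h2
          simp [hb, ha]
          ring
        · have : γ - γ * b / β ≠ 0 := by
            intro h
            apply h2
            field_simp at h
            have h3 : γ * (β - b) = 0 := by linear_combination h
            rcases mul_eq_zero.1 h3 with h4 | h4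
            · exact absurd h4 hg
            · exact (sub_eq_zero.1 h4).symm
          simp [ha, h0, h2, this]
          ring
      simp only [e, Finset.sum_add_distrib, HI_c]
      by_cases ha : α = 0
      · simp [ha, hb, hg, hq]
        ring
      · simp [ha, hb, hg, Finset.sum_add_distrib, hq]
        ring

private theorem HI_pair {x0 x : K} (hx : x ≠ 0) :
    (∑ a : K, ∑ b : K, if a ≠ 0 ∧ b ≠ 0 ∧ x0 * (a * b) + x * (a + b) = 0 then (1 : ℝ) else 0) =
      qr K - 2 + if x0 = 0 then 1 else 0 := by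
  have e : ∀ a : K, (∑ b : K, if a ≠ 0 ∧ b ≠ 0 ∧ x0 * (a * b) + x * (a + b) = 0 then (1 : ℝ) else 0) =
      if a ≠ 0 then (if x0 * a + x = 0 then 0 else 1) else 0 := by
    intro a
    by_cases ha : a = 0
    · simp [ha]
    by_cases h : x0 * a + x = 0
    · rw [if_pos ha, if_pos h]
      apply Finset.sum_eq_zero
      intro b _
      rw [if_neg]
      rintro ⟨-, -, h2⟩
      have : x * a = 0 := by linear_combination h2 - b * h
      rcases mul_eq_zero.1 this with h3 | h3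
      · exact hx h3
      · exact ha h3
    · rw [if_pos ha, if_neg h]
      have e2 : ∀ b : K, (a ≠ 0 ∧ b ≠ 0 ∧ x0 * (a * b) + x * (a + b) = 0) ↔ b = -(x * a) / (x0 * a + x) := by
        intro b
        rw [eq_div_iff h]
        constructor
        · rintro ⟨-, -, h2⟩
          linear_combination h2
        · intro h2
          refine ⟨ha, ?_, by linear_combination h2⟩
          intro hb
          rw [hb, zero_mul] at h2
          rcases mul_eq_zero.1 (neg_eq_zero.1 h2.symm) with h3 | h3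
          · exact hx h3
          · exact ha h3
      simp only [e2, Finset.sum_ite_eq', Finset.mem_univ, if_true]
  simp only [e]
  by_cases h0 : x0 = 0
  · subst h0
    have e3 : ∀ a : K, (if a ≠ 0 then (if 0 * a + x = 0 then (0 : ℝ) else 1) else 0) = if a ≠ 0 then 1 else 0 := by
      intro a
      have : ¬ (0 * a + x = 0) := by
        rw [zero_mul, zero_add]
        exact hx
      rw [if_neg this]
    simp only [e3, HI_one]
    simp
    ring
  · have hn : -x / x0 ≠ 0 := div_ne_zero (neg_ne_zero.2 hx) h0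
    have e3 : ∀ a : K, (if a ≠ 0 then (if x0 * a + x = 0 then (0 : ℝ) else 1) else 0) =
        (if a ≠ 0 then 1 else 0) - if a = -x / x0 then 1 else 0 := by
      intro a
      have e4 : x0 * a + x = 0 ↔ a = -x / x0 := by
        rw [eq_div_iff h0]
        constructor
        · intro h
          linear_combination h
        · intro h
          linear_combination h
      by_cases h1 : a = -x / x0
      · rw [if_pos (e4.2 h1), if_pos h1, h1, if_pos hn, if_pos hn]
        ring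
      · rw [if_neg (fun h => h1 (e4.1 h)), if_neg h1]
        ring
    simp only [e3, Finset.sum_sub_distrib, HI_one, Finset.sum_ite_eq', Finset.mem_univ, if_true]
    simp [h0]
    ring

private def HI_T (α β γ : K) : W5 K := ⟨α + β + γ, -(α * β), -(β * γ), -(γ * α), α * β * γ⟩

private theorem HI_ex {w : W5 K} {α β γ r : K} : w = (HI_T α β γ).sm r ↔
    w.x0 = r * (α + β + γ) ∧ w.x1 = r * -(α * β) ∧ w.x2 = r * -(β * γ) ∧ w.x3 = r * -(γ * α) ∧
      w.x4 = r * (α * β * γ) := by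
  constructor
  · intro h
    rw [h]
    exact ⟨rfl, rfl, rfl, rfl, rfl⟩
  · rintro ⟨h0, h1, h2, h3, h4⟩
    exact W5.ext h0 h1 h2 h3 h4

private theorem HI_all {w : W5 K} (hw : w.Iso) (h1 : w.x1 ≠ 0) (h2 : w.x2 ≠ 0) (h3 : w.x3 ≠ 0) (α β γ : K) :
    (∃ r : K, r ≠ 0 ∧ w = (HI_T α β γ).sm r) ↔
      (w.x4 ≠ 0 ∧ α = -w.x4 / w.x2 ∧ β = -w.x4 / w.x3 ∧ γ = -w.x4 / w.x1) := by
  constructor
  · rintro ⟨r, hr, h⟩
    rw [HI_ex] at h
    obtain ⟨e0, e1, e2, e3, e4⟩ := h
    have ha : α ≠ 0 := by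
      intro h
      apply h1
      rw [e1, h]
      ring
    have hb : β ≠ 0 := by
      intro h
      apply h1
      rw [e1, h]
      ring
    have hc : γ ≠ 0 := by
      intro h
      apply h2
      rw [e2, h]
      ring
    refine ⟨?_, ?_, ?_, ?_⟩
    · rw [e4]
      exact mul_ne_zero hr (mul_ne_zero (mul_ne_zero ha hb) hc)
    · rw [eq_div_iff h2, e4, e2]
      ring
    · rw [eq_div_iff h3, e4, e3]
      ring
    · rw [eq_div_iff h1, e4, e1]
      ring
  · rintro ⟨h4, rfl, rfl, rfl⟩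
    refine ⟨-(w.x1 * w.x2 * w.x3) / w.x4 ^ 2, ?_, ?_⟩
    · exact div_ne_zero (neg_ne_zero.2 (mul_ne_zero (mul_ne_zero h1 h2) h3)) (pow_ne_zero 2 h4)
    · rw [HI_ex]
      have hI := hw
      unfold W5.Iso at hI
      refine ⟨?_, ?_, ?_, ?_, ?_⟩
      · field_simp
        linear_combination hI
      · field_simp
      · field_simp
      · field_simp
      · field_simp

private noncomputable def HI_w (A B : ℝ) (α β γ : K) : ℝ :=
  if α = 0 ∧ β = 0 ∧ γ = 0 then 0 else if α = 0 ∨ β = 0 ∨ γ = 0 then A else B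

private theorem HI_c1 {w : W5 K} (h1 : w.x1 ≠ 0) (h2 : w.x2 = 0) (h3 : w.x3 = 0) (h4 : w.x4 = 0) (α β γ : K) :
    (∃ r : K, r ≠ 0 ∧ w = (HI_T α β γ).sm r) ↔
      (γ = 0 ∧ α ≠ 0 ∧ β ≠ 0 ∧ w.x0 * (α * β) + w.x1 * (α + β) = 0) := by
  constructor
  · rintro ⟨r, hr, h⟩
    rw [HI_ex] at h
    obtain ⟨e0, e1, e2, e3, e4⟩ := h
    have ha : α ≠ 0 := by
      intro h
      apply h1
      rw [e1, h]
      ring
    have hb : β ≠ 0 := by
      intro h
      apply h1
      rw [e1, h]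
      ring
    have hc : γ = 0 := by
      rw [h2] at e2
      have : r * β * γ = 0 := by linear_combination e2
      rcases mul_eq_zero.1 this with h | h
      · rcases mul_eq_zero.1 h with h | h
        · exact absurd h hr
        · exact absurd h hb
      · exact h
    refine ⟨hc, ha, hb, ?_⟩
    rw [e0, e1, hc]
    ring
  · rintro ⟨rfl, ha, hb, e⟩
    refine ⟨-w.x1 / (α * β), div_ne_zero (neg_ne_zero.2 h1) (mul_ne_zero ha hb), ?_⟩
    rw [HI_ex, h2, h3, h4]
    refine ⟨?_, ?_, ?_, ?_, ?_⟩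
    · field_simp
      linear_combination e
    · field_simp
    · ring
    · ring
    · ring

private theorem HI_c2 {w : W5 K} (h1 : w.x1 = 0) (h2 : w.x2 ≠ 0) (h3 : w.x3 = 0) (h4 : w.x4 = 0) (α β γ : K) :
    (∃ r : K, r ≠ 0 ∧ w = (HI_T α β γ).sm r) ↔
      (α = 0 ∧ β ≠ 0 ∧ γ ≠ 0 ∧ w.x0 * (β * γ) + w.x2 * (β + γ) = 0) := by
  constructor
  · rintro ⟨r, hr, h⟩
    rw [HI_ex] at h
    obtain ⟨e0, e1, e2, e3, e4⟩ := h
    have ha : β ≠ 0 := by
      intro h
      apply h2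
      rw [e2, h]
      ring
    have hb : γ ≠ 0 := by
      intro h
      apply h2
      rw [e2, h]
      ring
    have hc : α = 0 := by
      rw [h1] at e1
      have : r * β * α = 0 := by linear_combination e1
      rcases mul_eq_zero.1 this with h | h
      · rcases mul_eq_zero.1 h with h | h
        · exact absurd h hr
        · exact absurd h ha
      · exact h
    refine ⟨hc, ha, hb, ?_⟩
    rw [e0, e2, hc]
    ring
  · rintro ⟨rfl, ha, hb, e⟩
    refine ⟨-w.x2 / (β * γ), div_ne_zero (neg_ne_zero.2 h2) (mul_ne_zero ha hb), ?_⟩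
    rw [HI_ex, h1, h3, h4]
    refine ⟨?_, ?_, ?_, ?_, ?_⟩
    · field_simp
      linear_combination e
    · ring
    · field_simp
    · ring
    · ring

private theorem HI_c3 {w : W5 K} (h1 : w.x1 = 0) (h2 : w.x2 = 0) (h3 : w.x3 ≠ 0) (h4 : w.x4 = 0) (α β γ : K) :
    (∃ r : K, r ≠ 0 ∧ w = (HI_T α β γ).sm r) ↔
      (β = 0 ∧ α ≠ 0 ∧ γ ≠ 0 ∧ w.x0 * (α * γ) + w.x3 * (α + γ) = 0) := by
  constructor
  · rintro ⟨r, hr, h⟩
    rw [HI_ex] at h
    obtain ⟨e0, e1, e2, e3, e4⟩ := h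
    have ha : α ≠ 0 := by
      intro h
      apply h3
      rw [e3, h]
      ring
    have hb : γ ≠ 0 := by
      intro h
      apply h3
      rw [e3, h]
      ring
    have hc : β = 0 := by
      rw [h1] at e1
      have : r * α * β = 0 := by linear_combination e1
      rcases mul_eq_zero.1 this with h | h
      · rcases mul_eq_zero.1 h with h | h
        · exact absurd h hr
        · exact absurd h ha
      · exact h
    refine ⟨hc, ha, hb, ?_⟩
    rw [e0, e3, hc]
    ring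
  · rintro ⟨rfl, ha, hb, e⟩
    refine ⟨-w.x3 / (α * γ), div_ne_zero (neg_ne_zero.2 h3) (mul_ne_zero ha hb), ?_⟩
    rw [HI_ex, h1, h2, h4]
    refine ⟨?_, ?_, ?_, ?_, ?_⟩
    · field_simp
      linear_combination e
    · ring
    · ring
    · field_simp
    · ring

private theorem HI_c0 {w : W5 K} (h0 : w ≠ 0) (h1 : w.x1 = 0) (h2 : w.x2 = 0) (h3 : w.x3 = 0) (h4 : w.x4 = 0) (α β γ : K) :
    (∃ r : K, r ≠ 0 ∧ w = (HI_T α β γ).sm r) ↔
      ((α ≠ 0 ∧ β = 0 ∧ γ = 0) ∨ (α = 0 ∧ β ≠ 0 ∧ γ = 0) ∨ (α = 0 ∧ β = 0 ∧ γ ≠ 0)) := by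
  have hx : w.x0 ≠ 0 := by
    intro h
    exact h0 (W5.ext h h1 h2 h3 h4)
  constructor
  · rintro ⟨r, hr, h⟩
    rw [HI_ex] at h
    obtain ⟨e0, e1, e2, e3, e4⟩ := h
    have f1 : α * β = 0 := by
      rw [h1] at e1
      have : r * (α * β) = 0 := by linear_combination e1
      exact (mul_eq_zero.1 this).resolve_left hr
    have f2 : β * γ = 0 := by
      rw [h2] at e2
      have : r * (β * γ) = 0 := by linear_combination e2
      exact (mul_eq_zero.1 this).resolve_left hr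
    have f3 : γ * α = 0 := by
      rw [h3] at e3
      have : r * (γ * α) = 0 := by linear_combination e3
      exact (mul_eq_zero.1 this).resolve_left hr
    have f0 : α + β + γ ≠ 0 := by
      intro h
      apply hx
      rw [e0, h, mul_zero]
    by_cases ha : α = 0
    · by_cases hb : β = 0
      · right; right
        refine ⟨ha, hb, ?_⟩
        rw [ha, hb] at f0
        simpa using f0
      · right; left
        exact ⟨ha, hb, (mul_eq_zero.1 f2).resolve_left hb⟩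
    · left
      exact ⟨ha, (mul_eq_zero.1 f1).resolve_left ha, (mul_eq_zero.1 f3).resolve_right ha⟩
  · rintro (⟨ha, rfl, rfl⟩ | ⟨rfl, ha, rfl⟩ | ⟨rfl, rfl, ha⟩)
    · refine ⟨w.x0 / α, div_ne_zero hx ha, ?_⟩
      rw [HI_ex, h1, h2, h3, h4]
      refine ⟨?_, by ring, by ring, by ring, by ring⟩
      field_simp
      ring
    · refine ⟨w.x0 / β, div_ne_zero hx ha, ?_⟩
      rw [HI_ex, h1, h2, h3, h4]
      refine ⟨?_, by ring, by ring, by ring, by ring⟩
      field_simp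
      ring
    · refine ⟨w.x0 / γ, div_ne_zero hx ha, ?_⟩
      rw [HI_ex, h1, h2, h3, h4]
      refine ⟨?_, by ring, by ring, by ring, by ring⟩
      field_simp
      ring

private theorem HI_tau {w : W5 K} (hw : w.Iso) (h0 : w ≠ 0) (A B : ℝ) :
    (∑ α : K, ∑ β : K, ∑ γ : K, (if ∃ r : K, r ≠ 0 ∧ w = (HI_T α β γ).sm r then (1 : ℝ) else 0) * HI_w A B α β γ) =
      if w.x1 ≠ 0 ∧ w.x2 ≠ 0 ∧ w.x3 ≠ 0 then (if w.x4 = 0 then 0 else B)
      else if w.x4 ≠ 0 then 0
      else if w.x1 = 0 ∧ w.x2 = 0 ∧ w.x3 = 0 then 3 * (qr K - 1) * A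
      else (qr K - 2 + if w.x0 = 0 then 1 else 0) * A := by
  by_cases hall : w.x1 ≠ 0 ∧ w.x2 ≠ 0 ∧ w.x3 ≠ 0
  · rw [if_pos hall]
    obtain ⟨h1, h2, h3⟩ := hall
    simp only [HI_all hw h1 h2 h3]
    by_cases h4 : w.x4 = 0
    · simp [h4]
    · have ha : -w.x4 / w.x2 ≠ 0 := div_ne_zero (neg_ne_zero.2 h4) h2
      have hb : -w.x4 / w.x3 ≠ 0 := div_ne_zero (neg_ne_zero.2 h4) h3
      have hc : -w.x4 / w.x1 ≠ 0 := div_ne_zero (neg_ne_zero.2 h4) h1
      have e : ∀ α β γ : K, (if w.x4 ≠ 0 ∧ α = -w.x4 / w.x2 ∧ β = -w.x4 / w.x3 ∧ γ = -w.x4 / w.x1 then (1 : ℝ) else 0) *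
          HI_w A B α β γ = if α = -w.x4 / w.x2 then (if β = -w.x4 / w.x3 then (if γ = -w.x4 / w.x1 then B else 0) else 0) else 0 := by
        intro α β γ
        by_cases e1 : α = -w.x4 / w.x2
        · by_cases e2 : β = -w.x4 / w.x3
          · by_cases e3 : γ = -w.x4 / w.x1
            · rw [if_pos ⟨h4, e1, e2, e3⟩, if_pos e1, if_pos e2, if_pos e3, e1, e2, e3]
              unfold HI_w
              rw [if_neg (fun h => ha h.1), if_neg]
              · ring
              · rintro (h | h | h)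
                · exact ha h
                · exact hb h
                · exact hc h
            · rw [if_neg (fun h => e3 h.2.2.2), if_pos e1, if_pos e2, if_neg e3, zero_mul]
          · rw [if_neg (fun h => e2 h.2.2.1), if_pos e1, if_neg e2, zero_mul]
        · rw [if_neg (fun h => e1 h.2.1), if_neg e1, zero_mul]
      simp only [e]
      simp [h4]
  rw [if_neg hall]
  by_cases h4 : w.x4 ≠ 0
  · rw [if_pos h4]
    apply Finset.sum_eq_zero
    intro α _
    apply Finset.sum_eq_zero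
    intro β _
    apply Finset.sum_eq_zero
    intro γ _
    rw [if_neg, zero_mul]
    rintro ⟨r, hr, h⟩
    rw [HI_ex] at h
    obtain ⟨e0, e1, e2, e3, e4⟩ := h
    have ha : α ≠ 0 := by
      intro h
      apply h4
      rw [e4, h]
      ring
    have hb : β ≠ 0 := by
      intro h
      apply h4
      rw [e4, h]
      ring
    have hc : γ ≠ 0 := by
      intro h
      apply h4
      rw [e4, h]
      ring
    apply hall
    refine ⟨?_, ?_, ?_⟩
    · rw [e1]
      exact mul_ne_zero hr (neg_ne_zero.2 (mul_ne_zero ha hb))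
    · rw [e2]
      exact mul_ne_zero hr (neg_ne_zero.2 (mul_ne_zero hb hc))
    · rw [e3]
      exact mul_ne_zero hr (neg_ne_zero.2 (mul_ne_zero hc ha))
  rw [if_neg h4]
  have h4' : w.x4 = 0 := not_not.1 h4
  have hI : w.x1 * w.x2 + w.x1 * w.x3 + w.x2 * w.x3 = 0 := by
    have := hw
    unfold W5.Iso at this
    rw [h4'] at this
    linear_combination -this
  by_cases h1 : w.x1 = 0
  · by_cases h2 : w.x2 = 0
    · by_cases h3 : w.x3 = 0
      · rw [if_pos ⟨h1, h2, h3⟩]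
        simp only [HI_c0 h0 h1 h2 h3 h4']
        have e : ∀ α β γ : K, (if (α ≠ 0 ∧ β = 0 ∧ γ = 0) ∨ (α = 0 ∧ β ≠ 0 ∧ γ = 0) ∨ (α = 0 ∧ β = 0 ∧ γ ≠ 0)
            then (1 : ℝ) else 0) * HI_w A B α β γ =
            (if α ≠ 0 then (1 : ℝ) else 0) * ((if β = 0 then 1 else 0) * ((if γ = 0 then 1 else 0) * A)) +
            (if α = 0 then (1 : ℝ) else 0) * ((if β ≠ 0 then 1 else 0) * ((if γ = 0 then 1 else 0) * A)) +
            (if α = 0 then (1 : ℝ) else 0) * ((if β = 0 then 1 else 0) * ((if γ ≠ 0 then 1 else 0) * A)) := by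
          intro α β γ
          unfold HI_w
          by_cases ha : α = 0 <;> by_cases hb : β = 0 <;> by_cases hc : γ = 0 <;> simp [ha, hb, hc]
        have z : (∑ a : K, if a = 0 then (1 : ℝ) else 0) = 1 := by simp
        simp only [e, Finset.sum_add_distrib, ← Finset.mul_sum, ← Finset.sum_mul, HI_one, z]
        ring
      · rw [if_neg (fun h => h3 h.2.2)]
        simp only [HI_c3 h1 h2 h3 h4']
        have e : ∀ α β γ : K, (if β = 0 ∧ α ≠ 0 ∧ γ ≠ 0 ∧ w.x0 * (α * γ) + w.x3 * (α + γ) = 0 then (1 : ℝ) else 0) *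
            HI_w A B α β γ = (if β = 0 then 1 else 0) *
              ((if α ≠ 0 ∧ γ ≠ 0 ∧ w.x0 * (α * γ) + w.x3 * (α + γ) = 0 then (1 : ℝ) else 0) * A) := by
          intro α β γ
          unfold HI_w
          by_cases ha : α = 0 <;> by_cases hb : β = 0 <;> simp [ha, hb]
        simp only [e, ← Finset.mul_sum]
        have z : (∑ a : K, if a = 0 then (1 : ℝ) else 0) = 1 := by simp
        simp only [← Finset.sum_mul, z, one_mul]
        rw [HI_pair h3]
    · have h3 : w.x3 = 0 := by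
        rw [h1] at hI
        have : w.x2 * w.x3 = 0 := by linear_combination hI
        exact (mul_eq_zero.1 this).resolve_left h2
      rw [if_neg (fun h => h2 h.2.1)]
      simp only [HI_c2 h1 h2 h3 h4']
      have e : ∀ α β γ : K, (if α = 0 ∧ β ≠ 0 ∧ γ ≠ 0 ∧ w.x0 * (β * γ) + w.x2 * (β + γ) = 0 then (1 : ℝ) else 0) *
          HI_w A B α β γ = (if α = 0 then 1 else 0) *
            ((if β ≠ 0 ∧ γ ≠ 0 ∧ w.x0 * (β * γ) + w.x2 * (β + γ) = 0 then (1 : ℝ) else 0) * A) := by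
        intro α β γ
        unfold HI_w
        by_cases ha : α = 0 <;> by_cases hb : β = 0 <;> simp [ha, hb]
      simp only [e, ← Finset.mul_sum]
      have z : (∑ a : K, if a = 0 then (1 : ℝ) else 0) = 1 := by simp
      simp only [← Finset.sum_mul, z, one_mul]
      rw [HI_pair h2]
  · have h23 : w.x2 = 0 ∧ w.x3 = 0 := by
      by_cases h2 : w.x2 = 0
      · refine ⟨h2, ?_⟩
        rw [h2] at hI
        have : w.x1 * w.x3 = 0 := by linear_combination hI
        exact (mul_eq_zero.1 this).resolve_left h1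
      · have h3 : w.x3 = 0 := by
          by_contra h3
          exact hall ⟨h1, h2, h3⟩
        rw [h3] at hI
        have : w.x1 * w.x2 = 0 := by linear_combination hI
        exact absurd ((mul_eq_zero.1 this).resolve_left h1) h2
    obtain ⟨h2, h3⟩ := h23
    rw [if_neg (fun h => h1 h.1)]
    simp only [HI_c1 h1 h2 h3 h4']
    have e : ∀ α β γ : K, (if γ = 0 ∧ α ≠ 0 ∧ β ≠ 0 ∧ w.x0 * (α * β) + w.x1 * (α + β) = 0 then (1 : ℝ) else 0) *
        HI_w A B α β γ = (if α ≠ 0 ∧ β ≠ 0 ∧ w.x0 * (α * β) + w.x1 * (α + β) = 0 then (1 : ℝ) else 0) *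
          ((if γ = 0 then 1 else 0) * A) := by
      intro α β γ
      unfold HI_w
      by_cases ha : α = 0 <;> by_cases hb : γ = 0 <;> simp [ha, hb]
    simp only [e, ← Finset.mul_sum]
    have z : (∑ a : K, if a = 0 then (1 : ℝ) else 0) = 1 := by simp
    simp only [← Finset.sum_mul, z, one_mul]
    rw [HI_pair h1]

/-- MODULE HI.  The number of `(α, β, γ)`, weighted by `card_sig`, for which `w` is a multiple of
`(α + β + γ, -α β, -β γ, -γ α, α β γ)`.  All `x_i ≠ 0`: `γ = s / x1`, `α = s / x2`, `β = s / x3` (up to the sign of `s`) and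
`x4 ≠ 0` determines `s`, one triple if `x4 ≠ 0`, none if `x4 = 0`.  Only `x1 ≠ 0` and `x4 = 0`: `γ = 0`, `α β ≠ 0`,
`(α + β) / (-α β) = x0 / x1`: `q - 2` pairs if `x0 ≠ 0`, `q - 1` if `x0 = 0`; the same for `x2` (`α = 0`) and `x3` (`β = 0`).
`w = (x0, 0, 0, 0, 0)`: exactly one of `α, β, γ` is not `0`.  Otherwise none. -/
theorem card_tau {w : W5 K} (hw : w.Iso) (h0 : w ≠ 0) :
    (∑ α : K, ∑ β : K, ∑ γ : K, (if ∃ r : K, r ≠ 0 ∧
        w = (⟨α + β + γ, -(α * β), -(β * γ), -(γ * α), α * β * γ⟩ : W5 K).sm r then (1 : ℝ) else 0) *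
      (if α = 0 ∧ β = 0 ∧ γ = 0 then 0 else if α = 0 ∨ β = 0 ∨ γ = 0 then qr K * (qr K - 1) ^ 2
        else qr K ^ 3 - qr K ^ 2 - qr K)) =
      if w.x1 ≠ 0 ∧ w.x2 ≠ 0 ∧ w.x3 ≠ 0 then (if w.x4 = 0 then 0 else qr K ^ 3 - qr K ^ 2 - qr K)
      else if w.x4 ≠ 0 then 0
      else if w.x1 = 0 ∧ w.x2 = 0 ∧ w.x3 = 0 then 3 * (qr K - 1) * (qr K * (qr K - 1) ^ 2)
      else (qr K - 2 + if w.x0 = 0 then 1 else 0) * (qr K * (qr K - 1) ^ 2) := by
  exact HI_tau hw h0 (qr K * (qr K - 1) ^ 2) (qr K ^ 3 - qr K ^ 2 - qr K)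

omit [Fintype K] in
private theorem HJ_x0 (a b c : K) (w : W5 K) : (XH a b c (-b) (-c) (-a) w).x0 = 0 := by
  simp only [XH]; ring

omit [Fintype K] in
private theorem HJ_x1 (a b c : K) (w : W5 K) :
    (XH a b c (-b) (-c) (-a) w).x1 = -(w.x4 * ((c - b) * (a + c))) := by
  simp only [XH]; ring

omit [Fintype K] in
private theorem HJ_x2 (a b c : K) (w : W5 K) :
    (XH a b c (-b) (-c) (-a) w).x2 = -(w.x4 * ((a + b) * (a + c))) := by
  simp only [XH]; ring

omit [Fintype K] in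
private theorem HJ_x3 (a b c : K) (w : W5 K) :
    (XH a b c (-b) (-c) (-a) w).x3 = w.x4 * ((a + b) * (c - b)) := by
  simp only [XH]; ring

omit [Fintype K] in
private theorem HJ_x4 (a b c : K) (w : W5 K) :
    (XH a b c (-b) (-c) (-a) w).x4 = w.x1 * (c * (a + b)) ^ 2 + w.x2 * (a * (b - c)) ^ 2 +
      w.x3 * (b * (a + c)) ^ 2 + w.x4 * ((a + b) * (c - b) * (-c - a)) := by
  simp only [XH]; ring

omit [Fintype K] in
private theorem HJ_ne {w : W5 K} (h4 : w.x4 ≠ 0) (a b c : K) :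
    ¬ OnJ (XH a b c (-b) (-c) (-a) w) := by
  rintro ⟨-, h1, h2, h3, h5⟩
  rw [HJ_x1, neg_eq_zero, mul_eq_zero_iff_left h4] at h1
  rw [HJ_x2, neg_eq_zero, mul_eq_zero_iff_left h4] at h2
  rw [HJ_x3, mul_eq_zero_iff_left h4] at h3
  apply h5
  rw [HJ_x4]
  have e : a + c = (a + b) + (c - b) := by ring
  rw [e] at h1 h2
  have k1 : a + b = 0 ∧ c - b = 0 := by
    rcases mul_eq_zero.1 h3 with h | h
    · rw [h, zero_add] at h1
      exact ⟨h, mul_self_eq_zero.1 h1⟩
    · rw [h, add_zero] at h2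
      exact ⟨mul_self_eq_zero.1 h2, h⟩
  obtain ⟨k2, k3⟩ := k1
  have k4 : a + c = 0 := by rw [e, k2, k3, add_zero]
  have k5 : b - c = 0 := by rw [← neg_sub, k3, neg_zero]
  rw [k2, k3, k4, k5]
  ring

omit [Fintype K] in
private theorem HJ_iff {w : W5 K} (h4 : w.x4 = 0) (a b c : K) :
    OnJ (XH a b c (-b) (-c) (-a) w) ↔
      w.x1 * (c * (a + b)) ^ 2 + w.x2 * (a * (b - c)) ^ 2 + w.x3 * (b * (a + c)) ^ 2 ≠ 0 := by
  unfold OnJ
  rw [HJ_x0, HJ_x1, HJ_x2, HJ_x3, HJ_x4, h4]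
  simp only [zero_mul, neg_zero, add_zero, true_and]

private theorem HJ_N : (∑ u : K, if u ≠ 0 then (1 : ℝ) else 0) = qr K - 1 := by
  have h : ∀ u : K, (if u ≠ 0 then (1 : ℝ) else 0) = 1 - if u = 0 then 1 else 0 := by
    intro u
    by_cases hu : u = 0 <;> simp [hu]
  rw [Finset.sum_congr rfl fun u _ => h u, Finset.sum_sub_distrib, Finset.sum_const,
    Finset.card_univ, nsmul_eq_mul, mul_one, Finset.sum_ite_eq' Finset.univ (0 : K) (fun _ => (1 : ℝ)),
    if_pos (Finset.mem_univ _)]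
  rfl

private theorem HJ_NN : (∑ u : K, ∑ v : K, if v * u ≠ 0 then (1 : ℝ) else 0) = (qr K - 1) ^ 2 := by
  have h : ∀ u v : K, (if v * u ≠ 0 then (1 : ℝ) else 0) =
      (if u ≠ 0 then 1 else 0) * (if v ≠ 0 then 1 else 0) := by
    intro u v
    by_cases hu : u = 0 <;> by_cases hv : v = 0 <;> simp [hu, hv]
  rw [Finset.sum_congr rfl fun u _ => Finset.sum_congr rfl fun v _ => h u v,
    ← Finset.sum_mul_sum, HJ_N, sq]

omit [Field K] in
private theorem HJ_NNN (F : K → K → K → ℝ)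
    (h : ∀ a, (∑ b : K, ∑ c : K, F a b c) = (qr K - 1) ^ 2) :
    (∑ a : K, ∑ b : K, ∑ c : K, F a b c) = qr K ^ 3 - 2 * qr K ^ 2 + qr K := by
  rw [Finset.sum_congr rfl fun a _ => h a, Finset.sum_const, Finset.card_univ, nsmul_eq_mul]
  change qr K * _ = _
  ring

private theorem HJ_p1 : (∑ a : K, ∑ b : K, ∑ c : K, if c * (a + b) ≠ 0 then (1 : ℝ) else 0) =
    qr K ^ 3 - 2 * qr K ^ 2 + qr K := by
  refine HJ_NNN (fun a b c => if c * (a + b) ≠ 0 then (1 : ℝ) else 0) fun a => ?_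
  rw [← HJ_NN]
  exact Fintype.sum_equiv (Equiv.addLeft a) _ _ (fun _ => rfl)

private theorem HJ_p2 : (∑ a : K, ∑ b : K, ∑ c : K, if a * (b - c) ≠ 0 then (1 : ℝ) else 0) =
    qr K ^ 3 - 2 * qr K ^ 2 + qr K := by
  have h : ∀ a b : K, (∑ c : K, if a * (b - c) ≠ 0 then (1 : ℝ) else 0) =
      ∑ c : K, if a * c ≠ 0 then (1 : ℝ) else 0 := fun a b =>
    Fintype.sum_equiv (Equiv.subLeft b) _ _ (fun _ => rfl)
  rw [Finset.sum_congr rfl fun a _ => Finset.sum_congr rfl fun b _ => h a b, Finset.sum_comm]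
  refine HJ_NNN (fun _ a c => if a * c ≠ 0 then (1 : ℝ) else 0) fun _ => ?_
  rw [← HJ_NN, Finset.sum_comm]

private theorem HJ_p3 : (∑ a : K, ∑ b : K, ∑ c : K, if b * (a + c) ≠ 0 then (1 : ℝ) else 0) =
    qr K ^ 3 - 2 * qr K ^ 2 + qr K := by
  have h : ∀ a b : K, (∑ c : K, if b * (a + c) ≠ 0 then (1 : ℝ) else 0) =
      ∑ c : K, if b * c ≠ 0 then (1 : ℝ) else 0 := fun a b =>
    Fintype.sum_equiv (Equiv.addLeft a) _ _ (fun _ => rfl)
  rw [Finset.sum_congr rfl fun a _ => Finset.sum_congr rfl fun b _ => h a b]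
  refine HJ_NNN (fun _ b c => if b * c ≠ 0 then (1 : ℝ) else 0) fun _ => ?_
  rw [← HJ_NN, Finset.sum_comm]

omit [Field K] in
private theorem HJ_const (r : ℝ) : (∑ _a : K, r) = qr K * r := by
  rw [Finset.sum_const, Finset.card_univ, nsmul_eq_mul]
  rfl

private theorem HJ_quad {p r s : K} (hp : p ≠ 0) (hr : r ≠ 0) (hs : s ≠ 0) :
    (∑ a : K, ∑ b : K, ∑ c : K, if c * (p * a + r * b) + s * (a * b) ≠ 0 then (1 : ℝ) else 0) =
      qr K ^ 3 - qr K ^ 2 := by
  have h1 : ∀ a b c : K, (if c * (p * a + r * b) + s * (a * b) ≠ 0 then (1 : ℝ) else 0) =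
      1 - if c * (p * a + r * b) + s * (a * b) = 0 then 1 else 0 := by
    intro a b c
    by_cases h : c * (p * a + r * b) + s * (a * b) = 0 <;> simp [h]
  have h2 : ∀ a b : K, (∑ c : K, if c * (p * a + r * b) + s * (a * b) ≠ 0 then (1 : ℝ) else 0) =
      (qr K - 1) + (if b * r + p * a = 0 then 1 else 0) -
        qr K * ((if a = 0 then 1 else 0) * if b = 0 then 1 else 0) := by
    intro a b
    rw [Finset.sum_congr rfl fun c _ => h1 a b c, Finset.sum_sub_distrib, HJ_const, mul_one, card_lin]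
    have e : p * a + r * b = b * r + p * a := by ring
    rw [e]
    by_cases h : b * r + p * a = 0
    · by_cases ha : a = 0
      · have hb : b = 0 := by
          rw [ha, mul_zero, add_zero] at h
          exact (mul_eq_zero.1 h).resolve_right hr
        simp [ha, hb]
      · have hb : b ≠ 0 := by
          rintro rfl
          rw [zero_mul, zero_add] at h
          exact (mul_ne_zero hp ha) h
        simp [h, ha, hb, hs]
    · have hab : ¬ (a = 0 ∧ b = 0) := by
        rintro ⟨rfl, rfl⟩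
        exact h (by ring)
      have h3 : ((if a = 0 then (1 : ℝ) else 0) * if b = 0 then 1 else 0) = 0 := by
        by_cases ha : a = 0
        · have hb : b ≠ 0 := fun hb => hab ⟨ha, hb⟩
          simp [hb]
        · simp [ha]
      rw [h3]
      simp [h]
  have h4 : ∀ a : K, (∑ b : K, ((qr K - 1) + (if b * r + p * a = 0 then (1 : ℝ) else 0) -
        qr K * ((if a = 0 then 1 else 0) * if b = 0 then 1 else 0))) =
      qr K * (qr K - 1) + 1 - qr K * (if a = 0 then 1 else 0) := by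
    intro a
    rw [Finset.sum_sub_distrib, Finset.sum_add_distrib, card_lin, if_neg hr, ← Finset.mul_sum,
      ← Finset.mul_sum, Finset.sum_ite_eq' Finset.univ (0 : K) (fun _ => (1 : ℝ)),
      if_pos (Finset.mem_univ _), mul_one]
    rw [HJ_const]
  rw [Finset.sum_congr rfl fun a _ => Finset.sum_congr rfl fun b _ => h2 a b,
    Finset.sum_congr rfl fun a _ => h4 a, Finset.sum_sub_distrib, ← Finset.mul_sum,
    Finset.sum_ite_eq' Finset.univ (0 : K) (fun _ => (1 : ℝ)), if_pos (Finset.mem_univ _)]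
  rw [HJ_const]
  ring

/-- MODULE HJ.  `X = XH a b c (-b) (-c) (-a) w`: `X.x0 = 0`, `X.x1 = -x4 (c - b) (a + c)`, `X.x2 = -x4 (a + b) (a + c)`,
`X.x3 = x4 (a + b) (c - b)`, and for `x4 = 0`: `X.x4 = x1 P ^ 2 + x2 R ^ 2 + x3 (P + R) ^ 2`, `P = c (a + b)`, `R = a (b - c)`,
`P + R = b (a + c)`.  If `x4 ≠ 0` and `X.x1 = X.x2 = X.x3 = 0`, then `a + b = c - b = a + c = 0` and `X.x4 = 0`.  If `x4 = 0` and all
`x_i ≠ 0`: `x1 x2 + x1 x3 + x2 x3 = 0`, `x1 + x3 ≠ 0`, `(x1 + x3) X.x4 = ((x1 + x3) P + x3 R) ^ 2`, and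
`(x1 + x3) P + x3 R = x1 a c + (x1 + x3) b c + x3 a b` has `q ^ 2` zeros.  If `x4 = 0` and only one `x_i ≠ 0`: `P = 0`, `R = 0` or
`P + R = 0`, that is `c (a + b) = 0`, `a (b - c) = 0`, `b (a + c) = 0`: `2 q ^ 2 - q` zeros. -/
theorem card_sig0 {w : W5 K} (hw : w.Iso) (h0 : w ≠ 0) :
    (∑ a : K, ∑ b : K, ∑ c : K, if OnJ (XH a b c (-b) (-c) (-a) w) then (1 : ℝ) else 0) =
      if w.x4 ≠ 0 then 0 else if w.x1 ≠ 0 ∧ w.x2 ≠ 0 ∧ w.x3 ≠ 0 then qr K ^ 3 - qr K ^ 2
      else if w.x1 = 0 ∧ w.x2 = 0 ∧ w.x3 = 0 then 0 else qr K ^ 3 - 2 * qr K ^ 2 + qr K := by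
  have _ := h0
  by_cases h4 : w.x4 = 0
  · rw [if_neg (not_not.2 h4)]
    have hi : w.x1 * w.x2 + w.x1 * w.x3 + w.x2 * w.x3 = 0 := by
      have := hw
      unfold W5.Iso at this
      rw [← this, h4, mul_zero]
    rw [Finset.sum_congr rfl fun a _ => Finset.sum_congr rfl fun b _ => Finset.sum_congr rfl
      fun c _ => if_congr (HJ_iff h4 a b c) rfl rfl]
    by_cases h1 : w.x1 = 0
    · by_cases h2 : w.x2 = 0
      · by_cases h3 : w.x3 = 0
        · simp [h1, h2, h3]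
        · rw [if_neg (by simp [h1]), if_neg (by simp [h3]), ← HJ_p3]
          refine Finset.sum_congr rfl fun a _ => Finset.sum_congr rfl fun b _ =>
            Finset.sum_congr rfl fun c _ => if_congr ?_ rfl rfl
          rw [h1, h2, zero_mul, zero_mul, zero_add, zero_add]
          exact not_congr ((mul_eq_zero_iff_left h3).trans (pow_eq_zero_iff two_ne_zero))
      · have h3 : w.x3 = 0 := by
          rw [h1, zero_mul, zero_mul, zero_add, zero_add] at hi
          exact (mul_eq_zero.1 hi).resolve_left h2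
        rw [if_neg (by simp [h1]), if_neg (by simp [h2]), ← HJ_p2]
        refine Finset.sum_congr rfl fun a _ => Finset.sum_congr rfl fun b _ =>
          Finset.sum_congr rfl fun c _ => if_congr ?_ rfl rfl
        rw [h1, h3, zero_mul, zero_mul, zero_add, add_zero]
        exact not_congr ((mul_eq_zero_iff_left h2).trans (pow_eq_zero_iff two_ne_zero))
    · by_cases h2 : w.x2 = 0
      · have h3 : w.x3 = 0 := by
          rw [h2, zero_mul, mul_zero, zero_add, add_zero] at hi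
          exact (mul_eq_zero.1 hi).resolve_left h1
        rw [if_neg (by simp [h2]), if_neg (by simp [h1]), ← HJ_p1]
        refine Finset.sum_congr rfl fun a _ => Finset.sum_congr rfl fun b _ =>
          Finset.sum_congr rfl fun c _ => if_congr ?_ rfl rfl
        rw [h2, h3, zero_mul, zero_mul, add_zero, add_zero]
        exact not_congr ((mul_eq_zero_iff_left h1).trans (pow_eq_zero_iff two_ne_zero))
      · have h3 : w.x3 ≠ 0 := by
          intro h3
          rw [h3, mul_zero, mul_zero, add_zero, add_zero] at hi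
          exact (mul_ne_zero h1 h2) hi
        have h13 : w.x1 + w.x3 ≠ 0 := by
          intro h13
          have e : w.x1 * w.x2 + w.x1 * w.x3 + w.x2 * w.x3 =
              w.x2 * (w.x1 + w.x3) + w.x1 * w.x3 := by ring
          rw [e, h13, mul_zero, zero_add] at hi
          exact (mul_ne_zero h1 h3) hi
        rw [if_pos ⟨h1, h2, h3⟩, ← HJ_quad h1 h13 h3]
        refine Finset.sum_congr rfl fun a _ => Finset.sum_congr rfl fun b _ =>
          Finset.sum_congr rfl fun c _ => if_congr ?_ rfl rfl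
        refine not_congr ?_
        have e : (w.x1 + w.x3) * (w.x1 * (c * (a + b)) ^ 2 + w.x2 * (a * (b - c)) ^ 2 +
            w.x3 * (b * (a + c)) ^ 2) =
            (c * (w.x1 * a + (w.x1 + w.x3) * b) + w.x3 * (a * b)) ^ 2 +
              (a * (b - c)) ^ 2 * (w.x1 * w.x2 + w.x1 * w.x3 + w.x2 * w.x3) := by ring
        rw [hi, mul_zero, add_zero] at e
        rw [← mul_eq_zero_iff_left h13, e]
        exact pow_eq_zero_iff two_ne_zero
  · rw [if_pos h4]
    refine Finset.sum_eq_zero fun a _ => Finset.sum_eq_zero fun b _ =>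
      Finset.sum_eq_zero fun c _ => if_neg (HJ_ne h4 a b c)

omit [Field K] in
private theorem HK_s3 (F : K → K → K → ℝ) :
    (∑ a : K, ∑ b : K, ∑ c : K, F a b c) = ∑ p : K × K × K, F p.1 p.2.1 p.2.2 := by
  rw [Fintype.sum_prod_type]
  refine Finset.sum_congr rfl fun a _ => ?_
  rw [Fintype.sum_prod_type]

/-- the variables `α = a + f`, `β = b + d`, `γ = c + e` instead of `f`, `d`, `e` -/
private def HK_e (a b c : K) : K × K × K ≃ K × K × K where
  toFun p := (p.2.1 - b, p.2.2 - c, p.1 - a)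
  invFun p := (p.2.2 + a, p.1 + b, p.2.1 + c)
  left_inv p := by simp
  right_inv p := by simp

private theorem HK_swap (F : K → K → K → K → K → K → ℝ) :
    (∑ a : K, ∑ b : K, ∑ c : K, ∑ d : K, ∑ e : K, ∑ f : K, F a b c d e f) =
      ∑ α : K, ∑ β : K, ∑ γ : K, ∑ a : K, ∑ b : K, ∑ c : K, F a b c (β - b) (γ - c) (α - a) := by
  have h1 : ∀ a b c : K, (∑ d : K, ∑ e : K, ∑ f : K, F a b c d e f) =
      ∑ α : K, ∑ β : K, ∑ γ : K, F a b c (β - b) (γ - c) (α - a) := by
    intro a b c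
    rw [HK_s3 (fun d e f => F a b c d e f), HK_s3 (fun α β γ => F a b c (β - b) (γ - c) (α - a))]
    exact (Fintype.sum_equiv (HK_e a b c) _ _ (fun _ => rfl)).symm
  rw [Finset.sum_congr rfl fun a _ => Finset.sum_congr rfl fun b _ => Finset.sum_congr rfl
    fun c _ => h1 a b c]
  rw [HK_s3 (fun a b c => ∑ α : K, ∑ β : K, ∑ γ : K, F a b c (β - b) (γ - c) (α - a)),
    HK_s3 (fun α β γ => ∑ a : K, ∑ b : K, ∑ c : K, F a b c (β - b) (γ - c) (α - a))]
  simp only [HK_s3]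
  rw [Finset.sum_comm]

private theorem HK_zero (w : W5 K) :
    (∑ a : K, ∑ b : K, ∑ c : K, ∑ d : K, ∑ e : K, ∑ f : K,
      if a * d * e + b * c * f = 0 ∧ OnJ (XH a b c d e f w) then (1 : ℝ) else 0) =
      ∑ a : K, ∑ b : K, ∑ c : K, if OnJ (XH a b c (-b) (-c) (-a) w) then (1 : ℝ) else 0 := by
  refine Finset.sum_congr rfl fun a _ => Finset.sum_congr rfl fun b _ =>
    Finset.sum_congr rfl fun c _ => ?_
  have h : ∀ d e f : K, (if a * d * e + b * c * f = 0 ∧ OnJ (XH a b c d e f w) then (1 : ℝ) else 0) =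
      if d = -b then (if e = -c then (if f = -a then
        (if OnJ (XH a b c (-b) (-c) (-a) w) then (1 : ℝ) else 0) else 0) else 0) else 0 := by
    intro d e f
    by_cases hd : d = -b
    · by_cases he : e = -c
      · by_cases hf : f = -a
        · rw [if_pos hd, if_pos he, if_pos hf, hd, he, hf]
          refine if_congr ?_ rfl rfl
          refine ⟨fun h => h.2, fun h => ⟨by ring, h⟩⟩
        · rw [if_pos hd, if_pos he, if_neg hf, if_neg]
          rintro ⟨h1, h2⟩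
          exact hf (eq_neg_of_add_eq_zero_right (onJ_zero h1 h2).1)
      · rw [if_pos hd, if_neg he, if_neg]
        rintro ⟨h1, h2⟩
        exact he (eq_neg_of_add_eq_zero_right (onJ_zero h1 h2).2.2)
    · rw [if_neg hd, if_neg]
      rintro ⟨h1, h2⟩
      exact hd (eq_neg_of_add_eq_zero_right (onJ_zero h1 h2).2.1)
  rw [Finset.sum_congr rfl fun d _ => Finset.sum_congr rfl fun e _ => Finset.sum_congr rfl
    fun f _ => h d e f]
  simp

private theorem HK_ne (w : W5 K) :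
    (∑ a : K, ∑ b : K, ∑ c : K, ∑ d : K, ∑ e : K, ∑ f : K,
      if a * d * e + b * c * f ≠ 0 ∧ OnJ (XH a b c d e f w) then (1 : ℝ) else 0) =
    ∑ α : K, ∑ β : K, ∑ γ : K, (if ∃ r : K, r ≠ 0 ∧
        w = (⟨α + β + γ, -(α * β), -(β * γ), -(γ * α), α * β * γ⟩ : W5 K).sm r then (1 : ℝ) else 0) *
      (if α = 0 ∧ β = 0 ∧ γ = 0 then 0 else if α = 0 ∨ β = 0 ∨ γ = 0 then qr K * (qr K - 1) ^ 2
        else qr K ^ 3 - qr K ^ 2 - qr K) := by
  rw [HK_swap (fun a b c d e f =>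
    if a * d * e + b * c * f ≠ 0 ∧ OnJ (XH a b c d e f w) then (1 : ℝ) else 0)]
  refine Finset.sum_congr rfl fun α _ => Finset.sum_congr rfl fun β _ =>
    Finset.sum_congr rfl fun γ _ => ?_
  rw [← card_sig α β γ, Finset.mul_sum]
  refine Finset.sum_congr rfl fun a _ => ?_
  rw [Finset.mul_sum]
  refine Finset.sum_congr rfl fun b _ => ?_
  rw [Finset.mul_sum]
  refine Finset.sum_congr rfl fun c _ => ?_
  by_cases hs : a * (β - b) * (γ - c) + b * c * (α - a) = 0
  · simp [hs]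
  · rw [if_pos hs, mul_one]
    refine if_congr ?_ rfl rfl
    rw [onJ_iff hs]
    have e1 : a + (α - a) = α := by ring
    have e2 : b + (β - b) = β := by ring
    have e3 : c + (γ - c) = γ := by ring
    rw [e1, e2, e3]
    exact ⟨fun h => h.2, fun h => ⟨hs, h⟩⟩

omit [Fintype K] in
private theorem HK_bas (v : W5 K) : bas 16 v = if OnJ v then (1 : ℝ) else 0 := by
  unfold bas
  refine if_congr ?_ rfl rfl
  show v ≠ 0 ∧ (v.x0 = 0 ∧ v.x1 = 0 ∧ v.x2 = 0 ∧ v.x3 = 0) ↔ OnJ v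
  unfold OnJ
  constructor
  · rintro ⟨h, h0, h1, h2, h3⟩
    refine ⟨h0, h1, h2, h3, fun h4 => h ?_⟩
    exact W5.ext h0 h1 h2 h3 h4
  · rintro ⟨h0, h1, h2, h3, h4⟩
    exact ⟨fun h => h4 (by rw [h]; rfl), h0, h1, h2, h3⟩

private theorem HK_sum (w : W5 K) : (∑ y : Fin 6 → K, bas 16 (Lt.X .h y w)) =
    (∑ a : K, ∑ b : K, ∑ c : K, ∑ d : K, ∑ e : K, ∑ f : K,
      if a * d * e + b * c * f ≠ 0 ∧ OnJ (XH a b c d e f w) then (1 : ℝ) else 0) +
    ∑ a : K, ∑ b : K, ∑ c : K, ∑ d : K, ∑ e : K, ∑ f : K,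
      if a * d * e + b * c * f = 0 ∧ OnJ (XH a b c d e f w) then (1 : ℝ) else 0 := by
  have h1 : (∑ y : Fin 6 → K, bas 16 (Lt.X .h y w)) =
      ∑ a : K, ∑ b : K, ∑ c : K, ∑ d : K, ∑ e : K, ∑ f : K, bas 16 (XH a b c d e f w) :=
    sum6 (fun a b c d e f => bas 16 (XH a b c d e f w))
  rw [h1]
  simp only [← Finset.sum_add_distrib]
  refine Finset.sum_congr rfl fun a _ => Finset.sum_congr rfl fun b _ =>
    Finset.sum_congr rfl fun c _ => Finset.sum_congr rfl fun d _ =>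
    Finset.sum_congr rfl fun e _ => Finset.sum_congr rfl fun f _ => ?_
  rw [HK_bas]
  by_cases hs : a * d * e + b * c * f = 0
  · simp [hs]
  · simp [hs]

/-- MODULE HK.  `sum6`, split by `σ = a d e + b c f`: for `σ ≠ 0` use `onJ_iff`, the variables `α, β, γ` instead of `f, d, e`
and `card_sig`, `card_tau`; for `σ = 0` use `onJ_zero` and `card_sig0` (with `f = -a`, `d = -b`, `e = -c`: `σ = 0`).  Compare in
the cases. -/
theorem rh16 {w : W5 K} (hw : w.Iso) (h0 : w ≠ 0) : (∑ y : Fin 6 → K, bas 16 (Lt.X .h y w)) =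
    (qr K ^ 3 - qr K ^ 2 - qr K) * bas 0 w + qr K * bas 2 w + (-qr K ^ 3 + qr K ^ 2 + qr K) * bas 3 w + (-qr K ^ 3 + qr K ^ 2 + qr K) * bas 4 w + (-qr K ^ 3 + qr K ^ 2 + qr K) * bas 5 w + (qr K ^ 3 - qr K ^ 2 - qr K) * bas 9 w + (qr K ^ 3 - qr K ^ 2 - qr K) * bas 10 w + (qr K ^ 3 - qr K ^ 2 - qr K) * bas 11 w + (qr K ^ 4 - 2 * qr K ^ 3 + 2 * qr K ^ 2 - 3 * qr K) * bas 12 w + (qr K ^ 4 - 2 * qr K ^ 3 + 2 * qr K ^ 2 - 3 * qr K) * bas 13 w + (qr K ^ 4 - 2 * qr K ^ 3 + 2 * qr K ^ 2 - 3 * qr K) * bas 14 w + (-qr K ^ 3 + qr K ^ 2 + 3 * qr K) * bas 15 w + (-qr K ^ 3 + qr K ^ 2 + qr K) * bas 16 w + (-qr K ^ 2 + 2 * qr K) * bas 17 w + (-qr K ^ 2 + 2 * qr K) * bas 18 w + (-qr K ^ 2 + 2 * qr K) * bas 19 w := by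
  rw [HK_sum, HK_ne, HK_zero, card_tau hw h0, card_sig0 hw h0]
  have hb : ∀ i : Fin 20, bas i w = if bc i w then (1 : ℝ) else 0 := fun i =>
    if_congr (and_iff_right h0) rfl rfl
  have b0 : bas 0 w = 1 := (hb 0).trans (if_pos trivial)
  have b2 : bas 2 w = if w.x4 = 0 then (1 : ℝ) else 0 := hb 2
  have b3 : bas 3 w = if w.x1 = 0 then (1 : ℝ) else 0 := hb 3
  have b4 : bas 4 w = if w.x2 = 0 then (1 : ℝ) else 0 := hb 4
  have b5 : bas 5 w = if w.x3 = 0 then (1 : ℝ) else 0 := hb 5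
  have b9 : bas 9 w = if w.x0 = 0 ∧ w.x2 = 0 ∧ w.x3 = 0 then (1 : ℝ) else 0 :=
    (hb 9).trans (if_congr Iff.rfl rfl rfl)
  have b10 : bas 10 w = if w.x0 = 0 ∧ w.x1 = 0 ∧ w.x3 = 0 then (1 : ℝ) else 0 :=
    (hb 10).trans (if_congr Iff.rfl rfl rfl)
  have b11 : bas 11 w = if w.x0 = 0 ∧ w.x1 = 0 ∧ w.x2 = 0 then (1 : ℝ) else 0 :=
    (hb 11).trans (if_congr Iff.rfl rfl rfl)
  have b12 : bas 12 w = if w.x4 = 0 ∧ w.x2 = 0 ∧ w.x3 = 0 then (1 : ℝ) else 0 :=
    (hb 12).trans (if_congr Iff.rfl rfl rfl)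
  have b13 : bas 13 w = if w.x4 = 0 ∧ w.x1 = 0 ∧ w.x3 = 0 then (1 : ℝ) else 0 :=
    (hb 13).trans (if_congr Iff.rfl rfl rfl)
  have b14 : bas 14 w = if w.x4 = 0 ∧ w.x1 = 0 ∧ w.x2 = 0 then (1 : ℝ) else 0 :=
    (hb 14).trans (if_congr Iff.rfl rfl rfl)
  have b15 : bas 15 w = if w.x1 = 0 ∧ w.x2 = 0 ∧ w.x3 = 0 ∧ w.x4 = 0 then (1 : ℝ) else 0 :=
    (hb 15).trans (if_congr Iff.rfl rfl rfl)
  have b16 : bas 16 w = if w.x0 = 0 ∧ w.x1 = 0 ∧ w.x2 = 0 ∧ w.x3 = 0 then (1 : ℝ) else 0 :=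
    (hb 16).trans (if_congr Iff.rfl rfl rfl)
  have b17 : bas 17 w = if w.x0 = 0 ∧ w.x2 = 0 ∧ w.x3 = 0 ∧ w.x4 = 0 then (1 : ℝ) else 0 :=
    (hb 17).trans (if_congr Iff.rfl rfl rfl)
  have b18 : bas 18 w = if w.x0 = 0 ∧ w.x1 = 0 ∧ w.x3 = 0 ∧ w.x4 = 0 then (1 : ℝ) else 0 :=
    (hb 18).trans (if_congr Iff.rfl rfl rfl)
  have b19 : bas 19 w = if w.x0 = 0 ∧ w.x1 = 0 ∧ w.x2 = 0 ∧ w.x4 = 0 then (1 : ℝ) else 0 :=
    (hb 19).trans (if_congr Iff.rfl rfl rfl)
  rw [b0, b2, b3, b4, b5, b9, b10, b11, b12, b13, b14, b15, b16, b17, b18, b19]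
  have hi : w.x0 * w.x4 = w.x1 * w.x2 + w.x1 * w.x3 + w.x2 * w.x3 := hw
  have hz : ¬ (w.x0 = 0 ∧ w.x1 = 0 ∧ w.x2 = 0 ∧ w.x3 = 0 ∧ w.x4 = 0) := fun h =>
    h0 (W5.ext h.1 h.2.1 h.2.2.1 h.2.2.2.1 h.2.2.2.2)
  clear b0 b2 b3 b4 b5 b9 b10 b11 b12 b13 b14 b15 b16 b17 b18 b19 hb h0 hw
  generalize qr K = q
  generalize w.x0 = x0 at hi hz ⊢
  generalize w.x1 = x1 at hi hz ⊢
  generalize w.x2 = x2 at hi hz ⊢
  generalize w.x3 = x3 at hi hz ⊢
  generalize w.x4 = x4 at hi hz ⊢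
  by_cases h1 : x1 = 0
  · by_cases h2 : x2 = 0
    · by_cases h3 : x3 = 0
      · rw [h1, h2, h3, mul_zero, add_zero, add_zero] at hi
        rcases mul_eq_zero.1 hi with h | h
        · have h4 : x4 ≠ 0 := fun h4 => hz ⟨h, h1, h2, h3, h4⟩
          simp [h1, h2, h3, h, h4]
          try ring
        · have h4 : x0 ≠ 0 := fun h4 => hz ⟨h4, h1, h2, h3, h⟩
          simp [h1, h2, h3, h, h4]
          try ring
      · rw [h1, h2, zero_mul, zero_mul, add_zero, add_zero] at hi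
        rcases mul_eq_zero.1 hi with h | h
        · by_cases h4 : x4 = 0
          · simp [h1, h2, h3, h, h4]
            try ring
          · simp [h1, h2, h3, h, h4]
            try ring
        · by_cases h4 : x0 = 0
          · simp [h1, h2, h3, h, h4]
            try ring
          · simp [h1, h2, h3, h, h4]
            try ring
    · by_cases h3 : x3 = 0
      · rw [h1, h3, zero_mul, zero_mul, mul_zero, add_zero, add_zero] at hi
        rcases mul_eq_zero.1 hi with h | h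
        · by_cases h4 : x4 = 0
          · simp [h1, h2, h3, h, h4]
            try ring
          · simp [h1, h2, h3, h, h4]
            try ring
        · by_cases h4 : x0 = 0
          · simp [h1, h2, h3, h, h4]
            try ring
          · simp [h1, h2, h3, h, h4]
            try ring
      · have h4 : x4 ≠ 0 := by
          rintro rfl
          rw [h1, zero_mul, zero_mul, mul_zero, zero_add, zero_add] at hi
          exact (mul_ne_zero h2 h3) hi.symm
        simp [h1, h2, h3, h4]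
        try ring
  · by_cases h2 : x2 = 0
    · by_cases h3 : x3 = 0
      · rw [h2, h3, zero_mul, mul_zero, add_zero, add_zero] at hi
        rcases mul_eq_zero.1 hi with h | h
        · by_cases h4 : x4 = 0
          · simp [h1, h2, h3, h, h4]
            try ring
          · simp [h1, h2, h3, h, h4]
            try ring
        · by_cases h4 : x0 = 0
          · simp [h1, h2, h3, h, h4]
            try ring
          · simp [h1, h2, h3, h, h4]
            try ring
      · have h4 : x4 ≠ 0 := by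
          rintro rfl
          rw [h2, zero_mul, mul_zero, mul_zero, zero_add, add_zero] at hi
          exact (mul_ne_zero h1 h3) hi.symm
        simp [h1, h2, h3, h4]
        try ring
    · by_cases h3 : x3 = 0
      · have h4 : x4 ≠ 0 := by
          rintro rfl
          rw [h3, mul_zero, mul_zero, mul_zero, add_zero, add_zero] at hi
          exact (mul_ne_zero h1 h2) hi.symm
        simp [h1, h2, h3, h4]
        try ring
      · by_cases h4 : x4 = 0
        · simp [h1, h2, h3, h4]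
          try ring
        · simp [h1, h2, h3, h4]
          try ring

end

end Pool.Agent.Pf4
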