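import Pool.Agent.Pf4.AEl

/-!
# Identities between coefficient lists (evaluated by the kernel)
-/

set_option autoImplicit false
set_option maxRecDepth 100000

open scoped BigOperators Classical

namespace Pool.Agent.Pf4

section vec

/-- The function `1`. -/
def vU : Vc := [[1]]

/-- `1 - x0`. -/
def vJ : Vc := [[1], [-1]]

/-- `1 - x4`. -/
def vF : Vc := [[1], [], [-1]]

/-- The image of the function `i` under the letter `a`, as a vector of polynomials in `q`. -/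
def rA (i : ℕ) : Vc := (matA.getD i []).map (rv 4)

/-- The same for `h`. -/
def rH (i : ℕ) : Vc := (matH.getD i []).map (rv 6)

/-- The part with all variables different from `0`. -/
def vI : Vc := [[-10, 10, -5, 1], [3, -1], [3, -1], [2], [2], [2], [1], [1], [1], [-1, -3, 1], [-1, -3, 1], [-1, -3, 1],
  [-1, -3, 1], [-1, -3, 1], [-1, -3, 1], [0, 3, -1], [0, 3, -1], [0, 1], [0, 1], [0, 1]]

theorem fa1 : veqA (rA 1) (vad (rA 0) (vsc [0, 0, -1] (cv [(.P, 3), (.P, 3)] vJ))) = true := by decide +kernel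

theorem fa2 : veqA (rA 2) (vad (rA 0) (vsc [-1] (cv [(.P, 2), (.P, 2), (.P, 1), (.P, 1)] vJ))) = true := by
  decide +kernel

theorem fa8 : veqA (rA 8) (vad (rA 0) (vsc [-1] (cv [(.S, 1), (.P, 3), (.P, 3)] vJ))) = true := by decide +kernel

theorem fa7 : veqA (rA 7) (vad (rA 0) (vsc [0, -1] (cv [(.P, 1), (.P, 2), (.P, 3)] vJ))) = true := by decide +kernel

theorem fa9 : veqA (vsc [0, 1] (rA 9)) (vad (vad (vsc [-1, 1] (rA 0)) (rA 1))
    (vsc [0, -1] (cv [(.P, 3), (.L, 3), (.P, 1), (.P, 2)] vJ))) = true := by decide +kernel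

theorem fa12 : veqA (vsc [0, 1] (rA 12)) (vad (vad (vsc [-1, 1] (rA 0)) (rA 6))
    (vsc [-1] (cv [(.P, 1), (.P, 2), (.L, 3), (.P, 1), (.P, 2)] vJ))) = true := by decide +kernel

theorem fa14 : veqA (vsc [0, 1] (rA 14)) (vad (vad (vsc [-1, 1] (rA 0)) (rA 8))
    (vsc [-1] (cv [(.L, 3), (.P, 1), (.P, 1), (.P, 2), (.P, 2)] vJ))) = true := by decide +kernel

theorem fa_sw : rA 4 = rA 3 ∧ rA 6 = rA 7 ∧ rA 10 = rA 9 ∧ rA 13 = rA 12 := by decide +kernel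

theorem fh6 : veqA (rH 6) (vad (rH 0) (vsc [0, -1] (cv [(.P, 1), (.S, 1), (.P, 2), (.P, 3)] vJ))) = true := by
  decide +kernel

theorem fh9 : veqA (vsc [0, 1] (rH 9)) (vad (vad (vsc [0, 1] (rH 0)) (vsc [0, 0, 0, -1] (cv [(.P, 1), (.P, 2), (.P, 3)] vJ)))
    (vsc [0, -1] (cv [(.P, 1), (.L, 2), (.L, 3), (.P, 1), (.P, 2), (.P, 3)] vJ))) = true := by decide +kernel

theorem fh12 : veqA (vsc [0, 1] (rH 12)) (vad (vad (vsc [-1, 1] (rH 0)) (rH 6))
    (vsc [-1] (cv [(.S, 1), (.P, 2), (.P, 3), (.L, 1), (.P, 2), (.P, 3)] vJ))) = true := by decide +kernel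

theorem fh_rt : veqA (rH 7) (vpm rotI (rH 6)) = true ∧ veqA (rH 8) (vpm rotI (rH 7)) = true ∧
    veqA (rH 10) (vpm rotI (rH 9)) = true ∧ veqA (rH 11) (vpm rotI (rH 10)) = true ∧
    veqA (rH 13) (vpm rotI (rH 12)) = true ∧ veqA (rH 14) (vpm rotI (rH 13)) = true := by decide +kernel

/-- The sum of the six chains. -/
def vZ : Vc := vad (vad (vad (vad (vad (cv [(.P, 2), (.L, 3), (.P, 1), (.L, 2), (.P, 3)] vU)
  (vpm rotI' (vpm swI (cv [(.P, 2), (.L, 3), (.P, 1), (.L, 2), (.Pn, 3)] vU))))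
  (vpm swI (cv [(.P, 2), (.L, 3), (.Pn, 1), (.Ln, 2), (.P, 3)] vU)))
  (vpm rotI (cv [(.Pn, 2), (.Ln, 3), (.P, 1), (.L, 2), (.Pn, 3)] vU)))
  (vpm rotI' (cv [(.Pn, 2), (.Ln, 3), (.Pn, 1), (.Ln, 2), (.P, 3)] vU)))
  (vpm rotI (vpm swI (cv [(.Pn, 2), (.Ln, 3), (.Pn, 1), (.Ln, 2), (.Pn, 3)] vU)))

theorem fh0 : veqA (rH 0) (vad vZ (vad (vsc [1, -6, 15, -20, 15, -6, 1] vU) (vsc [-1] vI))) = true := by decide +kernel

end vec

end Pool.Agent.Pf4
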