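import Pool.Agent.Pf4.BCnt

/-!
# The letters and the pairing
-/

set_option autoImplicit false

open scoped BigOperators Classical

namespace Pool.Agent.Pf4

variable {K : Type} [Field K] [Fintype K]

omit [Fintype K] in
private theorem b_op_isoA {a b c d : K} {w : W5 K} (h : w.Iso) : (XA a b c d w).Iso := by
  unfold W5.Iso at h ⊢
  unfold XA
  dsimp only
  linear_combination (a * d - b * c) ^ 2 * h

omit [Fintype K] in
private theorem b_op_isoH {a b c d e f : K} {w : W5 K} (h : w.Iso) : (XH a b c d e f w).Iso := by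
  unfold W5.Iso at h ⊢
  unfold XH
  dsimp only
  linear_combination (a * d * e + b * c * f) ^ 2 * h

omit [Fintype K] in
private theorem b_op_rt {w : W5 K} (h : w.Iso) : w.rt.Iso := by
  unfold W5.Iso W5.rt at *
  dsimp only
  linear_combination h

omit [Fintype K] in
private theorem b_op_tr {w : W5 K} (h : w.Iso) : w.tr.Iso := by
  unfold W5.Iso W5.tr at *
  dsimp only
  linear_combination h

omit [Fintype K] in
private theorem b_op_pr_rt (u v : W5 K) : W5.pr u.rt v = W5.pr u v.tr := by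
  unfold W5.pr W5.rt W5.tr
  dsimp only
  ring

omit [Fintype K] in
private theorem b_op_pr_tr (u v : W5 K) : W5.pr u.tr v = W5.pr u v.rt := by
  unfold W5.pr W5.rt W5.tr
  dsimp only
  ring

omit [Fintype K] in
private theorem b_op_pr_comm (u v : W5 K) : W5.pr u v = W5.pr v u := by
  unfold W5.pr
  ring

omit [Fintype K] in
private theorem b_op_adjA (a b c d : K) (w v : W5 K) :
    W5.pr (XA a b c d w) v = W5.pr w (XA a c b d v) := by
  unfold W5.pr XA
  dsimp only
  ring

omit [Fintype K] in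
private theorem b_op_adjH (a b c d e f : K) (w v : W5 K) :
    W5.pr (XH a b c d e f w) v = W5.pr w (XH c e a f b d v) := by
  unfold W5.pr XH
  dsimp only
  ring

theorem X_iso (x : Lt) (y : Fin x.n → K) {w : W5 K} (h : w.Iso) : (x.X y w).Iso := by
  cases x with
  | a => exact b_op_isoA h
  | b => exact b_op_tr (b_op_isoA (b_op_rt h))
  | c => exact b_op_rt (b_op_isoA (b_op_tr h))
  | h => exact b_op_isoH h

theorem X_sm (x : Lt) (y : Fin x.n → K) (r : K) (w : W5 K) : x.X y (w.sm r) = (x.X y w).sm r := by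
  cases x with
  | a =>
    ext <;> simp only [Lt.X, XA, W5.sm] <;> ring
  | b =>
    ext <;> simp only [Lt.X, XA, W5.sm, W5.rt, W5.tr] <;> ring
  | c =>
    ext <;> simp only [Lt.X, XA, W5.sm, W5.rt, W5.tr] <;> ring
  | h =>
    ext <;> simp only [Lt.X, XH, W5.sm] <;> ring

omit [Fintype K] in
private theorem b_op_sm0 (w : W5 K) : w.sm 0 = 0 := by
  ext <;> simp [W5.sm] <;> rfl

theorem X_zero (x : Lt) (y : Fin x.n → K) : x.X y (0 : W5 K) = 0 := by
  have h := X_sm x y 0 (0 : W5 K)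
  rwa [b_op_sm0, b_op_sm0] at h

/-- The exchange of the variables for `XA`. -/
private def b_op_eA : (Fin 4 → K) ≃ (Fin 4 → K) where
  toFun y := ![y 0, y 2, y 1, y 3]
  invFun y := ![y 0, y 2, y 1, y 3]
  left_inv y := by
    funext i
    fin_cases i <;> rfl
  right_inv y := by
    funext i
    fin_cases i <;> rfl

/-- The permutation of the variables for `XH`. -/
private def b_op_eH : (Fin 6 → K) ≃ (Fin 6 → K) where
  toFun y := ![y 2, y 4, y 0, y 5, y 1, y 3]
  invFun y := ![y 2, y 4, y 0, y 5, y 1, y 3]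
  left_inv y := by
    funext i
    fin_cases i <;> rfl
  right_inv y := by
    funext i
    fin_cases i <;> rfl

/-- The transposed letter: `a b c d ↦ a c b d` for `XA`, `a b c d e f ↦ c e a f b d` for `XH`. -/
theorem X_adj (x : Lt) : ∃ e : (Fin x.n → K) ≃ (Fin x.n → K), ∀ (y : Fin x.n → K) (w v : W5 K),
    W5.pr (x.X y w) v = W5.pr w (x.X (e y) v) := by
  cases x with
  | a =>
    refine ⟨b_op_eA, fun y w v => ?_⟩
    exact b_op_adjA _ _ _ _ w v
  | b =>
    refine ⟨b_op_eA, fun y w v => ?_⟩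
    change W5.pr (XA _ _ _ _ w.rt).tr v = W5.pr w (XA _ _ _ _ v.rt).tr
    rw [b_op_pr_tr, b_op_adjA, b_op_pr_rt]
    rfl
  | c =>
    refine ⟨b_op_eA, fun y w v => ?_⟩
    change W5.pr (XA _ _ _ _ w.tr).rt v = W5.pr w (XA _ _ _ _ v.tr).rt
    rw [b_op_pr_rt, b_op_adjA, b_op_pr_tr]
    rfl
  | h =>
    refine ⟨b_op_eH, fun y w v => ?_⟩
    exact b_op_adjH _ _ _ _ _ _ w v

theorem op_hm (x : Lt) {f : W5 K → ℝ} (hf : Hm f) : Hm (x.op f) := by
  refine ⟨?_, fun r w hr => ?_⟩
  · unfold Lt.op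
    rw [Finset.sum_eq_zero, zero_div]
    intro y _
    rw [X_zero, hf.1]
  · unfold Lt.op
    congr 1
    refine Finset.sum_congr rfl fun y _ => ?_
    rw [X_sm, hf.2 r _ hr]

theorem op_congr (x : Lt) {f g : W5 K → ℝ} (h0 : f 0 = g 0) (h : ∀ w ∈ IS K, f w = g w) {w : W5 K}
    (hw : w ∈ IS K) : x.op f w = x.op g w := by
  unfold Lt.op
  congr 1
  refine Finset.sum_congr rfl fun y _ => ?_
  by_cases hz : x.X y w = 0
  · rw [hz, h0]
  · exact h _ (mem_IS.mpr ⟨X_iso x y (mem_IS.mp hw).1, hz⟩)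

theorem op_adj (x : Lt) (f g : W5 K → ℝ) : ip (x.op (Dp f)) g = ip f (x.op (Dp g)) := by
  obtain ⟨e, he⟩ := X_adj (K := K) x
  have hl : ip (x.op (Dp f)) g = (∑ w ∈ IS K, ∑ v ∈ IS K, ∑ y : Fin x.n → K,
      (if W5.pr (x.X y w) v = 0 then 0 else f v * g w)) / qr K ^ x.n := by
    unfold ip Lt.op Dp
    rw [Finset.sum_div]
    refine Finset.sum_congr rfl fun w _ => ?_
    rw [div_mul_eq_mul_div, Finset.sum_mul]
    congr 1
    rw [Finset.sum_comm]
    refine Finset.sum_congr rfl fun y _ => ?_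
    rw [Finset.sum_mul]
    refine Finset.sum_congr rfl fun v _ => ?_
    rw [ite_mul, zero_mul]
  have hr : ip f (x.op (Dp g)) = (∑ v ∈ IS K, ∑ w ∈ IS K, ∑ y : Fin x.n → K,
      (if W5.pr (x.X y v) w = 0 then 0 else f v * g w)) / qr K ^ x.n := by
    unfold ip Lt.op Dp
    rw [Finset.sum_div]
    refine Finset.sum_congr rfl fun v _ => ?_
    rw [← mul_div_assoc, Finset.mul_sum]
    congr 1
    rw [Finset.sum_comm]
    refine Finset.sum_congr rfl fun y _ => ?_
    rw [Finset.mul_sum]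
    refine Finset.sum_congr rfl fun w _ => ?_
    rw [mul_ite, mul_zero]
  rw [hl, hr, Finset.sum_comm]
  congr 1
  refine Finset.sum_congr rfl fun v _ => Finset.sum_congr rfl fun w _ => ?_
  rw [← Equiv.sum_comp e (fun y => if W5.pr (x.X y v) w = 0 then 0 else f v * g w)]
  refine Finset.sum_congr rfl fun y _ => ?_
  rw [he y w v, b_op_pr_comm w]

private theorem b_op_qr : 0 < qr K := by
  unfold qr
  exact_mod_cast Fintype.card_pos

omit [Field K] in
private theorem b_op_card (x : Lt) : ((Finset.univ : Finset (Fin x.n → K)).card : ℝ) = qr K ^ x.n := by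
  rw [Finset.card_univ, Fintype.card_fun, Fintype.card_fin]
  unfold qr
  push_cast
  rfl

/-- Cauchy-Schwarz. -/
theorem op_sq (x : Lt) (f : W5 K → ℝ) (w : W5 K) : x.op f w ^ 2 ≤ x.op (fun v => f v ^ 2) w := by
  unfold Lt.op
  have hq : 0 < qr K ^ x.n := pow_pos b_op_qr _
  have h := sq_sum_le_card_mul_sum_sq (s := (Finset.univ : Finset (Fin x.n → K))) (f := fun y => f (x.X y w))
  rw [b_op_card] at h
  rw [div_pow, div_le_div_iff₀ (pow_pos hq 2) hq]
  calc (∑ y : Fin x.n → K, f (x.X y w)) ^ 2 * qr K ^ x.n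
      ≤ (qr K ^ x.n * ∑ y : Fin x.n → K, f (x.X y w) ^ 2) * qr K ^ x.n :=
        mul_le_mul_of_nonneg_right h hq.le
    _ = (∑ y : Fin x.n → K, f (x.X y w) ^ 2) * (qr K ^ x.n) ^ 2 := by ring

/-- Bounded functions. -/
theorem op_abs (x : Lt) {f : W5 K → ℝ} {M : ℝ} (h : ∀ w, |f w| ≤ M) (w : W5 K) : |x.op f w| ≤ M := by
  unfold Lt.op
  have hq : 0 < qr K ^ x.n := pow_pos b_op_qr _
  rw [abs_div, abs_of_pos hq, div_le_iff₀ hq]
  calc |∑ y : Fin x.n → K, f (x.X y w)| ≤ ∑ y : Fin x.n → K, |f (x.X y w)| := Finset.abs_sum_le_sum_abs _ _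
    _ ≤ ∑ _y : Fin x.n → K, M := Finset.sum_le_sum fun y _ => h _
    _ = M * qr K ^ x.n := by
        rw [Finset.sum_const, nsmul_eq_mul, b_op_card, mul_comm]

end Pool.Agent.Pf4
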