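import Pool.Agent.Pf4.ATab
import Pool.Agent.Pf4.AHd
import Pool.Agent.Pf4.AVec
import Pool.Agent.Pf4.BOp

/-!
# The exact matrices of the letters: assembly
-/

set_option autoImplicit false
set_option maxRecDepth 100000

open scoped BigOperators Classical

namespace Pool.Agent.Pf4

variable {K : Type} [Field K] [Fintype K]

theorem qr_pos : 0 < qr K := by
  unfold qr
  exact_mod_cast Fintype.card_pos

theorem vU_eq (w : W5 K) : bas 0 w = bq vU w := by
  simp [bq, vU, Fin.sum_univ_succ, lev]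

theorem vJ_eq (w : W5 K) : jJ w = bq vJ w := by
  rw [jJ_eq]
  simp [bq, vJ, Fin.sum_univ_succ, lev]
  ring

theorem vF_eq (w : W5 K) : jF w = bq vF w := by
  rw [jF_eq]
  simp [bq, vF, Fin.sum_univ_succ, lev]
  ring

theorem jJ_fun : (jJ : W5 K → ℝ) = bq vJ := funext vJ_eq

theorem bas0_fun : (bas 0 : W5 K → ℝ) = bq vU := funext vU_eq

/-- The value of a chain at the closing `J`. -/
theorem ch_jJ (l : List (El × ℕ)) {w : W5 K} (hw : w.Iso) : ch l jJ w = bq (cv l vJ) w := by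
  rw [jJ_fun, ch_bq l vJ hw]

theorem ch_U (l : List (El × ℕ)) {w : W5 K} (hw : w.Iso) : ch l (bas 0) w = bq (cv l vU) w := by
  rw [bas0_fun, ch_bq l vU hw]

/-- `i` is a row of the letter `a`. -/
def RA (K : Type) [Field K] [Fintype K] (i : Fin 20) (n : ℕ) : Prop :=
  ∀ w : W5 K, w.Iso → w ≠ 0 → (∑ y : Fin 4 → K, bas i (Lt.X .a y w)) = bq (rA n) w

/-- `i` is a row of the letter `h`. -/
def RH (K : Type) [Field K] [Fintype K] (i : Fin 20) (n : ℕ) : Prop :=
  ∀ w : W5 K, w.Iso → w ≠ 0 → (∑ y : Fin 6 → K, bas i (Lt.X .h y w)) = bq (rH n) w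

theorem RA0 : RA K 0 0 := by
  intro w hw h0
  rw [ra0 hw h0]
  simp [bq, rA, matA, rv, Fin.sum_univ_succ, lev, List.range, List.range.loop]
  ring

theorem RA3 : RA K 3 3 := by
  intro w hw h0
  rw [ra3 hw h0]
  simp [bq, rA, matA, rv, Fin.sum_univ_succ, lev, List.range, List.range.loop]
  ring

theorem RA11 : RA K 11 11 := by
  intro w hw h0
  rw [ra11 hw h0]
  simp [bq, rA, matA, rv, Fin.sum_univ_succ, lev, List.range, List.range.loop]
  ring

theorem RA16 : RA K 16 16 := by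
  intro w hw h0
  rw [ra16 hw h0]
  simp [bq, rA, matA, rv, Fin.sum_univ_succ, lev, List.range, List.range.loop]
  ring

theorem RA19 : RA K 19 19 := by
  intro w hw h0
  rw [ra19 hw h0]
  simp [bq, rA, matA, rv, Fin.sum_univ_succ, lev, List.range, List.range.loop]
  ring

theorem RH16 : RH K 16 16 := by
  intro w hw h0
  rw [rh16 hw h0]
  simp [bq, rH, matH, rv, Fin.sum_univ_succ, lev, List.range, List.range.loop]
  ring

theorem sum_a_iso (y : Fin 4 → K) {w : W5 K} (hw : w.Iso) : (Lt.X .a y w).Iso := X_iso .a y hw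

theorem RA1 : RA K 1 1 := by
  intro w hw h0
  have h1 : (∑ y : Fin 4 → K, bas 1 (Lt.X .a y w)) = (∑ y : Fin 4 → K, bas 0 (Lt.X .a y w)) -
      ∑ y : Fin 4 → K, jJ (Lt.X .a y w) := by
    rw [← Finset.sum_sub_distrib]
    exact Finset.sum_congr rfl fun y _ => by rw [jJ_eq]; ring
  rw [h1, RA0 w hw h0, ca1, ch_jJ _ hw, bq_of_veq fa1, bq_vad, bq_vsc]
  simp [lev]
  ring

theorem RA2 : RA K 2 2 := by
  intro w hw h0
  have h1 : (∑ y : Fin 4 → K, bas 2 (Lt.X .a y w)) = (∑ y : Fin 4 → K, bas 0 (Lt.X .a y w)) -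
      ∑ y : Fin 4 → K, jF (Lt.X .a y w) := by
    rw [← Finset.sum_sub_distrib]
    exact Finset.sum_congr rfl fun y _ => by rw [jF_eq]; ring
  rw [h1, RA0 w hw h0, ca2, ch_jJ _ hw, bq_of_veq fa2, bq_vad, bq_vsc]
  simp [lev]
  ring

theorem RA8 : RA K 8 8 := by
  intro w hw h0
  have h1 : (∑ y : Fin 4 → K, bas 8 (Lt.X .a y w)) = (∑ y : Fin 4 → K, bas 0 (Lt.X .a y w)) -
      ∑ y : Fin 4 → K, jS12 (Lt.X .a y w) := by
    rw [← Finset.sum_sub_distrib]
    exact Finset.sum_congr rfl fun y _ => by rw [jS12_eq]; ring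
  rw [h1, RA0 w hw h0, ca3, ch_jJ _ hw, bq_of_veq fa8, bq_vad, bq_vsc]
  simp [lev]
  ring

theorem RA7 : RA K 7 7 := by
  intro w hw h0
  have h1 : (∑ y : Fin 4 → K, bas 7 (Lt.X .a y w)) = (∑ y : Fin 4 → K, bas 0 (Lt.X .a y w)) -
      ∑ y : Fin 4 → K, jS13 (Lt.X .a y w) := by
    rw [← Finset.sum_sub_distrib]
    exact Finset.sum_congr rfl fun y _ => by rw [jS13_eq]; ring
  rw [h1, RA0 w hw h0, ca4, ch_jJ _ hw, bq_of_veq fa7, bq_vad, bq_vsc]
  simp [lev]
  ring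

/-- The exchange of the terminals `1`, `2`. -/
theorem RA_sw {i j : Fin 20} {m n : ℕ} (h : ∀ w : W5 K, bas i w.sw = bas j w) (hr : rA n = rA m) (hi : RA K i m) :
    RA K j n := by
  intro w hw h0
  rw [hr, ← hi w hw h0, ← a_sw (bas i) w]
  exact Finset.sum_congr rfl fun y _ => (h _).symm

theorem bas_sw_3 (w : W5 K) : bas 3 w.sw = bas 4 w := bas_sw' 3 w

theorem bas_sw_7 (w : W5 K) : bas 7 w.sw = bas 6 w := bas_sw' 7 w

theorem bas_sw_9 (w : W5 K) : bas 9 w.sw = bas 10 w := bas_sw' 9 w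

theorem bas_sw_12 (w : W5 K) : bas 12 w.sw = bas 13 w := bas_sw' 12 w

theorem bas_sw_17 (w : W5 K) : bas 17 w.sw = bas 18 w := bas_sw' 17 w

theorem RA4 : RA K 4 4 := RA_sw bas_sw_3 fa_sw.1 RA3

theorem RA6 : RA K 6 6 := RA_sw bas_sw_7 fa_sw.2.1 RA7

theorem RA9 : RA K 9 9 := by
  intro w hw h0
  have hq : qr K ≠ 0 := qr_pos.ne'
  have h1 : qr K * (∑ y : Fin 4 → K, bas 9 (Lt.X .a y w)) =
      (qr K - 1) * (∑ y : Fin 4 → K, bas 0 (Lt.X .a y w)) + (∑ y : Fin 4 → K, bas 1 (Lt.X .a y w)) -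
      ∑ y : Fin 4 → K, ch [(.P, 1)] jJ (Lt.X .a y w) := by
    rw [Finset.mul_sum, Finset.mul_sum, ← Finset.sum_add_distrib, ← Finset.sum_sub_distrib]
    exact Finset.sum_congr rfl fun y _ => by rw [chP1J _ (sum_a_iso y hw)]; ring
  rw [RA0 w hw h0, RA1 w hw h0, ca5, ch_jJ _ hw] at h1
  apply mul_left_cancel₀ hq
  rw [h1]
  have h2 := bq_of_veq fa9 w
  simp only [bq_vad, bq_vsc, lev] at h2
  push_cast at h2
  linarith

theorem RA12 : RA K 12 12 := by
  intro w hw h0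
  have hq : qr K ≠ 0 := qr_pos.ne'
  have h1 : qr K * (∑ y : Fin 4 → K, bas 12 (Lt.X .a y w)) =
      (qr K - 1) * (∑ y : Fin 4 → K, bas 0 (Lt.X .a y w)) + (∑ y : Fin 4 → K, bas 6 (Lt.X .a y w)) -
      ∑ y : Fin 4 → K, ch [(.L, 1)] jF (Lt.X .a y w) := by
    rw [Finset.mul_sum, Finset.mul_sum, ← Finset.sum_add_distrib, ← Finset.sum_sub_distrib]
    exact Finset.sum_congr rfl fun y _ => by rw [chL1F _ (sum_a_iso y hw)]; ring
  rw [RA0 w hw h0, RA6 w hw h0, ca6, ch_jJ _ hw] at h1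
  apply mul_left_cancel₀ hq
  rw [h1]
  have h2 := bq_of_veq fa12 w
  simp only [bq_vad, bq_vsc, lev] at h2
  push_cast at h2
  linarith

theorem RA14 : RA K 14 14 := by
  intro w hw h0
  have hq : qr K ≠ 0 := qr_pos.ne'
  have h1 : qr K * (∑ y : Fin 4 → K, bas 14 (Lt.X .a y w)) =
      (qr K - 1) * (∑ y : Fin 4 → K, bas 0 (Lt.X .a y w)) + (∑ y : Fin 4 → K, bas 8 (Lt.X .a y w)) -
      ∑ y : Fin 4 → K, ch [(.L, 3)] jF (Lt.X .a y w) := by
    rw [Finset.mul_sum, Finset.mul_sum, ← Finset.sum_add_distrib, ← Finset.sum_sub_distrib]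
    exact Finset.sum_congr rfl fun y _ => by rw [chL3F _ (sum_a_iso y hw)]; ring
  rw [RA0 w hw h0, RA8 w hw h0, ca7, ch_jJ _ hw] at h1
  apply mul_left_cancel₀ hq
  rw [h1]
  have h2 := bq_of_veq fa14 w
  simp only [bq_vad, bq_vsc, lev] at h2
  push_cast at h2
  linarith

theorem RA10 : RA K 10 10 := RA_sw bas_sw_9 fa_sw.2.2.1 RA9

theorem RA13 : RA K 13 13 := RA_sw bas_sw_12 fa_sw.2.2.2 RA12

/-- The part of `h` with all variables different from `0`. -/
theorem nH_bq {w : W5 K} (hw : w.Iso) (h0 : w ≠ 0) : nH w = bq vI w := by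
  rw [nH_eq hw h0]
  by_cases hx : w.x0 = 0
  · rw [n5_x00 hw h0 hx]
    simp [bq, vI, Fin.sum_univ_succ, lev]
    ring
  · rw [n5_x0 hw hx]
    simp [bq, vI, Fin.sum_univ_succ, lev]
    ring

omit [Fintype K] in
theorem bas0_ne {w : W5 K} (h : w ≠ 0) : bas 0 w = 1 := by
  simp [bas, bc, h]

theorem sum_one_nz : (∑ a : K, if a = 0 then (0 : ℝ) else 1) = qr K - 1 := by
  have h : ∀ a : K, (if a = 0 then (0 : ℝ) else 1) = 1 - if a = 0 then 1 else 0 := by
    intro a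
    split_ifs <;> norm_num
  rw [Finset.sum_congr rfl fun a _ => h a, Finset.sum_sub_distrib]
  simp [qr]

theorem sum_nz (w : W5 K) : (∑ a : K, ∑ b : K, ∑ c : K, ∑ d : K, ∑ e : K, ∑ f : K,
    if a = 0 ∨ b = 0 ∨ c = 0 ∨ d = 0 ∨ e = 0 ∨ f = 0 then 0 else bas 0 (XH a b c d e f w)) =
    (qr K - 1) ^ 6 - nH w := by
  have h : ∀ a b c d e f : K,
      (if a = 0 ∨ b = 0 ∨ c = 0 ∨ d = 0 ∨ e = 0 ∨ f = 0 then 0 else bas 0 (XH a b c d e f w)) =
        (if a = 0 then (0 : ℝ) else 1) * ((if b = 0 then (0 : ℝ) else 1) * ((if c = 0 then (0 : ℝ) else 1) *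
          ((if d = 0 then (0 : ℝ) else 1) * ((if e = 0 then (0 : ℝ) else 1) * (if f = 0 then (0 : ℝ) else 1))))) -
        (if a ≠ 0 ∧ b ≠ 0 ∧ c ≠ 0 ∧ d ≠ 0 ∧ e ≠ 0 ∧ f ≠ 0 ∧ XH a b c d e f w = 0 then 1 else 0) := by
    intro a b c d e f
    by_cases ha : a = 0
    · simp [ha]
    by_cases hb : b = 0
    · simp [hb]
    by_cases hc : c = 0
    · simp [hc]
    by_cases hd : d = 0
    · simp [hd]
    by_cases he : e = 0
    · simp [he]
    by_cases hf : f = 0
    · simp [hf]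
    by_cases hX : XH a b c d e f w = 0
    · simp [ha, hb, hc, hd, he, hf, hX, bas]
    · simp [ha, hb, hc, hd, he, hf, hX, bas, bc]
  simp only [h, Finset.sum_sub_distrib, ← Finset.mul_sum, ← Finset.sum_mul, sum_one_nz]
  unfold nH
  ring

theorem RH0 : RH K 0 0 := by
  intro w hw h0
  rw [h_split (bas 0) (fun v => bas_rt' 0 v) (fun v => bas_sw' 0 v) w, sum_nz, nH_bq hw h0]
  rw [ch_U _ hw, ch_U _ (sw_iso.2 (tr_iso.2 hw)), ch_U _ (sw_iso.2 hw), ch_U _ (rt_iso.2 hw), ch_U _ (tr_iso.2 hw),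
    ch_U _ (sw_iso.2 (rt_iso.2 hw))]
  simp only [bq_rt, bq_tr, bq_sw]
  rw [bq_of_veq fh0]
  simp only [vZ, bq_vad, bq_vsc, lev, ← vU_eq, bas0_ne h0]
  push_cast
  ring

theorem RH6 : RH K 6 6 := by
  intro w hw h0
  have h1 : (∑ y : Fin 6 → K, bas 6 (Lt.X .h y w)) = (∑ y : Fin 6 → K, bas 0 (Lt.X .h y w)) -
      ∑ y : Fin 6 → K, jS23 (Lt.X .h y w) := by
    rw [← Finset.sum_sub_distrib]
    exact Finset.sum_congr rfl fun y _ => by rw [jS23_eq]; ring
  rw [h1, RH0 w hw h0, chh2, ch_jJ _ hw, bq_of_veq fh6, bq_vad, bq_vsc]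
  simp [lev]
  ring

theorem RH9 : RH K 9 9 := by
  intro w hw h0
  have hq : qr K ≠ 0 := qr_pos.ne'
  have h1 : qr K * (∑ y : Fin 6 → K, bas 9 (Lt.X .h y w)) =
      qr K * (∑ y : Fin 6 → K, bas 0 (Lt.X .h y w)) - (∑ y : Fin 6 → K, jJ (Lt.X .h y w)) -
      ∑ y : Fin 6 → K, ch [(.P, 1)] jJ (Lt.X .h y w) := by
    rw [Finset.mul_sum, Finset.mul_sum, ← Finset.sum_sub_distrib, ← Finset.sum_sub_distrib]
    exact Finset.sum_congr rfl fun y _ => by rw [chP1J _ (X_iso .h y hw), jJ_eq]; ring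
  rw [RH0 w hw h0, chh1, chh3, ch_jJ _ hw, ch_jJ _ hw] at h1
  apply mul_left_cancel₀ hq
  rw [h1]
  have h2 := bq_of_veq fh9 w
  simp only [bq_vad, bq_vsc, lev] at h2
  push_cast at h2
  linarith

theorem RH12 : RH K 12 12 := by
  intro w hw h0
  have hq : qr K ≠ 0 := qr_pos.ne'
  have h1 : qr K * (∑ y : Fin 6 → K, bas 12 (Lt.X .h y w)) =
      (qr K - 1) * (∑ y : Fin 6 → K, bas 0 (Lt.X .h y w)) + (∑ y : Fin 6 → K, bas 6 (Lt.X .h y w)) -
      ∑ y : Fin 6 → K, ch [(.L, 1)] jF (Lt.X .h y w) := by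
    rw [Finset.mul_sum, Finset.mul_sum, ← Finset.sum_add_distrib, ← Finset.sum_sub_distrib]
    exact Finset.sum_congr rfl fun y _ => by rw [chL1F _ (X_iso .h y hw)]; ring
  rw [RH0 w hw h0, RH6 w hw h0, chh4, ch_jJ _ hw] at h1
  apply mul_left_cancel₀ hq
  rw [h1]
  have h2 := bq_of_veq fh12 w
  simp only [bq_vad, bq_vsc, lev] at h2
  push_cast at h2
  linarith

omit [Fintype K] in
theorem rt_ne {w : W5 K} (h : w ≠ 0) : w.rt ≠ 0 := by
  intro h'
  apply h
  have h0 : w.rt.x0 = 0 := by rw [h']; rfl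
  have h1 : w.rt.x1 = 0 := by rw [h']; rfl
  have h2 : w.rt.x2 = 0 := by rw [h']; rfl
  have h3 : w.rt.x3 = 0 := by rw [h']; rfl
  have h4 : w.rt.x4 = 0 := by rw [h']; rfl
  exact W5.ext h0 h3 h1 h2 h4

/-- The rotation of the terminals. -/
theorem RH_rt {i j : Fin 20} {m n : ℕ} (h : ∀ w : W5 K, bas i w.rt = bas j w)
    (hv : veqA (rH n) (vpm rotI (rH m)) = true) (hi : RH K i m) : RH K j n := by
  intro w hw h0
  rw [bq_of_veq hv, ← bq_rt, ← hi w.rt (rt_iso.2 hw) (rt_ne h0), ← h_rt (bas i) w]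
  exact Finset.sum_congr rfl fun y _ => (h _).symm

theorem RH7 : RH K 7 7 := RH_rt (fun w => bas_rt' 6 w) fh_rt.1 RH6

theorem RH8 : RH K 8 8 := RH_rt (fun w => bas_rt' 7 w) fh_rt.2.1 RH7

theorem RH10 : RH K 10 10 := RH_rt (fun w => bas_rt' 9 w) fh_rt.2.2.1 RH9

theorem RH11 : RH K 11 11 := RH_rt (fun w => bas_rt' 10 w) fh_rt.2.2.2.1 RH10

theorem RH13 : RH K 13 13 := RH_rt (fun w => bas_rt' 12 w) fh_rt.2.2.2.2.1 RH12

theorem RH14 : RH K 14 14 := RH_rt (fun w => bas_rt' 13 w) fh_rt.2.2.2.2.2 RH13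

theorem len_of_all {m : List Vc} {n : ℕ} (h : (m.all fun r => r.all fun l => decide (l.length ≤ n)) = true) (i j : ℕ) :
    ((m.getD i []).getD j []).length ≤ n := by
  rw [List.all_eq_true] at h
  by_cases hi : i < m.length
  · have h1 := h m[i] (List.getElem_mem hi)
    rw [List.all_eq_true] at h1
    rw [List.getD_eq_getElem m [] hi]
    by_cases hj : j < m[i].length
    · have h2 := h1 (m[i])[j] (List.getElem_mem hj)
      rw [List.getD_eq_getElem m[i] [] hj]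
      exact of_decide_eq_true h2
    · rw [List.getD_eq_default m[i] [] (not_lt.1 hj)]
      simp
  · rw [List.getD_eq_default m [] (not_lt.1 hi)]
    simp

theorem lev_map_rv {t : ℝ} (ht : t ≠ 0) (n : ℕ) (v : Vc) (j : ℕ) (hl : (v.getD j []).length ≤ n + 1) :
    lev t ((v.map (rv n)).getD j []) = t ^ n * lev t⁻¹ (v.getD j []) := by
  by_cases hj : j < v.length
  · rw [← lev_rv ht n hl, List.getD_eq_getElem v [] hj, List.getD_eq_getElem _ [] (by rwa [List.length_map]),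
      List.getElem_map]
  · rw [List.getD_eq_default v [] (not_lt.1 hj), List.getD_eq_default _ [] (by rw [List.length_map]; exact not_lt.1 hj)]
    simp [lev]

/-- From powers of `q` to powers of `1 / q`. -/
theorem bq_rA (i : ℕ) (w : W5 K) : bq (rA i) w =
    qr K ^ 4 * ∑ j : Fin 20, lev (qr K)⁻¹ ((matA.getD i []).getD j []) * bas j w := by
  unfold bq rA
  rw [Finset.mul_sum]
  refine Finset.sum_congr rfl fun j _ => ?_
  rw [lev_map_rv qr_pos.ne' 4 _ _ (len_of_all (by decide +kernel) i j), mul_assoc]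

theorem bq_rH (i : ℕ) (w : W5 K) : bq (rH i) w =
    qr K ^ 6 * ∑ j : Fin 20, lev (qr K)⁻¹ ((matH.getD i []).getD j []) * bas j w := by
  unfold bq rH
  rw [Finset.mul_sum]
  refine Finset.sum_congr rfl fun j _ => ?_
  rw [lev_map_rv qr_pos.ne' 6 _ _ (len_of_all (by decide +kernel) i j), mul_assoc]

theorem opa_row {i : Fin 20} {n : ℕ} (h : RA K i n) {w : W5 K} (hw : w ∈ IS K) :
    Lt.a.op (bas i) w = ∑ j : Fin 20, lev (qr K)⁻¹ ((matA.getD n []).getD j []) * bas j w := by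
  have hm := mem_IS.1 hw
  have hq : qr K ≠ 0 := qr_pos.ne'
  have h1 := h w hm.1 hm.2
  rw [bq_rA] at h1
  unfold Lt.op
  rw [div_eq_iff (pow_ne_zero _ hq)]
  rw [mul_comm]
  exact h1

theorem oph_row {i : Fin 20} {n : ℕ} (h : RH K i n) {w : W5 K} (hw : w ∈ IS K) :
    Lt.h.op (bas i) w = ∑ j : Fin 20, lev (qr K)⁻¹ ((matH.getD n []).getD j []) * bas j w := by
  have hm := mem_IS.1 hw
  have hq : qr K ≠ 0 := qr_pos.ne'
  have h1 := h w hm.1 hm.2
  rw [bq_rH] at h1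
  unfold Lt.op
  rw [div_eq_iff (pow_ne_zero _ hq)]
  rw [mul_comm]
  exact h1

/-- Linearity. -/
theorem op_comb (x : Lt) (c : Fin 20 → ℝ) (w : W5 K) :
    x.op (fun v => ∑ i, c i * bas i v) w = ∑ i, c i * x.op (bas i) w := by
  unfold Lt.op
  rw [Finset.sum_comm, Finset.sum_div]
  refine Finset.sum_congr rfl fun i _ => ?_
  rw [← Finset.mul_sum, mul_div_assoc]

theorem bas_rt (i : Fin 20) (w : W5 K) : bas i w.rt = bas ⟨rotI.getD i 0, by fin_cases i <;> decide⟩ w :=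
  bas_rt' i w

/-- The exact formulas for the letter `a`. -/
theorem opa_bas (c : Fin 20 → ℝ) (h5 : c 5 = 0) (h15 : c 15 = 0) (hd : c 17 + c 18 = 0) {w : W5 K} (hw : w ∈ IS K) :
    Lt.a.op (fun v => ∑ i, c i * bas i v) w =
      ∑ j : Fin 20, (∑ i : Fin 20, c i * lev (qr K)⁻¹ ((matA.getD i []).getD j [])) * bas j w := by
  have e17 : Lt.a.op (bas 17) w = Lt.a.op (bas 18) w := by
    unfold Lt.op
    congr 1
    have h := a_sw (bas 17) w
    calc (∑ y : Fin 4 → K, bas 17 (Lt.X .a y w)) = ∑ y : Fin 4 → K, bas 17 (Lt.X .a y w).sw := h.symm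
      _ = ∑ y : Fin 4 → K, bas 18 (Lt.X .a y w) := Finset.sum_congr rfl fun y _ => bas_sw_17 _
  have key : ∀ i : Fin 20, i ≠ 5 → i ≠ 15 → i ≠ 17 → i ≠ 18 → Lt.a.op (bas i) w =
      ∑ j : Fin 20, lev (qr K)⁻¹ ((matA.getD i []).getD j []) * bas j w := by
    intro i i5 i15 i17 i18
    fin_cases i
    · exact opa_row RA0 hw
    · exact opa_row RA1 hw
    · exact opa_row RA2 hw
    · exact opa_row RA3 hw
    · exact opa_row RA4 hw
    · exact absurd rfl i5
    · exact opa_row RA6 hw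
    · exact opa_row RA7 hw
    · exact opa_row RA8 hw
    · exact opa_row RA9 hw
    · exact opa_row RA10 hw
    · exact opa_row RA11 hw
    · exact opa_row RA12 hw
    · exact opa_row RA13 hw
    · exact opa_row RA14 hw
    · exact absurd rfl i15
    · exact opa_row RA16 hw
    · exact absurd rfl i17
    · exact absurd rfl i18
    · exact opa_row RA19 hw
  have z17 : ∀ j : Fin 20, lev (qr K)⁻¹ ((matA.getD (17 : Fin 20) []).getD j []) = 0 := by
    intro j
    fin_cases j <;> rfl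
  have z18 : ∀ j : Fin 20, lev (qr K)⁻¹ ((matA.getD (18 : Fin 20) []).getD j []) = 0 := by
    intro j
    fin_cases j <;> rfl
  rw [op_comb]
  have hR : (∑ j : Fin 20, (∑ i : Fin 20, c i * lev (qr K)⁻¹ ((matA.getD i []).getD j [])) * bas j w) =
      ∑ i : Fin 20, c i * ∑ j : Fin 20, lev (qr K)⁻¹ ((matA.getD i []).getD j []) * bas j w := by
    simp only [Finset.sum_mul, Finset.mul_sum, mul_assoc]
    exact Finset.sum_comm
  rw [hR]
  have hS : (∑ i : Fin 20, c i * Lt.a.op (bas i) w) - (∑ i : Fin 20, c i *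
      ∑ j : Fin 20, lev (qr K)⁻¹ ((matA.getD i []).getD j []) * bas j w) = 0 := by
    rw [← Finset.sum_sub_distrib]
    have : ∀ i : Fin 20, c i * Lt.a.op (bas i) w - c i *
        (∑ j : Fin 20, lev (qr K)⁻¹ ((matA.getD i []).getD j []) * bas j w) =
        (if i = 17 then c 17 * Lt.a.op (bas 18) w else 0) + (if i = 18 then c 18 * Lt.a.op (bas 18) w else 0) := by
      intro i
      by_cases i5 : i = 5
      · subst i5
        rw [h5, if_neg (by decide), if_neg (by decide)]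
        ring
      by_cases i15 : i = 15
      · subst i15
        rw [h15, if_neg (by decide), if_neg (by decide)]
        ring
      by_cases i17 : i = 17
      · subst i17
        rw [if_pos rfl, if_neg (by decide), e17]
        simp only [z17, zero_mul, Finset.sum_const_zero]
        ring
      by_cases i18 : i = 18
      · subst i18
        rw [if_neg (by decide), if_pos rfl]
        simp only [z18, zero_mul, Finset.sum_const_zero]
        ring
      rw [key i i5 i15 i17 i18, if_neg i17, if_neg i18]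
      ring
    rw [Finset.sum_congr rfl fun i _ => this i, Finset.sum_add_distrib, Finset.sum_ite_eq', Finset.sum_ite_eq',
      if_pos (Finset.mem_univ _), if_pos (Finset.mem_univ _), ← add_mul, hd, zero_mul]
  linarith

/-- The exact formulas for the letter `h`. -/
theorem oph_bas (c : Fin 20 → ℝ) (h : ∀ i : Fin 20, (1 ≤ i.1 ∧ i.1 ≤ 5) ∨ i.1 = 15 ∨ 17 ≤ i.1 → c i = 0) {w : W5 K}
    (hw : w ∈ IS K) :
    Lt.h.op (fun v => ∑ i, c i * bas i v) w =
      ∑ j : Fin 20, (∑ i : Fin 20, c i * lev (qr K)⁻¹ ((matH.getD i []).getD j [])) * bas j w := by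
  have key : ∀ i : Fin 20, ¬ ((1 ≤ i.1 ∧ i.1 ≤ 5) ∨ i.1 = 15 ∨ 17 ≤ i.1) → Lt.h.op (bas i) w =
      ∑ j : Fin 20, lev (qr K)⁻¹ ((matH.getD i []).getD j []) * bas j w := by
    intro i hi
    fin_cases i
    · exact oph_row RH0 hw
    · exact absurd (by decide) hi
    · exact absurd (by decide) hi
    · exact absurd (by decide) hi
    · exact absurd (by decide) hi
    · exact absurd (by decide) hi
    · exact oph_row RH6 hw
    · exact oph_row RH7 hw
    · exact oph_row RH8 hw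
    · exact oph_row RH9 hw
    · exact oph_row RH10 hw
    · exact oph_row RH11 hw
    · exact oph_row RH12 hw
    · exact oph_row RH13 hw
    · exact oph_row RH14 hw
    · exact absurd (by decide) hi
    · exact oph_row RH16 hw
    · exact absurd (by decide) hi
    · exact absurd (by decide) hi
    · exact absurd (by decide) hi
  rw [op_comb]
  have hR : (∑ j : Fin 20, (∑ i : Fin 20, c i * lev (qr K)⁻¹ ((matH.getD i []).getD j [])) * bas j w) =
      ∑ i : Fin 20, c i * ∑ j : Fin 20, lev (qr K)⁻¹ ((matH.getD i []).getD j []) * bas j w := by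
    simp only [Finset.sum_mul, Finset.mul_sum, mul_assoc]
    exact Finset.sum_comm
  rw [hR]
  refine Finset.sum_congr rfl fun i _ => ?_
  by_cases hi : (1 ≤ i.1 ∧ i.1 ≤ 5) ∨ i.1 = 15 ∨ 17 ≤ i.1
  · rw [h i hi, zero_mul, zero_mul]
  · rw [key i hi]

end Pool.Agent.Pf4
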