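import Pool.Agent.Pf4.AAri

/-!
# The tables of the elementary operators
-/

set_option autoImplicit false
set_option maxRecDepth 10000

open scoped BigOperators Classical

namespace Pool.Agent.Pf4

variable {K : Type} [Field K] [Fintype K]

private theorem A_TA_zero {w : W5 K} (hw : w.Iso) (h0 : w ≠ 0) :
    (∑ y : K, if P3m y w = 0 then (1 : ℝ) else 0) = bas 14 w := by
  have h1 : ∀ y : K, (if P3m y w = 0 then (1 : ℝ) else 0) =
      if y = 0 then (if w.x1 = 0 ∧ w.x2 = 0 ∧ w.x4 = 0 then (1 : ℝ) else 0) else 0 := by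
    intro y
    have h2 := P3m_eq_zero (y := y) hw h0
    by_cases hy : y = 0
    · by_cases h3 : w.x1 = 0 ∧ w.x2 = 0 ∧ w.x4 = 0
      · rw [if_pos (h2.2 ⟨hy, h3⟩), if_pos hy, if_pos h3]
      · rw [if_neg (fun h => h3 (h2.1 h).2), if_pos hy, if_neg h3]
    · rw [if_neg (fun h => hy (h2.1 h).1), if_neg hy]
  rw [Finset.sum_congr rfl (fun y _ => h1 y), Finset.sum_ite_eq' Finset.univ (0 : K),
    if_pos (Finset.mem_univ _)]
  have e14 : bc 14 w ↔ w.x4 = 0 ∧ w.x1 = 0 ∧ w.x2 = 0 := Iff.rfl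
  rw [bas]
  by_cases h3 : w.x1 = 0 ∧ w.x2 = 0 ∧ w.x4 = 0
  · rw [if_pos h3, if_pos ⟨h0, e14.2 ⟨h3.2.2, h3.1, h3.2.1⟩⟩]
  · rw [if_neg h3, if_neg]
    rintro ⟨_, h4⟩
    obtain ⟨h5, h6, h7⟩ := e14.1 h4
    exact h3 ⟨h6, h7, h5⟩

private theorem A_TA_lin {w : W5 K} (hw : w.Iso) (h0 : w ≠ 0) (i : Fin 20) (α β : K)
    (h : ∀ y, bc i (P3m y w) ↔ y * α + β = 0) (hz : bc i (0 : W5 K)) :
    (∑ y : K, bas i (P3m y w)) = (if α = 0 then (if β = 0 then qr K else 0) else 1) - bas 14 w := by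
  have h1 : ∀ y : K, bas i (P3m y w) =
      (if y * α + β = 0 then (1 : ℝ) else 0) - (if P3m y w = 0 then (1 : ℝ) else 0) := by
    intro y
    by_cases h2 : P3m y w = 0
    · have h3 : y * α + β = 0 := (h y).1 (by rw [h2]; exact hz)
      rw [if_pos h2, if_pos h3, bas, if_neg (fun h4 => h4.1 h2)]
      norm_num
    · rw [if_neg h2, sub_zero, bas]
      by_cases h3 : y * α + β = 0
      · rw [if_pos h3, if_pos ⟨h2, (h y).2 h3⟩]
      · rw [if_neg h3, if_neg (fun h4 => h3 ((h y).1 h4.2))]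
  rw [Finset.sum_congr rfl (fun y _ => h1 y), Finset.sum_sub_distrib, card_lin, A_TA_zero hw h0]

omit [Fintype K] in
private theorem A_TA_bas {w : W5 K} (h0 : w ≠ 0) (i : Fin 20) :
    bas i w = if bc i w then (1 : ℝ) else 0 := by
  rw [bas]
  by_cases h : bc i w
  · rw [if_pos ⟨h0, h⟩, if_pos h]
  · rw [if_neg (fun h1 => h h1.2), if_neg h]

/-- MODULE TA.  `P3m y w = 0` for exactly one `y` if `w` is in `P3` (`bas 14`), for no `y` otherwise (`P3m_eq_zero`). -/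
theorem tP0 {w : W5 K} (hw : w.Iso) (h0 : w ≠ 0) :
    (∑ y : K, bas 0 (P3m y w)) = qr K * bas 0 w - bas 14 w := by
  rw [A_TA_lin hw h0 0 0 0 (fun y => by simp [bc]) (by simp [bc]), A_TA_bas h0 0]
  simp [bc]

/-- MODULE TA.  `(P3m y w).x0 = y * x0 + (x1 + x2)`: `card_lin`; by `Iso`, `x0 = 0 = x1 + x2` is `L3` (`bas 11`); subtract the zero vector (`bas 14`, one value of `y`). -/
theorem tP1 {w : W5 K} (hw : w.Iso) (h0 : w ≠ 0) :
    (∑ y : K, bas 1 (P3m y w)) = bas 0 w - bas 1 w + qr K * bas 11 w - bas 14 w := by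
  rw [A_TA_lin hw h0 1 w.x0 (w.x1 + w.x2) (fun y => by simp [bc, P3m, add_assoc]) rfl,
    A_TA_bas h0 0, A_TA_bas h0 1, A_TA_bas h0 11]
  have e0 : bc 0 w ↔ True := Iff.rfl
  have e1 : bc 1 w ↔ w.x0 = 0 := Iff.rfl
  have e11 : bc 11 w ↔ w.x0 = 0 ∧ w.x1 = 0 ∧ w.x2 = 0 := Iff.rfl
  simp only [e0, e1, e11, if_true]
  unfold W5.Iso at hw
  by_cases h1 : w.x0 = 0
  · simp only [h1, if_true, true_and]
    by_cases h2 : w.x1 + w.x2 = 0
    · have h3 : w.x1 * w.x2 = 0 := by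
        rw [h1, zero_mul] at hw
        linear_combination (-1 : K) * hw - w.x3 * h2
      have h4 : w.x1 = 0 ∧ w.x2 = 0 := by
        rcases mul_eq_zero.1 h3 with h5 | h5
        · exact ⟨h5, by rw [h5, zero_add] at h2; exact h2⟩
        · exact ⟨by rw [h5, add_zero] at h2; exact h2, h5⟩
      rw [if_pos h2, if_pos h4]
      ring
    · rw [if_neg h2, if_neg (fun h4 => h2 (by rw [h4.1, h4.2, add_zero]))]
      ring
  · rw [if_neg h1, if_neg h1, if_neg (fun h => h1 h.1)]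
    ring

/-- MODULE TA.  `(P3m y w).x4 = y * x4`; subtract the zero vector. -/
theorem tP2 {w : W5 K} (hw : w.Iso) (h0 : w ≠ 0) :
    (∑ y : K, bas 2 (P3m y w)) = bas 0 w + (qr K - 1) * bas 2 w - bas 14 w := by
  rw [A_TA_lin hw h0 2 w.x4 0 (fun y => by simp [bc, P3m]) rfl, A_TA_bas h0 0, A_TA_bas h0 2]
  have e0 : bc 0 w ↔ True := Iff.rfl
  have e2 : bc 2 w ↔ w.x4 = 0 := Iff.rfl
  simp only [e0, e2, if_true]
  by_cases h1 : w.x4 = 0
  · rw [if_pos h1, if_pos h1]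
    ring
  · rw [if_neg h1, if_neg h1]
    ring

/-- MODULE TA.  `(P3m y w).x1 = y * x1`; subtract the zero vector. -/
theorem tP3 {w : W5 K} (hw : w.Iso) (h0 : w ≠ 0) :
    (∑ y : K, bas 3 (P3m y w)) = bas 0 w + (qr K - 1) * bas 3 w - bas 14 w := by
  rw [A_TA_lin hw h0 3 w.x1 0 (fun y => by simp [bc, P3m]) rfl, A_TA_bas h0 0, A_TA_bas h0 3]
  have e0 : bc 0 w ↔ True := Iff.rfl
  have e2 : bc 3 w ↔ w.x1 = 0 := Iff.rfl
  simp only [e0, e2, if_true]
  by_cases h1 : w.x1 = 0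
  · rw [if_pos h1, if_pos h1]
    ring
  · rw [if_neg h1, if_neg h1]
    ring

/-- MODULE TA.  `(P3m y w).x2 = y * x2`; subtract the zero vector. -/
theorem tP4 {w : W5 K} (hw : w.Iso) (h0 : w ≠ 0) :
    (∑ y : K, bas 4 (P3m y w)) = bas 0 w + (qr K - 1) * bas 4 w - bas 14 w := by
  rw [A_TA_lin hw h0 4 w.x2 0 (fun y => by simp [bc, P3m]) rfl, A_TA_bas h0 0, A_TA_bas h0 4]
  have e0 : bc 0 w ↔ True := Iff.rfl
  have e2 : bc 4 w ↔ w.x2 = 0 := Iff.rfl
  simp only [e0, e2, if_true]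
  by_cases h1 : w.x2 = 0
  · rw [if_pos h1, if_pos h1]
    ring
  · rw [if_neg h1, if_neg h1]
    ring

/-- MODULE TB.  `(P3m y w).x3 = y * x3 + x4`: `card_lin`; by `Iso`, `x3 = 0 = x4` means `x1 * x2 = 0`, that is `P1` or `P2`, and both mean `dF`; subtract the zero vector. -/
theorem tP5 {w : W5 K} (hw : w.Iso) (h0 : w ≠ 0) :
    (∑ y : K, bas 5 (P3m y w)) = bas 0 w - bas 5 w + qr K * bas 12 w + qr K * bas 13 w - bas 14 w - qr K * bas 15 w := by
  rw [A_TA_lin hw h0 5 w.x3 w.x4 (fun y => by simp [bc, P3m]) rfl, A_TA_bas h0 0, A_TA_bas h0 5,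
    A_TA_bas h0 12, A_TA_bas h0 13, A_TA_bas h0 15]
  have e0 : bc 0 w ↔ True := Iff.rfl
  have e5 : bc 5 w ↔ w.x3 = 0 := Iff.rfl
  have e12 : bc 12 w ↔ w.x4 = 0 ∧ w.x2 = 0 ∧ w.x3 = 0 := Iff.rfl
  have e13 : bc 13 w ↔ w.x4 = 0 ∧ w.x1 = 0 ∧ w.x3 = 0 := Iff.rfl
  have e15 : bc 15 w ↔ w.x1 = 0 ∧ w.x2 = 0 ∧ w.x3 = 0 ∧ w.x4 = 0 := Iff.rfl
  simp only [e0, e5, e12, e13, e15, if_true]
  unfold W5.Iso at hw
  by_cases h3 : w.x3 = 0
  · by_cases h4 : w.x4 = 0
    · have h5 : w.x1 * w.x2 = 0 := by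
        rw [h3, h4, mul_zero, mul_zero, mul_zero, add_zero, add_zero] at hw
        exact hw.symm
      rcases mul_eq_zero.1 h5 with h1 | h2
      · by_cases h2 : w.x2 = 0
        · simp only [h1, h2, h3, h4, if_true, and_self]
          ring
        · simp [h1, h2, h3, h4]
      · by_cases h1 : w.x1 = 0
        · simp only [h1, h2, h3, h4, if_true, and_self]
          ring
        · simp [h1, h2, h3, h4]
    · simp [h3, h4]
  · simp [h3]

/-- MODULE TB.  `x2 + x3` of `P3m y w` is `y * (x2 + x3) + x4`; by `Iso`, `x2 + x3 = 0 = x4` means `x2 = x3 = x4 = 0` (`P1`); subtract the zero vector. -/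
theorem tP6 {w : W5 K} (hw : w.Iso) (h0 : w ≠ 0) :
    (∑ y : K, bas 6 (P3m y w)) = bas 0 w - bas 6 w + qr K * bas 12 w - bas 14 w := by
  rw [A_TA_lin hw h0 6 (w.x2 + w.x3) w.x4 (fun y => by
      have e : bc 6 (P3m y w) ↔ y * w.x2 + (y * w.x3 + w.x4) = 0 := Iff.rfl
      rw [e, mul_add, add_assoc]) (by simp [bc]; exact add_zero _),
    A_TA_bas h0 0, A_TA_bas h0 6, A_TA_bas h0 12]
  have e0 : bc 0 w ↔ True := Iff.rfl
  have e6 : bc 6 w ↔ w.x2 + w.x3 = 0 := Iff.rfl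
  have e12 : bc 12 w ↔ w.x4 = 0 ∧ w.x2 = 0 ∧ w.x3 = 0 := Iff.rfl
  simp only [e0, e6, e12, if_true]
  unfold W5.Iso at hw
  by_cases h1 : w.x2 + w.x3 = 0
  · rw [if_pos h1, if_pos h1]
    by_cases h4 : w.x4 = 0
    · have h3 : w.x2 * w.x3 = 0 := by
        rw [h4, mul_zero] at hw
        linear_combination (-1 : K) * hw - w.x1 * h1
      have h5 : w.x2 = 0 ∧ w.x3 = 0 := by
        rcases mul_eq_zero.1 h3 with h5 | h5
        · exact ⟨h5, by rw [h5, zero_add] at h1; exact h1⟩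
        · exact ⟨by rw [h5, add_zero] at h1; exact h1, h5⟩
      rw [if_pos h4, if_pos ⟨h4, h5⟩]
      ring
    · rw [if_neg h4, if_neg (fun h => h4 h.1)]
      ring
  · rw [if_neg h1, if_neg h1, if_neg (fun h => h1 (by rw [h.2.1, h.2.2, add_zero]))]
    ring

/-- MODULE TB.  `x1 + x3` of `P3m y w` is `y * (x1 + x3) + x4`; by `Iso`, `x1 + x3 = 0 = x4` means `P2`; subtract the zero vector. -/
theorem tP7 {w : W5 K} (hw : w.Iso) (h0 : w ≠ 0) :
    (∑ y : K, bas 7 (P3m y w)) = bas 0 w - bas 7 w + qr K * bas 13 w - bas 14 w := by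
  rw [A_TA_lin hw h0 7 (w.x1 + w.x3) w.x4 (fun y => by
      have e : bc 7 (P3m y w) ↔ y * w.x1 + (y * w.x3 + w.x4) = 0 := Iff.rfl
      rw [e, mul_add, add_assoc]) (by simp [bc]; exact add_zero _),
    A_TA_bas h0 0, A_TA_bas h0 7, A_TA_bas h0 13]
  have e0 : bc 0 w ↔ True := Iff.rfl
  have e7 : bc 7 w ↔ w.x1 + w.x3 = 0 := Iff.rfl
  have e13 : bc 13 w ↔ w.x4 = 0 ∧ w.x1 = 0 ∧ w.x3 = 0 := Iff.rfl
  simp only [e0, e7, e13, if_true]
  unfold W5.Iso at hw
  by_cases h1 : w.x1 + w.x3 = 0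
  · rw [if_pos h1, if_pos h1]
    by_cases h4 : w.x4 = 0
    · have h3 : w.x1 * w.x3 = 0 := by
        rw [h4, mul_zero] at hw
        linear_combination (-1 : K) * hw - w.x2 * h1
      have h5 : w.x1 = 0 ∧ w.x3 = 0 := by
        rcases mul_eq_zero.1 h3 with h5 | h5
        · exact ⟨h5, by rw [h5, zero_add] at h1; exact h1⟩
        · exact ⟨by rw [h5, add_zero] at h1; exact h1, h5⟩
      rw [if_pos h4, if_pos ⟨h4, h5⟩]
      ring
    · rw [if_neg h4, if_neg (fun h => h4 h.1)]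
      ring
  · rw [if_neg h1, if_neg h1, if_neg (fun h => h1 (by rw [h.2.1, h.2.2, add_zero]))]
    ring

/-- MODULE TA.  `x1 + x2` of `P3m y w` is `y * (x1 + x2)`; subtract the zero vector. -/
theorem tP8 {w : W5 K} (hw : w.Iso) (h0 : w ≠ 0) :
    (∑ y : K, bas 8 (P3m y w)) = bas 0 w + (qr K - 1) * bas 8 w - bas 14 w := by
  rw [A_TA_lin hw h0 8 (w.x1 + w.x2) 0 (fun y => by
      have e : bc 8 (P3m y w) ↔ y * w.x1 + y * w.x2 = 0 := Iff.rfl
      rw [e, mul_add, add_zero]) (by simp [bc]; exact add_zero _),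
    A_TA_bas h0 0, A_TA_bas h0 8]
  have e0 : bc 0 w ↔ True := Iff.rfl
  have e8 : bc 8 w ↔ w.x1 + w.x2 = 0 := Iff.rfl
  simp only [e0, e8, if_true]
  by_cases h1 : w.x1 + w.x2 = 0
  · rw [if_pos h1, if_pos h1]
    ring
  · rw [if_neg h1, if_neg h1]
    ring

omit [Fintype K] in
private theorem A_TC_bas {w : W5 K} (h0 : w ≠ 0) (i : Fin 20) :
    bas i w = if bc i w then (1 : ℝ) else 0 := by
  rw [bas]
  by_cases h : bc i w
  · rw [if_pos ⟨h0, h⟩, if_pos h]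
  · rw [if_neg (fun h1 => h h1.2), if_neg h]

private theorem A_TC_ne {w : W5 K} (hw : w.Iso) (h0 : w ≠ 0) {y : K} (hy : y ≠ 0) : P3m y w ≠ 0 := by
  intro h
  exact hy ((P3m_eq_zero hw h0).1 h).1

private theorem A_TC_z {w : W5 K} (hw : w.Iso) (h0 : w ≠ 0) :
    P3m 0 w ≠ 0 ↔ ¬ (w.x1 = 0 ∧ w.x2 = 0 ∧ w.x4 = 0) := by
  rw [ne_eq, P3m_eq_zero hw h0]
  constructor
  · intro h h1
    exact h ⟨rfl, h1⟩
  · intro h h1
    exact h h1.2

private theorem A_TC_b0 {w : W5 K} (hw : w.Iso) (h0 : w ≠ 0) (i : Fin 20) {Q : Prop}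
    (hQ : bc i (P3m 0 w) ↔ Q) :
    bas i (P3m 0 w) = if ¬ (w.x1 = 0 ∧ w.x2 = 0 ∧ w.x4 = 0) ∧ Q then (1 : ℝ) else 0 := by
  rw [bas]
  by_cases h : P3m 0 w ≠ 0 ∧ bc i (P3m 0 w)
  · rw [if_pos h, if_pos ⟨(A_TC_z hw h0).1 h.1, hQ.1 h.2⟩]
  · rw [if_neg h, if_neg (fun h1 => h ⟨(A_TC_z hw h0).2 h1.1, hQ.2 h1.2⟩)]

private theorem A_TC_two (f : K → ℝ) {A B : ℝ} (hA : f 0 = A) (hB : ∀ y, y ≠ 0 → f y = B) :
    (∑ y : K, f y) = A + (qr K - 1) * B := by
  have h : ∀ y : K, f y = B + if y = 0 then A - B else 0 := by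
    intro y
    by_cases hy : y = 0
    · rw [if_pos hy, hy, hA]
      ring
    · rw [if_neg hy, hB y hy, add_zero]
  rw [Finset.sum_congr rfl (fun y _ => h y), Finset.sum_add_distrib, Finset.sum_const,
    Finset.sum_ite_eq' Finset.univ (0 : K), if_pos (Finset.mem_univ _), nsmul_eq_mul,
    Finset.card_univ, qr]
  ring

private theorem A_TC_one (i : Fin 20) (w : W5 K) (y0 : K)
    (h : ∀ y, (P3m y w ≠ 0 ∧ bc i (P3m y w)) ↔ y = y0) : (∑ y : K, bas i (P3m y w)) = 1 := by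
  have h1 : ∀ y : K, bas i (P3m y w) = if y = y0 then (1 : ℝ) else 0 := by
    intro y
    rw [bas]
    by_cases hy : y = y0
    · rw [if_pos hy, if_pos ((h y).2 hy)]
    · rw [if_neg hy, if_neg (fun h2 => hy ((h y).1 h2))]
  rw [Finset.sum_congr rfl (fun y _ => h1 y), Finset.sum_ite_eq' Finset.univ y0,
    if_pos (Finset.mem_univ _)]

private theorem A_TC_none (i : Fin 20) (w : W5 K)
    (h : ∀ y, ¬ (P3m y w ≠ 0 ∧ bc i (P3m y w))) : (∑ y : K, bas i (P3m y w)) = 0 := by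
  refine Finset.sum_eq_zero fun y _ => ?_
  rw [bas, if_neg (h y)]

omit [Fintype K] in
private theorem A_TC_x34 {w : W5 K} (h0 : w ≠ 0) (e0 : w.x0 = 0) (e1 : w.x1 = 0) (e2 : w.x2 = 0) :
    ¬ (w.x3 = 0 ∧ w.x4 = 0) := by
  rintro ⟨e3, e4⟩
  exact h0 (W5.ext e0 e1 e2 e3 e4)

/-- MODULE TC.  The conditions are `y * x0 + x1 + x2 = 0`, `y * x2 = 0`, `y * x3 + x4 = 0` and `P3m y w ≠ 0`, so `y ≠ 0` and `x2 = 0`, `x0 * x4 = x1 * x3`.  If `x0 ≠ 0`: `y = -x1 / x0`, one solution iff `x1 ≠ 0`; if `x0 = 0`: `x1 = 0` and `y * x3 = -x4`, one solution iff `x3 ≠ 0` and `x4 ≠ 0`.  Compare in the cases. -/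
theorem tP9 {w : W5 K} (hw : w.Iso) (h0 : w ≠ 0) :
    (∑ y : K, bas 9 (P3m y w)) = bas 4 w - bas 9 w - bas 14 w := by
  have k9 : ∀ y : K, bc 9 (P3m y w) ↔ y * w.x0 + w.x1 + w.x2 = 0 ∧ y * w.x2 = 0 ∧ y * w.x3 + w.x4 = 0 :=
    fun y => Iff.rfl
  rw [A_TC_bas h0 4, A_TC_bas h0 9, A_TC_bas h0 14]
  have e4 : bc 4 w ↔ w.x2 = 0 := Iff.rfl
  have e9 : bc 9 w ↔ w.x0 = 0 ∧ w.x2 = 0 ∧ w.x3 = 0 := Iff.rfl
  have e14 : bc 14 w ↔ w.x4 = 0 ∧ w.x1 = 0 ∧ w.x2 = 0 := Iff.rfl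
  simp only [e4, e9, e14]
  have hi : w.x0 * w.x4 = w.x1 * w.x2 + w.x1 * w.x3 + w.x2 * w.x3 := hw
  have hy0 : ∀ y : K, P3m y w ≠ 0 ∧ bc 9 (P3m y w) → y ≠ 0 := by
    rintro y ⟨h1, h2⟩ rfl
    rw [k9] at h2
    obtain ⟨h3, _, h5⟩ := h2
    rw [zero_mul, zero_add] at h3 h5
    have h6 : w.x1 * w.x2 = 0 := by
      rw [h5, mul_zero] at hi
      linear_combination (-1 : K) * hi - w.x3 * h3
    refine (A_TC_z hw h0).1 h1 ?_
    rcases mul_eq_zero.1 h6 with h7 | h7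
    · exact ⟨h7, by rw [h7, zero_add] at h3; exact h3, h5⟩
    · exact ⟨by rw [h7, add_zero] at h3; exact h3, h7, h5⟩
  by_cases h2 : w.x2 = 0
  · rw [h2, mul_zero, zero_mul, zero_add, add_zero] at hi
    by_cases hx0 : w.x0 = 0
    · by_cases h1 : w.x1 = 0
      · have h34 := A_TC_x34 h0 hx0 h1 h2
        by_cases h3 : w.x3 = 0
        · rw [A_TC_none 9 w, if_pos h2, if_pos ⟨hx0, h2, h3⟩, if_neg (fun h => h34 ⟨h3, h.1⟩)]
          · ring
          · rintro y ⟨_, h5⟩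
            rw [k9, h3, mul_zero, zero_add] at h5
            exact h34 ⟨h3, h5.2.2⟩
        · by_cases h4 : w.x4 = 0
          · rw [A_TC_none 9 w, if_pos h2, if_neg (fun h => h3 h.2.2), if_pos ⟨h4, h1, h2⟩]
            · ring
            · intro y h5
              have h6 := hy0 y h5
              have h7 := (k9 y).1 h5.2
              rw [h4, add_zero] at h7
              exact (mul_ne_zero h6 h3) h7.2.2
          · rw [A_TC_one 9 w (-w.x4 / w.x3), if_pos h2, if_neg (fun h => h3 h.2.2),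
              if_neg (fun h => h4 h.1)]
            · ring
            · intro y
              constructor
              · rintro ⟨_, h5⟩
                have h7 := ((k9 y).1 h5).2.2
                rw [eq_div_iff h3]
                linear_combination h7
              · rintro rfl
                refine ⟨A_TC_ne hw h0 (div_ne_zero (neg_ne_zero.2 h4) h3), (k9 _).2 ⟨?_, ?_, ?_⟩⟩
                · rw [hx0, h1, h2]
                  ring
                · rw [h2, mul_zero]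
                · rw [div_mul_cancel₀ _ h3]
                  ring
      · have h3 : w.x3 = 0 := by
          rw [hx0, zero_mul] at hi
          rcases mul_eq_zero.1 hi.symm with h | h
          · exact absurd h h1
          · exact h
        rw [A_TC_none 9 w, if_pos h2, if_pos ⟨hx0, h2, h3⟩, if_neg (fun h => h1 h.2.1)]
        · ring
        · rintro y ⟨_, h5⟩
          rw [k9, hx0, h2, mul_zero, zero_add, add_zero] at h5
          exact h1 h5.1
    · by_cases h1 : w.x1 = 0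
      · have h4 : w.x4 = 0 := by
          rw [h1, zero_mul] at hi
          rcases mul_eq_zero.1 hi with h | h
          · exact absurd h hx0
          · exact h
        rw [A_TC_none 9 w, if_pos h2, if_neg (fun h => hx0 h.1), if_pos ⟨h4, h1, h2⟩]
        · ring
        · intro y h5
          have h6 := hy0 y h5
          have h7 := ((k9 y).1 h5.2).1
          rw [h1, h2, add_zero, add_zero] at h7
          exact (mul_ne_zero h6 hx0) h7
      · rw [A_TC_one 9 w (-w.x1 / w.x0), if_pos h2, if_neg (fun h => hx0 h.1), if_neg (fun h => h1 h.2.1)]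
        · ring
        · intro y
          constructor
          · rintro ⟨_, h5⟩
            have h7 := ((k9 y).1 h5).1
            rw [eq_div_iff hx0]
            rw [h2, add_zero] at h7
            linear_combination h7
          · rintro rfl
            refine ⟨A_TC_ne hw h0 (div_ne_zero (neg_ne_zero.2 h1) hx0), (k9 _).2 ⟨?_, ?_, ?_⟩⟩
            · rw [div_mul_cancel₀ _ hx0, h2]
              ring
            · rw [h2, mul_zero]
            · rw [div_mul_eq_mul_div, div_add' _ _ _ hx0, div_eq_zero_iff]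
              left
              linear_combination hi
  · rw [A_TC_none 9 w, if_neg h2, if_neg (fun h => h2 h.2.1), if_neg (fun h => h2 h.2.2)]
    · ring
    · intro y h5
      exact (mul_ne_zero (hy0 y h5) h2) ((k9 y).1 h5.2).2.1

/-- MODULE TC.  As the row 9, with `x1` and `x2` exchanged. -/
theorem tP10 {w : W5 K} (hw : w.Iso) (h0 : w ≠ 0) :
    (∑ y : K, bas 10 (P3m y w)) = bas 3 w - bas 10 w - bas 14 w := by
  have k9 : ∀ y : K, bc 10 (P3m y w) ↔ y * w.x0 + w.x1 + w.x2 = 0 ∧ y * w.x1 = 0 ∧ y * w.x3 + w.x4 = 0 :=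
    fun y => Iff.rfl
  rw [A_TC_bas h0 3, A_TC_bas h0 10, A_TC_bas h0 14]
  have e4 : bc 3 w ↔ w.x1 = 0 := Iff.rfl
  have e9 : bc 10 w ↔ w.x0 = 0 ∧ w.x1 = 0 ∧ w.x3 = 0 := Iff.rfl
  have e14 : bc 14 w ↔ w.x4 = 0 ∧ w.x1 = 0 ∧ w.x2 = 0 := Iff.rfl
  simp only [e4, e9, e14]
  have hi : w.x0 * w.x4 = w.x1 * w.x2 + w.x1 * w.x3 + w.x2 * w.x3 := hw
  have hy0 : ∀ y : K, P3m y w ≠ 0 ∧ bc 10 (P3m y w) → y ≠ 0 := by
    rintro y ⟨h1, h2⟩ rfl
    rw [k9] at h2
    obtain ⟨h3, _, h5⟩ := h2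
    rw [zero_mul, zero_add] at h3 h5
    have h6 : w.x1 * w.x2 = 0 := by
      rw [h5, mul_zero] at hi
      linear_combination (-1 : K) * hi - w.x3 * h3
    refine (A_TC_z hw h0).1 h1 ?_
    rcases mul_eq_zero.1 h6 with h7 | h7
    · exact ⟨h7, by rw [h7, zero_add] at h3; exact h3, h5⟩
    · exact ⟨by rw [h7, add_zero] at h3; exact h3, h7, h5⟩
  by_cases h1 : w.x1 = 0
  · rw [h1, zero_mul, zero_mul, add_zero, zero_add] at hi
    by_cases hx0 : w.x0 = 0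
    · by_cases h2 : w.x2 = 0
      · have h34 := A_TC_x34 h0 hx0 h1 h2
        by_cases h3 : w.x3 = 0
        · rw [A_TC_none 10 w, if_pos h1, if_pos ⟨hx0, h1, h3⟩, if_neg (fun h => h34 ⟨h3, h.1⟩)]
          · ring
          · rintro y ⟨_, h5⟩
            rw [k9, h3, mul_zero, zero_add] at h5
            exact h34 ⟨h3, h5.2.2⟩
        · by_cases h4 : w.x4 = 0
          · rw [A_TC_none 10 w, if_pos h1, if_neg (fun h => h3 h.2.2), if_pos ⟨h4, h1, h2⟩]
            · ring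
            · intro y h5
              have h6 := hy0 y h5
              have h7 := (k9 y).1 h5.2
              rw [h4, add_zero] at h7
              exact (mul_ne_zero h6 h3) h7.2.2
          · rw [A_TC_one 10 w (-w.x4 / w.x3), if_pos h1, if_neg (fun h => h3 h.2.2),
              if_neg (fun h => h4 h.1)]
            · ring
            · intro y
              constructor
              · rintro ⟨_, h5⟩
                have h7 := ((k9 y).1 h5).2.2
                rw [eq_div_iff h3]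
                linear_combination h7
              · rintro rfl
                refine ⟨A_TC_ne hw h0 (div_ne_zero (neg_ne_zero.2 h4) h3), (k9 _).2 ⟨?_, ?_, ?_⟩⟩
                · rw [hx0, h1, h2]
                  ring
                · rw [h1, mul_zero]
                · rw [div_mul_cancel₀ _ h3]
                  ring
      · have h3 : w.x3 = 0 := by
          rw [hx0, zero_mul] at hi
          rcases mul_eq_zero.1 hi.symm with h | h
          · exact absurd h h2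
          · exact h
        rw [A_TC_none 10 w, if_pos h1, if_pos ⟨hx0, h1, h3⟩, if_neg (fun h => h2 h.2.2)]
        · ring
        · rintro y ⟨_, h5⟩
          rw [k9, hx0, h1, mul_zero, zero_add, zero_add] at h5
          exact h2 h5.1
    · by_cases h2 : w.x2 = 0
      · have h4 : w.x4 = 0 := by
          rw [h2, zero_mul] at hi
          rcases mul_eq_zero.1 hi with h | h
          · exact absurd h hx0
          · exact h
        rw [A_TC_none 10 w, if_pos h1, if_neg (fun h => hx0 h.1), if_pos ⟨h4, h1, h2⟩]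
        · ring
        · intro y h5
          have h6 := hy0 y h5
          have h7 := ((k9 y).1 h5.2).1
          rw [h1, h2, add_zero, add_zero] at h7
          exact (mul_ne_zero h6 hx0) h7
      · rw [A_TC_one 10 w (-w.x2 / w.x0), if_pos h1, if_neg (fun h => hx0 h.1), if_neg (fun h => h2 h.2.2)]
        · ring
        · intro y
          constructor
          · rintro ⟨_, h5⟩
            have h7 := ((k9 y).1 h5).1
            rw [eq_div_iff hx0]
            rw [h1, add_zero] at h7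
            linear_combination h7
          · rintro rfl
            refine ⟨A_TC_ne hw h0 (div_ne_zero (neg_ne_zero.2 h2) hx0), (k9 _).2 ⟨?_, ?_, ?_⟩⟩
            · rw [div_mul_cancel₀ _ hx0, h1]
              ring
            · rw [h1, mul_zero]
            · rw [div_mul_eq_mul_div, div_add' _ _ _ hx0, div_eq_zero_iff]
              left
              linear_combination hi
  · rw [A_TC_none 10 w, if_neg h1, if_neg (fun h => h1 h.2.1), if_neg (fun h => h1 h.2.1)]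
    · ring
    · intro y h5
      exact (mul_ne_zero (hy0 y h5) h1) ((k9 y).1 h5.2).2.1

/-- MODULE TC.  The conditions are `y * x0 + x1 + x2 = 0`, `y * x1 = 0`, `y * x2 = 0`, `P3m y w ≠ 0`.  For `y ≠ 0`: `x1 = x2 = 0` and `x0 = 0` (`L3`); for `y = 0`: `x1 + x2 = 0` (`s3`), without `P3`. -/
theorem tP11 {w : W5 K} (hw : w.Iso) (h0 : w ≠ 0) :
    (∑ y : K, bas 11 (P3m y w)) = bas 8 w + (qr K - 1) * bas 11 w - bas 14 w := by
  rw [A_TC_two (fun y => bas 11 (P3m y w)) (A := bas 8 w - bas 14 w) (B := bas 11 w)]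
  · ring
  · show bas 11 (P3m 0 w) = bas 8 w - bas 14 w
    have k : bc 11 (P3m 0 w) ↔ 0 * w.x0 + w.x1 + w.x2 = 0 ∧ 0 * w.x1 = 0 ∧ 0 * w.x2 = 0 := Iff.rfl
    rw [A_TC_b0 hw h0 11 k, A_TC_bas h0 8, A_TC_bas h0 14]
    have e8 : bc 8 w ↔ w.x1 + w.x2 = 0 := Iff.rfl
    have e14 : bc 14 w ↔ w.x4 = 0 ∧ w.x1 = 0 ∧ w.x2 = 0 := Iff.rfl
    simp only [e8, e14, zero_mul, zero_add, and_true]
    by_cases h1 : w.x1 + w.x2 = 0
    · by_cases h2 : w.x4 = 0 ∧ w.x1 = 0 ∧ w.x2 = 0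
      · rw [if_neg (fun h => h.1 ⟨h2.2.1, h2.2.2, h2.1⟩), if_pos h1, if_pos h2]
        ring
      · rw [if_pos ⟨fun h => h2 ⟨h.2.2, h.1, h.2.1⟩, h1⟩, if_pos h1, if_neg h2]
        ring
    · rw [if_neg (fun h => h1 h.2), if_neg h1, if_neg (fun h => h1 (by rw [h.2.1, h.2.2, add_zero]))]
      ring
  · intro y hy
    show bas 11 (P3m y w) = bas 11 w
    have k : bc 11 (P3m y w) ↔ bc 11 w := by
      have k1 : bc 11 (P3m y w) ↔ y * w.x0 + w.x1 + w.x2 = 0 ∧ y * w.x1 = 0 ∧ y * w.x2 = 0 := Iff.rfl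
      have k2 : bc 11 w ↔ w.x0 = 0 ∧ w.x1 = 0 ∧ w.x2 = 0 := Iff.rfl
      rw [k1, k2]
      constructor
      · rintro ⟨h1, h2, h3⟩
        have h4 := (mul_eq_zero.1 h2).resolve_left hy
        have h5 := (mul_eq_zero.1 h3).resolve_left hy
        rw [h4, h5, add_zero, add_zero] at h1
        exact ⟨(mul_eq_zero.1 h1).resolve_left hy, h4, h5⟩
      · rintro ⟨h1, h2, h3⟩
        rw [h1, h2, h3]
        simp
    rw [A_TC_bas (A_TC_ne hw h0 hy), A_TC_bas h0]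
    simp only [k]

omit [Fintype K] in
private theorem A_TD_aux (w : W5 K) {P : Prop} (hP : P ↔ w.x4 = 0) :
    (if ¬ (w.x1 = 0 ∧ w.x2 = 0 ∧ w.x4 = 0) ∧ P then (1 : ℝ) else 0) =
      (if bc 2 w then 1 else 0) - if bc 14 w then 1 else 0 := by
  have e2 : bc 2 w ↔ w.x4 = 0 := Iff.rfl
  have e14 : bc 14 w ↔ w.x4 = 0 ∧ w.x1 = 0 ∧ w.x2 = 0 := Iff.rfl
  simp only [hP, e2, e14]
  by_cases h4 : w.x4 = 0
  · by_cases h2 : w.x1 = 0 ∧ w.x2 = 0
    · rw [if_neg (fun h => h.1 ⟨h2.1, h2.2, h4⟩), if_pos h4, if_pos ⟨h4, h2⟩]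
      ring
    · rw [if_pos ⟨fun h => h2 ⟨h.1, h.2.1⟩, h4⟩, if_pos h4, if_neg (fun h => h2 h.2)]
      ring
  · rw [if_neg (fun h => h4 h.2), if_neg h4, if_neg (fun h => h4 h.1)]
    ring

/-- MODULE TD.  The conditions are `y * x4 = 0`, `y * x2 = 0`, `y * x3 + x4 = 0`.  For `y = 0`: `x4 = 0` without the zero vector; for `y ≠ 0`: `x4 = x2 = x3 = 0` (`P1`). -/
theorem tP12 {w : W5 K} (hw : w.Iso) (h0 : w ≠ 0) :
    (∑ y : K, bas 12 (P3m y w)) = bas 2 w + (qr K - 1) * bas 12 w - bas 14 w := by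
  rw [A_TC_two (fun y => bas 12 (P3m y w)) (A := bas 2 w - bas 14 w) (B := bas 12 w)]
  · ring
  · show bas 12 (P3m 0 w) = bas 2 w - bas 14 w
    have k : bc 12 (P3m 0 w) ↔ 0 * w.x4 = 0 ∧ 0 * w.x2 = 0 ∧ 0 * w.x3 + w.x4 = 0 := Iff.rfl
    rw [A_TC_b0 hw h0 12 k, A_TC_bas h0 2, A_TC_bas h0 14]
    exact A_TD_aux w (by simp)
  · intro y hy
    show bas 12 (P3m y w) = bas 12 w
    have k : bc 12 (P3m y w) ↔ bc 12 w := by
      have k1 : bc 12 (P3m y w) ↔ y * w.x4 = 0 ∧ y * w.x2 = 0 ∧ y * w.x3 + w.x4 = 0 := Iff.rfl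
      have k2 : bc 12 w ↔ w.x4 = 0 ∧ w.x2 = 0 ∧ w.x3 = 0 := Iff.rfl
      rw [k1, k2]
      constructor
      · rintro ⟨h1, h2, h3⟩
        have h4 := (mul_eq_zero.1 h1).resolve_left hy
        rw [h4, add_zero] at h3
        exact ⟨h4, (mul_eq_zero.1 h2).resolve_left hy, (mul_eq_zero.1 h3).resolve_left hy⟩
      · rintro ⟨h1, h2, h3⟩
        rw [h1, h2, h3]
        simp
    rw [A_TC_bas (A_TC_ne hw h0 hy), A_TC_bas h0]
    simp only [k]

/-- MODULE TD.  As the row 12 with `x1` instead of `x2`. -/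
theorem tP13 {w : W5 K} (hw : w.Iso) (h0 : w ≠ 0) :
    (∑ y : K, bas 13 (P3m y w)) = bas 2 w + (qr K - 1) * bas 13 w - bas 14 w := by
  rw [A_TC_two (fun y => bas 13 (P3m y w)) (A := bas 2 w - bas 14 w) (B := bas 13 w)]
  · ring
  · show bas 13 (P3m 0 w) = bas 2 w - bas 14 w
    have k : bc 13 (P3m 0 w) ↔ 0 * w.x4 = 0 ∧ 0 * w.x1 = 0 ∧ 0 * w.x3 + w.x4 = 0 := Iff.rfl
    rw [A_TC_b0 hw h0 13 k, A_TC_bas h0 2, A_TC_bas h0 14]
    exact A_TD_aux w (by simp)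
  · intro y hy
    show bas 13 (P3m y w) = bas 13 w
    have k : bc 13 (P3m y w) ↔ bc 13 w := by
      have k1 : bc 13 (P3m y w) ↔ y * w.x4 = 0 ∧ y * w.x1 = 0 ∧ y * w.x3 + w.x4 = 0 := Iff.rfl
      have k2 : bc 13 w ↔ w.x4 = 0 ∧ w.x1 = 0 ∧ w.x3 = 0 := Iff.rfl
      rw [k1, k2]
      constructor
      · rintro ⟨h1, h2, h3⟩
        have h4 := (mul_eq_zero.1 h1).resolve_left hy
        rw [h4, add_zero] at h3
        exact ⟨h4, (mul_eq_zero.1 h2).resolve_left hy, (mul_eq_zero.1 h3).resolve_left hy⟩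
      · rintro ⟨h1, h2, h3⟩
        rw [h1, h2, h3]
        simp
    rw [A_TC_bas (A_TC_ne hw h0 hy), A_TC_bas h0]
    simp only [k]

/-- MODULE TD.  The conditions are `y * x4 = 0`, `y * x1 = 0`, `y * x2 = 0`.  For `y = 0` no condition, without the zero vector (`P3`); for `y ≠ 0`: `P3`. -/
theorem tP14 {w : W5 K} (hw : w.Iso) (h0 : w ≠ 0) :
    (∑ y : K, bas 14 (P3m y w)) = bas 0 w + (qr K - 2) * bas 14 w := by
  rw [A_TC_two (fun y => bas 14 (P3m y w)) (A := bas 0 w - bas 14 w) (B := bas 14 w)]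
  · ring
  · show bas 14 (P3m 0 w) = bas 0 w - bas 14 w
    have k : bc 14 (P3m 0 w) ↔ 0 * w.x4 = 0 ∧ 0 * w.x1 = 0 ∧ 0 * w.x2 = 0 := Iff.rfl
    have e0 : bc 0 w ↔ True := Iff.rfl
    have e14 : bc 14 w ↔ w.x4 = 0 ∧ w.x1 = 0 ∧ w.x2 = 0 := Iff.rfl
    rw [A_TC_b0 hw h0 14 k, A_TC_bas h0 0, A_TC_bas h0 14]
    simp only [e0, e14, zero_mul, and_true, if_true]
    by_cases h2 : w.x4 = 0 ∧ w.x1 = 0 ∧ w.x2 = 0
    · rw [if_neg (fun h => h ⟨h2.2.1, h2.2.2, h2.1⟩), if_pos h2]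
      ring
    · rw [if_pos (fun h => h2 ⟨h.2.2, h.1, h.2.1⟩), if_neg h2]
      ring
  · intro y hy
    show bas 14 (P3m y w) = bas 14 w
    have k : bc 14 (P3m y w) ↔ bc 14 w := by
      have k1 : bc 14 (P3m y w) ↔ y * w.x4 = 0 ∧ y * w.x1 = 0 ∧ y * w.x2 = 0 := Iff.rfl
      have k2 : bc 14 w ↔ w.x4 = 0 ∧ w.x1 = 0 ∧ w.x2 = 0 := Iff.rfl
      rw [k1, k2, mul_eq_zero_iff_left hy, mul_eq_zero_iff_left hy, mul_eq_zero_iff_left hy]
    rw [A_TC_bas (A_TC_ne hw h0 hy), A_TC_bas h0]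
    simp only [k]

/-- MODULE TD.  The conditions are `y * x1 = y * x2 = y * x3 + x4 = y * x4 = 0`.  For `y = 0`: `x4 = 0` without the zero vector; for `y ≠ 0`: `dF`. -/
theorem tP15 {w : W5 K} (hw : w.Iso) (h0 : w ≠ 0) :
    (∑ y : K, bas 15 (P3m y w)) = bas 2 w - bas 14 w + (qr K - 1) * bas 15 w := by
  rw [A_TC_two (fun y => bas 15 (P3m y w)) (A := bas 2 w - bas 14 w) (B := bas 15 w)]
  · show bas 15 (P3m 0 w) = bas 2 w - bas 14 w
    have k : bc 15 (P3m 0 w) ↔ 0 * w.x1 = 0 ∧ 0 * w.x2 = 0 ∧ 0 * w.x3 + w.x4 = 0 ∧ 0 * w.x4 = 0 := Iff.rfl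
    rw [A_TC_b0 hw h0 15 k, A_TC_bas h0 2, A_TC_bas h0 14]
    exact A_TD_aux w (by simp)
  · intro y hy
    show bas 15 (P3m y w) = bas 15 w
    have k : bc 15 (P3m y w) ↔ bc 15 w := by
      have k1 : bc 15 (P3m y w) ↔ y * w.x1 = 0 ∧ y * w.x2 = 0 ∧ y * w.x3 + w.x4 = 0 ∧ y * w.x4 = 0 := Iff.rfl
      have k2 : bc 15 w ↔ w.x1 = 0 ∧ w.x2 = 0 ∧ w.x3 = 0 ∧ w.x4 = 0 := Iff.rfl
      rw [k1, k2]
      constructor
      · rintro ⟨h1, h2, h3, h4⟩
        have h5 := (mul_eq_zero.1 h4).resolve_left hy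
        rw [h5, add_zero] at h3
        exact ⟨(mul_eq_zero.1 h1).resolve_left hy, (mul_eq_zero.1 h2).resolve_left hy,
          (mul_eq_zero.1 h3).resolve_left hy, h5⟩
      · rintro ⟨h1, h2, h3, h4⟩
        rw [h1, h2, h3, h4]
        simp
    rw [A_TC_bas (A_TC_ne hw h0 hy), A_TC_bas h0]
    simp only [k]

private theorem TE_bas (i : Fin 20) (v : W5 K) (P : Prop) [Decidable P] (h : bc i v ↔ P) (hv : v ≠ 0) :
    bas i v = if P then 1 else 0 := by
  unfold bas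
  by_cases hP : P
  · rw [if_pos ⟨hv, h.2 hP⟩, if_pos hP]
  · rw [if_neg (fun hh => hP (h.1 hh.2)), if_neg hP]

private theorem TE_nil (i : Fin 20) (v : W5 K) (h : ¬ (v ≠ 0 ∧ bc i v)) : bas i v = 0 := by
  unfold bas
  rw [if_neg h]

private theorem TE_one (i : Fin 20) (v : W5 K) (h : v ≠ 0 ∧ bc i v) : bas i v = 1 := by
  unfold bas
  rw [if_pos h]

private theorem TE_lin (i : Fin 20) (F : K → W5 K) (α β : K) (hα : α ≠ 0)
    (h : ∀ y, (F y ≠ 0 ∧ bc i (F y)) ↔ y * α + β = 0) : (∑ y : K, bas i (F y)) = 1 := by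
  have h1 : ∀ y, bas i (F y) = if y * α + β = 0 then (1 : ℝ) else 0 := by
    intro y
    by_cases h2 : y * α + β = 0
    · rw [if_pos h2, TE_one i _ ((h y).2 h2)]
    · rw [if_neg h2, TE_nil i _ (fun h3 => h2 ((h y).1 h3))]
  rw [Finset.sum_congr rfl fun y _ => h1 y, card_lin, if_neg hα]

private theorem TE_zero (i : Fin 20) (F : K → W5 K)
    (h : ∀ y, ¬ (F y ≠ 0 ∧ bc i (F y))) : (∑ y : K, bas i (F y)) = 0 :=
  Finset.sum_eq_zero fun y _ => TE_nil i _ (h y)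

private theorem TE_ext {w : W5 K} (a0 : w.x0 = 0) (a1 : w.x1 = 0) (a2 : w.x2 = 0) (a3 : w.x3 = 0)
    (a4 : w.x4 = 0) : w = 0 := by
  cases w
  simp only at a0 a1 a2 a3 a4
  subst a0; subst a1; subst a2; subst a3; subst a4
  rfl

private theorem TE_c16 (v : W5 K) : bc 16 v ↔ v.x0 = 0 ∧ v.x1 = 0 ∧ v.x2 = 0 ∧ v.x3 = 0 := Iff.rfl

private theorem TE_c17 (v : W5 K) : bc 17 v ↔ v.x0 = 0 ∧ v.x2 = 0 ∧ v.x3 = 0 ∧ v.x4 = 0 := Iff.rfl

private theorem TE_c18 (v : W5 K) : bc 18 v ↔ v.x0 = 0 ∧ v.x1 = 0 ∧ v.x3 = 0 ∧ v.x4 = 0 := Iff.rfl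

private theorem TE_c19 (v : W5 K) : bc 19 v ↔ v.x0 = 0 ∧ v.x1 = 0 ∧ v.x2 = 0 ∧ v.x4 = 0 := Iff.rfl

/-- MODULE TE.  The conditions are `y * x0 + x1 + x2 = y * x1 = y * x2 = y * x3 + x4 = 0` and `y * x4 ≠ 0`, so `y ≠ 0`, `x0 = x1 = x2 = 0`, `x3 ≠ 0`, `x4 ≠ 0`, one value of `y`. -/
theorem tP16 {w : W5 K} (hw : w.Iso) (h0 : w ≠ 0) :
    (∑ y : K, bas 16 (P3m y w)) = bas 11 w - bas 16 w - bas 19 w := by
  have b11 := TE_bas 11 w (w.x0 = 0 ∧ w.x1 = 0 ∧ w.x2 = 0) Iff.rfl h0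
  have b16 := TE_bas 16 w (w.x0 = 0 ∧ w.x1 = 0 ∧ w.x2 = 0 ∧ w.x3 = 0) Iff.rfl h0
  have b19 := TE_bas 19 w (w.x0 = 0 ∧ w.x1 = 0 ∧ w.x2 = 0 ∧ w.x4 = 0) Iff.rfl h0
  by_cases h : w.x0 = 0 ∧ w.x1 = 0 ∧ w.x2 = 0
  · obtain ⟨a0, a1, a2⟩ := h
    by_cases a3 : w.x3 = 0
    · have a4 : w.x4 ≠ 0 := fun a4 => h0 (TE_ext a0 a1 a2 a3 a4)
      rw [b11, b16, b19, if_pos ⟨a0, a1, a2⟩, if_pos ⟨a0, a1, a2, a3⟩,
        if_neg (fun hh => a4 hh.2.2.2), TE_zero]
      · ring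
      · rintro y ⟨-, hy⟩
        rw [TE_c16] at hy
        have h3 : y * w.x3 + w.x4 = 0 := hy.2.2.2
        rw [a3, mul_zero, zero_add] at h3
        exact a4 h3
    · by_cases a4 : w.x4 = 0
      · rw [b11, b16, b19, if_pos ⟨a0, a1, a2⟩, if_neg (fun hh => a3 hh.2.2.2),
          if_pos ⟨a0, a1, a2, a4⟩, TE_zero]
        · ring
        · rintro y ⟨hy0, hy⟩
          rw [TE_c16] at hy
          have h3 : y * w.x3 + w.x4 = 0 := hy.2.2.2
          rw [a4, add_zero] at h3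
          have h4 : y = 0 := (mul_eq_zero.1 h3).resolve_right a3
          exact hy0 ((P3m_eq_zero hw h0).2 ⟨h4, a1, a2, a4⟩)
      · rw [b11, b16, b19, if_pos ⟨a0, a1, a2⟩, if_neg (fun hh => a3 hh.2.2.2),
          if_neg (fun hh => a4 hh.2.2.2), TE_lin 16 (fun y => P3m y w) w.x3 w.x4 a3]
        · ring
        · intro y
          rw [TE_c16]
          constructor
          · rintro ⟨-, hy⟩
            exact hy.2.2.2
          · intro hy
            refine ⟨fun hz => a4 ((P3m_eq_zero hw h0).1 hz).2.2.2, ?_, ?_, ?_, hy⟩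
            · show y * w.x0 + w.x1 + w.x2 = 0
              rw [a0, a1, a2, mul_zero, add_zero, add_zero]
            · show y * w.x1 = 0
              rw [a1, mul_zero]
            · show y * w.x2 = 0
              rw [a2, mul_zero]
  · rw [b11, b16, b19, if_neg h, if_neg (fun hh => h ⟨hh.1, hh.2.1, hh.2.2.1⟩),
      if_neg (fun hh => h ⟨hh.1, hh.2.1, hh.2.2.1⟩), TE_zero]
    · ring
    · rintro y ⟨hy0, hy⟩
      rw [TE_c16] at hy
      have e0 : y * w.x0 + w.x1 + w.x2 = 0 := hy.1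
      have e1 : y * w.x1 = 0 := hy.2.1
      have e2 : y * w.x2 = 0 := hy.2.2.1
      have e3 : y * w.x3 + w.x4 = 0 := hy.2.2.2
      by_cases hy1 : y = 0
      · subst hy1
        apply hy0
        have e4 : w.x4 = 0 := by rwa [zero_mul, zero_add] at e3
        have e5 : w.x1 + w.x2 = 0 := by rwa [zero_mul, zero_add] at e0
        apply TE_ext
        · show 0 * w.x0 + w.x1 + w.x2 = 0
          rw [zero_mul, zero_add, e5]
        · exact e1
        · exact e2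
        · show 0 * w.x3 + w.x4 = 0
          rw [zero_mul, zero_add, e4]
        · show 0 * w.x4 = 0
          rw [zero_mul]
      · have a1 := (mul_eq_zero.1 e1).resolve_left hy1
        have a2 := (mul_eq_zero.1 e2).resolve_left hy1
        rw [a1, a2, add_zero, add_zero] at e0
        exact h ⟨(mul_eq_zero.1 e0).resolve_left hy1, a1, a2⟩

/-- MODULE TE.  Only `(P3m y w).x1 = y * x1` is not zero: `y ≠ 0`, `x4 = x2 = x3 = 0`, `x1 ≠ 0`, `y * x0 = -x1`: one value of `y` iff moreover `x0 ≠ 0`. -/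
theorem tP17 {w : W5 K} (hw : w.Iso) (h0 : w ≠ 0) :
    (∑ y : K, bas 17 (P3m y w)) = bas 12 w - bas 15 w - bas 17 w := by
  have b12 := TE_bas 12 w (w.x4 = 0 ∧ w.x2 = 0 ∧ w.x3 = 0) Iff.rfl h0
  have b15 := TE_bas 15 w (w.x1 = 0 ∧ w.x2 = 0 ∧ w.x3 = 0 ∧ w.x4 = 0) Iff.rfl h0
  have b17 := TE_bas 17 w (w.x0 = 0 ∧ w.x2 = 0 ∧ w.x3 = 0 ∧ w.x4 = 0) Iff.rfl h0
  by_cases h : w.x4 = 0 ∧ w.x2 = 0 ∧ w.x3 = 0
  · obtain ⟨a4, ab, a3⟩ := h
    by_cases aa : w.x1 = 0
    · have a0 : w.x0 ≠ 0 := fun a0 => h0 (TE_ext a0 aa ab a3 a4)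
      rw [b12, b15, b17, if_pos ⟨a4, ab, a3⟩, if_pos ⟨aa, ab, a3, a4⟩,
        if_neg (fun hh => a0 hh.1), TE_zero]
      · ring
      · rintro y ⟨hy0, hy⟩
        rw [TE_c17] at hy
        have h3 : y * w.x0 + w.x1 + w.x2 = 0 := hy.1
        rw [aa, ab, add_zero, add_zero] at h3
        have h4 : y = 0 := (mul_eq_zero.1 h3).resolve_right a0
        exact hy0 ((P3m_eq_zero hw h0).2 ⟨h4, aa, ab, a4⟩)
    · by_cases a0 : w.x0 = 0
      · rw [b12, b15, b17, if_pos ⟨a4, ab, a3⟩, if_neg (fun hh => aa hh.1),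
          if_pos ⟨a0, ab, a3, a4⟩, TE_zero]
        · ring
        · rintro y ⟨hy0, hy⟩
          rw [TE_c17] at hy
          have h3 : y * w.x0 + w.x1 + w.x2 = 0 := hy.1
          rw [a0, ab, mul_zero, zero_add, add_zero] at h3
          exact aa h3
      · rw [b12, b15, b17, if_pos ⟨a4, ab, a3⟩, if_neg (fun hh => aa hh.1),
          if_neg (fun hh => a0 hh.1), TE_lin 17 (fun y => P3m y w) w.x0 w.x1 a0]
        · ring
        · intro y
          rw [TE_c17]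
          constructor
          · rintro ⟨-, hy⟩
            have h3 : y * w.x0 + w.x1 + w.x2 = 0 := hy.1
            rwa [ab, add_zero] at h3
          · intro hy
            refine ⟨fun hz => aa ((P3m_eq_zero hw h0).1 hz).2.1, ?_, ?_, ?_, ?_⟩
            · show y * w.x0 + w.x1 + w.x2 = 0
              rw [ab, add_zero, hy]
            · show y * w.x2 = 0
              rw [ab, mul_zero]
            · show y * w.x3 + w.x4 = 0
              rw [a3, a4, mul_zero, add_zero]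
            · show y * w.x4 = 0
              rw [a4, mul_zero]
  · rw [b12, b15, b17, if_neg h, if_neg (fun hh => h ⟨hh.2.2.2, hh.2.1, hh.2.2.1⟩),
      if_neg (fun hh => h ⟨hh.2.2.2, hh.2.1, hh.2.2.1⟩), TE_zero]
    · ring
    · rintro y ⟨hy0, hy⟩
      rw [TE_c17] at hy
      have e0 : y * w.x0 + w.x1 + w.x2 = 0 := hy.1
      have e2 : y * w.x2 = 0 := hy.2.1
      have e3 : y * w.x3 + w.x4 = 0 := hy.2.2.1
      have e4 : y * w.x4 = 0 := hy.2.2.2
      by_cases hy1 : y = 0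
      · subst hy1
        apply hy0
        rw [zero_mul, zero_add] at e0
        apply TE_ext
        · show 0 * w.x0 + w.x1 + w.x2 = 0
          rw [zero_mul, zero_add, e0]
        · show 0 * w.x1 = 0
          rw [zero_mul]
        · show 0 * w.x2 = 0
          rw [zero_mul]
        · exact e3
        · exact e4
      · have a2 := (mul_eq_zero.1 e2).resolve_left hy1
        have a4 := (mul_eq_zero.1 e4).resolve_left hy1
        rw [a4, add_zero] at e3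
        exact h ⟨a4, a2, (mul_eq_zero.1 e3).resolve_left hy1⟩

/-- MODULE TE.  As the row 17 with `x2`. -/
theorem tP18 {w : W5 K} (hw : w.Iso) (h0 : w ≠ 0) :
    (∑ y : K, bas 18 (P3m y w)) = bas 13 w - bas 15 w - bas 18 w := by
  have b12 := TE_bas 13 w (w.x4 = 0 ∧ w.x1 = 0 ∧ w.x3 = 0) Iff.rfl h0
  have b15 := TE_bas 15 w (w.x1 = 0 ∧ w.x2 = 0 ∧ w.x3 = 0 ∧ w.x4 = 0) Iff.rfl h0
  have b17 := TE_bas 18 w (w.x0 = 0 ∧ w.x1 = 0 ∧ w.x3 = 0 ∧ w.x4 = 0) Iff.rfl h0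
  by_cases h : w.x4 = 0 ∧ w.x1 = 0 ∧ w.x3 = 0
  · obtain ⟨a4, ab, a3⟩ := h
    by_cases aa : w.x2 = 0
    · have a0 : w.x0 ≠ 0 := fun a0 => h0 (TE_ext a0 ab aa a3 a4)
      rw [b12, b15, b17, if_pos ⟨a4, ab, a3⟩, if_pos ⟨ab, aa, a3, a4⟩,
        if_neg (fun hh => a0 hh.1), TE_zero]
      · ring
      · rintro y ⟨hy0, hy⟩
        rw [TE_c18] at hy
        have h3 : y * w.x0 + w.x1 + w.x2 = 0 := hy.1
        rw [aa, ab, add_zero, add_zero] at h3
        have h4 : y = 0 := (mul_eq_zero.1 h3).resolve_right a0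
        exact hy0 ((P3m_eq_zero hw h0).2 ⟨h4, ab, aa, a4⟩)
    · by_cases a0 : w.x0 = 0
      · rw [b12, b15, b17, if_pos ⟨a4, ab, a3⟩, if_neg (fun hh => aa hh.2.1),
          if_pos ⟨a0, ab, a3, a4⟩, TE_zero]
        · ring
        · rintro y ⟨hy0, hy⟩
          rw [TE_c18] at hy
          have h3 : y * w.x0 + w.x1 + w.x2 = 0 := hy.1
          rw [a0, ab, mul_zero, zero_add, zero_add] at h3
          exact aa h3
      · rw [b12, b15, b17, if_pos ⟨a4, ab, a3⟩, if_neg (fun hh => aa hh.2.1),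
          if_neg (fun hh => a0 hh.1), TE_lin 18 (fun y => P3m y w) w.x0 w.x2 a0]
        · ring
        · intro y
          rw [TE_c18]
          constructor
          · rintro ⟨-, hy⟩
            have h3 : y * w.x0 + w.x1 + w.x2 = 0 := hy.1
            rwa [ab, add_zero] at h3
          · intro hy
            refine ⟨fun hz => aa ((P3m_eq_zero hw h0).1 hz).2.2.1, ?_, ?_, ?_, ?_⟩
            · show y * w.x0 + w.x1 + w.x2 = 0
              rw [ab, add_zero, hy]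
            · show y * w.x1 = 0
              rw [ab, mul_zero]
            · show y * w.x3 + w.x4 = 0
              rw [a3, a4, mul_zero, add_zero]
            · show y * w.x4 = 0
              rw [a4, mul_zero]
  · rw [b12, b15, b17, if_neg h, if_neg (fun hh => h ⟨hh.2.2.2, hh.1, hh.2.2.1⟩),
      if_neg (fun hh => h ⟨hh.2.2.2, hh.2.1, hh.2.2.1⟩), TE_zero]
    · ring
    · rintro y ⟨hy0, hy⟩
      rw [TE_c18] at hy
      have e0 : y * w.x0 + w.x1 + w.x2 = 0 := hy.1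
      have e2 : y * w.x1 = 0 := hy.2.1
      have e3 : y * w.x3 + w.x4 = 0 := hy.2.2.1
      have e4 : y * w.x4 = 0 := hy.2.2.2
      by_cases hy1 : y = 0
      · subst hy1
        apply hy0
        rw [zero_mul, zero_add] at e0
        apply TE_ext
        · show 0 * w.x0 + w.x1 + w.x2 = 0
          rw [zero_mul, zero_add, e0]
        · show 0 * w.x1 = 0
          rw [zero_mul]
        · show 0 * w.x2 = 0
          rw [zero_mul]
        · exact e3
        · exact e4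
      · have a2 := (mul_eq_zero.1 e2).resolve_left hy1
        have a4 := (mul_eq_zero.1 e4).resolve_left hy1
        rw [a4, add_zero] at e3
        exact h ⟨a4, a2, (mul_eq_zero.1 e3).resolve_left hy1⟩

/-- MODULE TE.  Only `(P3m y w).x3` is not zero: `y = 0`: `x1 + x2 = 0` and `x4 ≠ 0`; `y ≠ 0`: `w` in `d3`. -/
theorem tP19 {w : W5 K} (hw : w.Iso) (h0 : w ≠ 0) :
    (∑ y : K, bas 19 (P3m y w)) = bas 8 w - bas 14 w + (qr K - 1) * bas 19 w := by
  have hI : w.x0 * w.x4 = w.x1 * w.x2 + w.x1 * w.x3 + w.x2 * w.x3 := hw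
  have b8 := TE_bas 8 w (w.x1 + w.x2 = 0) Iff.rfl h0
  have b14 := TE_bas 14 w (w.x4 = 0 ∧ w.x1 = 0 ∧ w.x2 = 0) Iff.rfl h0
  have h1 : ∀ y, bas 19 (P3m y w) = bas 19 w +
      (if y = 0 then (if w.x1 + w.x2 = 0 ∧ w.x4 ≠ 0 then (1 : ℝ) else 0) - bas 19 w else 0) := by
    intro y
    by_cases hy : y = 0
    · subst hy
      rw [if_pos rfl, add_sub_cancel]
      by_cases h2 : w.x1 + w.x2 = 0 ∧ w.x4 ≠ 0
      · rw [if_pos h2]
        refine TE_one 19 _ ⟨fun hz => h2.2 ((P3m_eq_zero hw h0).1 hz).2.2.2, ?_⟩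
        rw [TE_c19]
        refine ⟨?_, ?_, ?_, ?_⟩
        · show 0 * w.x0 + w.x1 + w.x2 = 0
          rw [zero_mul, zero_add, h2.1]
        · show 0 * w.x1 = 0
          rw [zero_mul]
        · show 0 * w.x2 = 0
          rw [zero_mul]
        · show 0 * w.x4 = 0
          rw [zero_mul]
      · rw [if_neg h2]
        refine TE_nil 19 _ ?_
        rintro ⟨hz, hb⟩
        rw [TE_c19] at hb
        have e0 : 0 * w.x0 + w.x1 + w.x2 = 0 := hb.1
        rw [zero_mul, zero_add] at e0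
        have e4 : w.x4 = 0 := by
          by_contra h4
          exact h2 ⟨e0, h4⟩
        apply hz
        apply TE_ext
        · exact hb.1
        · exact hb.2.1
        · exact hb.2.2.1
        · show 0 * w.x3 + w.x4 = 0
          rw [zero_mul, zero_add, e4]
        · exact hb.2.2.2
    · rw [if_neg hy, add_zero]
      by_cases h2 : bc 19 w
      · rw [TE_one 19 w ⟨h0, h2⟩]
        rw [TE_c19] at h2
        obtain ⟨a0, a1, a2, a4⟩ := h2
        refine TE_one 19 _ ⟨fun hz => hy ((P3m_eq_zero hw h0).1 hz).1, ?_⟩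
        rw [TE_c19]
        refine ⟨?_, ?_, ?_, ?_⟩
        · show y * w.x0 + w.x1 + w.x2 = 0
          rw [a0, a1, a2, mul_zero, add_zero, add_zero]
        · show y * w.x1 = 0
          rw [a1, mul_zero]
        · show y * w.x2 = 0
          rw [a2, mul_zero]
        · show y * w.x4 = 0
          rw [a4, mul_zero]
      · rw [TE_nil 19 w (fun h => h2 h.2)]
        refine TE_nil 19 _ ?_
        rintro ⟨-, hb⟩
        rw [TE_c19] at hb
        apply h2
        have e0 : y * w.x0 + w.x1 + w.x2 = 0 := hb.1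
        have a1 := (mul_eq_zero.1 hb.2.1).resolve_left hy
        have a2 := (mul_eq_zero.1 hb.2.2.1).resolve_left hy
        have a4 := (mul_eq_zero.1 hb.2.2.2).resolve_left hy
        rw [a1, a2, add_zero, add_zero] at e0
        rw [TE_c19]
        exact ⟨(mul_eq_zero.1 e0).resolve_left hy, a1, a2, a4⟩
  rw [Finset.sum_congr rfl fun y _ => h1 y, Finset.sum_add_distrib, Finset.sum_const,
    Finset.card_univ, nsmul_eq_mul, Finset.sum_ite_eq' Finset.univ (0 : K),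
    if_pos (Finset.mem_univ _)]
  have h3 : (if w.x1 + w.x2 = 0 ∧ w.x4 ≠ 0 then (1 : ℝ) else 0) = bas 8 w - bas 14 w := by
    rw [b8, b14]
    by_cases e8 : w.x1 + w.x2 = 0
    · by_cases e4 : w.x4 = 0
      · have e1 : w.x1 = 0 ∧ w.x2 = 0 := by
          have e5 : w.x2 = - w.x1 := eq_neg_of_add_eq_zero_right e8
          rw [e4, e5] at hI
          have e6 : w.x1 * w.x1 = 0 := by linear_combination hI
          have e7 : w.x1 = 0 := mul_self_eq_zero.1 e6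
          exact ⟨e7, by rw [e5, e7, neg_zero]⟩
        rw [if_neg (fun hh => hh.2 e4), if_pos e8, if_pos ⟨e4, e1⟩]
        ring
      · rw [if_pos ⟨e8, e4⟩, if_pos e8, if_neg (fun hh => e4 hh.1)]
        ring
    · rw [if_neg (fun hh => e8 hh.1), if_neg e8,
        if_neg (fun hh => e8 (by rw [hh.2.1, hh.2.2, add_zero]))]
      ring
  rw [h3]
  show (Fintype.card K : ℝ) * bas 19 w + (bas 8 w - bas 14 w - bas 19 w) =
    bas 8 w - bas 14 w + ((Fintype.card K : ℝ) - 1) * bas 19 w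
  ring

private theorem TH_const (i : Fin 20) {w : W5 K} (h : ∀ y, bc i (L3m y w) ↔ bc i w) :
    (∑ y : K, bas i (L3m y w)) = qr K * bas i w := by
  have h1 : ∀ y, bas i (L3m y w) = bas i w := by
    intro y
    unfold bas
    have h2 : (L3m y w ≠ 0 ∧ bc i (L3m y w)) ↔ (w ≠ 0 ∧ bc i w) := by
      rw [h y, Ne, L3m_eq_zero]
    by_cases h3 : w ≠ 0 ∧ bc i w
    · rw [if_pos h3, if_pos (h2.2 h3)]
    · rw [if_neg h3, if_neg (fun h4 => h3 (h2.1 h4))]
  rw [Finset.sum_congr rfl fun y _ => h1 y, Finset.sum_const, Finset.card_univ, nsmul_eq_mul]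
  rfl

/-- MODULE TH.  The condition does not depend on `y`. -/
theorem tL0 {w : W5 K} (hw : w.Iso) (h0 : w ≠ 0) :
    (∑ y : K, bas 0 (L3m y w)) = qr K * bas 0 w := by
  exact TH_const 0 fun y => Iff.rfl

/-- MODULE TH.  The condition does not depend on `y`. -/
theorem tL1 {w : W5 K} (hw : w.Iso) (h0 : w ≠ 0) :
    (∑ y : K, bas 1 (L3m y w)) = qr K * bas 1 w := by
  exact TH_const 1 fun y => Iff.rfl

private theorem TF_bas (i : Fin 20) (v : W5 K) (P : Prop) [Decidable P] (h : bc i v ↔ P) (hv : v ≠ 0) :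
    bas i v = if P then 1 else 0 := by
  unfold bas
  by_cases hP : P
  · rw [if_pos ⟨hv, h.2 hP⟩, if_pos hP]
  · rw [if_neg (fun hh => hP (h.1 hh.2)), if_neg hP]

private theorem TF_lin (i : Fin 20) {w : W5 K} (h0 : w ≠ 0) (α β : K)
    (h : ∀ y, bc i (L3m y w) ↔ y * α + β = 0) :
    (∑ y : K, bas i (L3m y w)) = if α = 0 then (if β = 0 then qr K else 0) else 1 := by
  rw [← card_lin]
  refine Finset.sum_congr rfl fun y _ => ?_
  exact TF_bas i _ _ (h y) (fun hz => h0 (L3m_eq_zero.1 hz))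

/-- MODULE TF.  `(L3m y w).x4 = x4 + y * (x1 + x2)`: `card_lin`; `x1 + x2 = 0 = x4` is `P3` by `Iso`. -/
theorem tL2 {w : W5 K} (hw : w.Iso) (h0 : w ≠ 0) :
    (∑ y : K, bas 2 (L3m y w)) = bas 0 w - bas 8 w + qr K * bas 14 w := by
  have hI : w.x0 * w.x4 = w.x1 * w.x2 + w.x1 * w.x3 + w.x2 * w.x3 := hw
  rw [TF_lin 2 h0 (w.x1 + w.x2) w.x4, TF_bas 0 w True Iff.rfl h0,
    TF_bas 8 w (w.x1 + w.x2 = 0) Iff.rfl h0,
    TF_bas 14 w (w.x4 = 0 ∧ w.x1 = 0 ∧ w.x2 = 0) Iff.rfl h0, if_pos trivial]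
  · by_cases e8 : w.x1 + w.x2 = 0
    · rw [if_pos e8, if_pos e8]
      by_cases e4 : w.x4 = 0
      · have e1 : w.x1 = 0 ∧ w.x2 = 0 := by
          have e5 : w.x2 = - w.x1 := eq_neg_of_add_eq_zero_right e8
          rw [e4, e5] at hI
          have e6 : w.x1 * w.x1 = 0 := by linear_combination hI
          have e7 : w.x1 = 0 := mul_self_eq_zero.1 e6
          exact ⟨e7, by rw [e5, e7, neg_zero]⟩
        rw [if_pos e4, if_pos ⟨e4, e1⟩]
        ring
      · rw [if_neg e4, if_neg (fun hh => e4 hh.1)]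
        ring
    · rw [if_neg e8, if_neg e8, if_neg (fun hh => e8 (by rw [hh.2.1, hh.2.2, add_zero]))]
      ring
  · intro y
    show w.x4 + y * (w.x1 + w.x2) = 0 ↔ y * (w.x1 + w.x2) + w.x4 = 0
    rw [add_comm]

/-- MODULE TH.  The condition does not depend on `y`. -/
theorem tL3 {w : W5 K} (hw : w.Iso) (h0 : w ≠ 0) :
    (∑ y : K, bas 3 (L3m y w)) = qr K * bas 3 w := by
  exact TH_const 3 fun y => Iff.rfl

/-- MODULE TH.  The condition does not depend on `y`. -/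
theorem tL4 {w : W5 K} (hw : w.Iso) (h0 : w ≠ 0) :
    (∑ y : K, bas 4 (L3m y w)) = qr K * bas 4 w := by
  exact TH_const 4 fun y => Iff.rfl

/-- MODULE TF.  `(L3m y w).x3 = x3 + y * x0`: `card_lin`; `x0 = 0 = x3` means `x1 * x2 = 0` by `Iso`, that is `L1` or `L2`, both mean `dJ`. -/
theorem tL5 {w : W5 K} (hw : w.Iso) (h0 : w ≠ 0) :
    (∑ y : K, bas 5 (L3m y w)) = bas 0 w - bas 1 w + qr K * bas 9 w + qr K * bas 10 w - qr K * bas 16 w := by
  have hI : w.x0 * w.x4 = w.x1 * w.x2 + w.x1 * w.x3 + w.x2 * w.x3 := hw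
  rw [TF_lin 5 h0 w.x0 w.x3, TF_bas 0 w True Iff.rfl h0,
    TF_bas 1 w (w.x0 = 0) Iff.rfl h0,
    TF_bas 9 w (w.x0 = 0 ∧ w.x2 = 0 ∧ w.x3 = 0) Iff.rfl h0,
    TF_bas 10 w (w.x0 = 0 ∧ w.x1 = 0 ∧ w.x3 = 0) Iff.rfl h0,
    TF_bas 16 w (w.x0 = 0 ∧ w.x1 = 0 ∧ w.x2 = 0 ∧ w.x3 = 0) Iff.rfl h0, if_pos trivial]
  · by_cases e0 : w.x0 = 0
    · rw [if_pos e0, if_pos e0]
      by_cases e3 : w.x3 = 0
      · rw [if_pos e3]
        have e12 : w.x1 * w.x2 = 0 := by
          rw [e0, e3] at hI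
          linear_combination -hI
        by_cases e1 : w.x1 = 0
        · by_cases e2 : w.x2 = 0
          · rw [if_pos ⟨e0, e2, e3⟩, if_pos ⟨e0, e1, e3⟩, if_pos ⟨e0, e1, e2, e3⟩]
            ring
          · rw [if_neg (fun hh => e2 hh.2.1), if_pos ⟨e0, e1, e3⟩, if_neg (fun hh => e2 hh.2.2.1)]
            ring
        · have e2 : w.x2 = 0 := (mul_eq_zero.1 e12).resolve_left e1
          rw [if_pos ⟨e0, e2, e3⟩, if_neg (fun hh => e1 hh.2.1), if_neg (fun hh => e1 hh.2.1)]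
          ring
      · rw [if_neg e3, if_neg (fun hh => e3 hh.2.2), if_neg (fun hh => e3 hh.2.2),
          if_neg (fun hh => e3 hh.2.2.2)]
        ring
    · rw [if_neg e0, if_neg e0, if_neg (fun hh => e0 hh.1), if_neg (fun hh => e0 hh.1),
        if_neg (fun hh => e0 hh.1)]
      ring
  · intro y
    show w.x3 + y * w.x0 = 0 ↔ y * w.x0 + w.x3 = 0
    rw [add_comm]

/-- MODULE TF.  `x2 + x3 + y * x0 = 0`; `x0 = 0 = x2 + x3` is `L1` by `Iso`. -/
theorem tL6 {w : W5 K} (hw : w.Iso) (h0 : w ≠ 0) :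
    (∑ y : K, bas 6 (L3m y w)) = bas 0 w - bas 1 w + qr K * bas 9 w := by
  have hI : w.x0 * w.x4 = w.x1 * w.x2 + w.x1 * w.x3 + w.x2 * w.x3 := hw
  rw [TF_lin 6 h0 w.x0 (w.x2 + w.x3), TF_bas 0 w True Iff.rfl h0,
    TF_bas 1 w (w.x0 = 0) Iff.rfl h0,
    TF_bas 9 w (w.x0 = 0 ∧ w.x2 = 0 ∧ w.x3 = 0) Iff.rfl h0, if_pos trivial]
  · by_cases e0 : w.x0 = 0
    · rw [if_pos e0, if_pos e0]
      by_cases e8 : w.x2 + w.x3 = 0
      · have e1 : w.x2 = 0 ∧ w.x3 = 0 := by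
          have e5 : w.x3 = - w.x2 := eq_neg_of_add_eq_zero_right e8
          rw [e0, e5] at hI
          have e6 : w.x2 * w.x2 = 0 := by linear_combination hI
          have e7 : w.x2 = 0 := mul_self_eq_zero.1 e6
          exact ⟨e7, by rw [e5, e7, neg_zero]⟩
        rw [if_pos e8, if_pos ⟨e0, e1⟩]
        ring
      · rw [if_neg e8, if_neg (fun hh => e8 (by rw [hh.2.1, hh.2.2, add_zero]))]
        ring
    · rw [if_neg e0, if_neg e0, if_neg (fun hh => e0 hh.1)]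
      ring
  · intro y
    show w.x2 + (w.x3 + y * w.x0) = 0 ↔ y * w.x0 + (w.x2 + w.x3) = 0
    rw [← add_assoc, add_comm]

/-- MODULE TF.  `x1 + x3 + y * x0 = 0`; `x0 = 0 = x1 + x3` is `L2`. -/
theorem tL7 {w : W5 K} (hw : w.Iso) (h0 : w ≠ 0) :
    (∑ y : K, bas 7 (L3m y w)) = bas 0 w - bas 1 w + qr K * bas 10 w := by
  have hI : w.x0 * w.x4 = w.x1 * w.x2 + w.x1 * w.x3 + w.x2 * w.x3 := hw
  rw [TF_lin 7 h0 w.x0 (w.x1 + w.x3), TF_bas 0 w True Iff.rfl h0,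
    TF_bas 1 w (w.x0 = 0) Iff.rfl h0,
    TF_bas 10 w (w.x0 = 0 ∧ w.x1 = 0 ∧ w.x3 = 0) Iff.rfl h0, if_pos trivial]
  · by_cases e0 : w.x0 = 0
    · rw [if_pos e0, if_pos e0]
      by_cases e8 : w.x1 + w.x3 = 0
      · have e1 : w.x1 = 0 ∧ w.x3 = 0 := by
          have e5 : w.x3 = - w.x1 := eq_neg_of_add_eq_zero_right e8
          rw [e0, e5] at hI
          have e6 : w.x1 * w.x1 = 0 := by linear_combination hI
          have e7 : w.x1 = 0 := mul_self_eq_zero.1 e6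
          exact ⟨e7, by rw [e5, e7, neg_zero]⟩
        rw [if_pos e8, if_pos ⟨e0, e1⟩]
        ring
      · rw [if_neg e8, if_neg (fun hh => e8 (by rw [hh.2.1, hh.2.2, add_zero]))]
        ring
    · rw [if_neg e0, if_neg e0, if_neg (fun hh => e0 hh.1)]
      ring
  · intro y
    show w.x1 + (w.x3 + y * w.x0) = 0 ↔ y * w.x0 + (w.x1 + w.x3) = 0
    rw [← add_assoc, add_comm]

/-- MODULE TH.  The condition does not depend on `y`. -/
theorem tL8 {w : W5 K} (hw : w.Iso) (h0 : w ≠ 0) :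
    (∑ y : K, bas 8 (L3m y w)) = qr K * bas 8 w := by
  exact TH_const 8 fun y => Iff.rfl

/-- MODULE TH.  The condition does not depend on `y`. -/
theorem tL9 {w : W5 K} (hw : w.Iso) (h0 : w ≠ 0) :
    (∑ y : K, bas 9 (L3m y w)) = qr K * bas 9 w := by
  refine TH_const 9 fun y => ?_
  show (w.x0 = 0 ∧ w.x2 = 0 ∧ w.x3 + y * w.x0 = 0) ↔ (w.x0 = 0 ∧ w.x2 = 0 ∧ w.x3 = 0)
  constructor
  · rintro ⟨a, b, c⟩
    rw [a, mul_zero, add_zero] at c
    exact ⟨a, b, c⟩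
  · rintro ⟨a, b, c⟩
    refine ⟨a, b, ?_⟩
    rw [a, mul_zero, add_zero, c]

/-- MODULE TH.  The condition does not depend on `y`. -/
theorem tL10 {w : W5 K} (hw : w.Iso) (h0 : w ≠ 0) :
    (∑ y : K, bas 10 (L3m y w)) = qr K * bas 10 w := by
  refine TH_const 10 fun y => ?_
  show (w.x0 = 0 ∧ w.x1 = 0 ∧ w.x3 + y * w.x0 = 0) ↔ (w.x0 = 0 ∧ w.x1 = 0 ∧ w.x3 = 0)
  constructor
  · rintro ⟨a, b, c⟩
    rw [a, mul_zero, add_zero] at c
    exact ⟨a, b, c⟩
  · rintro ⟨a, b, c⟩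
    refine ⟨a, b, ?_⟩
    rw [a, mul_zero, add_zero, c]

/-- MODULE TH.  The condition does not depend on `y`. -/
theorem tL11 {w : W5 K} (hw : w.Iso) (h0 : w ≠ 0) :
    (∑ y : K, bas 11 (L3m y w)) = qr K * bas 11 w := by
  exact TH_const 11 fun y => Iff.rfl

private theorem TG_bas (i : Fin 20) (v : W5 K) (P : Prop) [Decidable P] (h : bc i v ↔ P) (hv : v ≠ 0) :
    bas i v = if P then 1 else 0 := by
  unfold bas
  by_cases hP : P
  · rw [if_pos ⟨hv, h.2 hP⟩, if_pos hP]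
  · rw [if_neg (fun hh => hP (h.1 hh.2)), if_neg hP]

private theorem TG_lin (i : Fin 20) {w : W5 K} (h0 : w ≠ 0) (α β : K) (hα : α ≠ 0)
    (h : ∀ y, bc i (L3m y w) ↔ y * α + β = 0) :
    (∑ y : K, bas i (L3m y w)) = 1 := by
  have h2 := card_lin α β
  rw [if_neg hα] at h2
  rw [← h2]
  refine Finset.sum_congr rfl fun y _ => ?_
  exact TG_bas i _ _ (h y) (fun hz => h0 (L3m_eq_zero.1 hz))

private theorem TG_zero (i : Fin 20) {w : W5 K} (h : ∀ y, ¬ bc i (L3m y w)) :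
    (∑ y : K, bas i (L3m y w)) = 0 := by
  refine Finset.sum_eq_zero fun y _ => ?_
  unfold bas
  rw [if_neg (fun hh => h y hh.2)]

private theorem TG_ext {w : W5 K} (a0 : w.x0 = 0) (a1 : w.x1 = 0) (a2 : w.x2 = 0) (a3 : w.x3 = 0)
    (a4 : w.x4 = 0) : w = 0 := by
  cases w
  simp only at a0 a1 a2 a3 a4
  subst a0; subst a1; subst a2; subst a3; subst a4
  rfl

/-- MODULE TG.  The conditions are `x2 = 0`, `x3 + y * x0 = 0`, `x4 + y * x1 = 0`, `w ≠ 0`, `x0 * x4 = x1 * x3`: one value of `y` if `x2 = 0` and `(x0, x1) ≠ 0`. -/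
theorem tL12 {w : W5 K} (hw : w.Iso) (h0 : w ≠ 0) :
    (∑ y : K, bas 12 (L3m y w)) = bas 4 w - bas 11 w := by
  have hI : w.x0 * w.x4 = w.x1 * w.x2 + w.x1 * w.x3 + w.x2 * w.x3 := hw
  rw [TG_bas 4 w (w.x2 = 0) Iff.rfl h0,
    TG_bas 11 w (w.x0 = 0 ∧ w.x1 = 0 ∧ w.x2 = 0) Iff.rfl h0]
  have hc : ∀ y, bc 12 (L3m y w) ↔
      (w.x4 + y * (w.x1 + w.x2) = 0 ∧ w.x2 = 0 ∧ w.x3 + y * w.x0 = 0) := fun y => Iff.rfl
  by_cases ab : w.x2 = 0
  · rw [if_pos ab]
    rw [ab] at hI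
    by_cases a0 : w.x0 = 0
    · by_cases aa : w.x1 = 0
      · rw [if_pos ⟨a0, aa, ab⟩, TG_zero]
        · ring
        · intro y hy
          rw [hc, aa, ab, a0, add_zero, mul_zero, add_zero, add_zero] at hy
          exact h0 (TG_ext a0 aa ab hy.2.2 hy.1)
      · have a3 : w.x3 = 0 := by
          have e1 : w.x1 * w.x3 = 0 := by
            rw [a0] at hI
            linear_combination -hI
          exact (mul_eq_zero.1 e1).resolve_left aa
        rw [if_neg (fun hh => aa hh.2.1), TG_lin 12 h0 w.x1 w.x4 aa]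
        · ring
        · intro y
          rw [hc]
          constructor
          · rintro ⟨h1, -, -⟩
            rw [ab] at h1
            linear_combination h1
          · intro h1
            refine ⟨?_, ab, by rw [a0, a3, mul_zero, add_zero]⟩
            rw [ab]
            linear_combination h1
    · rw [if_neg (fun hh => a0 hh.1), TG_lin 12 h0 w.x0 w.x3 a0]
      · ring
      · intro y
        rw [hc]
        constructor
        · rintro ⟨-, -, h1⟩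
          linear_combination h1
        · intro h1
          refine ⟨?_, ab, by linear_combination h1⟩
          have e1 : w.x0 * (w.x4 + y * (w.x1 + w.x2)) = 0 := by
            rw [ab]
            linear_combination hI + w.x1 * h1
          exact (mul_eq_zero.1 e1).resolve_left a0
  · rw [if_neg ab, if_neg (fun hh => ab hh.2.2), TG_zero]
    · ring
    · intro y hy
      rw [hc] at hy
      exact ab hy.2.1

/-- MODULE TG.  As the row 12 with `x1` and `x2` exchanged. -/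
theorem tL13 {w : W5 K} (hw : w.Iso) (h0 : w ≠ 0) :
    (∑ y : K, bas 13 (L3m y w)) = bas 3 w - bas 11 w := by
  have hI : w.x0 * w.x4 = w.x1 * w.x2 + w.x1 * w.x3 + w.x2 * w.x3 := hw
  rw [TG_bas 3 w (w.x1 = 0) Iff.rfl h0,
    TG_bas 11 w (w.x0 = 0 ∧ w.x1 = 0 ∧ w.x2 = 0) Iff.rfl h0]
  have hc : ∀ y, bc 13 (L3m y w) ↔
      (w.x4 + y * (w.x1 + w.x2) = 0 ∧ w.x1 = 0 ∧ w.x3 + y * w.x0 = 0) := fun y => Iff.rfl
  by_cases ab : w.x1 = 0
  · rw [if_pos ab]
    rw [ab] at hI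
    by_cases a0 : w.x0 = 0
    · by_cases aa : w.x2 = 0
      · rw [if_pos ⟨a0, ab, aa⟩, TG_zero]
        · ring
        · intro y hy
          rw [hc, aa, ab, a0, add_zero, mul_zero, add_zero, add_zero] at hy
          exact h0 (TG_ext a0 ab aa hy.2.2 hy.1)
      · have a3 : w.x3 = 0 := by
          have e1 : w.x2 * w.x3 = 0 := by
            rw [a0] at hI
            linear_combination -hI
          exact (mul_eq_zero.1 e1).resolve_left aa
        rw [if_neg (fun hh => aa hh.2.2), TG_lin 13 h0 w.x2 w.x4 aa]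
        · ring
        · intro y
          rw [hc]
          constructor
          · rintro ⟨h1, -, -⟩
            rw [ab] at h1
            linear_combination h1
          · intro h1
            refine ⟨?_, ab, by rw [a0, a3, mul_zero, add_zero]⟩
            rw [ab]
            linear_combination h1
    · rw [if_neg (fun hh => a0 hh.1), TG_lin 13 h0 w.x0 w.x3 a0]
      · ring
      · intro y
        rw [hc]
        constructor
        · rintro ⟨-, -, h1⟩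
          linear_combination h1
        · intro h1
          refine ⟨?_, ab, by linear_combination h1⟩
          have e1 : w.x0 * (w.x4 + y * (w.x1 + w.x2)) = 0 := by
            rw [ab]
            linear_combination hI + w.x2 * h1
          exact (mul_eq_zero.1 e1).resolve_left a0
  · rw [if_neg ab, if_neg (fun hh => ab hh.2.1), TG_zero]
    · ring
    · intro y hy
      rw [hc] at hy
      exact ab hy.2.1

/-- MODULE TH.  The condition does not depend on `y`. -/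
theorem tL14 {w : W5 K} (hw : w.Iso) (h0 : w ≠ 0) :
    (∑ y : K, bas 14 (L3m y w)) = qr K * bas 14 w := by
  refine TH_const 14 fun y => ?_
  show (w.x4 + y * (w.x1 + w.x2) = 0 ∧ w.x1 = 0 ∧ w.x2 = 0) ↔ (w.x4 = 0 ∧ w.x1 = 0 ∧ w.x2 = 0)
  constructor
  · rintro ⟨a, b, c⟩
    rw [b, c, add_zero, mul_zero, add_zero] at a
    exact ⟨a, b, c⟩
  · rintro ⟨a, b, c⟩
    refine ⟨?_, b, c⟩
    rw [b, c, add_zero, mul_zero, add_zero, a]

/-- MODULE TG.  The conditions are `x1 = x2 = 0`, `x3 + y * x0 = 0`, `x4 = 0`, so `x0 ≠ 0`: one value of `y`. -/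
theorem tL15 {w : W5 K} (hw : w.Iso) (h0 : w ≠ 0) :
    (∑ y : K, bas 15 (L3m y w)) = bas 14 w - bas 19 w := by
  have hI : w.x0 * w.x4 = w.x1 * w.x2 + w.x1 * w.x3 + w.x2 * w.x3 := hw
  rw [TG_bas 14 w (w.x4 = 0 ∧ w.x1 = 0 ∧ w.x2 = 0) Iff.rfl h0,
    TG_bas 19 w (w.x0 = 0 ∧ w.x1 = 0 ∧ w.x2 = 0 ∧ w.x4 = 0) Iff.rfl h0]
  have hc : ∀ y, bc 15 (L3m y w) ↔
      (w.x1 = 0 ∧ w.x2 = 0 ∧ w.x3 + y * w.x0 = 0 ∧ w.x4 + y * (w.x1 + w.x2) = 0) :=
    fun y => Iff.rfl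
  by_cases h : w.x4 = 0 ∧ w.x1 = 0 ∧ w.x2 = 0
  · obtain ⟨a4, a1, a2⟩ := h
    rw [if_pos ⟨a4, a1, a2⟩]
    by_cases a0 : w.x0 = 0
    · rw [if_pos ⟨a0, a1, a2, a4⟩, TG_zero]
      · ring
      · intro y hy
        rw [hc, a0, mul_zero, add_zero] at hy
        exact h0 (TG_ext a0 a1 a2 hy.2.2.1 a4)
    · rw [if_neg (fun hh => a0 hh.1), TG_lin 15 h0 w.x0 w.x3 a0]
      · ring
      · intro y
        rw [hc]
        constructor
        · rintro ⟨-, -, h1, -⟩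
          linear_combination h1
        · intro h1
          refine ⟨a1, a2, by linear_combination h1, by rw [a1, a2, a4, add_zero, mul_zero, add_zero]⟩
  · rw [if_neg h, if_neg (fun hh => h ⟨hh.2.2.2, hh.2.1, hh.2.2.1⟩), TG_zero]
    · ring
    · intro y hy
      rw [hc] at hy
      obtain ⟨a1, a2, -, a4⟩ := hy
      rw [a1, a2, add_zero, mul_zero, add_zero] at a4
      exact h ⟨a4, a1, a2⟩

/-- MODULE TH.  The condition does not depend on `y`. -/
theorem tL16 {w : W5 K} (hw : w.Iso) (h0 : w ≠ 0) :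
    (∑ y : K, bas 16 (L3m y w)) = qr K * bas 16 w := by
  refine TH_const 16 fun y => ?_
  show (w.x0 = 0 ∧ w.x1 = 0 ∧ w.x2 = 0 ∧ w.x3 + y * w.x0 = 0) ↔
    (w.x0 = 0 ∧ w.x1 = 0 ∧ w.x2 = 0 ∧ w.x3 = 0)
  constructor
  · rintro ⟨a, b, c, d⟩
    rw [a, mul_zero, add_zero] at d
    exact ⟨a, b, c, d⟩
  · rintro ⟨a, b, c, d⟩
    refine ⟨a, b, c, ?_⟩
    rw [a, mul_zero, add_zero, d]

/-- MODULE TG.  The conditions are `x0 = x2 = 0`, `x3 = 0`, `x4 + y * x1 = 0`, so `x1 ≠ 0`: one value of `y`. -/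
theorem tL17 {w : W5 K} (hw : w.Iso) (h0 : w ≠ 0) :
    (∑ y : K, bas 17 (L3m y w)) = bas 9 w - bas 16 w := by
  have hI : w.x0 * w.x4 = w.x1 * w.x2 + w.x1 * w.x3 + w.x2 * w.x3 := hw
  rw [TG_bas 9 w (w.x0 = 0 ∧ w.x2 = 0 ∧ w.x3 = 0) Iff.rfl h0,
    TG_bas 16 w (w.x0 = 0 ∧ w.x1 = 0 ∧ w.x2 = 0 ∧ w.x3 = 0) Iff.rfl h0]
  have hc : ∀ y, bc 17 (L3m y w) ↔
      (w.x0 = 0 ∧ w.x2 = 0 ∧ w.x3 + y * w.x0 = 0 ∧ w.x4 + y * (w.x1 + w.x2) = 0) :=
    fun y => Iff.rfl
  by_cases h : w.x0 = 0 ∧ w.x2 = 0 ∧ w.x3 = 0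
  · obtain ⟨a0, ab, a3⟩ := h
    rw [if_pos ⟨a0, ab, a3⟩]
    by_cases aa : w.x1 = 0
    · rw [if_pos ⟨a0, aa, ab, a3⟩, TG_zero]
      · ring
      · intro y hy
        rw [hc, aa, ab, add_zero, mul_zero, add_zero] at hy
        exact h0 (TG_ext a0 aa ab a3 hy.2.2.2)
    · rw [if_neg (fun hh => aa hh.2.1), TG_lin 17 h0 w.x1 w.x4 aa]
      · ring
      · intro y
        rw [hc]
        constructor
        · rintro ⟨-, -, -, h1⟩
          rw [ab] at h1
          linear_combination h1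
        · intro h1
          refine ⟨a0, ab, by rw [a0, a3, mul_zero, add_zero], ?_⟩
          rw [ab]
          linear_combination h1
  · rw [if_neg h, if_neg (fun hh => h ⟨hh.1, hh.2.2.1, hh.2.2.2⟩), TG_zero]
    · ring
    · intro y hy
      rw [hc] at hy
      obtain ⟨a0, ab, a3, -⟩ := hy
      rw [a0, mul_zero, add_zero] at a3
      exact h ⟨a0, ab, a3⟩

/-- MODULE TG.  As the row 17 with `x2`. -/
theorem tL18 {w : W5 K} (hw : w.Iso) (h0 : w ≠ 0) :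
    (∑ y : K, bas 18 (L3m y w)) = bas 10 w - bas 16 w := by
  have hI : w.x0 * w.x4 = w.x1 * w.x2 + w.x1 * w.x3 + w.x2 * w.x3 := hw
  rw [TG_bas 10 w (w.x0 = 0 ∧ w.x1 = 0 ∧ w.x3 = 0) Iff.rfl h0,
    TG_bas 16 w (w.x0 = 0 ∧ w.x1 = 0 ∧ w.x2 = 0 ∧ w.x3 = 0) Iff.rfl h0]
  have hc : ∀ y, bc 18 (L3m y w) ↔
      (w.x0 = 0 ∧ w.x1 = 0 ∧ w.x3 + y * w.x0 = 0 ∧ w.x4 + y * (w.x1 + w.x2) = 0) :=
    fun y => Iff.rfl
  by_cases h : w.x0 = 0 ∧ w.x1 = 0 ∧ w.x3 = 0
  · obtain ⟨a0, ab, a3⟩ := h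
    rw [if_pos ⟨a0, ab, a3⟩]
    by_cases aa : w.x2 = 0
    · rw [if_pos ⟨a0, ab, aa, a3⟩, TG_zero]
      · ring
      · intro y hy
        rw [hc, aa, ab, add_zero, mul_zero, add_zero] at hy
        exact h0 (TG_ext a0 ab aa a3 hy.2.2.2)
    · rw [if_neg (fun hh => aa hh.2.2.1), TG_lin 18 h0 w.x2 w.x4 aa]
      · ring
      · intro y
        rw [hc]
        constructor
        · rintro ⟨-, -, -, h1⟩
          rw [ab] at h1
          linear_combination h1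
        · intro h1
          refine ⟨a0, ab, by rw [a0, a3, mul_zero, add_zero], ?_⟩
          rw [ab]
          linear_combination h1
  · rw [if_neg h, if_neg (fun hh => h ⟨hh.1, hh.2.1, hh.2.2.2⟩), TG_zero]
    · ring
    · intro y hy
      rw [hc] at hy
      obtain ⟨a0, ab, a3, -⟩ := hy
      rw [a0, mul_zero, add_zero] at a3
      exact h ⟨a0, ab, a3⟩

/-- MODULE TH.  The condition does not depend on `y`. -/
theorem tL19 {w : W5 K} (hw : w.Iso) (h0 : w ≠ 0) :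
    (∑ y : K, bas 19 (L3m y w)) = qr K * bas 19 w := by
  refine TH_const 19 fun y => ?_
  show (w.x0 = 0 ∧ w.x1 = 0 ∧ w.x2 = 0 ∧ w.x4 + y * (w.x1 + w.x2) = 0) ↔
    (w.x0 = 0 ∧ w.x1 = 0 ∧ w.x2 = 0 ∧ w.x4 = 0)
  constructor
  · rintro ⟨a, b, c, d⟩
    rw [b, c, add_zero, mul_zero, add_zero] at d
    exact ⟨a, b, c, d⟩
  · rintro ⟨a, b, c, d⟩
    refine ⟨a, b, c, ?_⟩
    rw [b, c, add_zero, mul_zero, add_zero, d]

private theorem TI_bas (i : Fin 20) (v : W5 K) (P : Prop) [Decidable P] (h : bc i v ↔ P) (hv : v ≠ 0) :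
    bas i v = if P then 1 else 0 := by
  unfold bas
  by_cases hP : P
  · rw [if_pos ⟨hv, h.2 hP⟩, if_pos hP]
  · rw [if_neg (fun hh => hP (h.1 hh.2)), if_neg hP]

private theorem TI_nil (i : Fin 20) (v : W5 K) (h : ¬ (v ≠ 0 ∧ bc i v)) : bas i v = 0 := by
  unfold bas
  rw [if_neg h]

private theorem TI_z {w : W5 K} (hw : w.Iso) (h0 : w ≠ 0) :
    P3m 0 w = 0 ↔ (w.x4 = 0 ∧ w.x1 = 0 ∧ w.x2 = 0) := by
  rw [P3m_eq_zero hw h0]
  constructor
  · rintro ⟨-, a, b, c⟩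
    exact ⟨c, a, b⟩
  · rintro ⟨c, a, b⟩
    exact ⟨rfl, a, b, c⟩

private theorem TI_z2 {w : W5 K} (hw : w.Iso) (a : w.x1 + w.x2 = 0) (b : w.x4 = 0) :
    w.x4 = 0 ∧ w.x1 = 0 ∧ w.x2 = 0 := by
  have hI : w.x0 * w.x4 = w.x1 * w.x2 + w.x1 * w.x3 + w.x2 * w.x3 := hw
  have e5 : w.x2 = - w.x1 := eq_neg_of_add_eq_zero_right a
  rw [b, e5] at hI
  have e6 : w.x1 * w.x1 = 0 := by linear_combination hI
  have e7 : w.x1 = 0 := mul_self_eq_zero.1 e6
  exact ⟨b, e7, by rw [e5, e7, neg_zero]⟩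

private theorem TI_gen (i : Fin 20) {w : W5 K} (hw : w.Iso) (h0 : w ≠ 0) (Q : Prop) [Decidable Q]
    (h : bc i (P3m 0 w) ↔ Q) (hQ : (w.x4 = 0 ∧ w.x1 = 0 ∧ w.x2 = 0) → Q) :
    bas i (P3m 0 w) = (if Q then 1 else 0) - bas 14 w := by
  rw [TI_bas 14 w (w.x4 = 0 ∧ w.x1 = 0 ∧ w.x2 = 0) Iff.rfl h0]
  by_cases hz : w.x4 = 0 ∧ w.x1 = 0 ∧ w.x2 = 0
  · rw [if_pos (hQ hz), if_pos hz, sub_self]
    exact TI_nil i _ (fun hh => hh.1 ((TI_z hw h0).2 hz))
  · rw [if_neg hz, sub_zero]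
    exact TI_bas i _ Q h (fun hh => hz ((TI_z hw h0).1 hh))

private theorem TI_all (i : Fin 20) {w : W5 K} (hw : w.Iso) (h0 : w ≠ 0) (h : bc i (P3m 0 w)) :
    bas i (P3m 0 w) = bas 0 w - bas 14 w := by
  rw [TI_gen i hw h0 True (iff_of_true h trivial) (fun _ => trivial),
    TI_bas 0 w True Iff.rfl h0]

private theorem TI_e8 (i : Fin 20) {w : W5 K} (hw : w.Iso) (h0 : w ≠ 0)
    (h : bc i (P3m 0 w) ↔ w.x1 + w.x2 = 0) :
    bas i (P3m 0 w) = bas 8 w - bas 14 w := by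
  rw [TI_gen i hw h0 (w.x1 + w.x2 = 0) h (fun hh => by rw [hh.2.1, hh.2.2, add_zero]),
    TI_bas 8 w (w.x1 + w.x2 = 0) Iff.rfl h0]

private theorem TI_e2 (i : Fin 20) {w : W5 K} (hw : w.Iso) (h0 : w ≠ 0)
    (h : bc i (P3m 0 w) ↔ w.x4 = 0) :
    bas i (P3m 0 w) = bas 2 w - bas 14 w := by
  rw [TI_gen i hw h0 (w.x4 = 0) h (fun hh => hh.1), TI_bas 2 w (w.x4 = 0) Iff.rfl h0]

private theorem TI_e0 (i : Fin 20) {w : W5 K} (hw : w.Iso) (h0 : w ≠ 0)
    (h : bc i (P3m 0 w) → w.x1 + w.x2 = 0 ∧ w.x4 = 0) : bas i (P3m 0 w) = 0 :=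
  TI_nil i _ (fun hh => hh.1 ((TI_z hw h0).2 (TI_z2 hw (h hh.2).1 (h hh.2).2)))

/-- MODULE TI.  `P3m 0 w = (x1 + x2, 0, 0, x4, 0)`. -/
theorem tN0 {w : W5 K} (hw : w.Iso) (h0 : w ≠ 0) :
    bas 0 (P3m 0 w) = bas 0 w - bas 14 w := by
  exact TI_all 0 hw h0 trivial

/-- MODULE TI.  `P3m 0 w = (x1 + x2, 0, 0, x4, 0)`. -/
theorem tN1 {w : W5 K} (hw : w.Iso) (h0 : w ≠ 0) :
    bas 1 (P3m 0 w) = bas 8 w - bas 14 w := by
  refine TI_e8 1 hw h0 ?_
  show (0 * w.x0 + w.x1 + w.x2 = 0) ↔ w.x1 + w.x2 = 0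
  simp

/-- MODULE TI.  `P3m 0 w = (x1 + x2, 0, 0, x4, 0)`. -/
theorem tN2 {w : W5 K} (hw : w.Iso) (h0 : w ≠ 0) :
    bas 2 (P3m 0 w) = bas 0 w - bas 14 w := by
  refine TI_all 2 hw h0 ?_
  show 0 * w.x4 = 0
  simp

/-- MODULE TI.  `P3m 0 w = (x1 + x2, 0, 0, x4, 0)`. -/
theorem tN3 {w : W5 K} (hw : w.Iso) (h0 : w ≠ 0) :
    bas 3 (P3m 0 w) = bas 0 w - bas 14 w := by
  refine TI_all 3 hw h0 ?_
  show 0 * w.x1 = 0
  simp

/-- MODULE TI.  `P3m 0 w = (x1 + x2, 0, 0, x4, 0)`. -/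
theorem tN4 {w : W5 K} (hw : w.Iso) (h0 : w ≠ 0) :
    bas 4 (P3m 0 w) = bas 0 w - bas 14 w := by
  refine TI_all 4 hw h0 ?_
  show 0 * w.x2 = 0
  simp

/-- MODULE TI.  `P3m 0 w = (x1 + x2, 0, 0, x4, 0)`. -/
theorem tN5 {w : W5 K} (hw : w.Iso) (h0 : w ≠ 0) :
    bas 5 (P3m 0 w) = bas 2 w - bas 14 w := by
  refine TI_e2 5 hw h0 ?_
  show (0 * w.x3 + w.x4 = 0) ↔ w.x4 = 0
  simp

/-- MODULE TI.  `P3m 0 w = (x1 + x2, 0, 0, x4, 0)`. -/
theorem tN6 {w : W5 K} (hw : w.Iso) (h0 : w ≠ 0) :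
    bas 6 (P3m 0 w) = bas 2 w - bas 14 w := by
  refine TI_e2 6 hw h0 ?_
  show (0 * w.x2 + (0 * w.x3 + w.x4) = 0) ↔ w.x4 = 0
  simp

/-- MODULE TI.  `P3m 0 w = (x1 + x2, 0, 0, x4, 0)`. -/
theorem tN7 {w : W5 K} (hw : w.Iso) (h0 : w ≠ 0) :
    bas 7 (P3m 0 w) = bas 2 w - bas 14 w := by
  refine TI_e2 7 hw h0 ?_
  show (0 * w.x1 + (0 * w.x3 + w.x4) = 0) ↔ w.x4 = 0
  simp

/-- MODULE TI.  `P3m 0 w = (x1 + x2, 0, 0, x4, 0)`. -/
theorem tN8 {w : W5 K} (hw : w.Iso) (h0 : w ≠ 0) :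
    bas 8 (P3m 0 w) = bas 0 w - bas 14 w := by
  refine TI_all 8 hw h0 ?_
  show 0 * w.x1 + 0 * w.x2 = 0
  simp

/-- MODULE TI.  `P3m 0 w = (x1 + x2, 0, 0, x4, 0)`. -/
theorem tN9 {w : W5 K} (hw : w.Iso) (h0 : w ≠ 0) :
    bas 9 (P3m 0 w) = 0 := by
  refine TI_e0 9 hw h0 ?_
  show (0 * w.x0 + w.x1 + w.x2 = 0 ∧ 0 * w.x2 = 0 ∧ 0 * w.x3 + w.x4 = 0) → w.x1 + w.x2 = 0 ∧ w.x4 = 0
  simp

/-- MODULE TI.  `P3m 0 w = (x1 + x2, 0, 0, x4, 0)`. -/
theorem tN10 {w : W5 K} (hw : w.Iso) (h0 : w ≠ 0) :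
    bas 10 (P3m 0 w) = 0 := by
  refine TI_e0 10 hw h0 ?_
  show (0 * w.x0 + w.x1 + w.x2 = 0 ∧ 0 * w.x1 = 0 ∧ 0 * w.x3 + w.x4 = 0) → w.x1 + w.x2 = 0 ∧ w.x4 = 0
  simp

/-- MODULE TI.  `P3m 0 w = (x1 + x2, 0, 0, x4, 0)`. -/
theorem tN11 {w : W5 K} (hw : w.Iso) (h0 : w ≠ 0) :
    bas 11 (P3m 0 w) = bas 8 w - bas 14 w := by
  refine TI_e8 11 hw h0 ?_
  show (0 * w.x0 + w.x1 + w.x2 = 0 ∧ 0 * w.x1 = 0 ∧ 0 * w.x2 = 0) ↔ w.x1 + w.x2 = 0
  simp

/-- MODULE TI.  `P3m 0 w = (x1 + x2, 0, 0, x4, 0)`. -/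
theorem tN12 {w : W5 K} (hw : w.Iso) (h0 : w ≠ 0) :
    bas 12 (P3m 0 w) = bas 2 w - bas 14 w := by
  refine TI_e2 12 hw h0 ?_
  show (0 * w.x4 = 0 ∧ 0 * w.x2 = 0 ∧ 0 * w.x3 + w.x4 = 0) ↔ w.x4 = 0
  simp

/-- MODULE TI.  `P3m 0 w = (x1 + x2, 0, 0, x4, 0)`. -/
theorem tN13 {w : W5 K} (hw : w.Iso) (h0 : w ≠ 0) :
    bas 13 (P3m 0 w) = bas 2 w - bas 14 w := by
  refine TI_e2 13 hw h0 ?_
  show (0 * w.x4 = 0 ∧ 0 * w.x1 = 0 ∧ 0 * w.x3 + w.x4 = 0) ↔ w.x4 = 0
  simp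

/-- MODULE TI.  `P3m 0 w = (x1 + x2, 0, 0, x4, 0)`. -/
theorem tN14 {w : W5 K} (hw : w.Iso) (h0 : w ≠ 0) :
    bas 14 (P3m 0 w) = bas 0 w - bas 14 w := by
  refine TI_all 14 hw h0 ?_
  show 0 * w.x4 = 0 ∧ 0 * w.x1 = 0 ∧ 0 * w.x2 = 0
  simp

/-- MODULE TI.  `P3m 0 w = (x1 + x2, 0, 0, x4, 0)`. -/
theorem tN15 {w : W5 K} (hw : w.Iso) (h0 : w ≠ 0) :
    bas 15 (P3m 0 w) = bas 2 w - bas 14 w := by
  refine TI_e2 15 hw h0 ?_
  show (0 * w.x1 = 0 ∧ 0 * w.x2 = 0 ∧ 0 * w.x3 + w.x4 = 0 ∧ 0 * w.x4 = 0) ↔ w.x4 = 0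
  simp

/-- MODULE TI.  `P3m 0 w = (x1 + x2, 0, 0, x4, 0)`. -/
theorem tN16 {w : W5 K} (hw : w.Iso) (h0 : w ≠ 0) :
    bas 16 (P3m 0 w) = 0 := by
  refine TI_e0 16 hw h0 ?_
  show (0 * w.x0 + w.x1 + w.x2 = 0 ∧ 0 * w.x1 = 0 ∧ 0 * w.x2 = 0 ∧ 0 * w.x3 + w.x4 = 0) → w.x1 + w.x2 = 0 ∧ w.x4 = 0
  simp

/-- MODULE TI.  `P3m 0 w = (x1 + x2, 0, 0, x4, 0)`. -/
theorem tN17 {w : W5 K} (hw : w.Iso) (h0 : w ≠ 0) :
    bas 17 (P3m 0 w) = 0 := by
  refine TI_e0 17 hw h0 ?_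
  show (0 * w.x0 + w.x1 + w.x2 = 0 ∧ 0 * w.x2 = 0 ∧ 0 * w.x3 + w.x4 = 0 ∧ 0 * w.x4 = 0) → w.x1 + w.x2 = 0 ∧ w.x4 = 0
  simp

/-- MODULE TI.  `P3m 0 w = (x1 + x2, 0, 0, x4, 0)`. -/
theorem tN18 {w : W5 K} (hw : w.Iso) (h0 : w ≠ 0) :
    bas 18 (P3m 0 w) = 0 := by
  refine TI_e0 18 hw h0 ?_
  show (0 * w.x0 + w.x1 + w.x2 = 0 ∧ 0 * w.x1 = 0 ∧ 0 * w.x3 + w.x4 = 0 ∧ 0 * w.x4 = 0) → w.x1 + w.x2 = 0 ∧ w.x4 = 0
  simp

/-- MODULE TI.  `P3m 0 w = (x1 + x2, 0, 0, x4, 0)`. -/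
theorem tN19 {w : W5 K} (hw : w.Iso) (h0 : w ≠ 0) :
    bas 19 (P3m 0 w) = bas 8 w - bas 14 w := by
  refine TI_e8 19 hw h0 ?_
  show (0 * w.x0 + w.x1 + w.x2 = 0 ∧ 0 * w.x1 = 0 ∧ 0 * w.x2 = 0 ∧ 0 * w.x4 = 0) ↔ w.x1 + w.x2 = 0
  simp

private theorem ATab_tj_zero (w : W5 K) : w = 0 ↔ w.x0 = 0 ∧ w.x1 = 0 ∧ w.x2 = 0 ∧ w.x3 = 0 ∧ w.x4 = 0 := by
  rw [W5.ext_iff]
  exact Iff.rfl

private theorem ATab_tj_key {w : W5 K} (hw : w.Iso) (h : w.x0 = 0) (h' : w.x1 + w.x2 = 0) : w.x1 = 0 ∧ w.x2 = 0 := by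
  have h1 : w.x1 * w.x2 = 0 := by
    have h2 : w.x0 * w.x4 = w.x1 * w.x2 + w.x1 * w.x3 + w.x2 * w.x3 := hw
    rw [h] at h2
    have h3 : w.x1 * w.x2 = -(w.x3 * (w.x1 + w.x2)) := by linear_combination -h2
    rw [h3, h']
    simp
  rcases mul_eq_zero.1 h1 with h2 | h2
  · exact ⟨h2, by simpa [h2] using h'⟩
  · exact ⟨by simpa [h2] using h', h2⟩

/-- MODULE TJ.  `M3m w = (0, 0, 0, x0, x1 + x2)`. -/
theorem tM0 {w : W5 K} (hw : w.Iso) (h0 : w ≠ 0) :
    bas 0 (M3m w) = bas 0 w - bas 11 w := by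
  have hk := ATab_tj_key hw
  by_cases hx : w.x0 = 0 <;> by_cases hy : w.x1 + w.x2 = 0 <;> by_cases h1 : w.x1 = 0 <;> by_cases h2 : w.x2 = 0 <;>
    simp_all [bas, bc, ATab_tj_zero, M3m]

/-- MODULE TJ.  `M3m w = (0, 0, 0, x0, x1 + x2)`. -/
theorem tM1 {w : W5 K} (hw : w.Iso) (h0 : w ≠ 0) :
    bas 1 (M3m w) = bas 0 w - bas 11 w := by
  have hk := ATab_tj_key hw
  by_cases hx : w.x0 = 0 <;> by_cases hy : w.x1 + w.x2 = 0 <;> by_cases h1 : w.x1 = 0 <;> by_cases h2 : w.x2 = 0 <;>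
    simp_all [bas, bc, ATab_tj_zero, M3m]

/-- MODULE TJ.  `M3m w = (0, 0, 0, x0, x1 + x2)`. -/
theorem tM2 {w : W5 K} (hw : w.Iso) (h0 : w ≠ 0) :
    bas 2 (M3m w) = bas 8 w - bas 11 w := by
  have hk := ATab_tj_key hw
  by_cases hx : w.x0 = 0 <;> by_cases hy : w.x1 + w.x2 = 0 <;> by_cases h1 : w.x1 = 0 <;> by_cases h2 : w.x2 = 0 <;>
    simp_all [bas, bc, ATab_tj_zero, M3m]

/-- MODULE TJ.  `M3m w = (0, 0, 0, x0, x1 + x2)`. -/
theorem tM3 {w : W5 K} (hw : w.Iso) (h0 : w ≠ 0) :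
    bas 3 (M3m w) = bas 0 w - bas 11 w := by
  have hk := ATab_tj_key hw
  by_cases hx : w.x0 = 0 <;> by_cases hy : w.x1 + w.x2 = 0 <;> by_cases h1 : w.x1 = 0 <;> by_cases h2 : w.x2 = 0 <;>
    simp_all [bas, bc, ATab_tj_zero, M3m]

/-- MODULE TJ.  `M3m w = (0, 0, 0, x0, x1 + x2)`. -/
theorem tM4 {w : W5 K} (hw : w.Iso) (h0 : w ≠ 0) :
    bas 4 (M3m w) = bas 0 w - bas 11 w := by
  have hk := ATab_tj_key hw
  by_cases hx : w.x0 = 0 <;> by_cases hy : w.x1 + w.x2 = 0 <;> by_cases h1 : w.x1 = 0 <;> by_cases h2 : w.x2 = 0 <;>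
    simp_all [bas, bc, ATab_tj_zero, M3m]

/-- MODULE TJ.  `M3m w = (0, 0, 0, x0, x1 + x2)`. -/
theorem tM5 {w : W5 K} (hw : w.Iso) (h0 : w ≠ 0) :
    bas 5 (M3m w) = bas 1 w - bas 11 w := by
  have hk := ATab_tj_key hw
  by_cases hx : w.x0 = 0 <;> by_cases hy : w.x1 + w.x2 = 0 <;> by_cases h1 : w.x1 = 0 <;> by_cases h2 : w.x2 = 0 <;>
    simp_all [bas, bc, ATab_tj_zero, M3m]

/-- MODULE TJ.  `M3m w = (0, 0, 0, x0, x1 + x2)`. -/
theorem tM6 {w : W5 K} (hw : w.Iso) (h0 : w ≠ 0) :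
    bas 6 (M3m w) = bas 1 w - bas 11 w := by
  have hk := ATab_tj_key hw
  by_cases hx : w.x0 = 0 <;> by_cases hy : w.x1 + w.x2 = 0 <;> by_cases h1 : w.x1 = 0 <;> by_cases h2 : w.x2 = 0 <;>
    simp_all [bas, bc, ATab_tj_zero, M3m]

/-- MODULE TJ.  `M3m w = (0, 0, 0, x0, x1 + x2)`. -/
theorem tM7 {w : W5 K} (hw : w.Iso) (h0 : w ≠ 0) :
    bas 7 (M3m w) = bas 1 w - bas 11 w := by
  have hk := ATab_tj_key hw
  by_cases hx : w.x0 = 0 <;> by_cases hy : w.x1 + w.x2 = 0 <;> by_cases h1 : w.x1 = 0 <;> by_cases h2 : w.x2 = 0 <;>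
    simp_all [bas, bc, ATab_tj_zero, M3m]

/-- MODULE TJ.  `M3m w = (0, 0, 0, x0, x1 + x2)`. -/
theorem tM8 {w : W5 K} (hw : w.Iso) (h0 : w ≠ 0) :
    bas 8 (M3m w) = bas 0 w - bas 11 w := by
  have hk := ATab_tj_key hw
  by_cases hx : w.x0 = 0 <;> by_cases hy : w.x1 + w.x2 = 0 <;> by_cases h1 : w.x1 = 0 <;> by_cases h2 : w.x2 = 0 <;>
    simp_all [bas, bc, ATab_tj_zero, M3m]

/-- MODULE TJ.  `M3m w = (0, 0, 0, x0, x1 + x2)`. -/
theorem tM9 {w : W5 K} (hw : w.Iso) (h0 : w ≠ 0) :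
    bas 9 (M3m w) = bas 1 w - bas 11 w := by
  have hk := ATab_tj_key hw
  by_cases hx : w.x0 = 0 <;> by_cases hy : w.x1 + w.x2 = 0 <;> by_cases h1 : w.x1 = 0 <;> by_cases h2 : w.x2 = 0 <;>
    simp_all [bas, bc, ATab_tj_zero, M3m]

/-- MODULE TJ.  `M3m w = (0, 0, 0, x0, x1 + x2)`. -/
theorem tM10 {w : W5 K} (hw : w.Iso) (h0 : w ≠ 0) :
    bas 10 (M3m w) = bas 1 w - bas 11 w := by
  have hk := ATab_tj_key hw
  by_cases hx : w.x0 = 0 <;> by_cases hy : w.x1 + w.x2 = 0 <;> by_cases h1 : w.x1 = 0 <;> by_cases h2 : w.x2 = 0 <;>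
    simp_all [bas, bc, ATab_tj_zero, M3m]

/-- MODULE TJ.  `M3m w = (0, 0, 0, x0, x1 + x2)`. -/
theorem tM11 {w : W5 K} (hw : w.Iso) (h0 : w ≠ 0) :
    bas 11 (M3m w) = bas 0 w - bas 11 w := by
  have hk := ATab_tj_key hw
  by_cases hx : w.x0 = 0 <;> by_cases hy : w.x1 + w.x2 = 0 <;> by_cases h1 : w.x1 = 0 <;> by_cases h2 : w.x2 = 0 <;>
    simp_all [bas, bc, ATab_tj_zero, M3m]

/-- MODULE TJ.  `M3m w = (0, 0, 0, x0, x1 + x2)`. -/
theorem tM12 {w : W5 K} (hw : w.Iso) (h0 : w ≠ 0) :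
    bas 12 (M3m w) = 0 := by
  have hk := ATab_tj_key hw
  by_cases hx : w.x0 = 0 <;> by_cases hy : w.x1 + w.x2 = 0 <;> by_cases h1 : w.x1 = 0 <;> by_cases h2 : w.x2 = 0 <;>
    simp_all [bas, bc, ATab_tj_zero, M3m]

/-- MODULE TJ.  `M3m w = (0, 0, 0, x0, x1 + x2)`. -/
theorem tM13 {w : W5 K} (hw : w.Iso) (h0 : w ≠ 0) :
    bas 13 (M3m w) = 0 := by
  have hk := ATab_tj_key hw
  by_cases hx : w.x0 = 0 <;> by_cases hy : w.x1 + w.x2 = 0 <;> by_cases h1 : w.x1 = 0 <;> by_cases h2 : w.x2 = 0 <;>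
    simp_all [bas, bc, ATab_tj_zero, M3m]

/-- MODULE TJ.  `M3m w = (0, 0, 0, x0, x1 + x2)`. -/
theorem tM14 {w : W5 K} (hw : w.Iso) (h0 : w ≠ 0) :
    bas 14 (M3m w) = bas 8 w - bas 11 w := by
  have hk := ATab_tj_key hw
  by_cases hx : w.x0 = 0 <;> by_cases hy : w.x1 + w.x2 = 0 <;> by_cases h1 : w.x1 = 0 <;> by_cases h2 : w.x2 = 0 <;>
    simp_all [bas, bc, ATab_tj_zero, M3m]

/-- MODULE TJ.  `M3m w = (0, 0, 0, x0, x1 + x2)`. -/
theorem tM15 {w : W5 K} (hw : w.Iso) (h0 : w ≠ 0) :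
    bas 15 (M3m w) = 0 := by
  have hk := ATab_tj_key hw
  by_cases hx : w.x0 = 0 <;> by_cases hy : w.x1 + w.x2 = 0 <;> by_cases h1 : w.x1 = 0 <;> by_cases h2 : w.x2 = 0 <;>
    simp_all [bas, bc, ATab_tj_zero, M3m]

/-- MODULE TJ.  `M3m w = (0, 0, 0, x0, x1 + x2)`. -/
theorem tM16 {w : W5 K} (hw : w.Iso) (h0 : w ≠ 0) :
    bas 16 (M3m w) = bas 1 w - bas 11 w := by
  have hk := ATab_tj_key hw
  by_cases hx : w.x0 = 0 <;> by_cases hy : w.x1 + w.x2 = 0 <;> by_cases h1 : w.x1 = 0 <;> by_cases h2 : w.x2 = 0 <;>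
    simp_all [bas, bc, ATab_tj_zero, M3m]

/-- MODULE TJ.  `M3m w = (0, 0, 0, x0, x1 + x2)`. -/
theorem tM17 {w : W5 K} (hw : w.Iso) (h0 : w ≠ 0) :
    bas 17 (M3m w) = 0 := by
  have hk := ATab_tj_key hw
  by_cases hx : w.x0 = 0 <;> by_cases hy : w.x1 + w.x2 = 0 <;> by_cases h1 : w.x1 = 0 <;> by_cases h2 : w.x2 = 0 <;>
    simp_all [bas, bc, ATab_tj_zero, M3m]

/-- MODULE TJ.  `M3m w = (0, 0, 0, x0, x1 + x2)`. -/
theorem tM18 {w : W5 K} (hw : w.Iso) (h0 : w ≠ 0) :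
    bas 18 (M3m w) = 0 := by
  have hk := ATab_tj_key hw
  by_cases hx : w.x0 = 0 <;> by_cases hy : w.x1 + w.x2 = 0 <;> by_cases h1 : w.x1 = 0 <;> by_cases h2 : w.x2 = 0 <;>
    simp_all [bas, bc, ATab_tj_zero, M3m]

/-- MODULE TJ.  `M3m w = (0, 0, 0, x0, x1 + x2)`. -/
theorem tM19 {w : W5 K} (hw : w.Iso) (h0 : w ≠ 0) :
    bas 19 (M3m w) = bas 8 w - bas 11 w := by
  have hk := ATab_tj_key hw
  by_cases hx : w.x0 = 0 <;> by_cases hy : w.x1 + w.x2 = 0 <;> by_cases h1 : w.x1 = 0 <;> by_cases h2 : w.x2 = 0 <;>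
    simp_all [bas, bc, ATab_tj_zero, M3m]

private theorem A_TK_exp (v : Vc) (w : W5 K) : bq v w =
    lev (qr K) (v.getD 0 []) * bas 0 w + lev (qr K) (v.getD 1 []) * bas 1 w + lev (qr K) (v.getD 2 []) * bas 2 w
    + lev (qr K) (v.getD 3 []) * bas 3 w + lev (qr K) (v.getD 4 []) * bas 4 w + lev (qr K) (v.getD 5 []) * bas 5 w
    + lev (qr K) (v.getD 6 []) * bas 6 w + lev (qr K) (v.getD 7 []) * bas 7 w + lev (qr K) (v.getD 8 []) * bas 8 w
    + lev (qr K) (v.getD 9 []) * bas 9 w + lev (qr K) (v.getD 10 []) * bas 10 w + lev (qr K) (v.getD 11 []) * bas 11 w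
    + lev (qr K) (v.getD 12 []) * bas 12 w + lev (qr K) (v.getD 13 []) * bas 13 w + lev (qr K) (v.getD 14 []) * bas 14 w
    + lev (qr K) (v.getD 15 []) * bas 15 w + lev (qr K) (v.getD 16 []) * bas 16 w + lev (qr K) (v.getD 17 []) * bas 17 w
    + lev (qr K) (v.getD 18 []) * bas 18 w + lev (qr K) (v.getD 19 []) * bas 19 w := by
  unfold bq
  simp only [Fin.sum_univ_castSucc, Finset.univ_eq_empty, Finset.sum_empty, zero_add]
  rfl

omit [Fintype K] in
private theorem A_TK_P0 (y : K) : P3m y (0 : W5 K) = 0 := by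
  apply W5.ext
  · show y * 0 + 0 + 0 = (0 : K)
    ring
  · show y * 0 = (0 : K)
    ring
  · show y * 0 = (0 : K)
    ring
  · show y * 0 + 0 = (0 : K)
    ring
  · show y * 0 = (0 : K)
    ring

omit [Fintype K] in
private theorem A_TK_L0 (y : K) : L3m y (0 : W5 K) = 0 := by
  apply W5.ext
  · rfl
  · rfl
  · rfl
  · show 0 + y * 0 = (0 : K)
    ring
  · show 0 + y * (0 + 0) = (0 : K)
    ring

omit [Fintype K] in
private theorem A_TK_M0 : M3m (0 : W5 K) = 0 := by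
  apply W5.ext
  · rfl
  · rfl
  · rfl
  · rfl
  · show 0 + 0 = (0 : K)
    ring

/-- MODULE TK.  The rows `tP0, ..., tP19` (`fin_cases i`), `bq` is expanded by `Fin.sum_univ_succ`, `lev`. -/
theorem tabP (i : Fin 20) {w : W5 K} (hw : w.Iso) : (∑ y : K, bas i (P3m y w)) = bq (mP.getD i []) w := by
  by_cases h0 : w = 0
  · subst h0
    rw [bq_zero]
    exact Finset.sum_eq_zero fun y _ => by rw [A_TK_P0, bas_zero]
  · fin_cases i
    · refine (tP0 hw h0).trans ?_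
      rw [A_TK_exp]
      simp [mP, lev]
      try ring
    · refine (tP1 hw h0).trans ?_
      rw [A_TK_exp]
      simp [mP, lev]
      try ring
    · refine (tP2 hw h0).trans ?_
      rw [A_TK_exp]
      simp [mP, lev]
      try ring
    · refine (tP3 hw h0).trans ?_
      rw [A_TK_exp]
      simp [mP, lev]
      try ring
    · refine (tP4 hw h0).trans ?_
      rw [A_TK_exp]
      simp [mP, lev]
      try ring
    · refine (tP5 hw h0).trans ?_
      rw [A_TK_exp]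
      simp [mP, lev]
      try ring
    · refine (tP6 hw h0).trans ?_
      rw [A_TK_exp]
      simp [mP, lev]
      try ring
    · refine (tP7 hw h0).trans ?_
      rw [A_TK_exp]
      simp [mP, lev]
      try ring
    · refine (tP8 hw h0).trans ?_
      rw [A_TK_exp]
      simp [mP, lev]
      try ring
    · refine (tP9 hw h0).trans ?_
      rw [A_TK_exp]
      simp [mP, lev]
      try ring
    · refine (tP10 hw h0).trans ?_
      rw [A_TK_exp]
      simp [mP, lev]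
      try ring
    · refine (tP11 hw h0).trans ?_
      rw [A_TK_exp]
      simp [mP, lev]
      try ring
    · refine (tP12 hw h0).trans ?_
      rw [A_TK_exp]
      simp [mP, lev]
      try ring
    · refine (tP13 hw h0).trans ?_
      rw [A_TK_exp]
      simp [mP, lev]
      try ring
    · refine (tP14 hw h0).trans ?_
      rw [A_TK_exp]
      simp only [mP, lev, List.getD_cons_zero, List.getD_cons_succ]
      push_cast
      ring
    · refine (tP15 hw h0).trans ?_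
      rw [A_TK_exp]
      simp [mP, lev]
      try ring
    · refine (tP16 hw h0).trans ?_
      rw [A_TK_exp]
      simp [mP, lev]
      try ring
    · refine (tP17 hw h0).trans ?_
      rw [A_TK_exp]
      simp [mP, lev]
      try ring
    · refine (tP18 hw h0).trans ?_
      rw [A_TK_exp]
      simp [mP, lev]
      try ring
    · refine (tP19 hw h0).trans ?_
      rw [A_TK_exp]
      simp [mP, lev]
      try ring

/-- MODULE TK. -/
theorem tabL (i : Fin 20) {w : W5 K} (hw : w.Iso) : (∑ y : K, bas i (L3m y w)) = bq (mL.getD i []) w := by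
  by_cases h0 : w = 0
  · subst h0
    rw [bq_zero]
    exact Finset.sum_eq_zero fun y _ => by rw [A_TK_L0, bas_zero]
  · fin_cases i
    · refine (tL0 hw h0).trans ?_
      rw [A_TK_exp]
      simp [mL, lev]
      try ring
    · refine (tL1 hw h0).trans ?_
      rw [A_TK_exp]
      simp [mL, lev]
      try ring
    · refine (tL2 hw h0).trans ?_
      rw [A_TK_exp]
      simp [mL, lev]
      try ring
    · refine (tL3 hw h0).trans ?_
      rw [A_TK_exp]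
      simp [mL, lev]
      try ring
    · refine (tL4 hw h0).trans ?_
      rw [A_TK_exp]
      simp [mL, lev]
      try ring
    · refine (tL5 hw h0).trans ?_
      rw [A_TK_exp]
      simp [mL, lev]
      try ring
    · refine (tL6 hw h0).trans ?_
      rw [A_TK_exp]
      simp [mL, lev]
      try ring
    · refine (tL7 hw h0).trans ?_
      rw [A_TK_exp]
      simp [mL, lev]
      try ring
    · refine (tL8 hw h0).trans ?_
      rw [A_TK_exp]
      simp [mL, lev]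
      try ring
    · refine (tL9 hw h0).trans ?_
      rw [A_TK_exp]
      simp [mL, lev]
      try ring
    · refine (tL10 hw h0).trans ?_
      rw [A_TK_exp]
      simp [mL, lev]
      try ring
    · refine (tL11 hw h0).trans ?_
      rw [A_TK_exp]
      simp [mL, lev]
      try ring
    · refine (tL12 hw h0).trans ?_
      rw [A_TK_exp]
      simp [mL, lev]
      try ring
    · refine (tL13 hw h0).trans ?_
      rw [A_TK_exp]
      simp [mL, lev]
      try ring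
    · refine (tL14 hw h0).trans ?_
      rw [A_TK_exp]
      simp [mL, lev]
      try ring
    · refine (tL15 hw h0).trans ?_
      rw [A_TK_exp]
      simp [mL, lev]
      try ring
    · refine (tL16 hw h0).trans ?_
      rw [A_TK_exp]
      simp [mL, lev]
      try ring
    · refine (tL17 hw h0).trans ?_
      rw [A_TK_exp]
      simp [mL, lev]
      try ring
    · refine (tL18 hw h0).trans ?_
      rw [A_TK_exp]
      simp [mL, lev]
      try ring
    · refine (tL19 hw h0).trans ?_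
      rw [A_TK_exp]
      simp [mL, lev]
      try ring

/-- MODULE TK. -/
theorem tabN (i : Fin 20) {w : W5 K} (hw : w.Iso) : bas i (P3m 0 w) = bq (mN.getD i []) w := by
  by_cases h0 : w = 0
  · subst h0
    rw [bq_zero, A_TK_P0, bas_zero]
  · fin_cases i
    · refine (tN0 hw h0).trans ?_
      rw [A_TK_exp]
      simp [mN, lev]
      try ring
    · refine (tN1 hw h0).trans ?_
      rw [A_TK_exp]
      simp [mN, lev]
      try ring
    · refine (tN2 hw h0).trans ?_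
      rw [A_TK_exp]
      simp [mN, lev]
      try ring
    · refine (tN3 hw h0).trans ?_
      rw [A_TK_exp]
      simp [mN, lev]
      try ring
    · refine (tN4 hw h0).trans ?_
      rw [A_TK_exp]
      simp [mN, lev]
      try ring
    · refine (tN5 hw h0).trans ?_
      rw [A_TK_exp]
      simp [mN, lev]
      try ring
    · refine (tN6 hw h0).trans ?_
      rw [A_TK_exp]
      simp [mN, lev]
      try ring
    · refine (tN7 hw h0).trans ?_
      rw [A_TK_exp]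
      simp [mN, lev]
      try ring
    · refine (tN8 hw h0).trans ?_
      rw [A_TK_exp]
      simp [mN, lev]
      try ring
    · refine (tN9 hw h0).trans ?_
      rw [A_TK_exp]
      simp [mN, lev]
      try ring
    · refine (tN10 hw h0).trans ?_
      rw [A_TK_exp]
      simp [mN, lev]
      try ring
    · refine (tN11 hw h0).trans ?_
      rw [A_TK_exp]
      simp [mN, lev]
      try ring
    · refine (tN12 hw h0).trans ?_
      rw [A_TK_exp]
      simp [mN, lev]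
      try ring
    · refine (tN13 hw h0).trans ?_
      rw [A_TK_exp]
      simp [mN, lev]
      try ring
    · refine (tN14 hw h0).trans ?_
      rw [A_TK_exp]
      simp [mN, lev]
      try ring
    · refine (tN15 hw h0).trans ?_
      rw [A_TK_exp]
      simp [mN, lev]
      try ring
    · refine (tN16 hw h0).trans ?_
      rw [A_TK_exp]
      simp [mN, lev]
      try ring
    · refine (tN17 hw h0).trans ?_
      rw [A_TK_exp]
      simp [mN, lev]
      try ring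
    · refine (tN18 hw h0).trans ?_
      rw [A_TK_exp]
      simp [mN, lev]
      try ring
    · refine (tN19 hw h0).trans ?_
      rw [A_TK_exp]
      simp [mN, lev]
      try ring

/-- MODULE TK. -/
theorem tabM (i : Fin 20) {w : W5 K} (hw : w.Iso) : bas i (M3m w) = bq (mM.getD i []) w := by
  by_cases h0 : w = 0
  · subst h0
    rw [bq_zero, A_TK_M0, bas_zero]
  · fin_cases i
    · refine (tM0 hw h0).trans ?_
      rw [A_TK_exp]
      simp [mM, lev]
      try ring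
    · refine (tM1 hw h0).trans ?_
      rw [A_TK_exp]
      simp [mM, lev]
      try ring
    · refine (tM2 hw h0).trans ?_
      rw [A_TK_exp]
      simp [mM, lev]
      try ring
    · refine (tM3 hw h0).trans ?_
      rw [A_TK_exp]
      simp [mM, lev]
      try ring
    · refine (tM4 hw h0).trans ?_
      rw [A_TK_exp]
      simp [mM, lev]
      try ring
    · refine (tM5 hw h0).trans ?_
      rw [A_TK_exp]
      simp [mM, lev]
      try ring
    · refine (tM6 hw h0).trans ?_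
      rw [A_TK_exp]
      simp [mM, lev]
      try ring
    · refine (tM7 hw h0).trans ?_
      rw [A_TK_exp]
      simp [mM, lev]
      try ring
    · refine (tM8 hw h0).trans ?_
      rw [A_TK_exp]
      simp [mM, lev]
      try ring
    · refine (tM9 hw h0).trans ?_
      rw [A_TK_exp]
      simp [mM, lev]
      try ring
    · refine (tM10 hw h0).trans ?_
      rw [A_TK_exp]
      simp [mM, lev]
      try ring
    · refine (tM11 hw h0).trans ?_
      rw [A_TK_exp]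
      simp [mM, lev]
      try ring
    · refine (tM12 hw h0).trans ?_
      rw [A_TK_exp]
      simp [mM, lev]
      try ring
    · refine (tM13 hw h0).trans ?_
      rw [A_TK_exp]
      simp [mM, lev]
      try ring
    · refine (tM14 hw h0).trans ?_
      rw [A_TK_exp]
      simp [mM, lev]
      try ring
    · refine (tM15 hw h0).trans ?_
      rw [A_TK_exp]
      simp [mM, lev]
      try ring
    · refine (tM16 hw h0).trans ?_
      rw [A_TK_exp]
      simp [mM, lev]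
      try ring
    · refine (tM17 hw h0).trans ?_
      rw [A_TK_exp]
      simp [mM, lev]
      try ring
    · refine (tM18 hw h0).trans ?_
      rw [A_TK_exp]
      simp [mM, lev]
      try ring
    · refine (tM19 hw h0).trans ?_
      rw [A_TK_exp]
      simp [mM, lev]
      try ring

private theorem ATab_tl_bq (v : Vc) (x : W5 K) :
    bq v x = ∑ i : Fin 20, lev (qr K) (v.getD i []) * bas i x := rfl

private theorem ATab_tl_exp {α : Type} [Fintype α] (v : Vc) (F : α → W5 K) :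
    (∑ y : α, bq v (F y)) = ∑ i : Fin 20, lev (qr K) (v.getD i []) * ∑ y : α, bas i (F y) := by
  simp only [ATab_tl_bq]
  rw [Finset.sum_comm]
  refine Finset.sum_congr rfl fun i _ => ?_
  rw [← Finset.mul_sum]

private theorem ATab_tl_P (v : Vc) {w : W5 K} (hw : w.Iso) : (∑ y : K, bq v (P3m y w)) = bq (vml v mP) w := by
  rw [ATab_tl_exp, bq_vml]
  refine Finset.sum_congr rfl fun i _ => ?_
  rw [tabP i hw]

private theorem ATab_tl_L (v : Vc) {w : W5 K} (hw : w.Iso) : (∑ y : K, bq v (L3m y w)) = bq (vml v mL) w := by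
  rw [ATab_tl_exp, bq_vml]
  refine Finset.sum_congr rfl fun i _ => ?_
  rw [tabL i hw]

private theorem ATab_tl_L0 (w : W5 K) : L3m 0 w = w := by
  simp [L3m]

private theorem ATab_tl_nz (g : K → ℝ) : (∑ y : K, if y = 0 then 0 else g y) = (∑ y : K, g y) - g 0 := by
  have h : ∀ y : K, (if y = 0 then 0 else g y) = g y - (if y = 0 then g 0 else 0) := by
    intro y
    by_cases hy : y = 0
    · subst hy; simp
    · simp [hy]
  rw [Finset.sum_congr rfl fun y _ => h y, Finset.sum_sub_distrib, Finset.sum_ite_eq' Finset.univ (0 : K)]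
  simp

private theorem ATab_tl_row (g : ℕ → List ℤ) (x : W5 K) :
    bq ((List.range 20).map g) x = ∑ j : Fin 20, lev (qr K) (g j) * bas j x := by
  rw [ATab_tl_bq]
  refine Finset.sum_congr rfl fun j _ => ?_
  rw [getD_range g [] j.2]

private theorem ATab_tl_ite (i : Fin 20) (l : List ℤ) (x : W5 K) :
    (∑ j : Fin 20, lev (qr K) (if (i : ℕ) = (j : ℕ) then l else []) * bas j x) = lev (qr K) l * bas i x := by
  rw [Finset.sum_eq_single i]
  · simp
  · intro j _ hj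
    rw [if_neg (fun h => hj (Fin.ext h.symm))]
    simp [lev]
  · intro h
    exact absurd (Finset.mem_univ i) h

/-- MODULE TL.  `bq v` is a linear combination of the `bas i`; use `tabP`, `tabL`, `tabN`, `tabM`, `S3_rule` (with `bas_zero`,
`bas_sm`) and `bq_vml`, `bq_vad`, `getD_range`.  (`Pn`: all `y` minus `y = 0`, `Ln`: all `y` minus `y = 0`, `L3m 0 w = w`.) -/
theorem op_bq (o : El) (v : Vc) {w : W5 K} (hw : w.Iso) : o.op (bq v) w = bq (vml v o.mat) w := by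
  cases o with
  | P => exact ATab_tl_P v hw
  | L => exact ATab_tl_L v hw
  | Pn =>
    have e1 : El.Pn.op (bq v) w = (∑ y : K, bq v (P3m y w)) - bq v (P3m 0 w) := ATab_tl_nz fun y => bq v (P3m y w)
    rw [e1, ATab_tl_exp, ATab_tl_bq v (P3m 0 w), ← Finset.sum_sub_distrib, bq_vml]
    refine Finset.sum_congr rfl fun i _ => ?_
    have e2 : El.Pn.mat.getD i [] = vad (mP.getD i []) (vsc [-1] (mN.getD i [])) :=
      getD_range (fun i => vad (mP.getD i []) (vsc [-1] (mN.getD i []))) [] i.2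
    rw [e2, bq_vad, bq_vsc, tabP i hw, tabN i hw]
    simp only [lev]
    push_cast
    ring
  | Ln =>
    have e1 : El.Ln.op (bq v) w = (∑ y : K, bq v (L3m y w)) - bq v (L3m 0 w) := ATab_tl_nz fun y => bq v (L3m y w)
    rw [e1, ATab_tl_L0, ATab_tl_exp, ATab_tl_bq v w, ← Finset.sum_sub_distrib, bq_vml]
    refine Finset.sum_congr rfl fun i _ => ?_
    have e2 : El.Ln.mat.getD i [] = (List.range 20).map fun j => pad ((mL.getD i []).getD j [])
        (if (i : ℕ) = j then [-1] else []) :=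
      getD_range (fun i => (List.range 20).map fun j => pad ((mL.getD i []).getD j [])
        (if i = j then [-1] else [])) [] i.2
    rw [e2, ATab_tl_row]
    simp only [lev_pad, add_mul, Finset.sum_add_distrib]
    rw [ATab_tl_ite, ← ATab_tl_bq, tabL i hw]
    simp only [lev]
    push_cast
    ring
  | S =>
    have e1 : El.S.op (bq v) w = (qr K - 2) * (∑ y : K, bq v (L3m y w)) + qr K * bq v w + (qr K - 1) * bq v (M3m w) :=
      S3_rule (bq v) (bq_zero v) (fun r w hr => bq_sm v hr w) w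
    rw [e1, ATab_tl_exp, ATab_tl_bq v w, ATab_tl_bq v (M3m w), Finset.mul_sum, Finset.mul_sum, Finset.mul_sum,
      ← Finset.sum_add_distrib, ← Finset.sum_add_distrib, bq_vml]
    refine Finset.sum_congr rfl fun i _ => ?_
    have e2 : El.S.mat.getD i [] = (List.range 20).map fun j =>
        pad (pml [-2, 1] ((mL.getD i []).getD j [])) (pad (if (i : ℕ) = j then [0, 1] else [])
          (pml [-1, 1] ((mM.getD i []).getD j []))) :=
      getD_range (fun i => (List.range 20).map fun j =>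
        pad (pml [-2, 1] ((mL.getD i []).getD j [])) (pad (if i = j then [0, 1] else [])
          (pml [-1, 1] ((mM.getD i []).getD j [])))) [] i.2
    rw [e2, ATab_tl_row]
    simp only [lev_pad, lev_pml, add_mul, Finset.sum_add_distrib]
    rw [ATab_tl_ite]
    simp only [mul_assoc]
    rw [← Finset.mul_sum, ← Finset.mul_sum, ← ATab_tl_bq, ← ATab_tl_bq, tabL i hw, tabM i hw]
    simp only [lev]
    push_cast
    ring

/-- MODULE TL.  `bq v (x.rt) = bq (vpm rotI v) x` etc. -/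
theorem at_bq (o : El) (i : ℕ) (v : Vc) {w : W5 K} (hw : w.Iso) : o.at i (bq v) w = bq (o.vc i v) w := by
  have hd : o.op (bq v) w = bq (vml v o.mat) w := op_bq o v hw
  match i with
  | 0 => exact hd
  | 1 =>
    have e1 : (fun x : W5 K => bq v x.tr) = bq (vpm rotI' v) := funext fun x => bq_tr v x
    show o.op (fun x : W5 K => bq v x.tr) w.rt = bq (vpm rotI (vml (vpm rotI' v) o.mat)) w
    rw [e1, op_bq o _ (rt_iso.2 hw), bq_rt]
  | 2 =>
    have e1 : (fun x : W5 K => bq v x.rt) = bq (vpm rotI v) := funext fun x => bq_rt v x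
    show o.op (fun x : W5 K => bq v x.rt) w.tr = bq (vpm rotI' (vml (vpm rotI v) o.mat)) w
    rw [e1, op_bq o _ (tr_iso.2 hw), bq_tr]
  | (n + 3) => exact hd

private theorem ATab_tl_opc (o : El) {f g : W5 K → ℝ} (h : ∀ w : W5 K, w.Iso → f w = g w) {w : W5 K} (hw : w.Iso) :
    o.op f w = o.op g w := by
  cases o with
  | P => exact Finset.sum_congr rfl fun y _ => h _ (P3m_iso y hw)
  | L => exact Finset.sum_congr rfl fun y _ => h _ (L3m_iso y hw)
  | Pn =>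
    refine Finset.sum_congr rfl fun y _ => ?_
    rw [h _ (P3m_iso y hw)]
  | Ln =>
    refine Finset.sum_congr rfl fun y _ => ?_
    rw [h _ (L3m_iso y hw)]
  | S => exact Finset.sum_congr rfl fun a _ => Finset.sum_congr rfl fun b _ => h _ (S3m_iso a b hw)

/-- MODULE TL.  The value of an elementary operator at an isotropic vector uses only isotropic vectors. -/
theorem at_congr (o : El) (i : ℕ) {f g : W5 K → ℝ} (h : ∀ w : W5 K, w.Iso → f w = g w) {w : W5 K} (hw : w.Iso) :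
    o.at i f w = o.at i g w := by
  match i with
  | 0 => exact ATab_tl_opc o h hw
  | 1 => exact ATab_tl_opc o (fun v hv => h _ (tr_iso.2 hv)) (rt_iso.2 hw)
  | 2 => exact ATab_tl_opc o (fun v hv => h _ (rt_iso.2 hv)) (tr_iso.2 hw)
  | (n + 3) => exact ATab_tl_opc o h hw

/-- MODULE TL. -/
theorem ch_bq (l : List (El × ℕ)) (v : Vc) {w : W5 K} (hw : w.Iso) : ch l (bq v) w = bq (cv l v) w := by
  induction l generalizing w with
  | nil => rfl
  | cons p l ih =>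
    obtain ⟨o, i⟩ := p
    show o.at i (ch l (bq v)) w = bq (o.vc i (cv l v)) w
    rw [at_congr o i (fun w hw => ih hw) hw, at_bq o i (cv l v) hw]

end Pool.Agent.Pf4
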