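import Pool.Agent.Pf4.BCon

/-!
# The class of the limits
-/

set_option autoImplicit false

open scoped BigOperators Classical

namespace Pool.Agent.Pf4

/-- The family of the functions `U`. -/
noncomputable def FU : Fam := fun _ _ _ => U

private theorem BClo_q2 (K : Type) [Field K] [Fintype K] : (2 : ℝ) ≤ qr K := by
  unfold qr
  exact_mod_cast Fintype.one_lt_card (α := K)

private theorem BClo_q0 (K : Type) [Field K] [Fintype K] : (0 : ℝ) < qr K := by
  linarith [BClo_q2 K]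

private theorem BClo_tv_mul (K : Type) [Field K] [Fintype K] (p r : Polynomial ℤ) :
    tv K (p * r) = tv K p * tv K r := by
  unfold tv
  rw [Polynomial.eval₂_mul]

private theorem BClo_tv_add (K : Type) [Field K] [Fintype K] (p r : Polynomial ℤ) :
    tv K (p + r) = tv K p + tv K r := by
  unfold tv
  rw [Polynomial.eval₂_add]

private theorem BClo_tv_sub (K : Type) [Field K] [Fintype K] (p r : Polynomial ℤ) :
    tv K (p - r) = tv K p - tv K r := by
  unfold tv
  rw [Polynomial.eval₂_sub]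

private theorem BClo_tv_one (K : Type) [Field K] [Fintype K] : tv K 1 = 1 := by
  unfold tv
  rw [Polynomial.eval₂_one]

private theorem BClo_tv_X (K : Type) [Field K] [Fintype K] : tv K Polynomial.X = (qr K)⁻¹ := by
  unfold tv
  rw [Polynomial.eval₂_X]

private theorem BClo_tv_pow (K : Type) [Field K] [Fintype K] (p : Polynomial ℤ) (n : ℕ) :
    tv K (p ^ n) = tv K p ^ n := by
  unfold tv
  rw [Polynomial.eval₂_pow]

private theorem BClo_tv_sum (K : Type) [Field K] [Fintype K] (p : ℕ → Polynomial ℤ) (n : ℕ) :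
    tv K (∑ i ∈ Finset.range n, p i) = ∑ i ∈ Finset.range n, tv K (p i) := by
  unfold tv
  rw [Polynomial.eval₂_finsetSum]

private theorem BClo_pr_sm {K : Type} [Field K] (r : K) (w v : W5 K) : W5.pr (w.sm r) v = r * W5.pr w v := by
  unfold W5.pr W5.sm
  ring

private theorem BClo_pr_zero {K : Type} [Field K] (v : W5 K) : W5.pr (0 : W5 K) v = 0 := by
  have h : (0 : W5 K) = (0 : W5 K).sm 0 := W5.ext (mul_zero _).symm (mul_zero _).symm (mul_zero _).symm
    (mul_zero _).symm (mul_zero _).symm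
  rw [h, BClo_pr_sm, zero_mul]

private theorem BClo_T0_hm (K : Type) [Field K] [Fintype K] : Hm (T0 : W5 K → ℝ) := by
  refine ⟨?_, fun r w hr => ?_⟩
  · unfold T0
    refine Finset.sum_eq_zero fun y _ => ?_
    rw [BClo_pr_zero, if_pos rfl]
  · unfold T0
    refine Finset.sum_congr rfl fun y _ => ?_
    rw [BClo_pr_sm]
    by_cases h : W5.pr w ⟨y 0 + y 1 + y 2, y 1 * y 2, y 0 * y 2, y 0 * y 1, y 0 * y 1 * y 2⟩ = 0
    · rw [if_pos h, h, mul_zero, if_pos rfl]
    · rw [if_neg h, if_neg (mul_ne_zero hr h)]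

private theorem BClo_T0_abs {K : Type} [Field K] [Fintype K] (w : W5 K) : |T0 w| ≤ qr K ^ 3 := by
  unfold T0
  refine (Finset.abs_sum_le_sum_abs _ _).trans ?_
  calc ∑ y : Fin 3 → K, |if W5.pr w ⟨y 0 + y 1 + y 2, y 1 * y 2, y 0 * y 2, y 0 * y 1, y 0 * y 1 * y 2⟩ = 0 then
        (0 : ℝ) else 1| ≤ ∑ _y : Fin 3 → K, (1 : ℝ) := by
        refine Finset.sum_le_sum fun y _ => ?_
        split_ifs <;> simp
    _ = qr K ^ 3 := by
        simp [qr]

theorem InC.congr {f g : Fam} (h : ∀ (K : Type) [Field K] [Fintype K] (w : W5 K), w ∈ IS K → f K w = g K w)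
    (hf : InC f) : InC g := by
  intro D
  obtain ⟨e, N, C, h'⟩ := hf D
  refine ⟨e, N, C, fun K _ _ w hw => ?_⟩
  rw [← h K w hw]
  exact h' K w hw

theorem InC.add {f g : Fam} (hf : InC f) (hg : InC g) : InC fun K _ _ w => f K w + g K w := by
  intro D
  obtain ⟨e1, N1, C1, h1⟩ := hf D
  obtain ⟨e2, N2, C2, h2⟩ := hg D
  refine ⟨.add (.sm (Polynomial.X ^ N2) e1) (.sm (Polynomial.X ^ N1) e2), N1 + N2, C1 + C2, fun K _ _ w hw => ?_⟩
  have hq := BClo_q0 K
  have hN1 : qr K ^ N1 * (qr K)⁻¹ ^ N1 = 1 := by rw [← mul_pow, mul_inv_cancel₀ hq.ne', one_pow]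
  have hN2 : qr K ^ N2 * (qr K)⁻¹ ^ N2 = 1 := by rw [← mul_pow, mul_inv_cancel₀ hq.ne', one_pow]
  have e : f K w + g K w - qr K ^ (N1 + N2) *
      (Ex.add (.sm (Polynomial.X ^ N2) e1) (.sm (Polynomial.X ^ N1) e2)).ev T0 w =
      (f K w - qr K ^ N1 * e1.ev T0 w) + (g K w - qr K ^ N2 * e2.ev T0 w) := by
    have e0 : (Ex.add (.sm (Polynomial.X ^ N2) e1) (.sm (Polynomial.X ^ N1) e2)).ev T0 w =
        (qr K)⁻¹ ^ N2 * e1.ev T0 w + (qr K)⁻¹ ^ N1 * e2.ev T0 w := by
      simp only [Ex.ev, BClo_tv_pow, BClo_tv_X]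
    rw [e0, pow_add]
    linear_combination (-(qr K ^ N1 * e1.ev T0 w)) * hN2 - (qr K ^ N2 * e2.ev T0 w) * hN1
  have hqD : 0 ≤ qr K ^ D := by positivity
  rw [e]
  calc |f K w - qr K ^ N1 * e1.ev T0 w + (g K w - qr K ^ N2 * e2.ev T0 w)| * qr K ^ D
      ≤ (|f K w - qr K ^ N1 * e1.ev T0 w| + |g K w - qr K ^ N2 * e2.ev T0 w|) * qr K ^ D :=
        mul_le_mul_of_nonneg_right (abs_add_le _ _) hqD
    _ = |f K w - qr K ^ N1 * e1.ev T0 w| * qr K ^ D + |g K w - qr K ^ N2 * e2.ev T0 w| * qr K ^ D := by ring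
    _ ≤ C1 + C2 := add_le_add (h1 K w hw) (h2 K w hw)

theorem InC.sm {f : Fam} (p : Polynomial ℤ) (hf : InC f) : InC fun K _ _ w => tv K p * f K w := by
  intro D
  obtain ⟨e, N, C, h⟩ := hf D
  obtain ⟨Cp, hCp, hp⟩ := tv_abs p
  refine ⟨.sm p e, N, Cp * C, fun K _ _ w hw => ?_⟩
  have hq := BClo_q0 K
  have e0 : tv K p * f K w - qr K ^ N * (Ex.sm p e).ev T0 w = tv K p * (f K w - qr K ^ N * e.ev T0 w) := by
    simp only [Ex.ev]
    ring
  rw [e0, abs_mul, mul_assoc]
  exact mul_le_mul (hp K) (h K w hw) (by positivity) hCp.le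

theorem InC.mulq {f : Fam} (n : ℕ) (hf : InC f) : InC fun K _ _ w => qr K ^ n * f K w := by
  intro D
  obtain ⟨e, N, C, h⟩ := hf (D + n)
  refine ⟨e, n + N, C, fun K _ _ w hw => ?_⟩
  have hq := BClo_q0 K
  have e0 : qr K ^ n * f K w - qr K ^ (n + N) * e.ev T0 w = qr K ^ n * (f K w - qr K ^ N * e.ev T0 w) := by
    rw [pow_add]
    ring
  rw [e0, abs_mul, abs_of_pos (by positivity : 0 < qr K ^ n)]
  refine le_trans (le_of_eq ?_) (h K w hw)
  rw [pow_add]
  ring

theorem InC.ev {f : Fam} (e : Ex) (h0 : ∀ (K : Type) [Field K] [Fintype K], f K 0 = 0) (hf : InC f) :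
    InC fun K _ _ w => e.ev (f K) w := by
  intro D
  obtain ⟨e', N, C, h⟩ := hf D
  obtain ⟨Ce, hCe, he⟩ := ev_abs e
  refine ⟨.mul e e', N, Ce * |C|, fun K _ _ w hw => ?_⟩
  have hq := BClo_q0 K
  have hqD : 0 < qr K ^ D := by positivity
  set g : W5 K → ℝ := fun v => f K v + (-(qr K ^ N)) * e'.ev T0 v with hg
  set g' : W5 K → ℝ := fun v => if v ∈ IS K then g v else 0 with hg'
  have hz : (0 : W5 K) ∉ IS K := fun h' => (mem_IS.mp h').2 rfl
  have hg0 : g 0 = 0 := by
    rw [hg]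
    simp only
    rw [h0 K, (ev_hm e' (BClo_T0_hm K)).1]
    ring
  have e1 : e.ev (f K) w - qr K ^ N * (Ex.mul e e').ev T0 w = e.ev g w := by
    rw [hg, ev_add, ev_smul]
    simp only [Ex.ev]
    ring
  have e2 : e.ev g w = e.ev g' w := by
    refine (ev_congr e ?_ ?_).2 w hw
    · rw [hg0, hg']
      simp only
      rw [if_neg hz]
    · intro v hv
      rw [hg']
      simp only
      rw [if_pos hv]
  have e3 : ∀ v, |g' v| ≤ |C| / qr K ^ D := by
    intro v
    rw [hg']
    simp only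
    split_ifs with hv
    · rw [le_div_iff₀ hqD]
      refine le_trans (le_of_eq ?_) ((h K v hv).trans (le_abs_self C))
      rw [hg]
      simp only
      congr 2
      ring
    · rw [abs_zero]
      positivity
  rw [e1, e2]
  calc |e.ev g' w| * qr K ^ D ≤ (Ce * (|C| / qr K ^ D)) * qr K ^ D :=
        mul_le_mul_of_nonneg_right (he K g' _ e3 w) hqD.le
    _ = Ce * |C| := by
        field_simp

/-- Limits. -/
theorem InC.limit {f : Fam} (h : ∀ D : ℕ, ∃ (g : Fam) (C : ℝ), InC g ∧ ∀ (K : Type) [Field K] [Fintype K] (w : W5 K),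
    w ∈ IS K → |f K w - g K w| * qr K ^ D ≤ C) : InC f := by
  intro D
  obtain ⟨g, C1, hg, h1⟩ := h D
  obtain ⟨e, N, C2, h2⟩ := hg D
  refine ⟨e, N, C1 + C2, fun K _ _ w hw => ?_⟩
  have hq := BClo_q0 K
  have hqD : 0 ≤ qr K ^ D := by positivity
  have e0 : f K w - qr K ^ N * e.ev T0 w = (f K w - g K w) + (g K w - qr K ^ N * e.ev T0 w) := by ring
  rw [e0]
  calc |f K w - g K w + (g K w - qr K ^ N * e.ev T0 w)| * qr K ^ D
      ≤ (|f K w - g K w| + |g K w - qr K ^ N * e.ev T0 w|) * qr K ^ D :=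
        mul_le_mul_of_nonneg_right (abs_add_le _ _) hqD
    _ = |f K w - g K w| * qr K ^ D + |g K w - qr K ^ N * e.ev T0 w| * qr K ^ D := by ring
    _ ≤ C1 + C2 := add_le_add (h1 K w hw) (h2 K w hw)

/-- Division by `u ∈ 1 + t ℤ[t]`: multiply by the truncated inverse power series.  `f` is polynomially bounded. -/
theorem InC.divu {f : Fam} {u : Polynomial ℤ} (hu : u.coeff 0 = 1) (A : ℕ) (B : ℝ)
    (hb : ∀ (K : Type) [Field K] [Fintype K] (w : W5 K), w ∈ IS K → |f K w| ≤ B * qr K ^ A)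
    (hf : InC fun K _ _ w => tv K u * f K w) : InC f := by
  refine InC.limit fun D => ?_
  -- `1 - u = X * u'`
  obtain ⟨u', hu'⟩ : ∃ u' : Polynomial ℤ, 1 - u = Polynomial.X * u' := by
    have h0 : (1 - u).coeff 0 = 0 := by
      rw [Polynomial.coeff_sub, hu, Polynomial.coeff_one_zero, sub_self]
    exact Polynomial.X_dvd_iff.mpr h0
  obtain ⟨C', hC', h'⟩ := tv_abs u'
  set k := A + D with hk
  set v : Polynomial ℤ := ∑ i ∈ Finset.range k, (1 - u) ^ i with hv
  refine ⟨fun K _ _ w => tv K v * (tv K u * f K w), C' ^ k * |B|, InC.sm v hf, fun K _ _ w hw => ?_⟩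
  have hq := BClo_q0 K
  have hvu : v * u = 1 - (1 - u) ^ k := by
    have := geom_sum_mul_neg (1 - u) k
    rw [sub_sub_cancel] at this
    exact this
  have e1 : tv K v * (tv K u * f K w) = f K w - (qr K)⁻¹ ^ k * tv K u' ^ k * f K w := by
    rw [← mul_assoc, ← BClo_tv_mul, hvu, BClo_tv_sub, BClo_tv_one, BClo_tv_pow, hu', BClo_tv_mul, BClo_tv_X, mul_pow]
    ring
  have e2 : f K w - tv K v * (tv K u * f K w) = (qr K)⁻¹ ^ k * tv K u' ^ k * f K w := by
    rw [e1]
    ring
  rw [e2, abs_mul, abs_mul, abs_pow, abs_pow, abs_of_pos (inv_pos.mpr hq)]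
  have e3 : (qr K)⁻¹ ^ k * qr K ^ A * qr K ^ D = 1 := by
    rw [mul_assoc, ← pow_add, ← hk, ← mul_pow, inv_mul_cancel₀ hq.ne', one_pow]
  have e4 : |tv K u'| ^ k ≤ C' ^ k := pow_le_pow_left₀ (abs_nonneg _) (h' K) k
  have e5 : |f K w| ≤ |B| * qr K ^ A :=
    (hb K w hw).trans (mul_le_mul_of_nonneg_right (le_abs_self B) (by positivity))
  calc (qr K)⁻¹ ^ k * |tv K u'| ^ k * |f K w| * qr K ^ D
      ≤ (qr K)⁻¹ ^ k * C' ^ k * (|B| * qr K ^ A) * qr K ^ D := by
        apply mul_le_mul_of_nonneg_right _ (by positivity)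
        apply mul_le_mul _ e5 (abs_nonneg _) (by positivity)
        exact mul_le_mul_of_nonneg_left e4 (by positivity)
    _ = C' ^ k * |B| * ((qr K)⁻¹ ^ k * qr K ^ A * qr K ^ D) := by ring
    _ = C' ^ k * |B| := by rw [e3, mul_one]

private theorem BClo_U_one {K : Type} [Field K] [Fintype K] {w : W5 K} (hw : w ∈ IS K) : U w = 1 := by
  have h := (mem_IS.mp hw).2
  simp [U, h]

private theorem BClo_U_abs {K : Type} [Field K] [Fintype K] (w : W5 K) : |U w| ≤ 1 := by
  unfold U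
  split_ifs <;> simp

private theorem BClo_meanT0 (K : Type) [Field K] [Fintype K] :
    (1 - (qr K)⁻¹ ^ 4) * mean (T0 : W5 K → ℝ) = qr K ^ 3 * ((1 - (qr K)⁻¹) * (1 - (qr K)⁻¹ ^ 3)) := by
  have hq := BClo_q2 K
  have hq0 := BClo_q0 K
  unfold mean
  rw [sum_T0, card_IS]
  have h4 : (1 : ℝ) < qr K ^ 4 := one_lt_pow₀ (by linarith) (by norm_num)
  have h5 : qr K ^ 4 - 1 ≠ 0 := by linarith
  field_simp

/-- `U` is a limit.  `exists_mean` with `f = T0`; `mean T0 = q ^ 3 (q - 1) (q ^ 3 - 1) / (q ^ 4 - 1)`. -/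
theorem inC_U (h : Mem 3 fun K _ _ w => (qr K)⁻¹ * U w) : InC FU := by
  obtain ⟨e, u, he, hu, h⟩ := h
  have h' : ∀ (K : Type) [Field K] [Fintype K] (w : W5 K), w ∈ IS K →
      e.ev U w = tv K (Polynomial.X * u) * U w := by
    intro K _ _ w hw
    rw [h K w hw, BClo_tv_mul, BClo_tv_X]
    ring
  -- the mean value of `T0`
  have h1 : InC fun K _ _ w => mean (T0 : W5 K → ℝ) * U w := by
    intro D
    obtain ⟨e', N, C, hC, hC'⟩ := exists_mean he hu h' (D + 3)
    refine ⟨e', N, C, fun K _ _ w hw => ?_⟩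
    have hq := BClo_q0 K
    have := hC' K T0 (qr K ^ 3) (BClo_T0_hm K) BClo_T0_abs w hw
    rw [abs_sub_comm] at this
    rw [pow_add, ← mul_assoc] at this
    exact le_of_mul_le_mul_right this (by positivity)
  have h2 := InC.sm (Polynomial.X ^ 3 * (1 - Polynomial.X ^ 4)) h1
  have h3 : InC fun K _ _ w => tv K ((1 - Polynomial.X) * (1 - Polynomial.X ^ 3)) * FU K w := by
    refine InC.congr (fun K _ _ w hw => ?_) h2
    have hq := BClo_q0 K
    have e1 := BClo_meanT0 K
    have e2 : (qr K)⁻¹ ^ 3 * qr K ^ 3 = 1 := by rw [← mul_pow, inv_mul_cancel₀ hq.ne', one_pow]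
    simp only [BClo_tv_mul, BClo_tv_sub, BClo_tv_one, BClo_tv_pow, BClo_tv_X]
    unfold FU
    linear_combination ((qr K)⁻¹ ^ 3 * U w) * e1 + ((1 - (qr K)⁻¹) * (1 - (qr K)⁻¹ ^ 3) * U w) * e2
  refine InC.divu (u := (1 - Polynomial.X) * (1 - Polynomial.X ^ 3)) ?_ 0 1 (fun K _ _ w _ => ?_) h3
  · rw [Polynomial.mul_coeff_zero]
    simp
  · rw [pow_zero, mul_one]
    exact BClo_U_abs w

theorem InC.of_mem {f : Fam} (hU : InC FU) (A : ℕ) (B : ℝ)
    (hb : ∀ (K : Type) [Field K] [Fintype K] (w : W5 K), w ∈ IS K → |f K w| ≤ B * qr K ^ A) (h : Mem 0 f) : InC f := by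
  obtain ⟨e, u, -, hu, h⟩ := h
  have h1 : InC fun K _ _ w => e.ev (FU K) w :=
    InC.ev e (fun K _ _ => by simp [FU, U]) hU
  have h2 : InC fun K _ _ w => tv K u * f K w := InC.congr (fun K _ _ w hw => h K w hw) h1
  exact InC.divu hu A B hb h2

/-- The affine equation in one variable. -/
private theorem BClo_lin {K : Type} [Field K] [Fintype K] (a b : K) :
    ∑ y : K, (if y * a + b = 0 then (0 : ℝ) else 1) =
      if a = 0 then (if b = 0 then 0 else qr K) else qr K - 1 := by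
  by_cases ha : a = 0
  · rw [if_pos ha, ha]
    by_cases hb : b = 0
    · simp [hb]
    · simp [hb, qr]
  · rw [if_neg ha]
    have h1 : ∀ y : K, (if y * a + b = 0 then (0 : ℝ) else 1) = 1 - if y = -b / a then 1 else 0 := by
      intro y
      have : y * a + b = 0 ↔ y = -b / a := by
        rw [eq_div_iff ha, eq_neg_iff_add_eq_zero]
      by_cases hy : y = -b / a
      · rw [if_pos (this.mpr hy), if_pos hy, sub_self]
      · rw [if_neg (fun h => hy (this.mp h)), if_neg hy, sub_zero]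
    rw [Finset.sum_congr rfl fun y _ => h1 y, Finset.sum_sub_distrib]
    simp [qr]

/-- Sums over triples. -/
private theorem BClo_sum3 {K : Type} [Fintype K] (F : K → K → K → ℝ) :
    ∑ y : Fin 3 → K, F (y 0) (y 1) (y 2) = ∑ a : K, ∑ b : K, ∑ c : K, F a b c := by
  rw [← (Fin.consEquiv (fun _ : Fin 3 => K)).sum_comp, Fintype.sum_prod_type]
  refine Finset.sum_congr rfl fun a _ => ?_
  rw [← (Fin.consEquiv (fun _ : Fin 2 => K)).sum_comp, Fintype.sum_prod_type]
  refine Finset.sum_congr rfl fun b _ => ?_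
  rw [← (Fin.consEquiv (fun _ : Fin 1 => K)).sum_comp, Fintype.sum_prod_type]
  refine Finset.sum_congr rfl fun c _ => ?_
  simp [Fin.consEquiv]
  rfl

/-- A linear form with a nonzero coefficient. -/
private theorem BClo_form {K : Type} [Field K] [Fintype K] (a0 a1 a2 b : K) (h : ¬ (a0 = 0 ∧ a1 = 0 ∧ a2 = 0)) :
    ∑ x : K, ∑ y : K, ∑ z : K, (if x * a0 + y * a1 + z * a2 + b = 0 then (0 : ℝ) else 1) =
      qr K ^ 3 - qr K ^ 2 := by
  have hsum : ∀ r : ℝ, ∑ _x : K, ∑ _y : K, r = qr K ^ 2 * r := by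
    intro r
    simp [qr]
    ring
  by_cases h2 : a2 = 0
  · by_cases h1 : a1 = 0
    · have h0 : a0 ≠ 0 := fun h0 => h ⟨h0, h1, h2⟩
      rw [Finset.sum_comm]
      have : ∀ y : K, ∑ x : K, ∑ z : K, (if x * a0 + y * a1 + z * a2 + b = 0 then (0 : ℝ) else 1) =
          ∑ z : K, (qr K - 1) := by
        intro y
        rw [Finset.sum_comm]
        refine Finset.sum_congr rfl fun z _ => ?_
        have e := BClo_lin a0 (y * a1 + z * a2 + b)
        rw [if_neg h0] at e
        rw [← e]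
        refine Finset.sum_congr rfl fun x _ => ?_
        rw [← add_assoc, ← add_assoc]
      rw [Finset.sum_congr rfl fun y _ => this y, hsum]
      ring
    · have : ∀ x : K, ∑ y : K, ∑ z : K, (if x * a0 + y * a1 + z * a2 + b = 0 then (0 : ℝ) else 1) =
          ∑ z : K, (qr K - 1) := by
        intro x
        rw [Finset.sum_comm]
        refine Finset.sum_congr rfl fun z _ => ?_
        have e := BClo_lin a1 (x * a0 + z * a2 + b)
        rw [if_neg h1] at e
        rw [← e]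
        refine Finset.sum_congr rfl fun y _ => ?_
        have e' : x * a0 + y * a1 + z * a2 + b = y * a1 + (x * a0 + z * a2 + b) := by ring
        rw [e']
      rw [Finset.sum_congr rfl fun x _ => this x, hsum]
      ring
  · have : ∀ x y : K, ∑ z : K, (if x * a0 + y * a1 + z * a2 + b = 0 then (0 : ℝ) else 1) = qr K - 1 := by
      intro x y
      have e := BClo_lin a2 (x * a0 + y * a1 + b)
      rw [if_neg h2] at e
      rw [← e]
      refine Finset.sum_congr rfl fun z _ => ?_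
      have e' : x * a0 + y * a1 + z * a2 + b = z * a2 + (x * a0 + y * a1 + b) := by ring
      rw [e']
    rw [Finset.sum_congr rfl fun x _ => Finset.sum_congr rfl fun y _ => this x y, hsum]
    ring

/-- The cone. -/
private theorem BClo_cone {K : Type} [Field K] [Fintype K] :
    ∑ x : K, ∑ y : K, ∑ z : K, (if x * y + x * z + y * z = 0 then (0 : ℝ) else 1) = qr K ^ 3 - qr K ^ 2 := by
  have h1 : ∀ x y : K, ∑ z : K, (if x * y + x * z + y * z = 0 then (0 : ℝ) else 1) =
      (qr K - 1) + if y = -x then ((if x = 0 then 0 else qr K) - (qr K - 1)) else 0 := by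
    intro x y
    have e := BClo_lin (x + y) (x * y)
    have e1 : ∑ z : K, (if x * y + x * z + y * z = 0 then (0 : ℝ) else 1) =
        ∑ z : K, (if z * (x + y) + x * y = 0 then (0 : ℝ) else 1) := by
      refine Finset.sum_congr rfl fun z _ => ?_
      have e' : x * y + x * z + y * z = z * (x + y) + x * y := by ring
      rw [e']
    rw [e1, e]
    by_cases hxy : y = -x
    · rw [if_pos hxy, hxy, if_pos (add_neg_cancel x)]
      by_cases hx : x = 0
      · simp [hx]
      · have : x * -x ≠ 0 := mul_ne_zero hx (neg_ne_zero.mpr hx)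
        rw [if_neg this, if_neg hx]
        ring
    · rw [if_neg hxy, if_neg (fun h => hxy (by rw [eq_neg_iff_add_eq_zero, add_comm]; exact h)), add_zero]
  have h2 : ∀ x : K, ∑ y : K, ∑ z : K, (if x * y + x * z + y * z = 0 then (0 : ℝ) else 1) =
      qr K * (qr K - 1) + ((if x = 0 then 0 else qr K) - (qr K - 1)) := by
    intro x
    rw [Finset.sum_congr rfl fun y _ => h1 x y, Finset.sum_add_distrib]
    congr 1
    · simp [qr]
      ring
    · simp
  have h3 : ∑ x : K, (if x = 0 then (0 : ℝ) else qr K) = (qr K - 1) * qr K := by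
    have e1 : ∀ x : K, (if x = 0 then (0 : ℝ) else qr K) = qr K - if x = 0 then qr K else 0 := by
      intro x
      split_ifs <;> simp
    rw [Finset.sum_congr rfl fun x _ => e1 x, Finset.sum_sub_distrib]
    simp [qr]
    ring
  rw [Finset.sum_congr rfl fun x _ => h2 x, Finset.sum_add_distrib, Finset.sum_sub_distrib, h3]
  simp only [Finset.sum_const, nsmul_eq_mul, Finset.card_univ]
  change qr K * (qr K * (qr K - 1)) + ((qr K - 1) * qr K - qr K * (qr K - 1)) = _
  ring

/-- The function of the star: `St = (q ^ 3 - q ^ 2) U + q ^ 2 dJ` on the isotropic vectors (the conic). -/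
theorem St_eq {K : Type} [Field K] [Fintype K] {w : W5 K} (hw : w ∈ IS K) :
    St w = (qr K ^ 3 - qr K ^ 2) * U w + qr K ^ 2 * dJ w := by
  obtain ⟨hiso, hw0⟩ := mem_IS.mp hw
  unfold W5.Iso at hiso
  rw [BClo_U_one hw]
  obtain ⟨w0, w1, w2, w3, w4⟩ := w
  simp only at hiso
  have hpr : ∀ y : Fin 3 → K, W5.pr ⟨w0, w1, w2, w3, w4⟩ ⟨1, y 0, y 1, y 2, y 0 * y 1 + y 0 * y 2 + y 1 * y 2⟩ =
      w0 * (y 0 * y 1 + y 0 * y 2 + y 1 * y 2) + (y 0 * (w2 + w3) + y 1 * (w1 + w3) + y 2 * (w1 + w2)) + w4 := by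
    intro y
    unfold W5.pr
    ring
  have hSt : St (⟨w0, w1, w2, w3, w4⟩ : W5 K) = ∑ x : K, ∑ y : K, ∑ z : K,
      (if w0 * (x * y + x * z + y * z) + (x * (w2 + w3) + y * (w1 + w3) + z * (w1 + w2)) + w4 = 0 then (0 : ℝ)
        else 1) := by
    rw [← BClo_sum3]
    unfold St
    refine Finset.sum_congr rfl fun y _ => ?_
    rw [hpr y]
  rw [hSt]
  by_cases h0 : w0 = 0
  · by_cases hz : w2 + w3 = 0 ∧ w1 + w3 = 0 ∧ w1 + w2 = 0
    · -- the vertex
      obtain ⟨z1, z2, z3⟩ := hz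
      have e12 : w1 * w2 = 0 := by
        rw [h0] at hiso
        linear_combination (-1 : K) * hiso - w3 * z3
      have e1 : w1 = 0 := by
        have : w1 * w1 = 0 := by linear_combination w1 * z3 - e12
        exact mul_self_eq_zero.mp this
      have e2 : w2 = 0 := by rw [e1, zero_add] at z3; exact z3
      have e3 : w3 = 0 := by rw [e1, zero_add] at z2; exact z2
      have e4 : w4 ≠ 0 := by
        intro e4
        apply hw0
        rw [h0, e1, e2, e3, e4]
        rfl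
      have hd : dJ (⟨w0, w1, w2, w3, w4⟩ : W5 K) = 1 := by
        unfold dJ
        rw [if_pos]
        exact ⟨hw0, h0, e1, e2, e3⟩
      rw [hd, h0, e1, e2, e3]
      simp only [zero_mul, add_zero, zero_add, mul_zero, if_neg e4]
      simp only [Finset.sum_const, nsmul_eq_mul, Finset.card_univ]
      change qr K * (qr K * (qr K * 1)) = _
      ring
    · have hd : dJ (⟨w0, w1, w2, w3, w4⟩ : W5 K) = 0 := by
        unfold dJ
        rw [if_neg]
        rintro ⟨-, -, e1, e2, e3⟩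
        apply hz
        simp only at e1 e2 e3
        rw [e1, e2, e3]
        simp
      rw [hd, h0]
      have := BClo_form (w2 + w3) (w1 + w3) (w1 + w2) w4 hz
      simp only [zero_mul, zero_add]
      rw [this]
      ring
  · have hd : dJ (⟨w0, w1, w2, w3, w4⟩ : W5 K) = 0 := by
      unfold dJ
      rw [if_neg]
      rintro ⟨-, e0, -⟩
      exact h0 e0
    rw [hd]
    have key : ∑ x : K, ∑ y : K, ∑ z : K,
        (if w0 * (x * y + x * z + y * z) + (x * (w2 + w3) + y * (w1 + w3) + z * (w1 + w2)) + w4 = 0 then (0 : ℝ)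
          else 1) = ∑ x : K, ∑ y : K, ∑ z : K, (if x * y + x * z + y * z = 0 then (0 : ℝ) else 1) := by
      rw [← (Equiv.subRight (w1 / w0)).sum_comp]
      refine Finset.sum_congr rfl fun x _ => ?_
      rw [← (Equiv.subRight (w2 / w0)).sum_comp]
      refine Finset.sum_congr rfl fun y _ => ?_
      rw [← (Equiv.subRight (w3 / w0)).sum_comp]
      refine Finset.sum_congr rfl fun z _ => ?_
      simp only [Equiv.subRight_apply]
      have e1 : w0 * ((x - w1 / w0) * (y - w2 / w0) + (x - w1 / w0) * (z - w3 / w0) + (y - w2 / w0) * (z - w3 / w0)) +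
          ((x - w1 / w0) * (w2 + w3) + (y - w2 / w0) * (w1 + w3) + (z - w3 / w0) * (w1 + w2)) + w4 =
          w0 * (x * y + x * z + y * z) := by
        field_simp
        linear_combination hiso
      rw [e1]
      by_cases h : x * y + x * z + y * z = 0
      · rw [if_pos h, h, mul_zero, if_pos rfl]
      · rw [if_neg h, if_neg (mul_ne_zero h0 h)]
    rw [key, BClo_cone]
    ring

theorem inC_St (h : Mem 3 fun K _ _ w => (qr K)⁻¹ * U w) (h' : Mem 0 fun K _ _ w => (qr K)⁻¹ ^ 4 * dJ w) :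
    InC fun _ _ _ => St := by
  have hU : InC FU := inC_U h
  have hJ : InC fun K _ _ w => (qr K)⁻¹ ^ 4 * dJ w := by
    refine InC.of_mem hU 0 1 (fun K _ _ w _ => ?_) h'
    have hq := BClo_q2 K
    have hq0 := BClo_q0 K
    have ht1 : (qr K)⁻¹ ≤ 1 := inv_le_one_of_one_le₀ (by linarith)
    have ht0 : 0 ≤ (qr K)⁻¹ := inv_nonneg.mpr hq0.le
    have h1 : |dJ w| ≤ 1 := by
      unfold dJ
      split_ifs <;> simp
    rw [abs_mul, abs_of_nonneg (by positivity), pow_zero, mul_one]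
    calc (qr K)⁻¹ ^ 4 * |dJ w| ≤ 1 * 1 := mul_le_mul (pow_le_one₀ ht0 ht1) h1 (abs_nonneg _) (by norm_num)
      _ = 1 := by norm_num
  have h1 := InC.mulq 3 hU
  have h2 := InC.sm (-1) (InC.mulq 2 hU)
  have h3 := InC.mulq 6 hJ
  refine InC.congr (fun K _ _ w hw => ?_) (InC.add (InC.add h1 h2) h3)
  have hq0 := BClo_q0 K
  have e1 : qr K ^ 6 * ((qr K)⁻¹ ^ 4 * dJ w) = qr K ^ 2 * dJ w := by
    field_simp
  have e2 : tv K (-1) = -1 := by
    unfold tv
    rw [Polynomial.eval₂_neg, Polynomial.eval₂_one]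
  rw [St_eq hw, e1, e2]
  unfold FU
  ring

end Pool.Agent.Pf4
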