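import Pool.Agent.Pf4.BEx

/-!
# Expressions of class `k` contract
-/

set_option autoImplicit false

open scoped BigOperators Classical

namespace Pool.Agent.Pf4

/-- The contraction property of an expression. -/
def Con (k : ℕ) (e : Ex) : Prop :=
  ∃ C : ℝ, 0 < C ∧ ∀ (K : Type) [Field K] [Fintype K] (f : W5 K → ℝ), Hm f → ∑ w ∈ IS K, f w = 0 →
    N2 (dv (e.ev f)) ≤ C / qr K ^ k * N2 f

section b_cls_one

variable {K : Type} [Field K] [Fintype K]

private theorem b_cls_q : 2 ≤ qr K := by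
  unfold qr
  exact_mod_cast (Fintype.one_lt_card : 1 < Fintype.card K)

private theorem b_cls_U {w : W5 K} (hw : w ∈ IS K) : U w = 1 := by
  unfold U
  rw [if_neg (mem_IS.1 hw).2]

private theorem b_cls_mean_add (f g : W5 K → ℝ) :
    mean (fun w => f w + g w) = mean f + mean g := by
  unfold mean
  rw [Finset.sum_add_distrib, add_div]

private theorem b_cls_mean_smul (r : ℝ) (f : W5 K → ℝ) : mean (fun w => r * f w) = r * mean f := by
  unfold mean
  rw [← Finset.mul_sum, mul_div_assoc]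

private theorem b_cls_mean_congr {f g : W5 K → ℝ} (h : ∀ w ∈ IS K, f w = g w) :
    mean f = mean g := by
  unfold mean
  rw [Finset.sum_congr rfl h]

private theorem b_cls_dv_add (f g : W5 K → ℝ) :
    dv (fun w => f w + g w) = fun w => dv f w + dv g w := by
  funext w
  unfold dv
  rw [b_cls_mean_add]
  ring

private theorem b_cls_dv_smul (r : ℝ) (f : W5 K → ℝ) :
    dv (fun w => r * f w) = fun w => r * dv f w := by
  funext w
  unfold dv
  rw [b_cls_mean_smul]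
  ring

private theorem b_cls_N2_add (f g : W5 K → ℝ) :
    N2 (fun w => f w + g w) ≤ 2 * N2 f + 2 * N2 g := by
  unfold N2
  rw [Finset.mul_sum, Finset.mul_sum, ← Finset.sum_add_distrib]
  refine Finset.sum_le_sum fun w _ => ?_
  nlinarith [sq_nonneg (f w - g w)]

private theorem b_cls_N2_smul (r : ℝ) (f : W5 K → ℝ) : N2 (fun w => r * f w) = r ^ 2 * N2 f := by
  unfold N2
  rw [Finset.mul_sum]
  exact Finset.sum_congr rfl fun w _ => by ring

private theorem b_cls_N2_nonneg (f : W5 K → ℝ) : 0 ≤ N2 f :=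
  Finset.sum_nonneg fun w _ => sq_nonneg (f w)

private theorem b_cls_N2_congr {f g : W5 K → ℝ} (h : ∀ w ∈ IS K, f w = g w) : N2 f = N2 g :=
  Finset.sum_congr rfl fun w hw => by rw [h w hw]

private theorem b_cls_ip_dv {f g : W5 K → ℝ} (h : ∑ w ∈ IS K, f w = 0) :
    ip f g = ip f (dv g) := by
  have h1 : ip f g - ip f (dv g) = mean g * ∑ w ∈ IS K, f w := by
    unfold ip
    rw [← Finset.sum_sub_distrib, Finset.mul_sum]
    refine Finset.sum_congr rfl fun w hw => ?_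
    unfold dv
    rw [b_cls_U hw]
    ring
  rw [h, mul_zero] at h1
  linarith

private theorem b_cls_ip_comm (f g : W5 K → ℝ) : ip f g = ip g f :=
  Finset.sum_congr rfl fun w _ => mul_comm _ _

end b_cls_one

/-- Duality: for `f = D f'`, `g = D g'` of mean value `0`, `⟨e.rev f, g⟩ = ⟨f', (e D g)⟩ = ⟨f', (e g)°⟩`-like estimates,
`N2 f' = N2 f / (q (q - 1)) ^ 2`; take `g = (e.rev f)°`. -/
theorem Con.rev {k : ℕ} {e : Ex} (h : Con k e) : Con k e.rev := by
  obtain ⟨C, hC, h⟩ := h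
  refine ⟨C, hC, fun K _ _ f hf h0 => ?_⟩
  set g := dv (e.rev.ev f) with hg
  have hgH : Hm g := dv_hm (ev_hm _ hf)
  have hg0 : ∑ w ∈ IS K, g w = 0 := dv_sum _
  obtain ⟨f', hf', hDf, hf'0, hN⟩ := exists_Dp0 hf h0
  have h1 : N2 g = ip g (e.rev.ev f) := by
    rw [b_cls_ip_dv hg0, ← hg]
    unfold N2 ip
    exact Finset.sum_congr rfl fun w _ => sq (g w)
  have h2 : ip g (e.rev.ev f) = ip g (e.rev.ev (Dp f')) := by
    refine Finset.sum_congr rfl fun w hw => ?_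
    rw [(ev_congr e.rev (by rw [hf.1, (Dp_hm f').1]) (fun w hw => (hDf w hw).symm)).2 w hw]
  have h3 : ip g (e.rev.ev (Dp f')) = ip f' (e.ev (Dp g)) := by
    have h3 := ev_adj e.rev hf' hgH
    rw [rev_rev] at h3
    rw [b_cls_ip_comm]
    exact h3
  have h4 : ip f' (e.ev (Dp g)) = ip f' (dv (e.ev (Dp g))) := b_cls_ip_dv hf'0
  have h5 := h K (Dp g) (Dp_hm g) (by rw [sum_Dp, hg0, mul_zero])
  have h6 : N2 (Dp g) = (qr K * (qr K - 1)) ^ 2 * N2 g := by
    have e1 : N2 (Dp g) = ip (Dp g) (Dp g) := Finset.sum_congr rfl fun w _ => sq _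
    rw [e1, Dp_symm]
    unfold ip N2
    rw [Finset.mul_sum]
    refine Finset.sum_congr rfl fun w hw => ?_
    rw [Dp_Dp hgH hg0 hw]
    ring
  have h7 : N2 g ^ 2 ≤ N2 f' * N2 (dv (e.ev (Dp g))) := by
    rw [h1, h2, h3, h4]
    exact Finset.sum_mul_sq_le_sq_mul_sq _ _ _
  have hq := b_cls_q (K := K)
  have hCk : 0 ≤ C / qr K ^ k := div_nonneg hC.le (pow_nonneg (by linarith) _)
  have h8 : N2 g ^ 2 ≤ C / qr K ^ k * N2 f * N2 g := by
    calc N2 g ^ 2 ≤ N2 f' * N2 (dv (e.ev (Dp g))) := h7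
      _ ≤ N2 f' * (C / qr K ^ k * N2 (Dp g)) :=
        mul_le_mul_of_nonneg_left h5 (b_cls_N2_nonneg f')
      _ = _ := by rw [h6, ← hN]; ring
  rcases (b_cls_N2_nonneg g).eq_or_lt with h9 | h9
  · rw [← h9]
    exact mul_nonneg hCk (b_cls_N2_nonneg f)
  · refine le_of_mul_le_mul_right ?_ h9
    rw [← sq]
    exact h8

theorem Con.mono {k l : ℕ} {e : Ex} (hl : l ≤ k) (h : Con k e) : Con l e := by
  obtain ⟨C, hC, h⟩ := h
  refine ⟨C, hC, fun K _ _ f hf h0 => (h K f hf h0).trans ?_⟩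
  have hq := b_cls_q (K := K)
  refine mul_le_mul_of_nonneg_right ?_ (b_cls_N2_nonneg f)
  exact div_le_div_of_nonneg_left hC.le (pow_pos (by linarith) _)
    (pow_le_pow_right₀ (by linarith) hl)

/-- `(e f g)° = (e (g f)°)° + mean (g f) (e U)°`. -/
theorem Con.mul {k l : ℕ} {e f : Ex} (he : Con k e) (hf : Con l f) (h8 : k + l ≤ 8) : Con (k + l) (.mul e f) := by
  obtain ⟨C1, hC1, h1⟩ := he
  obtain ⟨C2, hC2, h2⟩ := hf
  obtain ⟨C3, hC3, h3⟩ := ev_mean f
  obtain ⟨C4, hC4, h4⟩ := ev_U e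
  refine ⟨2 * (C1 * C2) + 2 * (C3 * C4), by positivity, fun K _ _ g hg h0 => ?_⟩
  have hq := b_cls_q (K := K)
  have hq0 : 0 < qr K := by linarith
  have hNg := b_cls_N2_nonneg g
  set m := mean (f.ev g) with hm
  have e1 : f.ev g = fun w => dv (f.ev g) w + m * U w := by
    funext w
    unfold dv
    rw [hm]
    ring
  have e2 : (Ex.mul e f).ev g = fun w => e.ev (dv (f.ev g)) w + m * e.ev U w := by
    funext w
    show e.ev (f.ev g) w = _
    conv_lhs => rw [e1]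
    rw [ev_add, ev_smul]
  have e3 : N2 (dv ((Ex.mul e f).ev g)) ≤
      2 * N2 (dv (e.ev (dv (f.ev g)))) + 2 * (m ^ 2 * N2 (dv (e.ev (U : W5 K → ℝ)))) := by
    rw [e2, b_cls_dv_add, b_cls_dv_smul]
    refine (b_cls_N2_add _ _).trans ?_
    rw [b_cls_N2_smul]
  have e4 : N2 (dv (e.ev (dv (f.ev g)))) ≤ C1 / qr K ^ k * (C2 / qr K ^ l * N2 g) :=
    (h1 K _ (dv_hm (ev_hm _ hg)) (dv_sum _)).trans
      (mul_le_mul_of_nonneg_left (h2 K g hg h0) (div_nonneg hC1.le (pow_nonneg hq0.le _)))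
  have e5 : m ^ 2 * N2 (dv (e.ev (U : W5 K → ℝ))) ≤ C3 * C4 / qr K ^ 8 * N2 g := by
    have a1 : m ^ 2 ≤ C3 * N2 g / qr K ^ 6 := by
      have a2 := h3 K g hg h0
      rw [le_div_iff₀ (pow_pos hq0 6)]
      have a3 : m ^ 2 * qr K ^ 6 = m ^ 2 * qr K ^ 4 * qr K ^ 2 := by ring
      rw [a3]
      calc m ^ 2 * qr K ^ 4 * qr K ^ 2 ≤ C3 / qr K ^ 2 * N2 g * qr K ^ 2 :=
            mul_le_mul_of_nonneg_right a2 (sq_nonneg _)
        _ = C3 * N2 g := by field_simp
    have a4 := (h4 K).1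
    calc m ^ 2 * N2 (dv (e.ev (U : W5 K → ℝ))) ≤ C3 * N2 g / qr K ^ 6 * (C4 / qr K ^ 2) :=
          mul_le_mul a1 a4 (b_cls_N2_nonneg _) (by positivity)
      _ = _ := by field_simp
  have e6 : C3 * C4 / qr K ^ 8 * N2 g ≤ C3 * C4 / qr K ^ (k + l) * N2 g := by
    refine mul_le_mul_of_nonneg_right ?_ hNg
    exact div_le_div_of_nonneg_left (by positivity) (pow_pos hq0 _)
      (pow_le_pow_right₀ (by linarith) h8)
  have e7 : C1 / qr K ^ k * (C2 / qr K ^ l * N2 g) = C1 * C2 / qr K ^ (k + l) * N2 g := by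
    rw [pow_add]
    field_simp
  calc N2 (dv ((Ex.mul e f).ev g))
      ≤ 2 * (C1 * C2 / qr K ^ (k + l) * N2 g) + 2 * (C3 * C4 / qr K ^ (k + l) * N2 g) := by
        rw [e7] at e4
        linarith
    _ = _ := by ring

private theorem b_cls_all {k : ℕ} {e : Ex} (h : Cls k e) : Con (min k 8) e := by
  induction h with
  | zero e =>
    obtain ⟨C, hC, h⟩ := ev_N2 e
    refine ⟨C, hC, fun K _ _ f hf _ => ?_⟩
    rw [Nat.zero_min, pow_zero, div_one]
    exact (N2_dv_le _).trans (h K f hf)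
  | pair x y hxy =>
    have hn : min 1 8 = 1 := rfl
    rw [hn]
    obtain ⟨C, hC, h⟩ := pair_bound
    have key : ∀ x y : Lt, y ≠ .h → x ≠ y → Con 1 (.mul (.lt x) (.lt y)) := by
      intro x y hy hxy
      refine ⟨C, hC, fun K _ _ f hf h0 => ?_⟩
      rw [pow_one]
      exact (N2_dv_le _).trans (h K y x f hy hxy hf h0)
    by_cases hy : y = .h
    · have hx : x ≠ .h := fun hx => hxy (hx.trans hy.symm)
      exact (key y x hx (Ne.symm hxy)).rev
    · exact key x y hy hxy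
  | @mul k l e f _ _ ihe ihf =>
    have h1 : min (k + l) 8 = min k 8 + (min (k + l) 8 - min k 8) := by omega
    have h2 : min (k + l) 8 - min k 8 ≤ min l 8 := by omega
    rw [h1]
    exact Con.mul ihe (Con.mono h2 ihf) (by omega)
  | @add k e f _ _ ihe ihf =>
    obtain ⟨C1, hC1, h1⟩ := ihe
    obtain ⟨C2, hC2, h2⟩ := ihf
    refine ⟨2 * C1 + 2 * C2, by positivity, fun K _ _ g hg h0 => ?_⟩
    have e1 : (Ex.add e f).ev g = fun w => e.ev g w + f.ev g w := rfl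
    rw [e1, b_cls_dv_add]
    calc N2 (fun w => dv (e.ev g) w + dv (f.ev g) w)
        ≤ 2 * N2 (dv (e.ev g)) + 2 * N2 (dv (f.ev g)) := b_cls_N2_add _ _
      _ ≤ 2 * (C1 / qr K ^ min k 8 * N2 g) + 2 * (C2 / qr K ^ min k 8 * N2 g) := by
          have := h1 K g hg h0
          have := h2 K g hg h0
          linarith
      _ = _ := by ring
  | @sm k e p _ ihe =>
    obtain ⟨C1, hC1, h1⟩ := ihe
    obtain ⟨C2, hC2, h2⟩ := tv_abs p
    refine ⟨C2 ^ 2 * C1, by positivity, fun K _ _ g hg h0 => ?_⟩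
    have e1 : (Ex.sm p e).ev g = fun w => tv K p * e.ev g w := rfl
    rw [e1, b_cls_dv_smul, b_cls_N2_smul]
    have e2 : tv K p ^ 2 ≤ C2 ^ 2 := sq_le_sq' (by linarith [neg_abs_le (tv K p), h2 K])
      ((le_abs_self _).trans (h2 K))
    calc tv K p ^ 2 * N2 (dv (e.ev g)) ≤ C2 ^ 2 * (C1 / qr K ^ min k 8 * N2 g) :=
          mul_le_mul e2 (h1 K g hg h0) (b_cls_N2_nonneg _) (sq_nonneg _)
      _ = _ := by ring
  | @mono k l e hl _ ih => exact Con.mono (by omega) ih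

theorem con_of_cls {k : ℕ} {e : Ex} (h : Cls k e) (h8 : k ≤ 8) : Con k e := by
  have h1 := b_cls_all h
  rwa [min_eq_left h8] at h1

end Pool.Agent.Pf4
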