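import Pool.Agent.Pf4.Ops

/-!
# Counting isotropic vectors; the operator of the pairing
-/

set_option autoImplicit false

open scoped BigOperators Classical

namespace Pool.Agent.Pf4

variable {K : Type} [Field K] [Fintype K]

theorem mem_IS {w : W5 K} : w ∈ IS K ↔ w.Iso ∧ w ≠ 0 := by
  simp [IS]

private theorem bcnt_zero_def : (0 : W5 K) = ⟨0, 0, 0, 0, 0⟩ := rfl

private theorem bcnt_ne_zero {w : W5 K} (h : w.x4 ≠ 0) : w ≠ 0 := by
  rintro rfl
  exact h rfl

/-- The cone of the conic. -/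
private def bcntQ (u : K × K × K) : K := u.1 * u.2.1 + u.1 * u.2.2 + u.2.1 * u.2.2

private theorem bcnt_cone : ((Finset.univ : Finset (K × K × K)).filter fun u => bcntQ u = 0).card =
    Fintype.card K ^ 2 := by
  have h : ((Finset.univ : Finset (K × K × K)).filter fun u => bcntQ u = 0).card =
      (Finset.univ : Finset (K × K)).card := by
    refine Finset.card_nbij' (fun u => (u.1 + u.2.1, if u.1 + u.2.1 = 0 then u.2.2 else u.1))
      (fun p => if p.1 = 0 then (0, 0, p.2) else (p.2, p.1 - p.2, - (p.2 * (p.1 - p.2)) / p.1))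
      ?_ ?_ ?_ ?_
    · intro u _; simp
    · rintro ⟨s, t⟩ _
      by_cases hs : s = 0
      · simp [hs, bcntQ]
      · simp only [hs, if_false, Finset.coe_filter, Finset.mem_univ, true_and, Set.mem_ofPred_eq,
          bcntQ]
        field_simp
        ring
    · rintro ⟨a, b, c⟩ hu
      simp only [Finset.coe_filter, Finset.mem_univ, true_and, Set.mem_ofPred_eq, bcntQ] at hu
      by_cases hs : a + b = 0
      · have hb : b = -a := by linear_combination hs
        subst hb
        have ha : a = 0 := by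
          have : a * a = 0 := by linear_combination -hu
          simpa using this
        subst ha
        simp
      · simp only [hs, if_false, Prod.mk.injEq, true_and]
        refine ⟨by ring, ?_⟩
        rw [div_eq_iff hs]
        linear_combination -hu
    · rintro ⟨s, t⟩ _
      by_cases hs : s = 0
      · simp [hs]
      · simp [hs]
  rw [h]
  simp [Finset.card_univ, Fintype.card_prod, sq]

private theorem bcnt_cone_ne : (((Finset.univ : Finset (K × K × K)).filter fun u => bcntQ u ≠ 0).card : ℝ) =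
    qr K ^ 2 * (qr K - 1) := by
  have h := Finset.card_filter_add_card_filter_not (s := (Finset.univ : Finset (K × K × K)))
    (fun u => bcntQ u = 0)
  rw [bcnt_cone, Finset.card_univ] at h
  have h2 : Fintype.card (K × K × K) = Fintype.card K ^ 3 := by
    simp [Fintype.card_prod]; ring
  rw [h2] at h
  have h3 : ((Fintype.card K : ℝ) ^ 2) + (((Finset.univ : Finset (K × K × K)).filter
      fun u => ¬ bcntQ u = 0).card : ℝ) = (Fintype.card K : ℝ) ^ 3 := by exact_mod_cast h
  unfold qr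
  simp only [ne_eq]
  linear_combination h3

private theorem bcnt_units : (((Finset.univ : Finset K).filter fun t => t ≠ 0).card : ℝ) = qr K - 1 := by
  have h := Finset.card_filter_add_card_filter_not (s := (Finset.univ : Finset K)) (fun t => t = 0)
  have h1 : ((Finset.univ : Finset K).filter fun t => t = 0).card = 1 := by
    rw [Finset.card_eq_one]; exact ⟨0, by ext; simp⟩
  rw [h1, Finset.card_univ] at h
  have h3 : (1 : ℝ) + (((Finset.univ : Finset K).filter fun t => ¬ t = 0).card : ℝ)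
    = (Fintype.card K : ℝ) := by exact_mod_cast h
  unfold qr
  simp only [ne_eq]
  linear_combination h3

/-- The isotropic vectors with `x4 ≠ 0`. -/
private theorem bcnt_x4 : ((((IS K).filter fun w => w.x4 ≠ 0).card : ℕ) : ℝ) = qr K ^ 3 * (qr K - 1) := by
  have h : ((IS K).filter fun w => w.x4 ≠ 0).card =
      (((Finset.univ : Finset K).filter fun t => t ≠ 0) ×ˢ (Finset.univ : Finset (K × K × K))).card := by
    refine Finset.card_nbij' (fun w => (w.x4, w.x1, w.x2, w.x3))
      (fun p => ⟨bcntQ p.2 / p.1, p.2.1, p.2.2.1, p.2.2.2, p.1⟩) ?_ ?_ ?_ ?_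
    · intro w hw
      simp only [Finset.coe_filter, Set.mem_ofPred_eq] at hw
      simp [hw.2]
    · rintro ⟨t, a, b, c⟩ hp
      simp only [Finset.coe_product, Finset.coe_filter, Finset.mem_univ, true_and, Finset.coe_univ,
        Set.mem_prod, Set.mem_ofPred_eq, Set.mem_univ, and_true] at hp
      simp only [Finset.coe_filter, Set.mem_ofPred_eq, mem_IS]
      refine ⟨⟨?_, bcnt_ne_zero hp⟩, hp⟩
      unfold W5.Iso bcntQ
      field_simp
    · intro w hw
      simp only [Finset.coe_filter, Set.mem_ofPred_eq, mem_IS] at hw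
      obtain ⟨⟨h1, -⟩, h2⟩ := hw
      unfold W5.Iso at h1
      ext
      · simp only [bcntQ]
        rw [div_eq_iff h2]
        exact h1.symm
      all_goals rfl
    · rintro ⟨t, a, b, c⟩ _
      rfl
  rw [h, Finset.card_product, Finset.card_univ]
  push_cast
  rw [bcnt_units]
  simp [Fintype.card_prod, qr]
  ring

/-- There are `q ^ 4 - 1` nonzero isotropic vectors. -/
theorem card_IS : ((IS K).card : ℝ) = qr K ^ 4 - 1 := by
  have h := Finset.card_filter_add_card_filter_not (s := IS K) (fun w => w.x4 ≠ 0)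
  have h1 : ((IS K).filter fun w => ¬ w.x4 ≠ 0).card + 1 = Fintype.card K ^ 3 := by
    have e : insert (0 : W5 K) ((IS K).filter fun w => ¬ w.x4 ≠ 0) =
        (Finset.univ : Finset (W5 K)).filter fun w => w.Iso ∧ w.x4 = 0 := by
      ext w
      simp only [Finset.mem_insert, Finset.mem_filter, mem_IS, not_not, Finset.mem_univ, true_and]
      constructor
      · rintro (rfl | ⟨⟨h1, -⟩, h2⟩)
        · exact ⟨by simp [W5.Iso, bcnt_zero_def], rfl⟩
        · exact ⟨h1, h2⟩
      · rintro ⟨h1, h2⟩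
        by_cases h0 : w = 0
        · exact Or.inl h0
        · exact Or.inr ⟨⟨h1, h0⟩, h2⟩
    rw [← Finset.card_insert_of_notMem (a := (0 : W5 K)) (by simp [mem_IS]), e]
    have e2 : ((Finset.univ : Finset (W5 K)).filter fun w => w.Iso ∧ w.x4 = 0).card =
        ((Finset.univ : Finset K) ×ˢ ((Finset.univ : Finset (K × K × K)).filter fun u => bcntQ u = 0)).card := by
      refine Finset.card_nbij' (fun w => (w.x0, w.x1, w.x2, w.x3))
        (fun p => ⟨p.1, p.2.1, p.2.2.1, p.2.2.2, 0⟩) ?_ ?_ ?_ ?_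
      · intro w hw
        simp only [Finset.coe_filter, Finset.mem_univ, true_and, Set.mem_ofPred_eq, W5.Iso] at hw
        simp only [Finset.coe_product, Finset.coe_filter, Finset.mem_univ, true_and, Finset.coe_univ,
          Set.mem_prod, Set.mem_ofPred_eq, Set.mem_univ, bcntQ]
        rw [← hw.1, hw.2, mul_zero]
      · rintro ⟨t, a, b, c⟩ hp
        simp only [Finset.coe_product, Finset.coe_filter, Finset.mem_univ, true_and, Finset.coe_univ,
          Set.mem_prod, Set.mem_ofPred_eq, Set.mem_univ, bcntQ] at hp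
        simp only [Finset.coe_filter, Finset.mem_univ, true_and, Set.mem_ofPred_eq, W5.Iso, and_true]
        rw [hp, mul_zero]
      · intro w hw
        simp only [Finset.coe_filter, Finset.mem_univ, true_and, Set.mem_ofPred_eq] at hw
        ext
        all_goals first | rfl | exact hw.2.symm
      · rintro ⟨t, a, b, c⟩ _
        rfl
    rw [e2, Finset.card_product, bcnt_cone, Finset.card_univ]
    ring
  have h2 : (((IS K).filter fun w => w.x4 ≠ 0).card : ℝ) + (((IS K).filter fun w => ¬ w.x4 ≠ 0).card : ℝ)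
      = ((IS K).card : ℝ) := by exact_mod_cast h
  have h3 : (((IS K).filter fun w => ¬ w.x4 ≠ 0).card : ℝ) + 1 = qr K ^ 3 := by
    unfold qr; exact_mod_cast h1
  rw [← h2, bcnt_x4]
  linear_combination h3

/-- A pair of isometries. -/
private structure BcntG (φ ψ : W5 K ≃ W5 K) : Prop where
  iso : ∀ w, (ψ w).Iso ↔ w.Iso
  iso' : ∀ w, (φ w).Iso ↔ w.Iso
  zero : ψ 0 = 0
  zero' : φ 0 = 0
  sm : ∀ (r : K) w, φ (w.sm r) = (φ w).sm r
  pr : ∀ v w, W5.pr (φ v) (ψ w) = W5.pr v w

private theorem BcntG.trans {φ ψ φ' ψ' : W5 K ≃ W5 K} (h : BcntG φ ψ) (h' : BcntG φ' ψ') :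
    BcntG (φ.trans φ') (ψ.trans ψ') where
  iso w := by simp [h'.iso, h.iso]
  iso' w := by simp [h'.iso', h.iso']
  zero := by simp [h.zero, h'.zero]
  zero' := by simp [h.zero', h'.zero']
  sm r w := by simp [h.sm, h'.sm]
  pr v w := by simp [h'.pr, h.pr]

private theorem BcntG.refl : BcntG (Equiv.refl (W5 K)) (Equiv.refl (W5 K)) where
  iso w := Iff.rfl
  iso' w := Iff.rfl
  zero := rfl
  zero' := rfl
  sm r w := rfl
  pr v w := rfl

private theorem BcntG.mem {φ ψ : W5 K ≃ W5 K} (h : BcntG φ ψ) {w : W5 K} : ψ w ∈ IS K ↔ w ∈ IS K := by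
  rw [mem_IS, mem_IS, h.iso]
  exact and_congr_right fun _ => not_congr
    ⟨fun h' => ψ.injective (h'.trans h.zero.symm), fun h' => by rw [h', h.zero]⟩

private theorem BcntG.mem' {φ ψ : W5 K ≃ W5 K} (h : BcntG φ ψ) {w : W5 K} : φ w ∈ IS K ↔ w ∈ IS K := by
  rw [mem_IS, mem_IS, h.iso']
  exact and_congr_right fun _ => not_congr
    ⟨fun h' => φ.injective (h'.trans h.zero'.symm), fun h' => by rw [h', h.zero']⟩

private theorem BcntG.card2 {φ ψ : W5 K ≃ W5 K} (h : BcntG φ ψ) (v v' : W5 K) :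
    ((IS K).filter fun w => W5.pr v w ≠ 0 ∧ W5.pr v' w ≠ 0).card =
      ((IS K).filter fun w => W5.pr (φ v) w ≠ 0 ∧ W5.pr (φ v') w ≠ 0).card := by
  refine Finset.card_nbij' ψ ψ.symm ?_ ?_ ?_ ?_
  · intro w hw
    simp only [Finset.coe_filter, Set.mem_ofPred_eq] at hw ⊢
    rw [h.mem, h.pr, h.pr]
    exact hw
  · intro w hw
    simp only [Finset.coe_filter, Set.mem_ofPred_eq] at hw ⊢
    rw [← h.mem, ← h.pr, ← h.pr v', Equiv.apply_symm_apply]
    exact hw
  · intro w _; simp
  · intro w _; simp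

/-- The shift. -/
private def bcntSh (a b c : K) : W5 K ≃ W5 K where
  toFun w := ⟨w.x0, w.x1 + a * w.x0, w.x2 + b * w.x0, w.x3 + c * w.x0,
    w.x4 + (a * (w.x2 + w.x3) + b * (w.x1 + w.x3) + c * (w.x1 + w.x2)) + w.x0 * (a * b + a * c + b * c)⟩
  invFun w := ⟨w.x0, w.x1 - a * w.x0, w.x2 - b * w.x0, w.x3 - c * w.x0,
    w.x4 - (a * (w.x2 + w.x3) + b * (w.x1 + w.x3) + c * (w.x1 + w.x2)) + w.x0 * (a * b + a * c + b * c)⟩
  left_inv w := by ext <;> simp <;> ring
  right_inv w := by ext <;> simp <;> ring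

/-- The exchange. -/
private def bcntEx : W5 K ≃ W5 K where
  toFun w := ⟨w.x4, w.x1, w.x2, w.x3, w.x0⟩
  invFun w := ⟨w.x4, w.x1, w.x2, w.x3, w.x0⟩
  left_inv w := rfl
  right_inv w := rfl

/-- The rotation. -/
private def bcntRt : W5 K ≃ W5 K where
  toFun w := w.rt
  invFun w := w.tr
  left_inv w := rfl
  right_inv w := rfl

private theorem bcntSh_G (a b c : K) : BcntG (bcntSh a b c) (bcntSh (-a) (-b) (-c)) where
  iso w := by
    simp only [bcntSh, Equiv.coe_fn_mk, W5.Iso]
    constructor <;> intro h <;> linear_combination h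
  iso' w := by
    simp only [bcntSh, Equiv.coe_fn_mk, W5.Iso]
    constructor <;> intro h <;> linear_combination h
  zero := by simp [bcntSh, bcnt_zero_def]
  zero' := by simp [bcntSh, bcnt_zero_def]
  sm r w := by
    simp only [bcntSh, Equiv.coe_fn_mk, W5.sm]
    ext <;> simp <;> ring
  pr v w := by
    simp only [bcntSh, Equiv.coe_fn_mk, W5.pr]
    ring

private theorem bcntEx_G : BcntG (bcntEx (K := K)) bcntEx where
  iso w := by
    simp only [bcntEx, Equiv.coe_fn_mk, W5.Iso]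
    constructor <;> intro h <;> linear_combination h
  iso' w := by
    simp only [bcntEx, Equiv.coe_fn_mk, W5.Iso]
    constructor <;> intro h <;> linear_combination h
  zero := by simp [bcntEx, bcnt_zero_def]
  zero' := by simp [bcntEx, bcnt_zero_def]
  sm r w := by simp [bcntEx, W5.sm]
  pr v w := by
    simp only [bcntEx, Equiv.coe_fn_mk, W5.pr]
    ring

private theorem bcntRt_G : BcntG (bcntRt (K := K)) bcntRt where
  iso w := by
    simp only [bcntRt, Equiv.coe_fn_mk, W5.Iso, W5.rt]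
    constructor <;> intro h <;> linear_combination h
  iso' w := by
    simp only [bcntRt, Equiv.coe_fn_mk, W5.Iso, W5.rt]
    constructor <;> intro h <;> linear_combination h
  zero := by simp [bcntRt, bcnt_zero_def, W5.rt]
  zero' := by simp [bcntRt, bcnt_zero_def, W5.rt]
  sm r w := by simp [bcntRt, W5.sm, W5.rt]
  pr v w := by
    simp only [bcntRt, Equiv.coe_fn_mk, W5.pr, W5.rt]
    ring

private theorem bcnt_lin {b1 b2 b3 : K} (hQ : b1 * b2 + b1 * b3 + b2 * b3 = 0)
    (h1 : b2 + b3 = 0) (h2 : b1 + b3 = 0) (h3 : b1 + b2 = 0) : b1 = 0 ∧ b2 = 0 ∧ b3 = 0 := by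
  have e2 : b2 = -b3 := by linear_combination h1
  have e1 : b1 = -b3 := by linear_combination h2
  subst e2 e1
  have : b3 * b3 = 0 := by linear_combination -hQ
  have h0 : b3 = 0 := by simpa using this
  simp [h0]

private theorem bcnt_red1 {v : W5 K} (hv : v ∈ IS K) (h0 : v.x0 ≠ 0) : ∃ φ ψ : W5 K ≃ W5 K, BcntG φ ψ ∧
    ∃ c : K, c ≠ 0 ∧ φ v = ⟨c, 0, 0, 0, 0⟩ := by
  refine ⟨_, _, bcntSh_G (-(v.x1 / v.x0)) (-(v.x2 / v.x0)) (-(v.x3 / v.x0)), v.x0, h0, ?_⟩
  obtain ⟨hI, -⟩ := mem_IS.1 hv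
  unfold W5.Iso at hI
  simp only [bcntSh, Equiv.coe_fn_mk]
  ext
  · rfl
  · simp only; field_simp; ring
  · simp only; field_simp; ring
  · simp only; field_simp; ring
  · simp only
    have e : v.x4 = (v.x1 * v.x2 + v.x1 * v.x3 + v.x2 * v.x3) / v.x0 := by
      rw [eq_div_iff h0]; linear_combination hI
    rw [e]
    field_simp
    ring

private theorem bcnt_red2 {v : W5 K} (hv : v ∈ IS K) (h4 : v.x4 ≠ 0) : ∃ φ ψ : W5 K ≃ W5 K, BcntG φ ψ ∧
    ∃ c : K, c ≠ 0 ∧ φ v = ⟨c, 0, 0, 0, 0⟩ := by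
  obtain ⟨φ, ψ, h, c, hc, e⟩ := bcnt_red1 (bcntEx_G.mem'.2 hv) h4
  exact ⟨_, _, bcntEx_G.trans h, c, hc, by simpa using e⟩

private theorem bcnt_red {v : W5 K} (hv : v ∈ IS K) : ∃ φ ψ : W5 K ≃ W5 K, BcntG φ ψ ∧
    ∃ c : K, c ≠ 0 ∧ φ v = ⟨c, 0, 0, 0, 0⟩ := by
  by_cases h0 : v.x0 = 0
  · by_cases h4 : v.x4 = 0
    · obtain ⟨hI, hne⟩ := mem_IS.1 hv
      unfold W5.Iso at hI
      rw [h0, zero_mul] at hI
      have hex : ∃ a b c : K, a * (v.x2 + v.x3) + b * (v.x1 + v.x3) + c * (v.x1 + v.x2) ≠ 0 := by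
        by_contra hcon
        push Not at hcon
        have h1 : v.x2 + v.x3 = 0 := by simpa using hcon 1 0 0
        have h2 : v.x1 + v.x3 = 0 := by simpa using hcon 0 1 0
        have h3 : v.x1 + v.x2 = 0 := by simpa using hcon 0 0 1
        obtain ⟨e1, e2, e3⟩ := bcnt_lin hI.symm h1 h2 h3
        apply hne
        ext <;> assumption
      obtain ⟨a, b, c, habc⟩ := hex
      have hG := bcntSh_G a b c
      have h4' : (bcntSh a b c v).x4 ≠ 0 := by
        simp only [bcntSh, Equiv.coe_fn_mk, h0, h4]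
        simpa using habc
      obtain ⟨φ, ψ, h, c, hc, e⟩ := bcnt_red2 (hG.mem'.2 hv) h4'
      exact ⟨_, _, hG.trans h, c, hc, by simpa using e⟩
    · exact bcnt_red2 hv h4
  · exact bcnt_red1 hv h0

/-- `v` is not orthogonal to `q ^ 3 * (q - 1)` isotropic vectors.  (By isometries one can take `v = (v0, 0, 0, 0, 0)`:
the maps `xi ↦ xi + y * x0, x4 ↦ x4 + y * (xj + xk)` and `x0 ↦ x0 + y * (xj + xk), xi ↦ xi + y * x4`, and the exchange of
`x0` and `x4`, preserve `pr` and `Iso`.) -/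
theorem card_ne {v : W5 K} (hv : v ∈ IS K) :
    (((IS K).filter fun w => W5.pr v w ≠ 0).card : ℝ) = qr K ^ 3 * (qr K - 1) := by
  obtain ⟨φ, ψ, h, c, hc, e⟩ := bcnt_red hv
  have h2 := h.card2 v v
  simp only [and_self] at h2
  rw [h2, e, ← bcnt_x4]
  congr 2
  apply Finset.filter_congr
  intro w _
  simp [W5.pr, hc]

private theorem bcnt_pair_lin {b0 b1 b2 b3 : K} (hb : b1 + b2 ≠ 0) :
    (((IS K).filter fun w => w.x4 ≠ 0 ∧ W5.pr ⟨b0, b1, b2, b3, 0⟩ w ≠ 0).card : ℝ) =
      qr K ^ 2 * (qr K - 1) ^ 2 := by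
  have h : ((IS K).filter fun w => w.x4 ≠ 0 ∧ W5.pr ⟨b0, b1, b2, b3, 0⟩ w ≠ 0).card =
      (((Finset.univ : Finset K).filter fun t => t ≠ 0) ×ˢ (((Finset.univ : Finset K).filter fun t => t ≠ 0) ×ˢ
        (Finset.univ : Finset (K × K)))).card := by
    refine Finset.card_nbij' (fun w => (w.x4, W5.pr ⟨b0, b1, b2, b3, 0⟩ w, w.x1, w.x2))
      (fun p => ⟨bcntQ (p.2.2.1, p.2.2.2, (p.2.1 - b0 * p.1 - (b2 + b3) * p.2.2.1 - (b1 + b3) * p.2.2.2) / (b1 + b2)) / p.1,
        p.2.2.1, p.2.2.2, (p.2.1 - b0 * p.1 - (b2 + b3) * p.2.2.1 - (b1 + b3) * p.2.2.2) / (b1 + b2), p.1⟩)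
      ?_ ?_ ?_ ?_
    · intro w hw
      simp only [Finset.coe_filter, Set.mem_ofPred_eq] at hw
      simp [hw.2.1, hw.2.2]
    · rintro ⟨t, s, a, b⟩ hp
      simp only [Finset.coe_product, Finset.coe_filter, Finset.mem_univ, true_and, Finset.coe_univ,
        Set.mem_prod, Set.mem_ofPred_eq, Set.mem_univ, and_true] at hp
      simp only [Finset.coe_filter, Set.mem_ofPred_eq, mem_IS]
      refine ⟨⟨?_, bcnt_ne_zero hp.1⟩, hp.1, ?_⟩
      · have := hp.1
        unfold W5.Iso bcntQ
        simp only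
        field_simp
      · have : W5.pr ⟨b0, b1, b2, b3, 0⟩ ⟨bcntQ (a, b, (s - b0 * t - (b2 + b3) * a - (b1 + b3) * b) / (b1 + b2)) / t,
            a, b, (s - b0 * t - (b2 + b3) * a - (b1 + b3) * b) / (b1 + b2), t⟩ = s := by
          simp only [W5.pr, zero_mul, add_zero]
          field_simp
          ring
        rw [this]
        exact hp.2
    · intro w hw
      simp only [Finset.coe_filter, Set.mem_ofPred_eq, mem_IS] at hw
      obtain ⟨⟨h1, -⟩, h2, -⟩ := hw
      unfold W5.Iso at h1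
      have e3 : (W5.pr ⟨b0, b1, b2, b3, 0⟩ w - b0 * w.x4 - (b2 + b3) * w.x1 - (b1 + b3) * w.x2) / (b1 + b2) = w.x3 := by
        rw [div_eq_iff hb]
        simp only [W5.pr]
        ring
      simp only [e3, bcntQ]
      ext
      · simp only
        rw [div_eq_iff h2]
        exact h1.symm
      all_goals rfl
    · rintro ⟨t, s, a, b⟩ _
      simp only [W5.pr, Prod.mk.injEq, true_and, and_true, zero_mul, add_zero]
      field_simp
      ring
  rw [h, Finset.card_product, Finset.card_product, Finset.card_univ]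
  push_cast
  rw [bcnt_units]
  simp [Fintype.card_prod, qr]
  ring

private theorem bcnt_pair_sq {b0 b1 b2 b3 b4 : K} (hb : b4 ≠ 0)
    (hI : b0 * b4 = b1 * b2 + b1 * b3 + b2 * b3) :
    (((IS K).filter fun w => w.x4 ≠ 0 ∧ W5.pr ⟨b0, b1, b2, b3, b4⟩ w ≠ 0).card : ℝ) =
      qr K ^ 2 * (qr K - 1) ^ 2 := by
  have key : ∀ w : W5 K, w.Iso → W5.pr ⟨b0, b1, b2, b3, b4⟩ w * (b4 * w.x4) =
      bcntQ (w.x4 * b1 + b4 * w.x1, w.x4 * b2 + b4 * w.x2, w.x4 * b3 + b4 * w.x3) := by
    intro w hw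
    unfold W5.Iso at hw
    simp only [W5.pr, bcntQ]
    linear_combination w.x4 ^ 2 * hI + b4 ^ 2 * hw
  have h : ((IS K).filter fun w => w.x4 ≠ 0 ∧ W5.pr ⟨b0, b1, b2, b3, b4⟩ w ≠ 0).card =
      (((Finset.univ : Finset K).filter fun t => t ≠ 0) ×ˢ
        ((Finset.univ : Finset (K × K × K)).filter fun u => bcntQ u ≠ 0)).card := by
    refine Finset.card_nbij' (fun w => (w.x4, w.x4 * b1 + b4 * w.x1, w.x4 * b2 + b4 * w.x2, w.x4 * b3 + b4 * w.x3))
      (fun p => ⟨bcntQ ((p.2.1 - p.1 * b1) / b4, (p.2.2.1 - p.1 * b2) / b4, (p.2.2.2 - p.1 * b3) / b4) / p.1,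
        (p.2.1 - p.1 * b1) / b4, (p.2.2.1 - p.1 * b2) / b4, (p.2.2.2 - p.1 * b3) / b4, p.1⟩)
      ?_ ?_ ?_ ?_
    · intro w hw
      simp only [Finset.coe_filter, Set.mem_ofPred_eq, mem_IS] at hw
      simp only [Finset.coe_product, Finset.coe_filter, Finset.mem_univ, true_and,
        Set.mem_prod, Set.mem_ofPred_eq]
      refine ⟨hw.2.1, ?_⟩
      rw [← key w hw.1.1]
      exact mul_ne_zero hw.2.2 (mul_ne_zero hb hw.2.1)
    · rintro ⟨t, x, y, z⟩ hp
      simp only [Finset.coe_product, Finset.coe_filter, Finset.mem_univ, true_and,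
        Set.mem_prod, Set.mem_ofPred_eq] at hp
      obtain ⟨ht, hQ⟩ := hp
      have hiso : (⟨bcntQ ((x - t * b1) / b4, (y - t * b2) / b4, (z - t * b3) / b4) / t,
          (x - t * b1) / b4, (y - t * b2) / b4, (z - t * b3) / b4, t⟩ : W5 K).Iso := by
        unfold W5.Iso bcntQ
        simp only
        field_simp
      simp only [Finset.coe_filter, Set.mem_ofPred_eq, mem_IS]
      refine ⟨⟨hiso, bcnt_ne_zero ht⟩, ht, ?_⟩
      have := key _ hiso
      simp only at this
      have e : ∀ r b : K, t * b + b4 * ((r - t * b) / b4) = r := by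
        intro r b; field_simp; ring
      rw [e, e, e] at this
      intro h0
      rw [h0, zero_mul] at this
      exact hQ this.symm
    · intro w hw
      simp only [Finset.coe_filter, Set.mem_ofPred_eq, mem_IS] at hw
      obtain ⟨⟨h1, -⟩, h2, -⟩ := hw
      unfold W5.Iso at h1
      have e : ∀ r b : K, (w.x4 * b + b4 * r - w.x4 * b) / b4 = r := by
        intro r b; field_simp; ring
      simp only [e, bcntQ]
      ext
      · simp only
        rw [div_eq_iff h2]
        exact h1.symm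
      all_goals rfl
    · rintro ⟨t, x, y, z⟩ _
      have e : ∀ r b : K, t * b + b4 * ((r - t * b) / b4) = r := by
        intro r b; field_simp; ring
      simp only [e]
  rw [h, Finset.card_product]
  push_cast
  rw [bcnt_units, bcnt_cone_ne]
  ring

/-- Two isotropic vectors on different lines (orthogonal or not). -/
theorem card_ne2 {v v' : W5 K} (hv : v ∈ IS K) (hv' : v' ∈ IS K) (h : ∀ r : K, v' ≠ v.sm r) :
    (((IS K).filter fun w => W5.pr v w ≠ 0 ∧ W5.pr v' w ≠ 0).card : ℝ) = qr K ^ 2 * (qr K - 1) ^ 2 := by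
  obtain ⟨φ, ψ, hG, c, hc, e⟩ := bcnt_red hv
  have key : ∀ u : W5 K, ((IS K).filter fun w => W5.pr ⟨c, 0, 0, 0, 0⟩ w ≠ 0 ∧ W5.pr u w ≠ 0) =
      ((IS K).filter fun w => w.x4 ≠ 0 ∧ W5.pr u w ≠ 0) := by
    intro u
    apply Finset.filter_congr
    intro w _
    have : W5.pr ⟨c, 0, 0, 0, 0⟩ w = c * w.x4 := by simp [W5.pr]
    rw [this]
    simp [hc]
  rw [hG.card2 v v', e]
  have hu := hG.mem'.2 hv'
  have hne : ∀ r : K, φ v' ≠ ⟨r, 0, 0, 0, 0⟩ := by
    intro r hr
    apply h (r / c)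
    apply φ.injective
    rw [hr, hG.sm, e]
    simp only [W5.sm]
    ext
    · simp only; field_simp
    all_goals simp
  obtain ⟨hI, -⟩ := mem_IS.1 hu
  revert hne hI
  generalize φ v' = u
  obtain ⟨b0, b1, b2, b3, b4⟩ := u
  intro hne hI
  unfold W5.Iso at hI
  simp only at hI
  by_cases h4 : b4 = 0
  · subst h4
    rw [mul_zero] at hI
    by_cases h12 : b1 + b2 = 0
    · -- rotate
      by_cases h23 : b2 + b3 = 0
      · by_cases h13 : b1 + b3 = 0
        · obtain ⟨e1, e2, e3⟩ := bcnt_lin hI.symm h23 h13 h12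
          exact absurd (by rw [e1, e2, e3]) (hne b0)
        · rw [(bcntRt_G.trans bcntRt_G).card2]
          have e1 : (bcntRt.trans bcntRt) (⟨c, 0, 0, 0, 0⟩ : W5 K) = ⟨c, 0, 0, 0, 0⟩ := rfl
          have e2 : (bcntRt.trans bcntRt) (⟨b0, b1, b2, b3, 0⟩ : W5 K) = ⟨b0, b3, b1, b2, 0⟩ := rfl
          rw [e1, e2, key]
          exact bcnt_pair_lin (by rwa [add_comm])
      · rw [bcntRt_G.card2]
        have e1 : bcntRt (⟨c, 0, 0, 0, 0⟩ : W5 K) = ⟨c, 0, 0, 0, 0⟩ := rfl
        have e2 : bcntRt (⟨b0, b1, b2, b3, 0⟩ : W5 K) = ⟨b0, b2, b3, b1, 0⟩ := rfl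
        rw [e1, e2, key]
        exact bcnt_pair_lin h23
    · rw [key]
      exact bcnt_pair_lin h12
  · rw [key]
    exact bcnt_pair_sq h4 hI

theorem Dp_hm (f : W5 K → ℝ) : Hm (Dp f) := by
  constructor
  · unfold Dp
    apply Finset.sum_eq_zero
    intro w _
    have : W5.pr (0 : W5 K) w = 0 := by simp [W5.pr, bcnt_zero_def]
    simp [this]
  · intro r w hr
    unfold Dp
    apply Finset.sum_congr rfl
    intro u _
    have : W5.pr (w.sm r) u = r * W5.pr w u := by simp only [W5.pr, W5.sm]; ring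
    rw [this]
    simp [hr]

private theorem bcnt_U {w : W5 K} (hw : w ∈ IS K) : U w = 1 := by
  simp [U, (mem_IS.1 hw).2]

theorem Dp_U {v : W5 K} (hv : v ∈ IS K) : Dp U v = qr K ^ 3 * (qr K - 1) := by
  rw [← card_ne hv, Finset.card_filter]
  push_cast
  unfold Dp
  apply Finset.sum_congr rfl
  intro w hw
  rw [bcnt_U hw]
  split_ifs <;> simp_all

private theorem bcnt_pr_comm (v w : W5 K) : W5.pr v w = W5.pr w v := by
  simp only [W5.pr]; ring

theorem Dp_symm (f g : W5 K → ℝ) : ip (Dp f) g = ip f (Dp g) := by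
  unfold ip Dp
  simp only [Finset.sum_mul, Finset.mul_sum]
  rw [Finset.sum_comm]
  apply Finset.sum_congr rfl
  intro v _
  apply Finset.sum_congr rfl
  intro w _
  rw [bcnt_pr_comm w v]
  split_ifs <;> ring

theorem sum_Dp (f : W5 K → ℝ) : ∑ w ∈ IS K, Dp f w = qr K ^ 3 * (qr K - 1) * ∑ w ∈ IS K, f w := by
  have h := Dp_symm f U
  unfold ip at h
  have h1 : ∑ w ∈ IS K, Dp f w * U w = ∑ w ∈ IS K, Dp f w := by
    apply Finset.sum_congr rfl
    intro w hw
    rw [bcnt_U hw, mul_one]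
  rw [h1] at h
  rw [h, Finset.mul_sum]
  apply Finset.sum_congr rfl
  intro w hw
  rw [Dp_U hw]
  ring

/-- The nonzero multiples of a vector. -/
private theorem bcnt_line {f : W5 K → ℝ} (hf : Hm f) {v : W5 K} (hv : v ∈ IS K) :
    ∑ u ∈ (IS K).filter (fun u => ∃ r : K, u = v.sm r), f u = (qr K - 1) * f v := by
  have h1 : ∀ u ∈ (IS K).filter (fun u => ∃ r : K, u = v.sm r), f u = f v := by
    intro u hu
    obtain ⟨hu1, r, rfl⟩ := Finset.mem_filter.1 hu
    have hr : r ≠ 0 := by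
      rintro rfl
      apply (mem_IS.1 hu1).2
      simp [W5.sm, bcnt_zero_def]
    exact hf.2 r v hr
  rw [Finset.sum_congr rfl h1, Finset.sum_const, nsmul_eq_mul]
  congr 1
  rw [← bcnt_units]
  congr 1
  symm
  refine Finset.card_bij (fun r _ => v.sm r) ?_ ?_ ?_
  · intro r hr
    have hr0 : r ≠ 0 := by simpa using hr
    refine Finset.mem_filter.2 ⟨mem_IS.2 ⟨?_, ?_⟩, r, rfl⟩
    · have := (mem_IS.1 hv).1
      unfold W5.Iso at this ⊢
      simp only [W5.sm]
      linear_combination r ^ 2 * this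
    · intro h0
      apply (mem_IS.1 hv).2
      have h2 := W5.ext_iff.1 h0
      simp only [W5.sm, bcnt_zero_def, mul_eq_zero, hr0, false_or] at h2
      ext
      · exact h2.1
      · exact h2.2.1
      · exact h2.2.2.1
      · exact h2.2.2.2.1
      · exact h2.2.2.2.2
  · intro r _ s _ hrs
    by_contra hne
    apply (mem_IS.1 hv).2
    have h2 := W5.ext_iff.1 hrs
    simp only [W5.sm, mul_eq_mul_right_iff, hne, false_or] at h2
    ext
    · exact h2.1
    · exact h2.2.1
    · exact h2.2.2.1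
    · exact h2.2.2.2.1
    · exact h2.2.2.2.2
  · intro u hu
    obtain ⟨hu1, r, rfl⟩ := Finset.mem_filter.1 hu
    refine ⟨r, ?_, rfl⟩
    have hr : r ≠ 0 := by
      rintro rfl
      apply (mem_IS.1 hu1).2
      simp [W5.sm, bcnt_zero_def]
    simpa using hr

/-- `D ^ 2 = (q * (q - 1)) ^ 2` on the functions of mean value `0`. -/
theorem Dp_Dp {f : W5 K → ℝ} (hf : Hm f) (h0 : ∑ w ∈ IS K, f w = 0) {v : W5 K} (hv : v ∈ IS K) :
    Dp (Dp f) v = (qr K * (qr K - 1)) ^ 2 * f v := by
  have h1 : Dp (Dp f) v = ∑ u ∈ IS K, f u *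
      (((IS K).filter fun w => W5.pr v w ≠ 0 ∧ W5.pr u w ≠ 0).card : ℝ) := by
    unfold Dp
    have e1 : ∀ w ∈ IS K, (if W5.pr v w = 0 then 0 else ∑ u ∈ IS K, if W5.pr w u = 0 then 0 else f u) =
        ∑ u ∈ IS K, f u * (if W5.pr v w ≠ 0 ∧ W5.pr u w ≠ 0 then (1 : ℝ) else 0) := by
      intro w _
      by_cases hw : W5.pr v w = 0
      · simp [hw]
      · simp only [hw, if_false, ne_eq, not_false_eq_true, true_and]
        apply Finset.sum_congr rfl
        intro u _
        rw [bcnt_pr_comm w u]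
        split_ifs <;> simp_all
    rw [Finset.sum_congr rfl e1, Finset.sum_comm]
    apply Finset.sum_congr rfl
    intro u _
    rw [← Finset.mul_sum, Finset.card_filter]
    push_cast
    rfl
  have h2 : ∀ u ∈ IS K, f u * (((IS K).filter fun w => W5.pr v w ≠ 0 ∧ W5.pr u w ≠ 0).card : ℝ) =
      qr K ^ 2 * (qr K - 1) ^ 2 * f u +
        (if ∃ r : K, u = v.sm r then qr K ^ 2 * (qr K - 1) * f u else 0) := by
    intro u hu
    by_cases hr : ∃ r : K, u = v.sm r
    · have e : ((IS K).filter fun w => W5.pr v w ≠ 0 ∧ W5.pr u w ≠ 0) =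
          ((IS K).filter fun w => W5.pr v w ≠ 0) := by
        apply Finset.filter_congr
        intro w _
        obtain ⟨r, rfl⟩ := hr
        have hr0 : r ≠ 0 := by
          rintro rfl
          apply (mem_IS.1 hu).2
          simp [W5.sm, bcnt_zero_def]
        have : W5.pr (v.sm r) w = r * W5.pr v w := by simp only [W5.pr, W5.sm]; ring
        rw [this]
        simp [hr0]
      rw [e, card_ne hv, if_pos hr]
      ring
    · rw [card_ne2 hv hu (by push Not at hr; exact hr), if_neg hr]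
      ring
  rw [h1, Finset.sum_congr rfl h2, Finset.sum_add_distrib, ← Finset.mul_sum, h0, mul_zero, zero_add,
    ← Finset.sum_filter, ← Finset.mul_sum, bcnt_line hf hv]
  ring

private theorem bcnt_q : (2 : ℝ) ≤ qr K := by
  unfold qr
  exact_mod_cast Fintype.one_lt_card (α := K)

private theorem bcnt_U_hm : Hm (U (K := K)) := by
  constructor
  · simp [U]
  · intro r w hr
    have : w.sm r = 0 ↔ w = 0 := by
      constructor
      · intro h0
        have h2 := W5.ext_iff.1 h0
        simp only [W5.sm, bcnt_zero_def, mul_eq_zero, hr, false_or] at h2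
        ext
        · exact h2.1
        · exact h2.2.1
        · exact h2.2.2.1
        · exact h2.2.2.2.1
        · exact h2.2.2.2.2
      · rintro rfl
        simp [W5.sm, bcnt_zero_def]
    simp [U, this]

private theorem bcnt_Dp_lin (a b : ℝ) (f g : W5 K → ℝ) (v : W5 K) :
    Dp (fun w => a * f w + b * g w) v = a * Dp f v + b * Dp g v := by
  unfold Dp
  rw [Finset.mul_sum, Finset.mul_sum, ← Finset.sum_add_distrib]
  apply Finset.sum_congr rfl
  intro w _
  split_ifs <;> ring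

/-- The same with norms: for mean value `0`. -/
theorem exists_Dp0 {f : W5 K → ℝ} (hf : Hm f) (h0 : ∑ w ∈ IS K, f w = 0) :
    ∃ g : W5 K → ℝ, Hm g ∧ (∀ w ∈ IS K, Dp g w = f w) ∧ (∑ w ∈ IS K, g w = 0) ∧
      (qr K * (qr K - 1)) ^ 2 * N2 g = N2 f := by
  have hq := bcnt_q (K := K)
  have hc : (qr K * (qr K - 1)) ^ 2 ≠ 0 := by
    apply pow_ne_zero
    apply mul_ne_zero <;> linarith
  set c := (qr K * (qr K - 1)) ^ 2 with hcdef
  have hD := Dp_hm f
  refine ⟨fun w => c⁻¹ * Dp f w, ⟨by simp [hD.1], fun r w hr => by simp [hD.2 r w hr]⟩, ?_, ?_, ?_⟩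
  · intro w hw
    have h1 := bcnt_Dp_lin c⁻¹ 0 (Dp f) (Dp f) w
    simp only [zero_mul, add_zero] at h1
    rw [h1, Dp_Dp hf h0 hw, ← hcdef, inv_mul_cancel_left₀ hc]
  · rw [← Finset.mul_sum, sum_Dp, h0]
    ring
  · have h2 : N2 (Dp f) = c * N2 f := by
      have h3 := Dp_symm f (Dp f)
      unfold ip at h3
      unfold N2
      rw [Finset.mul_sum]
      have h4 : ∑ w ∈ IS K, Dp f w ^ 2 = ∑ w ∈ IS K, Dp f w * Dp f w := by
        apply Finset.sum_congr rfl; intro w _; ring
      rw [h4, h3]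
      apply Finset.sum_congr rfl
      intro w hw
      rw [Dp_Dp hf h0 hw]
      ring
    have h5 : N2 (fun w => c⁻¹ * Dp f w) = c⁻¹ ^ 2 * N2 (Dp f) := by
      unfold N2
      rw [Finset.mul_sum]
      apply Finset.sum_congr rfl
      intro w _
      ring
    rw [h5, h2]
    field_simp

/-- Every homogeneous function is in the image of `D`. -/
theorem exists_Dp {f : W5 K → ℝ} (hf : Hm f) : ∃ g : W5 K → ℝ, Hm g ∧ ∀ w ∈ IS K, Dp g w = f w := by
  have hq := bcnt_q (K := K)
  have hc3 : qr K ^ 3 * (qr K - 1) ≠ 0 := by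
    apply mul_ne_zero
    · apply pow_ne_zero; linarith
    · linarith
  have hcard : ((IS K).card : ℝ) ≠ 0 := by
    rw [card_IS]
    nlinarith [pow_le_pow_left₀ (by norm_num) hq 4]
  set m := (∑ w ∈ IS K, f w) / (IS K).card with hm
  have hU := bcnt_U_hm (K := K)
  have hf0 : Hm (fun w => 1 * f w + (-m) * U w) :=
    ⟨by simp [hf.1, hU.1], fun r w hr => by simp [hf.2 r w hr, hU.2 r w hr]⟩
  have hs : ∑ w ∈ IS K, (1 * f w + (-m) * U w) = 0 := by
    have h1 : ∑ w ∈ IS K, U w = (IS K).card := by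
      rw [Finset.sum_congr rfl (fun w hw => bcnt_U hw)]
      simp
    rw [Finset.sum_add_distrib, ← Finset.mul_sum, ← Finset.mul_sum, h1, hm]
    field_simp
    ring
  obtain ⟨g, hg, hg1, -, -⟩ := exists_Dp0 hf0 hs
  refine ⟨fun w => 1 * g w + (m / (qr K ^ 3 * (qr K - 1))) * U w,
    ⟨by simp [hg.1, hU.1], fun r w hr => by simp [hg.2 r w hr, hU.2 r w hr]⟩, ?_⟩
  intro w hw
  rw [bcnt_Dp_lin, hg1 w hw, Dp_U hw, bcnt_U hw, div_mul_cancel₀ _ hc3]
  ring

/-- The sum of the function of the triangle. -/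
theorem sum_T0 : ∑ w ∈ IS K, T0 w = (qr K ^ 3 - 1) * (qr K ^ 3 * (qr K - 1)) := by
  unfold T0
  rw [Finset.sum_comm]
  have h1 : ∀ y ∈ (Finset.univ : Finset (Fin 3 → K)), (∑ w ∈ IS K,
      (if W5.pr w ⟨y 0 + y 1 + y 2, y 1 * y 2, y 0 * y 2, y 0 * y 1, y 0 * y 1 * y 2⟩ = 0 then (0 : ℝ) else 1)) =
      if y = 0 then 0 else qr K ^ 3 * (qr K - 1) := by
    intro y _
    by_cases hy : y = 0
    · subst hy
      rw [if_pos rfl]
      apply Finset.sum_eq_zero
      intro w _
      simp [W5.pr]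
    · rw [if_neg hy]
      have hv : (⟨y 0 + y 1 + y 2, y 1 * y 2, y 0 * y 2, y 0 * y 1, y 0 * y 1 * y 2⟩ : W5 K) ∈ IS K := by
        rw [mem_IS]
        constructor
        · unfold W5.Iso
          simp only
          ring
        · intro h0
          have h2 := W5.ext_iff.1 h0
          simp only [bcnt_zero_def, mul_eq_zero] at h2
          obtain ⟨e0, e1, e2, e3, -⟩ := h2
          apply hy
          have hall : y 0 = 0 ∧ y 1 = 0 ∧ y 2 = 0 := by
            rcases e1 with e1 | e1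
            · rcases e2 with e2 | e2
              · refine ⟨e2, e1, ?_⟩
                rw [e1, e2] at e0; simpa using e0
              · refine ⟨?_, e1, e2⟩
                rw [e1, e2] at e0; simpa using e0
            · rcases e3 with e3 | e3
              · refine ⟨e3, ?_, e1⟩
                rw [e1, e3] at e0; simpa using e0
              · refine ⟨?_, e3, e1⟩
                rw [e1, e3] at e0; simpa using e0
          funext i
          fin_cases i
          · exact hall.1
          · exact hall.2.1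
          · exact hall.2.2
      rw [← card_ne hv, Finset.card_filter]
      push_cast
      apply Finset.sum_congr rfl
      intro w _
      rw [bcnt_pr_comm w]
      split_ifs <;> simp_all
  rw [Finset.sum_congr rfl h1]
  have h2 : ∀ y ∈ (Finset.univ : Finset (Fin 3 → K)), (if y = 0 then (0 : ℝ) else qr K ^ 3 * (qr K - 1)) =
      qr K ^ 3 * (qr K - 1) - (if y = 0 then qr K ^ 3 * (qr K - 1) else 0) := by
    intro y _
    split_ifs <;> ring
  rw [Finset.sum_congr rfl h2, Finset.sum_sub_distrib, Finset.sum_const, Finset.sum_ite_eq']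
  simp [Finset.card_univ, qr]
  ring

end Pool.Agent.Pf4
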