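import Pool.Agent.Pf4.BasD
import Pool.Agent.Pf4.AFin

/-!
# The twenty functions and the exact matrices of the letters

The definitions are in `BasD`, the theorems `bas_rt`, `opa_bas`, `oph_bas` in `AFin`.
-/
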