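import Pool.Agent.Pf4.BOp
import Pool.Agent.Pf4.Bas

/-!
# The letters are bounded operators
-/

set_option autoImplicit false

open scoped BigOperators Classical

namespace Pool.Agent.Pf4

private theorem BCol_op_add {K : Type} [Field K] [Fintype K] (x : Lt) (f g : W5 K → ℝ) (w : W5 K) :
    x.op (fun v => f v + g v) w = x.op f w + x.op g w := by
  unfold Lt.op
  rw [Finset.sum_add_distrib, add_div]

private theorem BCol_op_smul {K : Type} [Field K] [Fintype K] (x : Lt) (r : ℝ) (f : W5 K → ℝ) (w : W5 K) :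
    x.op (fun v => r * f v) w = r * x.op f w := by
  unfold Lt.op
  rw [← Finset.mul_sum, mul_div_assoc]

private theorem BCol_q2 (K : Type) [Field K] [Fintype K] : (2 : ℝ) ≤ qr K := by
  unfold qr
  exact_mod_cast Fintype.one_lt_card (α := K)

private theorem BCol_U_one {K : Type} [Field K] [Fintype K] {w : W5 K} (hw : w ∈ IS K) : U w = 1 := by
  have h := (mem_IS.mp hw).2
  simp [U, h]

private theorem BCol_card_pos (K : Type) [Field K] [Fintype K] : (0 : ℝ) < (IS K).card := by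
  rw [card_IS]
  have h := BCol_q2 K
  have h1 : (1 : ℝ) < qr K ^ 4 := one_lt_pow₀ (by linarith) (by norm_num)
  linarith

private theorem BCol_card_le (K : Type) [Field K] [Fintype K] : ((IS K).card : ℝ) ≤ qr K ^ 4 := by
  rw [card_IS]
  linarith

private theorem BCol_dv {K : Type} [Field K] [Fintype K] (f : W5 K → ℝ) (c : ℝ) {w : W5 K} (hw : w ∈ IS K) :
    dv f w = (f w - c * U w) - mean (fun v => f v - c * U v) := by
  have hc := BCol_card_pos K
  have h1 : ∑ v ∈ IS K, (f v - c * U v) = ∑ v ∈ IS K, f v - c * (IS K).card := by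
    rw [Finset.sum_sub_distrib]
    congr 1
    rw [← Finset.mul_sum]
    congr 1
    rw [Finset.sum_congr rfl fun v hv => BCol_U_one hv]
    simp
  unfold dv mean
  rw [h1, BCol_U_one hw]
  field_simp
  ring

private theorem BCol_dv_sum_le {K : Type} [Field K] [Fintype K] (f : W5 K → ℝ) (c : ℝ) :
    ∑ w ∈ IS K, |dv f w| ≤ 2 * ∑ w ∈ IS K, |f w - c * U w| := by
  have hc := BCol_card_pos K
  have h1 : ∀ w ∈ IS K, |dv f w| ≤ |f w - c * U w| + |mean (fun v => f v - c * U v)| := by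
    intro w hw
    rw [BCol_dv f c hw]
    exact abs_sub _ _
  have h2 : |mean (fun v => f v - c * U v)| * (IS K).card ≤ ∑ w ∈ IS K, |f w - c * U w| := by
    unfold mean
    rw [abs_div, abs_of_pos hc, div_mul_cancel₀ _ hc.ne']
    exact Finset.abs_sum_le_sum_abs _ _
  calc ∑ w ∈ IS K, |dv f w| ≤ ∑ w ∈ IS K, (|f w - c * U w| + |mean (fun v => f v - c * U v)|) :=
        Finset.sum_le_sum h1
    _ = ∑ w ∈ IS K, |f w - c * U w| + |mean (fun v => f v - c * U v)| * (IS K).card := by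
        rw [Finset.sum_add_distrib]
        congr 1
        rw [Finset.sum_const, nsmul_eq_mul, mul_comm]
    _ ≤ _ := by linarith

private theorem BCol_dv_N2_le {K : Type} [Field K] [Fintype K] (f : W5 K → ℝ) (c : ℝ) :
    N2 (dv f) ≤ ∑ w ∈ IS K, (f w - c * U w) ^ 2 := by
  have hc := BCol_card_pos K
  set m := mean (fun v => f v - c * U v) with hm
  have h2 : ∑ w ∈ IS K, (f w - c * U w) = m * (IS K).card := by
    rw [hm]
    unfold mean
    rw [div_mul_cancel₀ _ hc.ne']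
  have h3 : N2 (dv f) = ∑ w ∈ IS K, (f w - c * U w) ^ 2 - m ^ 2 * (IS K).card := by
    unfold N2
    calc ∑ w ∈ IS K, dv f w ^ 2 = ∑ w ∈ IS K, ((f w - c * U w) ^ 2 - 2 * m * (f w - c * U w) + m ^ 2) := by
          refine Finset.sum_congr rfl fun w hw => ?_
          rw [BCol_dv f c hw, ← hm]
          ring
      _ = _ := by
          rw [Finset.sum_add_distrib, Finset.sum_sub_distrib, ← Finset.mul_sum, h2, Finset.sum_const, nsmul_eq_mul]
          ring
  rw [h3]
  have : 0 ≤ m ^ 2 * (IS K).card := by positivity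
  linarith

private theorem BCol_cnt {K : Type} [Field K] [Fintype K] (j : Fin 20) (hj : 9 ≤ j.1) :
    ∑ w ∈ IS K, bas j w ≤ qr K ^ 2 := by
  have h1 : ∑ w ∈ IS K, bas j w = (((IS K).filter fun w => w ≠ 0 ∧ bc j w).card : ℝ) := by
    unfold bas
    rw [Finset.sum_boole]
  rw [h1]
  have h2 : ((IS K).filter fun w => w ≠ 0 ∧ bc j w).card ≤ (Finset.univ : Finset (K × K)).card := by
    refine Finset.card_le_card_of_injOn (fun w => (w.x1 + w.x2 + w.x3, w.x0 + w.x4)) (fun _ _ => by simp) ?_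
    intro w hw w' hw' h
    have e1 : bc j w := (Finset.mem_filter.mp (Finset.mem_coe.mp hw)).2.2
    have e2 : bc j w' := (Finset.mem_filter.mp (Finset.mem_coe.mp hw')).2.2
    obtain ⟨h3, h4⟩ := Prod.mk.inj h
    obtain ⟨y0, y1, y2, y3, y4⟩ := w
    obtain ⟨z0, z1, z2, z3, z4⟩ := w'
    fin_cases j <;> simp_all [bc]
  rw [Finset.card_univ, Fintype.card_prod] at h2
  have h3 : (((IS K).filter fun w => w ≠ 0 ∧ bc j w).card : ℝ) ≤ ((Fintype.card K * Fintype.card K : ℕ) : ℝ) := by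
    exact_mod_cast h2
  rw [Nat.cast_mul] at h3
  unfold qr
  rw [pow_two]
  exact h3

private theorem BCol_bas01 {K : Type} [Field K] (j : Fin 20) (w : W5 K) : 0 ≤ bas j w ∧ bas j w ≤ 1 := by
  unfold bas
  split_ifs <;> simp

private theorem BCol_bas_zero {K : Type} [Field K] [Fintype K] (w : W5 K) : bas (0 : Fin 20) w = U w := by
  unfold bas U
  by_cases h : w = 0
  · simp [h]
  · simp [h, bc]

/-- Functions which are sums of few elementary ones. -/
private theorem BCol_row {K : Type} [Field K] [Fintype K] (M : Fin 20 → ℝ) (A : ℝ) (hA : 0 ≤ A)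
    (h1 : ∀ j : Fin 20, 1 ≤ j.1 → j.1 ≤ 8 → |M j| ≤ A * (qr K)⁻¹ ^ 4)
    (h2 : ∀ j : Fin 20, 9 ≤ j.1 → |M j| ≤ A * (qr K)⁻¹ ^ 2) :
    ∑ w ∈ IS K, |∑ j : Fin 20, M j * bas j w - M 0 * U w| ≤ 31 * A ∧
    ∑ w ∈ IS K, (∑ j : Fin 20, M j * bas j w - M 0 * U w) ^ 2 ≤ 1700 * A ^ 2 / qr K ^ 2 := by
  have hq := BCol_q2 K
  have hq0 : (0 : ℝ) < qr K := by linarith
  have ht0 : 0 < (qr K)⁻¹ := inv_pos.mpr hq0
  have ht1 : (qr K)⁻¹ ≤ 1 := inv_le_one_of_one_le₀ (by linarith)
  have htq : (qr K)⁻¹ * qr K = 1 := inv_mul_cancel₀ hq0.ne'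
  set t := (qr K)⁻¹ with ht
  set S : W5 K → ℝ := fun w => ∑ j : Fin 20, if 9 ≤ j.1 then bas j w else 0 with hS
  have hS0 : ∀ w, 0 ≤ S w := by
    intro w
    refine Finset.sum_nonneg fun j _ => ?_
    split_ifs
    · exact (BCol_bas01 j w).1
    · exact le_rfl
  have hS1 : ∀ w, S w ≤ 20 := by
    intro w
    have : S w ≤ ∑ j : Fin 20, (1 : ℝ) := by
      refine Finset.sum_le_sum fun j _ => ?_
      split_ifs
      · exact (BCol_bas01 j w).2
      · norm_num
    simpa using this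
  have hSs : ∑ w ∈ IS K, S w ≤ 11 * qr K ^ 2 := by
    rw [hS, Finset.sum_comm]
    calc ∑ j : Fin 20, ∑ w ∈ IS K, (if 9 ≤ j.1 then bas j w else 0)
        ≤ ∑ j : Fin 20, (if 9 ≤ j.1 then qr K ^ 2 else 0) := by
          refine Finset.sum_le_sum fun j _ => ?_
          split_ifs with h
          · exact BCol_cnt j h
          · simp
      _ = 11 * qr K ^ 2 := by
          simp only [Fin.sum_univ_succ]
          simp
          ring
  have hpt : ∀ w : W5 K, |∑ j : Fin 20, M j * bas j w - M 0 * U w| ≤ A * t ^ 2 * (20 * t ^ 2 + S w) := by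
    intro w
    have e1 : ∑ j : Fin 20, M j * bas j w - M 0 * U w = ∑ j : Fin 20, (if j = 0 then 0 else M j * bas j w) := by
      have e0 : ∑ j : Fin 20, M j * bas j w =
          ∑ j : Fin 20, (if j = 0 then M 0 * U w else 0) + ∑ j : Fin 20, (if j = 0 then 0 else M j * bas j w) := by
        rw [← Finset.sum_add_distrib]
        refine Finset.sum_congr rfl fun j _ => ?_
        by_cases hj : j = 0
        · rw [if_pos hj, if_pos hj, hj, BCol_bas_zero, add_zero]
        · rw [if_neg hj, if_neg hj, zero_add]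
      rw [e0, Finset.sum_ite_eq']
      simp
    rw [e1]
    refine (Finset.abs_sum_le_sum_abs _ _).trans ?_
    have e2 : A * t ^ 2 * (20 * t ^ 2 + S w) = ∑ j : Fin 20, A * t ^ 2 * (t ^ 2 + if 9 ≤ j.1 then bas j w else 0) := by
      rw [← Finset.mul_sum, Finset.sum_add_distrib]
      simp [hS]
    rw [e2]
    refine Finset.sum_le_sum fun j _ => ?_
    obtain ⟨b0, b1⟩ := BCol_bas01 j w
    by_cases hj : j = 0
    · simp only [hj, if_true, abs_zero]
      have : ¬ (9 ≤ ((0 : Fin 20) : ℕ)) := by decide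
      rw [if_neg this]
      positivity
    · rw [if_neg hj, abs_mul, abs_of_nonneg b0]
      have hj1 : 1 ≤ j.1 := Nat.one_le_iff_ne_zero.mpr fun h => hj (Fin.ext h)
      by_cases h9 : 9 ≤ j.1
      · rw [if_pos h9]
        calc |M j| * bas j w ≤ A * t ^ 2 * bas j w := mul_le_mul_of_nonneg_right (h2 j h9) b0
          _ ≤ A * t ^ 2 * (t ^ 2 + bas j w) := by
            apply mul_le_mul_of_nonneg_left _ (by positivity)
            have : 0 ≤ t ^ 2 := by positivity
            linarith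
      · rw [if_neg h9]
        calc |M j| * bas j w ≤ A * t ^ 4 * 1 :=
              mul_le_mul (h1 j hj1 (by omega)) b1 b0 (by positivity)
          _ = A * t ^ 2 * (t ^ 2 + 0) := by ring
  have hcard := BCol_card_le K
  have ht4 : t ^ 4 * qr K ^ 4 = 1 := by rw [← mul_pow, htq, one_pow]
  have ht2 : t ^ 2 * qr K ^ 2 = 1 := by rw [← mul_pow, htq, one_pow]
  constructor
  · calc ∑ w ∈ IS K, |∑ j : Fin 20, M j * bas j w - M 0 * U w|
        ≤ ∑ w ∈ IS K, A * t ^ 2 * (20 * t ^ 2 + S w) := Finset.sum_le_sum fun w _ => hpt w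
      _ = A * (20 * t ^ 4 * (IS K).card + t ^ 2 * ∑ w ∈ IS K, S w) := by
          rw [← Finset.mul_sum, Finset.sum_add_distrib, Finset.sum_const, nsmul_eq_mul]
          ring
      _ ≤ A * (20 * t ^ 4 * qr K ^ 4 + t ^ 2 * (11 * qr K ^ 2)) := by
          apply mul_le_mul_of_nonneg_left _ hA
          have e3 : 20 * t ^ 4 * (IS K).card ≤ 20 * t ^ 4 * qr K ^ 4 :=
            mul_le_mul_of_nonneg_left hcard (by positivity)
          have e4 : t ^ 2 * ∑ w ∈ IS K, S w ≤ t ^ 2 * (11 * qr K ^ 2) :=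
            mul_le_mul_of_nonneg_left hSs (by positivity)
          linarith
      _ = 31 * A := by
          linear_combination (20 * A) * ht4 + 11 * A * ht2
  · have hsq : ∀ w : W5 K, (∑ j : Fin 20, M j * bas j w - M 0 * U w) ^ 2 ≤
        A ^ 2 * t ^ 4 * (800 * t ^ 4 + 40 * S w) := by
      intro w
      rw [← sq_abs]
      have e5 := hpt w
      have e6 : |∑ j : Fin 20, M j * bas j w - M 0 * U w| ^ 2 ≤ (A * t ^ 2 * (20 * t ^ 2 + S w)) ^ 2 :=
        pow_le_pow_left₀ (abs_nonneg _) e5 2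
      refine e6.trans ?_
      have e7 : (20 * t ^ 2 + S w) ^ 2 ≤ 800 * t ^ 4 + 40 * S w := by
        have e8 : S w * S w ≤ 20 * S w := mul_le_mul_of_nonneg_right (hS1 w) (hS0 w)
        nlinarith [sq_nonneg (20 * t ^ 2 - S w)]
      calc (A * t ^ 2 * (20 * t ^ 2 + S w)) ^ 2 = A ^ 2 * t ^ 4 * (20 * t ^ 2 + S w) ^ 2 := by ring
        _ ≤ _ := mul_le_mul_of_nonneg_left e7 (by positivity)
    calc ∑ w ∈ IS K, (∑ j : Fin 20, M j * bas j w - M 0 * U w) ^ 2
        ≤ ∑ w ∈ IS K, A ^ 2 * t ^ 4 * (800 * t ^ 4 + 40 * S w) := Finset.sum_le_sum fun w _ => hsq w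
      _ = A ^ 2 * t ^ 4 * (800 * t ^ 4 * (IS K).card + 40 * ∑ w ∈ IS K, S w) := by
          rw [← Finset.mul_sum, Finset.sum_add_distrib, Finset.sum_const, nsmul_eq_mul, ← Finset.mul_sum]
          ring
      _ ≤ A ^ 2 * t ^ 4 * (800 * t ^ 4 * qr K ^ 4 + 40 * (11 * qr K ^ 2)) := by
          apply mul_le_mul_of_nonneg_left _ (by positivity)
          have e3 : 800 * t ^ 4 * (IS K).card ≤ 800 * t ^ 4 * qr K ^ 4 :=
            mul_le_mul_of_nonneg_left hcard (by positivity)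
          linarith
      _ ≤ A ^ 2 * t ^ 4 * (1240 * qr K ^ 2) := by
          apply mul_le_mul_of_nonneg_left _ (by positivity)
          have e9 : 800 * t ^ 4 * qr K ^ 4 = 800 := by rw [mul_assoc, ht4]; ring
          have e10 : 1 ≤ qr K ^ 2 := one_le_pow₀ (by linarith)
          rw [e9]
          linarith
      _ = 1240 * A ^ 2 * t ^ 2 := by
          linear_combination (1240 * A ^ 2 * t ^ 2) * ht2
      _ ≤ 1700 * A ^ 2 / qr K ^ 2 := by
          have e11 : t ^ 2 = 1 / qr K ^ 2 := by rw [ht, inv_pow, one_div]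
          rw [e11]
          have : 0 ≤ A ^ 2 / qr K ^ 2 := by positivity
          calc 1240 * A ^ 2 * (1 / qr K ^ 2) = 1240 * (A ^ 2 / qr K ^ 2) := by ring
            _ ≤ 1700 * (A ^ 2 / qr K ^ 2) := by linarith
            _ = _ := by ring

private theorem BCol_lev (t : ℝ) (h0 : 0 ≤ t) (h1 : t ≤ 1) (l : List ℤ) :
    |lev t l| ≤ (((l.map Int.natAbs).sum : ℕ) : ℝ) := by
  induction l with
  | nil => simp [lev]
  | cons a l ih =>
    have e1 : lev t (a :: l) = (a : ℝ) + t * lev t l := rfl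
    rw [e1, List.map_cons, List.sum_cons, Nat.cast_add, Nat.cast_natAbs, Int.cast_abs]
    refine (abs_add_le _ _).trans ?_
    rw [abs_mul, abs_of_nonneg h0]
    have : t * |lev t l| ≤ 1 * |lev t l| := mul_le_mul_of_nonneg_right h1 (abs_nonneg _)
    linarith

private theorem BCol_lev_pow (t : ℝ) (h0 : 0 ≤ t) (h1 : t ≤ 1) (k : ℕ) (l : List ℤ) (A : ℕ)
    (hl : (l.take k).all (fun a => a = 0) = true) (hA : (l.map Int.natAbs).sum ≤ A) : |lev t l| ≤ A * t ^ k := by
  induction k generalizing l with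
  | zero =>
    rw [pow_zero, mul_one]
    exact (BCol_lev t h0 h1 l).trans (by exact_mod_cast hA)
  | succ k ih =>
    cases l with
    | nil =>
      simp only [lev, abs_zero]
      positivity
    | cons a l =>
      simp only [List.take_succ_cons, List.all_cons, Bool.and_eq_true, decide_eq_true_eq] at hl
      have e1 : lev t (a :: l) = (a : ℝ) + t * lev t l := rfl
      rw [e1, hl.1]
      rw [List.map_cons, List.sum_cons] at hA
      have e2 := ih l hl.2 (by omega)
      rw [Int.cast_zero, zero_add, abs_mul, abs_of_nonneg h0, pow_succ]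
      calc t * |lev t l| ≤ t * (A * t ^ k) := mul_le_mul_of_nonneg_left e2 h0
        _ = _ := by ring

/-- The vector of the constant function. -/
private noncomputable def BCol_c : Fin 20 → ℝ := fun i => if i = 0 then 1 else 0

private theorem BCol_c_sum {K : Type} [Field K] [Fintype K] (v : W5 K) : ∑ i, BCol_c i * bas i v = U v := by
  unfold BCol_c
  simp [BCol_bas_zero]

private theorem BCol_a {K : Type} [Field K] [Fintype K] : ∃ c : ℝ,
    ∑ w ∈ IS K, |Lt.a.op U w - c * U w| ≤ 31 * 20 ∧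
    ∑ w ∈ IS K, (Lt.a.op (U : W5 K → ℝ) w - c * U w) ^ 2 ≤ 1700 * 20 ^ 2 / qr K ^ 2 := by
  have hq := BCol_q2 K
  have hq0 : (0 : ℝ) < qr K := by linarith
  have ht0 : 0 < (qr K)⁻¹ := inv_pos.mpr hq0
  have ht1 : (qr K)⁻¹ ≤ 1 := inv_le_one_of_one_le₀ (by linarith)
  set M : Fin 20 → ℝ := fun j => lev (qr K)⁻¹ ((matA.getD 0 []).getD j []) with hM
  have key : ∀ w ∈ IS K, Lt.a.op (U : W5 K → ℝ) w = ∑ j : Fin 20, M j * bas j w := by
    intro w hw
    have := opa_bas (K := K) BCol_c (by simp [BCol_c]) (by simp [BCol_c]) (by simp [BCol_c]) hw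
    have e : (fun v : W5 K => ∑ i, BCol_c i * bas i v) = U := funext fun v => BCol_c_sum v
    rw [e] at this
    rw [this]
    refine Finset.sum_congr rfl fun j _ => ?_
    congr 1
    unfold BCol_c
    rw [hM]
    simp
  have hb1 : ∀ j : Fin 20, 1 ≤ j.1 → j.1 ≤ 8 →
      (((matA.getD 0 []).getD j []).take 4).all (fun a => a = 0) = true ∧
        (((matA.getD 0 []).getD j []).map Int.natAbs).sum ≤ 20 := by
    decide
  have hb2 : ∀ j : Fin 20, 9 ≤ j.1 →
      (((matA.getD 0 []).getD j []).take 2).all (fun a => a = 0) = true ∧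
        (((matA.getD 0 []).getD j []).map Int.natAbs).sum ≤ 20 := by
    decide
  obtain ⟨r1, r2⟩ := BCol_row (K := K) M 20 (by norm_num)
    (fun j h h' => by
      have := BCol_lev_pow _ ht0.le ht1 4 _ 20 (hb1 j h h').1 (hb1 j h h').2
      exact_mod_cast this)
    (fun j h => by
      have := BCol_lev_pow _ ht0.le ht1 2 _ 20 (hb2 j h).1 (hb2 j h).2
      exact_mod_cast this)
  refine ⟨M 0, ?_, ?_⟩
  · rw [Finset.sum_congr rfl fun w hw => by rw [key w hw]]
    exact r1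
  · rw [Finset.sum_congr rfl fun w hw => by rw [key w hw]]
    exact r2

private theorem BCol_h {K : Type} [Field K] [Fintype K] : ∃ c : ℝ,
    ∑ w ∈ IS K, |Lt.h.op U w - c * U w| ≤ 31 * 20 ∧
    ∑ w ∈ IS K, (Lt.h.op (U : W5 K → ℝ) w - c * U w) ^ 2 ≤ 1700 * 20 ^ 2 / qr K ^ 2 := by
  have hq := BCol_q2 K
  have hq0 : (0 : ℝ) < qr K := by linarith
  have ht0 : 0 < (qr K)⁻¹ := inv_pos.mpr hq0
  have ht1 : (qr K)⁻¹ ≤ 1 := inv_le_one_of_one_le₀ (by linarith)
  set M : Fin 20 → ℝ := fun j => lev (qr K)⁻¹ ((matH.getD 0 []).getD j []) with hM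
  have key : ∀ w ∈ IS K, Lt.h.op (U : W5 K → ℝ) w = ∑ j : Fin 20, M j * bas j w := by
    intro w hw
    have := oph_bas (K := K) BCol_c (by
      intro i hi
      unfold BCol_c
      rw [if_neg]
      rintro rfl
      revert hi
      decide) hw
    have e : (fun v : W5 K => ∑ i, BCol_c i * bas i v) = U := funext fun v => BCol_c_sum v
    rw [e] at this
    rw [this]
    refine Finset.sum_congr rfl fun j _ => ?_
    congr 1
    unfold BCol_c
    rw [hM]
    simp
  have hb1 : ∀ j : Fin 20, 1 ≤ j.1 → j.1 ≤ 8 →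
      (((matH.getD 0 []).getD j []).take 4).all (fun a => a = 0) = true ∧
        (((matH.getD 0 []).getD j []).map Int.natAbs).sum ≤ 20 := by
    decide
  have hb2 : ∀ j : Fin 20, 9 ≤ j.1 →
      (((matH.getD 0 []).getD j []).take 2).all (fun a => a = 0) = true ∧
        (((matH.getD 0 []).getD j []).map Int.natAbs).sum ≤ 20 := by
    decide
  obtain ⟨r1, r2⟩ := BCol_row (K := K) M 20 (by norm_num)
    (fun j h h' => by
      have := BCol_lev_pow _ ht0.le ht1 4 _ 20 (hb1 j h h').1 (hb1 j h h').2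
      exact_mod_cast this)
    (fun j h => by
      have := BCol_lev_pow _ ht0.le ht1 2 _ 20 (hb2 j h).1 (hb2 j h).2
      exact_mod_cast this)
  refine ⟨M 0, ?_, ?_⟩
  · rw [Finset.sum_congr rfl fun w hw => by rw [key w hw]]
    exact r1
  · rw [Finset.sum_congr rfl fun w hw => by rw [key w hw]]
    exact r2

private theorem BCol_sum_rt {K : Type} [Field K] [Fintype K] (F : W5 K → ℝ) :
    ∑ w ∈ IS K, F w.rt = ∑ w ∈ IS K, F w := by
  refine Finset.sum_bij' (fun w _ => w.rt) (fun w _ => w.tr) ?_ ?_ ?_ ?_ ?_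
  · intro w hw
    obtain ⟨h1, h2⟩ := mem_IS.mp hw
    refine mem_IS.mpr ⟨?_, ?_⟩
    · unfold W5.Iso W5.rt at *
      simp only
      rw [h1]
      ring
    · intro h
      apply h2
      have := congrArg W5.tr h
      exact this
  · intro w hw
    obtain ⟨h1, h2⟩ := mem_IS.mp hw
    refine mem_IS.mpr ⟨?_, ?_⟩
    · unfold W5.Iso W5.tr at *
      simp only
      rw [h1]
      ring
    · intro h
      apply h2
      have := congrArg W5.rt h
      exact this
  · intro w _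
    rfl
  · intro w _
    rfl
  · intro w _
    rfl

private theorem BCol_sum_tr {K : Type} [Field K] [Fintype K] (F : W5 K → ℝ) :
    ∑ w ∈ IS K, F w.tr = ∑ w ∈ IS K, F w := by
  have := BCol_sum_rt (fun w : W5 K => F w.tr)
  exact this.symm

private theorem BCol_U_rt {K : Type} [Field K] [Fintype K] (w : W5 K) : U w.rt = U w := by
  unfold U
  have : w.rt = 0 ↔ w = 0 := ⟨fun h => congrArg W5.tr h, fun h => congrArg W5.rt h⟩
  by_cases h : w = 0
  · rw [if_pos h, if_pos (this.mpr h)]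
  · rw [if_neg h, if_neg (fun h' => h (this.mp h'))]

private theorem BCol_U_tr {K : Type} [Field K] [Fintype K] (w : W5 K) : U w.tr = U w := by
  have := BCol_U_rt w.tr
  exact this.symm

private theorem BCol_b {K : Type} [Field K] [Fintype K] : ∃ c : ℝ,
    ∑ w ∈ IS K, |Lt.b.op U w - c * U w| ≤ 31 * 20 ∧
    ∑ w ∈ IS K, (Lt.b.op (U : W5 K → ℝ) w - c * U w) ^ 2 ≤ 1700 * 20 ^ 2 / qr K ^ 2 := by
  obtain ⟨c, h1, h2⟩ := BCol_a (K := K)
  have key : ∀ w : W5 K, Lt.b.op U w - c * U w = Lt.a.op U w.rt - c * U w.rt := by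
    intro w
    rw [BCol_U_rt]
    congr 1
    unfold Lt.op
    congr 1
    refine Finset.sum_congr rfl fun y _ => ?_
    exact BCol_U_tr _
  refine ⟨c, ?_, ?_⟩
  · rw [Finset.sum_congr rfl fun w _ => by rw [key w]]
    rw [BCol_sum_rt (fun w => |Lt.a.op U w - c * U w|)]
    exact h1
  · rw [Finset.sum_congr rfl fun w _ => by rw [key w]]
    rw [BCol_sum_rt (fun w => (Lt.a.op U w - c * U w) ^ 2)]
    exact h2

private theorem BCol_cc {K : Type} [Field K] [Fintype K] : ∃ c : ℝ,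
    ∑ w ∈ IS K, |Lt.c.op U w - c * U w| ≤ 31 * 20 ∧
    ∑ w ∈ IS K, (Lt.c.op (U : W5 K → ℝ) w - c * U w) ^ 2 ≤ 1700 * 20 ^ 2 / qr K ^ 2 := by
  obtain ⟨c, h1, h2⟩ := BCol_a (K := K)
  have key : ∀ w : W5 K, Lt.c.op U w - c * U w = Lt.a.op U w.tr - c * U w.tr := by
    intro w
    rw [BCol_U_tr]
    congr 1
    unfold Lt.op
    congr 1
    refine Finset.sum_congr rfl fun y _ => ?_
    exact BCol_U_rt _
  refine ⟨c, ?_, ?_⟩
  · rw [Finset.sum_congr rfl fun w _ => by rw [key w]]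
    rw [BCol_sum_tr (fun w => |Lt.a.op U w - c * U w|)]
    exact h1
  · rw [Finset.sum_congr rfl fun w _ => by rw [key w]]
    rw [BCol_sum_tr (fun w => (Lt.a.op U w - c * U w) ^ 2)]
    exact h2

/-- `x U` is nearly constant.  This follows from the exact formulas (Part A, final list):
`a U = ((q ^ 4 - q + 1) 1 - x0 - (q ^ 2 - 2 q) L3 - (2 q ^ 2 - q) P3 - q dJ) / q ^ 4`, `h U = ...`, and the trivial bounds:
`[x0 = 0], [x4 = 0], [xi = 0]` hold for at most `C * q ^ 3` isotropic vectors, the lines `L_i, P_i` have at most `q ^ 2` and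
the points `d` at most `q` vectors. -/
theorem dv_op_U : ∃ C : ℝ, 0 < C ∧ ∀ (K : Type) [Field K] [Fintype K] (x : Lt),
    (∑ w ∈ IS K, |dv (x.op U) w|) ≤ C ∧ N2 (dv (x.op (U : W5 K → ℝ))) ≤ C / qr K ^ 2 := by
  refine ⟨1700 * 20 ^ 2, by norm_num, fun K _ _ x => ?_⟩
  have key : ∃ c : ℝ, ∑ w ∈ IS K, |x.op U w - c * U w| ≤ 31 * 20 ∧
      ∑ w ∈ IS K, (x.op (U : W5 K → ℝ) w - c * U w) ^ 2 ≤ 1700 * 20 ^ 2 / qr K ^ 2 := by
    cases x
    · exact BCol_a
    · exact BCol_b
    · exact BCol_cc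
    · exact BCol_h
  obtain ⟨c, h1, h2⟩ := key
  exact ⟨(BCol_dv_sum_le _ c).trans (by linarith), (BCol_dv_N2_le _ c).trans h2⟩

private theorem BCol_dv_hm {K : Type} [Field K] [Fintype K] {f : W5 K → ℝ} (hf : Hm f) : Hm (dv f) := by
  refine ⟨?_, fun r w hr => ?_⟩
  · unfold dv
    rw [hf.1]
    simp [U]
  · unfold dv
    rw [hf.2 r w hr]
    have : w.sm r = 0 ↔ w = 0 := by
      constructor
      · intro h
        have h0 := congrArg W5.x0 h
        have h1 := congrArg W5.x1 h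
        have h2 := congrArg W5.x2 h
        have h3 := congrArg W5.x3 h
        have h4 := congrArg W5.x4 h
        have e0 : w.x0 = 0 := (mul_eq_zero.mp h0).resolve_left hr
        have e1 : w.x1 = 0 := (mul_eq_zero.mp h1).resolve_left hr
        have e2 : w.x2 = 0 := (mul_eq_zero.mp h2).resolve_left hr
        have e3 : w.x3 = 0 := (mul_eq_zero.mp h3).resolve_left hr
        have e4 : w.x4 = 0 := (mul_eq_zero.mp h4).resolve_left hr
        exact W5.ext e0 e1 e2 e3 e4
      · rintro rfl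
        exact W5.ext (mul_zero r) (mul_zero r) (mul_zero r) (mul_zero r) (mul_zero r)
    unfold U
    by_cases h : w = 0
    · rw [if_pos h, if_pos (this.mpr h)]
    · rw [if_neg h, if_neg (fun h' => h (this.mp h'))]

private theorem BCol_dv_sum {K : Type} [Field K] [Fintype K] (f : W5 K → ℝ) : ∑ w ∈ IS K, dv f w = 0 := by
  have hc := BCol_card_pos K
  unfold dv
  rw [Finset.sum_sub_distrib, ← Finset.mul_sum, Finset.sum_congr rfl fun v hv => BCol_U_one hv]
  unfold mean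
  rw [Finset.sum_const, nsmul_eq_mul, mul_one, div_mul_cancel₀ _ hc.ne', sub_self]

private theorem BCol_ip_comm {K : Type} [Field K] [Fintype K] (f g : W5 K → ℝ) : ip f g = ip g f := by
  unfold ip
  exact Finset.sum_congr rfl fun w _ => mul_comm _ _

private theorem BCol_second {K : Type} [Field K] [Fintype K] (C : ℝ)
    (hC : ∀ x : Lt, (∑ w ∈ IS K, |dv (x.op (U : W5 K → ℝ)) w|) ≤ C) (x : Lt) (f : W5 K → ℝ) (hf : Hm f)
    (h0 : ∑ w ∈ IS K, f w = 0) : |∑ w ∈ IS K, x.op f w| ≤ 2 * C * ∑ w ∈ IS K, |f w| := by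
  have hq := BCol_q2 K
  have hq0 : (0 : ℝ) < qr K := by linarith
  have hq1 : (0 : ℝ) < qr K - 1 := by linarith
  set s : ℝ := (qr K * (qr K - 1)) ^ 2 with hs
  have hs0 : 0 < s := by positivity
  set g : W5 K → ℝ := fun v => s⁻¹ * Dp f v with hg
  have hDg : ∀ w, Dp g w = s⁻¹ * Dp (Dp f) w := by
    intro w
    unfold Dp
    rw [Finset.mul_sum]
    refine Finset.sum_congr rfl fun v _ => ?_
    split_ifs
    · simp
    · rfl
  have h1 : ∀ w ∈ IS K, Dp g w = f w := by
    intro w hw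
    rw [hDg, Dp_Dp hf h0 hw, ← hs, ← mul_assoc, inv_mul_cancel₀ hs0.ne', one_mul]
  have h2 : ∑ w ∈ IS K, x.op f w = ip (x.op (Dp g)) U := by
    unfold ip
    refine Finset.sum_congr rfl fun w hw => ?_
    rw [BCol_U_one hw, mul_one]
    refine op_congr x ?_ (fun v hv => (h1 v hv).symm) hw
    rw [hf.1, (Dp_hm g).1]
  have h3 : ip (x.op (Dp g)) U = ip g (x.op (Dp U)) := op_adj x g U
  have h4 : ip g (x.op (Dp U)) = qr K ^ 3 * (qr K - 1) * ip g (x.op U) := by
    unfold ip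
    rw [Finset.mul_sum]
    refine Finset.sum_congr rfl fun w hw => ?_
    have : x.op (Dp U) w = x.op (fun v => qr K ^ 3 * (qr K - 1) * U v) w := by
      refine op_congr x ?_ (fun v hv => ?_) hw
      · rw [(Dp_hm (U : W5 K → ℝ)).1]
        simp [U]
      · rw [Dp_U hv, BCol_U_one hv, mul_one]
    rw [this, BCol_op_smul]
    ring
  have h5 : ip g (x.op U) = s⁻¹ * ip (Dp f) (dv (x.op U)) := by
    unfold ip
    rw [Finset.mul_sum]
    have e1 : ∀ w ∈ IS K, g w * x.op U w =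
        s⁻¹ * (Dp f w * dv (x.op U) w) + s⁻¹ * mean (x.op (U : W5 K → ℝ)) * Dp f w := by
      intro w hw
      rw [hg]
      unfold dv
      rw [BCol_U_one hw]
      ring
    rw [Finset.sum_congr rfl e1, Finset.sum_add_distrib, ← Finset.mul_sum (IS K) (fun w => Dp f w), sum_Dp, h0]
    ring
  have h6 : ip (Dp f) (dv (x.op U)) = ip f (Dp (dv (x.op U))) := Dp_symm _ _
  have h7 : |ip f (Dp (dv (x.op U)))| ≤ C * ∑ w ∈ IS K, |f w| := by
    unfold ip
    refine (Finset.abs_sum_le_sum_abs _ _).trans ?_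
    rw [Finset.mul_sum]
    refine Finset.sum_le_sum fun w _ => ?_
    rw [abs_mul, mul_comm]
    apply mul_le_mul_of_nonneg_right _ (abs_nonneg _)
    refine le_trans ?_ (hC x)
    unfold Dp
    refine (Finset.abs_sum_le_sum_abs _ _).trans ?_
    refine Finset.sum_le_sum fun v _ => ?_
    split_ifs
    · simp
    · exact le_rfl
  have hC0 : 0 ≤ C := le_trans (Finset.sum_nonneg fun _ _ => abs_nonneg _) (hC x)
  have hF0 : 0 ≤ ∑ w ∈ IS K, |f w| := Finset.sum_nonneg fun _ _ => abs_nonneg _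
  have hp : 0 < qr K ^ 3 * (qr K - 1) := by positivity
  rw [h2, h3, h4, h5, h6, abs_mul (qr K ^ 3 * (qr K - 1)), abs_mul s⁻¹, abs_of_pos hp,
    abs_of_pos (inv_pos.mpr hs0)]
  have h8 : qr K ^ 3 * (qr K - 1) * s⁻¹ ≤ 2 := by
    rw [← div_eq_mul_inv, div_le_iff₀ hs0, hs]
    have e2 : 2 * (qr K * (qr K - 1)) ^ 2 - qr K ^ 3 * (qr K - 1) = qr K ^ 2 * (qr K - 1) * (qr K - 2) := by ring
    have e3 : 0 ≤ qr K ^ 2 * (qr K - 1) * (qr K - 2) := by
      apply mul_nonneg (by positivity)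
      linarith
    linarith
  calc qr K ^ 3 * (qr K - 1) * (s⁻¹ * |ip f (Dp (dv (x.op U)))|)
      = (qr K ^ 3 * (qr K - 1) * s⁻¹) * |ip f (Dp (dv (x.op U)))| := by ring
    _ ≤ 2 * (C * ∑ w ∈ IS K, |f w|) := mul_le_mul h8 h7 (abs_nonneg _) (by norm_num)
    _ = _ := by ring

private theorem BCol_abs_U {K : Type} [Field K] [Fintype K] (w : W5 K) : |U w| ≤ 1 := by
  unfold U
  split_ifs <;> simp

/-- The column bound.  For mean value `0` part `f°` of `f`: `⟨U, x f°⟩ = (q / (q - 1)) ⟨D (x U)°, f°⟩` by `op_adj` and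
`Dp_Dp`, and `|D (x U)°| ≤ ∑ |(x U)°| ≤ C`. -/
theorem col : ∃ C : ℝ, 0 < C ∧ ∀ (K : Type) [Field K] [Fintype K] (x : Lt) (f : W5 K → ℝ), Hm f →
    (∀ w, 0 ≤ f w) → ∑ w ∈ IS K, x.op f w ≤ C * ∑ w ∈ IS K, f w := by
  obtain ⟨C, hC, h⟩ := dv_op_U
  refine ⟨1 + 4 * C, by linarith, fun K _ _ x f hf hf0 => ?_⟩
  have hc := BCol_card_pos K
  have hS0 : 0 ≤ ∑ w ∈ IS K, f w := Finset.sum_nonneg fun w _ => hf0 w
  have hm : mean f * (IS K).card = ∑ w ∈ IS K, f w := by
    unfold mean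
    rw [div_mul_cancel₀ _ hc.ne']
  have hm0 : 0 ≤ mean f := by
    unfold mean
    positivity
  have h1 : ∀ w ∈ IS K, x.op f w = mean f * x.op U w + x.op (dv f) w := by
    intro w _
    rw [← BCol_op_smul, ← BCol_op_add]
    congr 1
    funext v
    unfold dv
    ring
  have h2 : ∑ w ∈ IS K, x.op f w = mean f * ∑ w ∈ IS K, x.op U w + ∑ w ∈ IS K, x.op (dv f) w := by
    rw [Finset.sum_congr rfl h1, Finset.sum_add_distrib, ← Finset.mul_sum]
  have h3 : ∑ w ∈ IS K, x.op (U : W5 K → ℝ) w ≤ (IS K).card := by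
    calc ∑ w ∈ IS K, x.op (U : W5 K → ℝ) w ≤ ∑ w ∈ IS K, (1 : ℝ) :=
          Finset.sum_le_sum fun w _ => (le_abs_self _).trans (op_abs x BCol_abs_U w)
      _ = _ := by simp
  have h4 := BCol_second C (fun x => (h K x).1) x (dv f) (BCol_dv_hm hf) (BCol_dv_sum f)
  have h5 : ∑ w ∈ IS K, |dv f w| ≤ 2 * ∑ w ∈ IS K, f w := by
    have := BCol_dv_sum_le f 0
    refine this.trans (le_of_eq ?_)
    congr 1
    refine Finset.sum_congr rfl fun w _ => ?_
    rw [zero_mul, sub_zero, abs_of_nonneg (hf0 w)]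
  have h6 : mean f * ∑ w ∈ IS K, x.op (U : W5 K → ℝ) w ≤ ∑ w ∈ IS K, f w := by
    rw [← hm]
    exact mul_le_mul_of_nonneg_left h3 hm0
  have h7 : ∑ w ∈ IS K, x.op (dv f) w ≤ 2 * C * (2 * ∑ w ∈ IS K, f w) :=
    (le_abs_self _).trans (h4.trans (mul_le_mul_of_nonneg_left h5 (by positivity)))
  rw [h2]
  linarith

theorem N2_op : ∃ C : ℝ, 0 < C ∧ ∀ (K : Type) [Field K] [Fintype K] (x : Lt) (f : W5 K → ℝ), Hm f →
    N2 (x.op f) ≤ C * N2 f := by
  obtain ⟨C, hC, h⟩ := col
  refine ⟨C, hC, fun K _ _ x f hf => ?_⟩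
  unfold N2
  calc ∑ w ∈ IS K, x.op f w ^ 2 ≤ ∑ w ∈ IS K, x.op (fun v => f v ^ 2) w :=
        Finset.sum_le_sum fun w _ => op_sq x f w
    _ ≤ C * ∑ w ∈ IS K, f w ^ 2 := by
        refine h K x (fun v => f v ^ 2) ⟨?_, fun r w hr => ?_⟩ (fun w => sq_nonneg _)
        · simp [hf.1]
        · simp only
          rw [hf.2 r w hr]

end Pool.Agent.Pf4
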