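import Pool.Agent.Pf4.BCls

/-!
# The limit: `U` is approximated by words applied to the function of the triangle
-/

set_option autoImplicit false

open scoped BigOperators Classical

namespace Pool.Agent.Pf4

section bcon_aux

variable {K : Type} [Field K] [Fintype K]

private theorem bcon_q1 : (1 : ℝ) ≤ qr K := by
  unfold qr
  exact_mod_cast Fintype.card_pos

private theorem bcon_q0 : (0 : ℝ) < qr K := lt_of_lt_of_le one_pos bcon_q1

private theorem bcon_card : (0 : ℝ) < ((IS K).card : ℝ) := by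
  have h : (⟨1, 0, 0, 0, 0⟩ : W5 K) ∈ IS K := by
    rw [mem_IS]
    refine ⟨by simp [W5.Iso], ?_⟩
    intro h
    have := congrArg W5.x0 h
    exact one_ne_zero this
  exact_mod_cast Finset.card_pos.2 ⟨_, h⟩

omit [Fintype K] in
private theorem bcon_U_hm : Hm (U : W5 K → ℝ) := by
  refine ⟨by simp [U], ?_⟩
  intro r w hr
  have h : w.sm r = 0 ↔ w = 0 := by
    constructor
    · intro h
      have h0 := congrArg W5.x0 h
      have h1 := congrArg W5.x1 h
      have h2 := congrArg W5.x2 h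
      have h3 := congrArg W5.x3 h
      have h4 := congrArg W5.x4 h
      simp only [W5.sm] at h0 h1 h2 h3 h4
      have z : ∀ x : K, r * x = 0 → x = 0 := fun x hx => (mul_eq_zero.1 hx).resolve_left hr
      exact W5.ext (z _ h0) (z _ h1) (z _ h2) (z _ h3) (z _ h4)
    · rintro rfl
      exact W5.ext (mul_zero _) (mul_zero _) (mul_zero _) (mul_zero _) (mul_zero _)
  simp [U, h]

private theorem bcon_U_IS {w : W5 K} (hw : w ∈ IS K) : (U w : ℝ) = 1 := by
  simp [U, (mem_IS.1 hw).2]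

omit [Fintype K] in
private theorem bcon_hm_sm {f : W5 K → ℝ} (hf : Hm f) (r : ℝ) : Hm (fun w => r * f w) :=
  ⟨by simp [hf.1], fun s w hs => by simp [hf.2 s w hs]⟩

private theorem bcon_N2_nn (f : W5 K → ℝ) : 0 ≤ N2 f := Finset.sum_nonneg fun _ _ => sq_nonneg _

private theorem bcon_N2_sm (r : ℝ) (f : W5 K → ℝ) : N2 (fun w => r * f w) = r ^ 2 * N2 f := by
  simp [N2, mul_pow, Finset.mul_sum]

private theorem bcon_N2_add (f g : W5 K → ℝ) : N2 (fun w => f w + g w) ≤ 2 * N2 f + 2 * N2 g := by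
  unfold N2
  rw [Finset.mul_sum, Finset.mul_sum, ← Finset.sum_add_distrib]
  exact Finset.sum_le_sum fun w _ => by nlinarith [sq_nonneg (f w - g w)]

private theorem bcon_mean_add (f g : W5 K → ℝ) : mean (fun w => f w + g w) = mean f + mean g := by
  simp [mean, Finset.sum_add_distrib, add_div]

private theorem bcon_mean_sm (r : ℝ) (f : W5 K → ℝ) : mean (fun w => r * f w) = r * mean f := by
  simp [mean, ← Finset.mul_sum, mul_div_assoc]

private theorem bcon_dv_add (f g : W5 K → ℝ) : dv (fun w => f w + g w) = fun w => dv f w + dv g w := by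
  funext w
  simp only [dv, bcon_mean_add]
  ring

private theorem bcon_dv_sm (r : ℝ) (f : W5 K → ℝ) : dv (fun w => r * f w) = fun w => r * dv f w := by
  funext w
  simp only [dv, bcon_mean_sm]
  ring

private theorem bcon_dv_eq {f : W5 K → ℝ} (h : mean f = 0) : dv f = f := by
  funext w
  simp [dv, h]

private theorem bcon_mean0 {f : W5 K → ℝ} (h : ∑ w ∈ IS K, f w = 0) : mean f = 0 := by
  simp [mean, h]

private theorem bcon_sum0 {f : W5 K → ℝ} (h : mean f = 0) : ∑ w ∈ IS K, f w = 0 := by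
  unfold mean at h
  rcases div_eq_zero_iff.1 h with h | h
  · exact h
  · exact absurd h bcon_card.ne'

private theorem bcon_N2_congr {f g : W5 K → ℝ} (h : ∀ w ∈ IS K, f w = g w) : N2 f = N2 g :=
  Finset.sum_congr rfl fun w hw => by rw [h w hw]

private theorem bcon_ip_congr {f g h : W5 K → ℝ} (hh : ∀ w ∈ IS K, g w = h w) : ip f g = ip f h :=
  Finset.sum_congr rfl fun w hw => by rw [hh w hw]

private theorem bcon_ip_congl {f g h : W5 K → ℝ} (hh : ∀ w ∈ IS K, f w = h w) : ip f g = ip h g :=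
  Finset.sum_congr rfl fun w hw => by rw [hh w hw]

private theorem bcon_ip_U (f : W5 K → ℝ) : ip f U = ∑ w ∈ IS K, f w :=
  Finset.sum_congr rfl fun w hw => by rw [bcon_U_IS hw, mul_one]

private theorem bcon_ip_smr (r : ℝ) (f g : W5 K → ℝ) : ip f (fun w => r * g w) = r * ip f g := by
  simp only [ip, Finset.mul_sum]
  exact Finset.sum_congr rfl fun w _ => by ring

private theorem bcon_ev_sm (e : Ex) (r : ℝ) (f : W5 K → ℝ) : e.ev (fun v => r * f v) = fun w => r * e.ev f w := by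
  funext w
  exact ev_smul e r f w

end bcon_aux

/-- The first expression. -/
private noncomputable def bconE1 (e : Ex) (u : Polynomial ℤ) : Ex := .add e (.sm (Polynomial.X * (1 - u)) .one)

/-- The second expression. -/
private noncomputable def bconE2 (e : Ex) : Ex :=
  .add (.add (.sm Polynomial.X e) (.sm Polynomial.X e.rev)) (.sm (-1) (.mul e.rev e))

private theorem bcon_e1_ev (e : Ex) (u : Polynomial ℤ) {K : Type} [Field K] [Fintype K] (f : W5 K → ℝ) (w : W5 K) :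
    (bconE1 e u).ev f w = e.ev f w + (qr K)⁻¹ * (1 - tv K u) * f w := by
  simp only [bconE1, Ex.ev, tv, Polynomial.eval₂_mul, Polynomial.eval₂_sub, Polynomial.eval₂_X, Polynomial.eval₂_one]

private theorem bcon_e2_ev (e : Ex) {K : Type} [Field K] [Fintype K] (f : W5 K → ℝ) (w : W5 K) :
    (bconE2 e).ev f w = (qr K)⁻¹ * e.ev f w + (qr K)⁻¹ * e.rev.ev f w - e.rev.ev (e.ev f) w := by
  simp only [bconE2, Ex.ev, tv, Polynomial.eval₂_X, Polynomial.eval₂_one, Polynomial.eval₂_neg]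
  ring

private theorem bcon_e2_rev (e : Ex) {K : Type} [Field K] [Fintype K] (f : W5 K → ℝ) (w : W5 K) :
    (bconE2 e).rev.ev f w = (bconE2 e).ev f w := by
  rw [bcon_e2_ev]
  simp only [bconE2, Ex.rev, rev_rev, Ex.ev, tv, Polynomial.eval₂_X, Polynomial.eval₂_one, Polynomial.eval₂_neg]
  ring

private theorem bcon_con1 {e : Ex} {u : Polynomial ℤ} (he : Cls 3 e) (hu : u.coeff 0 = 1) : Con 3 (bconE1 e u) := by
  obtain ⟨C1, hC1, h1⟩ := con_of_cls he (by norm_num)
  obtain ⟨C2, hC2, h2⟩ := tv_sub_one hu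
  refine ⟨2 * C1 + 2 * C2 ^ 2, by positivity, ?_⟩
  intro K _ _ f hf h0
  have hq := bcon_q1 (K := K)
  have hq0 := bcon_q0 (K := K)
  have e1 : (bconE1 e u).ev f = fun w => e.ev f w + ((qr K)⁻¹ * (1 - tv K u)) * f w := by
    funext w
    exact bcon_e1_ev e u f w
  rw [e1, bcon_dv_add, bcon_dv_sm]
  have h3 := h1 K f hf h0
  have h4 := h2 K
  have h5 : (1 - tv K u) ^ 2 ≤ (C2 / qr K) ^ 2 := by
    rw [← sq_abs, abs_sub_comm]
    exact pow_le_pow_left₀ (abs_nonneg _) h4 2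
  have h6 : N2 (fun w => ((qr K)⁻¹ * (1 - tv K u)) * dv f w) ≤ C2 ^ 2 / qr K ^ 3 * N2 f := by
    rw [bcon_N2_sm, bcon_dv_eq (bcon_mean0 h0)]
    refine mul_le_mul_of_nonneg_right ?_ (bcon_N2_nn f)
    rw [mul_pow]
    calc (qr K)⁻¹ ^ 2 * (1 - tv K u) ^ 2 ≤ (qr K)⁻¹ ^ 2 * (C2 / qr K) ^ 2 :=
          mul_le_mul_of_nonneg_left h5 (by positivity)
      _ = C2 ^ 2 / qr K ^ 4 := by
          field_simp
      _ ≤ C2 ^ 2 / qr K ^ 3 := by
          refine div_le_div_of_nonneg_left (by positivity) (by positivity) ?_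
          exact pow_le_pow_right₀ hq (by norm_num)
  calc N2 (fun w => dv (e.ev f) w + ((qr K)⁻¹ * (1 - tv K u)) * dv f w)
      ≤ 2 * N2 (fun w => dv (e.ev f) w) + 2 * N2 (fun w => ((qr K)⁻¹ * (1 - tv K u)) * dv f w) := bcon_N2_add _ _
    _ ≤ 2 * (C1 / qr K ^ 3 * N2 f) + 2 * (C2 ^ 2 / qr K ^ 3 * N2 f) := by
        have : N2 (fun w => dv (e.ev f) w) ≤ C1 / qr K ^ 3 * N2 f := h3
        linarith
    _ = (2 * C1 + 2 * C2 ^ 2) / qr K ^ 3 * N2 f := by ring

/-- A contraction which fixes `U` and the mean value, from an expression `e` of class `3` with `e U = t u U`,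
`u = 1 + t ...`: put `B1 = q e + (1 - u) = q e1` with `e1 = e + t (1 - u)`, `B = B1 + B1' - B1' B1`, `B1'` the reversed one;
`B = q ^ 2 e2` with `e2 = t e1 + t e1' - e1' e1`. -/
theorem exists_B {e : Ex} {u : Polynomial ℤ} (he : Cls 3 e) (hu : u.coeff 0 = 1)
    (h : ∀ (K : Type) [Field K] [Fintype K] (w : W5 K), w ∈ IS K → e.ev U w = tv K (Polynomial.X * u) * U w) :
    ∃ e2 : Ex, (∀ (K : Type) [Field K] [Fintype K], (∀ w ∈ IS K, qr K ^ 2 * e2.ev U w = U w) ∧
        ∀ f : W5 K → ℝ, Hm f → mean (fun w => qr K ^ 2 * e2.ev f w) = mean f) ∧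
      ∃ C : ℝ, 0 < C ∧ ∀ (K : Type) [Field K] [Fintype K] (f : W5 K → ℝ), Hm f → ∑ w ∈ IS K, f w = 0 →
        N2 (fun w => qr K ^ 2 * e2.ev f w) ≤ C / qr K * N2 f := by
  have hc1 : Con 3 (bconE1 e u) := bcon_con1 he hu
  have hc2 : Con 3 (bconE1 e u).rev := hc1.rev
  have hc3 : Con 6 (.mul (bconE1 e u).rev (bconE1 e u)) := hc2.mul hc1 (by norm_num)
  generalize hE : bconE1 e u = E at hc1 hc2 hc3
  -- `E U = t U`
  have hEU : ∀ (K : Type) [Field K] [Fintype K] (w : W5 K), w ∈ IS K → E.ev U w = (qr K)⁻¹ * U w := by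
    intro K _ _ w hw
    rw [← hE, bcon_e1_ev, h K w hw]
    simp only [tv, Polynomial.eval₂_mul, Polynomial.eval₂_X]
    ring
  have hU : ∀ (K : Type) [Field K] [Fintype K], ∀ w ∈ IS K, qr K ^ 2 * (bconE2 E).ev U w = U w := by
    intro K _ _ w hw
    have hq0 := bcon_q0 (K := K)
    rw [bcon_e2_ev, hEU K w hw]
    have h3 : E.rev.ev (E.ev U) w = E.rev.ev (fun v => (qr K)⁻¹ * U v) w := by
      refine (ev_congr E.rev (f := E.ev U) (g := fun v => (qr K)⁻¹ * U v) ?_ ?_).2 w hw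
      · rw [(ev_hm E bcon_U_hm).1]
        simp [U]
      · exact fun v hv => hEU K v hv
    rw [h3, ev_smul]
    field_simp
    ring
  have hmean : ∀ (K : Type) [Field K] [Fintype K] (f : W5 K → ℝ), Hm f →
      mean (fun w => qr K ^ 2 * (bconE2 E).ev f w) = mean f := by
    intro K _ _ f hf
    have hq0 := bcon_q0 (K := K)
    obtain ⟨g, hg, hgf⟩ := exists_Dp hf
    have e1 : ip ((bconE2 E).ev f) U = ip ((bconE2 E).ev (Dp g)) U := by
      refine bcon_ip_congl fun w hw => ?_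
      refine (ev_congr (bconE2 E) (f := f) (g := Dp g) ?_ fun v hv => (hgf v hv).symm).2 w hw
      rw [hf.1, (Dp_hm g).1]
    have e2 : ip ((bconE2 E).ev (Dp g)) U = ip g ((bconE2 E).rev.ev (Dp U)) := ev_adj (bconE2 E) hg bcon_U_hm
    have e3 : ip g ((bconE2 E).rev.ev (Dp U)) = ip g (fun w => (qr K ^ 3 * (qr K - 1)) * ((qr K ^ 2)⁻¹ * U w)) := by
      refine bcon_ip_congr fun w hw => ?_
      have h3 : (bconE2 E).rev.ev (Dp U) w = (bconE2 E).rev.ev (fun v => (qr K ^ 3 * (qr K - 1)) * U v) w := by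
        refine (ev_congr (bconE2 E).rev (f := Dp U) (g := fun v => (qr K ^ 3 * (qr K - 1)) * U v) ?_ ?_).2 w hw
        · rw [(Dp_hm U).1]
          simp [U]
        · intro v hv
          rw [Dp_U hv, bcon_U_IS hv, mul_one]
      rw [h3, ev_smul, bcon_e2_rev, ← hU K w hw]
      field_simp
    have e4 : ip g (fun w => (qr K ^ 3 * (qr K - 1)) * ((qr K ^ 2)⁻¹ * U w)) =
        (qr K ^ 2)⁻¹ * ip g (Dp U) := by
      rw [bcon_ip_smr, bcon_ip_smr]
      have : ip g (Dp U) = ip g (fun w => (qr K ^ 3 * (qr K - 1)) * U w) := by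
        refine bcon_ip_congr fun w hw => ?_
        rw [Dp_U hw, bcon_U_IS hw, mul_one]
      rw [this, bcon_ip_smr]
      ring
    have e5 : ip g (Dp U) = ip f U := by
      rw [← Dp_symm]
      exact bcon_ip_congl hgf
    have e6 : ∑ w ∈ IS K, (bconE2 E).ev f w = (qr K ^ 2)⁻¹ * ∑ w ∈ IS K, f w := by
      rw [← bcon_ip_U, e1, e2, e3, e4, e5, bcon_ip_U]
    rw [bcon_mean_sm]
    unfold mean
    rw [e6]
    field_simp
  refine ⟨bconE2 E, fun K _ _ => ⟨hU K, hmean K⟩, ?_⟩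
  obtain ⟨C1, hC1, h1⟩ := hc1
  obtain ⟨C2, hC2, h2⟩ := hc2
  obtain ⟨C3, hC3, h3⟩ := hc3
  refine ⟨4 * C1 + 4 * C2 + 2 * C3, by positivity, ?_⟩
  intro K _ _ f hf h0
  have hq := bcon_q1 (K := K)
  have hq0 := bcon_q0 (K := K)
  have k1 := h1 K f hf h0
  have k2 := h2 K f hf h0
  have k3 := h3 K f hf h0
  have hm := hmean K f hf
  rw [bcon_mean0 h0] at hm
  have e1 : (fun w => qr K ^ 2 * (bconE2 E).ev f w) = fun w => (qr K * dv (E.ev f) w + qr K * dv (E.rev.ev f) w) +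
      (-(qr K ^ 2)) * dv ((Ex.mul E.rev E).ev f) w := by
    rw [← bcon_dv_eq hm]
    have : (fun w => qr K ^ 2 * (bconE2 E).ev f w) = fun w => (qr K * E.ev f w + qr K * E.rev.ev f w) +
        (-(qr K ^ 2)) * (Ex.mul E.rev E).ev f w := by
      funext w
      rw [bcon_e2_ev]
      simp only [Ex.ev]
      field_simp
      ring
    rw [this, bcon_dv_add, bcon_dv_add, bcon_dv_sm, bcon_dv_sm, bcon_dv_sm]
  rw [e1]
  have s1 : N2 (fun w => (qr K * dv (E.ev f) w + qr K * dv (E.rev.ev f) w) +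
      (-(qr K ^ 2)) * dv ((Ex.mul E.rev E).ev f) w) ≤
      2 * (2 * (qr K ^ 2 * N2 (dv (E.ev f))) + 2 * (qr K ^ 2 * N2 (dv (E.rev.ev f)))) +
        2 * (qr K ^ 4 * N2 (dv ((Ex.mul E.rev E).ev f))) := by
    have a1 := bcon_N2_add (fun w => qr K * dv (E.ev f) w + qr K * dv (E.rev.ev f) w)
      (fun w => (-(qr K ^ 2)) * dv ((Ex.mul E.rev E).ev f) w)
    have a2 := bcon_N2_add (fun w => qr K * dv (E.ev f) w) (fun w => qr K * dv (E.rev.ev f) w)
    rw [bcon_N2_sm, bcon_N2_sm] at a2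
    rw [bcon_N2_sm] at a1
    have a3 : (-(qr K ^ 2)) ^ 2 = qr K ^ 4 := by ring
    rw [a3] at a1
    linarith
  have s2 : qr K ^ 2 * N2 (dv (E.ev f)) ≤ C1 / qr K * N2 f := by
    calc qr K ^ 2 * N2 (dv (E.ev f)) ≤ qr K ^ 2 * (C1 / qr K ^ 3 * N2 f) :=
          mul_le_mul_of_nonneg_left k1 (by positivity)
      _ = C1 / qr K * N2 f := by field_simp
  have s3 : qr K ^ 2 * N2 (dv (E.rev.ev f)) ≤ C2 / qr K * N2 f := by
    calc qr K ^ 2 * N2 (dv (E.rev.ev f)) ≤ qr K ^ 2 * (C2 / qr K ^ 3 * N2 f) :=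
          mul_le_mul_of_nonneg_left k2 (by positivity)
      _ = C2 / qr K * N2 f := by field_simp
  have s4 : qr K ^ 4 * N2 (dv ((Ex.mul E.rev E).ev f)) ≤ C3 / qr K * N2 f := by
    calc qr K ^ 4 * N2 (dv ((Ex.mul E.rev E).ev f)) ≤ qr K ^ 4 * (C3 / qr K ^ 6 * N2 f) :=
          mul_le_mul_of_nonneg_left k3 (by positivity)
      _ = C3 / qr K ^ 2 * N2 f := by field_simp
      _ ≤ C3 / qr K * N2 f := by
          refine mul_le_mul_of_nonneg_right ?_ (bcon_N2_nn f)
          refine div_le_div_of_nonneg_left hC3.le (by positivity) ?_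
          nlinarith
  calc _ ≤ _ := s1
    _ ≤ 2 * (2 * (C1 / qr K * N2 f) + 2 * (C2 / qr K * N2 f)) + 2 * (C3 / qr K * N2 f) := by linarith
    _ = (4 * C1 + 4 * C2 + 2 * C3) / qr K * N2 f := by ring

/-- Powers of an expression. -/
private def bconPw (e : Ex) : ℕ → Ex
  | 0 => .one
  | n + 1 => .mul e (bconPw e n)

/-- The iterates. -/
private noncomputable def bconIt (e : Ex) {K : Type} [Field K] [Fintype K] (f : W5 K → ℝ) : ℕ → W5 K → ℝ
  | 0 => f
  | n + 1 => fun w => qr K ^ 2 * e.ev (bconIt e f n) w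

private theorem bcon_pw (e : Ex) {K : Type} [Field K] [Fintype K] (f : W5 K → ℝ) (n : ℕ) :
    ∀ w, qr K ^ (2 * n) * (bconPw e n).ev f w = bconIt e f n w := by
  have hq0 := bcon_q0 (K := K)
  induction n with
  | zero => intro w; simp [bconPw, bconIt, Ex.ev]
  | succ n ih =>
    intro w
    have h1 : (bconPw e n).ev f = fun v => (qr K ^ (2 * n))⁻¹ * bconIt e f n v := by
      funext v
      rw [← ih v]
      field_simp
    simp only [bconPw, bconIt, Ex.ev]
    rw [h1, ev_smul]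
    field_simp
    ring

private theorem bcon_it_hm (e : Ex) {K : Type} [Field K] [Fintype K] {f : W5 K → ℝ} (hf : Hm f) (n : ℕ) :
    Hm (bconIt e f n) := by
  induction n with
  | zero => exact hf
  | succ n ih => exact bcon_hm_sm (ev_hm e ih) _

/-- Iterates: for every `D` there is an expression which approximates the mean value. -/
theorem exists_mean {e : Ex} {u : Polynomial ℤ} (he : Cls 3 e) (hu : u.coeff 0 = 1)
    (h : ∀ (K : Type) [Field K] [Fintype K] (w : W5 K), w ∈ IS K → e.ev U w = tv K (Polynomial.X * u) * U w) (D : ℕ) :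
    ∃ (e' : Ex) (N : ℕ) (C : ℝ), 0 < C ∧ ∀ (K : Type) [Field K] [Fintype K] (f : W5 K → ℝ) (M : ℝ), Hm f →
      (∀ w, |f w| ≤ M) → ∀ w ∈ IS K, |qr K ^ N * e'.ev f w - mean f * U w| * qr K ^ D ≤ C * M := by
  obtain ⟨e2, hB, C, hC, hN⟩ := exists_B he hu h
  refine ⟨bconPw e2 (4 + 2 * D), 2 * (4 + 2 * D), (C + 1) ^ (4 + 2 * D), by positivity, ?_⟩
  intro K _ _ f M hf hM w hw
  have hq := bcon_q1 (K := K)
  have hq0 := bcon_q0 (K := K)
  have hM0 : 0 ≤ M := le_trans (abs_nonneg _) (hM 0)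
  set n := 4 + 2 * D with hn
  -- the iterates of `U`
  have itU : ∀ m, ∀ v ∈ IS K, bconIt e2 (U : W5 K → ℝ) m v = U v := by
    intro m
    induction m with
    | zero => intro v _; rfl
    | succ m ih =>
      intro v hv
      simp only [bconIt]
      have h3 : e2.ev (bconIt e2 (U : W5 K → ℝ) m) v = e2.ev U v := by
        refine (ev_congr e2 ?_ ih).2 v hv
        rw [(bcon_it_hm e2 bcon_U_hm m).1, bcon_U_hm.1]
      rw [h3]
      exact (hB K).1 v hv
  -- the iterates of a function of mean value zero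
  have itS : ∀ g : W5 K → ℝ, Hm g → ∑ v ∈ IS K, g v = 0 → ∀ m, ∑ v ∈ IS K, bconIt e2 g m v = 0 ∧
      N2 (bconIt e2 g m) ≤ (C / qr K) ^ m * N2 g := by
    intro g hg hg0 m
    induction m with
    | zero => exact ⟨hg0, by simp [bconIt]⟩
    | succ m ih =>
      have k1 : mean (bconIt e2 g (m + 1)) = 0 := by
        have := (hB K).2 (bconIt e2 g m) (bcon_it_hm e2 hg m)
        rw [bcon_mean0 ih.1] at this
        exact this
      refine ⟨bcon_sum0 k1, ?_⟩
      have k2 := hN K (bconIt e2 g m) (bcon_it_hm e2 hg m) ih.1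
      calc N2 (bconIt e2 g (m + 1)) ≤ C / qr K * N2 (bconIt e2 g m) := k2
        _ ≤ C / qr K * ((C / qr K) ^ m * N2 g) := mul_le_mul_of_nonneg_left ih.2 (by positivity)
        _ = (C / qr K) ^ (m + 1) * N2 g := by ring
  -- decomposition
  have hdec : f = fun v => mean f * U v + dv f v := by
    funext v
    simp only [dv]
    ring
  have key : qr K ^ (2 * n) * (bconPw e2 n).ev f w - mean f * U w = bconIt e2 (dv f) n w := by
    have h1 : (bconPw e2 n).ev f w = mean f * (bconPw e2 n).ev U w + (bconPw e2 n).ev (dv f) w := by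
      conv_lhs => rw [hdec]
      rw [ev_add, ev_smul]
    have h2 := bcon_pw e2 (U : W5 K → ℝ) n w
    have h3 := bcon_pw e2 (dv f) n w
    rw [itU n w hw] at h2
    rw [h1, ← h3, ← h2]
    ring
  rw [key]
  have hb := (itS (dv f) (dv_hm hf) (dv_sum f) n).2
  have hb2 : (bconIt e2 (dv f) n w) ^ 2 ≤ N2 (bconIt e2 (dv f) n) := by
    unfold N2
    exact Finset.single_le_sum (f := fun v => bconIt e2 (dv f) n v ^ 2) (fun _ _ => sq_nonneg _) hw
  have hb3 : N2 f ≤ M ^ 2 * qr K ^ 4 := by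
    calc N2 f ≤ ∑ v ∈ IS K, M ^ 2 := by
          refine Finset.sum_le_sum fun v _ => ?_
          rw [← sq_abs]
          exact pow_le_pow_left₀ (abs_nonneg _) (hM v) 2
      _ = (IS K).card * M ^ 2 := by simp
      _ ≤ M ^ 2 * qr K ^ 4 := by
          rw [card_IS]
          nlinarith [sq_nonneg M]
  have hb4 : (bconIt e2 (dv f) n w) ^ 2 ≤ (C / qr K) ^ n * (M ^ 2 * qr K ^ 4) :=
    le_trans hb2 (le_trans hb (mul_le_mul_of_nonneg_left (le_trans (N2_dv_le f) hb3) (by positivity)))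
  have hb5 : (|bconIt e2 (dv f) n w| * qr K ^ D) ^ 2 ≤ ((C + 1) ^ n * M) ^ 2 := by
    rw [mul_pow, sq_abs]
    calc bconIt e2 (dv f) n w ^ 2 * (qr K ^ D) ^ 2
        ≤ (C / qr K) ^ n * (M ^ 2 * qr K ^ 4) * (qr K ^ D) ^ 2 := mul_le_mul_of_nonneg_right hb4 (by positivity)
      _ = C ^ n * M ^ 2 := by
          rw [hn, div_pow]
          field_simp
          ring
      _ ≤ ((C + 1) ^ n * M) ^ 2 := by
          rw [mul_pow]
          refine mul_le_mul_of_nonneg_right ?_ (sq_nonneg M)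
          have c1 : C ^ n ≤ (C + 1) ^ n := pow_le_pow_left₀ hC.le (by linarith) n
          have c2 : 1 ≤ (C + 1) ^ n := one_le_pow₀ (by linarith)
          nlinarith
  exact le_of_sq_le_sq hb5 (by positivity)

end Pool.Agent.Pf4
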