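import Pool.Agent.Pf4.BPair

/-!
# Expressions: linearity, reversal, bounds
-/

set_option autoImplicit false

open scoped BigOperators Classical

namespace Pool.Agent.Pf4

section one

variable {K : Type} [Field K] [Fintype K]

theorem ev_add (e : Ex) (f g : W5 K → ℝ) (w : W5 K) : e.ev (fun v => f v + g v) w = e.ev f w + e.ev g w := by
  induction e generalizing f g w with
  | one => rfl
  | lt x =>
    simp only [Ex.ev, Lt.op]
    rw [Finset.sum_add_distrib, add_div]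
  | mul e1 e2 h1 h2 =>
    simp only [Ex.ev]
    have : e2.ev (fun v => f v + g v) = fun v => e2.ev f v + e2.ev g v := funext (fun v => h2 f g v)
    rw [this]
    exact h1 _ _ w
  | add e1 e2 h1 h2 =>
    simp only [Ex.ev]
    rw [h1, h2]; ring
  | sm p e h =>
    simp only [Ex.ev]
    rw [h]; ring

theorem ev_smul (e : Ex) (r : ℝ) (f : W5 K → ℝ) (w : W5 K) : e.ev (fun v => r * f v) w = r * e.ev f w := by
  induction e generalizing f w with
  | one => rfl
  | lt x =>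
    simp only [Ex.ev, Lt.op]
    rw [← Finset.mul_sum, mul_div_assoc]
  | mul e1 e2 h1 h2 =>
    simp only [Ex.ev]
    have : e2.ev (fun v => r * f v) = fun v => r * e2.ev f v := funext (fun v => h2 f v)
    rw [this]
    exact h1 _ w
  | add e1 e2 h1 h2 =>
    simp only [Ex.ev]
    rw [h1, h2]; ring
  | sm p e h =>
    simp only [Ex.ev]
    rw [h]; ring

theorem ev_hm (e : Ex) {f : W5 K → ℝ} (hf : Hm f) : Hm (e.ev f) := by
  induction e generalizing f with
  | one => exact hf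
  | lt x => exact op_hm x hf
  | mul e1 e2 h1 h2 => exact h1 (h2 hf)
  | add e1 e2 h1 h2 =>
    refine ⟨?_, ?_⟩
    · simp only [Ex.ev]
      rw [(h1 hf).1, (h2 hf).1]; ring
    · intro r w hr
      simp only [Ex.ev]
      rw [(h1 hf).2 r w hr, (h2 hf).2 r w hr]
  | sm p e h =>
    refine ⟨?_, ?_⟩
    · simp only [Ex.ev]
      rw [(h hf).1]; ring
    · intro r w hr
      simp only [Ex.ev]
      rw [(h hf).2 r w hr]

private theorem b_ex1_op_zero (x : Lt) (f : W5 K → ℝ) : x.op f 0 = f 0 := by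
  simp only [Lt.op, X_zero]
  rw [Finset.sum_const, Finset.card_univ, Fintype.card_fun, Fintype.card_fin, nsmul_eq_mul]
  unfold qr
  push_cast
  have : (Fintype.card K : ℝ) ^ x.n ≠ 0 := by
    have : (Fintype.card K : ℝ) ≠ 0 := by exact_mod_cast Fintype.card_ne_zero
    positivity
  field_simp

private theorem b_ex1_card_pos : 0 < ((IS K).card : ℝ) := by
  have h : (⟨1, 0, 0, 0, 0⟩ : W5 K) ∈ IS K := by
    rw [mem_IS]
    refine ⟨by simp [W5.Iso], ?_⟩
    intro h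
    have := congrArg W5.x0 h
    exact one_ne_zero this
  have := Finset.card_pos.2 ⟨_, h⟩
  exact_mod_cast this

private theorem b_ex1_U {w : W5 K} (hw : w ∈ IS K) : (U w : ℝ) = 1 := by
  unfold U
  rw [if_neg (mem_IS.1 hw).2]

omit [Fintype K] in
private theorem b_ex1_U_hm : Hm (U : W5 K → ℝ) := by
  refine ⟨by simp [U], ?_⟩
  intro r w hr
  unfold U
  have : w.sm r = 0 ↔ w = 0 := by
    constructor
    · intro h
      have h0 := congrArg W5.x0 h
      have h1 := congrArg W5.x1 h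
      have h2 := congrArg W5.x2 h
      have h3 := congrArg W5.x3 h
      have h4 := congrArg W5.x4 h
      have e0 : r * w.x0 = 0 := h0
      have e1 : r * w.x1 = 0 := h1
      have e2 : r * w.x2 = 0 := h2
      have e3 : r * w.x3 = 0 := h3
      have e4 : r * w.x4 = 0 := h4
      apply W5.ext
      · exact (mul_eq_zero.1 e0).resolve_left hr
      · exact (mul_eq_zero.1 e1).resolve_left hr
      · exact (mul_eq_zero.1 e2).resolve_left hr
      · exact (mul_eq_zero.1 e3).resolve_left hr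
      · exact (mul_eq_zero.1 e4).resolve_left hr
    · intro h
      subst h
      apply W5.ext <;> exact mul_zero r
  simp only [this]

theorem ev_congr (e : Ex) {f g : W5 K → ℝ} (h0 : f 0 = g 0) (h : ∀ w ∈ IS K, f w = g w) :
    e.ev f 0 = e.ev g 0 ∧ ∀ w ∈ IS K, e.ev f w = e.ev g w := by
  induction e generalizing f g with
  | one => exact ⟨h0, h⟩
  | lt x =>
    refine ⟨?_, fun w hw => op_congr x h0 h hw⟩
    simp only [Ex.ev]
    rw [b_ex1_op_zero, b_ex1_op_zero, h0]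
  | mul e1 e2 h1 h2 => exact h1 (h2 h0 h).1 (h2 h0 h).2
  | add e1 e2 h1 h2 =>
    refine ⟨?_, fun w hw => ?_⟩
    · simp only [Ex.ev]
      rw [(h1 h0 h).1, (h2 h0 h).1]
    · simp only [Ex.ev]
      rw [(h1 h0 h).2 w hw, (h2 h0 h).2 w hw]
  | sm p e he =>
    refine ⟨?_, fun w hw => ?_⟩
    · simp only [Ex.ev]
      rw [(he h0 h).1]
    · simp only [Ex.ev]
      rw [(he h0 h).2 w hw]

private theorem b_ex1_ip_congr {f f' g g' : W5 K → ℝ} (h : ∀ w ∈ IS K, f w = f' w) (h' : ∀ w ∈ IS K, g w = g' w) :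
    ip f g = ip f' g' := by
  unfold ip
  apply Finset.sum_congr rfl
  intro w hw
  rw [h w hw, h' w hw]

/-- The reversed expression is the adjoint with respect to `D` (use `exists_Dp` for products). -/
theorem ev_adj (e : Ex) {f g : W5 K → ℝ} (hf : Hm f) (hg : Hm g) : ip (e.ev (Dp f)) g = ip f (e.rev.ev (Dp g)) := by
  induction e generalizing f g with
  | one => exact Dp_symm f g
  | lt x => exact op_adj x f g
  | mul e1 e2 h1 h2 =>
    obtain ⟨k, hk, hk1⟩ := exists_Dp (ev_hm e2 (Dp_hm f))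
    obtain ⟨k', hk', hk1'⟩ := exists_Dp (ev_hm e1.rev (Dp_hm g))
    have a1 : ip (e1.ev (e2.ev (Dp f))) g = ip (e1.ev (Dp k)) g :=
      b_ex1_ip_congr (ev_congr e1 (by rw [(ev_hm e2 (Dp_hm f)).1, (Dp_hm k).1]) (fun w hw => (hk1 w hw).symm)).2
        (fun w _ => rfl)
    have a2 : ip k (e1.rev.ev (Dp g)) = ip k (Dp k') :=
      b_ex1_ip_congr (fun w _ => rfl) (fun w hw => (hk1' w hw).symm)
    have a3 : ip (Dp k) k' = ip (e2.ev (Dp f)) k' := b_ex1_ip_congr hk1 (fun w _ => rfl)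
    have a4 : ip f (e2.rev.ev (Dp k')) = ip f (e2.rev.ev (e1.rev.ev (Dp g))) :=
      b_ex1_ip_congr (fun w _ => rfl)
        (ev_congr e2.rev (by rw [(ev_hm e1.rev (Dp_hm g)).1, (Dp_hm k').1]) (fun w hw => hk1' w hw)).2
    show ip (e1.ev (e2.ev (Dp f))) g = ip f (e2.rev.ev (e1.rev.ev (Dp g)))
    rw [a1, h1 hk hg, a2, ← Dp_symm, a3, h2 hf hk', a4]
  | add e1 e2 h1 h2 =>
    have a1 : ip ((Ex.add e1 e2).ev (Dp f)) g = ip (e1.ev (Dp f)) g + ip (e2.ev (Dp f)) g := by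
      unfold ip
      rw [← Finset.sum_add_distrib]
      apply Finset.sum_congr rfl
      intro w _
      simp only [Ex.ev]; ring
    have a2 : ip f ((Ex.add e1 e2).rev.ev (Dp g)) = ip f (e1.rev.ev (Dp g)) + ip f (e2.rev.ev (Dp g)) := by
      unfold ip
      rw [← Finset.sum_add_distrib]
      apply Finset.sum_congr rfl
      intro w _
      simp only [Ex.rev, Ex.ev]; ring
    rw [a1, a2, h1 hf hg, h2 hf hg]
  | sm p e h =>
    have a1 : ip ((Ex.sm p e).ev (Dp f)) g = tv K p * ip (e.ev (Dp f)) g := by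
      unfold ip
      rw [Finset.mul_sum]
      apply Finset.sum_congr rfl
      intro w _
      simp only [Ex.ev]; ring
    have a2 : ip f ((Ex.sm p e).rev.ev (Dp g)) = tv K p * ip f (e.rev.ev (Dp g)) := by
      unfold ip
      rw [Finset.mul_sum]
      apply Finset.sum_congr rfl
      intro w _
      simp only [Ex.rev, Ex.ev]; ring
    rw [a1, a2, h hf hg]

/-- The functions of mean value `0`: the deviation. -/
theorem dv_sum (f : W5 K → ℝ) : ∑ w ∈ IS K, dv f w = 0 := by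
  have h := b_ex1_card_pos (K := K)
  have h1 : ∑ w ∈ IS K, dv f w = ∑ w ∈ IS K, (f w - mean f) := by
    apply Finset.sum_congr rfl
    intro w hw
    unfold dv
    rw [b_ex1_U hw, mul_one]
  rw [h1, Finset.sum_sub_distrib, Finset.sum_const, nsmul_eq_mul]
  unfold mean
  field_simp
  ring

theorem dv_hm {f : W5 K → ℝ} (hf : Hm f) : Hm (dv f) := by
  refine ⟨?_, ?_⟩
  · unfold dv
    rw [hf.1, b_ex1_U_hm.1]; ring
  · intro r w hr
    unfold dv
    rw [hf.2 r w hr, b_ex1_U_hm.2 r w hr]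

private theorem b_ex1_N2_eq (f : W5 K → ℝ) : N2 f = N2 (dv f) + mean f ^ 2 * (IS K).card := by
  have h1 : N2 f = ∑ w ∈ IS K, (dv f w ^ 2 + (2 * mean f) * dv f w + mean f ^ 2) := by
    unfold N2
    apply Finset.sum_congr rfl
    intro w hw
    unfold dv
    rw [b_ex1_U hw]; ring
  rw [h1, Finset.sum_add_distrib, Finset.sum_add_distrib, ← Finset.mul_sum, dv_sum, Finset.sum_const, nsmul_eq_mul]
  unfold N2
  ring

theorem N2_dv_le (f : W5 K → ℝ) : N2 (dv f) ≤ N2 f := by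
  rw [b_ex1_N2_eq f]
  have := sq_nonneg (mean f)
  have h2 : (0 : ℝ) ≤ ((IS K).card : ℝ) := by positivity
  nlinarith [mul_nonneg this h2]

theorem N2_eq (f : W5 K → ℝ) : N2 f = N2 (dv f) + mean f ^ 2 * (IS K).card := by
  exact b_ex1_N2_eq f

end one

theorem rev_rev (e : Ex) : e.rev.rev = e := by
  induction e with
  | one => rfl
  | lt x => rfl
  | mul e f h1 h2 => simp only [Ex.rev, h1, h2]
  | add e f h1 h2 => simp only [Ex.rev, h1, h2]
  | sm p e h => simp only [Ex.rev, h]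

theorem Cls.rev {k : ℕ} {e : Ex} (h : Cls k e) : Cls k e.rev := by
  induction h with
  | zero e => exact Cls.zero _
  | pair x y h => exact Cls.pair y x (Ne.symm h)
  | mul _ _ h1 h2 =>
    rw [add_comm]
    exact Cls.mul h2 h1
  | add _ _ h1 h2 => exact Cls.add h1 h2
  | sm p _ h => exact Cls.sm p h
  | mono hl _ h => exact Cls.mono hl h

/-- The values of a polynomial at `1 / q` are bounded. -/
theorem tv_abs (p : Polynomial ℤ) : ∃ C : ℝ, 0 < C ∧ ∀ (K : Type) [Field K] [Fintype K], |tv K p| ≤ C := by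
  refine ⟨∑ i ∈ Finset.range (p.natDegree + 1), |((p.coeff i : ℤ) : ℝ)| + 1, by positivity, ?_⟩
  intro K _ _
  have hq : (1 : ℝ) ≤ qr K := by
    unfold qr
    exact_mod_cast Fintype.card_pos
  have hx0 : (0 : ℝ) ≤ (qr K)⁻¹ := by positivity
  have hx1 : (qr K)⁻¹ ≤ 1 := inv_le_one_of_one_le₀ hq
  unfold tv
  rw [Polynomial.eval₂_eq_sum_range]
  refine le_trans (Finset.abs_sum_le_sum_abs _ _) ?_
  refine le_trans (Finset.sum_le_sum (g := fun i => |((p.coeff i : ℤ) : ℝ)|) ?_) (by linarith)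
  intro i _
  rw [abs_mul, abs_pow, abs_of_nonneg hx0]
  have h1 : (qr K)⁻¹ ^ i ≤ 1 := pow_le_one₀ hx0 hx1
  have h2 : (0 : ℝ) ≤ |((p.coeff i : ℤ) : ℝ)| := abs_nonneg _
  have h3 : |(Int.castRingHom ℝ) (p.coeff i)| = |((p.coeff i : ℤ) : ℝ)| := rfl
  rw [h3]
  nlinarith

/-- If the constant term of `u` is `1`, then `u - 1 = O(1 / q)`. -/
theorem tv_sub_one {u : Polynomial ℤ} (hu : u.coeff 0 = 1) :
    ∃ C : ℝ, 0 < C ∧ ∀ (K : Type) [Field K] [Fintype K], |tv K u - 1| ≤ C / qr K := by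
  obtain ⟨C, hC, h⟩ := tv_abs u.divX
  refine ⟨C, hC, ?_⟩
  intro K _ _
  have hq : (1 : ℝ) ≤ qr K := by
    unfold qr
    exact_mod_cast Fintype.card_pos
  have h1 : tv K u - 1 = tv K u.divX * (qr K)⁻¹ := by
    unfold tv
    conv_lhs => rw [← Polynomial.divX_mul_X_add u]
    rw [Polynomial.eval₂_add, Polynomial.eval₂_mul, Polynomial.eval₂_X, Polynomial.eval₂_C, hu]
    simp
  rw [h1, abs_mul, abs_of_nonneg (by positivity : (0 : ℝ) ≤ (qr K)⁻¹), div_eq_mul_inv]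
  exact mul_le_mul_of_nonneg_right (h K) (by positivity)

private theorem b_ex2_N2_add {K : Type} [Field K] [Fintype K] (f g : W5 K → ℝ) :
    N2 (fun w => f w + g w) ≤ 2 * N2 f + 2 * N2 g := by
  unfold N2
  rw [Finset.mul_sum, Finset.mul_sum, ← Finset.sum_add_distrib]
  apply Finset.sum_le_sum
  intro w _
  nlinarith [sq_nonneg (f w - g w)]

private theorem b_ex2_N2_smul {K : Type} [Field K] [Fintype K] (r : ℝ) (f : W5 K → ℝ) :
    N2 (fun w => r * f w) = r ^ 2 * N2 f := by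
  unfold N2
  rw [Finset.mul_sum]
  apply Finset.sum_congr rfl
  intro w _
  ring

private theorem b_ex2_N2_nonneg {K : Type} [Field K] [Fintype K] (f : W5 K → ℝ) : 0 ≤ N2 f := by
  unfold N2
  exact Finset.sum_nonneg (fun w _ => sq_nonneg _)

private theorem b_ex2_N2_congr {K : Type} [Field K] [Fintype K] {f g : W5 K → ℝ} (h : ∀ w ∈ IS K, f w = g w) :
    N2 f = N2 g := by
  unfold N2
  apply Finset.sum_congr rfl
  intro w hw
  rw [h w hw]

private theorem b_ex2_mean_abs {K : Type} [Field K] [Fintype K] {f : W5 K → ℝ} {M : ℝ} (h : ∀ w, |f w| ≤ M) :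
    |mean f| ≤ M := by
  have hc := b_ex1_card_pos (K := K)
  unfold mean
  rw [abs_div, abs_of_pos hc, div_le_iff₀ hc]
  refine le_trans (Finset.abs_sum_le_sum_abs _ _) ?_
  refine le_trans (Finset.sum_le_sum (fun w _ => h w)) ?_
  rw [Finset.sum_const, nsmul_eq_mul, mul_comm]

private theorem b_ex2_mean_add {K : Type} [Field K] [Fintype K] (f g : W5 K → ℝ) :
    mean (fun w => f w + g w) = mean f + mean g := by
  unfold mean
  rw [Finset.sum_add_distrib, add_div]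

private theorem b_ex2_mean_smul {K : Type} [Field K] [Fintype K] (r : ℝ) (f : W5 K → ℝ) :
    mean (fun w => r * f w) = r * mean f := by
  unfold mean
  rw [← Finset.mul_sum, mul_div_assoc]

private theorem b_ex2_dv_add {K : Type} [Field K] [Fintype K] (f g : W5 K → ℝ) :
    dv (fun w => f w + g w) = fun w => dv f w + dv g w := by
  funext w
  unfold dv
  rw [b_ex2_mean_add]; ring

private theorem b_ex2_dv_smul {K : Type} [Field K] [Fintype K] (r : ℝ) (f : W5 K → ℝ) :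
    dv (fun w => r * f w) = fun w => r * dv f w := by
  funext w
  unfold dv
  rw [b_ex2_mean_smul]; ring

private theorem b_ex2_qr_ge {K : Type} [Field K] [Fintype K] : (2 : ℝ) ≤ qr K := by
  unfold qr
  exact_mod_cast Fintype.one_lt_card

theorem ev_N2 (e : Ex) : ∃ C : ℝ, 0 < C ∧ ∀ (K : Type) [Field K] [Fintype K] (f : W5 K → ℝ), Hm f →
    N2 (e.ev f) ≤ C * N2 f := by
  induction e with
  | one => exact ⟨1, one_pos, fun K _ _ f _ => by rw [one_mul]; exact le_refl _⟩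
  | lt x =>
    obtain ⟨C, hC, h⟩ := N2_op
    exact ⟨C, hC, fun K _ _ f hf => h K x f hf⟩
  | mul e1 e2 h1 h2 =>
    obtain ⟨C1, hC1, h1⟩ := h1
    obtain ⟨C2, hC2, h2⟩ := h2
    refine ⟨C1 * C2, by positivity, fun K _ _ f hf => ?_⟩
    calc N2 ((Ex.mul e1 e2).ev f) ≤ C1 * N2 (e2.ev f) := h1 K _ (ev_hm e2 hf)
      _ ≤ C1 * (C2 * N2 f) := mul_le_mul_of_nonneg_left (h2 K f hf) hC1.le
      _ = C1 * C2 * N2 f := by ring
  | add e1 e2 h1 h2 =>
    obtain ⟨C1, hC1, h1⟩ := h1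
    obtain ⟨C2, hC2, h2⟩ := h2
    refine ⟨2 * C1 + 2 * C2, by positivity, fun K _ _ f hf => ?_⟩
    have a1 := b_ex2_N2_add (e1.ev f) (e2.ev f)
    have a2 := h1 K f hf
    have a3 := h2 K f hf
    calc N2 ((Ex.add e1 e2).ev f) ≤ 2 * N2 (e1.ev f) + 2 * N2 (e2.ev f) := a1
      _ ≤ (2 * C1 + 2 * C2) * N2 f := by linarith
  | sm p e h =>
    obtain ⟨C1, hC1, h1⟩ := h
    obtain ⟨C2, hC2, h2⟩ := tv_abs p
    refine ⟨C2 ^ 2 * C1, by positivity, fun K _ _ f hf => ?_⟩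
    have a1 := b_ex2_N2_smul (tv K p) (e.ev f)
    have a2 := h1 K f hf
    have a3 : tv K p ^ 2 ≤ C2 ^ 2 := by
      rw [← sq_abs]
      exact pow_le_pow_left₀ (abs_nonneg _) (h2 K) 2
    calc N2 ((Ex.sm p e).ev f) = tv K p ^ 2 * N2 (e.ev f) := a1
      _ ≤ C2 ^ 2 * (C1 * N2 f) := mul_le_mul a3 a2 (b_ex2_N2_nonneg _) (by positivity)
      _ = C2 ^ 2 * C1 * N2 f := by ring

theorem ev_abs (e : Ex) : ∃ C : ℝ, 0 < C ∧ ∀ (K : Type) [Field K] [Fintype K] (f : W5 K → ℝ) (M : ℝ),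
    (∀ w, |f w| ≤ M) → ∀ w, |e.ev f w| ≤ C * M := by
  induction e with
  | one => exact ⟨1, one_pos, fun K _ _ f M h w => by rw [one_mul]; exact h w⟩
  | lt x => exact ⟨1, one_pos, fun K _ _ f M h w => by rw [one_mul]; exact op_abs x h w⟩
  | mul e1 e2 h1 h2 =>
    obtain ⟨C1, hC1, h1⟩ := h1
    obtain ⟨C2, hC2, h2⟩ := h2
    refine ⟨C1 * C2, by positivity, fun K _ _ f M h w => ?_⟩
    have := h1 K (e2.ev f) (C2 * M) (h2 K f M h) w
    rw [mul_assoc]
    exact this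
  | add e1 e2 h1 h2 =>
    obtain ⟨C1, hC1, h1⟩ := h1
    obtain ⟨C2, hC2, h2⟩ := h2
    refine ⟨C1 + C2, by positivity, fun K _ _ f M h w => ?_⟩
    calc |(Ex.add e1 e2).ev f w| ≤ |e1.ev f w| + |e2.ev f w| := abs_add_le _ _
      _ ≤ C1 * M + C2 * M := add_le_add (h1 K f M h w) (h2 K f M h w)
      _ = (C1 + C2) * M := by ring
  | sm p e h =>
    obtain ⟨C1, hC1, h1⟩ := h
    obtain ⟨C2, hC2, h2⟩ := tv_abs p
    refine ⟨C2 * C1, by positivity, fun K _ _ f M h w => ?_⟩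
    calc |(Ex.sm p e).ev f w| = |tv K p| * |e.ev f w| := abs_mul _ _
      _ ≤ C2 * (C1 * M) := mul_le_mul (h2 K) (h1 K f M h w) (abs_nonneg _) hC2.le
      _ = C2 * C1 * M := by ring

/-- `(e U)° = O(1 / q)` in norm. -/
theorem ev_U (e : Ex) : ∃ C : ℝ, 0 < C ∧ ∀ (K : Type) [Field K] [Fintype K],
    N2 (dv (e.ev (U : W5 K → ℝ))) ≤ C / qr K ^ 2 ∧ |mean (e.ev (U : W5 K → ℝ))| ≤ C := by
  have hU : ∀ (K : Type) [Field K] [Fintype K] (w : W5 K), |(U w : ℝ)| ≤ 1 := by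
    intro K _ _ w
    unfold U
    split_ifs <;> simp
  have hm : ∀ e : Ex, ∃ C : ℝ, 0 < C ∧ ∀ (K : Type) [Field K] [Fintype K], |mean (e.ev (U : W5 K → ℝ))| ≤ C := by
    intro e
    obtain ⟨C, hC, h⟩ := ev_abs e
    refine ⟨C, hC, fun K _ _ => ?_⟩
    have := b_ex2_mean_abs (h K U 1 (hU K))
    rwa [mul_one] at this
  have key : ∃ C : ℝ, 0 < C ∧ ∀ (K : Type) [Field K] [Fintype K], N2 (dv (e.ev (U : W5 K → ℝ))) ≤ C / qr K ^ 2 := by
    induction e with
    | one =>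
      refine ⟨1, one_pos, fun K _ _ => ?_⟩
      have hq := b_ex2_qr_ge (K := K)
      have h1 : mean (U : W5 K → ℝ) = 1 := by
        unfold mean
        have : ∑ w ∈ IS K, (U w : ℝ) = (IS K).card := by
          rw [Finset.sum_congr rfl (fun w hw => b_ex1_U hw)]
          simp
        rw [this]
        exact div_self b_ex1_card_pos.ne'
      have h2 : N2 (dv ((Ex.one).ev (U : W5 K → ℝ))) = 0 := by
        unfold N2
        apply Finset.sum_eq_zero
        intro w _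
        show (U w - mean (U : W5 K → ℝ) * U w) ^ 2 = 0
        rw [h1]; ring
      rw [h2]
      positivity
    | lt x =>
      obtain ⟨C, hC, h⟩ := dv_op_U
      exact ⟨C, hC, fun K _ _ => (h K x).2⟩
    | mul e1 e2 h1 h2 =>
      obtain ⟨C1, hC1, h1⟩ := h1
      obtain ⟨C2, hC2, h2⟩ := h2
      obtain ⟨C3, hC3, h3⟩ := hm e2
      obtain ⟨C4, hC4, h4⟩ := ev_N2 e1
      refine ⟨2 * C3 ^ 2 * C1 + 2 * (C4 * C2), by positivity, fun K _ _ => ?_⟩
      set m := mean (e2.ev (U : W5 K → ℝ)) with hmdef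
      set d := dv (e2.ev (U : W5 K → ℝ)) with hddef
      have hq := b_ex2_qr_ge (K := K)
      have hdec : e2.ev (U : W5 K → ℝ) = fun w => m * U w + d w := by
        funext w
        rw [hddef]
        unfold dv
        rw [← hmdef]; ring
      have h5 : e1.ev (e2.ev (U : W5 K → ℝ)) = fun w => m * e1.ev U w + e1.ev d w := by
        funext w
        rw [hdec, ev_add, ev_smul]
      have h6 : dv ((Ex.mul e1 e2).ev (U : W5 K → ℝ)) = fun w => m * dv (e1.ev U) w + dv (e1.ev d) w := by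
        show dv (e1.ev (e2.ev (U : W5 K → ℝ))) = _
        rw [h5, b_ex2_dv_add, b_ex2_dv_smul]
      rw [h6]
      have hd : Hm d := dv_hm (ev_hm e2 b_ex1_U_hm)
      have h7 := b_ex2_N2_add (fun w => m * dv (e1.ev (U : W5 K → ℝ)) w) (dv (e1.ev d))
      have h8 := b_ex2_N2_smul m (dv (e1.ev (U : W5 K → ℝ)))
      have h9 : m ^ 2 ≤ C3 ^ 2 := by
        rw [← sq_abs]
        exact pow_le_pow_left₀ (abs_nonneg _) (h3 K) 2
      have h10 : m ^ 2 * N2 (dv (e1.ev (U : W5 K → ℝ))) ≤ C3 ^ 2 * (C1 / qr K ^ 2) :=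
        mul_le_mul h9 (h1 K) (b_ex2_N2_nonneg _) (by positivity)
      have h11 : N2 (dv (e1.ev d)) ≤ C4 * (C2 / qr K ^ 2) :=
        le_trans (N2_dv_le _) (le_trans (h4 K d hd) (mul_le_mul_of_nonneg_left (h2 K) hC4.le))
      calc N2 (fun w => m * dv (e1.ev (U : W5 K → ℝ)) w + dv (e1.ev d) w)
          ≤ 2 * (C3 ^ 2 * (C1 / qr K ^ 2)) + 2 * (C4 * (C2 / qr K ^ 2)) := by
            rw [h8] at h7
            linarith
        _ = (2 * C3 ^ 2 * C1 + 2 * (C4 * C2)) / qr K ^ 2 := by ring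
    | add e1 e2 h1 h2 =>
      obtain ⟨C1, hC1, h1⟩ := h1
      obtain ⟨C2, hC2, h2⟩ := h2
      refine ⟨2 * C1 + 2 * C2, by positivity, fun K _ _ => ?_⟩
      have h3 : dv ((Ex.add e1 e2).ev (U : W5 K → ℝ)) = fun w => dv (e1.ev U) w + dv (e2.ev U) w := by
        show dv (fun w => e1.ev (U : W5 K → ℝ) w + e2.ev U w) = _
        rw [b_ex2_dv_add]
      rw [h3]
      have h4 := b_ex2_N2_add (dv (e1.ev (U : W5 K → ℝ))) (dv (e2.ev (U : W5 K → ℝ)))
      have h5 := h1 K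
      have h6 := h2 K
      calc N2 (fun w => dv (e1.ev (U : W5 K → ℝ)) w + dv (e2.ev (U : W5 K → ℝ)) w)
          ≤ 2 * (C1 / qr K ^ 2) + 2 * (C2 / qr K ^ 2) := by linarith
        _ = (2 * C1 + 2 * C2) / qr K ^ 2 := by ring
    | sm p e h =>
      obtain ⟨C1, hC1, h1⟩ := h
      obtain ⟨C2, hC2, h2⟩ := tv_abs p
      refine ⟨C2 ^ 2 * C1, by positivity, fun K _ _ => ?_⟩
      have h3 : dv ((Ex.sm p e).ev (U : W5 K → ℝ)) = fun w => tv K p * dv (e.ev U) w := by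
        show dv (fun w => tv K p * e.ev (U : W5 K → ℝ) w) = _
        rw [b_ex2_dv_smul]
      rw [h3, b_ex2_N2_smul]
      have h9 : tv K p ^ 2 ≤ C2 ^ 2 := by
        rw [← sq_abs]
        exact pow_le_pow_left₀ (abs_nonneg _) (h2 K) 2
      calc tv K p ^ 2 * N2 (dv (e.ev (U : W5 K → ℝ))) ≤ C2 ^ 2 * (C1 / qr K ^ 2) :=
            mul_le_mul h9 (h1 K) (b_ex2_N2_nonneg _) (by positivity)
        _ = C2 ^ 2 * C1 / qr K ^ 2 := by ring
  obtain ⟨C1, hC1, h1⟩ := key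
  obtain ⟨C2, hC2, h2⟩ := hm e
  refine ⟨C1 + C2, by positivity, fun K _ _ => ⟨?_, ?_⟩⟩
  · have hq := b_ex2_qr_ge (K := K)
    refine le_trans (h1 K) ?_
    gcongr
    linarith
  · exact le_trans (h2 K) (by linarith)

/-- For `f` of mean value `0`: the mean value of `e f` is small.  `f = D g` (`exists_Dp0`), so
`⟨e f, U⟩ = ⟨g, e.rev D U⟩ = q ^ 3 (q - 1) ⟨g, (e.rev U)°⟩`. -/
theorem ev_mean (e : Ex) : ∃ C : ℝ, 0 < C ∧ ∀ (K : Type) [Field K] [Fintype K] (f : W5 K → ℝ), Hm f →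
    ∑ w ∈ IS K, f w = 0 → mean (e.ev f) ^ 2 * qr K ^ 4 ≤ C / qr K ^ 2 * N2 f := by
  obtain ⟨C, hC, h⟩ := ev_U e.rev
  refine ⟨4 * C, by positivity, fun K _ _ f hf h0 => ?_⟩
  obtain ⟨g, hg, hg1, hg2, hg3⟩ := exists_Dp0 hf h0
  have hq := b_ex2_qr_ge (K := K)
  have hcp := b_ex1_card_pos (K := K)
  set q := qr K with hqdef
  set d := dv (e.rev.ev (U : W5 K → ℝ)) with hd
  -- the sum of `e f`
  have e1 : ∑ w ∈ IS K, e.ev f w = ip (e.ev (Dp g)) U := by
    unfold ip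
    apply Finset.sum_congr rfl
    intro w hw
    rw [b_ex1_U hw, mul_one]
    exact (ev_congr e (by rw [hf.1, (Dp_hm g).1]) (fun v hv => (hg1 v hv).symm)).2 w hw
  have e2 : ip (e.ev (Dp g)) U = ip g (e.rev.ev (Dp U)) := ev_adj e hg b_ex1_U_hm
  have e3 : ip g (e.rev.ev (Dp U)) = q ^ 3 * (q - 1) * ip g d := by
    have e4 : ∀ w ∈ IS K, e.rev.ev (Dp U) w = q ^ 3 * (q - 1) * e.rev.ev U w := by
      intro w hw
      have h1 := (ev_congr e.rev (f := Dp U) (g := fun v => (q ^ 3 * (q - 1)) * U v)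
        (by rw [(Dp_hm U).1, b_ex1_U_hm.1]; ring) (fun v hv => by rw [Dp_U hv, b_ex1_U hv, mul_one])).2 w hw
      rw [h1, ev_smul]
    have e5 : ip g (e.rev.ev (Dp U)) = ∑ w ∈ IS K, (q ^ 3 * (q - 1) * (g w * d w) +
        (q ^ 3 * (q - 1) * mean (e.rev.ev (U : W5 K → ℝ))) * g w) := by
      unfold ip
      apply Finset.sum_congr rfl
      intro w hw
      rw [e4 w hw, hd]
      unfold dv
      rw [b_ex1_U hw]; ring
    rw [e5, Finset.sum_add_distrib, ← Finset.mul_sum, ← Finset.mul_sum, hg2]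
    unfold ip
    ring
  have e6 : (ip g d) ^ 2 ≤ N2 g * N2 d := by
    unfold ip N2
    exact Finset.sum_mul_sq_le_sq_mul_sq _ _ _
  have e7 : N2 d ≤ C / q ^ 2 := (h K).1
  have hmean : mean (e.ev f) * (IS K).card = q ^ 3 * (q - 1) * ip g d := by
    rw [← e3, ← e2, ← e1]
    unfold mean
    field_simp
  have hN2g := b_ex2_N2_nonneg g
  have hN2f := b_ex2_N2_nonneg f
  have e8 : (mean (e.ev f) * (IS K).card) ^ 2 ≤ q ^ 4 * N2 f * (C / q ^ 2) := by
    rw [hmean]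
    calc (q ^ 3 * (q - 1) * ip g d) ^ 2 = (q ^ 3 * (q - 1)) ^ 2 * (ip g d) ^ 2 := by ring
      _ ≤ (q ^ 3 * (q - 1)) ^ 2 * (N2 g * (C / q ^ 2)) := by
          apply mul_le_mul_of_nonneg_left _ (by positivity)
          exact le_trans e6 (mul_le_mul_of_nonneg_left e7 hN2g)
      _ = q ^ 4 * ((q * (q - 1)) ^ 2 * N2 g) * (C / q ^ 2) := by ring
      _ = q ^ 4 * N2 f * (C / q ^ 2) := by rw [hg3]
  have e9 : ((IS K).card : ℝ) = q ^ 4 - 1 := card_IS
  have e10 : q ^ 4 / 2 ≤ q ^ 4 - 1 := by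
    have : (16 : ℝ) ≤ q ^ 4 := by
      calc (16 : ℝ) = 2 ^ 4 := by norm_num
        _ ≤ q ^ 4 := pow_le_pow_left₀ (by norm_num) hq 4
    linarith
  have e11 : mean (e.ev f) ^ 2 * (q ^ 4 / 2) ^ 2 ≤ (mean (e.ev f) * (IS K).card) ^ 2 := by
    rw [mul_pow, e9]
    apply mul_le_mul_of_nonneg_left _ (sq_nonneg _)
    exact pow_le_pow_left₀ (by positivity) e10 2
  have e12 := le_trans e11 e8
  have hq4 : (0 : ℝ) < q ^ 4 := by positivity
  have e13 : q ^ 4 * (mean (e.ev f) ^ 2 * q ^ 4) ≤ q ^ 4 * (4 * C / q ^ 2 * N2 f) := by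
    calc q ^ 4 * (mean (e.ev f) ^ 2 * q ^ 4) = 4 * (mean (e.ev f) ^ 2 * (q ^ 4 / 2) ^ 2) := by ring
      _ ≤ 4 * (q ^ 4 * N2 f * (C / q ^ 2)) := by linarith
      _ = q ^ 4 * (4 * C / q ^ 2 * N2 f) := by ring
  exact le_of_mul_le_mul_left e13 hq4

end Pool.Agent.Pf4
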