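import Pool.Agent.Pf4.BEx

/-!
# The rules for the classes of functions
-/

set_option autoImplicit false

open scoped BigOperators Classical

namespace Pool.Agent.Pf4

/-- Families with value `0` at `0`. -/
def Z0 (f : Fam) : Prop := ∀ (K : Type) [Field K] [Fintype K], f K 0 = 0

private theorem b_mem_one {K : Type} [Fintype K] : tv K 1 = 1 := by
  unfold tv
  exact Polynomial.eval₂_one _ _

private theorem b_mem_zero {K : Type} [Fintype K] : tv K 0 = 0 := by
  unfold tv
  exact Polynomial.eval₂_zero _ _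

private theorem b_mem_mul {K : Type} [Fintype K] (p r : Polynomial ℤ) :
    tv K (p * r) = tv K p * tv K r := by
  unfold tv
  exact Polynomial.eval₂_mul _ _

private theorem b_mem_sub {K : Type} [Fintype K] (p r : Polynomial ℤ) :
    tv K (p - r) = tv K p - tv K r := by
  unfold tv
  exact Polynomial.eval₂_sub _

private theorem b_mem_X {K : Type} [Fintype K] : tv K Polynomial.X = (qr K)⁻¹ := by
  unfold tv
  exact Polynomial.eval₂_X _ _

private theorem b_mem_sum {K : Type} [Fintype K] {ι : Type} (s : Finset ι)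
    (p : ι → Polynomial ℤ) : tv K (∑ i ∈ s, p i) = ∑ i ∈ s, tv K (p i) := by
  unfold tv
  exact Polynomial.eval₂_finsetSum _ _ _ _

private theorem b_mem_Uhm {K : Type} [Field K] [Fintype K] : Hm (U : W5 K → ℝ) := by
  refine ⟨if_pos rfl, fun r w hr => ?_⟩
  unfold U
  have h : w.sm r = 0 ↔ w = 0 := by
    constructor
    · intro h
      have h0 := congrArg W5.x0 h
      have h1 := congrArg W5.x1 h
      have h2 := congrArg W5.x2 h
      have h3 := congrArg W5.x3 h
      have h4 := congrArg W5.x4 h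
      exact W5.ext ((mul_eq_zero.1 h0).resolve_left hr) ((mul_eq_zero.1 h1).resolve_left hr)
        ((mul_eq_zero.1 h2).resolve_left hr) ((mul_eq_zero.1 h3).resolve_left hr)
        ((mul_eq_zero.1 h4).resolve_left hr)
    · rintro rfl
      exact W5.ext (mul_zero r) (mul_zero r) (mul_zero r) (mul_zero r) (mul_zero r)
  by_cases hw : w = 0
  · rw [if_pos hw, if_pos (h.2 hw)]
  · rw [if_neg hw, if_neg (fun h' => hw (h.1 h'))]

theorem Mem.congr {k : ℕ} {f g : Fam} (h : ∀ (K : Type) [Field K] [Fintype K] (w : W5 K), w ∈ IS K → f K w = g K w)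
    (hf : Mem k f) : Mem k g := by
  obtain ⟨e, u, he, hu, h1⟩ := hf
  exact ⟨e, u, he, hu, fun K _ _ w hw => by rw [h1 K w hw, h K w hw]⟩

theorem Mem.mono {k l : ℕ} {f : Fam} (hl : l ≤ k) (hf : Mem k f) : Mem l f := by
  obtain ⟨e, u, he, hu, h1⟩ := hf
  exact ⟨e, u, he.mono hl, hu, h1⟩

theorem Mem.add {k : ℕ} {f g : Fam} (hf : Mem k f) (hg : Mem k g) : Mem k fun K _ _ w => f K w + g K w := by
  obtain ⟨e, u, he, hu, h1⟩ := hf
  obtain ⟨e', u', he', hu', h1'⟩ := hg
  refine ⟨.add (.sm u' e) (.sm u e'), u * u', (he.sm u').add (he'.sm u), ?_, ?_⟩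
  · rw [Polynomial.mul_coeff_zero, hu, hu', one_mul]
  · intro K _ _ w hw
    show tv K u' * e.ev Pf4.U w + tv K u * e'.ev Pf4.U w = _
    rw [h1 K w hw, h1' K w hw, b_mem_mul]
    ring

theorem Mem.sm {k : ℕ} {f : Fam} (p : Polynomial ℤ) (hf : Mem k f) : Mem k fun K _ _ w => tv K p * f K w := by
  obtain ⟨e, u, he, hu, h1⟩ := hf
  refine ⟨.sm p e, u, he.sm p, hu, ?_⟩
  intro K _ _ w hw
  show tv K p * e.ev Pf4.U w = _
  rw [h1 K w hw]
  ring

theorem Mem.U : Mem 0 fun _ _ _ => U := by
  refine ⟨.one, 1, .zero _, Polynomial.coeff_one_zero, ?_⟩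
  intro K _ _ w hw
  show Pf4.U w = _
  rw [b_mem_one, one_mul]

theorem Mem.zero (k : ℕ) : Mem k fun _ _ _ _ => 0 := by
  have h : ∀ k : ℕ, ∃ e, Cls k e := by
    intro k
    induction k with
    | zero => exact ⟨_, .zero .one⟩
    | succ k ih =>
      obtain ⟨e, he⟩ := ih
      exact ⟨_, .mul he (.pair .a .b (by decide))⟩
  obtain ⟨e, he⟩ := h k
  refine ⟨.sm 0 e, 1, he.sm 0, Polynomial.coeff_one_zero, ?_⟩
  intro K _ _ w hw
  show tv K 0 * e.ev Pf4.U w = _
  rw [b_mem_zero, zero_mul, mul_zero]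

private theorem b_mem_ev {f : Fam} (h0 : Z0 f) {e : Ex} {u : Polynomial ℤ}
    (h1 : ∀ (K : Type) [Field K] [Fintype K] (w : W5 K), w ∈ IS K → e.ev U w = tv K u * f K w)
    (e' : Ex) (K : Type) [Field K] [Fintype K] (w : W5 K) (hw : w ∈ IS K) :
    e'.ev (e.ev U) w = tv K u * e'.ev (f K) w := by
  rw [← ev_smul]
  refine (ev_congr e' ?_ (fun w hw => h1 K w hw)).2 w hw
  rw [(ev_hm e b_mem_Uhm).1, h0 K, mul_zero]

theorem Mem.lt {k : ℕ} {f : Fam} (x : Lt) (h0 : Z0 f) (hf : Mem k f) : Mem k fun K _ _ w => x.op (f K) w := by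
  obtain ⟨e, u, he, hu, h1⟩ := hf
  refine ⟨.mul (.lt x) e, u, ?_, hu, ?_⟩
  · have h2 := Cls.mul (.zero (.lt x)) he
    rwa [zero_add] at h2
  · intro K _ _ w hw
    exact b_mem_ev h0 h1 (.lt x) K w hw

/-- The pair rule for one inner letter. -/
theorem Mem.pair {k : ℕ} {f : Fam} (x y : Lt) (hxy : x ≠ y) (h0 : Z0 f) (hf : Mem k f) :
    Mem (k + 1) fun K _ _ w => x.op (y.op (f K)) w := by
  obtain ⟨e, u, he, hu, h1⟩ := hf
  refine ⟨.mul (.mul (.lt x) (.lt y)) e, u, ?_, hu, ?_⟩
  · have h2 := Cls.mul (.pair x y hxy) he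
    rwa [add_comm] at h2
  · intro K _ _ w hw
    exact b_mem_ev h0 h1 (.mul (.lt x) (.lt y)) K w hw

/-- Nakayama: if every `T i` is the sum of an element of the class and of `t` times a combination of the `T j`, then the `T i`
are in the class.  (`(1 - t E) T = S`; multiply by the adjugate, the constant term of `det (1 - t E)` is `1`.) -/
theorem Mem.nakayama {k n : ℕ} (T : Fin n → Fam) (E : Fin n → Fin n → Polynomial ℤ)
    (h : ∀ i, Mem k fun K _ _ w => T i K w - (qr K)⁻¹ * ∑ j, tv K (E i j) * T j K w) (i : Fin n) : Mem k (T i) := by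
  have hsum : ∀ (s : Finset (Fin n)) (F : Fin n → Fam), (∀ i, Mem k (F i)) →
      Mem k fun K _ _ w => ∑ i ∈ s, F i K w := by
    intro s F hF
    induction s using Finset.induction_on with
    | empty =>
      exact Mem.congr (fun K _ _ w _ => by rw [Finset.sum_empty]) (Mem.zero k)
    | insert a s ha ih =>
      exact Mem.congr (fun K _ _ w _ => by rw [Finset.sum_insert ha]) (Mem.add (hF a) ih)
  let M : Matrix (Fin n) (Fin n) (Polynomial ℤ) := 1 - (Polynomial.X : Polynomial ℤ) • Matrix.of E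
  have hM : ∀ i j, M i j = (if i = j then 1 else 0) - Polynomial.X * E i j := by
    intro i j
    show (1 : Matrix (Fin n) (Fin n) (Polynomial ℤ)) i j - Polynomial.X * E i j = _
    rw [Matrix.one_apply]
  have hdet : M.det.coeff 0 = 1 := by
    have e1 : M.det.coeff 0 = Polynomial.evalRingHom (0 : ℤ) M.det := by
      rw [Polynomial.coe_evalRingHom, Polynomial.coeff_zero_eq_eval_zero]
    rw [e1, (Polynomial.evalRingHom (0 : ℤ)).map_det]
    have e2 : (Polynomial.evalRingHom (0 : ℤ)).mapMatrix M = 1 := by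
      ext i j
      rw [RingHom.mapMatrix_apply, Matrix.map_apply, hM, Matrix.one_apply, map_sub, map_mul]
      split_ifs with hij
      · simp
      · simp
    rw [e2, Matrix.det_one]
  have hS : ∀ (K : Type) [Field K] [Fintype K] (l : Fin n) (w : W5 K),
      T l K w - (qr K)⁻¹ * ∑ j, tv K (E l j) * T j K w = ∑ j, tv K (M l j) * T j K w := by
    intro K _ _ l w
    have e3 : ∀ j, tv K (M l j) * T j K w =
        (if l = j then T j K w else 0) - (qr K)⁻¹ * (tv K (E l j) * T j K w) := by
      intro j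
      rw [hM, b_mem_sub, b_mem_mul, b_mem_X]
      split_ifs with hij
      · rw [b_mem_one]
        ring
      · rw [b_mem_zero]
        ring
    rw [Finset.sum_congr rfl fun j _ => e3 j, Finset.sum_sub_distrib, Finset.sum_ite_eq,
      if_pos (Finset.mem_univ l), Finset.mul_sum]
  have hA : Mem k fun K _ _ w => ∑ l, tv K (M.adjugate i l) *
      (T l K w - (qr K)⁻¹ * ∑ j, tv K (E l j) * T j K w) :=
    hsum Finset.univ (fun l K _ _ w => tv K (M.adjugate i l) *
      (T l K w - (qr K)⁻¹ * ∑ j, tv K (E l j) * T j K w)) fun l => Mem.sm _ (h l)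
  obtain ⟨e, u, he, hu, h1⟩ := hA
  refine ⟨e, u * M.det, he, ?_, ?_⟩
  · rw [Polynomial.mul_coeff_zero, hu, hdet, one_mul]
  · intro K _ _ w hw
    rw [h1 K w hw, b_mem_mul, mul_assoc]
    congr 1
    have e4 : ∀ j, ∑ l, tv K (M.adjugate i l) * tv K (M l j) =
        if i = j then tv K M.det else 0 := by
      intro j
      have e5 : (M.adjugate * M) i j = (M.det • (1 : Matrix (Fin n) (Fin n) (Polynomial ℤ))) i j := by
        rw [Matrix.adjugate_mul]
      rw [Matrix.mul_apply, Matrix.smul_apply, Matrix.one_apply] at e5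
      have e6 := congrArg (tv K) e5
      rw [b_mem_sum] at e6
      rw [Finset.sum_congr rfl fun l _ => (b_mem_mul (K := K) (M.adjugate i l) (M l j)).symm, e6]
      split_ifs with hij
      · rw [smul_eq_mul, mul_one]
      · rw [smul_zero, b_mem_zero]
    calc ∑ l, tv K (M.adjugate i l) * (T l K w - (qr K)⁻¹ * ∑ j, tv K (E l j) * T j K w)
        = ∑ l, ∑ j, tv K (M.adjugate i l) * tv K (M l j) * T j K w := by
          refine Finset.sum_congr rfl fun l _ => ?_
          rw [hS K l w, Finset.mul_sum]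
          exact Finset.sum_congr rfl fun j _ => (mul_assoc _ _ _).symm
      _ = ∑ j, (∑ l, tv K (M.adjugate i l) * tv K (M l j)) * T j K w := by
          rw [Finset.sum_comm]
          exact Finset.sum_congr rfl fun j _ => (Finset.sum_mul _ _ _).symm
      _ = tv K M.det * T i K w := by
          rw [Finset.sum_congr rfl fun j _ => by rw [e4 j]]
          rw [Finset.sum_eq_single i]
          · rw [if_pos rfl]
          · intro j _ hj
            rw [if_neg (Ne.symm hj), zero_mul]
          · exact fun h => absurd (Finset.mem_univ _) h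

end Pool.Agent.Pf4
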