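import Pool.Agent.Pf4.BOp

/-!
# The letters `a`, `b`, `c` contract the functions of mean value `0` outside two lines
-/

set_option autoImplicit false

open scoped BigOperators Classical

namespace Pool.Agent.Pf4

/-- The bad vectors of a letter (two coordinates vanish; for isotropic vectors these are two lines). -/
def bad {K : Type} [Field K] : Lt → W5 K → Prop
  | .a, w => w.x1 = 0 ∧ w.x2 = 0
  | .b, w => w.x2 = 0 ∧ w.x3 = 0
  | .c, w => w.x3 = 0 ∧ w.x1 = 0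
  | .h, _ => False

/-- For `z = (x0, x1, x2, x3, x4)` isotropic and `X = XA a b c d z`. -/
theorem XA_rel {K : Type} [Field K] {z : W5 K} (hz : z.Iso) (a b c d : K) :
    (-(d * z.x4) * (XA a b c d z).x0 + (d * z.x1 + z.x4) * (XA a b c d z).x1 + z.x4 * (XA a b c d z).x2 +
        d * (z.x1 + z.x2) * (XA a b c d z).x3 - (z.x1 + z.x2) * (XA a b c d z).x4) +
      c * ((-(d * (z.x1 + z.x3)) - z.x4) * (XA a b c d z).x0 + z.x1 * (XA a b c d z).x2 +
        (d * z.x0 + z.x1 + z.x2) * (XA a b c d z).x3) = 0 ∧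
    ((-(d * (z.x1 + z.x3)) - z.x4) * (XA a b c d z).x0 + z.x1 * (XA a b c d z).x2 +
        (d * z.x0 + z.x1 + z.x2) * (XA a b c d z).x3) = (z.x2 * b - d * z.x1) * ((z.x2 + z.x0 * d) * a + d * z.x1) ∧
    (z.x2 * (c + d) + z.x0 * c * d) ^ 2 * a = (z.x2 * (c + d) + z.x0 * c * d) * (XA a b c d z).x1 -
      c * (z.x0 * (XA a b c d z).x4 - z.x3 * ((XA a b c d z).x1 + (XA a b c d z).x2)) ∧
    (z.x2 * (c + d) + z.x0 * c * d) ^ 2 * b = (z.x2 * (c + d) + z.x0 * c * d) * (XA a b c d z).x2 -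
      d * (z.x0 * (XA a b c d z).x4 - z.x3 * ((XA a b c d z).x1 + (XA a b c d z).x2)) := by
  obtain ⟨x0, x1, x2, x3, x4⟩ := z
  have h : x0 * x4 = x1 * x2 + x1 * x3 + x2 * x3 := hz
  refine ⟨?_, ?_, ?_, ?_⟩
  · simp only [XA]
    linear_combination (a * c * d - a * d ^ 2 - b * c ^ 2 + b * c * d) * h
  · simp only [XA]
    linear_combination (-(a * b) - b * c + b * d + d ^ 2) * h
  · simp only [XA]
    linear_combination (a * c ^ 2 + a * c * d + b * c ^ 2 + b * c * d) * h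
  · simp only [XA]
    linear_combination (a * c * d + a * d ^ 2 + b * c * d + b * d ^ 2) * h

/-- A set of quadruples on which three coordinates determine the fourth. -/
private theorem bsq1_cnt {K : Type} [Field K] [Fintype K] (S : Finset (Fin 4 → K)) (i : Fin 4)
    (h : ∀ y ∈ S, ∀ y' ∈ S, (∀ j, j ≠ i → y j = y' j) → y i = y' i) :
    (S.card : ℝ) ≤ qr K ^ 3 := by
  have h1 : S.card ≤ Fintype.card (Fin 3 → K) := by
    refine Finset.card_le_card_of_injOn (fun y j => y (i.succAbove j)) (fun _ _ => Finset.mem_univ _) ?_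
    intro y hy y' hy' e
    have h2 : ∀ j, j ≠ i → y j = y' j := by
      intro j hj
      obtain ⟨l, rfl⟩ := Fin.exists_succAbove_eq hj
      exact congrFun e l
    funext j
    by_cases hj : j = i
    · subst hj
      exact h y hy y' hy' h2
    · exact h2 j hj
  have h2 : Fintype.card (Fin 3 → K) = Fintype.card K ^ 3 := by
    rw [Fintype.card_fun, Fintype.card_fin]
  rw [h2] at h1
  unfold qr
  exact_mod_cast h1

/-- The exceptional set. -/
private noncomputable def bsq1_E {K : Type} [Field K] [Fintype K] (z : W5 K) : Finset (Fin 4 → K) :=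
  Finset.univ.filter (fun y => y 0 = 0) ∪ Finset.univ.filter (fun y => y 1 = 0) ∪
    Finset.univ.filter (fun y => y 2 = 0) ∪ Finset.univ.filter (fun y => y 3 = 0) ∪
    Finset.univ.filter (fun y => y 2 + y 3 = 0) ∪
    Finset.univ.filter (fun y => y 3 ≠ 0 ∧ z.x2 * (y 2 + y 3) + z.x0 * y 2 * y 3 = 0) ∪
    Finset.univ.filter (fun y => y 3 ≠ 0 ∧ z.x2 * y 1 = y 3 * z.x1) ∪
    Finset.univ.filter (fun y => z.x2 + z.x0 * y 3 ≠ 0 ∧ (z.x2 + z.x0 * y 3) * y 0 + y 3 * z.x1 = 0) ∪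
    Finset.univ.filter (fun y => z.x2 + z.x0 * y 3 = 0)

private theorem bsq1_card {K : Type} [Field K] [Fintype K] (z : W5 K) (h1 : z.x1 ≠ 0 ∨ z.x2 ≠ 0)
    (h0 : z.x0 ≠ 0 ∨ z.x2 ≠ 0) : ((bsq1_E z).card : ℝ) ≤ 9 * qr K ^ 3 := by
  have c0 : ((Finset.univ.filter (fun y : Fin 4 → K => y 0 = 0)).card : ℝ) ≤ qr K ^ 3 := by
    refine bsq1_cnt _ 0 fun y hy y' hy' _ => ?_
    rw [(Finset.mem_filter.1 hy).2, (Finset.mem_filter.1 hy').2]
  have c1 : ((Finset.univ.filter (fun y : Fin 4 → K => y 1 = 0)).card : ℝ) ≤ qr K ^ 3 := by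
    refine bsq1_cnt _ 1 fun y hy y' hy' _ => ?_
    rw [(Finset.mem_filter.1 hy).2, (Finset.mem_filter.1 hy').2]
  have c2 : ((Finset.univ.filter (fun y : Fin 4 → K => y 2 = 0)).card : ℝ) ≤ qr K ^ 3 := by
    refine bsq1_cnt _ 2 fun y hy y' hy' _ => ?_
    rw [(Finset.mem_filter.1 hy).2, (Finset.mem_filter.1 hy').2]
  have c3 : ((Finset.univ.filter (fun y : Fin 4 → K => y 3 = 0)).card : ℝ) ≤ qr K ^ 3 := by
    refine bsq1_cnt _ 3 fun y hy y' hy' _ => ?_
    rw [(Finset.mem_filter.1 hy).2, (Finset.mem_filter.1 hy').2]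
  have c4 : ((Finset.univ.filter (fun y : Fin 4 → K => y 2 + y 3 = 0)).card : ℝ) ≤ qr K ^ 3 := by
    refine bsq1_cnt _ 2 fun y hy y' hy' e => ?_
    have e1 := (Finset.mem_filter.1 hy).2
    have e2 := (Finset.mem_filter.1 hy').2
    rw [← e 3 (by decide)] at e2
    linear_combination e1 - e2
  have c5 : ((Finset.univ.filter (fun y : Fin 4 → K => y 3 ≠ 0 ∧
      z.x2 * (y 2 + y 3) + z.x0 * y 2 * y 3 = 0)).card : ℝ) ≤ qr K ^ 3 := by
    refine bsq1_cnt _ 2 fun y hy y' hy' e => ?_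
    obtain ⟨e3, e1⟩ := (Finset.mem_filter.1 hy).2
    obtain ⟨-, e2⟩ := (Finset.mem_filter.1 hy').2
    rw [← e 3 (by decide)] at e2
    have e4 : (z.x2 + z.x0 * y 3) * (y 2 - y' 2) = 0 := by linear_combination e1 - e2
    rcases mul_eq_zero.1 e4 with e5 | e5
    · exfalso
      have e6 : z.x2 * y 3 = 0 := by linear_combination e1 - y 2 * e5
      have e7 : z.x2 = 0 := (mul_eq_zero.1 e6).resolve_right e3
      rw [e7, zero_add] at e5
      have e8 : z.x0 = 0 := (mul_eq_zero.1 e5).resolve_right e3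
      rcases h0 with h0 | h0
      · exact h0 e8
      · exact h0 e7
    · exact sub_eq_zero.1 e5
  have c6 : ((Finset.univ.filter (fun y : Fin 4 → K => y 3 ≠ 0 ∧
      z.x2 * y 1 = y 3 * z.x1)).card : ℝ) ≤ qr K ^ 3 := by
    refine bsq1_cnt _ 1 fun y hy y' hy' e => ?_
    obtain ⟨e3, e1⟩ := (Finset.mem_filter.1 hy).2
    obtain ⟨-, e2⟩ := (Finset.mem_filter.1 hy').2
    rw [← e 3 (by decide)] at e2
    have e4 : z.x2 * (y 1 - y' 1) = 0 := by linear_combination e1 - e2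
    rcases mul_eq_zero.1 e4 with e5 | e5
    · exfalso
      rw [e5, zero_mul] at e1
      have e8 : z.x1 = 0 := (mul_eq_zero.1 e1.symm).resolve_left e3
      rcases h1 with h1 | h1
      · exact h1 e8
      · exact h1 e5
    · exact sub_eq_zero.1 e5
  have c7 : ((Finset.univ.filter (fun y : Fin 4 → K => z.x2 + z.x0 * y 3 ≠ 0 ∧
      (z.x2 + z.x0 * y 3) * y 0 + y 3 * z.x1 = 0)).card : ℝ) ≤ qr K ^ 3 := by
    refine bsq1_cnt _ 0 fun y hy y' hy' e => ?_
    obtain ⟨e3, e1⟩ := (Finset.mem_filter.1 hy).2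
    obtain ⟨-, e2⟩ := (Finset.mem_filter.1 hy').2
    rw [← e 3 (by decide)] at e2
    have e4 : (z.x2 + z.x0 * y 3) * (y 0 - y' 0) = 0 := by linear_combination e1 - e2
    exact sub_eq_zero.1 ((mul_eq_zero.1 e4).resolve_left e3)
  have c8 : ((Finset.univ.filter (fun y : Fin 4 → K => z.x2 + z.x0 * y 3 = 0)).card : ℝ) ≤
      qr K ^ 3 := by
    refine bsq1_cnt _ 3 fun y hy y' hy' e => ?_
    have e1 := (Finset.mem_filter.1 hy).2
    have e2 := (Finset.mem_filter.1 hy').2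
    have e4 : z.x0 * (y 3 - y' 3) = 0 := by linear_combination e1 - e2
    rcases mul_eq_zero.1 e4 with e5 | e5
    · exfalso
      rw [e5, zero_mul, add_zero] at e1
      rcases h0 with h0 | h0
      · exact h0 e5
      · exact h0 e1
    · exact sub_eq_zero.1 e5
  have hu : ∀ (A B : Finset (Fin 4 → K)), ((A ∪ B).card : ℝ) ≤ A.card + B.card := fun A B => by
    exact_mod_cast Finset.card_union_le A B
  unfold bsq1_E
  refine (hu _ _).trans ?_
  have t8 := (hu _ _).trans (add_le_add ((hu _ _).trans (add_le_add ((hu _ _).trans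
    (add_le_add ((hu _ _).trans (add_le_add ((hu _ _).trans (add_le_add ((hu _ _).trans
    (add_le_add ((hu _ _).trans (add_le_add c0 c1)) c2)) c3)) c4)) c5)) c6)) c7)
  linarith

/-- The relations which determine `y` from the line of `X`. -/
private theorem bsq1_inj {K : Type} [Field K] [Fintype K] {z : W5 K} (hz : z.Iso)
    (h0 : z.x0 ≠ 0 ∨ z.x2 ≠ 0) {y y' : Fin 4 → K} (hy : y ∉ bsq1_E z) (hy' : y' ∉ bsq1_E z)
    (e3 : y 3 = y' 3) {r : K} (hr : r ≠ 0)
    (e : XA (y 0) (y 1) (y 2) (y 3) z = (XA (y' 0) (y' 1) (y' 2) (y' 3) z).sm r) : y = y' := by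
  unfold bsq1_E at hy hy'
  simp only [Finset.mem_union, Finset.mem_filter, Finset.mem_univ, true_and, not_or, not_and]
    at hy hy'
  obtain ⟨⟨⟨⟨⟨⟨⟨⟨n0, n1⟩, n2⟩, n3⟩, n4⟩, n5⟩, n6⟩, n7⟩, n8⟩ := hy
  obtain ⟨⟨⟨⟨⟨⟨⟨⟨m0, m1⟩, m2⟩, m3⟩, m4⟩, m5⟩, m6⟩, m7⟩, m8⟩ := hy'
  have n5' := n5 n3
  have n6' := n6 n3
  have n7' := n7 n8
  have m6' := m6 m3
  have m7' := m7 m8
  obtain ⟨a1, a2, a3, a4⟩ := XA_rel hz (y 0) (y 1) (y 2) (y 3)
  obtain ⟨b1, b2, b3, b4⟩ := XA_rel hz (y' 0) (y' 1) (y' 2) (y' 3)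
  have E0 := congrArg W5.x0 e
  have E1 := congrArg W5.x1 e
  have E2 := congrArg W5.x2 e
  have E3 := congrArg W5.x3 e
  have E4 := congrArg W5.x4 e
  rw [← e3] at b1 b2 b3 b4 m6' m7' E0 E1 E2 E3 E4
  generalize hd : y 3 = d at *
  have s0 : (XA (y 0) (y 1) (y 2) d z).x0 = r * (XA (y' 0) (y' 1) (y' 2) d z).x0 := E0
  have s1 : (XA (y 0) (y 1) (y 2) d z).x1 = r * (XA (y' 0) (y' 1) (y' 2) d z).x1 := E1
  have s2 : (XA (y 0) (y 1) (y 2) d z).x2 = r * (XA (y' 0) (y' 1) (y' 2) d z).x2 := E2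
  have s3 : (XA (y 0) (y 1) (y 2) d z).x3 = r * (XA (y' 0) (y' 1) (y' 2) d z).x3 := E3
  have s4 : (XA (y 0) (y 1) (y 2) d z).x4 = r * (XA (y' 0) (y' 1) (y' 2) d z).x4 := E4
  have hc : y 2 = y' 2 := by
    have hS : ((z.x2 * y' 1 - d * z.x1) * ((z.x2 + z.x0 * d) * y' 0 + d * z.x1)) ≠ 0 :=
      mul_ne_zero (sub_ne_zero.2 m6') m7'
    rw [← b2] at hS
    have h1 : r * ((-(d * (z.x1 + z.x3)) - z.x4) * (XA (y' 0) (y' 1) (y' 2) d z).x0 +
        z.x1 * (XA (y' 0) (y' 1) (y' 2) d z).x2 +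
        (d * z.x0 + z.x1 + z.x2) * (XA (y' 0) (y' 1) (y' 2) d z).x3) * (y 2 - y' 2) = 0 := by
      rw [s0, s1, s2, s3, s4] at a1
      linear_combination a1 - r * b1
    exact sub_eq_zero.1 ((mul_eq_zero.1 h1).resolve_left (mul_ne_zero hr hS))
  have ha : y 0 = r * y' 0 := by
    rw [← hc] at b3
    rw [← hc] at s1 s2 s4
    rw [s1, s2, s4] at a3
    have h1 : (z.x2 * (y 2 + d) + z.x0 * y 2 * d) ^ 2 * (y 0 - r * y' 0) = 0 := by
      linear_combination a3 - r * b3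
    exact sub_eq_zero.1 ((mul_eq_zero.1 h1).resolve_left (pow_ne_zero _ n5'))
  have hb : y 1 = r * y' 1 := by
    rw [← hc] at b4
    rw [← hc] at s1 s2 s4
    rw [s1, s2, s4] at a4
    have h1 : (z.x2 * (y 2 + d) + z.x0 * y 2 * d) ^ 2 * (y 1 - r * y' 1) = 0 := by
      linear_combination a4 - r * b4
    exact sub_eq_zero.1 ((mul_eq_zero.1 h1).resolve_left (pow_ne_zero _ n5'))
  have hr1 : r = 1 := by
    by_cases hx0 : z.x0 = 0
    · have hx2 : z.x2 ≠ 0 := h0.resolve_left fun h => h hx0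
      have hI : z.x0 * z.x4 = z.x1 * z.x2 + z.x1 * z.x3 + z.x2 * z.x3 := hz
      rw [hx0, zero_mul] at hI
      have h23 : z.x2 + z.x3 ≠ 0 := by
        intro h
        have h1 : z.x2 * z.x2 = 0 := by linear_combination hI + (z.x1 + z.x2) * h
        exact hx2 (mul_self_eq_zero.1 h1)
      simp only [XA] at s4
      rw [ha, hb, ← hc, hx0] at s4
      have h1 : (r * (y' 0) * (y' 1) * (y 2 + d) * (z.x2 + z.x3)) * (r - 1) = 0 := by
        linear_combination s4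
      have h2 : (r * (y' 0) * (y' 1) * (y 2 + d) * (z.x2 + z.x3)) ≠ 0 :=
        mul_ne_zero (mul_ne_zero (mul_ne_zero (mul_ne_zero hr m0) m1) n4) h23
      exact sub_eq_zero.1 ((mul_eq_zero.1 h1).resolve_left h2)
    · simp only [XA] at s1
      rw [ha, hb, ← hc] at s1
      have h1 : (r * z.x0 * (y' 0) * (y' 1) * (y 2)) * (r - 1) = 0 := by
        linear_combination s1
      have h2 : (r * z.x0 * (y' 0) * (y' 1) * (y 2)) ≠ 0 :=
        mul_ne_zero (mul_ne_zero (mul_ne_zero (mul_ne_zero hr hx0) m0) m1) n2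
      exact sub_eq_zero.1 ((mul_eq_zero.1 h1).resolve_left h2)
  funext j
  fin_cases j
  · show y 0 = y' 0
    rw [ha, hr1, one_mul]
  · show y 1 = y' 1
    rw [hb, hr1, one_mul]
  · exact hc
  · show y 3 = y' 3
    rw [hd]
    exact e3

/-- The vector is not zero. -/
private theorem bsq1_ne {K : Type} [Field K] [Fintype K] {z : W5 K} (hz : z.Iso)
    {y : Fin 4 → K} (hy : y ∉ bsq1_E z) : XA (y 0) (y 1) (y 2) (y 3) z ≠ 0 := by
  unfold bsq1_E at hy
  simp only [Finset.mem_union, Finset.mem_filter, Finset.mem_univ, true_and, not_or, not_and]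
    at hy
  obtain ⟨⟨⟨⟨⟨⟨⟨⟨n0, n1⟩, n2⟩, n3⟩, n4⟩, n5⟩, n6⟩, n7⟩, n8⟩ := hy
  have n6' := n6 n3
  have n7' := n7 n8
  obtain ⟨-, a2, -, -⟩ := XA_rel hz (y 0) (y 1) (y 2) (y 3)
  intro h
  have hS : ((z.x2 * y 1 - y 3 * z.x1) * ((z.x2 + z.x0 * y 3) * y 0 + y 3 * z.x1)) ≠ 0 :=
    mul_ne_zero (sub_ne_zero.2 n6') n7'
  rw [← a2, h] at hS
  apply hS
  show (-(y 3 * (z.x1 + z.x3)) - z.x4) * (0 : K) + z.x1 * (0 : K) +
    (y 3 * z.x0 + z.x1 + z.x2) * (0 : K) = 0
  ring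

/-- Injectivity.  Here `z` is isotropic, `(x1, x2) ≠ 0` and `(x0, x2) ≠ 0`.  Exceptional set `E` (at most `C * q ^ 3`
elements): `a * b * c * d * (c + d) = 0`, or `x2 * (c + d) + x0 * c * d = 0`, or `x2 * b = d * x1`, or
`(x2 + x0 * d) * a + d * x1 = 0`.  Outside `E` and for equal `d`: if `X = r X'` then `c = c'` by the first two relations of
`XA_rel`, `a = r * a'`, `b = r * b'` by the other two, and `r = 1`: comparing `X1, X2` gives `(r ^ 2 - r) * x0 * c * a' * b' = 0`,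
so `r = 1` if `x0 ≠ 0`; if `x0 = 0`, then `X4` gives `(r ^ 2 - r) * (x2 + x3) * (c + d) * a' * b' = 0`, and `x2 + x3 = 0` would
give `x2 = x3 = 0` by `Iso`. -/
theorem XA_inj : ∃ C : ℝ, 0 < C ∧ ∀ (K : Type) [Field K] [Fintype K] (z : W5 K), z.Iso → (z.x1 ≠ 0 ∨ z.x2 ≠ 0) →
    (z.x0 ≠ 0 ∨ z.x2 ≠ 0) → ∃ E : Finset (Fin 4 → K), (E.card : ℝ) ≤ C * qr K ^ 3 ∧
      ∀ y y' : Fin 4 → K, y ∉ E → y' ∉ E → y 3 = y' 3 → ∀ r : K, r ≠ 0 →
        Lt.X .a y z = (Lt.X .a y' z).sm r → y = y' := by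
  refine ⟨9, by norm_num, fun K _ _ z hz h1 h0 => ⟨bsq1_E z, bsq1_card z h1 h0, ?_⟩⟩
  intro y y' hy hy' e3 r hr e
  exact bsq1_inj hz h0 hy hy' e3 hr e

/-- The case of the letter `a`. -/
private theorem bsq1_a {K : Type} [Field K] [Fintype K] (z : W5 K) (hz : z.Iso)
    (h1 : ¬ (z.x1 = 0 ∧ z.x2 = 0)) : ∃ (i : Fin 4) (E : Finset (Fin 4 → K)),
      (E.card : ℝ) ≤ 9 * qr K ^ 3 ∧
      (∀ y : Fin 4 → K, y ∉ E → XA (y 0) (y 1) (y 2) (y 3) z ≠ 0) ∧
      ∀ y y' : Fin 4 → K, y ∉ E → y' ∉ E → y i = y' i → ∀ r : K, r ≠ 0 →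
        XA (y 0) (y 1) (y 2) (y 3) z = (XA (y' 0) (y' 1) (y' 2) (y' 3) z).sm r → y = y' := by
  have h1' : z.x1 ≠ 0 ∨ z.x2 ≠ 0 := not_and_or.1 h1
  by_cases h0 : z.x0 ≠ 0 ∨ z.x2 ≠ 0
  · exact ⟨3, bsq1_E z, bsq1_card z h1' h0, fun y hy => bsq1_ne hz hy,
      fun y y' hy hy' e3 r hr e => bsq1_inj hz h0 hy hy' e3 hr e⟩
  · rw [not_or, not_not, not_not] at h0
    have hx1 : z.x1 ≠ 0 := h1'.resolve_right fun h => h h0.2
    have hzs : z.sw.Iso := by
      show z.x0 * z.x4 = z.x2 * z.x1 + z.x2 * z.x3 + z.x1 * z.x3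
      have hI : z.x0 * z.x4 = z.x1 * z.x2 + z.x1 * z.x3 + z.x2 * z.x3 := hz
      rw [hI]
      ring
    have hsw : ∀ a b c d : K, XA a b c d z = XA c d a b z.sw := by
      intro a b c d
      ext <;> simp only [XA, W5.sw] <;> ring
    let p : (Fin 4 → K) → (Fin 4 → K) := fun y => ![y 2, y 3, y 0, y 1]
    have hpp : ∀ y, p (p y) = y := by
      intro y
      funext j
      fin_cases j <;> rfl
    have hpi : Function.Injective p := fun y y' h => by rw [← hpp y, h, hpp y']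
    refine ⟨1, (bsq1_E z.sw).image p, ?_, ?_, ?_⟩
    · have h2 : ((bsq1_E z.sw).image p).card = (bsq1_E z.sw).card :=
        Finset.card_image_of_injective _ hpi
      rw [h2]
      exact bsq1_card z.sw (Or.inr hx1) (Or.inr hx1)
    · intro y hy
      rw [hsw]
      have h2 : p y ∉ bsq1_E z.sw := fun h => hy (Finset.mem_image.2 ⟨p y, h, hpp y⟩)
      exact bsq1_ne hzs h2
    · intro y y' hy hy' e1 r hr e
      have h2 : p y ∉ bsq1_E z.sw := fun h => hy (Finset.mem_image.2 ⟨p y, h, hpp y⟩)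
      have h2' : p y' ∉ bsq1_E z.sw := fun h => hy' (Finset.mem_image.2 ⟨p y', h, hpp y'⟩)
      rw [hsw, hsw] at e
      exact hpi (bsq1_inj hzs (Or.inr hx1) h2 h2' e1 hr e)

/-- The same in general: `i` is the index of the coordinate which is fixed (`3` or, by the exchange of the terminals `1`
and `2`, `XA a b c d (sw z) = XA c d a b z`, `1`). -/
theorem X_inj : ∃ C : ℝ, 0 < C ∧ ∀ (K : Type) [Field K] [Fintype K] (x : Lt) (z : W5 K), x ≠ .h → z ∈ IS K →
    ¬ bad x z → ∃ (i : Fin x.n) (E : Finset (Fin x.n → K)), (E.card : ℝ) ≤ C * qr K ^ 3 ∧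
      (∀ y : Fin x.n → K, y ∉ E → x.X y z ≠ 0) ∧
      ∀ y y' : Fin x.n → K, y ∉ E → y' ∉ E → y i = y' i → ∀ r : K, r ≠ 0 →
        x.X y z = (x.X y' z).sm r → y = y' := by
  refine ⟨9, by norm_num, fun K _ _ x z hx hz hb => ?_⟩
  have hI : z.x0 * z.x4 = z.x1 * z.x2 + z.x1 * z.x3 + z.x2 * z.x3 := (mem_IS.1 hz).1
  have htr : ∀ (w : W5 K) (r : K), (w.sm r).rt = w.rt.sm r := fun _ _ => rfl
  have hrt : ∀ (w : W5 K) (r : K), (w.sm r).tr = w.tr.sm r := fun _ _ => rfl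
  cases x with
  | a => exact bsq1_a z hI hb
  | b =>
    have hJ : z.rt.Iso := by
      show z.x0 * z.x4 = z.x2 * z.x3 + z.x2 * z.x1 + z.x3 * z.x1
      rw [hI]
      ring
    obtain ⟨i, E, h1, h2, h3⟩ := bsq1_a z.rt hJ hb
    refine ⟨i, E, h1, ?_, ?_⟩
    · intro y hy h
      exact h2 y hy (congrArg W5.rt h)
    · intro y y' hy hy' e r hr h
      exact h3 y y' hy hy' e r hr (congrArg W5.rt h)
  | c =>
    have hJ : z.tr.Iso := by
      show z.x0 * z.x4 = z.x3 * z.x1 + z.x3 * z.x2 + z.x1 * z.x2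
      rw [hI]
      ring
    obtain ⟨i, E, h1, h2, h3⟩ := bsq1_a z.tr hJ hb
    refine ⟨i, E, h1, ?_, ?_⟩
    · intro y hy h
      exact h2 y hy (congrArg W5.tr h)
    · intro y y' hy hy' e r hr h
      exact h3 y y' hy hy' e r hr (congrArg W5.tr h)
  | h => exact absurd rfl hx

private theorem bsq2_sm {K : Type} [Field K] (w : W5 K) (r s : K) :
    (w.sm s).sm r = w.sm (r * s) := by
  ext <;> simp only [W5.sm] <;> ring

private theorem bsq2_one {K : Type} [Field K] (w : W5 K) : w.sm 1 = w := by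
  ext <;> simp only [W5.sm] <;> ring

private theorem bsq2_cancel {K : Type} [Field K] {w : W5 K} (hw : w ≠ 0) {r s : K}
    (h : w.sm r = w.sm s) : r = s := by
  by_contra hne
  have hrs : r - s ≠ 0 := sub_ne_zero.2 hne
  apply hw
  have h0 := congrArg W5.x0 h
  have h1 := congrArg W5.x1 h
  have h2 := congrArg W5.x2 h
  have h3 := congrArg W5.x3 h
  have h4 := congrArg W5.x4 h
  simp only [W5.sm] at h0 h1 h2 h3 h4
  have key : ∀ t : K, r * t = s * t → t = 0 := by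
    intro t ht
    have h5 : (r - s) * t = 0 := by linear_combination ht
    exact (mul_eq_zero.1 h5).resolve_left hrs
  ext
  · exact key _ h0
  · exact key _ h1
  · exact key _ h2
  · exact key _ h3
  · exact key _ h4

/-- The quadruples with one given coordinate. -/
private theorem bsq2_fib {K : Type} [Field K] [Fintype K] (i : Fin 4) (d : K) :
    (((Finset.univ : Finset (Fin 4 → K)).filter fun y => y i = d).card : ℝ) = qr K ^ 3 := by
  have h1 : ((Finset.univ : Finset (Fin 4 → K)).filter fun y => y i = d) =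
      Fintype.piFinset (fun j => if j = i then ({d} : Finset K) else Finset.univ) := by
    ext y
    rw [Finset.mem_filter, Fintype.mem_piFinset]
    constructor
    · rintro ⟨-, h⟩ j
      by_cases hj : j = i
      · subst hj
        rw [if_pos rfl, h]
        exact Finset.mem_singleton_self d
      · rw [if_neg hj]
        exact Finset.mem_univ _
    · intro h
      refine ⟨Finset.mem_univ _, ?_⟩
      have := h i
      rw [if_pos rfl, Finset.mem_singleton] at this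
      exact this
  rw [h1, Fintype.card_piFinset]
  unfold qr
  push_cast
  have h2 : ∀ j : Fin 4, (((if j = i then ({d} : Finset K) else Finset.univ).card : ℕ) : ℝ) =
      if j = i then 1 else (Fintype.card K : ℝ) := by
    intro j
    by_cases hj : j = i
    · rw [if_pos hj, if_pos hj, Finset.card_singleton, Nat.cast_one]
    · rw [if_neg hj, if_neg hj, Finset.card_univ]
  rw [Finset.prod_congr rfl fun j _ => h2 j]
  rw [Finset.prod_ite, Finset.prod_const_one, one_mul, Finset.prod_const]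
  congr 1
  have h3 : (Finset.univ.filter fun j : Fin 4 => ¬ j = i) = Finset.univ.erase i := by
    ext j
    simp
  rw [h3, Finset.card_erase_of_mem (Finset.mem_univ _), Finset.card_univ, Fintype.card_fin]

/-- The abstract form of the contraction. -/
private theorem bsq2_abs {K : Type} [Field K] [Fintype K] {n : ℕ} (hn : n = 4)
    (X : (Fin n → K) → W5 K) (i : Fin n) (E : Finset (Fin n → K)) {C : ℝ} (hC : 0 < C)
    (hE : (E.card : ℝ) ≤ C * qr K ^ 3) (h1 : ∀ y, y ∉ E → X y ∈ IS K)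
    (h2 : ∀ y y', y ∉ E → y' ∉ E → y i = y' i → ∀ r : K, r ≠ 0 → X y = (X y').sm r → y = y')
    {f : W5 K → ℝ} (hf : Hm f) (h0 : ∑ w ∈ IS K, f w = 0) :
    (∑ y, f (X y)) ^ 2 ≤ 2 * C * qr K ^ 3 * (∑ y, f (X y) ^ 2) +
      4 * (3 + C) * qr K ^ 3 * N2 f := by
  subst hn
  have hq : (2 : ℝ) ≤ qr K := by
    unfold qr
    exact_mod_cast Fintype.one_lt_card (α := K)
  have hN : 0 ≤ N2 f := Finset.sum_nonneg fun _ _ => sq_nonneg _
  -- the part over `E`
  have hA : (∑ y ∈ E, f (X y)) ^ 2 ≤ C * qr K ^ 3 * ∑ y, f (X y) ^ 2 := by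
    have e1 : (∑ y ∈ E, f (X y)) ^ 2 ≤ (E.card : ℝ) * ∑ y ∈ E, f (X y) ^ 2 :=
      sq_sum_le_card_mul_sum_sq
    have e2 : ∑ y ∈ E, f (X y) ^ 2 ≤ ∑ y, f (X y) ^ 2 :=
      Finset.sum_le_sum_of_subset_of_nonneg (Finset.subset_univ _) fun _ _ _ => sq_nonneg _
    have e3 : 0 ≤ ∑ y ∈ E, f (X y) ^ 2 := Finset.sum_nonneg fun _ _ => sq_nonneg _
    calc (∑ y ∈ E, f (X y)) ^ 2 ≤ (E.card : ℝ) * ∑ y ∈ E, f (X y) ^ 2 := e1
      _ ≤ (C * qr K ^ 3) * ∑ y ∈ E, f (X y) ^ 2 := mul_le_mul_of_nonneg_right hE e3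
      _ ≤ (C * qr K ^ 3) * ∑ y, f (X y) ^ 2 := mul_le_mul_of_nonneg_left e2 (by positivity)
  -- the part over the fibres
  let Ac : K → Finset (Fin 4 → K) := fun d => (Finset.univ.filter fun y => y ∉ E).filter fun y => y i = d
  let Ec : K → Finset (Fin 4 → K) := fun d => E.filter fun y => y i = d
  have hmemA : ∀ d y, y ∈ Ac d ↔ y ∉ E ∧ y i = d := by
    intro d y
    simp only [Ac, Finset.mem_filter, Finset.mem_univ, true_and]
  have hcard : ∀ d, ((Ac d).card : ℝ) + (Ec d).card = qr K ^ 3 := by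
    intro d
    have e1 : (Ac d) ∪ (Ec d) = Finset.univ.filter fun y : Fin 4 → K => y i = d := by
      ext y
      simp only [Ac, Ec, Finset.mem_union, Finset.mem_filter, Finset.mem_univ, true_and]
      tauto
    have e2 : Disjoint (Ac d) (Ec d) := by
      rw [Finset.disjoint_left]
      intro y hy hy'
      exact ((hmemA d y).1 hy).1 (Finset.mem_filter.1 hy').1
    rw [← bsq2_fib i d, ← e1, Finset.card_union_of_disjoint e2]
    push_cast
    rfl
  have hB : ∀ d, (qr K - 1) * (∑ y ∈ Ac d, f (X y)) ^ 2 ≤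
      (qr K ^ 2 + qr K + 1 + (Ec d).card) * N2 f := by
    intro d
    let R : Finset K := Finset.univ.filter fun r => r ≠ 0
    have hR : (R.card : ℝ) = qr K - 1 := by
      have e1 : R = Finset.univ.erase 0 := by
        ext r
        simp [R]
      rw [e1, Finset.card_erase_of_mem (Finset.mem_univ _), Finset.card_univ]
      unfold qr
      rw [Nat.cast_sub Fintype.card_pos, Nat.cast_one]
    let g : K × (Fin 4 → K) → W5 K := fun a => (X a.2).sm a.1
    have hinj : Set.InjOn g (R ×ˢ Ac d : Finset (K × (Fin 4 → K))) := by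
      rintro ⟨r, y⟩ ha ⟨r', y'⟩ ha' e
      rw [Finset.mem_coe, Finset.mem_product] at ha ha'
      have hr : r ≠ 0 := (Finset.mem_filter.1 ha.1).2
      have hr' : r' ≠ 0 := (Finset.mem_filter.1 ha'.1).2
      obtain ⟨hy, hyd⟩ := (hmemA d y).1 ha.2
      obtain ⟨hy', hyd'⟩ := (hmemA d y').1 ha'.2
      have e' : (X y).sm r = (X y').sm r' := e
      have e1 : X y = (X y').sm (r⁻¹ * r') := by
        rw [← bsq2_sm, ← e', bsq2_sm, inv_mul_cancel₀ hr, bsq2_one]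
      have e2 : y = y' := h2 y y' hy hy' (hyd.trans hyd'.symm) (r⁻¹ * r')
        (mul_ne_zero (inv_ne_zero hr) hr') e1
      subst e2
      have e3 : r = r' := bsq2_cancel (mem_IS.1 (h1 y hy)).2 e'
      rw [e3]
    let T : Finset (W5 K) := (R ×ˢ Ac d).image g
    have hT : T ⊆ IS K := by
      intro w hw
      obtain ⟨⟨r, y⟩, ha, rfl⟩ := Finset.mem_image.1 hw
      rw [Finset.mem_product] at ha
      have hr : r ≠ 0 := (Finset.mem_filter.1 ha.1).2
      obtain ⟨hy, -⟩ := (hmemA d y).1 ha.2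
      obtain ⟨i1, i2⟩ := mem_IS.1 (h1 y hy)
      refine mem_IS.2 ⟨?_, ?_⟩
      · have i3 : (X y).x0 * (X y).x4 =
          (X y).x1 * (X y).x2 + (X y).x1 * (X y).x3 + (X y).x2 * (X y).x3 := i1
        show (r * (X y).x0) * (r * (X y).x4) = (r * (X y).x1) * (r * (X y).x2) +
          (r * (X y).x1) * (r * (X y).x3) + (r * (X y).x2) * (r * (X y).x3)
        linear_combination r ^ 2 * i3
      · intro h
        apply i2
        have h' : (X y).sm r = 0 := h
        have h3 := bsq2_sm (X y) r⁻¹ r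
        rw [h', inv_mul_cancel₀ hr, bsq2_one] at h3
        rw [← h3]
        show (⟨r⁻¹ * 0, r⁻¹ * 0, r⁻¹ * 0, r⁻¹ * 0, r⁻¹ * 0⟩ : W5 K) = ⟨0, 0, 0, 0, 0⟩
        simp only [mul_zero]
    have hTc : (T.card : ℝ) = (qr K - 1) * (Ac d).card := by
      rw [Finset.card_image_of_injOn hinj, Finset.card_product]
      push_cast
      rw [hR]
    have hTs : ∑ w ∈ T, f w = (qr K - 1) * ∑ y ∈ Ac d, f (X y) := by
      rw [Finset.sum_image fun a ha b hb h => hinj ha hb h, Finset.sum_product]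
      have e1 : ∀ r ∈ R, ∑ y ∈ Ac d, f (g (r, y)) = ∑ y ∈ Ac d, f (X y) := by
        intro r hr
        exact Finset.sum_congr rfl fun y _ => hf.2 r (X y) (Finset.mem_filter.1 hr).2
      rw [Finset.sum_congr rfl e1, Finset.sum_const, nsmul_eq_mul, hR]
    have hs : ∑ w ∈ IS K \ T, f w = -((qr K - 1) * ∑ y ∈ Ac d, f (X y)) := by
      have e1 := Finset.sum_sdiff (f := f) hT
      rw [h0, hTs] at e1
      linarith
    have hc : (((IS K \ T).card : ℕ) : ℝ) = (qr K - 1) * (qr K ^ 2 + qr K + 1 + (Ec d).card) := by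
      rw [Finset.card_sdiff_of_subset hT, Nat.cast_sub (Finset.card_le_card hT), card_IS, hTc]
      have := hcard d
      have e2 : ((Ac d).card : ℝ) = qr K ^ 3 - (Ec d).card := by linarith
      rw [e2]
      ring
    have e3 : (∑ w ∈ IS K \ T, f w) ^ 2 ≤ ((IS K \ T).card : ℝ) * ∑ w ∈ IS K \ T, f w ^ 2 :=
      sq_sum_le_card_mul_sum_sq
    have e4 : ∑ w ∈ IS K \ T, f w ^ 2 ≤ N2 f :=
      Finset.sum_le_sum_of_subset_of_nonneg Finset.sdiff_subset fun _ _ _ => sq_nonneg _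
    rw [hs, hc] at e3
    have e5 : (qr K - 1) * ((qr K - 1) * (∑ y ∈ Ac d, f (X y)) ^ 2) ≤
        (qr K - 1) * ((qr K ^ 2 + qr K + 1 + (Ec d).card) * N2 f) := by
      have e6 : (0 : ℝ) ≤ (qr K - 1) * (qr K ^ 2 + qr K + 1 + (Ec d).card) := by
        have : (0 : ℝ) ≤ ((Ec d).card : ℝ) := Nat.cast_nonneg _
        have e7 : (0 : ℝ) ≤ qr K - 1 := by linarith
        positivity
      have e7 := mul_le_mul_of_nonneg_left e4 e6
      nlinarith [e3, e7]
    exact le_of_mul_le_mul_left e5 (by linarith)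
  have hsum : ∑ y, f (X y) = ∑ y ∈ E, f (X y) + ∑ d, ∑ y ∈ Ac d, f (X y) := by
    have e1 : ∑ d, ∑ y ∈ Ac d, f (X y) = ∑ y ∈ Finset.univ.filter (fun y => y ∉ E), f (X y) :=
      Finset.sum_fiberwise _ (fun y : Fin 4 → K => y i) (fun y => f (X y))
    have e2 : Finset.univ.filter (fun y : Fin 4 → K => y ∈ E) = E := by
      ext y
      simp
    rw [e1, ← Finset.sum_filter_add_sum_filter_not Finset.univ (fun y => y ∈ E), e2]
  have hEc : ∑ d, ((Ec d).card : ℝ) = E.card := by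
    have e1 := Finset.card_eq_sum_card_fiberwise (s := E) (t := Finset.univ)
      (f := fun y : Fin 4 → K => y i) (fun _ _ => Finset.mem_coe.2 (Finset.mem_univ _))
    rw [e1]
    push_cast
    rfl
  have hD : (qr K - 1) * (∑ d, ∑ y ∈ Ac d, f (X y)) ^ 2 ≤
      qr K * ((3 + C) * qr K ^ 3 * N2 f) := by
    have e1 : (∑ d : K, ∑ y ∈ Ac d, f (X y)) ^ 2 ≤
        ((Finset.univ : Finset K).card : ℝ) * ∑ d : K, (∑ y ∈ Ac d, f (X y)) ^ 2 :=
      sq_sum_le_card_mul_sum_sq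
    have e2 : ((Finset.univ : Finset K).card : ℝ) = qr K := by
      rw [Finset.card_univ]
      rfl
    rw [e2] at e1
    have e3 : (qr K - 1) * ∑ d : K, (∑ y ∈ Ac d, f (X y)) ^ 2 ≤
        ∑ d : K, (qr K ^ 2 + qr K + 1 + (Ec d).card) * N2 f := by
      rw [Finset.mul_sum]
      exact Finset.sum_le_sum fun d _ => hB d
    have e4 : ∑ d : K, (qr K ^ 2 + qr K + 1 + (Ec d).card) * N2 f =
        (qr K * (qr K ^ 2 + qr K + 1) + E.card) * N2 f := by
      rw [← Finset.sum_mul, Finset.sum_add_distrib, hEc, Finset.sum_const, nsmul_eq_mul, e2]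
    have e5 : (qr K * (qr K ^ 2 + qr K + 1) + E.card) ≤ (3 + C) * qr K ^ 3 := by
      have e6 : qr K * (qr K ^ 2 + qr K + 1) ≤ 3 * qr K ^ 3 := by nlinarith [hq, sq_nonneg (qr K)]
      linarith
    have e6 := mul_le_mul_of_nonneg_right e5 hN
    calc (qr K - 1) * (∑ d, ∑ y ∈ Ac d, f (X y)) ^ 2 ≤
        (qr K - 1) * (qr K * ∑ d : K, (∑ y ∈ Ac d, f (X y)) ^ 2) :=
          mul_le_mul_of_nonneg_left e1 (by linarith)
      _ = qr K * ((qr K - 1) * ∑ d : K, (∑ y ∈ Ac d, f (X y)) ^ 2) := by ring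
      _ ≤ qr K * ((3 + C) * qr K ^ 3 * N2 f) :=
          mul_le_mul_of_nonneg_left (e3.trans (e4.le.trans e6)) (by linarith)
  have hD' : (∑ d, ∑ y ∈ Ac d, f (X y)) ^ 2 ≤ 2 * ((3 + C) * qr K ^ 3 * N2 f) := by
    have e1 : (0 : ℝ) ≤ (3 + C) * qr K ^ 3 * N2 f := by positivity
    have e2 : qr K ≤ 2 * (qr K - 1) := by linarith
    have e3 : (qr K - 1) * (∑ d, ∑ y ∈ Ac d, f (X y)) ^ 2 ≤
        (qr K - 1) * (2 * ((3 + C) * qr K ^ 3 * N2 f)) := by
      have e4 := mul_le_mul_of_nonneg_right e2 e1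
      linarith
    exact le_of_mul_le_mul_left e3 (by linarith)
  rw [hsum]
  nlinarith [sq_nonneg (∑ y ∈ E, f (X y) - ∑ d, ∑ y ∈ Ac d, f (X y)), hA, hD']

/-- The contraction.  Let `g = q ^ 4 * x.op f z = ∑ y, f (X y z)`.  The part over `E` is at most
`(#E * ∑ y, f (X y z) ^ 2) ^ (1 / 2)`.  For a fixed value `d` of `y i` the lines of the vectors `X y z`, `y ∉ E`, are different,
so `∑ f (X y z)` over these `y` is `1 / (q - 1)` times the sum of `f` over a union of `q ^ 3 - #E_d` lines, which is minus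
`1 / (q - 1)` times the sum over the `q ^ 2 + q + 1 + #E_d` other lines, at most
`(q - 1) ^ (-1) * ((q - 1) * (q ^ 2 + q + 1 + #E_d) * N2 f) ^ (1 / 2)`; sum over `d` by Cauchy-Schwarz. -/
theorem sq_bound : ∃ C : ℝ, 0 < C ∧ ∀ (K : Type) [Field K] [Fintype K] (x : Lt) (f : W5 K → ℝ) (z : W5 K), x ≠ .h →
    Hm f → ∑ w ∈ IS K, f w = 0 → z ∈ IS K → ¬ bad x z →
      x.op f z ^ 2 ≤ C / qr K * (x.op (fun v => f v ^ 2) z + N2 f / qr K ^ 4) := by
  obtain ⟨C, hC, hX⟩ := X_inj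
  refine ⟨4 * (3 + C), by positivity, fun K _ _ x f z hx hf h0 hz hb => ?_⟩
  obtain ⟨i, E, hE, hne, hinj⟩ := hX K x z hx hz hb
  have hn : x.n = 4 := by
    cases x with
    | a => rfl
    | b => rfl
    | c => rfl
    | h => exact absurd rfl hx
  have hq : (2 : ℝ) ≤ qr K := by
    unfold qr
    exact_mod_cast Fintype.one_lt_card (α := K)
  have hq0 : qr K ≠ 0 := by linarith
  have hmain := bsq2_abs hn (fun y => x.X y z) i E hC hE
    (fun y hy => mem_IS.2 ⟨X_iso x y (mem_IS.1 hz).1, hne y hy⟩)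
    (fun y y' hy hy' e r hr h => hinj y y' hy hy' e r hr h) hf h0
  have hN : 0 ≤ N2 f := Finset.sum_nonneg fun _ _ => sq_nonneg _
  have hs : 0 ≤ ∑ y, f (x.X y z) ^ 2 := Finset.sum_nonneg fun _ _ => sq_nonneg _
  have hq4 : qr K ^ x.n = qr K ^ 4 := by rw [hn]
  have e1 : x.op f z = (∑ y, f (x.X y z)) / qr K ^ 4 := by
    unfold Lt.op
    rw [hq4]
  have e2 : x.op (fun v => f v ^ 2) z = (∑ y, f (x.X y z) ^ 2) / qr K ^ 4 := by
    unfold Lt.op
    rw [hq4]
  rw [e1, e2]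
  have e3 : 4 * (3 + C) / qr K * ((∑ y, f (x.X y z) ^ 2) / qr K ^ 4 + N2 f / qr K ^ 4) =
      (4 * (3 + C) * qr K ^ 3 * ((∑ y, f (x.X y z) ^ 2) + N2 f)) / (qr K ^ 4) ^ 2 := by
    field_simp
  rw [e3, div_pow]
  refine div_le_div_of_nonneg_right ?_ (by positivity)
  have e4 : 2 * C * qr K ^ 3 * (∑ y, f (x.X y z) ^ 2) ≤
      4 * (3 + C) * qr K ^ 3 * (∑ y, f (x.X y z) ^ 2) := by
    have e5 : 2 * C * qr K ^ 3 ≤ 4 * (3 + C) * qr K ^ 3 := by
      have : (0 : ℝ) ≤ qr K ^ 3 := by positivity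
      nlinarith
    exact mul_le_mul_of_nonneg_right e5 hs
  have e6 : (∑ y, f (x.X y z)) ^ 2 ≤ 2 * C * qr K ^ 3 * (∑ y, f (x.X y z) ^ 2) +
      4 * (3 + C) * qr K ^ 3 * N2 f := hmain
  calc (∑ y, f (x.X y z)) ^ 2 ≤ 2 * C * qr K ^ 3 * (∑ y, f (x.X y z) ^ 2) +
      4 * (3 + C) * qr K ^ 3 * N2 f := e6
    _ ≤ 4 * (3 + C) * qr K ^ 3 * (∑ y, f (x.X y z) ^ 2) + 4 * (3 + C) * qr K ^ 3 * N2 f := by
        linarith
    _ = _ := by ring

end Pool.Agent.Pf4
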