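import Pool.Agent.Pf4.BCol
import Pool.Agent.Pf4.BSq

/-!
# The product of two different letters is a contraction
-/

set_option autoImplicit false

open scoped BigOperators Classical

namespace Pool.Agent.Pf4

private theorem BPair_op_add {K : Type} [Field K] [Fintype K] (x : Lt) (f g : W5 K → ℝ) (w : W5 K) :
    x.op (fun v => f v + g v) w = x.op f w + x.op g w := by
  unfold Lt.op
  rw [Finset.sum_add_distrib, add_div]

private theorem BPair_q2 (K : Type) [Field K] [Fintype K] : (2 : ℝ) ≤ qr K := by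
  unfold qr
  exact_mod_cast Fintype.one_lt_card (α := K)

private theorem BPair_mono {K : Type} [Field K] [Fintype K] (x : Lt) {f g : W5 K → ℝ} (h : ∀ v, f v ≤ g v)
    (w : W5 K) : x.op f w ≤ x.op g w := by
  have hq := BPair_q2 K
  unfold Lt.op
  apply div_le_div_of_nonneg_right (Finset.sum_le_sum fun y _ => h _)
  have : (0 : ℝ) ≤ qr K := by linarith
  positivity

/-- Comparison on the isotropic vectors. -/
private theorem BPair_mono_IS {K : Type} [Field K] [Fintype K] (x : Lt) {f g : W5 K → ℝ} (h0 : f 0 = 0)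
    (h0' : g 0 = 0) (h : ∀ v ∈ IS K, f v ≤ g v) {w : W5 K} (hw : w ∈ IS K) : x.op f w ≤ x.op g w := by
  have e1 : x.op f w = x.op (fun v => min (f v) (g v)) w := by
    refine op_congr x ?_ (fun v hv => ?_) hw
    · simp [h0, h0']
    · exact (min_eq_left (h v hv)).symm
  rw [e1]
  exact BPair_mono x (fun v => min_le_right _ _) w

private theorem BPair_lev (t : ℝ) (h0 : 0 ≤ t) (h1 : t ≤ 1) (l : List ℤ) :
    |lev t l| ≤ (((l.map Int.natAbs).sum : ℕ) : ℝ) := by
  induction l with
  | nil => simp [lev]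
  | cons a l ih =>
    have e1 : lev t (a :: l) = (a : ℝ) + t * lev t l := rfl
    rw [e1, List.map_cons, List.sum_cons, Nat.cast_add, Nat.cast_natAbs, Int.cast_abs]
    refine (abs_add_le _ _).trans ?_
    rw [abs_mul, abs_of_nonneg h0]
    have : t * |lev t l| ≤ 1 * |lev t l| := mul_le_mul_of_nonneg_right h1 (abs_nonneg _)
    linarith

private theorem BPair_lev_one (t : ℝ) (h0 : 0 ≤ t) (h1 : t ≤ 1) (l : List ℤ) (A : ℕ)
    (hl : l.headD 0 = 0) (hA : (l.map Int.natAbs).sum ≤ A) : |lev t l| ≤ A * t := by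
  cases l with
  | nil =>
    simp only [lev, abs_zero]
    positivity
  | cons a l =>
    have e1 : lev t (a :: l) = (a : ℝ) + t * lev t l := rfl
    have e0 : a = 0 := hl
    rw [e1, e0]
    rw [List.map_cons, List.sum_cons] at hA
    rw [Int.cast_zero, zero_add, abs_mul, abs_of_nonneg h0, mul_comm]
    apply mul_le_mul_of_nonneg_right _ h0
    refine (BPair_lev t h0 h1 l).trans ?_
    have : (l.map Int.natAbs).sum ≤ A := by omega
    exact_mod_cast this

private theorem BPair_bas01 {K : Type} [Field K] (j : Fin 20) (w : W5 K) : 0 ≤ bas j w ∧ bas j w ≤ 1 := by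
  unfold bas
  split_ifs <;> simp

private theorem BPair_sum_le {K : Type} [Field K] [Fintype K] (M : Fin 20 → ℝ) (B : ℝ) (h : ∀ j, |M j| ≤ B)
    (w : W5 K) : ∑ j : Fin 20, M j * bas j w ≤ 20 * B := by
  have hB : 0 ≤ B := (abs_nonneg _).trans (h 0)
  calc ∑ j : Fin 20, M j * bas j w ≤ ∑ _j : Fin 20, B := by
        refine Finset.sum_le_sum fun j _ => ?_
        obtain ⟨b0, b1⟩ := BPair_bas01 j w
        calc M j * bas j w ≤ |M j| * bas j w := mul_le_mul_of_nonneg_right (le_abs_self _) b0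
          _ ≤ B * 1 := mul_le_mul (h j) b1 b0 hB
          _ = B := mul_one B
    _ = 20 * B := by simp

/-- The vector of a basis function. -/
private noncomputable def BPair_c (i : Fin 20) : Fin 20 → ℝ := fun j => if j = i then 1 else 0

private theorem BPair_c_sum {K : Type} [Field K] (i : Fin 20) (v : W5 K) :
    ∑ j, BPair_c i j * bas j v = bas i v := by
  unfold BPair_c
  simp

private theorem BPair_a {K : Type} [Field K] [Fintype K] (i : Fin 20) (hi : i = 9 ∨ i = 10 ∨ i = 12 ∨ i = 13)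
    {w : W5 K} (hw : w ∈ IS K) : Lt.a.op (fun v => bas i v) w ≤ 800 / qr K := by
  have hq := BPair_q2 K
  have hq0 : (0 : ℝ) < qr K := by linarith
  have ht0 : 0 < (qr K)⁻¹ := inv_pos.mpr hq0
  have ht1 : (qr K)⁻¹ ≤ 1 := inv_le_one_of_one_le₀ (by linarith)
  have h := opa_bas (K := K) (BPair_c i) (by
    rcases hi with rfl | rfl | rfl | rfl <;> simp [BPair_c]) (by
    rcases hi with rfl | rfl | rfl | rfl <;> simp [BPair_c]) (by
    rcases hi with rfl | rfl | rfl | rfl <;> simp [BPair_c]) hw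
  have e : (fun v : W5 K => ∑ j, BPair_c i j * bas j v) = fun v => bas i v := funext fun v => BPair_c_sum i v
  rw [e] at h
  rw [h]
  have hb : ∀ i : Fin 20, (i = 9 ∨ i = 10 ∨ i = 12 ∨ i = 13) → ∀ j : Fin 20,
      ((matA.getD i []).getD j []).headD 0 = 0 ∧ (((matA.getD i []).getD j []).map Int.natAbs).sum ≤ 40 := by
    decide
  refine (BPair_sum_le _ (40 * (qr K)⁻¹) (fun j => ?_) w).trans (le_of_eq ?_)
  · have e2 : ∑ k : Fin 20, BPair_c i k * lev (qr K)⁻¹ ((matA.getD k []).getD j []) =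
        lev (qr K)⁻¹ ((matA.getD i []).getD j []) := by
      unfold BPair_c
      simp
    rw [e2]
    have := BPair_lev_one _ ht0.le ht1 _ 40 (hb i hi j).1 (hb i hi j).2
    exact_mod_cast this
  · rw [div_eq_mul_inv]
    ring

private theorem BPair_h {K : Type} [Field K] [Fintype K] (i : Fin 20) (hi : 9 ≤ i.1 ∧ i.1 ≤ 14)
    {w : W5 K} (hw : w ∈ IS K) : Lt.h.op (fun v => bas i v) w ≤ 800 / qr K := by
  have hq := BPair_q2 K
  have hq0 : (0 : ℝ) < qr K := by linarith
  have ht0 : 0 < (qr K)⁻¹ := inv_pos.mpr hq0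
  have ht1 : (qr K)⁻¹ ≤ 1 := inv_le_one_of_one_le₀ (by linarith)
  have h := oph_bas (K := K) (BPair_c i) (by
    intro j hj
    unfold BPair_c
    rw [if_neg]
    rintro rfl
    omega) hw
  have e : (fun v : W5 K => ∑ j, BPair_c i j * bas j v) = fun v => bas i v := funext fun v => BPair_c_sum i v
  rw [e] at h
  rw [h]
  have hb : ∀ i : Fin 20, (9 ≤ i.1 ∧ i.1 ≤ 14) → ∀ j : Fin 20,
      ((matH.getD i []).getD j []).headD 0 = 0 ∧ (((matH.getD i []).getD j []).map Int.natAbs).sum ≤ 40 := by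
    decide
  refine (BPair_sum_le _ (40 * (qr K)⁻¹) (fun j => ?_) w).trans (le_of_eq ?_)
  · have e2 : ∑ k : Fin 20, BPair_c i k * lev (qr K)⁻¹ ((matH.getD k []).getD j []) =
        lev (qr K)⁻¹ ((matH.getD i []).getD j []) := by
      unfold BPair_c
      simp
    rw [e2]
    have := BPair_lev_one _ ht0.le ht1 _ 40 (hb i hi j).1 (hb i hi j).2
    exact_mod_cast this
  · rw [div_eq_mul_inv]
    ring

private theorem BPair_IS_rt {K : Type} [Field K] [Fintype K] {w : W5 K} (hw : w ∈ IS K) : w.rt ∈ IS K := by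
  obtain ⟨h1, h2⟩ := mem_IS.mp hw
  refine mem_IS.mpr ⟨?_, ?_⟩
  · unfold W5.Iso W5.rt at *
    simp only
    rw [h1]
    ring
  · intro h
    apply h2
    exact congrArg W5.tr h

private theorem BPair_IS_tr {K : Type} [Field K] [Fintype K] {w : W5 K} (hw : w ∈ IS K) : w.tr ∈ IS K :=
  BPair_IS_rt (BPair_IS_rt hw)

private theorem BPair_b {K : Type} [Field K] [Fintype K] (f : W5 K → ℝ) (w : W5 K) :
    Lt.b.op f w = Lt.a.op (fun v => f v.tr) w.rt := rfl

private theorem BPair_cc {K : Type} [Field K] [Fintype K] (f : W5 K → ℝ) (w : W5 K) :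
    Lt.c.op f w = Lt.a.op (fun v => f v.rt) w.tr := rfl

/-- The two lines of a letter. -/
private def BPair_i : Lt → Fin 20 × Fin 20
  | .a => (11, 14)
  | .b => (9, 12)
  | .c => (10, 13)
  | .h => (0, 0)

private theorem BPair_ind {K : Type} [Field K] [Fintype K] (x : Lt) (hx : x ≠ .h) {v : W5 K} (hv : v ∈ IS K) :
    (if v ≠ 0 ∧ bad x v then (1 : ℝ) else 0) ≤ bas (BPair_i x).1 v + bas (BPair_i x).2 v := by
  have h1 := (BPair_bas01 (BPair_i x).1 v).1
  have h2 := (BPair_bas01 (BPair_i x).2 v).1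
  by_cases hb : v ≠ 0 ∧ bad x v
  · rw [if_pos hb]
    obtain ⟨hiso, hv0⟩ := mem_IS.mp hv
    have key : bas (BPair_i x).1 v = 1 ∨ bas (BPair_i x).2 v = 1 := by
      unfold W5.Iso at hiso
      cases x with
      | a =>
        obtain ⟨-, b1, b2⟩ := hb
        have e : v.x0 * v.x4 = 0 := by rw [hiso, b1, b2]; ring
        rcases mul_eq_zero.mp e with e | e
        · left
          unfold bas
          rw [if_pos]
          exact ⟨hv0, e, b1, b2⟩
        · right
          unfold bas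
          rw [if_pos]
          exact ⟨hv0, e, b1, b2⟩
      | b =>
        obtain ⟨-, b1, b2⟩ := hb
        have e : v.x0 * v.x4 = 0 := by rw [hiso, b1, b2]; ring
        rcases mul_eq_zero.mp e with e | e
        · left
          unfold bas
          rw [if_pos]
          exact ⟨hv0, e, b1, b2⟩
        · right
          unfold bas
          rw [if_pos]
          exact ⟨hv0, e, b1, b2⟩
      | c =>
        obtain ⟨-, b1, b2⟩ := hb
        have e : v.x0 * v.x4 = 0 := by rw [hiso, b1, b2]; ring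
        rcases mul_eq_zero.mp e with e | e
        · left
          unfold bas
          rw [if_pos]
          exact ⟨hv0, e, b2, b1⟩
        · right
          unfold bas
          rw [if_pos]
          exact ⟨hv0, e, b2, b1⟩
      | h => exact absurd rfl hx
    rcases key with key | key <;> linarith
  · rw [if_neg hb]
    linarith

private theorem BPair_bas_zero {K : Type} [Field K] (j : Fin 20) : bas j (0 : W5 K) = 0 := by
  unfold bas
  simp

private theorem BPair_rt {K : Type} [Field K] [Fintype K] (w : W5 K) :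
    bas 9 w.rt = bas 10 w ∧ bas 10 w.rt = bas 11 w ∧ bas 11 w.rt = bas 9 w ∧
    bas 12 w.rt = bas 13 w ∧ bas 13 w.rt = bas 14 w ∧ bas 14 w.rt = bas 12 w :=
  ⟨bas_rt 9 w, bas_rt 10 w, bas_rt 11 w, bas_rt 12 w, bas_rt 13 w, bas_rt 14 w⟩

private theorem BPair_tr {K : Type} [Field K] [Fintype K] (w : W5 K) :
    bas 10 w.tr = bas 9 w ∧ bas 11 w.tr = bas 10 w ∧ bas 9 w.tr = bas 11 w ∧
    bas 13 w.tr = bas 12 w ∧ bas 14 w.tr = bas 13 w ∧ bas 12 w.tr = bas 14 w := by
  obtain ⟨h1, h2, h3, h4, h5, h6⟩ := BPair_rt w.tr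
  exact ⟨h1.symm, h2.symm, h3.symm, h4.symm, h5.symm, h6.symm⟩

private theorem BPair_one {K : Type} [Field K] [Fintype K] (x y : Lt) (hx : x ≠ .h) (hy : y ≠ x) {w : W5 K}
    (hw : w ∈ IS K) :
    y.op (fun v => bas (BPair_i x).1 v) w ≤ 800 / qr K ∧ y.op (fun v => bas (BPair_i x).2 v) w ≤ 800 / qr K := by
  cases y with
  | a =>
    cases x with
    | a => exact absurd rfl hy
    | b => exact ⟨BPair_a 9 (by simp) hw, BPair_a 12 (by simp) hw⟩
    | c => exact ⟨BPair_a 10 (by simp) hw, BPair_a 13 (by simp) hw⟩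
    | h => exact absurd rfl hx
  | b =>
    cases x with
    | a =>
      rw [BPair_b, BPair_b]
      have e1 : (fun v : W5 K => bas (BPair_i .a).1 v.tr) = fun v => bas 10 v := funext fun v => (BPair_tr v).2.1
      have e2 : (fun v : W5 K => bas (BPair_i .a).2 v.tr) = fun v => bas 13 v := funext fun v => (BPair_tr v).2.2.2.2.1
      rw [e1, e2]
      exact ⟨BPair_a 10 (by simp) (BPair_IS_rt hw), BPair_a 13 (by simp) (BPair_IS_rt hw)⟩
    | b => exact absurd rfl hy
    | c =>
      rw [BPair_b, BPair_b]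
      have e1 : (fun v : W5 K => bas (BPair_i .c).1 v.tr) = fun v => bas 9 v := funext fun v => (BPair_tr v).1
      have e2 : (fun v : W5 K => bas (BPair_i .c).2 v.tr) = fun v => bas 12 v := funext fun v => (BPair_tr v).2.2.2.1
      rw [e1, e2]
      exact ⟨BPair_a 9 (by simp) (BPair_IS_rt hw), BPair_a 12 (by simp) (BPair_IS_rt hw)⟩
    | h => exact absurd rfl hx
  | c =>
    cases x with
    | a =>
      rw [BPair_cc, BPair_cc]
      have e1 : (fun v : W5 K => bas (BPair_i .a).1 v.rt) = fun v => bas 9 v := funext fun v => (BPair_rt v).2.2.1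
      have e2 : (fun v : W5 K => bas (BPair_i .a).2 v.rt) = fun v => bas 12 v := funext fun v => (BPair_rt v).2.2.2.2.2
      rw [e1, e2]
      exact ⟨BPair_a 9 (by simp) (BPair_IS_tr hw), BPair_a 12 (by simp) (BPair_IS_tr hw)⟩
    | b =>
      rw [BPair_cc, BPair_cc]
      have e1 : (fun v : W5 K => bas (BPair_i .b).1 v.rt) = fun v => bas 10 v := funext fun v => (BPair_rt v).1
      have e2 : (fun v : W5 K => bas (BPair_i .b).2 v.rt) = fun v => bas 13 v := funext fun v => (BPair_rt v).2.2.2.1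
      rw [e1, e2]
      exact ⟨BPair_a 10 (by simp) (BPair_IS_tr hw), BPair_a 13 (by simp) (BPair_IS_tr hw)⟩
    | c => exact absurd rfl hy
    | h => exact absurd rfl hx
  | h =>
    cases x with
    | a => exact ⟨BPair_h 11 (by decide) hw, BPair_h 14 (by decide) hw⟩
    | b => exact ⟨BPair_h 9 (by decide) hw, BPair_h 12 (by decide) hw⟩
    | c => exact ⟨BPair_h 10 (by decide) hw, BPair_h 13 (by decide) hw⟩
    | h => exact absurd rfl hx

/-- The probability to reach the bad vectors of `x` by another letter `y`.  For isotropic vectors `bad x` is `L_i + P_i - d_i`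
(`i = 3, 1, 2` for `x = a, b, c`); in the exact formulas for `y L_i` and `y P_i` (Part A, final list), divided by `q ^ 4` or
`q ^ 6`, all coefficients are at most `C / q` in absolute value. -/
theorem bad_le : ∃ C : ℝ, 0 < C ∧ ∀ (K : Type) [Field K] [Fintype K] (x y : Lt) (w : W5 K), x ≠ .h → y ≠ x →
    w ∈ IS K → y.op (fun v => if v ≠ 0 ∧ bad x v then 1 else 0) w ≤ C / qr K := by
  refine ⟨1600, by norm_num, fun K _ _ x y w hx hy hw => ?_⟩
  obtain ⟨h1, h2⟩ := BPair_one x y hx hy hw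
  have h3 : y.op (fun v => if v ≠ 0 ∧ bad x v then (1 : ℝ) else 0) w ≤
      y.op (fun v => bas (BPair_i x).1 v + bas (BPair_i x).2 v) w := by
    refine BPair_mono_IS y (by simp) (by simp [BPair_bas_zero]) (fun v hv => BPair_ind x hx hv) hw
  rw [BPair_op_add] at h3
  have h4 : (1600 : ℝ) / qr K = 800 / qr K + 800 / qr K := by ring
  rw [h4]
  linarith

private theorem BPair_sm_zero {K : Type} [Field K] {r : K} (hr : r ≠ 0) (w : W5 K) : w.sm r = 0 ↔ w = 0 := by
  constructor
  · intro h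
    have h0 := congrArg W5.x0 h
    have h1 := congrArg W5.x1 h
    have h2 := congrArg W5.x2 h
    have h3 := congrArg W5.x3 h
    have h4 := congrArg W5.x4 h
    have e0 : w.x0 = 0 := (mul_eq_zero.mp h0).resolve_left hr
    have e1 : w.x1 = 0 := (mul_eq_zero.mp h1).resolve_left hr
    have e2 : w.x2 = 0 := (mul_eq_zero.mp h2).resolve_left hr
    have e3 : w.x3 = 0 := (mul_eq_zero.mp h3).resolve_left hr
    have e4 : w.x4 = 0 := (mul_eq_zero.mp h4).resolve_left hr
    exact W5.ext e0 e1 e2 e3 e4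
  · rintro rfl
    exact W5.ext (mul_zero r) (mul_zero r) (mul_zero r) (mul_zero r) (mul_zero r)

private theorem BPair_bad_sm {K : Type} [Field K] (x : Lt) {r : K} (hr : r ≠ 0) (w : W5 K) :
    bad x (w.sm r) ↔ bad x w := by
  cases x <;> simp [bad, W5.sm, hr]

/-- Cauchy-Schwarz. -/
private theorem BPair_cs {K : Type} [Field K] [Fintype K] (y : Lt) (a b : W5 K → ℝ) (w : W5 K) :
    y.op (fun v => a v * b v) w ^ 2 ≤ y.op (fun v => a v ^ 2) w * y.op (fun v => b v ^ 2) w := by
  have hq := BPair_q2 K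
  have hq0 : (0 : ℝ) < qr K := by linarith
  unfold Lt.op
  rw [div_pow, div_mul_div_comm, ← pow_two (qr K ^ y.n)]
  apply div_le_div_of_nonneg_right _ (by positivity)
  exact Finset.sum_mul_sq_le_sq_mul_sq (Finset.univ : Finset (Fin y.n → K))
    (fun z => a (y.X z w)) (fun z => b (y.X z w))

/-- Inner letter `a`, `b` or `c`.  Split `x f` into the part on the bad vectors of `x` (Cauchy-Schwarz for `y` and
`bad_le`, then `col`) and the rest (`sq_bound`, `N2_op`, `col`). -/
theorem pair_bound : ∃ C : ℝ, 0 < C ∧ ∀ (K : Type) [Field K] [Fintype K] (x y : Lt) (f : W5 K → ℝ), x ≠ .h → y ≠ x →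
    Hm f → ∑ w ∈ IS K, f w = 0 → N2 (y.op (x.op f)) ≤ C / qr K * N2 f := by
  obtain ⟨C1, hC1, h1⟩ := bad_le
  obtain ⟨C2, hC2, h2⟩ := col
  obtain ⟨C3, hC3, h3⟩ := N2_op
  obtain ⟨C4, hC4, h4⟩ := sq_bound
  refine ⟨2 * (C1 * C2 * C3) + 2 * (C3 * (C4 * (C2 + 1))), by positivity, fun K _ _ x y f hx hy hf hf0 => ?_⟩
  have hq := BPair_q2 K
  have hq0 : (0 : ℝ) < qr K := by linarith
  set g := x.op f with hg
  have hgm : Hm g := op_hm x hf
  set ind : W5 K → ℝ := fun v => if v ≠ 0 ∧ bad x v then 1 else 0 with hind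
  have hi : ∀ v : W5 K, (ind v = 1 ∧ (v ≠ 0 ∧ bad x v)) ∨ (ind v = 0 ∧ ¬ (v ≠ 0 ∧ bad x v)) := by
    intro v
    by_cases hp : v ≠ 0 ∧ bad x v
    · exact Or.inl ⟨if_pos hp, hp⟩
    · exact Or.inr ⟨if_neg hp, hp⟩
  have hism : ∀ (r : K) (w : W5 K), r ≠ 0 → ind (w.sm r) = ind w := by
    intro r w hr
    have e0 : (w.sm r ≠ 0 ∧ bad x (w.sm r)) ↔ (w ≠ 0 ∧ bad x w) := by
      rw [BPair_bad_sm x hr, Ne, BPair_sm_zero hr]
    rcases hi (w.sm r) with ⟨e1, e2⟩ | ⟨e1, e2⟩
    · rcases hi w with ⟨e3, e4⟩ | ⟨e3, e4⟩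
      · rw [e1, e3]
      · exact absurd (e0.mp e2) e4
    · rcases hi w with ⟨e3, e4⟩ | ⟨e3, e4⟩
      · exact absurd (e0.mpr e4) e2
      · rw [e1, e3]
  set g1 : W5 K → ℝ := fun v => ind v * g v with hg1
  set g2 : W5 K → ℝ := fun v => (1 - ind v) * g v with hg2
  have hg2m : Hm g2 := by
    refine ⟨?_, fun r w hr => ?_⟩
    · rw [hg2]
      simp [hgm.1]
    · rw [hg2]
      simp only
      rw [hgm.2 r w hr, hism r w hr]
  have hsplit : g = fun v => g1 v + g2 v := by
    funext v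
    rw [hg1, hg2]
    simp only
    ring
  have hN2f : 0 ≤ N2 f := Finset.sum_nonneg fun _ _ => sq_nonneg _
  have hN2g : N2 g ≤ C3 * N2 f := h3 K x f hf
  have hb1 : N2 (y.op g1) ≤ C1 * C2 * C3 / qr K * N2 f := by
    have e1 : ∀ w ∈ IS K, y.op g1 w ^ 2 ≤ C1 / qr K * y.op (fun v => g v ^ 2) w := by
      intro w hw
      refine (BPair_cs y ind g w).trans ?_
      have e5 : (fun v => ind v ^ 2) = ind := by
        funext v
        rcases hi v with ⟨e3, _⟩ | ⟨e3, _⟩ <;> rw [e3] <;> norm_num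
      rw [e5]
      apply mul_le_mul_of_nonneg_right (h1 K x y w hx hy hw)
      unfold Lt.op
      exact div_nonneg (Finset.sum_nonneg fun _ _ => sq_nonneg _) (by positivity)
    have e2 : ∑ w ∈ IS K, y.op (fun v => g v ^ 2) w ≤ C2 * N2 g := by
      refine h2 K y (fun v => g v ^ 2) ⟨?_, fun r w hr => ?_⟩ (fun w => sq_nonneg _)
      · simp [hgm.1]
      · simp only
        rw [hgm.2 r w hr]
    calc N2 (y.op g1) ≤ ∑ w ∈ IS K, C1 / qr K * y.op (fun v => g v ^ 2) w := Finset.sum_le_sum e1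
      _ = C1 / qr K * ∑ w ∈ IS K, y.op (fun v => g v ^ 2) w := by rw [Finset.mul_sum]
      _ ≤ C1 / qr K * (C2 * (C3 * N2 f)) := by
          apply mul_le_mul_of_nonneg_left _ (by positivity)
          exact e2.trans (mul_le_mul_of_nonneg_left hN2g hC2.le)
      _ = _ := by ring
  have hb2 : N2 (y.op g2) ≤ C3 * (C4 * (C2 + 1)) / qr K * N2 f := by
    refine (h3 K y g2 hg2m).trans ?_
    have e1 : ∀ z ∈ IS K, g2 z ^ 2 ≤ C4 / qr K * (x.op (fun v => f v ^ 2) z + N2 f / qr K ^ 4) := by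
      intro z hz
      rw [hg2]
      simp only
      rcases hi z with ⟨e3, _⟩ | ⟨e3, hp⟩
      · rw [e3]
        have : 0 ≤ x.op (fun v => f v ^ 2) z := by
          unfold Lt.op
          exact div_nonneg (Finset.sum_nonneg fun _ _ => sq_nonneg _) (by positivity)
        have : 0 ≤ C4 / qr K * (x.op (fun v => f v ^ 2) z + N2 f / qr K ^ 4) := by positivity
        simpa using this
      · rw [e3, sub_zero, one_mul]
        refine h4 K x f z hx hf hf0 hz (fun hb => hp ?_)
        exact ⟨(mem_IS.mp hz).2, hb⟩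
    have e2 : ∑ w ∈ IS K, x.op (fun v => f v ^ 2) w ≤ C2 * N2 f := by
      refine h2 K x (fun v => f v ^ 2) ⟨?_, fun r w hr => ?_⟩ (fun w => sq_nonneg _)
      · simp [hf.1]
      · simp only
        rw [hf.2 r w hr]
    have e3 : N2 g2 ≤ C4 / qr K * (C2 * N2 f + N2 f) := by
      calc N2 g2 ≤ ∑ z ∈ IS K, C4 / qr K * (x.op (fun v => f v ^ 2) z + N2 f / qr K ^ 4) := Finset.sum_le_sum e1
        _ = C4 / qr K * (∑ z ∈ IS K, x.op (fun v => f v ^ 2) z + (IS K).card * (N2 f / qr K ^ 4)) := by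
            rw [← Finset.mul_sum, Finset.sum_add_distrib, Finset.sum_const, nsmul_eq_mul]
        _ ≤ C4 / qr K * (C2 * N2 f + N2 f) := by
            apply mul_le_mul_of_nonneg_left _ (by positivity)
            have e4 : ((IS K).card : ℝ) * (N2 f / qr K ^ 4) ≤ N2 f := by
              rw [card_IS]
              have e5 : (qr K ^ 4 - 1) * (N2 f / qr K ^ 4) = N2 f - N2 f / qr K ^ 4 := by
                field_simp
              rw [e5]
              have : 0 ≤ N2 f / qr K ^ 4 := by positivity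
              linarith
            linarith
    calc C3 * N2 g2 ≤ C3 * (C4 / qr K * (C2 * N2 f + N2 f)) := mul_le_mul_of_nonneg_left e3 hC3.le
      _ = _ := by ring
  have hsum : N2 (y.op g) ≤ 2 * N2 (y.op g1) + 2 * N2 (y.op g2) := by
    unfold N2
    rw [Finset.mul_sum, Finset.mul_sum, ← Finset.sum_add_distrib]
    refine Finset.sum_le_sum fun w _ => ?_
    have e1 : y.op g w = y.op g1 w + y.op g2 w := by
      rw [← BPair_op_add, ← hsplit]
    rw [e1]
    nlinarith [sq_nonneg (y.op g1 w - y.op g2 w)]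
  calc N2 (y.op g) ≤ 2 * N2 (y.op g1) + 2 * N2 (y.op g2) := hsum
    _ ≤ 2 * (C1 * C2 * C3 / qr K * N2 f) + 2 * (C3 * (C4 * (C2 + 1)) / qr K * N2 f) := by linarith
    _ = _ := by ring

end Pool.Agent.Pf4
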