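import Pool.Agent.Pf4.Ops

/-!
# The twenty functions and the exact matrices of the letters
-/

set_option autoImplicit false
set_option maxRecDepth 10000

open scoped BigOperators Classical

namespace Pool.Agent.Pf4

section

variable {K : Type} [Field K]

/-- The twenty conditions. -/
def bc (i : Fin 20) (w : W5 K) : Prop :=
  match i.1 with
  | 0 => True
  | 1 => w.x0 = 0
  | 2 => w.x4 = 0
  | 3 => w.x1 = 0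
  | 4 => w.x2 = 0
  | 5 => w.x3 = 0
  | 6 => w.x2 + w.x3 = 0
  | 7 => w.x1 + w.x3 = 0
  | 8 => w.x1 + w.x2 = 0
  | 9 => w.x0 = 0 ∧ w.x2 = 0 ∧ w.x3 = 0
  | 10 => w.x0 = 0 ∧ w.x1 = 0 ∧ w.x3 = 0
  | 11 => w.x0 = 0 ∧ w.x1 = 0 ∧ w.x2 = 0
  | 12 => w.x4 = 0 ∧ w.x2 = 0 ∧ w.x3 = 0
  | 13 => w.x4 = 0 ∧ w.x1 = 0 ∧ w.x3 = 0
  | 14 => w.x4 = 0 ∧ w.x1 = 0 ∧ w.x2 = 0
  | 15 => w.x1 = 0 ∧ w.x2 = 0 ∧ w.x3 = 0 ∧ w.x4 = 0
  | 16 => w.x0 = 0 ∧ w.x1 = 0 ∧ w.x2 = 0 ∧ w.x3 = 0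
  | 17 => w.x0 = 0 ∧ w.x2 = 0 ∧ w.x3 = 0 ∧ w.x4 = 0
  | 18 => w.x0 = 0 ∧ w.x1 = 0 ∧ w.x3 = 0 ∧ w.x4 = 0
  | _ => w.x0 = 0 ∧ w.x1 = 0 ∧ w.x2 = 0 ∧ w.x4 = 0

/-- The twenty functions: `1, x0, x4, x1, x2, x3, s1, s2, s3, L1, L2, L3, P1, P2, P3, dF, dJ, d1, d2, d3`. -/
noncomputable def bas (i : Fin 20) (w : W5 K) : ℝ := if w ≠ 0 ∧ bc i w then 1 else 0

end

/-- The value of a polynomial, given by the list of its coefficients (constant term first). -/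
def lev {R : Type} [Ring R] (t : R) : List ℤ → R
  | [] => 0
  | a :: l => (a : R) + t * lev t l

/-- The combination of the twenty functions whose coefficients are the values at `t = 1 / q` of the polynomials of a list. -/
noncomputable def bev {K : Type} [Field K] [Fintype K] (v : List (List ℤ)) (w : W5 K) : ℝ :=
  ∑ i : Fin 20, lev (qr K)⁻¹ (v.getD i []) * bas i w

/-- The exact matrix of the letter `a` (row `i`: the image of the function `i`, divided by `q ^ 4`, in powers of `1 / q`);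
the rows `5, 15, 17, 18` are not used. -/
def matA : List (List (List ℤ)) := [
  [[1, 0, 0, -1, 1], [0, 0, 0, 0, -1], [], [], [], [], [], [], [], [], [], [0, 0, -1, 2], [], [], [0, 0, -2, 1], [], [0, 0, 0, -1], [], [], []],
  [[0, 1, -1, -1, 1], [0, 0, 1, 0, -1], [], [], [], [], [], [], [0, 1], [], [], [1, -2, -1, 2], [], [], [0, 0, -2, 1], [], [0, 0, 0, -1], [], [], []],
  [[0, 1, 1, -3], [], [0, 0, 1], [], [], [0, 1, -4, 4], [0, 0, 0, 1], [0, 0, 0, 1], [], [0, 0, 1, -2], [0, 0, 1, -2], [0, 0, -1, 2], [0, 1, -2], [0, 1, -2], [0, 0, -2, 1], [], [0, 0, 0, -1], [], [], []],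
  [[0, 1, 1, -3, 1], [0, 0, 0, 1, -1], [], [0, 1, -2, 2], [0, 1, -2, 2], [], [], [], [0, 0, 1], [0, 0, 0, -1], [0, 0, 0, -1], [1, -3, 1, -1], [], [], [0, 0, -3], [], [0, 0, 0, 1], [], [], [0, 0, 1, 1]],
  [[0, 1, 1, -3, 1], [0, 0, 0, 1, -1], [], [0, 1, -2, 2], [0, 1, -2, 2], [], [], [], [0, 0, 1], [0, 0, 0, -1], [0, 0, 0, -1], [1, -3, 1, -1], [], [], [0, 0, -3], [], [0, 0, 0, 1], [], [], [0, 0, 1, 1]],
  [[], [], [], [], [], [], [], [], [], [], [], [], [], [], [], [], [], [], [], []],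
  [[0, 1, 0, 0, 1], [0, 0, 0, -1, -1], [], [0, 0, -1], [0, 0, -1], [0, 0, -1], [], [], [], [0, 0, 1], [0, 0, 1], [0, 0, 0, 2], [0, 1], [0, 1], [0, 1, -2, 1], [0, -1], [0, 0, 0, -1], [], [], []],
  [[0, 1, 0, 0, 1], [0, 0, 0, -1, -1], [], [0, 0, -1], [0, 0, -1], [0, 0, -1], [], [], [], [0, 0, 1], [0, 0, 1], [0, 0, 0, 2], [0, 1], [0, 1], [0, 1, -2, 1], [0, -1], [0, 0, 0, -1], [], [], []],
  [[0, 1, 1, -3, 1], [0, 1, -2, 2, -1], [], [], [], [], [], [], [0, 0, 1], [], [], [1, -2, -1, 2], [], [], [0, 0, -2, 1], [], [0, 0, 0, -1], [], [], []],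
  [[0, 0, 1, -2, 1], [0, 0, 0, 1, -1], [], [], [], [], [], [], [0, 0, 1], [], [], [0, 1, -4, 2], [], [], [0, 1, -3, 1], [], [0, 0, 1, -1], [], [], [0, 0, 1]],
  [[0, 0, 1, -2, 1], [0, 0, 0, 1, -1], [], [], [], [], [], [], [0, 0, 1], [], [], [0, 1, -4, 2], [], [], [0, 1, -3, 1], [], [0, 0, 1, -1], [], [], [0, 0, 1]],
  [[0, 0, 1, -2, 1], [0, 0, 0, 1, -1], [], [], [], [], [], [], [0, 0, 2, -1], [], [], [1, 0, -4, 3], [], [], [0, 0, -2, 1], [], [0, 0, 0, -1], [], [], []],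
  [[0, 0, 1, -1, 2], [0, 0, 0, 0, -2], [0, 0, 1, -1], [0, 0, 0, -1], [0, 0, 0, -1], [0, 0, 0, -2], [], [], [], [0, 0, 0, 2], [0, 0, 0, 2], [0, 0, -1, 3], [0, 1, -1, 2], [0, 1, -1, 2], [0, 0, -1, 1], [0, 0, -1, -1], [0, 0, 0, -2], [0, 0, 0, -1], [0, 0, 0, -1], []],
  [[0, 0, 1, -1, 2], [0, 0, 0, 0, -2], [0, 0, 1, -1], [0, 0, 0, -1], [0, 0, 0, -1], [0, 0, 0, -2], [], [], [], [0, 0, 0, 2], [0, 0, 0, 2], [0, 0, -1, 3], [0, 1, -1, 2], [0, 1, -1, 2], [0, 0, -1, 1], [0, 0, -1, -1], [0, 0, 0, -2], [0, 0, 0, -1], [0, 0, 0, -1], []],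
  [[0, 0, 3, -5, 4], [0, 0, 0, 2, -4], [], [0, 0, 1, -2], [0, 0, 1, -2], [], [], [], [], [0, 1, -3, 3], [0, 1, -3, 3], [0, 1, -5, 6], [], [], [0, 0, -1, 1], [], [0, -1, 4, -5], [], [], []],
  [[], [], [], [], [], [], [], [], [], [], [], [], [], [], [], [], [], [], [], []],
  [[], [], [], [], [], [], [], [], [0, 0, 1, -1, 1], [], [], [0, 1, -3, 2, -1], [], [], [0, 0, 0, -1], [], [0, 0, 1, -1], [], [], [0, 1, -2, 2]],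
  [[], [], [], [], [], [], [], [], [], [], [], [], [], [], [], [], [], [], [], []],
  [[], [], [], [], [], [], [], [], [], [], [], [], [], [], [], [], [], [], [], []],
  [[0, 0, 0, 2, -4], [0, 0, 1, -3, 4], [], [0, 0, 0, -1, 2], [0, 0, 0, -1, 2], [], [], [], [0, 0, 0, 2], [0, 0, 0, 1, -2], [0, 0, 0, 1, -2], [0, 1, -1, 0, -4], [], [], [0, 0, 0, -2], [], [0, 1, -2, -1, 4], [], [], [0, 0, -1, 3]]]

/-- The exact matrix of the letter `h`; only the rows `0`, `6, ..., 14` and `16` are used. -/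
def matH : List (List (List ℤ)) := [
  [[1, 0, 0, -1, -1, -1], [0, 0, 0, 0, 0, 1], [0, 0, 0, 0, 0, 1], [0, 0, 0, 0, 2], [0, 0, 0, 0, 2], [0, 0, 0, 0, 2], [], [], [], [0, 0, 0, 0, -2], [0, 0, 0, 0, -2], [0, 0, 0, 0, -2], [0, 0, -1, -1, 1, -2], [0, 0, -1, -1, 1, -2], [0, 0, -1, -1, 1, -2], [0, 0, 0, 3, -2, 3], [0, 0, 0, 0, 1], [0, 0, 0, 0, 0, 1], [0, 0, 0, 0, 0, 1], [0, 0, 0, 0, 0, 1]],
  [[], [], [], [], [], [], [], [], [], [], [], [], [], [], [], [], [], [], [], []],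
  [[], [], [], [], [], [], [], [], [], [], [], [], [], [], [], [], [], [], [], []],
  [[], [], [], [], [], [], [], [], [], [], [], [], [], [], [], [], [], [], [], []],
  [[], [], [], [], [], [], [], [], [], [], [], [], [], [], [], [], [], [], [], []],
  [[], [], [], [], [], [], [], [], [], [], [], [], [], [], [], [], [], [], [], []],
  [[0, 1, 1, -3, 1, -1], [0, 0, 0, 1, -2, 1], [0, 0, 0, 0, 0, 1], [0, 0, 0, -1, 2], [0, 0, 0, -1, 2], [0, 0, 0, -1, 2], [0, 0, 1, -1], [], [], [0, 1, -4, 5, -2], [0, 0, 0, 1, -2], [0, 0, 0, 1, -2], [0, 1, -3, 1, 1, -2], [0, 0, 0, -1, 1, -2], [0, 0, 0, -1, 1, -2], [0, 0, -1, 3, -2, 3], [0, 0, 1, -2, 1], [0, 0, 1, -2, 0, 1], [0, 0, 0, 0, 0, 1], [0, 0, 0, 0, 0, 1]],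
  [[0, 1, 1, -3, 1, -1], [0, 0, 0, 1, -2, 1], [0, 0, 0, 0, 0, 1], [0, 0, 0, -1, 2], [0, 0, 0, -1, 2], [0, 0, 0, -1, 2], [], [0, 0, 1, -1], [], [0, 0, 0, 1, -2], [0, 1, -4, 5, -2], [0, 0, 0, 1, -2], [0, 0, 0, -1, 1, -2], [0, 1, -3, 1, 1, -2], [0, 0, 0, -1, 1, -2], [0, 0, -1, 3, -2, 3], [0, 0, 1, -2, 1], [0, 0, 0, 0, 0, 1], [0, 0, 1, -2, 0, 1], [0, 0, 0, 0, 0, 1]],
  [[0, 1, 1, -3, 1, -1], [0, 0, 0, 1, -2, 1], [0, 0, 0, 0, 0, 1], [0, 0, 0, -1, 2], [0, 0, 0, -1, 2], [0, 0, 0, -1, 2], [], [], [0, 0, 1, -1], [0, 0, 0, 1, -2], [0, 0, 0, 1, -2], [0, 1, -4, 5, -2], [0, 0, 0, -1, 1, -2], [0, 0, 0, -1, 1, -2], [0, 1, -3, 1, 1, -2], [0, 0, -1, 3, -2, 3], [0, 0, 1, -2, 1], [0, 0, 0, 0, 0, 1], [0, 0, 0, 0, 0, 1], [0, 0, 1, -2, 0, 1]],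
  [[0, 0, 1, 0, -1, -1], [0, 0, 0, 0, -1, 1], [0, 0, 0, 0, 0, 1], [0, 0, 0, -2, 3], [0, 0, 0, -2, 3], [0, 0, 0, -2, 3], [], [], [], [0, 0, 0, 2, -3], [0, 0, 0, 2, -3], [0, 0, 0, 2, -3], [0, 1, -1, 0, 0, -2], [0, 0, 1, -2, 1, -2], [0, 0, 1, -2, 1, -2], [0, 0, -2, 4, -2, 3], [0, 0, 0, -1, 2], [0, 0, 0, -1, 1, 1], [0, 0, 0, 0, 0, 1], [0, 0, 0, 0, 0, 1]],
  [[0, 0, 1, 0, -1, -1], [0, 0, 0, 0, -1, 1], [0, 0, 0, 0, 0, 1], [0, 0, 0, -2, 3], [0, 0, 0, -2, 3], [0, 0, 0, -2, 3], [], [], [], [0, 0, 0, 2, -3], [0, 0, 0, 2, -3], [0, 0, 0, 2, -3], [0, 0, 1, -2, 1, -2], [0, 1, -1, 0, 0, -2], [0, 0, 1, -2, 1, -2], [0, 0, -2, 4, -2, 3], [0, 0, 0, -1, 2], [0, 0, 0, 0, 0, 1], [0, 0, 0, -1, 1, 1], [0, 0, 0, 0, 0, 1]],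
  [[0, 0, 1, 0, -1, -1], [0, 0, 0, 0, -1, 1], [0, 0, 0, 0, 0, 1], [0, 0, 0, -2, 3], [0, 0, 0, -2, 3], [0, 0, 0, -2, 3], [], [], [], [0, 0, 0, 2, -3], [0, 0, 0, 2, -3], [0, 0, 0, 2, -3], [0, 0, 1, -2, 1, -2], [0, 0, 1, -2, 1, -2], [0, 1, -1, 0, 0, -2], [0, 0, -2, 4, -2, 3], [0, 0, 0, -1, 2], [0, 0, 0, 0, 0, 1], [0, 0, 0, 0, 0, 1], [0, 0, 0, -1, 1, 1]],
  [[0, 0, 2, 0, -7, 5], [0, 0, 0, 0, 2, -3], [0, 0, 0, 1, -1, 1], [], [0, 0, 1, -4, 7, -4], [0, 0, 1, -4, 7, -4], [0, 0, 0, 1, 0, -1], [], [], [0, 1, -3, 4, -7, 7], [0, 0, 0, 0, -1, 2], [0, 0, 0, 0, -1, 2], [0, 0, 1, -6, 4], [0, 0, 0, -2, 3, -2], [0, 0, 0, -2, 3, -2], [0, 0, 0, 2, -3, 3], [0, 0, 0, 1, 0, -4], [0, 0, 0, 1, -1, -1], [0, 0, 0, 0, -1, 1], [0, 0, 0, 0, -1, 1]],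
  [[0, 0, 2, 0, -7, 5], [0, 0, 0, 0, 2, -3], [0, 0, 0, 1, -1, 1], [0, 0, 1, -4, 7, -4], [], [0, 0, 1, -4, 7, -4], [], [0, 0, 0, 1, 0, -1], [], [0, 0, 0, 0, -1, 2], [0, 1, -3, 4, -7, 7], [0, 0, 0, 0, -1, 2], [0, 0, 0, -2, 3, -2], [0, 0, 1, -6, 4], [0, 0, 0, -2, 3, -2], [0, 0, 0, 2, -3, 3], [0, 0, 0, 1, 0, -4], [0, 0, 0, 0, -1, 1], [0, 0, 0, 1, -1, -1], [0, 0, 0, 0, -1, 1]],
  [[0, 0, 2, 0, -7, 5], [0, 0, 0, 0, 2, -3], [0, 0, 0, 1, -1, 1], [0, 0, 1, -4, 7, -4], [0, 0, 1, -4, 7, -4], [], [], [], [0, 0, 0, 1, 0, -1], [0, 0, 0, 0, -1, 2], [0, 0, 0, 0, -1, 2], [0, 1, -3, 4, -7, 7], [0, 0, 0, -2, 3, -2], [0, 0, 0, -2, 3, -2], [0, 0, 1, -6, 4], [0, 0, 0, 2, -3, 3], [0, 0, 0, 1, 0, -4], [0, 0, 0, 0, -1, 1], [0, 0, 0, 0, -1, 1], [0, 0, 0, 1, -1, -1]],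
  [[], [], [], [], [], [], [], [], [], [], [], [], [], [], [], [], [], [], [], []],
  [[0, 0, 0, 1, -1, -1], [], [0, 0, 0, 0, 0, 1], [0, 0, 0, -1, 1, 1], [0, 0, 0, -1, 1, 1], [0, 0, 0, -1, 1, 1], [], [], [], [0, 0, 0, 1, -1, -1], [0, 0, 0, 1, -1, -1], [0, 0, 0, 1, -1, -1], [0, 0, 1, -2, 2, -3], [0, 0, 1, -2, 2, -3], [0, 0, 1, -2, 2, -3], [0, 0, 0, -1, 1, 3], [0, 0, 0, -1, 1, 1], [0, 0, 0, 0, -1, 2], [0, 0, 0, 0, -1, 2], [0, 0, 0, 0, -1, 2]],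
  [[], [], [], [], [], [], [], [], [], [], [], [], [], [], [], [], [], [], [], []],
  [[], [], [], [], [], [], [], [], [], [], [], [], [], [], [], [], [], [], [], []],
  [[], [], [], [], [], [], [], [], [], [], [], [], [], [], [], [], [], [], [], []]]

/-- The rotation of the indices: `bas i (rt w) = bas (rotI i) w`. -/
def rotI : List ℕ := [0, 1, 2, 4, 5, 3, 7, 8, 6, 10, 11, 9, 13, 14, 12, 15, 16, 18, 19, 17]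

end Pool.Agent.Pf4
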