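import Pool.Agent.Pf4.CChk

/-!
# Splitting of the lines of the lemma of Nakayama
-/

set_option autoImplicit false

open scoped BigOperators Classical

namespace Pool.Agent.Pf4

theorem chkNs_append {G T : List (List (List ℤ))} {A B C C' E E' : List (List (List ℤ))}
    (h : chkNs G T A C E = true) (h' : chkNs G T B C' E' = true) (hC : C.length = A.length)
    (hE : E.length = A.length) : chkNs G T (A ++ B) (C ++ C') (E ++ E') = true := by
  induction A generalizing C E with
  | nil =>
    rw [List.eq_nil_of_length_eq_zero hC, List.eq_nil_of_length_eq_zero hE]
    exact h'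
  | cons v A ih =>
    cases C with
    | nil => exact absurd hC (by simp)
    | cons c C =>
      cases E with
      | nil => exact absurd hE (by simp)
      | cons e E =>
        simp only [chkNs, Bool.and_eq_true] at h
        simp only [List.cons_append, chkNs, Bool.and_eq_true]
        exact ⟨h.1, ih h.2 (by simpa using hC) (by simpa using hE)⟩

/-- The function `U`. -/
theorem vfam_one : ∀ v ∈ [([[1]] : List (List ℤ))], Mem 0 (vfam v) := by
  intro v hv
  rw [List.mem_singleton] at hv
  subst hv
  refine Mem.congr (fun K _ _ w _ => ?_) Mem.U
  show U w = bev [[1]] w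
  unfold bev
  rw [Finset.sum_eq_single (0 : Fin 20)]
  · simp [lev, bas, bc, U]
  · intro i _ hi
    have h : ([[1]] : List (List ℤ)).getD i [] = [] := by
      obtain ⟨i, hi'⟩ := i
      cases i with
      | zero => exact absurd rfl hi
      | succ i => rfl
    rw [h, lev, zero_mul]
  · intro h
    exact absurd (Finset.mem_univ _) h

end Pool.Agent.Pf4
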