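import Pool.Agent.Pf4.CRot

/-!
# Lists of steps of the certificate
-/

set_option autoImplicit false

open scoped BigOperators Classical

namespace Pool.Agent.Pf4

/-- Repeated rotation. -/
def rotN : ℕ → List (List ℤ) → List (List ℤ)
  | 0, v => v
  | n + 1, v => rotV (rotN n v)

/-- Check of a step: a rotated combination, or a rotated image of a combination. -/
def chkI (S : List (List (List ℤ))) (d : ℕ × Option Lt × List (List ℤ)) (v : List (List ℤ)) : Bool :=
  match d.2.1 with
  | none => cveq (rotN d.1 (comb S d.2.2)) v
  | some x => dom x (comb S d.2.2) && cveq (rotN d.1 (appL x (comb S d.2.2))) v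

/-- Check of a list of steps. -/
def chkIs (S : List (List (List ℤ))) : List (ℕ × Option Lt × List (List ℤ)) → List (List (List ℤ)) → Bool
  | _, [] => true
  | [], _ :: _ => false
  | d :: D, v :: T => chkI S d v && chkIs S D T

/-- Check of a rotated image of a pair of letters. -/
def chkR (S : List (List (List ℤ))) (d : ℕ × Lt × List (Lt × List (List ℤ))) (v : List (List ℤ)) : Bool :=
  okL S d.2.1 d.2.2 && dom d.2.1 (sumL S d.2.2) && cveq (rotN d.1 (appL d.2.1 (sumL S d.2.2))) v

/-- Check of a list of pairs of letters. -/
def chkRs (S : List (List (List ℤ))) : List (ℕ × Lt × List (Lt × List (List ℤ))) → List (List (List ℤ)) → Bool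
  | _, [] => true
  | [], _ :: _ => false
  | d :: D, v :: T => chkR S d v && chkRs S D T

/-- Check of the lines of Nakayama's lemma: `T'` is the remaining part of the list `T`. -/
def chkNs (G T : List (List (List ℤ))) : List (List (List ℤ)) → List (List (List ℤ)) → List (List (List ℤ)) → Bool
  | [], _, _ => true
  | v :: T', c :: C, e :: E => chkN G T v c e && chkNs G T T' C E
  | _ :: _, _, _ => false

theorem mem_rotN {k : ℕ} (n : ℕ) {v : List (List ℤ)} (h : Mem k (vfam v)) : Mem k (vfam (rotN n v)) := by
  induction n with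
  | zero => exact h
  | succ n ih => exact mem_rot ih

theorem mem_appL {k : ℕ} {x : Lt} {u : List (List ℤ)} (h : dom x u = true) (hu : Mem k (vfam u)) :
    Mem k (vfam (appL x u)) :=
  Mem.congr (fun K _ _ w hw => bev_appL h hw) (Mem.lt x (z0_vfam _) hu)

theorem mem_chkI {k : ℕ} {S : List (List (List ℤ))} (hS : ∀ v ∈ S, Mem k (vfam v))
    {d : ℕ × Option Lt × List (List ℤ)} {v : List (List ℤ)} (h : chkI S d v = true) : Mem k (vfam v) := by
  obtain ⟨n, x, c⟩ := d
  cases x with
  | none => exact mem_veq (u := rotN n (comb S c)) h (mem_rotN n (mem_comb hS c))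
  | some x =>
    simp only [chkI, Bool.and_eq_true] at h
    exact mem_veq h.2 (mem_rotN n (mem_appL h.1 (mem_comb hS c)))

theorem mem_chkIs {k : ℕ} {S : List (List (List ℤ))} (hS : ∀ v ∈ S, Mem k (vfam v))
    (D : List (ℕ × Option Lt × List (List ℤ))) (T : List (List (List ℤ))) (h : chkIs S D T = true) :
    ∀ v ∈ T, Mem k (vfam v) := by
  induction T generalizing D with
  | nil => intro v hv; cases hv
  | cons u T ih =>
    cases D with
    | nil => exact absurd h (by simp [chkIs])
    | cons d D =>
      simp only [chkIs, Bool.and_eq_true] at h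
      intro v hv
      rcases List.mem_cons.1 hv with rfl | hv
      · exact mem_chkI hS h.1
      · exact ih D h.2 v hv

theorem mem_chkR {k : ℕ} {S : List (List (List ℤ))} (hS : ∀ v ∈ S, Mem k (vfam v))
    {d : ℕ × Lt × List (Lt × List (List ℤ))} {v : List (List ℤ)} (h : chkR S d v = true) : Mem (k + 1) (vfam v) := by
  obtain ⟨n, x, L⟩ := d
  simp only [chkR, Bool.and_eq_true] at h
  exact mem_veq h.2 (mem_rotN n (Mem.congr (fun K _ _ w hw => bev_appL h.1.2 hw) (c_m_sum hS x L h.1.1)))

theorem mem_chkRs {k : ℕ} {S : List (List (List ℤ))} (hS : ∀ v ∈ S, Mem k (vfam v))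
    (D : List (ℕ × Lt × List (Lt × List (List ℤ)))) (T : List (List (List ℤ))) (h : chkRs S D T = true) :
    ∀ v ∈ T, Mem (k + 1) (vfam v) := by
  induction T generalizing D with
  | nil => intro v hv; cases hv
  | cons u T ih =>
    cases D with
    | nil => exact absurd h (by simp [chkRs])
    | cons d D =>
      simp only [chkRs, Bool.and_eq_true] at h
      intro v hv
      rcases List.mem_cons.1 hv with rfl | hv
      · exact mem_chkR hS h.1
      · exact ih D h.2 v hv

theorem chkNs_getD {G T : List (List (List ℤ))} (T' C E : List (List (List ℤ))) (h : chkNs G T T' C E = true) :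
    ∀ i < T'.length, chkN G T (T'.getD i []) (C.getD i []) (E.getD i []) = true := by
  induction T' generalizing C E with
  | nil => intro i hi; exact absurd hi (Nat.not_lt_zero i)
  | cons v T' ih =>
    cases C with
    | nil => exact absurd h (by simp [chkNs])
    | cons c C =>
      cases E with
      | nil => exact absurd h (by simp [chkNs])
      | cons e E =>
        simp only [chkNs, Bool.and_eq_true] at h
        intro i hi
        cases i with
        | zero => exact h.1
        | succ i =>
          simp only [List.getD_cons_succ]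
          exact ih C E h.2 i (Nat.lt_of_succ_lt_succ hi)

theorem mem_chkNs {k : ℕ} {G T : List (List (List ℤ))} (hG : ∀ v ∈ G, Mem k (vfam v)) (C E : List (List (List ℤ)))
    (h : chkNs G T T C E = true) : ∀ v ∈ T, Mem k (vfam v) :=
  mem_chkN hG C E (chkNs_getD T C E h)

theorem mem_append {k : ℕ} {S T : List (List (List ℤ))} (hS : ∀ v ∈ S, Mem k (vfam v)) (hT : ∀ v ∈ T, Mem k (vfam v)) :
    ∀ v ∈ S ++ T, Mem k (vfam v) := by
  intro v hv
  rcases List.mem_append.1 hv with h | h
  · exact hS v h
  · exact hT v h

end Pool.Agent.Pf4
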