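import Pool.Agent.Pf4.Bas
import Pool.Agent.Pf4.BMem

/-!
# The certificate: computable arithmetic of vectors of polynomials, checkers
-/

set_option autoImplicit false

open scoped BigOperators Classical

namespace Pool.Agent.Pf4

/-! ### polynomials in `t` as lists of coefficients -/

/-- Sum. -/
def padd : List ℤ → List ℤ → List ℤ
  | [], m => m
  | l, [] => l
  | a :: l, b :: m => (a + b) :: padd l m

/-- Product. -/
def pmul : List ℤ → List ℤ → List ℤ
  | [], _ => []
  | a :: l, m => padd (m.map fun b => a * b) (0 :: pmul l m)

/-- All coefficients are `0`. -/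
def cpz (l : List ℤ) : Bool := l.all fun a => a == 0

/-! ### vectors -/

/-- Sum of vectors. -/
def vadd : List (List ℤ) → List (List ℤ) → List (List ℤ)
  | [], m => m
  | l, [] => l
  | a :: l, b :: m => padd a b :: vadd l m

/-- Multiplication of a vector by a polynomial. -/
def vmul (p : List ℤ) (v : List (List ℤ)) : List (List ℤ) := v.map fun l => pmul p l

/-- The combination of the vectors of a list with polynomials as coefficients. -/
def comb : List (List (List ℤ)) → List (List ℤ) → List (List ℤ)
  | [], _ => []
  | _, [] => []
  | s :: S, p :: c => vadd (vmul p s) (comb S c)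

/-- The vector is `0`. -/
def vz (v : List (List ℤ)) : Bool := v.all cpz

/-- Equality of vectors. -/
def cveq (u v : List (List ℤ)) : Bool := vz (vadd u (vmul [-1] v))

/-- Rotation of the twenty coordinates: `bev (rotV v) w = bev v w.rt`. -/
def rotV (v : List (List ℤ)) : List (List ℤ) :=
  [0, 1, 2, 5, 3, 4, 8, 6, 7, 11, 9, 10, 14, 12, 13, 15, 16, 19, 17, 18].map fun i => v.getD i []

/-- The domain of the exact formula for the letter `a`. -/
def domA (v : List (List ℤ)) : Bool :=
  cpz (v.getD 5 []) && cpz (v.getD 15 []) && cpz (padd (v.getD 17 []) (v.getD 18 []))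

/-- The domain of the exact formula for the letter `h`. -/
def domH (v : List (List ℤ)) : Bool :=
  [1, 2, 3, 4, 5, 15, 17, 18, 19].all fun i => cpz (v.getD i [])

/-- The domains. -/
def dom : Lt → List (List ℤ) → Bool
  | .a, v => domA v
  | .b, v => domA (rotV (rotV v))
  | .c, v => domA (rotV v)
  | .h, v => domH v

/-- The exact images. -/
def appL : Lt → List (List ℤ) → List (List ℤ)
  | .a, v => comb matA v
  | .b, v => rotV (comb matA (rotV (rotV v)))
  | .c, v => rotV (rotV (comb matA (rotV v)))
  | .h, v => comb matH v

/-- The family of functions of a vector. -/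
noncomputable def vfam (v : List (List ℤ)) : Fam := fun _ _ _ w => bev v w

/-- Check of an image: `v = x f`, `f` = the combination of `S` with coefficients `c`. -/
def chkS (S : List (List (List ℤ))) (x : Lt) (c : List (List ℤ)) (v : List (List ℤ)) : Bool :=
  dom x (comb S c) && cveq (appL x (comb S c)) v

/-- The sum of the images `y (comb S c)` over a list of pairs `(y, c)`. -/
def sumL (S : List (List (List ℤ))) : List (Lt × List (List ℤ)) → List (List ℤ)
  | [] => []
  | (y, c) :: L => vadd (appL y (comb S c)) (sumL S L)

/-- All these images are in the domains, and all letters differ from `x`. -/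
def okL (S : List (List (List ℤ))) (x : Lt) (L : List (Lt × List (List ℤ))) : Bool :=
  L.all fun yc => dom yc.1 (comb S yc.2) && decide (yc.1 ≠ x)

/-- Check of an image of a pair of letters: `v = x (∑ y f_y)`. -/
def chkP (S : List (List (List ℤ))) (x : Lt) (L : List (Lt × List (List ℤ))) (v : List (List ℤ)) : Bool :=
  okL S x L && dom x (sumL S L) && cveq (appL x (sumL S L)) v

/-- Check of one line of Nakayama's lemma: `T_i = ∑ c_j G_j + t ∑ E_j T_j`. -/
def chkN (G T : List (List (List ℤ))) (v : List (List ℤ)) (c E : List (List ℤ)) : Bool :=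
  cveq (vadd (comb G c) (vmul [0, 1] (comb T E))) v

end Pool.Agent.Pf4
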