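import Pool.Agent.Pf4.CSnd

/-!
# Rotation of the terminals
-/

set_option autoImplicit false

open scoped BigOperators Classical

namespace Pool.Agent.Pf4

private def c_rot_lt : Lt → Lt
  | .a => .b
  | .b => .c
  | .c => .a
  | .h => .h

private def c_rot_ex : Ex → Ex
  | .one => .one
  | .lt x => .lt (c_rot_lt x)
  | .mul e f => .mul (c_rot_ex e) (c_rot_ex f)
  | .add e f => .add (c_rot_ex e) (c_rot_ex f)
  | .sm p e => .sm p (c_rot_ex e)

private theorem c_rot_iso {K : Type} [Field K] {w : W5 K} (h : w.Iso) : w.rt.Iso := by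
  unfold W5.Iso at h ⊢
  show w.x0 * w.x4 = w.x2 * w.x3 + w.x2 * w.x1 + w.x3 * w.x1
  rw [h]
  ring

private theorem c_rot_ne {K : Type} [Field K] {w : W5 K} (h : w.rt = 0) : w = 0 := by
  have h0 := congrArg W5.x0 h
  have h1 := congrArg W5.x1 h
  have h2 := congrArg W5.x2 h
  have h3 := congrArg W5.x3 h
  have h4 := congrArg W5.x4 h
  exact W5.ext h0 h3 h1 h2 h4

private theorem c_rot_U {K : Type} [Field K] [Fintype K] (w : W5 K) : U w.tr = U w := by
  unfold U
  have h : w.tr = 0 ↔ w = 0 := by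
    constructor
    · intro h
      have h0 := congrArg W5.x0 h
      have h1 := congrArg W5.x1 h
      have h2 := congrArg W5.x2 h
      have h3 := congrArg W5.x3 h
      have h4 := congrArg W5.x4 h
      exact W5.ext h0 h2 h3 h1 h4
    · rintro rfl
      rfl
  by_cases hw : w = 0
  · rw [if_pos hw, if_pos (h.2 hw)]
  · rw [if_neg hw, if_neg (fun h' => hw (h.1 h'))]

private def c_rot_eH {K : Type} : (Fin 6 → K) ≃ (Fin 6 → K) where
  toFun y := ![y 3, y 2, y 5, y 4, y 0, y 1]
  invFun y := ![y 4, y 5, y 1, y 0, y 3, y 2]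
  left_inv y := by
    funext i
    fin_cases i <;> rfl
  right_inv y := by
    funext i
    fin_cases i <;> rfl

private theorem c_rot_XH {K : Type} [Field K] (a b c d e f : K) (w : W5 K) :
    XH a b c d e f w = (XH d c f e a b w.rt).tr := by
  apply W5.ext
  · simp only [XH, W5.rt, W5.tr]
    ring
  · simp only [XH, W5.rt, W5.tr]
    ring
  · simp only [XH, W5.rt, W5.tr]
    ring
  · simp only [XH, W5.rt, W5.tr]
    ring
  · simp only [XH, W5.rt, W5.tr]
    ring

private theorem c_rot_op {K : Type} [Field K] [Fintype K] (x : Lt) (f : W5 K → ℝ) (w : W5 K) :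
    (c_rot_lt x).op f w = x.op (fun v => f v.tr) w.rt := by
  cases x with
  | a => rfl
  | b => rfl
  | c => rfl
  | h =>
    show Lt.h.op f w = Lt.h.op (fun v => f v.tr) w.rt
    unfold Lt.op
    congr 1
    refine (Finset.sum_congr rfl fun y _ => ?_).trans
      (Equiv.sum_comp c_rot_eH (fun y : Fin 6 → K => f (Lt.X .h y w.rt).tr))
    show f (XH _ _ _ _ _ _ w) = _
    rw [c_rot_XH]
    rfl

private theorem c_rot_ev {K : Type} [Field K] [Fintype K] (e : Ex) (f : W5 K → ℝ) (w : W5 K) :
    (c_rot_ex e).ev f w = e.ev (fun v => f v.tr) w.rt := by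
  induction e generalizing f w with
  | one => rfl
  | lt x => exact c_rot_op x f w
  | mul e g ihe ihg =>
    show (c_rot_ex e).ev ((c_rot_ex g).ev f) w = e.ev (g.ev fun v => f v.tr) w.rt
    rw [ihe]
    congr 1
    funext v
    rw [ihg]
    rfl
  | add e g ihe ihg =>
    show (c_rot_ex e).ev f w + (c_rot_ex g).ev f w = e.ev (fun v => f v.tr) w.rt + g.ev (fun v => f v.tr) w.rt
    rw [ihe, ihg]
  | sm p e ih =>
    show tv K p * (c_rot_ex e).ev f w = tv K p * e.ev (fun v => f v.tr) w.rt
    rw [ih]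

private theorem c_rot_cls {k : ℕ} {e : Ex} (h : Cls k e) : Cls k (c_rot_ex e) := by
  induction h with
  | zero e => exact .zero _
  | pair x y h =>
    refine Cls.pair _ _ ?_
    revert h
    cases x <;> cases y <;> decide
  | mul _ _ ih1 ih2 => exact .mul ih1 ih2
  | add _ _ ih1 ih2 => exact .add ih1 ih2
  | sm p _ ih => exact .sm p ih
  | mono hl _ ih => exact .mono hl ih

/-- MODULE c_rot (1).  Let `Ex.rot` replace `a, b, c, h` by `b, c, a, h`.  Then `e.rot.ev f w = e.ev (fun v => f v.tr) w.rt`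
for all `f`: for the letters `b.X y w = (a.X y w.rt).tr`, `c.X y w = (b.X y w.rt).tr`, `a.X y w = (c.X y w.rt).tr` (definitions, `w.rt.rt = w.tr`,
`w.tr.tr = w.rt`), `h.X y w = (h.X (y ∘ σ) w.rt).tr` for the permutation `σ` of the six variables which comes from the rotation (the edges
`12', 13', 21', 23', 31', 32'` go to `23', 21', 32', 31', 12', 13'`; `XH` in coordinates, `ring`); the sum over `y` is invariant.  With `f = U`
(`U v.tr = U v`) and `w.rt ∈ IS K`. -/
theorem Mem.rot {k : ℕ} {f : Fam} (h : Mem k f) : Mem k (fun K _ _ w => f K w.rt) := by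
  obtain ⟨e, u, he, hu, h1⟩ := h
  refine ⟨c_rot_ex e, u, c_rot_cls he, hu, ?_⟩
  intro K _ _ w hw
  have hm := mem_IS.1 hw
  have h2 : w.rt ∈ IS K := mem_IS.2 ⟨c_rot_iso hm.1, fun h0 => hm.2 (c_rot_ne h0)⟩
  have h3 : (fun v : W5 K => Pf4.U v.tr) = Pf4.U := funext c_rot_U
  rw [c_rot_ev, h3, h1 K w.rt h2]

/-- MODULE c_rot (2).  `bev_rot`. -/
theorem mem_rot {k : ℕ} {v : List (List ℤ)} (h : Mem k (vfam v)) : Mem k (vfam (rotV v)) := by
  refine Mem.congr (fun K _ _ w _ => ?_) h.rot
  show bev v w.rt = bev (rotV v) w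
  exact (bev_rot v w).symm

/-- A combination, given in its final form. -/
def chkC (S : List (List (List ℤ))) (c v : List (List ℤ)) : Bool := cveq (comb S c) v

theorem mem_chkC {k : ℕ} {S : List (List (List ℤ))} (hS : ∀ v ∈ S, Mem k (vfam v)) {c v : List (List ℤ)}
    (h : chkC S c v = true) : Mem k (vfam v) := mem_veq h (mem_comb hS c)

/-- A list of combinations. -/
def chkCs (S : List (List (List ℤ))) (D : List (List (List ℤ) × List (List ℤ))) : Bool :=
  D.all fun d => chkC S d.1 d.2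

theorem mem_chkCs {k : ℕ} {S : List (List (List ℤ))} (hS : ∀ v ∈ S, Mem k (vfam v))
    {D : List (List (List ℤ) × List (List ℤ))} (h : chkCs S D = true) : ∀ d ∈ D, Mem k (vfam d.2) :=
  fun d hd => mem_chkC hS (List.all_eq_true.1 h d hd)

end Pool.Agent.Pf4
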