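import Pool.Agent.Pf4.CDefs

/-!
# Soundness of the checkers
-/

set_option autoImplicit false

open scoped BigOperators Classical

namespace Pool.Agent.Pf4

section arith

variable {R : Type} [CommRing R]

theorem lev_padd (t : R) (l m : List ℤ) : lev t (padd l m) = lev t l + lev t m := by
  induction l generalizing m with
  | nil =>
    rw [padd, lev, zero_add]
  | cons a l ih =>
    cases m with
    | nil =>
      rw [padd, lev, lev, add_zero]
      intro h
      cases h
    | cons b m =>
      rw [padd, lev, lev, lev, ih]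
      push_cast
      ring

private theorem c_a1_map (t : R) (a : ℤ) (m : List ℤ) :
    lev t (m.map fun b => a * b) = (a : R) * lev t m := by
  induction m with
  | nil => rw [List.map_nil, lev, mul_zero]
  | cons b m ih =>
    rw [List.map_cons, lev, lev, ih]
    push_cast
    ring

theorem lev_pmul (t : R) (l m : List ℤ) : lev t (pmul l m) = lev t l * lev t m := by
  induction l with
  | nil =>
    rw [pmul, lev, zero_mul]
  | cons a l ih =>
    rw [pmul, lev_padd, c_a1_map, lev, ih, lev]
    push_cast
    ring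

theorem lev_pz (t : R) {l : List ℤ} (h : cpz l = true) : lev t l = 0 := by
  induction l with
  | nil => rfl
  | cons a l ih =>
    rw [cpz, List.all_cons, Bool.and_eq_true, beq_iff_eq] at h
    rw [lev, h.1, ih h.2]
    push_cast
    ring

end arith

section vec

variable {K : Type} [Field K] [Fintype K]

private theorem c_a1_getD_vadd (t : ℝ) (u v : List (List ℤ)) (i : ℕ) :
    lev t ((vadd u v).getD i []) = lev t (u.getD i []) + lev t (v.getD i []) := by
  induction u generalizing v i with
  | nil =>
    rw [vadd, List.getD_nil, lev, zero_add]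
  | cons a u ih =>
    cases v with
    | nil =>
      rw [vadd, List.getD_nil, lev, add_zero]
      intro h
      cases h
    | cons b v =>
      cases i with
      | zero =>
        rw [vadd, List.getD_cons_zero, List.getD_cons_zero, List.getD_cons_zero, lev_padd]
      | succ i =>
        rw [vadd, List.getD_cons_succ, List.getD_cons_succ, List.getD_cons_succ, ih]

theorem bev_vadd (u v : List (List ℤ)) (w : W5 K) : bev (vadd u v) w = bev u w + bev v w := by
  unfold bev
  rw [← Finset.sum_add_distrib]
  refine Finset.sum_congr rfl fun i _ => ?_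
  rw [c_a1_getD_vadd]
  ring

private theorem c_a1_getD_vmul (t : ℝ) (p : List ℤ) (v : List (List ℤ)) (i : ℕ) :
    lev t ((vmul p v).getD i []) = lev t p * lev t (v.getD i []) := by
  unfold vmul
  induction v generalizing i with
  | nil =>
    rw [List.map_nil, List.getD_nil, lev, mul_zero]
  | cons a v ih =>
    cases i with
    | zero => rw [List.map_cons, List.getD_cons_zero, List.getD_cons_zero, lev_pmul]
    | succ i => rw [List.map_cons, List.getD_cons_succ, List.getD_cons_succ, ih]

theorem bev_vmul (p : List ℤ) (v : List (List ℤ)) (w : W5 K) : bev (vmul p v) w = lev (qr K)⁻¹ p * bev v w := by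
  unfold bev
  rw [Finset.mul_sum]
  refine Finset.sum_congr rfl fun i _ => ?_
  rw [c_a1_getD_vmul]
  ring

theorem bev_nil (w : W5 K) : bev [] w = 0 := by
  unfold bev
  refine Finset.sum_eq_zero fun i _ => ?_
  rw [List.getD_nil, lev, zero_mul]

theorem bev_comb (S : List (List (List ℤ))) (c : List (List ℤ)) (w : W5 K) :
    bev (comb S c) w = ∑ i : Fin S.length, lev (qr K)⁻¹ (c.getD i []) * bev (S.getD i []) w := by
  induction S generalizing c with
  | nil =>
    rw [comb, bev_nil]
    exact (Finset.sum_empty).symm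
  | cons s S ih =>
    cases c with
    | nil =>
      have h : comb (s :: S) [] = [] := by
        rw [comb]
        intro h
        cases h
      rw [h, bev_nil]
      refine (Finset.sum_eq_zero fun i _ => ?_).symm
      rw [List.getD_nil, lev, zero_mul]
    | cons p c =>
      rw [comb, bev_vadd, bev_vmul, ih]
      exact (Fin.sum_univ_succ (n := S.length)
        (fun i => lev (qr K)⁻¹ ((p :: c).getD i []) * bev ((s :: S).getD i []) w)).symm

theorem bev_veq {u v : List (List ℤ)} (h : cveq u v = true) (w : W5 K) : bev u w = bev v w := by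
  have h1 : bev (vadd u (vmul [-1] v)) w = 0 := by
    unfold cveq vz at h
    rw [List.all_eq_true] at h
    unfold bev
    refine Finset.sum_eq_zero fun i _ => ?_
    by_cases hi : i.1 < (vadd u (vmul [-1] v)).length
    · rw [List.getD_eq_getElem _ _ hi, lev_pz _ (h _ (List.getElem_mem hi)), zero_mul]
    · rw [List.getD_eq_default _ _ (not_lt.1 hi), lev, zero_mul]
  rw [bev_vadd, bev_vmul, lev, lev] at h1
  push_cast at h1
  linarith

theorem bev_rot (v : List (List ℤ)) (w : W5 K) : bev (rotV v) w = bev v w.rt := by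
  unfold bev
  have e : ∀ i : Fin 20, bas i w.rt = bas (⟨rotI.getD i 0, by fin_cases i <;> decide⟩ : Fin 20) w :=
    fun i => bas_rt i w
  simp only [e]
  simp [Fin.sum_univ_succ, rotV, rotI]
  ring

theorem bev_zero (v : List (List ℤ)) : bev v (0 : W5 K) = 0 := by
  unfold bev
  refine Finset.sum_eq_zero fun i _ => ?_
  unfold bas
  rw [if_neg fun h => h.1 rfl, mul_zero]

omit [Fintype K] in
private theorem c_a2_iso {w : W5 K} (h : w.Iso) : w.rt.Iso := by
  unfold W5.Iso at h ⊢
  show w.x0 * w.x4 = w.x2 * w.x3 + w.x2 * w.x1 + w.x3 * w.x1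
  rw [h]
  ring

omit [Fintype K] in
private theorem c_a2_ne {w : W5 K} (h : w.rt = 0) : w = 0 := by
  have h0 := congrArg W5.x0 h
  have h1 := congrArg W5.x1 h
  have h2 := congrArg W5.x2 h
  have h3 := congrArg W5.x3 h
  have h4 := congrArg W5.x4 h
  exact W5.ext h0 h3 h1 h2 h4

private theorem c_a2_z {v : List (List ℤ)} {i : ℕ} (h : cpz (v.getD i []) = true) (t : ℝ) :
    lev t (v.getD i []) = 0 := lev_pz t h

private theorem c_a2_sum (M : List (List (List ℤ))) (hM : M.length = 20) (v : List (List ℤ)) (w : W5 K) :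
    ∑ j : Fin 20, (∑ i : Fin 20, lev (qr K)⁻¹ (v.getD i []) * lev (qr K)⁻¹ ((M.getD i []).getD j [])) * bas j w =
      bev (comb M v) w := by
  rw [bev_comb]
  have h1 : ∀ i : Fin M.length, lev (qr K)⁻¹ (v.getD i []) * bev (M.getD i []) w =
      (fun i : Fin 20 => ∑ j : Fin 20, lev (qr K)⁻¹ (v.getD i []) * (lev (qr K)⁻¹ ((M.getD i []).getD j []) * bas j w))
        (finCongr hM i) := by
    intro i
    unfold bev
    rw [Finset.mul_sum]
    rfl
  rw [Finset.sum_congr rfl fun i _ => h1 i, Equiv.sum_comp (finCongr hM)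
    (fun i : Fin 20 => ∑ j : Fin 20, lev (qr K)⁻¹ (v.getD i []) * (lev (qr K)⁻¹ ((M.getD i []).getD j []) * bas j w)),
    Finset.sum_comm]
  refine Finset.sum_congr rfl fun j _ => ?_
  rw [Finset.sum_mul]
  refine Finset.sum_congr rfl fun i _ => ?_
  ring

private theorem c_a2_a {v : List (List ℤ)} (h : domA v = true) {w : W5 K} (hw : w ∈ IS K) :
    Lt.a.op (bev v) w = bev (comb matA v) w := by
  unfold domA at h
  rw [Bool.and_eq_true, Bool.and_eq_true] at h
  obtain ⟨⟨h5, h15⟩, h17⟩ := h
  rw [← c_a2_sum matA (by decide) v w]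
  refine opa_bas (fun i : Fin 20 => lev (qr K)⁻¹ (v.getD i [])) (c_a2_z h5 _) (c_a2_z h15 _) ?_ hw
  show lev (qr K)⁻¹ (v.getD 17 []) + lev (qr K)⁻¹ (v.getD 18 []) = 0
  rw [← lev_padd, lev_pz _ h17]

private theorem c_a2_h {v : List (List ℤ)} (h : domH v = true) {w : W5 K} (hw : w ∈ IS K) :
    Lt.h.op (bev v) w = bev (comb matH v) w := by
  unfold domH at h
  rw [List.all_eq_true] at h
  rw [← c_a2_sum matH (by decide) v w]
  refine oph_bas (fun i : Fin 20 => lev (qr K)⁻¹ (v.getD i [])) ?_ hw
  intro i hi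
  refine c_a2_z (h i.1 ?_) _
  have hi2 := i.2
  simp only [List.mem_cons, List.not_mem_nil, or_false]
  omega

/-- The exact images are the images. -/
theorem bev_appL {x : Lt} {v : List (List ℤ)} (h : dom x v = true) {w : W5 K} (hw : w ∈ IS K) :
    x.op (bev v) w = bev (appL x v) w := by
  have hiso := mem_IS.1 hw
  cases x with
  | a => exact c_a2_a h hw
  | b =>
    have h1 : Lt.b.op (bev v) w = Lt.a.op (bev (rotV (rotV v))) w.rt := by
      unfold Lt.op
      congr 1
      refine Finset.sum_congr rfl fun y _ => ?_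
      rw [bev_rot, bev_rot]
      rfl
    have h2 : w.rt ∈ IS K := mem_IS.2 ⟨c_a2_iso hiso.1, fun h0 => hiso.2 (c_a2_ne h0)⟩
    rw [h1, c_a2_a h h2, ← bev_rot]
    rfl
  | c =>
    have h1 : Lt.c.op (bev v) w = Lt.a.op (bev (rotV v)) w.tr := by
      unfold Lt.op
      congr 1
      refine Finset.sum_congr rfl fun y _ => ?_
      rw [bev_rot]
      rfl
    have h2 : w.tr ∈ IS K := by
      have h3 : w.tr = w.rt.rt := rfl
      rw [h3]
      exact mem_IS.2 ⟨c_a2_iso (c_a2_iso hiso.1), fun h0 => hiso.2 (c_a2_ne (c_a2_ne h0))⟩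
    have h3 : bev (rotV (rotV (comb matA (rotV v)))) w = bev (comb matA (rotV v)) w.tr := by
      rw [bev_rot, bev_rot]
      rfl
    rw [h1, c_a2_a h h2, ← h3]
    rfl
  | h => exact c_a2_h h hw

end vec

theorem z0_vfam (v : List (List ℤ)) : Z0 (vfam v) := by
  intro K _ _
  exact bev_zero v

/-- The value of a list is the value of a polynomial. -/
theorem lev_tv (l : List ℤ) : ∃ p : Polynomial ℤ, ∀ (K : Type) [Field K] [Fintype K], lev (qr K)⁻¹ l = tv K p := by
  induction l with
  | nil =>
    refine ⟨0, fun K _ _ => ?_⟩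
    rw [lev]
    exact (Polynomial.eval₂_zero _ _).symm
  | cons a l ih =>
    obtain ⟨p, hp⟩ := ih
    refine ⟨Polynomial.C a + Polynomial.X * p, fun K _ _ => ?_⟩
    rw [lev, hp K]
    unfold tv
    rw [Polynomial.eval₂_add, Polynomial.eval₂_mul, Polynomial.eval₂_C, Polynomial.eval₂_X]
    rfl

theorem mem_comb {k : ℕ} {S : List (List (List ℤ))} (hS : ∀ v ∈ S, Mem k (vfam v)) (c : List (List ℤ)) :
    Mem k (vfam (comb S c)) := by
  induction S generalizing c with
  | nil =>
    refine Mem.congr (fun K _ _ w _ => ?_) (Mem.zero k)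
    show (0 : ℝ) = bev (comb [] c) w
    rw [comb, bev_nil]
  | cons s S ih =>
    cases c with
    | nil =>
      refine Mem.congr (fun K _ _ w _ => ?_) (Mem.zero k)
      have h : comb (s :: S) [] = [] := by
        rw [comb]
        intro h
        cases h
      show (0 : ℝ) = bev (comb (s :: S) []) w
      rw [h, bev_nil]
    | cons p c =>
      obtain ⟨r, hr⟩ := lev_tv p
      refine Mem.congr (fun K _ _ w _ => ?_)
        ((Mem.sm r (hS s List.mem_cons_self)).add (ih (fun v hv => hS v (List.mem_cons_of_mem _ hv)) c))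
      show tv K r * bev s w + bev (comb S c) w = bev (comb (s :: S) (p :: c)) w
      rw [comb, bev_vadd, bev_vmul, hr K]

theorem mem_veq {k : ℕ} {u v : List (List ℤ)} (h : cveq u v = true) (hu : Mem k (vfam u)) : Mem k (vfam v) := by
  exact Mem.congr (fun K _ _ w _ => bev_veq h w) hu

theorem mem_chkS {k : ℕ} {S : List (List (List ℤ))} (hS : ∀ v ∈ S, Mem k (vfam v)) {x : Lt} {c v : List (List ℤ)}
    (h : chkS S x c v = true) : Mem k (vfam v) := by
  unfold chkS at h
  rw [Bool.and_eq_true] at h
  refine mem_veq h.2 ?_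
  exact Mem.congr (fun K _ _ w hw => bev_appL h.1 hw) (Mem.lt x (z0_vfam _) (mem_comb hS c))

private theorem c_m_add {K : Type} [Field K] [Fintype K] (x : Lt) (f g : W5 K → ℝ) (w : W5 K) :
    x.op (fun v => f v + g v) w = x.op f w + x.op g w := by
  unfold Lt.op
  rw [Finset.sum_add_distrib, add_div]

theorem c_m_sum {k : ℕ} {S : List (List (List ℤ))} (hS : ∀ v ∈ S, Mem k (vfam v)) (x : Lt)
    (L : List (Lt × List (List ℤ))) (h : okL S x L = true) :
    Mem (k + 1) fun K _ _ w => x.op (bev (sumL S L)) w := by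
  induction L with
  | nil =>
    refine Mem.congr (fun K _ _ w _ => ?_) (Mem.zero (k + 1))
    show (0 : ℝ) = x.op (bev (sumL S [])) w
    unfold Lt.op
    rw [Finset.sum_eq_zero, zero_div]
    intro y _
    rw [sumL, bev_nil]
  | cons yc L ih =>
    obtain ⟨y, c⟩ := yc
    unfold okL at h
    rw [List.all_cons, Bool.and_eq_true, Bool.and_eq_true, decide_eq_true_eq] at h
    obtain ⟨⟨h1, h2⟩, h3⟩ := h
    refine Mem.congr (fun K _ _ w hw => ?_)
      ((Mem.pair x y (Ne.symm h2) (z0_vfam (comb S c)) (mem_comb hS c)).add (ih h3))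
    show x.op (y.op (bev (comb S c))) w + x.op (bev (sumL S L)) w = x.op (bev (sumL S ((y, c) :: L))) w
    have e1 : x.op (y.op (bev (comb S c))) w = x.op (bev (appL y (comb S c))) w := by
      refine op_congr x ?_ (fun v hv => bev_appL h1 hv) hw
      rw [bev_zero]
      unfold Lt.op
      rw [Finset.sum_eq_zero, zero_div]
      intro z _
      rw [X_zero, bev_zero]
    rw [e1, ← c_m_add]
    congr 1
    funext v
    rw [sumL, bev_vadd]

theorem mem_chkP {k : ℕ} {S : List (List (List ℤ))} (hS : ∀ v ∈ S, Mem k (vfam v)) {x : Lt}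
    {L : List (Lt × List (List ℤ))} {v : List (List ℤ)} (h : chkP S x L v = true) : Mem (k + 1) (vfam v) := by
  unfold chkP at h
  rw [Bool.and_eq_true, Bool.and_eq_true] at h
  obtain ⟨⟨h1, h2⟩, h3⟩ := h
  exact mem_veq h3 (Mem.congr (fun K _ _ w hw => bev_appL h2 hw) (c_m_sum hS x L h1))

/-- Nakayama's lemma for lists: `C`, `E` are the lists of the coefficients. -/
theorem mem_chkN {k : ℕ} {G T : List (List (List ℤ))} (hG : ∀ v ∈ G, Mem k (vfam v)) (C E : List (List (List ℤ)))
    (h : ∀ i < T.length, chkN G T (T.getD i []) (C.getD i []) (E.getD i []) = true) : ∀ v ∈ T, Mem k (vfam v) := by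
  intro v hv
  obtain ⟨i, hi, rfl⟩ := List.getElem_of_mem hv
  choose P hP using lev_tv
  have h1 := Mem.nakayama (k := k) (n := T.length) (fun i => vfam (T.getD i [])) (fun i j => P ((E.getD i []).getD j []))
    (fun i => ?_) ⟨i, hi⟩
  · refine Mem.congr (fun K _ _ w _ => ?_) h1
    show bev (T.getD i []) w = bev T[i] w
    rw [List.getD_eq_getElem _ _ hi]
  · refine Mem.congr (fun K _ _ w _ => ?_) (mem_comb hG (C.getD i []))
    have h2 := h i.1 i.2
    unfold chkN at h2
    have h3 := bev_veq h2 w
    rw [bev_vadd, bev_vmul, lev, lev, lev] at h3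
    rw [bev_comb T] at h3
    show bev (comb G (C.getD i [])) w = bev (T.getD i []) w - (qr K)⁻¹ *
      ∑ j : Fin T.length, tv K (P ((E.getD i []).getD j [])) * bev (T.getD j []) w
    have h4 : ∑ j : Fin T.length, tv K (P ((E.getD i []).getD j [])) * bev (T.getD j []) w =
        ∑ j : Fin T.length, lev (qr K)⁻¹ ((E.getD i []).getD j []) * bev (T.getD j []) w :=
      Finset.sum_congr rfl fun j _ => by rw [hP]
    rw [h4, ← h3]
    push_cast
    ring

end Pool.Agent.Pf4
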