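import Pool.Agent.Pf4.DtV1

/-!
# The certificate: images and combinations
-/

set_option autoImplicit false
set_option maxRecDepth 20000

namespace Pool.Agent.Pf4

/-- Steps. -/
def dsA1 : List (ℕ × Option Lt × List (List ℤ)) := [
  (0, none, [[1]]),
  (0, some .a, [[1]]),
  (0, some .h, [[1]])]

theorem m_sA1 {k : ℕ} (h : ∀ v ∈ sU, Mem k (vfam v)) : ∀ v ∈ sA1, Mem k (vfam v) :=
  mem_chkIs h dsA1 sA1 (by decide +kernel)

/-- Steps. -/
def dsA2 : List (ℕ × Option Lt × List (List ℤ)) := [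
  (0, none, [[1]]),
  (1, none, [[1, 0, 0, -1, 1], [-1]]),
  (2, none, [[1, 0, 0, -1, 1], [-1]]),
  (0, none, [[1, 0, 0, -1, 1], [-1]]),
  (0, none, [[-1, 0, 0, 1, 1, 1], [], [1]])]

theorem m_sA2 {k : ℕ} (h : ∀ v ∈ sA1, Mem k (vfam v)) : ∀ v ∈ sA2, Mem k (vfam v) :=
  mem_chkIs h dsA2 sA2 (by decide +kernel)

/-- Steps. -/
def dsA3 : List (ℕ × Option Lt × List (List ℤ)) := [
  (0, some .a, [[1]]),
  (1, some .a, [[1]]),
  (2, some .a, [[1]]),
  (0, some .a, [[], [1]]),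
  (1, some .a, [[], [1]]),
  (2, some .a, [[], [1]]),
  (0, some .a, [[], [], [1]]),
  (1, some .a, [[], [], [1]]),
  (2, some .a, [[], [], [1]]),
  (0, some .a, [[], [], [], [1]]),
  (1, some .a, [[], [], [], [1]]),
  (2, some .a, [[], [], [], [1]]),
  (0, some .h, [[1]]),
  (0, some .h, [[], [-1], [1]]),
  (0, some .h, [[], [-1], [], [1]]),
  (0, some .h, [[], [0, -1], [0, 1]]),
  (0, some .h, [[], [0, -1], [], [0, 1]]),
  (0, some .h, [[], [0, 0, -1], [0, 0, 1]]),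
  (0, some .h, [[], [0, 0, -1], [], [0, 0, 1]]),
  (0, some .h, [[], [0, 0, 0, -1], [0, 0, 0, 1]]),
  (0, some .h, [[], [0, 0, 0, -1], [], [0, 0, 0, 1]])]

theorem m_sA3 {k : ℕ} (h : ∀ v ∈ sA2, Mem k (vfam v)) : ∀ v ∈ sA3, Mem k (vfam v) :=
  mem_chkIs h dsA3 sA3 (by decide +kernel)

end Pool.Agent.Pf4
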