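import Pool.Agent.Pf4.DtV1

/-!
# The certificate: images and combinations
-/

set_option autoImplicit false
set_option maxRecDepth 20000

namespace Pool.Agent.Pf4

/-- Steps. -/
def dsA4 : List (ℕ × Option Lt × List (List ℤ)) := [
  (0, none, [[1]]),
  (0, none, [[], [1]]),
  (0, none, [[], [], [1]]),
  (0, none, [[], [], [], [1]]),
  (0, none, [[], [], [], [], [1]]),
  (0, none, [[], [-1], [], [1], [], [], [], [], [], [-1], [], [1], [], [], [-1], [1]]),
  (0, none, [[], [], [-1], [1], [], [], [], [], [], [], [-1], [1], [], [], [-1], [], [1]]),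
  (0, none, [[], [], [], [], [], [], [], [], [-1], [1]]),
  (0, none, [[], [], [], [], [], [], [], [], [-1], [], [1]]),
  (0, none, [[4], [], [-1], [-1], [1], [-1], [], [-1], [], [], [], [-1], [], [], [1], [], [], [-2]]),
  (0, none, [[1], [], [], [-1], [-1], [], [], [], [-1], [], [], [-1], [], [], [1], [], [], [-1]]),
  (0, none, [[], [], [], [], [], [], [1], [-1], [], [], [], [], [-1], [1], [], [1], [-1], [], [1], [], [1]]),
  (0, none, [[], [], [], [], [], [-1], [1], [], [1], [], [], [], [-1], [], [-1], [1], [], [], [], [1], [], [1]])]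

theorem m_sA4 {k : ℕ} (h : ∀ v ∈ (sA2 ++ sA3), Mem k (vfam v)) : ∀ v ∈ sA4, Mem k (vfam v) :=
  mem_chkIs h dsA4 sA4 (by decide +kernel)

end Pool.Agent.Pf4
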