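import Pool.Agent.Pf4.DtV1

/-!
# The certificate: images and combinations
-/

set_option autoImplicit false
set_option maxRecDepth 20000

namespace Pool.Agent.Pf4

/-- Steps. -/
def dsA5 : List (ℕ × Option Lt × List (List ℤ)) := [
  (0, some .a, [[], [], [], [], [], [], [], [], [], [-2], [1]]),
  (1, some .a, [[], [], [], [], [], [], [], [], [], [-2], [1]]),
  (2, some .a, [[], [], [], [], [], [], [], [], [], [-2], [1]]),
  (0, some .a, [[], [], [], [], [], [0, 0, 2, 1, -4, 4, 4, -3], [0, -1, 2, 2, -5, 4, 5, -3], [0, -1, 0, -3, -3, 6, 5,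
  -1], [1, 0, 0, -2, -3, 6, 4, -1], [], [], [], [2, -5, 0, 3, -4]]),
  (1, some .a, [[], [], [], [], [], [0, 0, 2, 1, -4, 4, 4, -3], [0, -1, 2, 2, -5, 4, 5, -3], [0, -1, 0, -3, -3, 6, 5,
  -1], [1, 0, 0, -2, -3, 6, 4, -1], [], [], [], [2, -5, 0, 3, -4]]),
  (2, some .a, [[], [], [], [], [], [0, 0, 2, 1, -4, 4, 4, -3], [0, -1, 2, 2, -5, 4, 5, -3], [0, -1, 0, -3, -3, 6, 5,
  -1], [1, 0, 0, -2, -3, 6, 4, -1], [], [], [], [2, -5, 0, 3, -4]]),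
  (0, some .a, [[], [], [], [], [3, -7, -3, 2, 8, -4, -13, 7, 3], [0, -3, 5, 6, -5, -5, 2, 2], [0, -2, 5, 6, -5, -5,
  2, 1], [1, -4, 5, 9, 4, -2, -6, 1], [0, -5, 4, 8, 4, -3, -6, 2], [1, -1, 0, -2, 0, 0, -1, 1], [1, -2, -2, -2, 0,
  -1, -1, 4], [], [2, -5, -2, 6, -3]])]

theorem m_sA5 {k : ℕ} (h : ∀ v ∈ sA4, Mem k (vfam v)) : ∀ v ∈ sA5, Mem k (vfam v) :=
  mem_chkIs h dsA5 sA5 (by decide +kernel)

end Pool.Agent.Pf4
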