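import Pool.Agent.Pf4.DtV1

/-!
# The certificate: images and combinations
-/

set_option autoImplicit false
set_option maxRecDepth 20000

namespace Pool.Agent.Pf4

/-- Steps. -/
def dsA6 : List (ℕ × Option Lt × List (List ℤ)) := [
  (0, some .a, [[], [], [], [], [0, -3, -2, 9, -6, -4, 3, 4, 2, -6, 5, 2], [0, 1, 0, -4, 1, 0, -1, -1, 5, 3], [0, 0,
  -1, -3, 2, 1, -1, 0, 5, 2, -1], [-1, 0, 3, -1, 0, 0, 1, 1, -1, 1], [0, 0, 3, -1, 0, -1, 0, 2, -1, 2, -1], [0, -1,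
  0, 0, -1, 1, 1, 1, 0, -1, 2], [0, -1, -2, 2, -2, 0, 1, 1, 2, 0, 2], [], [-2, 3, -1, 0, -1, 4, -3, -4], [], [0, 0,
  -1, -1, -1, 0, 1], [0, 0, -1, -2, -1]]),
  (0, some .a, [[], [], [], [], [], [], [], [], [], [], [], [], [], [1]]),
  (1, some .a, [[], [], [], [], [], [], [], [], [], [], [], [], [], [1]]),
  (2, some .a, [[], [], [], [], [], [], [], [], [], [], [], [], [], [1]]),
  (0, some .a, [[], [], [], [], [-6, 8, -1, 0, 0, -6, 7, -2, 2, -1, -4, -1], [-1, 1, 1, -3, -2, 4, 6, -2, -2, 0, -1],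
  [-1, 0, 1, -4, -1, 5, 6, -1, -1, -1], [-1, -2, 1, 2, 4, 2, 0, 2, 1, 1, -1], [-1, -3, 1, 2, 3, 1, 1, 2, 1, 2], [-2,
  0, -1, 0, 1, -1, 1, -1, 0, 0, -1], [-2, 2, -1, 2, 2, 0, 2, -3, -1, -2, -1], [], [-4, 0, 5, 3, -6, -2, 1, 1], [],
  [-1, -1, -1, 0, 1], [-1, -2, -1]]),
  (0, some .h, [[], [], [], [], [], [2, 9, -10, -11, -4, -5, -15, 3, -18, 20, 4, -6, 3], [5, -10, 15, -19, 28, 10,
  10, 9, -28, 94, 28, -12, 34], [0, 19, -8, -10, -14, -2, -4, -11, 19, -8, -4, 0, -1], [3, -4, -1, 15, -3, 6, -6, -4,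
  5, -42, -22, -9, -14], [], [], [-2, 4, -5, 3, 32, -40, 45, -25, -47, 53, -8], [2, -2, 8, -10, -14, 27, -26, 24, 38,
  -51, 8], [-3, -2, -3, 0, 5, -6, -7, 0, -2, -2], [2, 3, 2, -2, -4, -4, -3, 1, 1], [1, -1, 1, 2, -1, 10, 10, -1, 1,
  2], [2, 1, 6], [], [-2, -1, -6]]),
  (0, some .h, [[], [], [], [], [], [-7, 5, -22, 4, -21, -18, -9, -16, 13, -57, -39, 3, -28], [0, -2, 10, 13, -5, 20,
  -4, -3, 26, -36, 5, 3, -3], [-7, -12, 5, -4, 1, 23, 0, -4, -3, 36, 23, -4, 16], [2, -2, 4, 7, -2, -7, 10, -10, -15,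
  14, 3, 1, 1], [], [], [-4, 10, -8, 8, 11, -19, 31, -12, -7, 2], [-6, 10, -5, 3, 30, -34, 38, -28, -43, 55, -8], [3,
  2, 3, 4, -1, 7, 7, -1, 2, 2], [-3, -2, -5, -9, -4, -13, -10, 3, -1, -2], [0, 0, 2, 5, 5, 6, 3, -2, -1], [-2, -1,
  -6], [2, 1, 6]]),
  (0, some .a, [[], [], [], [], [0, 10, 0, -21, -12, 3, -4, -7, -7, -7, 7, 16], [-2, -3, 4, -6, -7, -12, 6, 18, -44,
  -1, 3, -16], [-2, -3, 4, -6, -6, -12, 5, 18, -44, -1, 3, -16], [-1, -3, -1, -4, -8, 8, -9, -7, 22, 8, 1, 8], [-1,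
  -4, -2, -4, -8, 7, -9, -6, 22, 8, 1, 8], [0, 2, 0, -1, -9, -6, 13, -1, -6, 8, 3, 1], [0, 6, 0, -3, -18, -13, 24,
  -4, -14, 17, 7], [], [0, 0, 6, 2, -12, 44, -36, -59, 53, -8], [], [0, -1, 1, -2, -9, -4, 2, -1, -1], [0, -1, 1, -1,
  -10, -4, 2, -1, -1], [0, -6], [1, 3], [1, 3], [1]]),
  (0, some .a, [[], [], [], [], [-13, 22, 16, 1, -23, -17, -9, -37, -15, -11, 19, -43], [-2, -3, 6, -5, -2, -12, 2,
  3, 13, 2, -20, 4], [-2, -4, 6, -4, -2, -11, 2, 2, 13, 2, -21, 5], [0, -9, -10, -1, 1, -2, -4, -6, -7, -9, 22, -9],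
  [0, -9, -9, -1, 2, -2, -5, -5, -8, -8, 21, -8], [-3, 4, 3, 4, 1, -14, -2, 14, -9, -17, 8, -7], [-5, 6, 7, 9, 1,
  -27, -6, 27, -20, -33, 14, -14], [], [0, -12, 7, -2, 15, -7, -3, 4, -2], [], [-2, -4, -1, 2, 0, -4, -1, 1], [-2,
  -3, -1, 2, -1, -4, -1, 1], [2, 3], [], [], [0, 2]]),
  (0, some .a, [[], [], [], [], [3, -18, -3, 31, 23, 12, 15, 13, 0, 17, 12, -25], [0, 2, 10, -6, 13, 1, 5, -14, -11,
  8, -7], [-1, 1, 9, -5, 13, 1, 6, -14, -11, 8, -8], [-1, 5, 2, -1, 2, 11, 1, 3, 7, -7, 11, -2], [0, 6, 2, -1, 1, 11,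
  1, 4, 8, -7, 10, -2], [1, -4, 0, 2, 16, 13, -24, 7, 18, -12, -3], [1, -10, 1, 2, 32, 25, -48, 15, 34, -25, -5, -1],
  [], [-2, 1, 6, -17, 3, 9, -11, 23], [], [-1, 0, 1, 5, 7, -1, -3, 1], [0, -1, 1, 5, 6, -2, -3, 1], [-4], [], [],
  [-2]]),
  (0, some .a, [[], [], [], [], [-1, -27, 22, 27, 26, -1, -54, -18, 1, -7, -22, 68], [-8, 13, -4, 4, 0, 18, 36, -55,
  3, 37, -30, 2], [-8, 12, -5, 4, 1, 19, 36, -56, 3, 38, -30, 2], [-5, 7, -2, -1, -3, -2, -23, 30, -9, -35, 6, 7],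
  [-5, 7, -2, -1, -4, -2, -23, 29, -9, -35, 6, 7], [-1, -3, -3, 7, 1, -3, 16, -23, -2, 40, -4, 5], [0, -7, -6, 15, 3,
  -5, 32, -46, -5, 79, -7, 8], [], [-4, 9, -8, -38, 49, -48, -83, 35, -8], [], [0, -3, -3, -9, -1, 12, -1, -4], [0,
  -3, -3, -10, -1, 13, 0, -5], [1], [4], [4], [-1]]),
  (0, some .a, [[], [], [], [], [-20, -4, 27, 29, 19, -2, -31, -57, -22, -5, 44, 24], [-11, 1, 11, -24, -16, -26, 16,
  -32, -45, 16, -16, -39], [-11, 2, 11, -25, -16, -26, 15, -32, -45, 16, -16, -38], [-8, -6, -22, -3, -4, 14, -16,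
  21, 22, -9, -35, 29], [-8, -5, -21, -3, -4, 15, -17, 21, 21, -8, -35, 29], [-4, -2, -1, 9, 9, -11, 6, 0, 4, 23, 10,
  -3], [-8, -3, -4, 19, 16, -22, 13, -1, 10, 46, 18, -6], [], [-16, -6, 19, -21, 30, 32, -54, 1, -85, 65, -8], [],
  [-3, -12, -9, -10, -18, -21, -18, -2, 4, -1], [-3, -11, -10, -11, -18, -22, -18, -3, 5, -1], [1, -6, -6], [4, 4,
  3], [4, 5, 3], [-2, 2]])]

theorem m_sA6 {k : ℕ} (h : ∀ v ∈ (sA4 ++ sA5), Mem k (vfam v)) : ∀ v ∈ sA6, Mem k (vfam v) :=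
  mem_chkIs h dsA6 sA6 (by decide +kernel)

end Pool.Agent.Pf4
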