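import Pool.Agent.Pf4.DtV2

/-!
# The certificate: images and combinations
-/

set_option autoImplicit false
set_option maxRecDepth 20000

namespace Pool.Agent.Pf4

/-- Steps. -/
def dsC : List (ℕ × Option Lt × List (List ℤ)) := [
  (0, some .a, [[], [], [], [], [], [], [], [], [], [], [], [], [], [1]]),
  (0, some .b, [[], [], [], [], [], [], [], [-1], [], [], [], [], [], [], [], [], [1]]),
  (0, some .h, [[], [], [], [], [], [], [], [-1], [-1], [], [], [], [], [], [], [1], [], [], [-1], [], [], [], [],
  [], [], [], [], [], [1]]),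
  (0, some .h, [[], [-1, 1], [], [], [], [0, -1], [], [0, -1], [], [0, 1], [], [], [], [], [], [], [], [], [], [],
  [], [], [-1], [], [], [], [], [], [0, -1], [-1]])]

theorem m_sC {k : ℕ} (h : ∀ v ∈ sB, Mem k (vfam v)) : ∀ v ∈ sC, Mem k (vfam v) :=
  mem_chkIs h dsC sC (by decide +kernel)

/-- Steps. -/
def dsG : List (ℕ × Option Lt × List (List ℤ)) := [
  (0, none, [[1], [], [], [], [], [], [-1], [], [], [-1], [-1], [-1], [], [], [], [], [], [], [-2]]),
  (0, none, [[], [1]]),
  (0, none, [[], [], [1]]),
  (0, none, [[], [], [], [1]]),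
  (0, none, [[], [], [], [], [2], [1], [], [], [], [], [1], [], [], [], [], [], [-1], [], [1]]),
  (0, none, [[], [], [], [], [], [1], [-1], [], [], [], [], [], [], [], [], [], [], [-1], [-1]]),
  (0, none, [[], [], [], [], [0, 1], [], [], [1], [1], [], [], [], [3], [], [], [], [], [], [], [], [], [], [1], [2],
  [], [], [5]]),
  (0, none, [[], [], [], [], [], [], [], [1]]),
  (0, none, [[], [], [], [], [], [], [], [], [1]]),
  (0, none, [[], [], [], [], [], [], [], [], [], [2], [1], [1], [], [], [], [], [], [], [1]]),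
  (0, none, [[], [], [], [], [], [], [], [], [], [0, 1], [], [], [6], [], [], [], [], [], [], [], [], [], [], [3],
  [], [], [10]]),
  (0, none, [[], [], [], [], [], [], [], [], [], [], [], [], [1]]),
  (0, none, [[], [], [], [], [], [], [], [], [], [], [], [], [], [1], [], [], [-1]]),
  (0, none, [[], [], [], [], [], [], [], [], [], [], [], [], [], [], [1], [], [], [-1]]),
  (0, none, [[], [], [], [], [], [], [], [], [], [], [], [], [], [], [], [1]]),
  (0, none, [[], [], [], [], [], [], [], [], [], [], [], [], [], [], [], [], [2], [], [1]]),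
  (0, none, [[], [], [], [], [], [], [], [], [], [], [], [], [], [], [], [], [], [2], [1]]),
  (0, none, [[], [], [], [], [], [], [], [], [], [], [], [], [], [], [], [], [], [], [1]]),
  (0, none, [[], [], [], [], [], [], [], [], [], [], [], [], [], [], [], [], [], [], [], [1]]),
  (0, none, [[], [], [], [], [], [], [], [], [], [], [], [], [], [], [], [], [], [], [], [], [1]]),
  (0, none, [[], [], [], [], [], [], [], [], [], [], [], [], [], [], [], [], [], [], [], [], [], [1]]),
  (0, none, [[], [], [], [], [], [], [], [], [], [], [], [], [], [], [], [], [0, 1], [], [], [], [], [], [1]]),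
  (0, none, [[], [], [], [], [], [], [], [], [], [], [], [], [], [], [], [], [], [0, 1], [], [], [], [], [1]]),
  (0, none, [[], [], [], [], [], [], [], [], [], [], [], [], [], [], [], [], [], [], [], [], [], [], [1]]),
  (0, none, [[], [], [], [], [], [], [], [], [], [], [], [], [], [], [], [], [], [], [], [], [], [], [], [1]]),
  (0, none, [[], [], [], [], [], [], [], [], [], [], [], [], [], [], [], [], [], [], [], [], [], [], [], [], [1]]),
  (0, none, [[], [], [], [], [], [], [], [], [], [], [], [], [], [], [], [], [], [], [], [], [], [], [], [], [], [1]]),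
  (0, none, [[], [], [], [], [], [], [], [], [], [], [], [], [], [], [], [], [], [], [], [], [], [], [], [], [], [],
  [1]]),
  (0, none, [[], [], [], [], [], [], [], [], [], [], [], [], [], [], [], [], [], [], [], [], [], [], [], [], [], [],
  [], [1]])]

theorem m_sG {k : ℕ} (h : ∀ v ∈ sD, Mem k (vfam v)) : ∀ v ∈ sG, Mem k (vfam v) :=
  mem_chkIs h dsG sG (by decide +kernel)

/-- Steps. -/
def dsR : List (ℕ × Option Lt × List (List ℤ)) := [
  (0, some .a, [[], [], [], [1]]),
  (0, some .a, [[1]]),
  (0, some .b, [[-1], [1]]),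
  (0, some .c, [[-1], [], [1]]),
  (0, some .h, [[], [], [], [4], [1], [], [], [], [], [], [], [2], [], [], [], [], [], [-1], [], [], [], [], [], [1]])]

theorem m_sR {k : ℕ} (h : ∀ v ∈ sQ, Mem k (vfam v)) : ∀ v ∈ sR, Mem k (vfam v) :=
  mem_chkIs h dsR sR (by decide +kernel)

/-- Steps. -/
def dsT : List (ℕ × Option Lt × List (List ℤ)) := [
  (0, some .b, [[], [1]])]

theorem m_sT {k : ℕ} (h : ∀ v ∈ sS, Mem k (vfam v)) : ∀ v ∈ sT, Mem k (vfam v) :=
  mem_chkIs h dsT sT (by decide +kernel)

end Pool.Agent.Pf4
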