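import Pool.Agent.Pf4.DtV2

/-!
# The certificate: lines of the lemma of Nakayama
-/

set_option autoImplicit false
set_option maxRecDepth 20000

namespace Pool.Agent.Pf4

/-- Coefficients. -/
def cDtD_0 : List (List (List ℤ)) := [
  [[1]],
  [[], [1], [], [], [], [], [], [], [], [], [], [], [], [], [], [], [], [], [], [], [], [], [], [], [], [-1], [], [],
  [], [-1], [], [], [-1], [], [-1]],
  [[], [], [1], [], [], [], [], [], [], [], [], [], [], [], [], [], [], [], [], [], [], [], [], [], [], [-1], [], [],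
  [], [-1], [], [], [-1], [], [-1]],
  [[], [], [], [1], [], [], [], [], [], [], [], [], [], [], [], [], [], [], [], [], [], [], [], [], [], [-1], [], [],
  [], [-1], [], [], [-1], [], [-1]],
  [[], [], [], [], [1], [], [], [-1], [-1], [], [], [], [], [], [], [-1], [], [], [-1], [], [], [-1], [1], [], [],
  [1], [], [], [], [], [], [], [1], [1], [1], [-1]],
  [[], [], [], [], [], [1], [], [], [], [], [], [], [-1], [], [], [], [], [], [-1], [], [], [1], [-1], [], [], [-1],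
  [], [], [], [], [], [], [1], [-1], [-1], [-2]],
  [[], [], [], [], [], [], [1], [], [], [], [], [], [-1], [], [], [], [], [], [-1], [], [], [1], [-1], [], [], [-1],
  [], [], [], [], [], [], [1], [-1], [-1], [-2]],
  [[], [], [], [], [], [], [], [], [1], [], [], [], [1], [], [], [1], [], [], [1], [], [], [1], [1], [], [], [1], [],
  [], [], [], [], [], [], [-1], [1], [-3]],
  [[], [], [], [], [], [], [], [1], [], [], [], [], [1], [], [], [1], [], [], [1], [], [], [1], [1], [], [], [1], [],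
  [], [], [], [], [], [], [-1], [1], [-3]],
  [[], [], [], [], [], [], [], [-1], [-1], [1], [], [], [], [], [], [-1], [], [], [-1], [], [], [-1], [], [], [],
  [-1], [], [], [], [1], [], [], [-1], [-1], [-1], [1]],
  [[], [], [], [], [], [], [], [], [], [], [1], [], [-1], [], [], [], [], [], [-1], [], [], [1], [-1], [], [], [],
  [], [], [], [], [], [], [1], [-1], [], [-2]],
  [[], [], [], [], [], [], [], [], [], [], [], [1], [-1], [], [], [], [], [], [-1], [], [], [1], [-1], [-1], [], [1],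
  [], [], [], [-1], [], [], [], [-1], [-1], [-2]],
  [[], [], [], [], [], [], [], [1], [1], [], [], [], [], [], [], [1], [], [], [1], [], [], [], [], [], [], [], [-1],
  [], [], [], [], [], [], [], [], [-1]],
  [[], [], [], [], [], [], [], [1], [-1], [], [], [], [1], [1], [], [1], [], [], [], [], [], [1], [1], [], [], [],
  [], [], [], [], [], [], [], [-1], [], [-3]]]

/-- Coefficients of the multiples of `t`. -/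
def eDtD_0 : List (List (List ℤ)) := [
  [],
  [[0, 0, 0, 0, 0, 2, 5, -2, -8, 2, -1], [0, 0, 0, 1, 6, -13, 3, -2], [0, -1, 3, -3, 12, -18, 3, -2], [0, -2, 9, -20,
  33, -26, 7, -2], [0, 0, 1, 4, -10, 9, -10, 3, -2], [0, 0, 0, 6, 0, 8, -10, 3, -2], [0, 0, 0, 0, 0, 0, -9, 3, -2],
  [0, 1, 0, -21], [0, 5, -1, -9, 11], [0, 0, 2, -9, 15, -3, 1], [0, 0, 0, 0, 0, 0, 0, 4], [0, -1, 1, -1, 2], [-1, 7,
  13, 42, 74, -143, 0, -30], [], [0, -1, 0, 1], [0, 2, -5, 3, -1], [0, 0, 2, -2, 4, -1, 1], [0, -1, 2, 0, 4, -1, 1],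
  [0, 1, -3, 7, 0, 7, -13, 0, -3], [-1, 0, -9, 0, 0, 1], [0, 0, 0, 0, 0, 1], [0, 0, 0, 0, -1, 1], [0, 0, 0, 1, 0, 0,
  13], [3, 5, -10, 32, 22, -54, -6, -12], [7, 0, 17, -3], [3, -11, 13, -3], [8, 5, 0, 0, 82, -192, -9, -42], [0, -1,
  191]],
  [[0, 0, 0, 0, 0, 2, 5, -2, -8, 2, -1], [0, 0, 0, 1, 6, -13, 3, -2], [0, -1, 3, -3, 12, -18, 3, -2], [0, -2, 9, -20,
  33, -26, 7, -2], [0, 0, 1, 4, -10, 9, -10, 3, -2], [0, 0, 0, 6, 0, 8, -10, 3, -2], [0, 0, 0, 0, 0, 0, -9, 3, -2],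
  [0, 1, 0, -21], [0, 5, -1, -9, 11], [0, 0, 2, -9, 15, -3, 1], [0, 0, 0, 0, 0, 0, 0, 4], [0, -1, 1, -1, 2], [-1, 7,
  13, 42, 74, -143, 0, -30], [], [0, -1, 0, 1], [0, 2, -5, 3, -1], [0, 0, 2, -2, 4, -1, 1], [0, -1, 2, 0, 4, -1, 1],
  [0, 1, -3, 7, 0, 7, -13, 0, -3], [-1, 0, -9, 0, 0, 1], [0, 0, 0, 0, 0, 1], [0, 0, 0, 0, -1, 1], [0, 0, 0, 1, 0, 0,
  13], [3, 5, -10, 32, 22, -54, -6, -12], [7, 0, 17, -3], [3, -11, 13, -3], [8, 5, 0, 0, 82, -192, -9, -42], [0, -1,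
  191]],
  [[0, 0, 0, 0, 0, 2, 5, -2, -8, 2, -1], [0, 0, 0, 1, 6, -13, 3, -2], [0, -1, 3, -3, 12, -18, 3, -2], [0, -2, 9, -20,
  33, -26, 7, -2], [0, 0, 1, 4, -10, 9, -10, 3, -2], [0, 0, 0, 6, 0, 8, -10, 3, -2], [0, 0, 0, 0, 0, 0, -9, 3, -2],
  [0, 1, 0, -21], [0, 5, -1, -9, 11], [0, 0, 2, -9, 15, -3, 1], [0, 0, 0, 0, 0, 0, 0, 4], [0, -1, 1, -1, 2], [-1, 7,
  13, 42, 74, -143, 0, -30], [], [0, -1, 0, 1], [0, 2, -5, 3, -1], [0, 0, 2, -2, 4, -1, 1], [0, -1, 2, 0, 4, -1, 1],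
  [0, 1, -3, 7, 0, 7, -13, 0, -3], [-1, 0, -9, 0, 0, 1], [0, 0, 0, 0, 0, 1], [0, 0, 0, 0, -1, 1], [0, 0, 0, 1, 0, 0,
  13], [3, 5, -10, 32, 22, -54, -6, -12], [7, 0, 17, -3], [3, -11, 13, -3], [8, 5, 0, 0, 82, -192, -9, -42], [0, -1,
  191]],
  [[0, 0, 0, -1, -3, -2, 10, -7, 7, -3, 0, 1], [0, 0, -4, 6, -3, 15, -11, 1, 2], [0, -1, 0, 4, -5, 14, -14, 1, 2],
  [0, 2, -11, 28, -42, 33, -9, -3, 2], [-1, 2, -4, 4, 7, -5, 10, -6, 1, 2], [0, 1, 0, 0, 0, -9, 0, -6, 1, 2], [0, 1,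
  0, 0, 0, 0, 11, -7, 1, 2], [0, -5, 7, 17, 0, 19], [0, -7, 15, -3, -5], [0, 0, -7, 13, -14, 9, 1, -1], [0, 0, 0, 0,
  0, 0, 0, 0, 1], [1, 0, -1, 1, -2], [11, -45, 67, -38, -35, 110, -103, 0, 30], [0, 0, -3, -1], [0, -1, -1, 1, 1],
  [-2, -2, 7, -5, 0, 1], [1, -1, -3, 0, -4, 3, -1, -1], [0, -2, -2, 3, -1, 3, -1, -1], [-1, -3, 0, 0, 0, -1, 9, -11,
  2, 3], [1, -3, 5, 0, 6, 0, -1], [1, -4, 0, -7, 3, 0, -1], [-1, 0, 0, 0, 3, -1, -1], [0, 3, -5, -1], [3, -31, 53,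
  -37, 5, 46, -42, 0, 12], [0, 0, -17, 0, -1], [0, 13, 0, 0, -1], [18, -77, 128, -91, 0, 145, -144, 3, 42], [0, 0, 0,
  -17]],
  [[0, 0, 0, -2, -6, 7, 35, -29, -22, 6, -3, 2], [0, 0, -2, 7, 3, -21, -10, -4, 4], [0, -5, 9, -6, 29, -32, -22, -4,
  4], [0, 0, 1, -9, 18, -18, 0, -12, 4], [-2, 4, -1, 11, -19, 2, -7, -3, -4, 4], [-1, 0, 0, 0, -16, 0, 0, -3, -4, 4],
  [-1, 0, 0, 6, -18, 4, 0, -5, -4, 4], [1, 1, 35, 0, -3, -19], [1, 9, 0, 0, 0, -7], [0, 3, -8, -7, 29, 9, 5, -2],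
  [-1, 0, 0, 0, 0, 0, 0, 0, 0, 5], [-1, 0, 1, -1, 2, 0, 0, -1], [21, -54, 38, -91, 95, 10, -62, -66], [0, 0, 3, 1],
  [0, -5, -2, 5, 2], [1, 4, -1, -1, -3, 2], [2, -5, 9, -3, 7, 3, 1, -2], [0, -4, 2, 6, 10, 3, 1, -2], [-1, -1, 5, 0,
  0, 0, -2, -9, -6], [-1, 7, -17, 0, 0, 2, -2], [2, 0, 0, 0, 0, 2, -2], [-5, 0, 0, 0, 3, 1], [0, 0, 17, -33, 21, 0,
  0, 0, 17], [18, -39, 28, -13, 36, 6, -30, -24, -6], [0, 0, 17, 15], [-5, -7, 11, 9], [59, -119, 0, 0, 138, 9, -99,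
  -84, -6], [0, 107, -113]],
  [[0, 0, 0, -2, -6, 7, 35, -29, -22, 6, -3, 2], [0, 0, -2, 7, 3, -21, -10, -4, 4], [0, -5, 9, -6, 29, -32, -22, -4,
  4], [0, 0, 1, -9, 18, -18, 0, -12, 4], [-2, 4, -1, 11, -19, 2, -7, -3, -4, 4], [-1, 0, 0, 0, -16, 0, 0, -3, -4, 4],
  [-1, 0, 0, 6, -18, 4, 0, -5, -4, 4], [1, 1, 35, 0, -3, -19], [1, 9, 0, 0, 0, -7], [0, 3, -8, -7, 29, 9, 5, -2],
  [-1, 0, 0, 0, 0, 0, 0, 0, 0, 5], [-1, 0, 1, -1, 2, 0, 0, -1], [21, -54, 38, -91, 95, 10, -62, -66], [0, 0, 3, 1],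
  [0, -5, -2, 5, 2], [1, 4, -1, -1, -3, 2], [2, -5, 9, -3, 7, 3, 1, -2], [0, -4, 2, 6, 10, 3, 1, -2], [-1, -1, 5, 0,
  0, 0, -2, -9, -6], [-1, 7, -17, 0, 0, 2, -2], [2, 0, 0, 0, 0, 2, -2], [-5, 0, 0, 0, 3, 1], [0, 0, 17, -33, 21, 0,
  0, 0, 17], [18, -39, 28, -13, 36, 6, -30, -24, -6], [0, 0, 17, 15], [-5, -7, 11, 9], [59, -119, 0, 0, 138, 9, -99,
  -84, -6], [0, 107, -113]],
  [[0, 0, 0, -3, -9, 1, 51, -37, -11, 3, -2, 3], [0, 0, -4, 13, -9, 3, -23, -1, 6], [0, -5, 6, 3, 13, -2, -40, -1,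
  6], [0, 1, -13, 41, -56, 39, -17, -13, 6], [-3, 6, -1, 8, -3, -17, 14, -12, -1, 6], [-1, 1, 0, 0, 0, -21, 0, -12,
  -1, 6], [-2, 1, 0, 0, 0, 0, 17, -15, -1, 6], [0, 5, 25, 5, 0, 21], [0, 7, 23, -31, -13], [0, 4, -17, 13, 4, 21, 5,
  -3], [-2, 3, 0, 0, 0, 0, 0, 0, -2], [-1, 0, -1, 1, -2], [0, -90, 71, 54, -77, 188, -213, 0, 90], [0, 0, 3, 1], [0,
  -5, -3, 5, 3], [3, -3, 11, -9, -2, 3], [3, -7, 7, 0, 0, 7, -1, -3], [0, -4, -2, 9, 5, 7, -1, -3], [-2, -5, 15, 0,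
  0, -4, 14, -24, 0, 9], [1, 0, -3, 0, 15, 0, -3], [3, 0, 0, -8, 10, 0, -3], [-3, 0, 0, 0, 7, -1, -3], [0, 0, -3, -1,
  0, 0, 0, -5], [16, -70, 83, -3, -9, 82, -90, 6, 36], [-1, 0, -17, 0, 1], [-19, 17, 0, 0, 1], [23, -176, 147, 66, 0,
  247, -306, 15, 126], [0, 0, 0, -83]],
  [[0, 0, 0, -3, -9, 1, 51, -37, -11, 3, -2, 3], [0, 0, -4, 13, -9, 3, -23, -1, 6], [0, -5, 6, 3, 13, -2, -40, -1,
  6], [0, 1, -13, 41, -56, 39, -17, -13, 6], [-3, 6, -1, 8, -3, -17, 14, -12, -1, 6], [-2, 1, 0, 0, 0, -21, 0, -12,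
  -1, 6], [-1, 1, 0, 0, 0, 0, 17, -15, -1, 6], [0, 5, 25, 5, 0, 21], [0, 7, 23, -31, -13], [0, 4, -17, 13, 4, 21, 5,
  -3], [-2, 3, 0, 0, 0, 0, 0, 0, -2], [-1, 0, -1, 1, -2], [0, -90, 71, 54, -77, 188, -213, 0, 90], [0, 0, 3, 1], [0,
  -5, -3, 5, 3], [3, -3, 11, -9, -2, 3], [3, -7, 7, 0, 0, 7, -1, -3], [0, -4, -2, 9, 5, 7, -1, -3], [-2, -5, 15, 0,
  0, -4, 14, -24, 0, 9], [1, 0, -3, 0, 15, 0, -3], [3, 0, 0, -8, 10, 0, -3], [-3, 0, 0, 0, 7, -1, -3], [0, 0, -3, -1,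
  0, 0, 0, -5], [16, -70, 83, -3, -9, 82, -90, 6, 36], [-1, 0, -17, 0, 1], [-19, 17, 0, 0, 1], [23, -176, 147, 66, 0,
  247, -306, 15, 126], [0, 0, 0, -83]],
  [[0, 0, 0, 1, 3, 2, -10, 7, -7, 3, 0, -1], [0, 0, 4, -6, 3, -15, 11, -1, -2], [0, 1, 0, -4, 5, -14, 14, -1, -2],
  [0, -2, 11, -28, 42, -33, 9, 3, -2], [1, -2, 4, -4, -7, 5, -10, 6, -1, -2], [1, -1, 0, 0, 0, 9, 0, 6, -1, -2], [1,
  -1, 0, 0, 0, 0, -11, 7, -1, -2], [0, 5, -7, -17, 0, -19], [0, 7, -15, 3, 5], [0, 0, 7, -13, 14, -9, -1, 1], [1, 0,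
  0, 0, 0, 0, 0, 0, -1], [0, 0, 1, -1, 2], [-14, 45, -67, 38, 35, -110, 103, 0, -30], [0, 0, 3, 1], [0, 1, 1, -1,
  -1], [-1, 2, -7, 5, 0, -1], [-1, 1, 3, 0, 4, -3, 1, 1], [0, 2, 2, -3, 1, -3, 1, 1], [1, 3, 0, 0, 0, 1, -9, 11, -2,
  -3], [-1, 3, -5, 0, -6, 0, 1], [-1, 4, 0, 7, -3, 0, 1], [1, 0, 0, 0, -3, 1, 1], [0, -3, 5, 1], [-8, 28, -53, 37,
  -5, -46, 42, 0, -12], [0, 0, 17, 0, 1], [0, -13, 0, 0, 1], [-20, 77, -128, 91, 0, -145, 144, -3, -42], [0, 0, 0,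
  17]],
  [[0, 0, 0, -2, -6, 4, 33, -27, -14, 4, -2, 2], [0, 0, -2, 7, -3, -8, -13, -2, 4], [0, -4, 6, -2, 17, -14, -25, -2,
  4], [0, 1, -6, 12, -15, 8, -7, -10, 4], [-2, 4, -1, 7, -9, -7, 3, -6, -2, 4], [-1, 0, 1, 0, 0, 0, 0, -6, -2, 4],
  [-1, 0, 3, 0, 0, 0, 0, -8, -2, 4], [1, 0, 23, -11, -19, 1], [1, 0, 13, -27, -3, 11], [0, 3, -10, 2, 14, 12, 4, -2],
  [-1, 0, 0, 0, 0, 0, 0, 0, -3, 5], [-1, 0, 0, 0, 0, 2, 0, -1], [20, -34, 25, 71, 45, 39, -110], [0, 0, 3, 1], [0,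
  -4, -2, 4, 2], [1, 1, 4, -4, -2, 2], [2, -5, 7, -1, 3, 4, 0, -2], [0, -3, 0, 6, 6, 4, 0, -2], [-1, -3], [0, 3, -8,
  0, 9, 1, -2], [2, 0, 2, -1, 6, 1, -2], [-3], [0, 21, 3, 0, 13, 3, -27, -9, 17], [18, -37, 38, 23, 22, 22, -48, 6,
  -6], [], [-9], [51, -87, 54, 120, 88, 49, -162, 12, -6]],
  [[0, 0, 0, -2, -6, 6, 38, -29, -22, 6, -3, 2], [0, 0, -2, 8, 3, -21, -10, -4, 4], [0, -5, 9, -5, 29, -32, -22, -4,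
  4], [0, -1, 3, -8, 18, -18, 0, -12, 4], [-2, 4, 0, 11, -19, 2, -7, -3, -4, 4], [-1, 0, 0, 0, -16, 0, 0, -3, -4, 4],
  [-1, 0, 0, 6, -18, 4, 0, -5, -4, 4], [1, 3, 35, 0, -3, -19], [1, 11, 0, 0, 0, -7], [0, 3, -8, -7, 29, 9, 5, -2],
  [-1, 0, 0, 0, 0, 0, 0, 0, 0, 5], [-1, 0, 1, -1, 2, 0, 0, -1], [20, -51, 38, -91, 95, 10, -62, -66], [0, 0, 3, 1],
  [0, -5, -2, 5, 2], [1, 3, -1, -1, -3, 2], [2, -5, 9, -3, 7, 3, 1, -2], [0, -4, 2, 6, 10, 3, 1, -2], [-1, 0, 0, 0,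
  0, 0, -2, -9, -6], [-1, 0, -17, 0, 0, 2, -2], [1, -3, 0, 0, 0, 2, -2], [-5, 0, 0, 0, 3, 1], [-3, 11, 17, -33, 21,
  0, 0, 0, 17], [19, -40, 28, -13, 36, 6, -30, -24, -6], [13, 0, 17, 15], [0, -7, 11, 9], [59, -114, 0, 0, 138, 9,
  -99, -84, -6], [0, 107, -113]],
  [[0, 0, 0, -1, -3, 1, 17, -12, -5, 1, -1, 1], [0, 0, -2, 5, 0, -2, -7, -1, 2], [0, -2, 3, 0, 8, -6, -12, -1, 2],
  [0, 0, -2, 7, -8, 5, -3, -5, 2], [-1, 2, -1, 5, -4, -1, 1, -3, -1, 2], [-1, 0, 0, 7, 0, 0, 0, -3, -1, 2], [-1, 0,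
  1, 0, 0, 0, 0, -4, -1, 2], [1, 0, 0, -5, -7], [1, 0, 9, -13, 1, 5], [0, 1, -5, 2, 5, 6, 2, -1], [-1], [0, -1, 0, 0,
  0, 1], [6, -25, 65, 25, 30, 18, -55, -18, 30], [], [0, -2, -1, 2, 1], [1, 0, 2, -2, -1, 1], [1, -2, 2, -1, 1, 2, 0,
  -1], [0, -2, 0, 3, 3, 2, 0, -1], [-1, 0, 3, 0, 0, 0, 0, 0, 0, 3], [0, 1, -4, 0, 0, 0, -1], [1, 0, 1, 0, 0, 0, -1],
  [0, 0, 0, 0, 0, 0, -1], [-5, 0, 9, 0, 9, 1, -13, -3], [11, -19, 37, 6, 17, 10, -24, -6, 12], [0, 0, 0, 9, 1], [-5,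
  0, -1, 5, 1], [21, -54, 0, 0, 0, 22, -81, -21, 42], [0, 201, 83, 113]],
  [[0, 0, 0, -3, -9, 4, 53, -39, -19, 5, -3, 3], [0, 0, -4, 13, -3, -10, -20, -3, 6], [0, -6, 9, -1, 25, -20, -37,
  -3, 6], [0, 0, -6, 20, -23, 13, -10, -15, 6], [-3, 6, -1, 12, -13, -8, 4, -9, -3, 6], [-2, 1, 2, 0, -8, -13, 0, -9,
  -3, 6], [-1, 1, 5, 11, -20, -1, 8, -12, -3, 6], [0, 0, 37, 0, 0, 1], [], [0, 4, -15, 4, 19, 18, 6, -3], [-2, 3, 0,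
  0, -6], [-1, 0, 0, 0, 0, 3], [0, -44, 114, 0, -9, 105, -165, -54, 90], [0, 0, 3, 1], [0, -6, -3, 6, 3], [3, 0, 6,
  -6, -3, 3], [3, -7, 9, -2, 4, 6, 0, -3], [0, -5, 0, 9, 9, 6, 0, -3], [-2, -3, 15, 8, -17, 4, 6, 0, 0, 9], [0, 0,
  -12, 0, 0, 0, -3], [3, 0, 3, 0, 0, 0, -3], [-5, 0, 0, 0, 0, 0, -3], [0, 0, 0, 0, 0, 0, -39, -9], [15, -51, 83, 9,
  11, 48, -72, -18, 36], [7, 0, 0, 27, 3], [-15, 0, -3, 17, 3], [31, -120, 0, 0, 0, 135, -243, -63, 126], [0, 373,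
  91, 65]]]

theorem kDtD_0 : chkNs (sB ++ sC) sD sD_0 cDtD_0 eDtD_0 = true := by decide +kernel

end Pool.Agent.Pf4
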