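import Pool.Agent.Pf4.DtV2

/-!
# The certificate: lines of the lemma of Nakayama
-/

set_option autoImplicit false
set_option maxRecDepth 20000

namespace Pool.Agent.Pf4

/-- Coefficients. -/
def cDtD_1 : List (List (List ℤ)) := [
  [[], [], [], [], [], [], [], [1], [-1], [], [], [], [1], [], [1], [1], [], [], [], [], [], [1], [1], [], [], [],
  [], [], [], [], [], [], [], [-1], [], [-3]],
  [[], [], [], [], [], [], [], [1], [-1], [], [], [], [1], [], [], [1], [], [], [], [], [], [1], [1], [], [], [], [],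
  [], [], [], [], [], [], [-1], [], [-3]],
  [[], [], [], [], [], [], [], [], [], [], [], [], [], [], [], [], [1]],
  [[], [], [], [], [], [], [], [], [], [], [], [], [], [], [], [], [], [1]],
  [[], [], [], [], [], [], [], [], [], [], [], [], [], [], [], [], [], [], [1], [], [], [], [], [], [], [1], [], [],
  [], [-1], [], [], [], [], [1]],
  [[], [], [], [], [], [], [], [], [], [], [], [], [], [], [], [], [], [], [], [1]],
  [[], [], [], [], [], [], [], [], [], [], [], [], [], [], [], [], [], [], [], [], [1]],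
  [[], [], [], [], [], [], [], [], [], [], [], [], [], [], [], [], [], [], [], [], [], [], [1], [], [], [], [], [],
  [], [], [], [], [], [1]],
  [[], [], [], [], [], [], [], [], [], [], [], [], [], [], [], [], [], [], [], [], [], [], [-1], [], [], [], [], [],
  [], [1]],
  [[], [], [], [], [], [], [], [], [], [], [], [], [], [], [], [], [], [], [], [], [], [], [], [], [], [], [], [],
  [], [-1], [], [], [-1]],
  [[], [], [], [], [], [], [], [], [], [], [], [], [], [], [], [], [], [], [], [], [], [], [], [], [1]],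
  [[], [], [], [], [], [], [], [], [], [], [], [], [], [], [], [], [], [], [], [], [], [], [], [], [], [1]],
  [[], [], [], [], [], [], [], [], [], [], [], [], [], [], [], [], [], [], [], [], [], [-1], [1], [], [], [1], [],
  [], [], [-1], [], [], [], [-1], [1]],
  [[], [], [], [], [], [], [], [], [], [], [], [], [], [], [], [], [], [], [], [], [], [], [], [], [], [], [], [],
  [], [1]]]

/-- Coefficients of the multiples of `t`. -/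
def eDtD_1 : List (List (List ℤ)) := [
  [[0, 0, 0, -3, -9, 4, 53, -39, -19, 5, -3, 3], [0, 0, -4, 13, -3, -10, -20, -3, 6], [0, -6, 9, -1, 25, -20, -37,
  -3, 6], [0, 0, -6, 20, -23, 13, -10, -15, 6], [-3, 6, -1, 12, -13, -8, 4, -9, -3, 6], [-2, 1, 2, 0, -8, -13, 0, -9,
  -3, 6], [-1, 1, 5, 11, -20, -1, 8, -12, -3, 6], [0, 0, 37, 0, 0, 1], [], [0, 4, -15, 4, 19, 18, 6, -3], [-2, 3, 0,
  0, -6], [-1, 0, 0, 0, 0, 3], [0, -44, 114, 0, -9, 105, -165, -54, 90], [0, 0, 3, 1], [0, -6, -3, 6, 3], [3, 0, 6,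
  -6, -3, 3], [3, -7, 9, -2, 4, 6, 0, -3], [0, -5, 0, 9, 9, 6, 0, -3], [-2, -3, 15, 8, -17, 4, 6, 0, 0, 9], [0, 0,
  -12, 0, 0, 0, -3], [3, 0, 3, 0, 0, 0, -3], [-5, 0, 0, 0, 0, 0, -3], [0, 0, 0, 0, 0, 0, -39, -9], [15, -51, 83, 9,
  11, 48, -72, -18, 36], [7, 0, 0, 27, 3], [-15, 0, -3, 17, 3], [31, -120, 0, 0, 0, 135, -243, -63, 126], [0, 373,
  91, 65]],
  [[0, 0, 0, -3, -9, 4, 53, -39, -19, 5, -3, 3], [0, 0, -4, 13, -3, -10, -20, -3, 6], [0, -6, 9, -1, 25, -20, -37,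
  -3, 6], [0, 0, -6, 20, -23, 13, -10, -15, 6], [-3, 6, -1, 12, -13, -8, 4, -9, -3, 6], [-2, 1, 2, 0, -8, -13, 0, -9,
  -3, 6], [-1, 1, 5, 11, -20, -1, 8, -12, -3, 6], [0, 0, 37, 0, 0, 1], [], [0, 4, -15, 4, 19, 18, 6, -3], [-2, 3, 0,
  0, -6], [-1, 0, 0, 0, 0, 3], [0, -44, 114, 0, -9, 105, -165, -54, 90], [0, 0, 3, 1], [0, -6, -3, 6, 3], [3, 0, 6,
  -6, -3, 3], [3, -7, 9, -2, 4, 6, 0, -3], [0, -5, 0, 9, 9, 6, 0, -3], [-2, -3, 15, 8, -17, 4, 6, 0, 0, 9], [0, 0,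
  -12, 0, 0, 0, -3], [3, 0, 3, 0, 0, 0, -3], [-5, 0, 0, 0, 0, 0, -3], [0, 0, 0, 0, 0, 0, -39, -9], [15, -51, 83, 9,
  11, 48, -72, -18, 36], [7, 0, 0, 27, 3], [-15, 0, -3, 17, 3], [31, -120, 0, 0, 0, 135, -243, -63, 126], [0, 373,
  91, 65]],
  [],
  [],
  [[0, 0, 0, 0, 0, -3, -2, 2, 8, -2, 1], [0, 0, 0, 0, -6, 13, -3, 2], [0, 1, -3, 4, -12, 18, -3, 2], [0, 1, -7, 21,
  -33, 26, -7, 2], [0, 0, 0, -4, 10, -9, 10, -3, 2], [0, 0, 0, -6, 0, -8, 10, -3, 2], [0, 0, 0, 0, 0, 0, 9, -3, 2],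
  [0, 1, 0, 21], [0, -3, 1, 9, -11], [0, 0, -2, 9, -15, 3, -1], [0, 0, 0, 0, 0, 0, 0, -4], [0, 1, -1, 1, -2], [0, -4,
  -13, -42, -74, 143, 0, 30], [], [0, 1, 0, -1], [0, -3, 5, -3, 1], [0, 0, -2, 2, -4, 1, -1], [0, 1, -2, 0, -4, 1,
  -1], [0, 0, 0, -7, 0, -7, 13, 0, 3], [1, -4, 9, 0, 0, -1], [0, -2, 0, 0, 0, -1], [0, 0, 0, 0, 1, -1], [-3, 7, 0,
  -1, 0, 0, -13], [0, -5, 10, -32, -22, 54, 6, 12], [0, 0, -17, 3], [0, 11, -13, 3], [-7, 0, 0, 0, -82, 192, 9, 42],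
  [0, 1, -191]],
  [],
  [],
  [[0, 0, 0, 0, 0, -1, -2, 3, 4, -2], [0, 0, -2, 2, 3, 4, -1], [0, 0, 0, 1, -1, 2, 1], [0, 0, 0, 1, -1, 2, 1], [0, 0,
  -2, 3, 1, 5, -1], [0, 0, -2], [0, 0, -2], [1, 0, 5, 1, 5, -1], [1, 0, 5, 1, 5, -1], [0, -1, 0, 2, -4], [], [1],
  [-6, -31, 21, -21, 15, -3], [0, 0, -3, -1], [], [], [0, 1, -3, -1, -1], [0, -1], [0, 0, -6], [], [0, 0, 0, 0, -1],
  [-1], [-1, 0, 1, 0, 5, -1], [-4, -10, 8, -11, 12, -2], [-1], [], [-10, -42, 35, -37, 25, -5]],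
  [[], [], [], [], [], [], [], [], [], [], [], [], [], [], [], [], [], [], [1], [], [], [], [], [], [], [], [-2]],
  [[0, 0, 0, 0, 0, -1, 3], [0, 0, 0, 1], [0, 0, 0, 1], [0, -1, 2, 1], [0, 0, 1], [0, 0, 1], [0, 0, 1], [], [], [],
  [], [], [-1, 15], [], [], [0, -1], [], [], [], [], [], [], [-1, 3], [2, 3], [-1], [-1], [0, 21]],
  [],
  [],
  [[0, 0, 0, 0, 0, -2, 0, -1, 4, 0, 1], [0, 0, 2, -2, -9, 9, -2, 2], [0, 1, -3, 3, -11, 16, -4, 2], [0, 1, -7, 20,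
  -32, 24, -8, 2], [0, 0, 2, -7, 9, -14, 11, -3, 2], [0, 0, 0, 0, 10, 0, 0, -3, 2], [0, 0, 0, -2, 4, -8, 0, -3, 2],
  [-1, 5, -17, 0, -21, 21], [-1, 1, 0, 0, 0, 19], [0, 1, -2, 7, -11, 3, -1], [0, 0, 0, 0, 0, 0, 0, -4], [0, 0, -1, 1,
  -2], [5, 3, -10, 63, -89, 32, 0, 30], [0, 0, 3, 1], [0, 1, 0, -1], [-1, -3, 5, -3, 1], [0, -1, 1, 3, -3, 1, -1],
  [0, 2, -2, 0, -4, 1, -1], [-1, 0, 0, 0, 0, 0, 4, 0, 3], [1, 0, 9, 0, 0, -1], [0, -2, 0, 0, 0, -1], [3, 0, 0, 0, 1,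
  -1], [-3, 15, -11, 13, -19, 0, -13], [4, -4, 10, 7, -34, 18, 6, 12], [-7, 0, -17, 3], [0, 11, -13, 5], [5, 10, 0,
  0, -107, 45, 9, 42], [0, -5, 107]],
  [[], [], [], [], [], [], [], [], [], [], [], [], [], [], [], [], [], [], [], [], [], [], [], [], [], [], [-1]]]

theorem kDtD_1 : chkNs (sB ++ sC) sD sD_1 cDtD_1 eDtD_1 = true := by decide +kernel

end Pool.Agent.Pf4
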