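import Pool.Agent.Pf4.CChk

/-!
# The certificate: images of pairs of letters
-/

set_option autoImplicit false
set_option maxRecDepth 20000

namespace Pool.Agent.Pf4

/-- Images of pairs. -/
def sP_0 : List (List (List ℤ)) := [
  [[0, 0, 0, 0, 2, -2, -4, 11, -10, 3], [0, 0, 0, 0, 0, 1, -1, -5, 8, -3], [0, 0, 0, 0, 0, 0, -2, 3, -1], [0, 0, 0,
  0, 0, 0, -2, 3, -1], [0, 0, 0, 0, 0, 0, -2, 3, -1], [0, 0, 0, 0, 0, 0, -2, 5, -2], [], [], [0, 0, 0, 0, 1, 0, -3,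
  1, 1, -1], [0, 0, 0, 0, 0, 0, 2, -5, 2], [0, 0, 0, 0, 0, 0, 2, -5, 2], [0, 0, 0, 1, -4, -1, 16, -15, 3, 1], [0, 0,
  0, 0, 0, 0, 2, -5, 2], [0, 0, 0, 0, 0, 0, 2, -5, 2], [0, 0, 0, 1, -3, -1, 10, -9, 3], [0, 0, 0, 0, 0, -2, 3, 1,
  -1], [0, 0, 0, 0, 1, -1, -4, 7, -2], [0, 0, 0, 0, 0, 0, 0, 2, -1], [0, 0, 0, 0, 0, 0, 0, 2, -1], [0, 0, 0, 0, 1, 0,
  -5, 5, -2]],
  [[0, 0, 0, 0, 2, -2, -4, 11, -10, 3], [0, 0, 0, 0, 0, 1, -1, -5, 8, -3], [0, 0, 0, 0, 0, 0, -2, 3, -1], [0, 0, 0,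
  0, 0, 0, -2, 5, -2], [0, 0, 0, 0, 0, 0, -2, 3, -1], [0, 0, 0, 0, 0, 0, -2, 3, -1], [0, 0, 0, 0, 1, 0, -3, 1, 1,
  -1], [], [], [0, 0, 0, 1, -4, -1, 16, -15, 3, 1], [0, 0, 0, 0, 0, 0, 2, -5, 2], [0, 0, 0, 0, 0, 0, 2, -5, 2], [0,
  0, 0, 1, -3, -1, 10, -9, 3], [0, 0, 0, 0, 0, 0, 2, -5, 2], [0, 0, 0, 0, 0, 0, 2, -5, 2], [0, 0, 0, 0, 0, -2, 3, 1,
  -1], [0, 0, 0, 0, 1, -1, -4, 7, -2], [0, 0, 0, 0, 1, 0, -5, 5, -2], [0, 0, 0, 0, 0, 0, 0, 2, -1], [0, 0, 0, 0, 0,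
  0, 0, 2, -1]],
  [[0, 0, 0, 0, 2, -2, -4, 11, -10, 3], [0, 0, 0, 0, 0, 1, -1, -5, 8, -3], [0, 0, 0, 0, 0, 0, -2, 3, -1], [0, 0, 0,
  0, 0, 0, -2, 3, -1], [0, 0, 0, 0, 0, 0, -2, 5, -2], [0, 0, 0, 0, 0, 0, -2, 3, -1], [], [0, 0, 0, 0, 1, 0, -3, 1, 1,
  -1], [], [0, 0, 0, 0, 0, 0, 2, -5, 2], [0, 0, 0, 1, -4, -1, 16, -15, 3, 1], [0, 0, 0, 0, 0, 0, 2, -5, 2], [0, 0, 0,
  0, 0, 0, 2, -5, 2], [0, 0, 0, 1, -3, -1, 10, -9, 3], [0, 0, 0, 0, 0, 0, 2, -5, 2], [0, 0, 0, 0, 0, -2, 3, 1, -1],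
  [0, 0, 0, 0, 1, -1, -4, 7, -2], [0, 0, 0, 0, 0, 0, 0, 2, -1], [0, 0, 0, 0, 1, 0, -5, 5, -2], [0, 0, 0, 0, 0, 0, 0,
  2, -1]],
  [[], [], [], [0, 0, 0, 0, 0, 0, 2, -9, 18, -15, 4], [], [0, 0, 0, 0, 0, 0, -2, 9, -18, 15, -4], [0, 0, 0, 0, 0, 0,
  2, -5, 2, 2, -1], [], [0, 0, 0, 0, 0, 0, -2, 5, -2, -2, 1], [0, 0, 0, 0, 0, 0, -2, 1, 12, -16, 5], [], [0, 0, 0, 0,
  0, 0, 2, -1, -12, 16, -5], [0, 0, 0, 1, -2, 0, 1, 2, 2, -6, 2], [], [0, 0, 0, -1, 2, 0, -1, -2, -2, 6, -2], [], [],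
  [0, 0, 0, 0, 0, -1, 3, -3, -4, 7, -2], [], [0, 0, 0, 0, 0, 1, -3, 3, 4, -7, 2]],
  [[], [], [], [], [0, 0, 0, 0, 0, 0, 2, -9, 18, -15, 4], [0, 0, 0, 0, 0, 0, -2, 9, -18, 15, -4], [], [0, 0, 0, 0, 0,
  0, 2, -5, 2, 2, -1], [0, 0, 0, 0, 0, 0, -2, 5, -2, -2, 1], [], [0, 0, 0, 0, 0, 0, -2, 1, 12, -16, 5], [0, 0, 0, 0,
  0, 0, 2, -1, -12, 16, -5], [], [0, 0, 0, 1, -2, 0, 1, 2, 2, -6, 2], [0, 0, 0, -1, 2, 0, -1, -2, -2, 6, -2], [], [],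
  [], [0, 0, 0, 0, 0, -1, 3, -3, -4, 7, -2], [0, 0, 0, 0, 0, 1, -3, 3, 4, -7, 2]],
  [[0, 0, 0, 0, 0, 1, -8, 23, -38, 39, -20, 3], [0, 0, 0, 0, 0, 0, 2, -8, 20, -29, 18, -3], [0, 0, 0, 0, 0, -1, 2, 1,
  -5, 4, -1], [0, 0, 0, 0, 0, 1, -3, 6, -7, 2, 1], [0, 0, 0, 0, 0, 1, -3, 6, -7, 2, 1], [0, 0, 0, 0, 0, 0, 2, -1, -5,
  6, -2], [], [], [0, 0, 0, 0, 0, 0, -1, 3, -3, -1, 3, -1], [0, 0, 0, 0, 1, -5, 9, -12, 13, -6], [0, 0, 0, 0, 1, -5,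
  9, -12, 13, -6], [0, 0, 0, 0, 1, -7, 20, -38, 41, -15, -3, 1], [0, 0, 0, 0, -1, 2, -2, -2, 8, -7, 2], [0, 0, 0, 0,
  -1, 2, -2, -2, 8, -7, 2], [0, 0, 0, 0, 0, -1, 8, -22, 28, -16, 3], [0, 0, 0, 0, 0, 1, 1, -4, 1, 2, -1], [0, 0, 0,
  0, -1, 6, -15, 25, -25, 8, 2], [0, 0, 0, 0, 0, 0, 1, -1, -2, 3, -1], [0, 0, 0, 0, 0, 0, 1, -1, -2, 3, -1], [0, 0,
  0, 0, 0, 0, -2, 10, -17, 11, -2]],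
  [[0, 0, 0, 0, 0, 1, -8, 23, -38, 39, -20, 3], [0, 0, 0, 0, 0, 0, 2, -8, 20, -29, 18, -3], [0, 0, 0, 0, 0, -1, 2, 1,
  -5, 4, -1], [0, 0, 0, 0, 0, 0, 2, -1, -5, 6, -2], [0, 0, 0, 0, 0, 1, -3, 6, -7, 2, 1], [0, 0, 0, 0, 0, 1, -3, 6,
  -7, 2, 1], [0, 0, 0, 0, 0, 0, -1, 3, -3, -1, 3, -1], [], [], [0, 0, 0, 0, 1, -7, 20, -38, 41, -15, -3, 1], [0, 0,
  0, 0, 1, -5, 9, -12, 13, -6], [0, 0, 0, 0, 1, -5, 9, -12, 13, -6], [0, 0, 0, 0, 0, -1, 8, -22, 28, -16, 3], [0, 0,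
  0, 0, -1, 2, -2, -2, 8, -7, 2], [0, 0, 0, 0, -1, 2, -2, -2, 8, -7, 2], [0, 0, 0, 0, 0, 1, 1, -4, 1, 2, -1], [0, 0,
  0, 0, -1, 6, -15, 25, -25, 8, 2], [0, 0, 0, 0, 0, 0, -2, 10, -17, 11, -2], [0, 0, 0, 0, 0, 0, 1, -1, -2, 3, -1],
  [0, 0, 0, 0, 0, 0, 1, -1, -2, 3, -1]],
  [[0, 0, 0, 0, 0, 1, -8, 23, -38, 39, -20, 3], [0, 0, 0, 0, 0, 0, 2, -8, 20, -29, 18, -3], [0, 0, 0, 0, 0, -1, 2, 1,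
  -5, 4, -1], [0, 0, 0, 0, 0, 1, -3, 6, -7, 2, 1], [0, 0, 0, 0, 0, 0, 2, -1, -5, 6, -2], [0, 0, 0, 0, 0, 1, -3, 6,
  -7, 2, 1], [], [0, 0, 0, 0, 0, 0, -1, 3, -3, -1, 3, -1], [], [0, 0, 0, 0, 1, -5, 9, -12, 13, -6], [0, 0, 0, 0, 1,
  -7, 20, -38, 41, -15, -3, 1], [0, 0, 0, 0, 1, -5, 9, -12, 13, -6], [0, 0, 0, 0, -1, 2, -2, -2, 8, -7, 2], [0, 0, 0,
  0, 0, -1, 8, -22, 28, -16, 3], [0, 0, 0, 0, -1, 2, -2, -2, 8, -7, 2], [0, 0, 0, 0, 0, 1, 1, -4, 1, 2, -1], [0, 0,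
  0, 0, -1, 6, -15, 25, -25, 8, 2], [0, 0, 0, 0, 0, 0, 1, -1, -2, 3, -1], [0, 0, 0, 0, 0, 0, -2, 10, -17, 11, -2],
  [0, 0, 0, 0, 0, 0, 1, -1, -2, 3, -1]],
  [[0, 0, 0, 0, 0, 0, 3, -4, -11, 34, -31, 9], [0, 0, 0, 0, 0, 0, 0, 1, 2, -18, 24, -9], [0, 0, 0, 0, 0, 0, -1, 5,
  -9, 6, -1], [0, 0, 0, 0, 0, 0, 0, 2, -7, 7, -2], [0, 0, 0, 0, 0, 0, 0, 2, -7, 7, -2], [0, 0, 0, 0, 0, 0, 0, 3, -11,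
  12, -3], [], [], [0, 0, 0, 0, 0, 0, 1, -3, 3, -6, 8, -4], [0, 0, 0, 0, 0, 0, 0, -3, 11, -12, 3], [0, 0, 0, 0, 0, 0,
  0, -3, 11, -12, 3], [0, 0, 0, 0, 0, 1, -5, -1, 27, -30, 5, 4], [0, 0, 0, 0, 0, -1, 4, -8, 12, -10, 2], [0, 0, 0, 0,
  0, -1, 4, -8, 12, -10, 2], [0, 0, 0, 0, 0, 0, 3, -21, 47, -42, 14], [0, 0, 0, 0, 0, 0, 2, -6, 3, 3, -1], [0, 0, 0,
  0, 0, 0, 0, 3, -13, 16, -5], [0, 0, 0, 0, 0, 0, 0, 1, -4, 5, -1], [0, 0, 0, 0, 0, 0, 0, 1, -4, 5, -1], [0, 0, 0, 0,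
  0, 0, -2, 13, -31, 31, -12]]]

/-- Images of pairs. -/
def sP_1 : List (List (List ℤ)) := [
  [[0, 1, 0, 0, -2, -4, -4, 35, -58, 56, -49, 42, -3, -6], [0, 0, 0, 0, 0, -1, -1, 0, 22, -43, 52, -48, 7, 6], [0, 0,
  0, 0, 0, -2, 2, 4, -9, 9, -3, -5, 2], [0, 0, 0, 0, 0, 0, -2, 21, -48, 57, -36, -1, 6], [0, 0, 0, 0, 0, 0, -2, 21,
  -48, 57, -36, -1, 6], [0, 0, 0, 0, 0, 0, 2, 12, -38, 46, -26, -6, 4], [0, 0, 0, 0, 0, 0, 0, 0, -2, 4, -4], [0, 0,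
  0, 0, 0, 0, 0, 0, -2, 4, -4], [0, 0, 0, 0, 0, -1, -2, 6, -9, 13, -12, 6, -1, 2], [0, 0, 0, 0, 0, -2, 7, -27, 52,
  -62, 45, 4, -8], [0, 0, 0, 0, 0, -2, 7, -27, 52, -62, 45, 4, -8], [0, 0, 0, -1, 0, 5, 17, -86, 141, -140, 76, 6,
  -15, -2], [0, 0, 0, 0, -2, 2, 0, -7, 13, -11, 7, 8, -4], [0, 0, 0, 0, -2, 2, 0, -7, 13, -11, 7, 8, -4], [0, 0, 0,
  -2, 0, 7, -3, -5, 6, -9, 7, 5, -6], [0, 0, 0, 0, 0, 2, 2, -4, 1, 3, -9, -1, 2], [0, 0, 0, 0, -1, 1, -7, 36, -63,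
  76, -55, -6, 12], [0, 0, 0, 0, 0, 0, 2, 0, -6, 7, -6, -3, 2], [0, 0, 0, 0, 0, 0, 2, 0, -6, 7, -6, -3, 2], [0, 0, 0,
  0, 0, -2, 4, -4, 5, 5, -11, 2, 4]],
  [[0, 0, -1, 0, 0, -1, 6, 5, -12, 7, -27, 77, -70, 7], [0, 0, 0, 0, 0, 0, 1, -3, 8, -8, 6, -49, 59, -7], [0, 0, 0,
  0, 0, 0, 2, -2, -3, 5, -8, 11, -3], [0, 0, 0, 0, 0, 0, -2, 9, -26, 35, -31, 1, 16], [0, 0, 0, 0, 0, 0, -2, 9, -26,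
  35, -31, 1, 16], [0, 0, 0, 0, 0, 0, 0, -4, 0, 6, -15, 23, -7], [0, 0, 0, 0, 0, 0, 0, 0, 0, 0, 0, 2], [0, 0, 0, 0,
  0, 0, 0, 0, 0, 0, 0, 2], [0, 0, 0, 0, 0, 0, -3, 15, -14, -6, 16, -14, 7, 1], [0, 0, 0, 0, 0, 0, -1, 11, -12, -10,
  44, -35, -5], [0, 0, 0, 0, 0, 0, -1, 11, -12, -10, 44, -35, -5], [0, 0, 0, 0, -1, 5, 1, -39, 75, -72, 74, -19, -28,
  -1], [0, 0, 0, 0, 0, 2, -2, 1, 7, -11, 12, -18, 6], [0, 0, 0, 0, 0, 2, -2, 1, 7, -11, 12, -18, 6], [0, 0, 0, 0, 2,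
  -1, 8, -40, 70, -81, 81, -34, -6], [0, 0, 0, 0, 0, 0, -2, -2, 1, -2, 5, 4, -3], [0, 0, 0, 0, 0, 1, 2, -11, 12, 14,
  -71, 46, 17], [0, 0, 0, 0, 0, 0, 0, -2, 0, 3, -2, 8, -3], [0, 0, 0, 0, 0, 0, 0, -2, 0, 3, -2, 8, -3], [0, 0, 0, 0,
  0, 1, -7, 31, -65, 73, -58, 16, 9]],
  [[0, 0, -1, 0, 0, -1, 6, 5, -12, 7, -27, 77, -70, 7], [0, 0, 0, 0, 0, 0, 1, -3, 8, -8, 6, -49, 59, -7], [0, 0, 0,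
  0, 0, 0, 2, -2, -3, 5, -8, 11, -3], [0, 0, 0, 0, 0, 0, 0, -4, 0, 6, -15, 23, -7], [0, 0, 0, 0, 0, 0, -2, 9, -26,
  35, -31, 1, 16], [0, 0, 0, 0, 0, 0, -2, 9, -26, 35, -31, 1, 16], [0, 0, 0, 0, 0, 0, -3, 15, -14, -6, 16, -14, 7,
  1], [0, 0, 0, 0, 0, 0, 0, 0, 0, 0, 0, 2], [0, 0, 0, 0, 0, 0, 0, 0, 0, 0, 0, 2], [0, 0, 0, 0, -1, 5, 1, -39, 75,
  -72, 74, -19, -28, -1], [0, 0, 0, 0, 0, 0, -1, 11, -12, -10, 44, -35, -5], [0, 0, 0, 0, 0, 0, -1, 11, -12, -10, 44,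
  -35, -5], [0, 0, 0, 0, 2, -1, 8, -40, 70, -81, 81, -34, -6], [0, 0, 0, 0, 0, 2, -2, 1, 7, -11, 12, -18, 6], [0, 0,
  0, 0, 0, 2, -2, 1, 7, -11, 12, -18, 6], [0, 0, 0, 0, 0, 0, -2, -2, 1, -2, 5, 4, -3], [0, 0, 0, 0, 0, 1, 2, -11, 12,
  14, -71, 46, 17], [0, 0, 0, 0, 0, 1, -7, 31, -65, 73, -58, 16, 9], [0, 0, 0, 0, 0, 0, 0, -2, 0, 3, -2, 8, -3], [0,
  0, 0, 0, 0, 0, 0, -2, 0, 3, -2, 8, -3]],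
  [[0, 0, -1, 0, 0, -1, 6, 5, -12, 7, -27, 77, -70, 7], [0, 0, 0, 0, 0, 0, 1, -3, 8, -8, 6, -49, 59, -7], [0, 0, 0,
  0, 0, 0, 2, -2, -3, 5, -8, 11, -3], [0, 0, 0, 0, 0, 0, -2, 9, -26, 35, -31, 1, 16], [0, 0, 0, 0, 0, 0, 0, -4, 0, 6,
  -15, 23, -7], [0, 0, 0, 0, 0, 0, -2, 9, -26, 35, -31, 1, 16], [0, 0, 0, 0, 0, 0, 0, 0, 0, 0, 0, 2], [0, 0, 0, 0, 0,
  0, -3, 15, -14, -6, 16, -14, 7, 1], [0, 0, 0, 0, 0, 0, 0, 0, 0, 0, 0, 2], [0, 0, 0, 0, 0, 0, -1, 11, -12, -10, 44,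
  -35, -5], [0, 0, 0, 0, -1, 5, 1, -39, 75, -72, 74, -19, -28, -1], [0, 0, 0, 0, 0, 0, -1, 11, -12, -10, 44, -35,
  -5], [0, 0, 0, 0, 0, 2, -2, 1, 7, -11, 12, -18, 6], [0, 0, 0, 0, 2, -1, 8, -40, 70, -81, 81, -34, -6], [0, 0, 0, 0,
  0, 2, -2, 1, 7, -11, 12, -18, 6], [0, 0, 0, 0, 0, 0, -2, -2, 1, -2, 5, 4, -3], [0, 0, 0, 0, 0, 1, 2, -11, 12, 14,
  -71, 46, 17], [0, 0, 0, 0, 0, 0, 0, -2, 0, 3, -2, 8, -3], [0, 0, 0, 0, 0, 1, -7, 31, -65, 73, -58, 16, 9], [0, 0,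
  0, 0, 0, 0, 0, -2, 0, 3, -2, 8, -3]],
  [[0, 0, 0, 0, 2, -2, -11, 13, 33, -66, 6, 71, -61, 15], [0, 0, 0, 0, 0, 0, -1, 3, -5, 5, 7, -28, 27, -6], [0, 0, 0,
  0, 0, 0, 0, -2, 8, -11, 0, 13, -13, 3], [0, 0, 0, 0, 0, -2, 1, 21, -52, 33, 35, -76, 55, -15], [0, 0, 0, 0, 0, -2,
  0, 29, -76, 70, 7, -61, 44, -11], [0, 0, 0, 0, 0, -2, 2, 20, -60, 66, -16, -28, 25, -7], [0, 0, 0, 0, 0, 0, 0, -2,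
  6, -3, -2, 0, 1], [0, 0, 0, 0, 0, 0, 0, 0, 0, 2, -5, 2, 2, -1], [0, 0, 0, 0, 0, 0, 2, -5, 0, 10, -11, 1, 5, -2],
  [0, 0, 0, 0, 0, 1, 3, -24, 53, -61, 25, 22, -30, 9], [0, 0, 0, 0, 0, 2, -3, -12, 39, -46, 16, 29, -41, 14], [0, 0,
  0, 0, 0, 2, -5, -11, 52, -60, 2, 61, -62, 19], [0, 0, 0, 0, 1, -4, 2, 16, -33, 6, 42, -52, 27, -3], [0, 0, 0, 0, 1,
  -2, -6, 26, -37, 14, 32, -48, 23, -1], [0, 0, 0, 1, -1, -3, -2, 24, -30, 0, 39, -43, 16, 1], [0, 0, 0, 0, -2, 4,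
  10, -46, 79, -73, 12, 51, -48, 9], [0, 0, 0, 0, 0, -1, 4, -2, -13, 37, -39, -2, 35, -15], [0, 0, 0, 0, 0, 0, 0, 1,
  1, 2, -15, 22, -11], [0, 0, 0, 0, 0, 0, 0, 1, 2, -5, -7, 17, -6, -2], [0, 0, 0, 0, 0, -1, 3, -1, -6, 9, -10, 8, 2,
  -4]],
  [[0, 0, 0, 0, 0, -4, -7, 24, 10, -103, 174, -128, 18, 29, -3], [0, 0, 0, 0, 0, 0, 0, -5, 9, 33, -104, 99, -14, -27,
  3], [0, 0, 0, 0, 0, 0, -1, 2, 3, -18, 23, -13, -1, 1], [0, 0, 0, 0, 0, 0, -1, 7, -17, 35, -65, 71, -27, -5], [0, 0,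
  0, 0, 0, 0, -1, 7, -17, 35, -65, 71, -27, -5], [0, 0, 0, 0, 0, 0, -1, 6, -9, -7, 24, -31, 0, 2], [0, 0, 0, 0, 0, 0,
  0, 0, -1, 0, -1, -2], [0, 0, 0, 0, 0, 0, 0, 0, -1, 0, -1, -2], [0, 0, 0, 0, 0, 0, -1, -6, 27, -24, -14, 48, -23,
  -2, 1], [0, 0, 0, 0, 0, -1, 3, -2, -12, 34, -21, -9, 16, 4], [0, 0, 0, 0, 0, -1, 3, -2, -12, 34, -21, -9, 16, 4],
  [0, 0, 0, 0, 0, -5, 22, -16, -51, 61, 60, -159, 75, 10, -1], [0, 0, 0, 0, 0, -1, 2, 3, -15, 39, -36, 25, 1, -2],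
  [0, 0, 0, 0, 0, -1, 2, 3, -15, 39, -36, 25, 1, -2], [0, 0, 0, 0, 0, -1, 5, 24, -104, 155, -108, -3, 31, -3], [0, 0,
  0, 0, 0, 0, 1, -1, -6, 3, 2, -13, 1, 1], [0, 0, 0, 0, 0, 1, -5, 5, 33, -72, 31, 49, -34, -10], [0, 0, 0, 0, 0, 0,
  0, 1, -2, -5, 12, -13, 0, 1], [0, 0, 0, 0, 0, 0, 0, 1, -2, -5, 12, -13, 0, 1], [0, 0, 0, 0, 0, 0, 0, -10, 52, -88,
  64, 15, -29, 2]],
  [[1, -1, 0, -2, 1, -2, 6, -28, 115, -234, 254, -129, 15, 15], [0, 0, 0, 0, -1, 0, 4, 5, -51, 138, -185, 108, -13,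
  -15], [0, 0, 0, 0, -2, 5, -2, -9, 27, -34, 20, -7, 1], [0, 0, 0, 0, 0, 0, 4, -6, -7, 37, -62, 45, -13, -4], [0, 0,
  0, 0, 0, 0, 4, -6, -7, 37, -62, 45, -13, -4], [0, 0, 0, 0, 0, 2, 6, -37, 71, -84, 56, -19, 2], [0, 0, 0, 0, 0, 0,
  0, -2, 5, -6, 4, -2], [0, 0, 0, 0, 0, 0, 0, -2, 5, -6, 4, -2], [0, 0, 0, 0, -1, 2, -4, -3, 16, -10, -14, 26, -13,
  -1], [0, 0, 0, 0, -2, 8, -29, 75, -119, 111, -35, -10, 8, 4], [0, 0, 0, 0, -2, 8, -29, 75, -119, 111, -35, -10, 8,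
  4], [0, 0, -1, 2, 3, -8, -6, 48, -85, 40, 63, -90, 37, 9], [0, 0, 0, -2, 5, -5, -2, 22, -46, 56, -36, 13, -2], [0,
  0, 0, -2, 5, -5, -2, 22, -46, 56, -36, 13, -2], [0, 0, -2, 2, 8, -20, 17, 28, -102, 128, -73, 6, 13], [0, 0, 0, 0,
  2, -2, -3, 9, -9, -6, 11, -5, 1], [0, 0, 0, -1, 2, -6, 33, -94, 154, -126, 10, 38, -18, -8], [0, 0, 0, 0, 0, 2, -3,
  -3, 11, -22, 16, -6, 1], [0, 0, 0, 0, 0, 2, -3, -3, 11, -22, 16, -6, 1], [0, 0, 0, 0, -2, 8, -15, 2, 44, -72, 44,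
  2, -14]],
  [[1, -1, 0, -2, 1, -2, 6, -28, 115, -234, 254, -129, 15, 15], [0, 0, 0, 0, -1, 0, 4, 5, -51, 138, -185, 108, -13,
  -15], [0, 0, 0, 0, -2, 5, -2, -9, 27, -34, 20, -7, 1], [0, 0, 0, 0, 0, 2, 6, -37, 71, -84, 56, -19, 2], [0, 0, 0,
  0, 0, 0, 4, -6, -7, 37, -62, 45, -13, -4], [0, 0, 0, 0, 0, 0, 4, -6, -7, 37, -62, 45, -13, -4], [0, 0, 0, 0, -1, 2,
  -4, -3, 16, -10, -14, 26, -13, -1], [0, 0, 0, 0, 0, 0, 0, -2, 5, -6, 4, -2], [0, 0, 0, 0, 0, 0, 0, -2, 5, -6, 4,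
  -2], [0, 0, -1, 2, 3, -8, -6, 48, -85, 40, 63, -90, 37, 9], [0, 0, 0, 0, -2, 8, -29, 75, -119, 111, -35, -10, 8,
  4], [0, 0, 0, 0, -2, 8, -29, 75, -119, 111, -35, -10, 8, 4], [0, 0, -2, 2, 8, -20, 17, 28, -102, 128, -73, 6, 13],
  [0, 0, 0, -2, 5, -5, -2, 22, -46, 56, -36, 13, -2], [0, 0, 0, -2, 5, -5, -2, 22, -46, 56, -36, 13, -2], [0, 0, 0,
  0, 2, -2, -3, 9, -9, -6, 11, -5, 1], [0, 0, 0, -1, 2, -6, 33, -94, 154, -126, 10, 38, -18, -8], [0, 0, 0, 0, -2, 8,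
  -15, 2, 44, -72, 44, 2, -14], [0, 0, 0, 0, 0, 2, -3, -3, 11, -22, 16, -6, 1], [0, 0, 0, 0, 0, 2, -3, -3, 11, -22,
  16, -6, 1]],
  [[1, -1, 0, -2, 1, -2, 6, -28, 115, -234, 254, -129, 15, 15], [0, 0, 0, 0, -1, 0, 4, 5, -51, 138, -185, 108, -13,
  -15], [0, 0, 0, 0, -2, 5, -2, -9, 27, -34, 20, -7, 1], [0, 0, 0, 0, 0, 0, 4, -6, -7, 37, -62, 45, -13, -4], [0, 0,
  0, 0, 0, 2, 6, -37, 71, -84, 56, -19, 2], [0, 0, 0, 0, 0, 0, 4, -6, -7, 37, -62, 45, -13, -4], [0, 0, 0, 0, 0, 0,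
  0, -2, 5, -6, 4, -2], [0, 0, 0, 0, -1, 2, -4, -3, 16, -10, -14, 26, -13, -1], [0, 0, 0, 0, 0, 0, 0, -2, 5, -6, 4,
  -2], [0, 0, 0, 0, -2, 8, -29, 75, -119, 111, -35, -10, 8, 4], [0, 0, -1, 2, 3, -8, -6, 48, -85, 40, 63, -90, 37,
  9], [0, 0, 0, 0, -2, 8, -29, 75, -119, 111, -35, -10, 8, 4], [0, 0, 0, -2, 5, -5, -2, 22, -46, 56, -36, 13, -2],
  [0, 0, -2, 2, 8, -20, 17, 28, -102, 128, -73, 6, 13], [0, 0, 0, -2, 5, -5, -2, 22, -46, 56, -36, 13, -2], [0, 0, 0,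
  0, 2, -2, -3, 9, -9, -6, 11, -5, 1], [0, 0, 0, -1, 2, -6, 33, -94, 154, -126, 10, 38, -18, -8], [0, 0, 0, 0, 0, 2,
  -3, -3, 11, -22, 16, -6, 1], [0, 0, 0, 0, -2, 8, -15, 2, 44, -72, 44, 2, -14], [0, 0, 0, 0, 0, 2, -3, -3, 11, -22,
  16, -6, 1]]]

/-- Images of pairs. -/
def sP_2 : List (List (List ℤ)) := [
  [[0, 1, 0, 0, 0, -5, -7, 30, -70, 68, -6, -36, -3, 54], [0, 0, 0, 0, 0, -1, 1, -12, 46, -41, -1, 39, -1, -54], [0,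
  0, 0, 0, 0, 0, -7, 10, 0, 9, -18, 2, 2], [0, 0, 0, 0, 0, 0, 0, 2, 18, -26, -10, 61, -48, -12], [0, 0, 0, 0, 0, 0,
  0, 2, 18, -26, -10, 61, -48, -12], [0, 0, 0, 0, 0, 0, -2, 15, 5, -15, -38, 11, 4], [0, 0, 0, 0, 0, 0, 0, 0, 0, -3,
  -1, 2], [0, 0, 0, 0, 0, 0, 0, 0, 0, -3, -1, 2], [0, 0, 0, 0, 0, 1, -8, 9, -5, 12, 7, 5, -13, -10], [0, 0, 0, 0, 0,
  0, 1, -15, -10, 49, -9, -35, 36, 12], [0, 0, 0, 0, 0, 0, 1, -15, -10, 49, -9, -35, 36, 12], [0, 0, 0, -1, 3, -7,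
  32, -58, 26, -16, 36, -127, 113, 34], [0, 0, 0, 0, 0, -5, 6, -14, 18, -10, 35, -6, -4], [0, 0, 0, 0, 0, -5, 6, -14,
  18, -10, 35, -6, -4], [0, 0, 0, -2, 2, -13, 56, -87, 71, -42, -12, -15, 52], [0, 0, 0, 0, 0, -2, 11, 4, -6, -16,
  -17, 6, 2], [0, 0, 0, 0, -1, 1, -9, 28, 4, -50, 36, 52, -76, -24], [0, 0, 0, 0, 0, 0, 0, 7, -3, -6, -16, 4, 2], [0,
  0, 0, 0, 0, 0, 0, 7, -3, -6, -16, 4, 2], [0, 0, 0, 0, 0, 4, -30, 61, -43, 7, 28, 14, -54]],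
  [[1, -1, 0, -2, -6, 15, -7, 2, 41, -130, 181, -73, -19, -22], [0, 0, 0, 0, -1, 0, -2, 20, -25, 38, -106, 50, 22,
  22], [0, 0, 0, 0, -2, 4, 1, -6, 7, -22, 29, -9], [0, 0, 0, 0, 0, -2, 13, -15, -20, 50, -72, 21, 29, 4], [0, 0, 0,
  0, 0, -2, 13, -15, -20, 50, -72, 21, 29, 4], [0, 0, 0, 0, 0, 4, -5, 4, -17, -2, 39, -16, -1], [0, 0, 0, 0, 0, 0, 0,
  0, -2, 3, 1], [0, 0, 0, 0, 0, 0, 0, 0, -2, 3, 1], [0, 0, 0, 0, -1, -8, 30, -29, -4, 31, -43, 21, 5, 8], [0, 0, 0,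
  0, 0, -8, 26, -32, 10, 28, -1, -12, -23, -4], [0, 0, 0, 0, 0, -8, 26, -32, 10, 28, -1, -12, -23, -4], [0, 0, -1,
  -2, 14, 2, -67, 84, -32, -4, 96, -38, -66, -16], [0, 0, 0, -2, 4, -4, -1, 17, -26, 38, -51, 19], [0, 0, 0, -2, 4,
  -4, -1, 17, -26, 38, -51, 19], [0, 0, -2, 2, 4, 24, -108, 195, -231, 185, -36, -14, -29], [0, 0, 0, 0, 2, 1, -6,
  -2, -6, 12, 13, -10], [0, 0, 0, -1, 0, 10, -22, 31, 11, -72, -22, 38, 47, 8], [0, 0, 0, 0, 0, 2, -2, -3, 1, -3, 20,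
  -9], [0, 0, 0, 0, 0, 2, -2, -3, 1, -3, 20, -9], [0, 0, 0, 0, 0, -15, 79, -163, 179, -109, -8, 22, 29]],
  [[1, -1, 0, -2, -6, 15, -7, 2, 41, -130, 181, -73, -19, -22], [0, 0, 0, 0, -1, 0, -2, 20, -25, 38, -106, 50, 22,
  22], [0, 0, 0, 0, -2, 4, 1, -6, 7, -22, 29, -9], [0, 0, 0, 0, 0, 4, -5, 4, -17, -2, 39, -16, -1], [0, 0, 0, 0, 0,
  -2, 13, -15, -20, 50, -72, 21, 29, 4], [0, 0, 0, 0, 0, -2, 13, -15, -20, 50, -72, 21, 29, 4], [0, 0, 0, 0, -1, -8,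
  30, -29, -4, 31, -43, 21, 5, 8], [0, 0, 0, 0, 0, 0, 0, 0, -2, 3, 1], [0, 0, 0, 0, 0, 0, 0, 0, -2, 3, 1], [0, 0, -1,
  -2, 14, 2, -67, 84, -32, -4, 96, -38, -66, -16], [0, 0, 0, 0, 0, -8, 26, -32, 10, 28, -1, -12, -23, -4], [0, 0, 0,
  0, 0, -8, 26, -32, 10, 28, -1, -12, -23, -4], [0, 0, -2, 2, 4, 24, -108, 195, -231, 185, -36, -14, -29], [0, 0, 0,
  -2, 4, -4, -1, 17, -26, 38, -51, 19], [0, 0, 0, -2, 4, -4, -1, 17, -26, 38, -51, 19], [0, 0, 0, 0, 2, 1, -6, -2,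
  -6, 12, 13, -10], [0, 0, 0, -1, 0, 10, -22, 31, 11, -72, -22, 38, 47, 8], [0, 0, 0, 0, 0, -15, 79, -163, 179, -109,
  -8, 22, 29], [0, 0, 0, 0, 0, 2, -2, -3, 1, -3, 20, -9], [0, 0, 0, 0, 0, 2, -2, -3, 1, -3, 20, -9]],
  [[1, -1, 0, -2, -6, 15, -7, 2, 41, -130, 181, -73, -19, -22], [0, 0, 0, 0, -1, 0, -2, 20, -25, 38, -106, 50, 22,
  22], [0, 0, 0, 0, -2, 4, 1, -6, 7, -22, 29, -9], [0, 0, 0, 0, 0, -2, 13, -15, -20, 50, -72, 21, 29, 4], [0, 0, 0,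
  0, 0, 4, -5, 4, -17, -2, 39, -16, -1], [0, 0, 0, 0, 0, -2, 13, -15, -20, 50, -72, 21, 29, 4], [0, 0, 0, 0, 0, 0, 0,
  0, -2, 3, 1], [0, 0, 0, 0, -1, -8, 30, -29, -4, 31, -43, 21, 5, 8], [0, 0, 0, 0, 0, 0, 0, 0, -2, 3, 1], [0, 0, 0,
  0, 0, -8, 26, -32, 10, 28, -1, -12, -23, -4], [0, 0, -1, -2, 14, 2, -67, 84, -32, -4, 96, -38, -66, -16], [0, 0, 0,
  0, 0, -8, 26, -32, 10, 28, -1, -12, -23, -4], [0, 0, 0, -2, 4, -4, -1, 17, -26, 38, -51, 19], [0, 0, -2, 2, 4, 24,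
  -108, 195, -231, 185, -36, -14, -29], [0, 0, 0, -2, 4, -4, -1, 17, -26, 38, -51, 19], [0, 0, 0, 0, 2, 1, -6, -2,
  -6, 12, 13, -10], [0, 0, 0, -1, 0, 10, -22, 31, 11, -72, -22, 38, 47, 8], [0, 0, 0, 0, 0, 2, -2, -3, 1, -3, 20,
  -9], [0, 0, 0, 0, 0, -15, 79, -163, 179, -109, -8, 22, 29], [0, 0, 0, 0, 0, 2, -2, -3, 1, -3, 20, -9]],
  [[0, -1, 1, 0, 0, 3, -2, -9, 14, -1, -13, 11, -3], [0, 0, 0, 0, 0, 0, 0, 1, -2, -1, 3, -4, 1], [0, 0, 0, 0, 0, 0,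
  1, -3, 4, 0, -3, 4, -1], [0, 0, 0, 0, 0, 2, -13, 28, -31, 15, 5, -13, 18, -15, 4], [0, 0, 0, 0, 0, 2, -12, 22, -15,
  -8, 22, -15, 4], [0, 0, 0, 0, 0, 0, -2, -2, 14, -26, 21, -2, -14, 15, -4], [0, 0, 0, 0, 0, 0, 0, 1, -1, -4, 6, -5,
  2, 2, -1], [], [0, 0, 0, 0, 0, 0, 0, 1, -3, 7, -5, 2, -1, -2, 1], [0, 0, 0, 0, 0, 1, -2, 6, -18, 41, -39, 13, 9,
  -16, 5], [0, 0, 0, 0, 0, 0, 3, -6, 7, 1, -6, 5, -2], [0, 0, 0, 0, 2, -10, 28, -45, 48, -32, 3, 17, -18, 16, -5],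
  [0, 0, 0, 1, -1, 2, -7, 9, 0, -7, 10, -4, -2, -5, 2], [0, 0, 0, 1, -1, 1, -3, 8, -6, -3, 7, -7, 1], [0, 0, 0, 0, 2,
  -4, 1, 8, -9, -4, 5, -7, 3, 5, -2], [0, 0, 0, 0, -1, -1, 7, -16, 13, 4, -13, 14, -3], [0, 0, 0, 0, 0, 0, -2, 5,
  -11, 5, 4, -9, 4], [0, 0, 0, 0, 0, 0, -1, -2, 6, -8, 2, 1, 0, 6, -2], [0, 0, 0, 0, 0, 0, -1, -2, 3, -1, -2, 3], [0,
  0, 0, 0, 0, 1, -3, 3, -6, 8, -2, 0, 1, -6, 2]],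
  [[], [], [], [], [0, 0, 0, 0, -2, 14, -44, 79, -86, 50, 14, -53, 14, 22, -8], [0, 0, 0, 0, 2, -14, 44, -79, 86,
  -50, -14, 53, -14, -22, 8], [], [0, 0, 0, 0, 0, 2, -7, 7, -2, -5, 16, 0, -10, -3, 2], [0, 0, 0, 0, 0, -2, 7, -7, 2,
  5, -16, 0, 10, 3, -2], [], [0, 0, 0, 2, -12, 31, -53, 72, -65, 33, -5, -31, 21, 26, -10], [0, 0, 0, -2, 12, -31,
  53, -72, 65, -33, 5, 31, -21, -26, 10], [], [0, 0, 0, 1, -4, 1, 11, -6, -9, 22, -37, -11, 28, 7, -3], [0, 0, 0, -1,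
  4, -1, -11, 6, 9, -22, 37, 11, -28, -7, 3], [], [], [], [0, 0, 0, 0, 0, 1, -2, -4, 13, -23, 27, 11, -25, -10, 3],
  [0, 0, 0, 0, 0, -1, 2, 4, -13, 23, -27, -11, 25, 10, -3]],
  [[], [], [], [0, 0, 0, 0, -2, 14, -45, 83, -95, 65, -7, -50, 63, -48, 30, -8], [], [0, 0, 0, 0, 2, -14, 45, -83,
  95, -65, 7, 50, -63, 48, -30, 8], [0, 0, 0, 0, 0, 2, -7, 8, -3, -3, 10, -4, -2, 1, -4, 2], [], [0, 0, 0, 0, 0, -2,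
  7, -8, 3, 3, -10, 4, 2, -1, 4, -2], [0, 0, 0, 2, -12, 32, -56, 77, -76, 43, 4, -56, 70, -47, 32, -10], [], [0, 0,
  0, -2, 12, -32, 56, -77, 76, -43, -4, 56, -70, 47, -32, 10], [0, 0, 0, 1, -4, 0, 16, -16, -12, 45, -64, 32, -1, -3,
  10, -4], [], [0, 0, 0, -1, 4, 0, -16, 16, 12, -45, 64, -32, 1, 3, -10, 4], [], [], [0, 0, 0, 0, 0, 1, -2, -2, 9,
  -20, 34, -17, -7, 9, -12, 4], [], [0, 0, 0, 0, 0, -1, 2, 2, -9, 20, -34, 17, 7, -9, 12, -4]],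
  [[-1, 2, 0, 2, 2, 1, -18, 21, -4, -62, 162, -229, 105, 39, -27], [0, 0, 0, 0, 1, -1, -3, -12, 39, -24, -80, 204,
  -113, -36, 27], [0, 0, 0, 0, 2, -3, -5, 10, 2, -4, 6, -1, -5, 3], [0, 0, 0, 0, 0, -1, -5, 12, 12, -50, 42, 41, -71,
  16, 4], [0, 0, 0, 0, 0, -1, -5, 12, 12, -50, 42, 41, -71, 16, 4], [0, 0, 0, 0, 0, -2, -8, 32, -20, -9, 56, -38, 2,
  7], [0, 0, 0, 0, 0, 0, 0, 2, -1, 3, 5, -6, 2], [0, 0, 0, 0, 0, 0, 0, 2, -1, 3, 5, -6, 2], [0, 0, 0, 0, 1, 1, 2,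
  -28, 33, -31, 32, -2, -24, 2, 3], [0, 0, 0, 0, 1, -2, 19, -48, 8, 84, -133, 37, 41, -13, -4], [0, 0, 0, 0, 1, -2,
  19, -48, 8, 84, -133, 37, 41, -13, -4], [0, 0, 1, -3, 3, -12, 27, 26, -130, 228, -200, -57, 180, -37, -11], [0, 0,
  0, 2, -3, 0, 3, -9, -13, 4, -7, 3, 6, -6], [0, 0, 0, 2, -3, 0, 3, -9, -13, 4, -7, 3, 6, -6], [0, 0, 2, -4, -4, 1,
  0, 31, -50, 81, -103, 29, 49, -24], [0, 0, 0, 0, -2, -2, 10, 2, 4, 1, 6, -9, 2, 3], [0, 0, 0, 1, -2, 2, -29, 51,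
  14, -153, 199, -25, -94, 19, 8], [0, 0, 0, 0, 0, -2, 1, 8, -3, -2, 7, -5, -2, 3], [0, 0, 0, 0, 0, -2, 1, 8, -3, -2,
  7, -5, -2, 3], [0, 0, 0, 0, 2, -3, -5, -1, 11, -43, 82, -34, -42, 21]],
  [[0, -2, 0, -2, 0, 14, 5, -21, 16, 8, -91, 127, -30, -33, 9], [0, 0, 0, 0, 0, 0, -1, -1, -2, 29, -55, -12, 54, -26,
  16], [0, 0, 0, 0, 0, 0, 0, 3, -8, 26, -30, 5, 24, -23, 1], [0, 0, 0, 0, 0, -2, -2, -26, 75, -96, 41, 89, -156, 76,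
  17, -16], [0, 0, 0, 0, 0, 0, -6, -44, 172, -289, 262, -106, -27, 68, -34, 4], [0, 0, 0, 0, 0, 0, -5, -47, 167,
  -241, 147, 32, -114, 109, -60, 12], [0, 0, 0, 0, 0, 0, -2, 13, -15, -6, 8, 2, 11, -11, -4, 4], [0, 0, 0, 0, 0, 0,
  0, 0, 8, -7, -1, 0, -9, 10, 0, -1], [0, 0, 0, 0, 0, 0, 0, 0, 2, 10, -15, -6, 0, 9, 3, -3], [0, 0, 0, 0, 2, -3, 5,
  49, -204, 357, -263, 56, 28, -81, 69, -20], [0, 0, 0, 0, 0, 3, 4, 20, -86, 106, 10, -124, 158, -115, 19, 5], [0, 0,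
  0, 0, 0, 2, 7, 19, -97, 151, -98, 21, 61, -74, -8, 15], [0, 0, 0, 1, 3, 8, -10, -49, 128, -107, 35, 18, -78, 28,
  33, -8], [0, 0, 0, 2, 1, 6, -4, -15, 26, -21, -19, 55, -42, -7, 18, 2], [0, 0, 0, 2, 1, 5, -1, -13, 19, -24, -15,
  79, -63, -4, 10, 6], [0, 0, 0, 0, -4, 0, -36, 146, -281, 283, -92, -118, 229, -134, 3], [0, 0, 0, 0, 0, -1, -4, 1,
  38, -104, 57, -21, -3, 68, -27], [0, 0, 0, 0, 0, 1, -5, 4, 6, -41, 31, -6, 39, 4, -38, 8], [0, 0, 0, 0, 0, 0, -2,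
  -7, 22, -39, 26, -3, -11, 32, -18, -2], [0, 0, 0, 0, 0, 0, -2, -6, 13, -26, 38, -44, 16, 24, -8, -6]]]

end Pool.Agent.Pf4
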