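import Pool.Agent.Pf4.DtV2
import Pool.Agent.Pf4.DtV3

/-!
# The certificate: pairs of letters
-/

set_option autoImplicit false
set_option maxRecDepth 20000

namespace Pool.Agent.Pf4

/-- Steps. -/
def dP_0 : List (ℕ × Lt × List (Lt × List (List ℤ))) := [
  (0, .a, [(.b, [[], [1]])]),
  (1, .a, [(.b, [[], [1]])]),
  (2, .a, [(.b, [[], [1]])]),
  (0, .h, [(.a, [[], [], [], [-1]]), (.b, [[], [1]])]),
  (0, .h, [(.a, [[], [], [], [-1]]), (.c, [[], [], [1]])]),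
  (0, .a, [(.b, [[], [], [0, 0, 1], [0, -1]]), (.h, [[], [], [-1], [1]])]),
  (1, .a, [(.b, [[], [], [0, 0, 1], [0, -1]]), (.h, [[], [], [-1], [1]])]),
  (2, .a, [(.b, [[], [], [0, 0, 1], [0, -1]]), (.h, [[], [], [-1], [1]])]),
  (0, .a, [(.b, [[], [], [0, -1], [0, 0, 1, 1], [], [], [0, 0, -1], [], [], [], [1], [], [1]])])]

theorem m_sP_0 {k : ℕ} (h : ∀ v ∈ sG, Mem k (vfam v)) : ∀ v ∈ sP_0, Mem (k + 1) (vfam v) :=
  mem_chkRs h dP_0 sP_0 (by decide +kernel)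

end Pool.Agent.Pf4
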