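import Pool.Agent.Pf4.DtV2
import Pool.Agent.Pf4.DtV3

/-!
# The certificate: pairs of letters
-/

set_option autoImplicit false
set_option maxRecDepth 20000

namespace Pool.Agent.Pf4

/-- Steps. -/
def dP_1 : List (ℕ × Lt × List (Lt × List (List ℤ))) := [
  (0, .a, [(.b, [[0, 1], [], [], [0, 0, -1], [], [0, 0, 1], [0, 0, 1], [], [0, 3], [], [1], [], [], [0, 1], [0, 0,
  -2], [], [], [0, 1], [], [], [], [], [0, -1], [0, 1]]), (.h, [[], [0, 1], [], [], [], [], [], [], [-1]])]),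
  (0, .a, [(.b, [[0, 0, -1], [], [0, 0, -1], [0, 0, 0, 1], [0, 0, 1], [], [-1, 0, -1], [], [], [], [0, -1, 1], [],
  [0, 0, 1], [], [], [0, 1, 1], [], [], [], [], [], [], [], [], [], [], [], [0, -1]]), (.h, [[], [], [], [], [], [],
  [1], [], [-1]])]),
  (1, .a, [(.b, [[0, 0, -1], [], [0, 0, -1], [0, 0, 0, 1], [0, 0, 1], [], [-1, 0, -1], [], [], [], [0, -1, 1], [],
  [0, 0, 1], [], [], [0, 1, 1], [], [], [], [], [], [], [], [], [], [], [], [0, -1]]), (.h, [[], [], [], [], [], [],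
  [1], [], [-1]])]),
  (2, .a, [(.b, [[0, 0, -1], [], [0, 0, -1], [0, 0, 0, 1], [0, 0, 1], [], [-1, 0, -1], [], [], [], [0, -1, 1], [],
  [0, 0, 1], [], [], [0, 1, 1], [], [], [], [], [], [], [], [], [], [], [], [0, -1]]), (.h, [[], [], [], [], [], [],
  [1], [], [-1]])]),
  (0, .h, [(.a, [[], [], [], [1, 0, -1, 1], [], [], [], [], [], [], [], [], [], [], [0, 1], [], [], [], [], [], [],
  [], [], [1]]), (.b, [[], [], [0, -1, 1, 1], [], [], [], [0, 0, -1], [], [], [], [1], [], [-1], [], [], [-1]]), (.c,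
  [[], [], [0, 0, 0, 1]])]),
  (0, .a, [(.b, [[0, 0, 1], [], [], [], [0, 0, -1, 1], [], [0, 0, 0, 1], [], [-1, -1, -1], [], [], [], [], [0, 0, 0,
  1], [0, 2, 0, -2], [0, 1], [0, 1, 0, -1], [0, 0, 0, 1], [], [], [], [0, -1, 1]]), (.h, [[0, 0, -1], [], [], [0, -1,
  0, 1], [0, 0, 1], [], [], [0, -1], [0, 1], [], [0, -1], [], [0, 0, -1], [], [-2, -1, 1], [], [], [-1], [], [], [0,
  -2], [], [], [-1, 1], [0, -1]])]),
  (0, .a, [(.b, [[1, -1], [], [1], [0, -1, 1], [], [], [0, 0, 0, -1], [], [1], [], [-3], [], [], [1, -1], [], [-1],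
  [], [1, -1], [], [0, 2], [-2], [], [], [], [], [], [], [1]]), (.h, [[], [1, 1, 0, 1], [0, 0, 0, 1], [], [], [], [0,
  1], [], [-1, 1], [], [], [], [-2, -2], [], [], [-1, -1]])]),
  (1, .a, [(.b, [[1, -1], [], [1], [0, -1, 1], [], [], [0, 0, 0, -1], [], [1], [], [-3], [], [], [1, -1], [], [-1],
  [], [1, -1], [], [0, 2], [-2], [], [], [], [], [], [], [1]]), (.h, [[], [1, 1, 0, 1], [0, 0, 0, 1], [], [], [], [0,
  1], [], [-1, 1], [], [], [], [-2, -2], [], [], [-1, -1]])]),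
  (2, .a, [(.b, [[1, -1], [], [1], [0, -1, 1], [], [], [0, 0, 0, -1], [], [1], [], [-3], [], [], [1, -1], [], [-1],
  [], [1, -1], [], [0, 2], [-2], [], [], [], [], [], [], [1]]), (.h, [[], [1, 1, 0, 1], [0, 0, 0, 1], [], [], [], [0,
  1], [], [-1, 1], [], [], [], [-2, -2], [], [], [-1, -1]])])]

theorem m_sP_1 {k : ℕ} (h : ∀ v ∈ sG, Mem k (vfam v)) : ∀ v ∈ sP_1, Mem (k + 1) (vfam v) :=
  mem_chkRs h dP_1 sP_1 (by decide +kernel)

end Pool.Agent.Pf4
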