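import Pool.Agent.Pf4.DtV2
import Pool.Agent.Pf4.DtV3

/-!
# The certificate: pairs of letters
-/

set_option autoImplicit false
set_option maxRecDepth 20000

namespace Pool.Agent.Pf4

/-- Steps. -/
def dP_2 : List (ℕ × Lt × List (Lt × List (List ℤ))) := [
  (0, .a, [(.b, [[0, 1], [], [1, -1, 0, -1], [1, -1, -1], [0, -1], [], [], [], [0, -1, -1], [-1], [-1, 1], [], [],
  [], [0, 3], [1], [0, 1], [], [], [2, 0, -2], [0, 2], [-1], [], [1], [], [], [], [-1, -2]]), (.h, [[], [0, 0, -1],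
  [], [], [], [0, -1, -1], [], [], [0, 1], [], [], [], [0, -2], [0, 1], [0, 1], [0, -1], [], [], [], [], [], [], [0,
  -1], [0, -1]])]),
  (0, .a, [(.b, [[1, -1], [], [], [-1, -1, 1], [-1], [], [5, -3], [0, -1], [-4, 2], [1], [0, 0, 1], [], [], [0, 1,
  -1], [2], [0, 1], [1], [], [], [-2], [], [], [], [0, -1], [], [], [], [1]]), (.h, [[], [], [], [], [], [1, 1], [1,
  1], [], [-1, -1], [], [], [], [], [-1], [1], [], [], [1], [], [], [], [], [1], [1]])]),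
  (1, .a, [(.b, [[1, -1], [], [], [-1, -1, 1], [-1], [], [5, -3], [0, -1], [-4, 2], [1], [0, 0, 1], [], [], [0, 1,
  -1], [2], [0, 1], [1], [], [], [-2], [], [], [], [0, -1], [], [], [], [1]]), (.h, [[], [], [], [], [], [1, 1], [1,
  1], [], [-1, -1], [], [], [], [], [-1], [1], [], [], [1], [], [], [], [], [1], [1]])]),
  (2, .a, [(.b, [[1, -1], [], [], [-1, -1, 1], [-1], [], [5, -3], [0, -1], [-4, 2], [1], [0, 0, 1], [], [], [0, 1,
  -1], [2], [0, 1], [1], [], [], [-2], [], [], [], [0, -1], [], [], [], [1]]), (.h, [[], [], [], [], [], [1, 1], [1,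
  1], [], [-1, -1], [], [], [], [], [-1], [1], [], [], [1], [], [], [], [], [1], [1]])]),
  (0, .h, [(.a, [[0, -1, 1], [0, 0, 0, -1], [], [-1, 0, -1], [], [0, 1, -1], [-1], [], [0, 0, -1], [], [-1, 1], [],
  [0, -1, 1], [0, 1, -2], [-1], [0, 0, -1], [], [], [], [], [-1, 2], [], [1], [], [0, 1]]), (.b, [[], [0, 0, 0, -1],
  [0, 0, 0, 1], [], [], [0, 0, 1], [0, 0, 1], [-1], [0, 2], [], [], [], [1], [], [0, 0, 1], [], [], [0, 0, 1], [],
  [], [-1], [], [0, 1]])]),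
  (0, .h, [(.a, [[1, -1], [1, 0, -1], [], [], [], [-1, 1, -1], [0, 1], [], [0, 0, 1], [], [-1, -1, -1], [], [1, -1,
  1], [], [], [], [], [-1, -1], [0, 2], [0, 0, 1], [-2], [], [], [0, -1], [], [], [], [2, 1]]), (.c, [[-1, 1], [],
  [], [-1, 0, 1], [1, -1, 1], [0, 0, -1], [], [0, 0, -1], [0, -1], [], [1, 1, 1], [], [], [], [-1, 1, -1], [], [1,
  1], [], [0, 0, -1], [], [2], [], [0, -1], [], [], [], [], [-2, -1]])]),
  (0, .h, [(.a, [[1, -1], [1, 0, -1, -2], [], [], [], [-1, 1, 0, -1], [1, -1], [], [0, 1], [], [-1, -1], [], [1, -1,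
  0, 1], [], [1, 0, 0, 1], [], [], [], [0, 2], [], [-2], [], [], [], [], [], [], [2]]), (.b, [[-1, 1], [], [-1, 0, 1,
  2], [], [0, 0, 0, -1], [], [0, -1], [-1, 1], [], [], [1, 1], [], [-1, 0, 0, -1], [-1, 1, 0, -1], [], [0, 0, 0, -1],
  [], [-1, 1, 0, -1], [], [0, -2], [2], [], [], [], [], [], [], [-2]])]),
  (0, .a, [(.b, [[-1], [], [], [1, -1, -1], [0, 0, -1, -1], [], [1], [0, 1, 0, -1], [1], [-1, 1], [0, 1, 0, -1], [],
  [0, 1, 1, -1], [-1, 0, -1, -1], [0, 0, 2], [-1, 0, -1, -1], [0, 0, 1], [-1, 0, -1, -1], [], [2, -2], [], [], [],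
  [], [], [], [], [], [1]]), (.h, [[0, 2], [1], [0, 1, 1], [1], [0, -2], [], [], [1, 0, -1], [2, 1, -1], [], [1], [],
  [0, 0, -2], [0, 0, 1], [-2, 2, 1], [0, -1, -1], [], [-1, 1], [], [], [4], [], [0, 1], [0, 1], [2]])]),
  (0, .h, [(.a, [[0, 0, 0, -1], [0, 0, -1], [], [], [0, 0, -1], [], [], [], [-1, -3, 1, 1], [], [0, 1, -1], [], [],
  [0, 2], [0, 0, 1, 1], [0, 1], [], [], [0, 2], [0, -1], [-4, 2, -2], [0, -1], [], [], [-1, -1, 1], [], [], [1]]),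
  (.b, [[0, -2, 1, -1], [-1, 0, 1, -1], [-2, 1, 1], [], [], [], [5, -5, -3, 1], [], [-4, 4, 2], [1, 0, 1], [1, 0, 1],
  [], [0, -1, 0, -1], [0, 0, -1, -2], [0, 0, 0, -2], [-2], [0, 0, 0, -1], [0, -1], [], [-2, 2, -2], [-4, 0, -2], [-1,
  0, -1], [], [0, 0, -3], [0, -1], [], [], [3]]), (.c, [[0, 0, -1], [], [0, 0, 0, -1], [0, -1, 0, 1], [], [0, 0, 0,
  -1], [], [-1, 1, 0, 1], [0, -4, -2], [], [1], [], [0, 0, -1], [1, -1], [], [], [], [], [0, 1], [], [-2], [0, -1],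
  [-1, 0, -1], [0, -1, -1], [0, -1, 1], [], [], [1]])])]

theorem m_sP_2 {k : ℕ} (h : ∀ v ∈ sG, Mem k (vfam v)) : ∀ v ∈ sP_2, Mem (k + 1) (vfam v) :=
  mem_chkRs h dP_2 sP_2 (by decide +kernel)

end Pool.Agent.Pf4
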