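import Pool.Agent.Pf4.DtV2
import Pool.Agent.Pf4.DtV3

/-!
# The certificate: lines of the lemma of Nakayama
-/

set_option autoImplicit false
set_option maxRecDepth 20000

namespace Pool.Agent.Pf4

/-- Coefficients. -/
def cDtQ_1 : List (List (List ℤ)) := [
  [[-1], [1], [], [9], [], [], [], [], [], [], [-1], [1], [], [], [], [-1], [1], [], [], [1], [-1]],
  [[-1], [], [1], [], [9], [], [], [], [], [], [1], [], [-1], [], [], [-1], [], [1], [], [1], [], [-1]],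
  [[4], [], [], [6], [-8], [13], [14], [14], [], [-121], [], [], [], [-18], [-1], [44], [], [], [-58], [-1], [], [],
  [-20], [], [], [43], [14]],
  [[], [], [], [-8], [], [], [], [], [], [], [1], [-1], [], [], [], [1], [-1], [], [], [-1], [1]],
  [[], [], [], [], [-8], [], [], [], [], [], [-1], [], [1], [], [], [1], [], [-1], [], [-1], [], [1]],
  [[], [], [], [-3], [], [], [], [], [], [], [], [], [], [], [], [], [], [], [], [], [], [], [], [], [-1]],
  [[], [], [], [], [-3], [], [], [], [], [], [], [], [], [], [], [], [], [], [], [], [], [], [], [-1]],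
  [[], [], [], [], [], [-1], [], [], [-1], [7], [1], [], [], [], [], [-1], [], [], [2], [], [], [], [], [], [], [-1]],
  [[], [], [], [], [], [], [], [], [-1], [1], [-1]]]

/-- Coefficients of the multiples of `t`. -/
def eDtQ_1 : List (List (List ℤ)) := [
  [[], [-5, 14, 22, -114, 194, -272, 244, -76, 38, -49, -16], [], [], [-12, 3, 75, -189, 313, -289, 117, -86, 66,
  32], [], [12, -3, -75, 189, -313, 289, -117, 86, -66, -32], [], [], [-10, 22, 1, -18, 21, -33, 9, 11, 8], [], [],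
  [-15, 57, 0, 0, 13, 0, 134, 0, 23, 0, -8], [], [2, -20, 71, -131, 0, 0, 0, -11, -4], [], [], [], [0, -151, 115, 0,
  -287, 0, -33, 0, -49], [], [0, 151, -115, 0, 287, 0, 33, 0, 49], [0, 0, 0, 233, -59, 5]],
  [[], [], [-5, 12, 32, -110, 94, -98, 120, -16, 70, -95, -18], [], [], [-4, -23, 87, -71, 91, -181, 135, -182, 134,
  36], [4, 23, -87, 71, -91, 181, -135, 182, -134, -36], [], [], [], [-10, 16, 31, -46, 9, -1, -23, 25, 10], [], [],
  [-14, 46, 0, 0, 27, 0, 64, 0, 40, 0, -9], [], [2, -18, 58, -105, 0, 0, 0, -34, -4], [], [], [], [0, -45, -39, 0,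
  -193, 0, 65, 0, -95], [0, 45, 39, 0, 193, 0, -65, 0, 95], [], [0, 0, 0, 175, -27, 49]],
  [[144, 20, 28, -350, -923, -358, 5691, -13667, 20518, -22122, 17913, -6451, 808, 1032], [0, -24, -204, 818, -5535,
  13047, -17902, 15524, -2860, -1754, 2055, -694, 280], [0, 4, -290, 796, -5139, 11811, -15142, 12270, -374, -3992,
  2941, -94, -70], [-58, 641, 4035, -29005, 54637, -60171, 32892, 17989, -34818, 27526, -6755, 808, 1032], [-286,
  391, -1364, 10374, -23949, 33249, -26015, 4415, 4161, -4400, 966, -448], [-342, 607, -1454, 9294, -20213, 26665,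
  -18963, -1063, 8121, -5546, -64, 112], [-8, -222, 4470, -30043, 58557, -66334, 36815, 30755, -54893, 47021, -14658,
  1952, 2064], [142, -854, 6606, -15601, 19811, -9366, -11809, 23161, -25203, 17947, -6451, 808, 1032], [320, 1348,
  -3769, 5564, -5607, -1517, 3661, -3901, 1910, -42], [0, 30, -208, -94, 400, -997, 346, -182, 194, 36, -56], [0, 30,
  -80, -476, 612, -1059, 510, 76, -158, 0, 14], [-391, 0, 0, 0, 0, 0, 0, 0, 0, 14340, 0, 0, 1694, 516], [-4, 184, 0,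
  -79, 0, 4413, -8365, 7499, -1365, -613, 0, -347, 140], [-4, 198, 0, -442, 0, 3817, -6949, 6396, -572, -1870, 0,
  -47, -35], [23, -178, 0, -3730, 4093, -2009, -1554, 0, 0, -165, 112], [9, -135, 0, -4339, 5442, -3610, -74, 0, 0,
  152, -28], [125, 891, -2508, 667, -2808, 11466, -27396, 41284, -44258, 35826, -12902, 1616, 2064], [415, 13322,
  -60125, 92442, -76254, 25325, 63445, -81454, 0, 1559, -8862], [0, -401, 0, -3417, 0, 0, 0, 0, 0, 1887], [0, -247,
  0, -2725, 0, 0, 0, 0, 0, 2983], [-271, 11404, -40489, 77105, -70445, 28325, 35265, -59351, 21906, -29538, 7259,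
  -3164, -2064], [0, 3593, 0, 0, 0, 0, 5103, -2843], [0, 3743, 0, 0, 0, 0, 2819, -2359], [-39, 0, 0, 2926, 0, 0, 0,
  0, -11463, 0, 0, 404, 1363, 258], [-1869, 0, -478, 0, 5443, -6031, 0, 19460, -17086, 94, 0, 0, 404, 516], [11729,
  -19967, 0, 5075, -23679, -6067, 31667, 0, 64490, -12902], [8775, 0, -6831, 0, 0, -18267, 0, 0, 0, 14635, -9547]],
  [[], [4, -10, -21, 102, -185, 259, -229, 71, -38, 49, 16], [], [], [9, -4, -60, 173, -290, 265, -109, 86, -66,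
  -32], [], [-9, 4, 60, -173, 290, -265, 109, -86, 66, 32], [], [], [10, -21, 3, 15, -22, 34, -9, -11, -8], [], [],
  [15, 0, 78, 0, 0, 0, 0, 14, -23, 0, 8], [], [-2, 19, 0, 0, -109, 0, 0, 11, 4], [], [], [], [-107, 0, -125, -25,
  277, -253, 0, 0, 49], [], [107, 0, 125, 25, -277, 253, 0, 0, -49], [0, -135, 245, 0, 55, -5]],
  [[], [], [4, -8, -31, 98, -85, 85, -105, 11, -70, 95, 18], [], [], [1, 22, -72, 55, -68, 157, -127, 182, -134,
  -36], [-1, -22, 72, -55, 68, -157, 127, -182, 134, 36], [], [], [], [10, -15, -27, 43, -10, 2, 23, -25, -10], [],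
  [], [14, 0, 25, 0, 0, 0, 0, -35, -40, 0, 9], [], [-2, 17, 0, 0, -80, 0, 0, 34, 4], [], [], [], [-85, 0, 29, -53,
  183, -113, 0, 0, 95], [85, 0, -29, 53, -183, 113, 0, 0, -95], [], [0, -109, 193, 0, 23, -49]],
  [[], [2, -12, 32, -62, 80, -40, -5, 19, -56, 70, -47, 32, -10], [], [], [14, -64, 143, -170, 74, 37, -96, 144,
  -141, 91, -54, 16], [], [-14, 64, -143, 170, -74, -37, 96, -144, 141, -91, 54, -16], [], [], [2, -1, -7, 3, 3, 7,
  -4, -2, 1, -4, 2], [], [], [1, -3, 7, -31, 42, 0, -13, 5, -23, 27, 0, 16, -5], [], [7, 0, 28, 0, 10, 0, -25, 0,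
  -24, 15, -4], [], [], [], [0, 0, 0, 0, -5, 0, 0, 0, 0, -41], [], [0, 0, 0, 0, 5, 0, 0, 0, 0, 41], [-39, 0, -41, 0,
  5, 0, 63]],
  [[], [], [2, -12, 31, -59, 75, -29, -15, 10, -31, 21, 26, -10], [], [], [14, -61, 132, -150, 55, 34, -51, 51, -14,
  -45, 17], [-14, 61, -132, 150, -55, -34, 51, -51, 14, 45, -17], [], [], [], [2, -1, -8, 4, 1, 13, 0, -10, -3, 2],
  [], [], [1, -3, 5, -27, 37, 0, -2, 0, -22, 13, 13, -5], [], [7, -19, 26, -16, 0, 13, 0, 7, 11, -4], [], [], [], [0,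
  0, 0, 0, 5, 0, -25], [0, 0, 0, 0, -5, 0, 25], [], [0, 0, 0, 5, 0, -53]],
  [[-8, 1, 0, 17, 39, 19, -298, 620, -758, 747, -645, 217, -19, -27], [0, 0, 15, -51, 220, -419, 523, -506, 104, 38,
  -33, -4], [0, 0, 15, -51, 220, -419, 523, -506, 104, 38, -33, -4], [3, -22, -233, 1271, -2080, 2055, -1205, -461,
  947, -792, 198, -19, -27], [15, -40, 95, -361, 665, -895, 842, -218, -42, 60, 8], [15, -40, 95, -361, 665, -895,
  842, -218, -42, 60, 8], [0, 18, -241, 1223, -1969, 1875, -1049, -1036, 1652, -1446, 418, -38, -54], [-7, 54, -295,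
  590, -682, 292, 525, -819, 806, -637, 217, -19, -27], [-13, -24, 23, 3, 13, 107, -23, -12, 3], [0, 0, 0, 18, -25,
  39, -14, 2], [0, 0, 0, 18, -25, 39, -14, 2], [17, 0, -116, 619, -875, 0, 0, -540, 0, 0, -56], [0, 0, 4, 0, 0, 0, 0,
  -260, 0, 19, 0, -2], [0, 0, 4, 0, 0, 0, 0, -260, 0, 19, 0, -2], [0, 6, -73, 0, -193, 141, -15, -23, 18, 2], [0, 6,
  -73, 0, -193, 141, -15, -23, 18, 2], [-6, -39, 115, -36, 127, -584, 1221, -1513, 1494, -1290, 434, -38, -54], [-89,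
  0, 0, 0, 2317, -555, 0, 2570, -1947, 0, 339, -173, -54], [-15, 0, 17, 139, -283, 503, 0, 107, 0, -33], [-15, 0, 17,
  139, -283, 503, 0, 107, 0, -33], [16, -139, 202, -967, 2880, -1992, -6, 1515, -1539, 1021, -236, -8, 27], [0, 0,
  317], [0, 0, 317], [2, 0, 0, 0, -536], [102, -177, -170, 406, -178, -97, 0, -846, 663, 30, -294, 149], [-345, 149,
  1279, 0, 678, 887, -2663, 1626, -1274, 322, -38, -54], [0, 0, 0, 0, 0, 1291, 0, 0, 0, 0, 0, -19, -27]],
  [[-1, -1, 0, 2, 3, 13, -34, 35, -15, -9, 44, -67, 13], [0, 0, 2, -8, 35, -53, 40, 2, -39, 3], [0, 0, 2, -8, 35,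
  -53, 40, 2, -39, 3], [-2, 5, -35, 119, -132, 84, 42, -114, -16, 45, -67, 13], [2, -5, 18, -70, 112, -90, 3, 52, 4],
  [2, -5, 18, -70, 112, -90, 3, 52, 4], [0, 0, -14, 90, -75, -22, 166, -225, -6, 88, -134, 26], [-1, 9, -42, 65, -33,
  -55, 87, -10, -9, 44, -67, 13], [-2, -2, -4, 3, -2, 13, 5, -5], [0, 0, 0, 2, -4, 4, 2], [0, 0, 0, 2, -4, 4, 2],
  [2], [0, -1, 0, -2, 16, -23], [0, -1, 0, -2, 16, -23], [0, 0, -5, 0, 0, 0, 1, 5], [0, 0, -5, 0, 0, 0, 1, 5], [-3,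
  -1, 1, 8, 20, -52, 65, -30, -18, 88, -134, 26], [-15, 19, 22, 141, -263, 293, -273, -43, 203, -247, -69, 26], [0,
  1, 0, 0, 0, 53, -3, -39, 3], [0, 1, 0, 0, 0, 53, -3, -39, 3], [-9, 13, 17, -32, 5, 1, -143, 77, 48, -111, 80, -13],
  [0, 0, 15, -15, 3], [0, 0, 15, -15, 3], [-1, 0, 0, 0, -14, 0, 0, 0, 0, 22], [12, -28, 67, -195, 0, 0, 145, -35, 0,
  96], [-19, -35, 78, 0, -51, 193, -30, -18, 0, -134, 26], [0, 0, 0, 511, -387, 0, 0, -127, 0, 5, -67, 13]]]

theorem kDtQ_1 : chkNs (sP_0 ++ (sP_1 ++ sP_2)) sQ sQ_1 cDtQ_1 eDtQ_1 = true := by decide +kernel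

end Pool.Agent.Pf4
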