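import Pool.Agent.Pf4.DtV2
import Pool.Agent.Pf4.DtV3

/-!
# The certificate: lines of the lemma of Nakayama
-/

set_option autoImplicit false
set_option maxRecDepth 20000

namespace Pool.Agent.Pf4

/-- Coefficients. -/
def cDtQ_2 : List (List (List ℤ)) := [
  [[], [], [], [], [], [], [], [], [], [-2], [], [1]],
  [[], [], [], [], [], [], [], [], [], [-2], [], [], [1]],
  [[], [], [], [], [], [], [], [], [], [-2], [1]],
  [[], [], [], [], [], [1], [-1]],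
  [[], [], [], [], [], [1], [], [-1]],
  [[], [], [], [-1], [], [], [], [], [], [2], [], [], [], [1], [2], [], [], [], [], [], [], [], [2], [], [], [], [-1]],
  [[], [], [], [], [], [-2], [], [], [-1], [10], [-2], [], [], [], [], [-2], [], [], [3], [], [], [], [], [], [],
  [-2]],
  [[], [], [], [], [], [], [], [], [], [], [], [], [], [], [-1]],
  [[], [], [], [], [], [], [], [], [1]]]

/-- Coefficients of the multiples of `t`. -/
def eDtQ_2 : List (List (List ℤ)) := [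
  [[2, 1, 0, -4, -7, -14, 65, -104, 105, -71, 7, 64, -19], [0, 1, -9, 13, -15, 29, -52, 16, 27, 12, 1], [0, 0, -4,
  15, -65, 116, -114, 46, 43, -11], [2, -3, 59, -270, 425, -371, 66, 222, -95, 4, 64, -19], [-8, 23, -34, 56, -102,
  163, -99, -4, -26, -2], [-4, 10, -28, 115, -213, 217, -90, -52, 8], [4, -14, 44, -185, 267, -209, -82, 378, -158,
  16, 128, -38], [2, -16, 79, -145, 124, 26, -162, 112, -71, 7, 64, -19], [4, 6, -6, 1, 8, -23, -6, 7], [0, 3, -15,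
  10, 14, -24, 14, -7, -1], [0, 0, 0, -4, 8, -8, -2], [-4], [0, 0, 0, 38, -30, 0, -30, 2, 13, 6], [0, 2, -1, 0, -23,
  49, -65], [0, -2, 23, -48, 54], [0, -1, 0, -35, 0, 0, 0, -2], [4, 10, -23, -1, -26, 109, -201, 210, -142, 14, 128,
  -38], [30, 26, -319, 355, -90, -318, 642, -234, -110, 334, 33, -38], [15, -55, 0, 0, 51, 0, 0, 0, 0, 1], [0, 0, -1,
  0, 0, 0, 53, 43, -11], [-2, 85, -215, 383, -369, -33, 279, -243, 86, 56, -83, 19], [0, 0, 0, 0, -57, -25, 19], [0,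
  33, 0, 79, -41, -3], [1, 0, 0, -11, 0, 0, 0, 0, 0, 0, 32], [-24, 0, 0, 0, -191, 0, 0, 146, 25, 0, 32, 32], [74,
  -70, 0, 145, -35, -329, 238, -142, 14, 0, -38], [101, -95, 229, 0, 427, -527, 0, 0, -263, 0, 0, -19]],
  [[2, 1, 0, -4, -7, -14, 65, -104, 105, -71, 7, 64, -19], [0, 0, -4, 15, -65, 116, -114, 46, 43, -11], [0, 1, -9,
  13, -15, 29, -52, 16, 27, 12, 1], [2, -3, 59, -270, 425, -371, 66, 222, -95, 4, 64, -19], [-4, 10, -28, 115, -213,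
  217, -90, -52, 8], [-8, 23, -34, 56, -102, 163, -99, -4, -26, -2], [4, -14, 44, -185, 267, -209, -82, 378, -158,
  16, 128, -38], [2, -16, 79, -145, 124, 26, -162, 112, -71, 7, 64, -19], [4, 6, -6, 1, 8, -23, -6, 7], [0, 0, 0, -4,
  8, -8, -2], [0, 3, -15, 10, 14, -24, 14, -7, -1], [-4], [0, 2, -1, 0, -23, 49, -65], [0, 0, 0, 38, -30, 0, -30, 2,
  13, 6], [0, -1, 0, -35, 0, 0, 0, -2], [0, -2, 23, -48, 54], [4, 10, -23, -1, -26, 109, -201, 210, -142, 14, 128,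
  -38], [30, 26, -319, 355, -90, -318, 642, -234, -110, 334, 33, -38], [0, 0, -1, 0, 0, 0, 53, 43, -11], [15, -55, 0,
  0, 51, 0, 0, 0, 0, 1], [-2, 85, -215, 383, -369, -33, 279, -243, 86, 56, -83, 19], [0, 33, 0, 79, -41, -3], [0, 0,
  0, 0, -57, -25, 19], [1, 0, 0, -11, 0, 0, 0, 0, 0, 0, 32], [-24, 0, 0, 0, -191, 0, 0, 146, 25, 0, 32, 32], [74,
  -70, 0, 145, -35, -329, 238, -142, 14, 0, -38], [101, -95, 229, 0, 427, -527, 0, 0, -263, 0, 0, -19]],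
  [[2, 1, 0, -4, -7, -14, 65, -104, 105, -71, 7, 64, -19], [0, 0, -4, 15, -65, 116, -114, 46, 43, -11], [0, 0, -4,
  15, -65, 116, -114, 46, 43, -11], [2, -3, 59, -270, 425, -371, 66, 222, -95, 4, 64, -19], [-4, 10, -28, 115, -213,
  217, -90, -52, 8], [-4, 10, -28, 115, -213, 217, -90, -52, 8], [0, -1, 38, -244, 378, -263, -91, 426, -192, 14,
  128, -38], [2, -16, 79, -145, 124, 26, -162, 112, -71, 7, 64, -19], [4, 6, -6, 1, 8, -23, -6, 7], [0, 0, 0, -4, 8,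
  -8, -2], [0, 0, 0, -4, 8, -8, -2], [-4], [0, 2, -1, 0, -23, 49, -65], [0, 2, -1, 0, -23, 49, -65], [0, -1, 0, -35,
  0, 0, 0, -2], [0, -1, 0, -35, 0, 0, 0, -2], [4, 10, -23, -1, -26, 109, -201, 210, -142, 14, 128, -38], [30, 26,
  -319, 355, -90, -318, 642, -234, -110, 334, 33, -38], [0, 0, -1, 0, 0, 0, 53, 43, -11], [0, 0, -1, 0, 0, 0, 53, 43,
  -11], [13, 30, -214, 383, -318, -33, 226, -286, 97, 57, -83, 19], [0, 33, 0, 79, -41, -3], [0, 33, 0, 79, -41, -3],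
  [1, 0, 0, -11, 0, 0, 0, 0, 0, 0, 32], [-24, 0, 0, 0, -191, 0, 0, 146, 25, 0, 32, 32], [74, -70, 0, 145, -35, -329,
  238, -142, 14, 0, -38], [101, -95, 229, 0, 427, -527, 0, 0, -263, 0, 0, -19]],
  [[], [0, 0, -2, 11, -26, 28, -9, -3, 1], [], [], [1, 1, -12, 32, -36, 9, 7, -2], [], [-1, -1, 12, -32, 36, -9, -7,
  2], [], [], [0, -1, 3, -3, -1, 3, -1], [], [], [0, -2, 6, 0, 0, 15, -5], [], [0, 0, 0, 1, 2], [], [], [], [0, 0,
  -7, -19, 0, 0, -3, 1], [], [0, 0, 7, 19, 0, 0, 3, -1], [5, -7, 0, 0, -3]],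
  [[], [], [0, 0, -2, 11, -26, 28, -9, -3, 1], [], [], [1, 1, -12, 32, -36, 9, 7, -2], [-1, -1, 12, -32, 36, -9, -7,
  2], [], [], [], [0, -1, 3, -3, -1, 3, -1], [], [], [0, -2, 6, 0, 0, 15, -5], [], [0, 0, 0, 1, 2], [], [], [], [0,
  0, -7, -19, 0, 0, -3, 1], [0, 0, 7, 19, 0, 0, 3, -1], [], [5, -7, 0, 0, -3]],
  [[-2, -2, -2, 2, 26, 42, -134, 51, 170, -321, 206, 7, -94, 15], [0, 2, 0, -16, 120, -289, 376, -253, 18, 24, -66,
  59, -20], [0, 0, 7, -19, 102, -219, 206, -42, -153, 187, -137, 19, 5], [-4, 25, -153, 571, -903, 897, -627, 267,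
  -71, -138, 89, -94, 15], [2, 6, 31, -313, 745, -913, 539, -24, -143, 177, -89, 32], [6, -10, 42, -253, 517, -497,
  77, 357, -435, 272, -20, -8], [0, 14, -72, 403, -671, 594, -352, 202, -355, -3, 184, -212, 30], [-6, 18, -87, 159,
  -117, 2, -36, 168, -218, 179, 7, -94, 15], [-6, -66, 234, -376, 336, -64, -169, 277, -145, 3], [0, 0, 8, -11, -1,
  7, 16, 6, -15, -2, 4], [0, 0, 0, 14, -17, 14, 2, -11, 11, 0, -1], [4, 0, 0, 0, 0, 0, 0, 0, 0, 0, 0, -114], [0, -1,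
  5, -11, 0, -127, 197, 0, 0, -6, -27, 0, -10], [0, -2, 0, 0, 0, -90, 107, -31, -55, 0, -70], [-2, 0, -84, 0, -179,
  101, 0, 0, 0, 0, -8], [-1, 12, 0, 204, 0, 0, 0, 0, 0, -17, 2], [-8, -5, -8, 107, 20, -248, 139, 312, -641, 412, 14,
  -188, 30], [109, -373, 598, -17, -507, -299, 1202, -1441, 106, 651, 0, -113, 30], [0, 0, 0, 95, 0, 0, -201, -7, 0,
  0, 59], [0, 1, 25, 49, 0, 0, 0, 0, 169, 0, 19, 5], [75, -370, 876, -1361, 920, -402, 239, -31, -53, -117, 49, 104,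
  -15], [31, 0, 337, 0, 0, 51, -205, 131, 9], [0, -173, 0, -527, 413, -155, -37, 89], [8, 0, 0, 0, 0, 0, 0, 298, 0,
  91, 0, -104], [28, -131, 365, -805, 0, -428, -525, 0, -406, -215, 0, -19, -47], [-527, 1314, -1637, 1174, -90,
  -771, 0, -803, 0, 14, 0, 30], [0, 0, 0, 2033, 0, 0, 1929, 0, 0, 549, 0, 0, 15]],
  [[-11, -2, 0, 26, 53, 36, -402, 901, -1230, 1215, -859, 139, 20, -54], [0, 0, 22, -77, 364, -699, 819, -668, 49,
  60, -54, -8], [0, 0, 22, -77, 364, -699, 819, -668, 49, 60, -54, -8], [1, -28, -315, 1808, -3021, 3016, -1430,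
  -1137, 1524, -1107, 101, 20, -54], [22, -52, 134, -600, 1138, -1424, 1105, -164, -48, 96, 16], [22, -52, 134, -600,
  1138, -1424, 1105, -164, -48, 96, 16], [2, 15, -325, 1846, -3058, 2870, -1074, -2267, 2686, -1982, 246, 40, -108],
  [-9, 79, -473, 968, -1072, 315, 923, -1312, 1309, -843, 139, 20, -54], [-20, -39, 32, 5, 11, 182, -28, -26, 6], [0,
  0, 0, 28, -37, 61, -18, 4], [0, 0, 0, 28, -37, 61, -18, 4], [26, 0, 0, 0, -1208, 0, 0, 0, 1063, 0, 0, 0, 0, -27],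
  [0, -11, 3, 14, 122, 0, 0, -349, 0, 30, -27, -4], [0, -11, 3, 14, 122, 0, 0, -349, 0, 30, -27, -4], [0, 4, -86, 0,
  0, 144, 0, -26, 30, 4], [0, 4, -86, 0, 0, 144, 0, -26, 30, 4], [-10, -65, 175, -63, 189, -754, 1762, -2454, 2430,
  -1718, 278, 40, -108], [-138, -577, 3375, 0, 3253, -31, -4502, 0, -2251, -1061, 378, -230], [0, 0, 0, 0, -491, 813,
  0, 55], [0, 0, 0, 0, -491, 813, 0, 55], [-41, -425, 1925, -937, 4220, -2696, -2052, 566, -2322, 960, -119, -74,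
  108], [0, 0, 363, -437, 0, 1], [0, 0, 363, -437, 0, 1], [-1, 0, 0, 0, 0, 0, 407, 0, 1193, 0, 0, 10, -27], [142,
  -244, 0, 0, 0, 0, 0, 0, 0, 363, 0, 0, 10, -27], [-446, 290, 507, -3401, 955, 0, -2542, 0, -1686, 278, 0, 0, -54],
  [0, -313, 669, -135, -729, 2861, -3131, 1657, 0, -919, 301]],
  [[0, 0, 0, 0, -4, -7, 24, 10, -103, 174, -128, 18, 29, -3], [0, 0, -1, 3, -2, -12, 34, -21, -9, 16, 4], [0, 0, -1,
  3, -2, -12, 34, -21, -9, 16, 4], [0, -7, 28, -24, -82, 153, 28, -280, 281, -110, 17, 29, -3], [0, 1, -4, 7, 9, -29,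
  6, 43, -31, -10], [0, 1, -4, 7, 9, -29, 6, 43, -31, -10], [0, -5, 17, 8, -166, 339, -172, -245, 443, -243, 36, 58,
  -6], [1, -5, 5, 29, -79, 55, 59, -137, 164, -128, 18, 29, -3], [0, 1, -1, -6, 3, 2, -13, 1, 1], [0, 0, 0, -1, 0,
  -1, -2], [0, 0, 0, -1, 0, -1, -2], [], [0, 0, 0, 0, 0, 0, 0, 0, -4, 8, 2], [0, 0, 0, 0, 0, 0, 0, 0, -4, 8, 2], [],
  [], [-1, 2, 3, -26, 9, 35, 19, -205, 348, -256, 36, 58, -6], [-15, 41, 51, -413, 683, -187, -602, 834, -287, -167,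
  181, 43, -6], [0, 0, 0, -7, -1, 19, -21], [0, 0, 0, -7, -1, 19, -21], [-8, 21, 30, -165, 248, -32, -278, 387, -284,
  145, 11, -32, 3], [-1, 7, -17, 35, -65, 71, -27, -5], [-1, 7, -17, 35, -65, 71, -27, -5], [0, 3, 0, 0, 0, 0, 0,
  -70, 0, -64, 9], [-1, 0, 14, 85, -286, 293, 0, -265], [0, -35, 109, -258, 225, 38, 0, 330, 0, 0, 58, -6], [-15, 0,
  0, 0, 0, 7, 0, 329, 113, -215, 27, 29, -3]],
  [[0, 0, 0, 0, 0, -3, 4, 11, -34, 31, -9], [0, 0, 0, 0, 3, -11, 12, -3], [0, 0, 0, 0, 3, -11, 12, -3], [0, -1, 5, 7,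
  -52, 58, 0, -38, 31, -9], [0, 1, -4, 2, 10, -14, 4], [0, 1, -4, 2, 10, -14, 4], [0, 0, -3, 33, -97, 98, -4, -68,
  62, -18], [0, 0, -3, 13, -19, 9, 11, -34, 31, -9], [0, -2, 6, -3, -3, 1], [], [], [0, 1, -5, 0, 0, 0, 5, -38], [0,
  0, 0, 2, -1, -5, 6], [0, 0, 0, 2, -1, -5, 6], [0, 0, -1, 0, 0, 1], [0, 0, -1, 0, 0, 1], [1, -5, 9, -6, -5, 8, 22,
  -68, 62, -18], [0, 0, 81, -197, 183, 0, 0, 87, 17, -18], [0, -1, 0, 0, 0, 0, -3], [0, -1, 0, 0, 0, 0, -3], [1, -4,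
  49, -90, 74, -14, 33, 65, -40, 9], [0, 0, 7, -7], [0, 0, 7, -7], [0, 0, 0, 0, 0, 5, 8, -36], [-1, 7, -29, 0, -103,
  33, 44, -41], [-9, 21, -6, -37, 0, 0, 0, 62, -18], [0, 0, 167, 0, 0, 0, 0, -7, 31, -9]]]

theorem kDtQ_2 : chkNs (sP_0 ++ (sP_1 ++ sP_2)) sQ sQ_2 cDtQ_2 eDtQ_2 = true := by decide +kernel

end Pool.Agent.Pf4
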