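import Pool.Agent.Pf4.DtV2

/-!
# The certificate: lines of the lemma of Nakayama
-/

set_option autoImplicit false
set_option maxRecDepth 20000

namespace Pool.Agent.Pf4

/-- Coefficients. -/
def cDtS_0 : List (List (List ℤ)) := [
  [[2], [], [], [12], [], [], [1], [-78], [], [], [], [4], [], [], [-1], [-1], [-70], [1], [], [], [], [], [1], [],
  [], [], [], [19], [-1], [], [], [-1]],
  [[1], [-1], [], [6], [1], [], [], [-54], [], [-2], [], [2], [-2], [], [], [-1], [-46], [], [1], [], [], [], [1],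
  [-1], [], [], [], [13], [], [1], [], [-1]],
  [[1], [], [-1], [6], [], [1], [], [-54], [], [], [-2], [2], [], [-2], [-1], [], [-46], [], [], [1], [], [], [1],
  [-1], [], [], [], [13], [], [], [1], [-1]],
  [[1], [], [], [6], [], [], [1], [-58], [], [], [], [2], [], [], [-1], [-1], [-50], [1], [], [], [], [], [1], [-1],
  [], [], [], [15], [-1], [], [], [-1]],
  [[], [2], [], [4], [1], [], [-1], [-12], [], [2], [], [1], [2], [], [-1], [], [-12], [], [], [], [], [], [-1], [],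
  [], [], [], [2], [-1], [-1], [], [1]],
  [[], [], [2], [4], [], [1], [-1], [-12], [], [], [2], [1], [], [2], [], [-1], [-12], [], [], [], [], [], [-1], [],
  [], [], [], [2], [-1], [], [-1], [1]],
  [[], [], [], [2], [1], [], [], [-8], [], [], [], [1], [], [], [], [], [-8], [], [], [], [], [], [-1], [], [], [],
  [], [2], [], [], [], [1]],
  [[], [], [], [2], [], [1], [], [-8], [], [], [], [1], [], [], [], [], [-8], [], [], [], [], [], [-1], [], [], [],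
  [], [2], [], [], [], [1]],
  [[], [], [], [2], [], [], [1], [-8], [], [], [], [1], [], [], [], [], [-8], [], [], [], [], [], [-1], [], [], [],
  [], [2], [], [], [], [1]],
  [[], [], [], [], [], [], [], [1], [], [], [], [], [], [], [], [], [], [], [], [], [], [], [-1], [], [], [], [], [],
  [], [], [], [1]],
  [[], [], [], [1], [], [], [], [-4], [1], [], [], [], [], [], [], [], [-4], [], [], [], [], [], [-1], [], [], [],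
  [], [1], [], [], [], [1]],
  [[], [], [], [3], [], [], [], [-4], [], [1], [], [1], [], [], [], [], [-4], [], [], [], [], [], [-1], [], [], [],
  [], [-1], [], [], [], [1]],
  [[], [], [], [3], [], [], [], [-4], [], [], [1], [1], [], [], [], [], [-4], [], [], [], [], [], [-1], [], [], [],
  [], [-1], [], [], [], [1]],
  [[], [], [], [3], [], [], [], [-4], [], [], [], [1], [], [], [], [], [-4], [], [], [], [], [], [-1], [], [], [],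
  [], [-1], [], [], [], [1]]]

/-- Coefficients of the multiples of `t`. -/
def eDtS_0 : List (List (List ℤ)) := [
  [[0, 0, -1, -6, 15, 33, -29, -44, -15], [-2, 7, -9, 10, 7, -38, 2], [-2, 6, -6, 6, 13, -43, 2], [-31, 29, 41, -69,
  45, -112], [0, 0, 0, -5, 3, 0, 0, 1], [0, 0, 1, -3, 0, 0, 0, 1], [0, 3, 0, 0, -5, -5], [0, 0, 0, 5, -7, -5], [8,
  33, -83, 44, 46, -64, -82, -30], [114, 28, -155, 268, -287, -79, -132, -45], [-8, 16, -4, 8, 8, -3], [0, 1, -2,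
  -1], [0, 0, -2], [-40, 26, 35, 1], [0, 1], [0, 0, -1, 1, 1], [-19, 1, 0, -3, 10, 16, 0, -21], [2, -4, -5, 0, -1],
  [2, -6, 0, 0, -1], [83, 47, -125, 192, -255, -108, -176, -60], [0, -3, -3, 5, -1, 0, 1], [0, 0, 0, 0, -1, 0, 1],
  [0, 93, 0, 0, 0, -29, 0, -15], [-91, -21, 53, 32, 33, -29, -44, -15], [0, 0, 45], [0, -3, 41], [-96, -52, 0, -163,
  320, 50, 88, 30], [0, 323]],
  [[0, 0, -1, -6, 15, 23, -29, -32, -9], [0, 13, -6, -1, -17, -15], [-2, 6, -6, 4, 7, -31, 2], [-21, 19, 22, -44, 45,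
  -87, 2], [0, 2, 0, 0, 0, 0, -3, 1], [0, 0, 0, -3, 0, 0, 0, 1], [0, 0, -3, -13, 3], [0, 0, 0, 5, -7, -5], [8, 18,
  -62, 51, 24, -69, -58, -18], [100, 2, -119, 178, -197, -79, -96, -27], [-6, 16, -4, 8, 8, -3], [-1, 8, 0, -1], [0,
  0, -2], [-26, 15, 21, 1], [0, 4, 1, 1, 1], [0, 0, 0, 1, 1], [-13, 1, 0, 0, 0, 11, -16, -15], [-1, 1, 0, 0, -1], [2,
  -5, 0, 0, -1], [75, 15, -101, 132, -175, -108, -128, -36], [0, 0, 0, 0, -1, -3, 1], [0, -3, 0, 0, -1, 0, 1], [0,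
  57, -1, 17, 0, 0, 0, -9], [-61, -9, 35, 26, 23, -29, -32, -9], [0, -11, 31], [0, 3, 29], [-85, -14, 0, -103, 220,
  50, 64, 18], [0, 251]],
  [[0, 0, -1, -6, 15, 23, -29, -32, -9], [-2, 7, -9, 8, 1, -26, 2], [0, 12, -3, -5, -11, -20], [-21, 19, 22, -44, 45,
  -87, 2], [0, 0, 0, -5, 3, 0, 0, 1], [0, 2, 0, 0, -7, 0, -3, 1], [0, 1, 0, 0, -5, -5], [0, -1, 1, 0, 1], [8, 18,
  -66, 43, 24, -69, -58, -18], [100, 2, -119, 178, -197, -79, -96, -27], [-6, 16, -4, 8, 8, -3], [0, 1, -2, -1], [-1,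
  7], [-26, 15, 21, 1], [0, 1], [0, 3, 1], [-13, 1, 0, 0, 0, 11, -16, -15], [2, -3, -2, 0, -1], [-1, -1, -2, 0, -1],
  [75, 15, -101, 132, -175, -108, -128, -36], [0, -3, -3, 5, -1, 0, 1], [0, 0, 5, -5, -1, -3, 1], [0, 57, -3, 13, 0,
  0, 0, -9], [-61, -9, 35, 26, 23, -29, -32, -9], [0, 0, 33], [0, 0, 27], [-85, -14, 0, -103, 220, 50, 64, 18], [0,
  251]],
  [[0, 0, -1, -6, 15, 25, -25, -36, -11], [-2, 7, -9, 10, 3, -30, 2], [-2, 6, -6, 6, 9, -35, 2], [-21, 25, 33, -57,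
  33, -88], [0, 0, 0, -5, 3, 0, 0, 1], [0, 0, 1, -3, 0, 0, 0, 1], [0, 3, 0, 0, -5, -5], [0, 0, 0, 5, -7, -5], [8, 25,
  -71, 40, 34, -56, -66, -22], [102, 16, -123, 208, -231, -67, -108, -33], [-8, 16, -4, 8, 8, -3], [0, 1, -2, -1],
  [0, 0, -2], [-32, 22, 27, 1], [0, 1], [0, 0, -1, 1, 1], [-15, 1, 0, -3, 10, 12, 0, -17], [2, -4, -3, 0, -1], [2,
  -6, 0, 0, -1], [75, 31, -101, 152, -207, -92, -144, -44], [0, -3, -3, 5, -1, 0, 1], [0, 0, 0, 0, -1, 0, 1], [0, 73,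
  0, 0, 0, -25, 0, -11], [-64, -17, 41, 28, 25, -25, -36, -11], [0, 0, 37], [0, 1, 33], [-88, -32, 0, -123, 256, 42,
  72, 22], [0, 259]],
  [[0, 0, 0, 0, -8, 1, 22, -10, 1, -1], [-2, -7, 0, -1, 37, -17], [0, 0, 0, -6, 13, -1, -2], [-4, 6, 9, -12, -13, 6,
  -4], [-1, -2, -1, 0, 0, 0, 3, -1], [0, 0, -1, 5, 0, 0, 0, -1], [0, 0, 7, 13, -3], [0, 0, 0, -5, 7, 5], [-4, 3, 20,
  -41, 17, 54, -26, 2, -2], [0, 17, -45, 60, -20, 54, -30, 3, -3], [6, -16, 4, -8, -8, 3], [1, -8, -2, 1], [], [-5,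
  5, 9, -1], [-1, -4, 0, -1, -1], [0, 0, 0, 0, -1], [-2, 0, 9, 0, -5, 1, 0, -6], [3, -1, 0, 0, 1], [0, 5, 0, 0, 1],
  [-3, 19, -43, 40, -19, 76, -40, 4, -4], [0, -5, 0, 0, 1, 3, -1], [0, 0, 0, 0, 1, 0, -1], [0, 0, -3, 0, 0, 25, 0, 1,
  -1], [-12, -8, 10, -10, 2, 22, -10, 1, -1], [0, -5, 1], [0, -19, 3], [15, -42, 0, -55, 22, -32, 20, -2, 2], [0, 77]],
  [[0, 0, 0, 0, -8, 1, 22, -10, 1, -1], [0, -1, 3, -10, 19, -6, -2], [-2, -6, -3, 3, 31, -12], [-4, 6, 9, -12, -13,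
  6, -4], [0, 0, 0, 7, -3, 0, 0, -1], [-1, -2, 0, 0, 7, 0, 3, -1], [0, -3, 0, 0, 5, 5], [0, -1, 3, 0, -1], [-4, 7,
  24, -33, 17, 54, -26, 2, -2], [0, 17, -45, 60, -20, 54, -30, 3, -3], [6, -16, 4, -8, -8, 3], [0, -1, 0, 1], [1, -7,
  -2], [-5, 5, 9, -1], [0, -1], [-1, -3, -2], [-2, 0, 10, 0, -3, 1, 0, -6], [0, 3, -6, 0, 1], [3, 1, -6, 0, 1], [-3,
  19, -43, 40, -19, 76, -40, 4, -4], [0, 1, 5, -5, 1, 0, -1], [0, 0, -5, 5, 1, 3, -1], [0, 0, -1, 0, 0, 25, 0, 1,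
  -1], [-12, -8, 10, -10, 2, 22, -10, 1, -1], [0, 0, -1], [0, 0, 5], [15, -42, 0, -55, 22, -32, 20, -2, 2], [0, 77]],
  [[0, 0, 0, 0, -8, 3, 16, -10, 1, -1], [0, -1, 3, -12, 19, -6, -2], [0, 0, 0, -8, 13, -1, -2], [-4, 2, 2, -5, 5, -5,
  -2], [0, 0, 0, 7, -3, 0, 0, -1], [0, 0, -2, 5, 0, 0, 0, -1], [0, -5, 0, 0, 5, 5], [0, 0, 0, -5, 7, 5], [-4, 2, 27,
  -28, 13, 37, -26, 2, -2], [4, 9, -57, 60, -14, 36, -30, 3, -3], [8, -16, 4, -8, -8, 3], [0, -1, 0, 1], [], [-4, 0,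
  7, -1], [0, -1], [0, 0, 0, 0, -1], [-2, 0, 0, 2, 0, 2, 8, -6], [0, 4, -6, 0, 1], [0, 6, 0, 0, 1], [1, 11, -55, 40,
  -11, 52, -40, 4, -4], [0, 1, 5, -5, 1, 0, -1], [0, -1, 0, 0, 1, 0, -1], [0, 13, 0, -13, 0, 0, 0, 1, -1], [-11, -2,
  10, -10, 4, 16, -10, 1, -1], [0, 0, -1], [0, -19, 3], [14, -34, 0, -55, 18, -20, 20, -2, 2], [0, 101]],
  [[0, 0, 0, 0, -8, 3, 16, -10, 1, -1], [0, -1, 3, -12, 19, -6, -2], [0, 0, 0, -8, 13, -1, -2], [-4, 2, 2, -5, 5, -5,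
  -2], [0, 0, 0, 7, -3, 0, 0, -1], [0, 0, -2, 5, 0, 0, 0, -1], [0, -5, 0, 0, 5, 5], [0, 0, 0, -5, 7, 5], [-4, 2, 27,
  -28, 13, 37, -26, 2, -2], [4, 9, -57, 60, -14, 36, -30, 3, -3], [8, -16, 4, -8, -8, 3], [0, -1, 0, 1], [], [-4, 0,
  7, -1], [0, -1], [0, 0, 0, 0, -1], [-2, 0, 0, 2, 0, 2, 8, -6], [0, 4, -6, 0, 1], [0, 6, 0, 0, 1], [1, 11, -55, 40,
  -11, 52, -40, 4, -4], [0, 1, 5, -5, 1, 0, -1], [0, -1, 0, 0, 1, 0, -1], [0, 13, 0, -13, 0, 0, 0, 1, -1], [-11, -2,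
  10, -10, 4, 16, -10, 1, -1], [0, 0, -1], [0, -19, 3], [14, -34, 0, -55, 18, -20, 20, -2, 2], [0, 101]],
  [[0, 0, 0, 0, -8, 3, 16, -10, 1, -1], [0, -1, 3, -12, 19, -6, -2], [0, 0, 0, -8, 13, -1, -2], [-4, 2, 2, -5, 5, -5,
  -2], [0, 0, 0, 7, -3, 0, 0, -1], [0, 0, -2, 5, 0, 0, 0, -1], [0, -5, 0, 0, 5, 5], [0, 0, 0, -5, 7, 5], [-4, 2, 27,
  -28, 13, 37, -26, 2, -2], [4, 9, -57, 60, -14, 36, -30, 3, -3], [8, -16, 4, -8, -8, 3], [0, -1, 0, 1], [], [-4, 0,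
  7, -1], [0, -1], [0, 0, 0, 0, -1], [-2, 0, 0, 2, 0, 2, 8, -6], [0, 4, -6, 0, 1], [0, 6, 0, 0, 1], [1, 11, -55, 40,
  -11, 52, -40, 4, -4], [0, 1, 5, -5, 1, 0, -1], [0, -1, 0, 0, 1, 0, -1], [0, 13, 0, -13, 0, 0, 0, 1, -1], [-11, -2,
  10, -10, 4, 16, -10, 1, -1], [0, 0, -1], [0, -19, 3], [14, -34, 0, -55, 18, -20, 20, -2, 2], [0, 101]],
  [[0, 0, 0, 0, -8, -1, 18, -6, 3, -1], [0, -1, 3, -12, 17, -2, -2], [0, 0, 0, -8, 11, 3, -2], [0, 0, -2, 1, -1, 7,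
  -2], [0, 0, 0, 7, -3, 0, 0, -1], [0, 0, -2, 5, 0, 0, 0, -1], [0, -5, 0, 0, 5, 5], [0, 0, 0, -5, 7, 5], [-4, -2, 33,
  -30, 7, 41, -18, 6, -2], [-2, 3, -41, 30, 14, 42, -18, 9, -3], [8, -16, 4, -8, -8, 3], [0, -1, 0, 1], [], [0, -2,
  3, -1], [0, -1], [0, 0, 0, 0, -1], [0, 0, 0, 2, 0, 0, 9, -4], [0, 4, -5, 0, 1], [0, 6, 0, 0, 1], [-3, 3, -43, 20,
  13, 60, -24, 12, -4], [0, 1, 5, -5, 1, 0, -1], [0, -1, 0, 0, 1, 0, -1], [0, 3, 0, -13, 0, 0, 0, 3, -1], [0, 0, 4,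
  -12, 0, 18, -6, 3, -1], [0, 0, -5], [0, -17, -1], [18, -24, 0, -35, -14, -24, 12, -6, 2], [0, 69]],
  [[0, 0, 0, 0, -8, 1, 17, -8, 2, -1], [0, -1, 3, -12, 18, -4, -2], [0, 0, 0, -8, 12, 1, -2], [-2, 1, 0, -2, 2, 1,
  -2], [0, 0, 0, 7, -3, 0, 0, -1], [0, 0, -2, 5, 0, 0, 0, -1], [0, -5, 0, 0, 5, 5], [0, 0, 0, -5, 7, 5], [-4, 0, 30,
  -29, 10, 39, -22, 4, -2], [1, 6, -49, 45, 0, 39, -24, 6, -3], [8, -16, 4, -8, -8, 3], [0, -1, 0, 1], [], [-2, -1,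
  5, -1], [0, -1], [0, 0, 0, 0, -1], [-1, 0, 4, 2, 0, 1, 0, -5, 1], [0, 4, 0, 0, 1], [0, 6, -9, 0, 1], [-1, 7, -49,
  30, 1, 56, -32, 8, -4], [0, 1, 5, -5, 1, 0, -1], [0, -1, 0, 0, 1, 0, -1], [0, 0, 0, -13, 0, 17, 0, 0, -1], [-6, -1,
  7, -11, 2, 17, -8, 2, -1], [0, -11, -3], [0, 0, 1], [16, -29, 0, -45, 2, -22, 16, -4, 2], [0, 85]],
  [[0, 0, 0, 0, -8, -3, 19, -4, 4, -1], [0, -1, 3, -12, 16, 0, -2], [0, 0, 0, -8, 10, 5, -2], [-2, -1, -4, 4, -4, 13,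
  -2], [0, 0, 0, 7, -3, 0, 0, -1], [0, 0, -2, 5, 0, 0, 0, -1], [0, -5, 0, 0, 5, 5], [0, 0, 0, -5, 7, 5], [-4, -4, 36,
  -31, 4, 43, -14, 8, -2], [-5, 0, -33, 15, 28, 45, -12, 12, -3], [8, -16, 4, -8, -8, 3], [0, -1, 0, 1], [], [2, -3,
  1, -1], [0, -1], [0, 0, 0, 0, -1], [1, 0, -1, 2, 0, -1, 0, -3, 2], [0, 4, 0, 0, 1], [0, 6, -8, 0, 1], [-5, -1, -37,
  10, 25, 64, -16, 16, -4], [0, 1, 5, -5, 1, 0, -1], [0, -1, 0, 0, 1, 0, -1], [0, 0, 0, -13, 0, 19, 0, 0, -1], [-2,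
  1, 1, -13, -2, 19, -4, 4, -1], [0, -9, -7], [0, 0, -3], [20, -19, 0, -25, -30, -26, 8, -8, 2], [0, 53]],
  [[0, 0, 0, 0, -8, -3, 19, -4, 4, -1], [0, -1, 3, -12, 16, 0, -2], [0, 0, 0, -8, 10, 5, -2], [-2, -1, -4, 4, -4, 13,
  -2], [0, 0, 0, 7, -3, 0, 0, -1], [0, 0, -2, 5, 0, 0, 0, -1], [0, -5, 0, 0, 5, 5], [0, 0, 0, -5, 7, 5], [-4, -4, 36,
  -31, 4, 43, -14, 8, -2], [-5, 0, -33, 15, 28, 45, -12, 12, -3], [8, -16, 4, -8, -8, 3], [0, -1, 0, 1], [], [2, -3,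
  1, -1], [0, -1], [0, 0, 0, 0, -1], [1, 0, -1, 2, 0, -1, 0, -3, 2], [0, 4, 0, 0, 1], [0, 6, -8, 0, 1], [-5, -1, -37,
  10, 25, 64, -16, 16, -4], [0, 1, 5, -5, 1, 0, -1], [0, -1, 0, 0, 1, 0, -1], [0, 0, 0, -13, 0, 19, 0, 0, -1], [-2,
  1, 1, -13, -2, 19, -4, 4, -1], [0, -9, -7], [0, 0, -3], [20, -19, 0, -25, -30, -26, 8, -8, 2], [0, 53]],
  [[0, 0, 0, 0, -8, -3, 19, -4, 4, -1], [0, -1, 3, -12, 16, 0, -2], [0, 0, 0, -8, 10, 5, -2], [-2, -1, -4, 4, -4, 13,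
  -2], [0, 0, 0, 7, -3, 0, 0, -1], [0, 0, -2, 5, 0, 0, 0, -1], [0, -5, 0, 0, 5, 5], [0, 0, 0, -5, 7, 5], [-4, -4, 36,
  -31, 4, 43, -14, 8, -2], [-5, 0, -33, 15, 28, 45, -12, 12, -3], [8, -16, 4, -8, -8, 3], [0, -1, 0, 1], [], [2, -3,
  1, -1], [0, -1], [0, 0, 0, 0, -1], [1, 0, -1, 2, 0, -1, 0, -3, 2], [0, 4, 0, 0, 1], [0, 6, -8, 0, 1], [-5, -1, -37,
  10, 25, 64, -16, 16, -4], [0, 1, 5, -5, 1, 0, -1], [0, -1, 0, 0, 1, 0, -1], [0, 0, 0, -13, 0, 19, 0, 0, -1], [-2,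
  1, 1, -13, -2, 19, -4, 4, -1], [0, -9, -7], [0, 0, -3], [20, -19, 0, -25, -30, -26, 8, -8, 2], [0, 53]]]

theorem kDtS_0 : chkNs (sQ ++ sR) sS sS_0 cDtS_0 eDtS_0 = true := by decide +kernel

end Pool.Agent.Pf4
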