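import Pool.Agent.Pf4.DtV2

/-!
# The certificate: lines of the lemma of Nakayama
-/

set_option autoImplicit false
set_option maxRecDepth 20000

namespace Pool.Agent.Pf4

/-- Coefficients. -/
def cDtS_1 : List (List (List ℤ)) := [
  [[], [], [], [-4], [], [], [], [8], [], [], [], [-1], [1], [], [], [], [8], [], [], [], [], [], [1], [], [], [],
  [], [], [], [], [], [-1]],
  [[], [], [], [-4], [], [], [], [8], [], [], [], [-1], [], [1], [], [], [8], [], [], [], [], [], [1], [], [], [],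
  [], [], [], [], [], [-1]],
  [[], [], [], [-4], [], [], [], [8], [], [], [], [-1], [], [], [], [], [8], [], [], [], [], [], [1], [], [], [], [],
  [], [], [], [], [-1]],
  [[], [], [], [], [], [], [], [], [], [], [], [], [], [], [1]],
  [[], [], [], [], [], [], [], [], [], [], [], [], [], [], [], [1]],
  [[], [], [], [], [], [], [], [], [], [], [], [], [], [], [], [], [1]],
  [[], [], [], [], [], [], [], [], [], [], [], [], [], [], [], [], [], [], [1]],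
  [[], [], [], [], [], [], [], [], [], [], [], [], [], [], [], [], [], [], [], [1]],
  [[], [], [], [], [], [], [], [], [], [], [], [], [], [], [], [], [], [1]],
  [[], [], [], [], [], [], [], [2], [], [], [], [], [], [], [], [], [2], [], [], [], [], [], [], [], [], [], [], [-1]],
  [[], [], [], [], [], [], [], [], [], [], [], [], [], [], [], [], [], [], [], [], [], [1]],
  [[], [], [], [], [], [], [], [], [], [], [], [], [], [], [], [], [], [], [], [], [], [], [1]],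
  [[], [], [], [], [], [], [], [], [], [], [], [], [], [], [], [], [], [], [], [], [], [], [-1], [], [], [], [], [],
  [], [], [], [1]],
  [[], [], [], [], [], [], [], [], [], [], [], [], [], [], [], [], [], [], [], [], [], [], [], [], [], [1]]]

/-- Coefficients of the multiples of `t`. -/
def eDtS_1 : List (List (List ℤ)) := [
  [[0, 0, 0, 0, 8, 1, -18, 6, -3, 1], [0, 1, -3, 12, -17, 2, 2], [0, 0, 0, 8, -11, -3, 2], [4, 0, 2, -1, 1, -7, 2],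
  [0, 0, 0, -7, 3, 0, 0, 1], [0, 0, 2, -5, 0, 0, 0, 1], [0, 5, 0, 0, -5, -5], [0, 0, 0, 5, -7, -5], [4, 2, -33, 30,
  -7, -41, 18, -6, 2], [2, -3, 41, -30, -14, -42, 18, -9, 3], [-8, 16, -4, 8, 8, -3], [0, 1, 0, -1], [], [0, 2, -3,
  1], [0, 1], [0, 0, 0, 0, 1], [0, 0, 0, -2, 0, 0, -9, 4], [0, -4, 5, 0, -1], [0, -6, 0, 0, -1], [3, -3, 43, -20,
  -13, -60, 24, -12, 4], [0, -1, -5, 5, -1, 0, 1], [0, 1, 0, 0, -1, 0, 1], [0, -3, 0, 13, 0, 0, 0, -3, 1], [8, 0, -4,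
  12, 0, -18, 6, -3, 1], [0, 0, 5], [0, 17, 1], [-18, 24, 0, 35, 14, 24, -12, 6, -2], [0, -69]],
  [[0, 0, 0, 0, 8, 1, -18, 6, -3, 1], [0, 1, -3, 12, -17, 2, 2], [0, 0, 0, 8, -11, -3, 2], [4, 0, 2, -1, 1, -7, 2],
  [0, 0, 0, -7, 3, 0, 0, 1], [0, 0, 2, -5, 0, 0, 0, 1], [0, 5, 0, 0, -5, -5], [0, 0, 0, 5, -7, -5], [4, 2, -33, 30,
  -7, -41, 18, -6, 2], [2, -3, 41, -30, -14, -42, 18, -9, 3], [-8, 16, -4, 8, 8, -3], [0, 1, 0, -1], [], [0, 2, -3,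
  1], [0, 1], [0, 0, 0, 0, 1], [0, 0, 0, -2, 0, 0, -9, 4], [0, -4, 5, 0, -1], [0, -6, 0, 0, -1], [3, -3, 43, -20,
  -13, -60, 24, -12, 4], [0, -1, -5, 5, -1, 0, 1], [0, 1, 0, 0, -1, 0, 1], [0, -3, 0, 13, 0, 0, 0, -3, 1], [8, 0, -4,
  12, 0, -18, 6, -3, 1], [0, 0, 5], [0, 17, 1], [-18, 24, 0, 35, 14, 24, -12, 6, -2], [0, -69]],
  [[0, 0, 0, 0, 8, 1, -18, 6, -3, 1], [0, 1, -3, 12, -17, 2, 2], [0, 0, 0, 8, -11, -3, 2], [4, 0, 2, -1, 1, -7, 2],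
  [0, 0, 0, -7, 3, 0, 0, 1], [0, 0, 2, -5, 0, 0, 0, 1], [0, 5, 0, 0, -5, -5], [0, 0, 0, 5, -7, -5], [4, 2, -33, 30,
  -7, -41, 18, -6, 2], [2, -3, 41, -30, -14, -42, 18, -9, 3], [-8, 16, -4, 8, 8, -3], [0, 1, 0, -1], [], [0, 2, -3,
  1], [0, 1], [0, 0, 0, 0, 1], [0, 0, 0, -2, 0, 0, -9, 4], [0, -4, 5, 0, -1], [0, -6, 0, 0, -1], [3, -3, 43, -20,
  -13, -60, 24, -12, 4], [0, -1, -5, 5, -1, 0, 1], [0, 1, 0, 0, -1, 0, 1], [0, -3, 0, 13, 0, 0, 0, -3, 1], [8, 0, -4,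
  12, 0, -18, 6, -3, 1], [0, 0, 5], [0, 17, 1], [-18, 24, 0, 35, 14, 24, -12, 6, -2], [0, -69]],
  [],
  [],
  [[], [], [], [], [], [], [], [], [], [], [], [], [], [], [], [], [], [], [], [], [], [], [], [1]],
  [],
  [],
  [[], [], [], [], [], [], [], [], [], [], [], [], [], [-1], [], [], [], [], [], [], [], [], [], [1]],
  [[0, 0, 0, 0, 0, -2, 1, 2, 1], [0, 0, 0, 0, -1, 2], [0, 0, 0, 0, -1, 2], [1, -1, -2, 3, -3, 6], [], [], [], [], [0,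
  -2, 3, -1, -3, 2, 4, 2], [-3, -3, 8, -15, 14, 3, 6, 3], [], [], [], [2, -1, -2], [], [], [1, 0, 0, 0, 0, -1, 0, 1],
  [0, 0, 0, -1], [0, 0, 0, -1], [-2, -4, 6, -10, 12, 4, 8, 4], [], [], [0, -5, 0, 0, 0, 1, 0, 1], [4, 1, -3, -1, -2,
  1, 2, 1], [0, 1], [0, 1], [2, 5, -8, 10, -16, -2, -4, -2]],
  [],
  [],
  [[0, 0, 0, 0, -8, -1, 18, -6, 3, -1], [0, -1, 3, -12, 17, -2, -2], [0, 0, 0, -8, 11, 3, -2], [0, 0, -2, 1, -1, 7,
  -2], [0, 0, 0, 7, -3, 0, 0, -1], [0, 0, -2, 5, 0, 0, 0, -1], [0, -5, 0, 0, 5, 5], [0, 0, 0, -5, 7, 5], [-4, -2, 33,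
  -30, 7, 41, -18, 6, -2], [-2, 3, -41, 30, 14, 42, -18, 9, -3], [8, -16, 4, -8, -8, 3], [0, -1, 0, 1], [], [0, -2,
  3, -1], [0, -1], [0, 0, 0, 0, -1], [0, 0, 0, 2, 0, 0, 9, -4], [0, 4, -5, 0, 1], [0, 6, 0, 0, 1], [-3, 3, -43, 20,
  13, 60, -24, 12, -4], [0, 1, 5, -5, 1, 0, -1], [0, -1, 0, 0, 1, 0, -1], [0, 3, 0, -13, 0, 0, 0, 3, -1], [0, 0, 4,
  -12, 0, 18, -6, 3, -1], [0, 0, -5], [0, -17, -1], [18, -24, 0, -35, -14, -24, 12, -6, 2], [0, 69]],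
  []]

theorem kDtS_1 : chkNs (sQ ++ sR) sS sS_1 cDtS_1 eDtS_1 = true := by decide +kernel

end Pool.Agent.Pf4
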