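import Pool.Agent.Pf4.DtV2

/-!
# The certificate: lines of the lemma of Nakayama
-/

set_option autoImplicit false
set_option maxRecDepth 20000

namespace Pool.Agent.Pf4

/-- Coefficients. -/
def cDtU_0 : List (List (List ℤ)) := [
  [[1], [-1], [], [], [], [], [], [], [], [], [], [-2], [], [], [], [], [], [], [], [], [-1], [], [], [-1], [], [],
  [-3], [], [1]],
  [[], [], [], [], [], [], [], [], [], [], [], [-2], [], [], [], [], [], [], [], [], [-1], [], [], [-1], [], [],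
  [-3], [], [1]],
  [[], [-1], [1], [], [], [], [], [], [], [], [], [-2], [], [], [], [], [], [], [], [], [-1], [], [], [-1], [], [],
  [-3], [], [1]],
  [[], [-1], [], [1], [], [], [], [], [], [], [], [-2], [], [], [], [], [], [], [], [], [-1], [], [], [-1], [], [],
  [-3], [], [1]],
  [[], [], [], [], [1]],
  [[], [], [], [], [], [1]],
  [[], [], [], [], [], [], [1]],
  [[], [], [], [], [], [], [], [1]],
  [[], [], [], [], [], [], [], [], [1]],
  [[], [-1], [], [], [], [], [], [], [], [], [], [-2], [], [], [], [], [], [], [], [], [-1], [], [], [-1], [], [],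
  [-3], [], [1]],
  [[], [], [], [], [], [], [], [], [], [1]],
  [[], [], [], [], [], [], [], [], [], [], [1]],
  [[], [], [], [], [], [], [], [], [], [], [], [1]],
  [[], [], [], [], [], [], [], [], [], [], [], [], [1]],
  [[], [], [], [], [], [], [], [], [], [], [], [], [], [1]],
  [[], [], [], [], [], [], [], [], [], [], [], [], [], [], [1]],
  [[], [], [], [], [], [], [], [], [], [], [], [], [], [], [], [1]],
  [[], [], [], [], [], [], [], [], [], [], [], [], [], [], [], [], [1]],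
  [[], [], [], [], [], [], [], [], [], [], [], [], [], [], [], [], [], [1]],
  [[], [], [], [], [], [], [], [], [], [], [], [], [], [], [], [], [], [], [1]],
  [[], [], [], [], [], [], [], [], [], [], [], [], [], [], [], [], [], [], [], [1]],
  [[], [], [], [], [], [], [], [], [], [], [], [], [], [], [], [], [], [], [], [], [1]],
  [[], [], [], [], [], [], [], [], [], [], [], [], [], [], [], [], [], [], [], [], [], [1]],
  [[], [], [], [], [], [], [], [], [], [], [], [], [], [], [], [], [], [], [], [], [], [], [1]],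
  [[], [], [], [], [], [], [], [], [], [], [], [], [], [], [], [], [], [], [], [], [], [], [], [1]],
  [[], [], [], [], [], [], [], [], [], [], [], [], [], [], [], [], [], [], [], [], [], [], [], [], [1]],
  [[], [], [], [], [], [], [], [], [], [], [], [], [], [], [], [], [], [], [], [], [], [], [], [], [], [1]],
  [[], [], [], [], [], [], [], [], [], [], [], [], [], [], [], [], [], [], [], [], [], [], [], [], [], [], [1]],
  [[], [], [], [], [], [], [], [], [], [], [], [], [], [], [], [], [], [], [], [], [], [], [], [], [], [], [], [1]]]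

/-- Coefficients of the multiples of `t`. -/
def eDtU_0 : List (List (List ℤ)) := [
  [[0, 0, 0, -1, 0, -3, 6, -4], [0, 2, 3, -2, 6], [0, 0, 0, 2], [0, 0, 0, 2], [0, 1, 0, 3, 1], [0, 0, 1, -2], [0,
  -1], [], [2, 4, -4, 2, -6, 12, -8], [0, 0, -1, 0, 0, 0, 3, -2], [3, 0, -7, 0, -3], [], [3, -6, 2], [0, 0, 2], [0,
  0, 2], [0, 0, -1], [0, 0, 0, -1], [0, 0, 0, 0, 0, 0, 3, -2], [1, -4, 4], [-2, 4, -4], [2, 2, -2, 0, -6, 6, -4],
  [-5, 0, 3, 1], [0, 3], [1, 3, 0, 1, -3], [1, -4, 3, 0, -3, 6, -4], [], [], [4, -6, 0, 0, 0, 6, -4]],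
  [[0, 0, 0, -1, 0, -3, 6, -4], [0, 2, 3, -2, 6], [0, 0, 0, 2], [0, 0, 0, 2], [0, 1, 0, 3, 1], [0, 0, 1, -2], [0,
  -1], [], [2, 4, -4, 2, -6, 12, -8], [0, 0, -1, 0, 0, 0, 3, -2], [3, 0, -7, 0, -3], [], [3, -6, 2], [0, 0, 2], [0,
  0, 2], [0, 0, -1], [0, 0, 0, -1], [0, 0, 0, 0, 0, 0, 3, -2], [1, -4, 4], [-2, 4, -4], [2, 2, -2, 0, -6, 6, -4],
  [-5, 0, 3, 1], [0, 3], [1, 3, 0, 1, -3], [1, -4, 3, 0, -3, 6, -4], [], [], [4, -6, 0, 0, 0, 6, -4]],
  [[0, 0, 0, -1, 0, -3, 6, -4], [0, 2, 3, -2, 6], [0, 0, 0, 2], [0, 0, 0, 2], [0, 1, 0, 3, 1], [0, 0, 1, -2], [0,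
  -1], [], [2, 4, -4, 2, -6, 12, -8], [0, 0, -1, 0, 0, 0, 3, -2], [3, 0, -7, 0, -3], [], [3, -6, 2], [0, 0, 2], [0,
  0, 2], [0, 0, -1], [0, 0, 0, -1], [0, 0, 0, 0, 0, 0, 3, -2], [1, -4, 4], [-2, 4, -4], [2, 2, -2, 0, -6, 6, -4],
  [-5, 0, 3, 1], [0, 3], [1, 3, 0, 1, -3], [1, -4, 3, 0, -3, 6, -4], [], [], [4, -6, 0, 0, 0, 6, -4]],
  [[0, 0, 0, -1, 0, -3, 6, -4], [0, 2, 3, -2, 6], [0, 0, 0, 2], [0, 0, 0, 2], [0, 1, 0, 3, 1], [0, 0, 1, -2], [0,
  -1], [], [2, 4, -4, 2, -6, 12, -8], [0, 0, -1, 0, 0, 0, 3, -2], [3, 0, -7, 0, -3], [], [3, -6, 2], [0, 0, 2], [0,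
  0, 2], [0, 0, -1], [0, 0, 0, -1], [0, 0, 0, 0, 0, 0, 3, -2], [1, -4, 4], [-2, 4, -4], [2, 2, -2, 0, -6, 6, -4],
  [-5, 0, 3, 1], [0, 3], [1, 3, 0, 1, -3], [1, -4, 3, 0, -3, 6, -4], [], [], [4, -6, 0, 0, 0, 6, -4]],
  [],
  [],
  [],
  [],
  [],
  [[0, 0, 0, -1, 0, -3, 6, -4], [0, 2, 3, -2, 6], [0, 0, 0, 2], [0, 0, 0, 2], [0, 1, 0, 3, 1], [0, 0, 1, -2], [0,
  -1], [], [2, 4, -4, 2, -6, 12, -8], [0, 0, -1, 0, 0, 0, 3, -2], [3, 0, -7, 0, -3], [], [3, -6, 2], [0, 0, 2], [0,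
  0, 2], [0, 0, -1], [0, 0, 0, -1], [0, 0, 0, 0, 0, 0, 3, -2], [1, -4, 4], [-2, 4, -4], [2, 2, -2, 0, -6, 6, -4],
  [-5, 0, 3, 1], [0, 3], [1, 3, 0, 1, -3], [1, -4, 3, 0, -3, 6, -4], [], [], [4, -6, 0, 0, 0, 6, -4]],
  [],
  [],
  [],
  [],
  [],
  [],
  [],
  [],
  [],
  [],
  [],
  [],
  [],
  [],
  [],
  [],
  [],
  [],
  []]

theorem kDtU_0 : chkNs (sS ++ sT) sG sG cDtU_0 eDtU_0 = true := by decide +kernel

end Pool.Agent.Pf4
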