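import Pool.Agent.Pf4.CChk

/-!
# The certificate: vectors of the lattices
-/

set_option autoImplicit false
set_option maxRecDepth 20000

namespace Pool.Agent.Pf4

/-- Vectors. -/
def sB_0 : List (List (List ℤ)) := [
  [[1]],
  [[], [0, 0, 0, 0, 0, -1, -1], [], [], [], [0, 0, 0, 0, 0, -4], [], [], [], [0, 0, 1]],
  [[], [0, 0, 0, 0, 0, -1, -1], [], [], [], [0, 0, 0, 0, 0, -4], [], [], [], [], [0, 0, 1]],
  [[], [0, 0, 0, 0, 0, -1, -1], [], [], [], [0, 0, 0, 0, 0, -4], [], [], [], [], [], [0, 0, 1]],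
  [[], [0, 0, 0, 0, -2, -1, 0, -1], [], [], [], [0, 0, 0, 0, -10, -2, 1], [], [], [], [], [], [], [0, 0, 1], [0, 0,
  -1], [0, 0, -1], [0, 0, 0, -3, -1, 1], [], [], [], [0, 0, 0, 0, -1]],
  [[], [0, 0, 0, 0, -2, -1], [], [], [], [0, 0, 0, 0, -16, -4], [], [], [0, 0, 0, 0, -1, -1], [], [], [], [], [0, 0,
  2], [], [0, 0, 0, -6, 1]],
  [[], [0, 0, 0, 0, -2, -1], [], [], [], [0, 0, 0, 0, -16, -4], [], [], [0, 0, 0, 0, -1, -1], [], [], [], [], [], [0,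
  0, 2], [0, 0, 0, -6, 1]],
  [[], [0, 0, 0, 0, 0, 0, -1], [], [], [], [0, 0, 0, 0, 0, 0, -1], [], [], [0, 0, 0, 0, -1], [], [], [], [], [0, 0,
  0, 1], [], [], [], [], [], [0, 0, 0, 0, -1]]]

/-- Vectors. -/
def sB_1 : List (List (List ℤ)) := [
  [[], [0, 0, 0, 0, 0, 0, -1], [], [], [], [0, 0, 0, 0, 0, 0, -1], [], [], [0, 0, 0, 0, -1], [], [], [], [], [], [0,
  0, 0, 1], [], [], [], [], [0, 0, 0, 0, -1]],
  [[], [0, 0, 0, 0, -3, -1, -1], [], [], [], [0, 0, 0, 0, -20, 2, -1], [], [], [0, 0, 0, 0, 0, -1], [], [], [], [],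
  [], [], [0, 0, 0, -6, 1], [0, 0, 0, 1]],
  [[], [0, 0, 0, 0, 6, -1], [], [], [], [0, 0, 0, 0, 36], [], [], [0, 0, 0, 0, -1, -1], [], [], [], [], [], [], [0,
  0, 0, 12, 1, 1]],
  [[], [0, 0, 0, 0, 0, 0, 0, -1], [0, 0, 0, 0, 2], [], [], [0, 0, 0, 0, 0, -4, -1], [], [], [0, 0, 0, 0, -1, -1], [],
  [], [], [], [], [], [0, 0, 0, 0, 1]],
  [[], [0, 0, 0, 0, 0, 0, 0, -1], [], [], [], [0, 0, 0, 0, 0, 2, 1], [], [], [0, 0, 0, 0, -1, -1], [], [], [], [],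
  [], [], [0, 0, 0, 0, 3, 1], [], [], [], [0, 0, 0, 0, -1]],
  [[], [], [], [], [], [], [0, 0, 0, 0, 1], [], [0, 0, 0, 0, -1]],
  [[], [], [], [], [], [], [], [0, 0, 0, 0, 1], [0, 0, 0, 0, -1]],
  [[], [0, 0, 0, 0, 0, 0, -1, -1], [], [], [], [0, 0, 0, 0, 0, 4, -1], [], [], [0, 0, 0, 0, 2, -1]]]

/-- Vectors. -/
def sB_2 : List (List (List ℤ)) := [
  [[], [], [], [], [], [], [], [], [], [], [], [], [], [], [], [], [], [0, 0, 0, 0, 1], [], [0, 0, 0, 0, -1]],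
  [[], [], [], [], [], [], [], [], [], [], [], [], [], [], [], [], [], [], [0, 0, 0, 0, 1], [0, 0, 0, 0, -1]],
  [[], [0, 0, 0, 0, 0, 0, 0, -1], [], [], [], [0, 0, 0, 0, 0, 4, 1], [], [], [], [], [], [], [], [], [], [], [], [],
  [], [0, 0, 0, 0, 2]],
  [[], [], [], [0, 0, 0, 0, 2], [], [0, 0, 0, 0, -2]],
  [[], [], [], [], [0, 0, 0, 0, 2], [0, 0, 0, 0, -2]],
  [[], [], [0, 0, 0, 0, 0, 1], [], [], [0, 0, 0, 0, 0, -6, 1], [], [], [0, 0, 0, 0, 0, -1], [], [], [], [], [], [],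
  [0, 0, 0, 0, 0, -1]],
  [[], [], [], [], [], [0, 0, 0, 0, 0, 0, -1], [], [], [], [], [], [], [], [], [], [], [], [], [], [0, 0, 0, 0, 0, 1]],
  [[], [0, 0, 0, 0, 0, 2, -1, -1], [], [], [], [0, 0, 0, 0, 0, 0, -1]]]

/-- Vectors. -/
def sB_3 : List (List (List ℤ)) := [
  [[], [], [], [0, 0, 0, 0, 0, 1], [], [0, 0, 0, 0, 0, -1]],
  [[], [], [], [], [0, 0, 0, 0, 0, 1], [0, 0, 0, 0, 0, -1]],
  [[], [], [], [], [], [0, 0, 0, 0, 0, 12, 1]],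
  [[], [0, 0, 0, 0, 0, 0, -1, -1], [], [], [], [], [], [], [], [], [], [], [], [], [], [0, 0, 0, 0, 0, 0, 1]],
  [[], [0, 0, 0, 0, 0, 0, -1], [], [], [], [], [], [], [0, 0, 0, 0, 0, 0, 1]],
  [[], [], [], [], [], [0, 0, 0, 0, 0, 0, 3]],
  [[], [], [], [], [], [0, 0, 0, 0, 0, 0, 0, 1]],
  [[], [0, 0, 0, 0, 0, 0, 0, 0, 1]]]

/-- The lattice. -/
def sB : List (List (List ℤ)) := sB_0 ++ (sB_1 ++ (sB_2 ++ (sB_3)))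

/-- Images. -/
def sC : List (List (List ℤ)) := [
  [[0, 0, 0, 0, 0, 0, -1, 3], [0, 0, 0, 0, 0, -1, 2, -3], [], [0, 0, 0, 0, 0, 0, -1], [0, 0, 0, 0, 0, 0, -1], [0, 0,
  0, 0, 0, 0, -1], [], [], [0, 0, 0, 0, 0, 0, -1], [0, 0, 0, 0, 0, 0, 1], [0, 0, 0, 0, 0, 0, 1], [0, 0, 0, 0, -1, 2,
  1], [0, 0, 0, 0, 0, 1], [0, 0, 0, 0, 0, 1], [0, 0, 0, 0, 0, 1], [0, 0, 0, 0, 0, -1]],
  [[0, 0, 0, 0, 0, 0, 1, 2, -3, -4, 2], [0, 0, 0, 0, 0, 0, 1, -2, 4, 1, -2], [0, 0, 0, 0, 0, -1, 1], [0, 0, 0, 0, 0,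
  0, 1], [0, 0, 0, 0, 0, 0, 0, 0, 0, 2], [0, 0, 0, 0, 0, 0, 0, 0, 0, 2], [0, 0, 0, 0, 0, 0, 0, 3, 1], [], [], [0, 0,
  0, 0, 0, 2, -2, -3, -4, 1], [0, 0, 0, 0, 0, 0, -1, 1, -2, -1], [0, 0, 0, 0, 0, 0, -1, 1, -2, -1], [0, 0, 0, 0, 0,
  2, -3, -1, -5, 1], [0, 0, 0, 0, -1, 2, -2], [0, 0, 0, 0, -1, 2, -2], [0, 0, 0, 0, 0, 0, 1], [0, 0, 0, 0, 0, 1, 0,
  -2, 4], [0, 0, 0, 0, 0, 0, -1, 3, 1, 1], [0, 0, 0, 0, 0, 0, 1], [0, 0, 0, 0, 0, 0, 1]],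
  [[0, 0, 0, 0, 0, 0, 3, 2, -2, -8, 2, -1], [0, 0, 0, 0, 0, 0, 0, 0, -3, 7, -3, 1], [0, 0, 0, 0, 0, 0, -2, 2, -2, 4,
  -1, 1], [0, 0, 0, 0, 0, -2, 8, -18, 17, -3, 2], [0, 0, 0, 0, 0, -1, 4, -11, 13, -3, 2], [0, 0, 0, 0, 0, -1, 4, -11,
  13, -3, 2], [], [0, 0, 0, 0, 0, 0, -1, 0, 1], [0, 0, 0, 0, 0, 0, 3, -5, 3, -1], [0, 0, 0, 0, 0, 0, 0, 6, -13, 3,
  -2], [0, 0, 0, 0, -1, 3, -4, 12, -18, 3, -2], [0, 0, 0, 0, -1, 7, -21, 33, -26, 7, -2], [0, 0, 0, 0, 0, 0, 4, -10,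
  9, -10, 3, -2], [0, 0, 0, 0, 0, -1, 8, -11, 7, -10, 3, -2], [0, 0, 0, 0, 0, 3, -5, 1, 2, -8, 3, -2], [0, 0, 0, 0,
  0, 0, -8, 19, -18, 17, -5, 3], [0, 0, 0, 0, 0, 0, 2, -9, 15, -3, 1], [0, 0, 0, 0, 0, 0, 0, 2, -2, 4, -1, 1], [0, 0,
  0, 0, 0, 0, -1, 2, 0, 4, -1, 1], [0, 0, 0, 0, 0, 0, 3, -7, 3, 2, -1, 1]],
  [[0, 0, 0, 0, -1, -3, 1, 17, -12, -5, 1, -1, 1], [0, 0, 0, 0, 0, 0, 1, -6, 7, -1, 1, 2, -1], [0, 0, 0, 0, 0, 0, -2,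
  0, 0, 0, 2, 0, -1], [0, 0, 0, 0, 0, 0, 2, -8, 0, 9, 1, -2], [0, 0, 0, 0, 0, 2, -5, 2, -1, 5, 1, -2], [0, 0, 0, 0,
  0, 0, 2, -8, 0, 9, 1, -2], [], [0, 0, 0, 0, 0, 0, -2, -1, 2, 1], [0, 0, 0, 0, 0, 0, 0, 2, -2, -1, 1], [0, 0, 0, 0,
  0, -2, 5, 0, -2, -7, -1, 2], [0, 0, 0, 0, -2, 3, 0, 8, -6, -12, -1, 2], [0, 0, 0, 0, 0, -2, 7, -8, 5, -3, -5, 2],
  [0, 0, 0, -1, 2, -1, 5, -4, -1, 1, -3, -1, 2], [0, 0, 0, 0, -1, 1, 9, -1, -6, -1, -3, -1, 2], [0, 0, 0, 0, -1, 3,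
  4, -9, 2, 4, -5, -1, 2], [0, 0, 0, 0, 2, -6, 2, -4, 7, -3, 3, 2, -3], [0, 0, 0, 0, 0, 1, -5, 2, 5, 6, 2, -1], [0,
  0, 0, 0, 0, 1, -2, 2, -1, 1, 2, 0, -1], [0, 0, 0, 0, 0, 0, -2, 0, 3, 3, 2, 0, -1], [0, 0, 0, 0, 0, 0, 0, 3, -5, 0,
  4, 0, -1]]]

/-- Vectors. -/
def sD_0 : List (List (List ℤ)) := [
  [[1]],
  [[], [], [], [], [], [], [], [], [], [0, 0, 1]],
  [[], [], [], [], [], [], [], [], [], [], [0, 0, 1]],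
  [[], [], [], [], [], [], [], [], [], [], [], [0, 0, 1]],
  [[], [0, 0, 0, 0, -2], [], [], [], [0, 0, 0, 0, -10], [], [], [], [], [], [], [0, 0, 1], [0, 0, -1], [0, 0, -1],
  [0, 0, 0, -3], [], [], [], [0, 0, 0, 0, -1]],
  [[], [0, 0, 0, 0, -2], [], [], [], [0, 0, 0, 0, -16], [], [], [], [], [], [], [], [0, 0, 2], [], [0, 0, 0, -6], [],
  [], [], [0, 0, 0, 0, -1]],
  [[], [0, 0, 0, 0, -2], [], [], [], [0, 0, 0, 0, -16], [], [], [], [], [], [], [], [], [0, 0, 2], [0, 0, 0, -6], [],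
  [], [], [0, 0, 0, 0, -1]],
  [[], [], [], [], [], [], [], [], [], [], [], [], [], [0, 0, 0, 1]],
  [[], [], [], [], [], [], [], [], [], [], [], [], [], [], [0, 0, 0, 1]],
  [[], [0, 0, 0, 0, -3], [], [], [], [0, 0, 0, 0, -20], [], [], [], [], [], [], [], [], [], [0, 0, 0, -6], [0, 0, 0,
  1]],
  [[], [0, 0, 0, 0, 6], [], [], [], [0, 0, 0, 0, 36], [], [], [], [], [], [], [], [], [], [0, 0, 0, 12], [], [], [],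
  [0, 0, 0, 0, -1]],
  [[], [], [0, 0, 0, 0, 2], [], [], [], [], [], [], [], [], [], [], [], [], [], [], [], [], [0, 0, 0, 0, -1]],
  [[], [], [], [], [], [], [], [], [], [], [], [], [], [], [], [0, 0, 0, 0, 1]],
  [[], [], [], [], [], [], [0, 0, 0, 0, 1], [], [], [], [], [], [], [], [], [], [], [], [], [0, 0, 0, 0, -1]]]

/-- Vectors. -/
def sD_1 : List (List (List ℤ)) := [
  [[], [], [], [], [], [], [], [0, 0, 0, 0, 1], [], [], [], [], [], [], [], [], [], [], [], [0, 0, 0, 0, -1]],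
  [[], [], [], [], [], [], [], [], [0, 0, 0, 0, 1], [], [], [], [], [], [], [], [], [], [], [0, 0, 0, 0, -1]],
  [[], [], [], [], [], [], [], [], [], [], [], [], [], [], [], [], [], [0, 0, 0, 0, 1], [], [0, 0, 0, 0, -1]],
  [[], [], [], [], [], [], [], [], [], [], [], [], [], [], [], [], [], [], [0, 0, 0, 0, 1], [0, 0, 0, 0, -1]],
  [[], [], [], [], [], [], [], [], [], [], [], [], [], [], [], [], [], [], [], [0, 0, 0, 0, 2]],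
  [[], [], [], [0, 0, 0, 0, 2], [], [0, 0, 0, 0, -2]],
  [[], [], [], [], [0, 0, 0, 0, 2], [0, 0, 0, 0, -2]],
  [[], [], [0, 0, 0, 0, 0, 1]],
  [[], [], [], [], [], [], [], [], [], [], [], [], [], [], [], [], [], [], [], [0, 0, 0, 0, 0, 1]],
  [[], [0, 0, 0, 0, 0, 1]],
  [[], [], [], [0, 0, 0, 0, 0, 1], [], [0, 0, 0, 0, 0, -1]],
  [[], [], [], [], [0, 0, 0, 0, 0, 1], [0, 0, 0, 0, 0, -1]],
  [[], [], [], [], [], [0, 0, 0, 0, 0, 2]],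
  [[], [], [], [], [], [0, 0, 0, 0, 0, 0, 1]]]

/-- The lattice. -/
def sD : List (List (List ℤ)) := sD_0 ++ (sD_1)

/-- The stable lattice. -/
def sG : List (List (List ℤ)) := [
  [[1], [0, 0, 0, 0, -1], [0, 0, 0, 0, -2], [], [], [], [], [], [], [], [], [], [], [], [0, 0, -2], [], [0, 0, 0,
  -1], [], [], [0, 0, 0, 0, -1]],
  [[], [], [], [], [], [], [], [], [], [0, 0, 1]],
  [[], [], [], [], [], [], [], [], [], [], [0, 0, 1]],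
  [[], [], [], [], [], [], [], [], [], [], [], [0, 0, 1]],
  [[], [], [], [], [], [], [], [], [], [], [], [], [0, 0, 2], [], [0, 0, -2], [], [], [0, 0, 0, 0, -1], [], [0, 0, 0,
  0, -1]],
  [[], [], [], [], [], [], [], [], [], [], [], [], [], [0, 0, 2], [0, 0, -2], [], [], [], [0, 0, 0, 0, -1], [0, 0, 0,
  0, -1]],
  [[], [], [], [], [], [], [], [], [], [], [], [], [0, 0, 0, 1]],
  [[], [], [], [], [], [], [], [], [], [], [], [], [], [0, 0, 0, 1]],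
  [[], [], [], [], [], [], [], [], [], [], [], [], [], [], [0, 0, 0, 1]],
  [[], [], [0, 0, 0, 0, 2], [], [], [0, 0, 0, 0, -4], [], [], [], [], [], [], [], [], [], [], [0, 0, 0, 2]],
  [[], [], [], [], [], [], [], [], [], [], [], [], [], [], [], [], [0, 0, 0, 0, 1]],
  [[], [], [], [], [], [], [], [], [], [], [], [], [], [], [], [0, 0, 0, 0, 1]],
  [[], [], [], [], [], [], [0, 0, 0, 0, 1], [], [], [], [], [], [], [], [], [], [], [0, 0, 0, 0, -1]],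
  [[], [], [], [], [], [], [], [0, 0, 0, 0, 1], [], [], [], [], [], [], [], [], [], [], [0, 0, 0, 0, -1]],
  [[], [], [], [], [], [], [], [], [0, 0, 0, 0, 1], [], [], [], [], [], [], [], [], [], [], [0, 0, 0, 0, -1]],
  [[], [], [], [], [], [], [], [], [], [], [], [], [], [], [], [], [], [0, 0, 0, 0, 2]],
  [[], [], [], [], [], [], [], [], [], [], [], [], [], [], [], [], [], [], [0, 0, 0, 0, 2]],
  [[], [], [], [], [], [], [], [], [], [], [], [], [], [], [], [], [], [], [], [0, 0, 0, 0, 2]],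
  [[], [], [], [0, 0, 0, 0, 2], [], [0, 0, 0, 0, -2]],
  [[], [], [], [], [0, 0, 0, 0, 2], [0, 0, 0, 0, -2]],
  [[], [], [0, 0, 0, 0, 0, 1]],
  [[], [], [], [], [], [], [], [], [], [], [], [], [], [], [], [], [], [0, 0, 0, 0, 0, 1]],
  [[], [], [], [], [], [], [], [], [], [], [], [], [], [], [], [], [], [], [0, 0, 0, 0, 0, 1]],
  [[], [], [], [], [], [], [], [], [], [], [], [], [], [], [], [], [], [], [], [0, 0, 0, 0, 0, 1]],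
  [[], [0, 0, 0, 0, 0, 1]],
  [[], [], [], [0, 0, 0, 0, 0, 1], [], [0, 0, 0, 0, 0, -1]],
  [[], [], [], [], [0, 0, 0, 0, 0, 1], [0, 0, 0, 0, 0, -1]],
  [[], [], [], [], [], [0, 0, 0, 0, 0, 2]],
  [[], [], [], [], [], [0, 0, 0, 0, 0, 0, 1]]]

/-- Vectors. -/
def sQ_0 : List (List (List ℤ)) := [
  [[1], [0, 0, 0, 0, -1, 6, -1], [0, 0, 0, 0, -2], [], [], [], [], [], [0, 0, 0, 0, -2], [], [], [0, 0, -1], [], [],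
  [0, 0, -2], [], [0, 0, 0, -1], [], [], [0, 0, 0, 0, 1]],
  [[], [], [], [], [], [], [], [], [], [0, 0, 1], [], [0, 0, -1], [0, 0, 2], [], [0, 0, -2], [], [], [0, 0, 0, 0,
  -1], [], [0, 0, 0, 0, 1]],
  [[], [], [], [], [], [], [], [], [], [], [0, 0, 1], [0, 0, -1], [], [0, 0, 2], [0, 0, -2], [], [], [], [0, 0, 0, 0,
  -1], [0, 0, 0, 0, 1]],
  [[], [0, 0, 0, 0, 0, 1], [], [], [], [], [], [], [0, 0, 0, 0, -1], [], [], [0, 0, 0, 1], [], [], [], [], [], [],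
  [], [0, 0, 0, 0, -1]],
  [[], [0, 0, 0, 0, 0, 4, -1], [], [], [], [], [], [], [0, 0, 0, 0, -2], [], [], [], [0, 0, 0, 1]],
  [[], [0, 0, 0, 0, 0, 4, -1], [], [], [], [], [], [], [0, 0, 0, 0, -2], [], [], [], [], [0, 0, 0, 1]],
  [[], [0, 0, 0, 0, 0, 4, -1], [], [], [], [], [], [], [0, 0, 0, 0, -2], [], [], [], [], [], [0, 0, 0, 1]],
  [[], [], [], [], [], [0, 0, 0, 0, 0, -2], [], [], [], [], [], [], [], [], [], [], [0, 0, 0, 0, 1]],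
  [[], [], [], [], [], [0, 0, 0, 0, 0, -2], [], [], [0, 0, 0, 0, 1], [], [], [], [], [], [], [0, 0, 0, 0, 1], [], [],
  [], [0, 0, 0, 0, 1]]]

/-- Vectors. -/
def sQ_1 : List (List (List ℤ)) := [
  [[], [], [], [], [], [], [0, 0, 0, 0, 1], [], [0, 0, 0, 0, -1], [], [], [], [], [], [], [], [], [0, 0, 0, 0, -1],
  [], [0, 0, 0, 0, 1]],
  [[], [], [], [], [], [], [], [0, 0, 0, 0, 1], [0, 0, 0, 0, -1], [], [], [], [], [], [], [], [], [], [0, 0, 0, 0,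
  -1], [0, 0, 0, 0, 1]],
  [[], [0, 0, 0, 0, 0, -4], [], [], [], [0, 0, 0, 0, 0, -2], [], [], [0, 0, 0, 0, 4], [], [], [], [], [], [], [], [],
  [], [], [0, 0, 0, 0, 2]],
  [[], [], [], [], [], [], [], [], [], [], [], [], [], [], [], [], [], [0, 0, 0, 0, 2], [], [0, 0, 0, 0, -2]],
  [[], [], [], [], [], [], [], [], [], [], [], [], [], [], [], [], [], [], [0, 0, 0, 0, 2], [0, 0, 0, 0, -2]],
  [[], [], [], [0, 0, 0, 0, 2], [], [0, 0, 0, 0, -2]],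
  [[], [], [], [], [0, 0, 0, 0, 2], [0, 0, 0, 0, -2]],
  [[], [0, 0, 0, 0, 0, 0, -1], [0, 0, 0, 0, 0, 1]],
  [[], [0, 0, 0, 0, 0, 0, -1], [], [], [], [], [], [], [0, 0, 0, 0, 0, 1]]]

/-- Vectors. -/
def sQ_2 : List (List (List ℤ)) := [
  [[], [], [], [], [], [], [], [], [], [], [], [], [], [], [], [], [], [0, 0, 0, 0, 0, 1]],
  [[], [], [], [], [], [], [], [], [], [], [], [], [], [], [], [], [], [], [0, 0, 0, 0, 0, 1]],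
  [[], [], [], [], [], [], [], [], [], [], [], [], [], [], [], [], [], [], [], [0, 0, 0, 0, 0, 1]],
  [[], [], [], [0, 0, 0, 0, 0, 1], [], [0, 0, 0, 0, 0, -1]],
  [[], [], [], [], [0, 0, 0, 0, 0, 1], [0, 0, 0, 0, 0, -1]],
  [[], [], [], [], [], [0, 0, 0, 0, 0, 4]],
  [[], [0, 0, 0, 0, 0, 0, 2]],
  [[], [], [], [], [], [0, 0, 0, 0, 0, 0, 1]],
  [[], [0, 0, 0, 0, 0, 0, 0, 1]]]

/-- The lattice. -/
def sQ : List (List (List ℤ)) := sQ_0 ++ (sQ_1 ++ (sQ_2))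

/-- Images. -/
def sR : List (List (List ℤ)) := [
  [[0, 0, 0, 0, 0, 0, -2, 1, 2, 1], [0, 0, 0, 0, 0, -1, 2, 1, -3, -1], [], [0, 0, 0, 0, 0, 0, 0, 1, -2], [0, 0, 0, 0,
  0, 0, 0, 1, -2], [], [], [], [0, 0, 0, 0, 0, 2, -1, -2], [0, 0, 0, 0, 0, 0, 0, -1, 2], [0, 0, 0, 0, 0, 0, 0, -1,
  2], [0, 0, 0, 1, -1, -2, 3, -3, 6], [], [], [0, 0, 0, 0, 0, -2, 3, -1, 1], [], [0, 0, 0, 0, 0, -1, 1, 2, -5], [],
  [], [0, 0, 0, 0, 0, 0, 1, -3]],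
  [[1, 0, 0, -1, -6, 7, -6, 8, -12, 7, -1], [0, 0, 0, 0, -1, -7, 13, -1, 6, -6, 1], [0, 0, 0, 0, 0, 0, -2], [0, 0, 0,
  0, -2, 4, 0, -1, 2], [0, 0, 0, 0, -2, 4, 0, -1, 2], [0, 0, 0, 0, 0, -2, 8, -8], [0, 0, 0, 0, 0, 0, 0, -2], [0, 0,
  0, 0, 0, 0, 0, -2], [0, 0, 0, 0, -2, -1, 5], [0, 0, 0, -2, 6, -6, -2, 5, -2], [0, 0, 0, -2, 6, -6, -2, 5, -2], [0,
  0, -2, 0, 10, 1, -11, -13, 9, -2], [0, 0, 0, 0, 0, -2, 4], [0, 0, 0, 0, 0, -2, 4], [0, 0, -2, 1, 4, -3, 11, -19, 8,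
  -1], [], [0, 0, 0, 1, -8, 11, -1, 4, -2, 1], [], [], [0, 0, 0, 0, -1, 2, -3, 3]],
  [[-1, 0, 0, 1, 6, -7, 4, -2, 12, -7, 1], [0, 0, 0, 0, 1, 5, -9, -5, -6, 6, -1], [0, 0, 0, 0, 0, 0, 2], [0, 0, 0, 0,
  0, 2, -10, 8], [0, 0, 0, 0, 2, -4, -2, 1, -2], [0, 0, 0, 0, 2, -4, -2, 1, -2], [0, 0, 0, 0, 2, 1, -7], [0, 0, 0, 0,
  0, 0, 0, 2], [0, 0, 0, 0, 0, 0, 0, 2], [0, 0, 2, 0, -12, 3, 13, 13, -9, 2], [0, 0, 0, 2, -6, 6, 4, -5, 2], [0, 0,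
  0, 2, -6, 6, 4, -5, 2], [0, 0, 2, -1, -4, 5, -11, 19, -8, 1], [0, 0, 0, 0, 0, 4, -4], [0, 0, 0, 0, 0, 4, -4], [0,
  0, 0, 0, 0, -2], [0, 0, 0, -1, 8, -11, 1, -4, 2, -1], [0, 0, 0, 0, 1, -2, 3, -3]],
  [[-1, 0, 0, 1, 6, -7, 4, -2, 12, -7, 1], [0, 0, 0, 0, 1, 5, -9, -5, -6, 6, -1], [0, 0, 0, 0, 0, 0, 2], [0, 0, 0, 0,
  2, -4, -2, 1, -2], [0, 0, 0, 0, 0, 2, -10, 8], [0, 0, 0, 0, 2, -4, -2, 1, -2], [0, 0, 0, 0, 0, 0, 0, 2], [0, 0, 0,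
  0, 2, 1, -7], [0, 0, 0, 0, 0, 0, 0, 2], [0, 0, 0, 2, -6, 6, 4, -5, 2], [0, 0, 2, 0, -12, 3, 13, 13, -9, 2], [0, 0,
  0, 2, -6, 6, 4, -5, 2], [0, 0, 0, 0, 0, 4, -4], [0, 0, 2, -1, -4, 5, -11, 19, -8, 1], [0, 0, 0, 0, 0, 4, -4], [0,
  0, 0, 0, 0, -2], [0, 0, 0, -1, 8, -11, 1, -4, 2, -1], [], [0, 0, 0, 0, 1, -2, 3, -3]],
  [[0, 0, 0, 0, 0, 8, 1, -18, 6, -3, 1], [0, 0, 0, 0, 0, 0, 0, 0, -4, 4, -1], [0, 0, 0, 0, 0, 0, 1, -1, 5, 2, -1],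
  [0, 0, 0, 0, 0, 0, -8, 10, 5, -2], [0, 0, 0, 0, 0, 1, -12, 17, 1, -2], [0, 0, 0, 0, 0, 1, -12, 17, 1, -2], [0, 0,
  0, 0, 0, 0, 1, 0, -1], [], [0, 0, 0, 0, 0, 0, 2, -3, 1], [0, 0, 0, 0, 1, -3, 12, -17, 2, 2], [0, 0, 0, 0, 0, 0, 8,
  -11, -3, 2], [0, 0, 0, 0, 0, 2, -1, 1, -7, 2], [0, 0, 0, 0, 0, 5, -14, 6, -5, -5, 2], [0, 0, 0, 0, 0, 4, -10, 5,
  -7, -5, 2], [0, 0, 0, 0, 4, -2, -9, 8, -9, -5, 2], [0, 0, 0, 0, 0, -8, 16, -4, 8, 8, -3], [0, 0, 0, 0, 0, 0, -1, 3,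
  0, -1], [0, 0, 0, 0, 0, 0, 1, -1, 3, 2, -1], [0, 0, 0, 0, 0, 0, 0, -1, 5, 2, -1], [0, 0, 0, 0, 0, 0, -2, -2, 7, 2,
  -1]]]

/-- Vectors. -/
def sS_0 : List (List (List ℤ)) := [
  [[1], [0, 0, 0, 0, -1], [0, 0, 0, 0, -4], [], [], [0, 0, 0, 0, 4], [], [], [], [], [], [], [], [], [0, 0, -2], [],
  [0, 0, 0, -3], [], [], [0, 0, 0, 0, -1]],
  [[], [], [0, 0, 0, 0, -2], [], [], [0, 0, 0, 0, 4], [], [], [], [0, 0, 1], [], [], [], [], [], [], [0, 0, 0, -2]],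
  [[], [], [0, 0, 0, 0, -2], [], [], [0, 0, 0, 0, 4], [], [], [], [], [0, 0, 1], [], [], [], [], [], [0, 0, 0, -2]],
  [[], [], [0, 0, 0, 0, -2], [], [], [0, 0, 0, 0, 4], [], [], [], [], [], [0, 0, 1], [], [], [], [], [0, 0, 0, -2]],
  [[], [], [], [], [], [], [], [], [], [], [], [], [0, 0, 2], [], [0, 0, -2], [], [], [0, 0, 0, 0, -1], [], [0, 0, 0,
  0, -1]],
  [[], [], [], [], [], [], [], [], [], [], [], [], [], [0, 0, 2], [0, 0, -2], [], [], [], [0, 0, 0, 0, -1], [0, 0, 0,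
  0, -1]],
  [[], [], [], [], [], [], [], [], [], [], [], [], [0, 0, 0, 1]],
  [[], [], [], [], [], [], [], [], [], [], [], [], [], [0, 0, 0, 1]],
  [[], [], [], [], [], [], [], [], [], [], [], [], [], [], [0, 0, 0, 1]],
  [[], [], [], [], [], [], [], [], [], [], [], [], [], [], [], [], [0, 0, 0, 0, 1]],
  [[], [], [], [], [], [], [], [], [], [], [], [], [], [], [], [0, 0, 0, 0, 1]],
  [[], [], [], [], [], [], [0, 0, 0, 0, 1], [], [], [], [], [], [], [], [], [], [], [0, 0, 0, 0, -1]],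
  [[], [], [], [], [], [], [], [0, 0, 0, 0, 1], [], [], [], [], [], [], [], [], [], [], [0, 0, 0, 0, -1]],
  [[], [], [], [], [], [], [], [], [0, 0, 0, 0, 1], [], [], [], [], [], [], [], [], [], [], [0, 0, 0, 0, -1]]]

/-- Vectors. -/
def sS_1 : List (List (List ℤ)) := [
  [[], [], [], [], [], [], [], [], [], [], [], [], [], [], [], [], [], [0, 0, 0, 0, 2]],
  [[], [], [], [], [], [], [], [], [], [], [], [], [], [], [], [], [], [], [0, 0, 0, 0, 2]],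
  [[], [], [], [], [], [], [], [], [], [], [], [], [], [], [], [], [], [], [], [0, 0, 0, 0, 2]],
  [[], [], [], [0, 0, 0, 0, 2], [], [0, 0, 0, 0, -2]],
  [[], [], [], [], [0, 0, 0, 0, 2], [0, 0, 0, 0, -2]],
  [[], [], [0, 0, 0, 0, 0, 1]],
  [[], [], [], [], [], [], [], [], [], [], [], [], [], [], [], [], [], [0, 0, 0, 0, 0, 1]],
  [[], [], [], [], [], [], [], [], [], [], [], [], [], [], [], [], [], [], [0, 0, 0, 0, 0, 1]],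
  [[], [], [], [], [], [], [], [], [], [], [], [], [], [], [], [], [], [], [], [0, 0, 0, 0, 0, 1]],
  [[], [0, 0, 0, 0, 0, 1]],
  [[], [], [], [0, 0, 0, 0, 0, 1], [], [0, 0, 0, 0, 0, -1]],
  [[], [], [], [], [0, 0, 0, 0, 0, 1], [0, 0, 0, 0, 0, -1]],
  [[], [], [], [], [], [0, 0, 0, 0, 0, 2]],
  [[], [], [], [], [], [0, 0, 0, 0, 0, 0, 1]]]

/-- The lattice. -/
def sS : List (List (List ℤ)) := sS_0 ++ (sS_1)

/-- Images. -/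
def sT : List (List (List ℤ)) := [
  [[0, 0, 0, 0, 1, 0, 3, -6, 4], [0, 0, 0, 0, 0, 1, -1, 4, -4], [0, 0, 0, 0, 0, 0, -2], [0, 0, 0, 0, 0, -2, 8, -8],
  [0, 0, 0, 0, 0, 4, -8, 8], [0, 0, 0, 0, 0, 4, -8, 8], [0, 0, 0, 0, 2, -3, 6, -2], [0, 0, 0, 0, 0, 0, 0, -2], [0, 0,
  0, 0, 0, 0, 0, -2], [0, 0, 1, 0, -2, -3, 2, -6], [0, 0, 0, 0, 0, 0, -2], [0, 0, 0, 0, 0, 0, -2], [0, 0, 0, 0, -2,
  1, -6, -2], [0, 0, 0, 0, 0, -2, 4], [0, 0, 0, 0, 0, -2, 4], [], [0, 0, 0, 0, 0, -3, 2, 6], [0, 0, 0, 0, -2, 4, 0,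
  4]]]

end Pool.Agent.Pf4
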