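import Pool.Agent.Pf4.CApp
import Pool.Agent.Pf4.BClo
import Pool.Agent.Pf4.BCon
import Pool.Agent.Pf4.DtV1
import Pool.Agent.Pf4.DtV2
import Pool.Agent.Pf4.DtV3
import Pool.Agent.Pf4.DtA1
import Pool.Agent.Pf4.DtA2
import Pool.Agent.Pf4.DtA3
import Pool.Agent.Pf4.DtA4
import Pool.Agent.Pf4.DtC
import Pool.Agent.Pf4.DtP1
import Pool.Agent.Pf4.DtP2
import Pool.Agent.Pf4.DtP3
import Pool.Agent.Pf4.DtB1
import Pool.Agent.Pf4.DtB2
import Pool.Agent.Pf4.DtB3
import Pool.Agent.Pf4.DtB4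
import Pool.Agent.Pf4.DtD1
import Pool.Agent.Pf4.DtD2
import Pool.Agent.Pf4.DtQ1
import Pool.Agent.Pf4.DtQ2
import Pool.Agent.Pf4.DtQ3
import Pool.Agent.Pf4.DtS1
import Pool.Agent.Pf4.DtS2
import Pool.Agent.Pf4.DtU1

/-!
# The certificate: assembly
-/

set_option autoImplicit false
set_option maxRecDepth 20000

open scoped BigOperators Classical

namespace Pool.Agent.Pf4

theorem m_sB {k : ℕ} (h : ∀ v ∈ ((sA4 ++ sA5) ++ sA6), Mem k (vfam v)) : ∀ v ∈ sB, Mem k (vfam v) := by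
  exact mem_chkNs h (cDtB_0 ++ (cDtB_1 ++ (cDtB_2 ++ (cDtB_3))))
    (eDtB_0 ++ (eDtB_1 ++ (eDtB_2 ++ (eDtB_3))))
    (chkNs_append kDtB_0 (chkNs_append kDtB_1 (chkNs_append kDtB_2 kDtB_3 rfl rfl) rfl rfl) rfl rfl)

theorem m_sD {k : ℕ} (h : ∀ v ∈ (sB ++ sC), Mem k (vfam v)) : ∀ v ∈ sD, Mem k (vfam v) := by
  exact mem_chkNs h (cDtD_0 ++ (cDtD_1))
    (eDtD_0 ++ (eDtD_1))
    (chkNs_append kDtD_0 kDtD_1 rfl rfl)

theorem m_sQ {k : ℕ} (h : ∀ v ∈ (sP_0 ++ (sP_1 ++ sP_2)), Mem k (vfam v)) : ∀ v ∈ sQ, Mem k (vfam v) := by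
  exact mem_chkNs h (cDtQ_0 ++ (cDtQ_1 ++ (cDtQ_2)))
    (eDtQ_0 ++ (eDtQ_1 ++ (eDtQ_2)))
    (chkNs_append kDtQ_0 (chkNs_append kDtQ_1 kDtQ_2 rfl rfl) rfl rfl)

theorem m_sS {k : ℕ} (h : ∀ v ∈ (sQ ++ sR), Mem k (vfam v)) : ∀ v ∈ sS, Mem k (vfam v) := by
  exact mem_chkNs h (cDtS_0 ++ (cDtS_1))
    (eDtS_0 ++ (eDtS_1))
    (chkNs_append kDtS_0 kDtS_1 rfl rfl)

theorem m_sG1 {k : ℕ} (h : ∀ v ∈ (sS ++ sT), Mem k (vfam v)) : ∀ v ∈ sG, Mem k (vfam v) := by
  exact mem_chkNs h (cDtU_0)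
    (eDtU_0)
    kDtU_0

/-- The stable lattice is contained in the module generated by `U`. -/
theorem base_sG : ∀ v ∈ sG, Mem 0 (vfam v) := by
  have h1 := m_sA1 vfam_one
  have h2 := m_sA2 h1
  have h3 := m_sA3 h2
  have h4 := m_sA4 (mem_append h2 h3)
  have h5 := m_sA5 h4
  have h6 := m_sA6 (mem_append h4 h5)
  have hB := m_sB (mem_append (mem_append h4 h5) h6)
  have hC := m_sC hB
  exact m_sG (m_sD (mem_append hB hC))

/-- The class can be raised. -/
theorem step_sG {k : ℕ} (h : ∀ v ∈ sG, Mem k (vfam v)) : ∀ v ∈ sG, Mem (k + 1) (vfam v) := by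
  have hQ := m_sQ (mem_append (m_sP_0 h) (mem_append (m_sP_1 h) (m_sP_2 h)))
  have hS := m_sS (mem_append hQ (m_sR hQ))
  exact m_sG1 (mem_append hS (m_sT hS))

theorem all_sG (k : ℕ) : ∀ v ∈ sG, Mem k (vfam v) := by
  induction k with
  | zero => exact base_sG
  | succ k ih => exact step_sG ih

/-- The vectors `t U` and `t ^ 4 dJ`. -/
def sF : List (List (List ℤ)) := [
  [[0, 1]],
  [[], [], [], [], [], [], [], [], [], [], [], [], [], [], [], [], [0, 0, 0, 0, 1]]]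

/-- Their coefficients. -/
def dsF : List (ℕ × Option Lt × List (List ℤ)) := [
  (0, none, [[0, 1], [], [], [], [], [], [], [], [2], [], [1], [], [], [], [], [], [], [], [], [], [2], [], [], [1], [1]]),
  (0, none, [[], [], [], [], [], [], [], [], [], [], [1]])]

theorem all_sF (k : ℕ) : ∀ v ∈ sF, Mem k (vfam v) := mem_chkIs (all_sG k) dsF sF (by decide +kernel)

theorem vfam_single {K : Type} [Field K] [Fintype K] (i : Fin 20) (n : ℕ) (w : W5 K) :
    bev (List.replicate i.1 [] ++ [List.replicate n 0 ++ [1]]) w = (qr K)⁻¹ ^ n * bas i w := by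
  have hl : ∀ (n : ℕ), lev (qr K)⁻¹ (List.replicate n (0 : ℤ) ++ [1]) = (qr K)⁻¹ ^ n := by
    intro n
    induction n with
    | zero => simp [lev]
    | succ n ih =>
      rw [List.replicate_succ, List.cons_append, lev, ih]
      push_cast
      ring
  unfold bev
  rw [Finset.sum_eq_single i]
  · have h : (List.replicate i.1 ([] : List ℤ) ++ [List.replicate n 0 ++ [1]]).getD i.1 [] = List.replicate n 0 ++ [1] := by
      rw [List.getD_append_right _ _ _ _ (by simp)]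
      simp
    rw [h, hl]
  · intro j _ hj
    have h : (List.replicate i.1 ([] : List ℤ) ++ [List.replicate n 0 ++ [1]]).getD j.1 [] = [] := by
      rcases lt_or_ge j.1 i.1 with h1 | h1
      · rw [List.getD_append _ _ _ _ (by simpa using h1)]
        rw [List.getD_replicate _ h1]
      · have h2 : i.1 < j.1 := lt_of_le_of_ne h1 fun h => hj (Fin.ext h.symm)
        rw [List.getD_eq_default _ _ (by simp; omega)]
    rw [h, lev, zero_mul]
  · intro h
    exact absurd (Finset.mem_univ _) h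

/-- The star is approximated by expressions in the letters applied to the triangle. -/
theorem inC_star : InC fun _ _ _ => St := by
  refine inC_St (Mem.congr (fun K _ _ w _ => ?_) (all_sF 3 [[0, 1]] (by simp [sF])))
    (Mem.congr (fun K _ _ w _ => ?_) (all_sF 0 _ (List.mem_cons_of_mem _ List.mem_cons_self)))
  · have h := vfam_single (0 : Fin 20) 1 w
    rw [pow_one] at h
    refine h.trans ?_
    simp [bas, bc, U]
  · have h := vfam_single (16 : Fin 20) 4 w
    refine h.trans ?_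
    simp [bas, bc, dJ]

end Pool.Agent.Pf4
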