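import Mathlib

/-!
# Networks with three terminals: coordinates, the two moves, the elementary maps

A network with terminals `1, 2, 3` has five values: `x0` is the sum over the spanning trees of the products of the
variables outside the tree, `xi` (`i = 1, 2, 3`) the same sum over the spanning forests with two components, one of
which contains the terminal `i` and the other one the two other terminals, `x4` the sum over the spanning forests with
three components, one for each terminal.  They satisfy `x0 * x4 = x1 * x2 + x1 * x3 + x2 * x3` (`W5.Iso`).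
-/

set_option autoImplicit false

open scoped BigOperators

namespace Pool.Agent.Pf4

/-- The five values of a network with three terminals. -/
@[ext] structure W5 (K : Type) where
  /-- spanning trees -/
  x0 : K
  /-- `1 | 2 3` -/
  x1 : K
  /-- `2 | 1 3` -/
  x2 : K
  /-- `3 | 1 2` -/
  x3 : K
  /-- `1 | 2 | 3` -/
  x4 : K

namespace W5

variable {K : Type}

/-- `W5 K` is `K ^ 5`. -/
def toProd : W5 K ≃ K × K × K × K × K where
  toFun w := (w.x0, w.x1, w.x2, w.x3, w.x4)
  invFun p := ⟨p.1, p.2.1, p.2.2.1, p.2.2.2.1, p.2.2.2.2⟩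
  left_inv _ := rfl
  right_inv _ := rfl

noncomputable instance [Fintype K] : Fintype (W5 K) := Fintype.ofEquiv _ toProd.symm

noncomputable instance : DecidableEq (W5 K) := Classical.decEq _

instance [Zero K] : Zero (W5 K) := ⟨⟨0, 0, 0, 0, 0⟩⟩

/-- Multiplication by a scalar. -/
def sm [Mul K] (r : K) (w : W5 K) : W5 K := ⟨r * w.x0, r * w.x1, r * w.x2, r * w.x3, r * w.x4⟩

/-- The quadric. -/
def Iso [CommRing K] (w : W5 K) : Prop := w.x0 * w.x4 = w.x1 * w.x2 + w.x1 * w.x3 + w.x2 * w.x3

/-- The value of the graph obtained by joining two networks at their terminals. -/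
def pr [CommRing K] (v w : W5 K) : K :=
  v.x0 * w.x4 + v.x4 * w.x0 + v.x1 * (w.x2 + w.x3) + v.x2 * (w.x1 + w.x3) + v.x3 * (w.x1 + w.x2)

/-- Rotation of the terminals: `(rt w)` at `i` is `w` at `i + 1`. -/
def rt (w : W5 K) : W5 K := ⟨w.x0, w.x2, w.x3, w.x1, w.x4⟩

/-- The inverse rotation. -/
def tr (w : W5 K) : W5 K := ⟨w.x0, w.x3, w.x1, w.x2, w.x4⟩

/-- Exchange of the terminals `1` and `2`. -/
def sw (w : W5 K) : W5 K := ⟨w.x0, w.x2, w.x1, w.x3, w.x4⟩

end W5

section maps

variable {K : Type} [CommRing K]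

/-- The move `a`: the terminals `1`, `2` are joined with two new vertices `1'`, `2'`, which become the terminals `1`,
`2`, by the edges `11'` (`a`), `12'` (`b`), `21'` (`c`), `22'` (`d`). -/
def XA (a b c d : K) (w : W5 K) : W5 K :=
  ⟨w.x0 * ((a + c) * (b + d)) + (w.x1 + w.x2) * (a + b + c + d),
   w.x0 * (a * c * (b + d)) + w.x1 * (c * (a + b)) + w.x2 * (a * (c + d)),
   w.x0 * (b * d * (a + c)) + w.x1 * (d * (a + b)) + w.x2 * (b * (c + d)),
   w.x1 * (c * d) + w.x2 * (a * b) + w.x3 * ((a + c) * (b + d)) + w.x4 * (a + b + c + d),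
   w.x0 * (a * b * c * d) + w.x1 * (c * d * (a + b)) + w.x2 * (a * b * (c + d)) +
     w.x3 * (a * b * (c + d) + c * d * (a + b)) + w.x4 * ((a + b) * (c + d))⟩

/-- The move `h`: three new vertices `1'`, `2'`, `3'`, which become the terminals; the edges are `12'` (`a`), `13'` (`b`),
`21'` (`c`), `23'` (`d`), `31'` (`e`), `32'` (`f`). -/
def XH (a b c d e f : K) (w : W5 K) : W5 K :=
  ⟨w.x0 * ((a + f) * (b + d) * (c + e)) + w.x1 * ((c + e) * (a + b + d + f)) + w.x2 * ((a + f) * (b + c + d + e)) +
     w.x3 * ((b + d) * (a + c + e + f)) + w.x4 * (a + b + c + d + e + f),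
   w.x0 * (c * e * (a + f) * (b + d)) + w.x1 * (c * e * (a + b) + c * d * (e + f) + e * f * (c + d)) +
     w.x2 * (e * (a + f) * (c + d)) + w.x3 * (c * (b + d) * (e + f)) + w.x4 * ((c + d) * (e + f)),
   w.x0 * (a * f * (b + d) * (c + e)) + w.x1 * (f * (a + b) * (c + e)) +
     w.x2 * (a * b * e + a * b * f + a * c * f + a * d * f + a * e * f + b * e * f) +
     w.x3 * (a * (b + d) * (e + f)) + w.x4 * ((a + b) * (e + f)),
   w.x0 * (b * d * (a + f) * (c + e)) + w.x1 * (d * (a + b) * (c + e)) + w.x2 * (b * (c + d) * (a + f)) +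
     w.x3 * (a * b * c + a * b * d + a * c * d + b * c * d + b * d * e + b * d * f) + w.x4 * ((a + b) * (c + d)),
   w.x0 * (a * b * c * d * e + a * b * c * d * f + a * b * c * e * f + a * b * d * e * f + a * c * d * e * f +
       b * c * d * e * f) +
     w.x1 * (a * c * d * e + a * c * d * f + a * c * e * f + a * d * e * f + b * c * d * e + b * c * d * f +
       b * c * e * f + b * d * e * f) +
     w.x2 * (a * b * c * e + a * b * c * f + a * b * d * e + a * b * d * f + a * c * e * f + a * d * e * f +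
       b * c * e * f + b * d * e * f) +
     w.x3 * (a * b * c * e + a * b * c * f + a * b * d * e + a * b * d * f + a * c * d * e + a * c * d * f +
       b * c * d * e + b * c * d * f) +
     w.x4 * ((a + b) * (c + d) * (e + f))⟩

/-- A new edge `y` between the terminals `1` and `2`. -/
def P3m (y : K) (w : W5 K) : W5 K := ⟨y * w.x0 + w.x1 + w.x2, y * w.x1, y * w.x2, y * w.x3 + w.x4, y * w.x4⟩

/-- A new edge `y` between the terminal `3` and a new vertex, which becomes the terminal `3`. -/
def L3m (y : K) (w : W5 K) : W5 K := ⟨w.x0, w.x1, w.x2, w.x3 + y * w.x0, w.x4 + y * (w.x1 + w.x2)⟩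

/-- The leading term of `L3m`. -/
def M3m (w : W5 K) : W5 K := ⟨0, 0, 0, w.x0, w.x1 + w.x2⟩

end maps

end Pool.Agent.Pf4
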