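import Pool.Agent.Pf4.GDefs

/-!
# The gadgets preserve primitive graphs
-/

set_option autoImplicit false

open scoped BigOperators Classical

namespace Pool.Agent.Pf4

open Pool.Agent.KG

section

variable {V V' E E' F : Type} [Fintype V] [Fintype V'] [Fintype E] [Fintype E'] [Fintype F]

private theorem g_de_ncard (p : E → Prop) : {e | p e}.ncard = ∑ e, if p e then 1 else 0 := by
  have h : {e | p e} = ((Finset.univ.filter p : Finset E) : Set E) := by
    ext k
    simp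
  rw [h, Set.ncard_coe_finset, Finset.card_filter]

private theorem g_de_deg (s t : E → V) (v : V) :
    deg s t v = (∑ e, if s e = v then 1 else 0) + ∑ e, if t e = v then 1 else 0 := by
  unfold deg
  rw [g_de_ncard, g_de_ncard]

/-- MODULE g_de (1).  Compare `CTR_sum` in Prm3/Gr.lean. -/
theorem deg_elim (s t : E → V) (s' t' : F → V) (v : V) :
    deg (Sum.elim s s') (Sum.elim t t') v = deg s t v + deg s' t' v := by
  rw [g_de_deg, g_de_deg, g_de_deg, Fintype.sum_sum_type, Fintype.sum_sum_type, add_add_add_comm]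
  refine congrArg₂ (· + ·) (congrArg₂ (· + ·) ?_ ?_) (congrArg₂ (· + ·) ?_ ?_) <;>
    exact Finset.sum_congr rfl fun e _ => if_congr Iff.rfl rfl rfl

/-- MODULE g_de (2). -/
theorem deg_inl (s t : E → V) (v : V) :
    deg (fun e => (Sum.inl (s e) : V ⊕ F)) (fun e => Sum.inl (t e)) (Sum.inl v) = deg s t v := by
  rw [g_de_deg, g_de_deg]
  refine congrArg₂ (· + ·) (Finset.sum_congr rfl fun e _ => ?_) (Finset.sum_congr rfl fun e _ => ?_)
  · by_cases h : s e = v <;> simp [h]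
  · by_cases h : t e = v <;> simp [h]

/-- MODULE g_de (3). -/
theorem deg_inr (s t : E → V) (j : F) :
    deg (fun e => (Sum.inl (s e) : V ⊕ F)) (fun e => Sum.inl (t e)) (Sum.inr j) = 0 := by
  rw [g_de_deg]
  simp

/-- MODULE g_de (4). -/
theorem deg_sum (s t : E → V) (v : V) : deg s t v = ∑ e, ((if s e = v then 1 else 0) + if t e = v then 1 else 0) := by
  rw [g_de_deg, Finset.sum_add_distrib]

/-- MODULE g_de (5). -/
theorem ei_sum (s t : E → V) (U : Finset V) : ei s t U = ∑ e, if s e ∈ U ∧ t e ∈ U then 1 else 0 := by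
  unfold ei
  rw [Finset.card_filter]

/-- MODULE g_de (6). -/
theorem ei_elim (s t : E → V) (s' t' : F → V) (U : Finset V) :
    ei (Sum.elim s s') (Sum.elim t t') U = ei s t U + ei s' t' U := by
  rw [ei_sum, ei_sum, ei_sum, Fintype.sum_sum_type]
  refine congrArg₂ (· + ·) ?_ ?_ <;>
    exact Finset.sum_congr rfl fun e _ => if_congr Iff.rfl rfl rfl

/-- MODULE g_de (7). -/
theorem ei_inl (s t : E → V) (U : Finset (V ⊕ F)) :
    ei (fun e => (Sum.inl (s e) : V ⊕ F)) (fun e => Sum.inl (t e)) U = ei s t U.toLeft := by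
  rw [ei_sum, ei_sum]
  refine Finset.sum_congr rfl fun e _ => ?_
  by_cases h : s e ∈ U.toLeft ∧ t e ∈ U.toLeft
  · rw [if_pos h, if_pos ⟨Finset.mem_toLeft.mp h.1, Finset.mem_toLeft.mp h.2⟩]
  · rw [if_neg h, if_neg fun h' => h ⟨Finset.mem_toLeft.mpr h'.1, Finset.mem_toLeft.mpr h'.2⟩]

/-- MODULE g_pi.  Isomorphic graphs (every edge goes to the image edge, perhaps with the ends exchanged).

Proof.  `LL`: clear.  `deg` (compare `Prm3.deg_key`), `ei s' t' U = ei s t (U.preimage f)` (`Finset.map` with `f.symm`), cards: `Fintype.card_congr`. -/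
theorem PrG.iso (f : V ≃ V') (g : E ≃ E') {s t : E → V} {s' t' : E' → V'}
    (h : ∀ e, (s' (g e) = f (s e) ∧ t' (g e) = f (t e)) ∨ (s' (g e) = f (t e) ∧ t' (g e) = f (s e))) (hp : PrG s t) :
    PrG s' t' := by
  have hdeg : ∀ v', deg s' t' v' = deg s t (f.symm v') := by
    intro v'
    rw [deg_sum, deg_sum, ← Equiv.sum_comp g]
    refine Finset.sum_congr rfl fun e _ => ?_
    rcases h e with ⟨h1, h2⟩ | ⟨h1, h2⟩
    · rw [h1, h2]
      simp only [← Equiv.eq_symm_apply]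
    · rw [h1, h2, add_comm]
      simp only [← Equiv.eq_symm_apply]
  have hei : ∀ U' : Finset V', ei s' t' U' = ei s t (U'.map f.symm.toEmbedding) := by
    intro U'
    rw [ei_sum, ei_sum, ← Equiv.sum_comp g]
    refine Finset.sum_congr rfl fun e _ => ?_
    simp only [Finset.mem_map_equiv, Equiv.symm_symm]
    rcases h e with ⟨h1, h2⟩ | ⟨h1, h2⟩
    · rw [h1, h2]
    · rw [h1, h2]
      simp only [and_comm]
  have hcV : Fintype.card V' = Fintype.card V := (Fintype.card_congr f).symm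
  have hcE : Fintype.card E' = Fintype.card E := (Fintype.card_congr g).symm
  refine ⟨?_, ?_, ?_, ?_, ?_⟩
  · intro e'
    obtain ⟨e, rfl⟩ := g.surjective e'
    rcases h e with ⟨h1, h2⟩ | ⟨h1, h2⟩
    · rw [h1, h2]
      exact fun hh => hp.ll e (f.injective hh)
    · rw [h1, h2]
      exact fun hh => hp.ll e (f.injective hh).symm
  · intro v'
    rw [hdeg]
    exact hp.dg _
  · rw [hcV]
    exact hp.nv
  · rw [hcV, hcE]
    exact hp.cd
  · intro U' h2 hne
    rw [hei]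
    have h3 := hp.pm (U'.map f.symm.toEmbedding) (by rwa [Finset.card_map]) (by
      intro hu
      apply hne
      rw [← Finset.card_eq_iff_eq_univ]
      rw [← Finset.card_map f.symm.toEmbedding, hu, Finset.card_univ, hcV])
    rwa [Finset.card_map] at h3

/-- MODULE g_pi (2). -/
theorem PrG.inj {s t : E → V} {r : Fin 3 → V} (h : PrG (trS s r) (trT t r)) : Function.Injective r := by
  have h1 : ∀ i : Fin 3, r (i + 1) ≠ r (i + 2) := fun i => h.ll (Sum.inr i)
  have h2 : ∀ i j : Fin 3, i ≠ j → ∃ k : Fin 3, (i = k + 1 ∧ j = k + 2) ∨ (i = k + 2 ∧ j = k + 1) := by decide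
  intro i j hij
  by_contra hne
  obtain ⟨k, ⟨rfl, rfl⟩ | ⟨rfl, rfl⟩⟩ := h2 i j hne
  · exact h1 k hij
  · exact h1 k hij.symm

/-- MODULE g_pi (3).  The small facts: `2 |U| - e(U)` is `0` for `∅`, `2` if `|U| = 1` (no loops) or `U = univ` (`cd`), `≥ 3` otherwise. -/
theorem PrG.cases {s t : E → V} (h : PrG s t) (U : Finset V) :
    (U = ∅ ∧ ei s t U = 0) ∨ (U.card = 1 ∧ ei s t U = 0) ∨ (U = Finset.univ ∧ ei s t U + 2 = 2 * U.card) ∨
      (2 ≤ U.card ∧ U ≠ Finset.univ ∧ ei s t U + 3 ≤ 2 * U.card) := by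
  by_cases h0 : U = ∅
  · left
    refine ⟨h0, ?_⟩
    subst h0
    simp [ei]
  right
  by_cases h1 : U.card = 1
  · left
    refine ⟨h1, ?_⟩
    obtain ⟨v, rfl⟩ := Finset.card_eq_one.mp h1
    unfold ei
    rw [Finset.card_eq_zero, Finset.filter_eq_empty_iff]
    intro e _ he
    simp only [Finset.mem_singleton] at he
    exact h.ll e (he.1.trans he.2.symm)
  right
  by_cases h2 : U = Finset.univ
  · left
    refine ⟨h2, ?_⟩
    subst h2
    have h3 : ei s t (Finset.univ : Finset V) = Fintype.card E := by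
      simp [ei]
    rw [h3, Finset.card_univ]
    exact h.cd
  right
  have h3 : U.card ≠ 0 := fun hh => h0 (Finset.card_eq_zero.mp hh)
  have h4 : 2 ≤ U.card := by omega
  exact ⟨h4, h2, h.pm U h4 h2⟩

private theorem g_pa_ei (s t : E → V) (r : Fin 3 → V) (U : Finset V) :
    ei (trS s r) (trT t r) U = ei s t U + ((if r 1 ∈ U ∧ r 2 ∈ U then 1 else 0) +
      (if r 2 ∈ U ∧ r 0 ∈ U then 1 else 0) + if r 0 ∈ U ∧ r 1 ∈ U then 1 else 0) := by
  unfold trS trT
  rw [ei_elim, ei_sum (fun i => r (i + 1)), Fin.sum_univ_three]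
  rfl

private theorem g_pa_deg (s t : E → V) (r : Fin 3 → V) (v : V) :
    deg (trS s r) (trT t r) v = deg s t v + 2 * ((if r 0 = v then 1 else 0) +
      (if r 1 = v then 1 else 0) + if r 2 = v then 1 else 0) := by
  unfold trS trT
  rw [deg_elim, deg_sum (fun i => r (i + 1)), Fin.sum_univ_three]
  have e1 : (0 : Fin 3) + 1 = 1 := rfl
  have e2 : (1 : Fin 3) + 1 = 2 := rfl
  have e3 : (2 : Fin 3) + 1 = 0 := rfl
  have e4 : (0 : Fin 3) + 2 = 2 := rfl
  have e5 : (1 : Fin 3) + 2 = 0 := rfl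
  have e6 : (2 : Fin 3) + 2 = 1 := rfl
  rw [e1, e2, e3, e4, e5, e6]
  split_ifs <;> omega

private theorem g_pa_core {s t : E → V} {r : Fin 3 → V} (h : PrG (trS s r) (trT t r)) :
    PrG (Sum.elim (Sum.elim (fun e => Sum.inl (s e))
          (![Sum.inl (r 0), Sum.inl (r 0), Sum.inl (r 1), Sum.inl (r 1)] : Fin 4 → V ⊕ Fin 2))
          (![Sum.inr 1, Sum.inl (r 2), Sum.inr 0] : Fin 3 → V ⊕ Fin 2))
      (Sum.elim (Sum.elim (fun e => Sum.inl (t e))
          (![Sum.inr 0, Sum.inr 1, Sum.inr 0, Sum.inr 1] : Fin 4 → V ⊕ Fin 2))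
          (![Sum.inl (r 2), Sum.inr 0, Sum.inr 1] : Fin 3 → V ⊕ Fin 2)) := by
  have hr := h.inj
  have h01 : r 0 ≠ r 1 := fun e => absurd (hr e) (by decide)
  have h12 : r 1 ≠ r 2 := fun e => absurd (hr e) (by decide)
  have h02 : r 0 ≠ r 2 := fun e => absurd (hr e) (by decide)
  refine ⟨?_, ?_, ?_, ?_, ?_⟩
  · rintro ((e | i) | i)
    · have := h.ll (Sum.inl e)
      simpa [trS, trT] using this
    · fin_cases i <;> simp
    · fin_cases i <;> simp
  · intro v
    rw [deg_elim, deg_elim]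
    rcases v with v | j
    · have hv := h.dg v
      rw [g_pa_deg] at hv
      rw [deg_inl, deg_sum (![Sum.inl (r 0), Sum.inl (r 0), Sum.inl (r 1), Sum.inl (r 1)] : Fin 4 → V ⊕ Fin 2),
        deg_sum (![Sum.inr 1, Sum.inl (r 2), Sum.inr 0] : Fin 3 → V ⊕ Fin 2), Fin.sum_univ_four, Fin.sum_univ_three]
      by_cases k0 : r 0 = v <;> by_cases k1 : r 1 = v <;> by_cases k2 : r 2 = v <;>
        simp [k0, k1, k2] at hv ⊢ <;> omega
    · rw [deg_inr, deg_sum (![Sum.inl (r 0), Sum.inl (r 0), Sum.inl (r 1), Sum.inl (r 1)] : Fin 4 → V ⊕ Fin 2),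
        deg_sum (![Sum.inr 1, Sum.inl (r 2), Sum.inr 0] : Fin 3 → V ⊕ Fin 2), Fin.sum_univ_four, Fin.sum_univ_three]
      fin_cases j <;> simp
  · have := h.nv
    simp only [Fintype.card_sum, Fintype.card_fin]
    omega
  · have := h.cd
    simp only [Fintype.card_sum, Fintype.card_fin] at this ⊢
    omega
  · intro U' h2 hne
    rw [ei_elim, ei_elim, ei_inl, ei_sum (![Sum.inl (r 0), Sum.inl (r 0), Sum.inl (r 1), Sum.inl (r 1)] : Fin 4 → V ⊕ Fin 2),
        ei_sum (![Sum.inr 1, Sum.inl (r 2), Sum.inr 0] : Fin 3 → V ⊕ Fin 2), Fin.sum_univ_four, Fin.sum_univ_three]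
    have hc := Finset.card_toLeft_add_card_toRight (u := U')
    have hk : U'.toRight.card = (if (Sum.inr 0 : V ⊕ Fin 2) ∈ U' then 1 else 0) +
        if (Sum.inr 1 : V ⊕ Fin 2) ∈ U' then 1 else 0 := by
      have h1 : U'.toRight = Finset.univ.filter fun j => (Sum.inr j : V ⊕ Fin 2) ∈ U' := by
        ext j
        simp
      rw [h1, Finset.card_filter, Fin.sum_univ_two]
    have hcs := h.cases U'.toLeft
    rw [g_pa_ei] at hcs
    have m0 : r 0 ∈ U'.toLeft ↔ (Sum.inl (r 0) : V ⊕ Fin 2) ∈ U' := Finset.mem_toLeft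
    have m1 : r 1 ∈ U'.toLeft ↔ (Sum.inl (r 1) : V ⊕ Fin 2) ∈ U' := Finset.mem_toLeft
    have m2 : r 2 ∈ U'.toLeft ↔ (Sum.inl (r 2) : V ⊕ Fin 2) ∈ U' := Finset.mem_toLeft
    have pos : ∀ i, r i ∈ U'.toLeft → 1 ≤ U'.toLeft.card := fun i hi => Finset.card_pos.mpr ⟨_, hi⟩
    have two : ∀ i j, i ≠ j → r i ∈ U'.toLeft → r j ∈ U'.toLeft → 2 ≤ U'.toLeft.card := fun i j hij hi hj =>
      Finset.one_lt_card.mpr ⟨_, hi, _, hj, fun e => hij (hr e)⟩
    have nu : ∀ i, r i ∉ U'.toLeft → U'.toLeft ≠ Finset.univ := fun i hi e => hi (e ▸ Finset.mem_univ _)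
    have nu2 : (Sum.inr 0 : V ⊕ Fin 2) ∈ U' → (Sum.inr 1 : V ⊕ Fin 2) ∈ U' → U'.toLeft ≠ Finset.univ := by
      intro a b e
      apply hne
      ext x
      rcases x with x | j
      · have : x ∈ U'.toLeft := e ▸ Finset.mem_univ _
        simpa using this
      · fin_cases j
        · simpa using a
        · simpa using b
    obtain ⟨w, hw⟩ : ∃ w : ℕ, (U'.toLeft ≠ Finset.univ → w = 0) ∧ (U'.toLeft = Finset.univ → w = 1) := by
      by_cases e : U'.toLeft = Finset.univ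
      · exact ⟨1, fun k => absurd e k, fun _ => rfl⟩
      · exact ⟨0, fun _ => rfl, fun k => absurd k e⟩
    obtain ⟨c, hcc⟩ : ∃ c, c = U'.toLeft.card := ⟨_, rfl⟩
    obtain ⟨y, hy⟩ : ∃ y, y = ei s t U'.toLeft := ⟨_, rfl⟩
    have P0 := pos 0
    have P1 := pos 1
    have P2 := pos 2
    have T01 := two 0 1 (by decide)
    have T12 := two 1 2 (by decide)
    have T02 := two 0 2 (by decide)
    have N0 : r 0 ∉ U'.toLeft → w = 0 := fun k => hw.1 (nu 0 k)
    have N1 : r 1 ∉ U'.toLeft → w = 0 := fun k => hw.1 (nu 1 k)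
    have N2 : r 2 ∉ U'.toLeft → w = 0 := fun k => hw.1 (nu 2 k)
    have NB : (Sum.inr 0 : V ⊕ Fin 2) ∈ U' → (Sum.inr 1 : V ⊕ Fin 2) ∈ U' → w = 0 := fun a b => hw.1 (nu2 a b)
    rw [hk] at hc
    rw [← hy] at hcs ⊢
    rw [m0] at P0 T01 T02 N0
    rw [m1] at P1 T01 T12 N1
    rw [m2] at P2 T12 T02 N2
    rw [← hcc] at hc hcs P0 P1 P2 T01 T12 T02
    obtain ⟨c', hc'⟩ : ∃ c', c' = U'.card := ⟨_, rfl⟩
    rw [← hc'] at hc h2 ⊢
    obtain ⟨Y, hY⟩ : ∃ Y : ℕ, Y = y + ((if r 1 ∈ U'.toLeft ∧ r 2 ∈ U'.toLeft then 1 else 0) +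
      (if r 2 ∈ U'.toLeft ∧ r 0 ∈ U'.toLeft then 1 else 0) +
      if r 0 ∈ U'.toLeft ∧ r 1 ∈ U'.toLeft then 1 else 0) := ⟨_, rfl⟩
    rw [← hY] at hcs
    have hcs' : (c = 0 ∧ Y = 0) ∨ (c = 1 ∧ Y = 0) ∨ (w = 1 ∧ Y + 2 = 2 * c) ∨ (2 ≤ c ∧ Y + 3 ≤ 2 * c) := by
      rcases hcs with ⟨e, q⟩ | ⟨e, q⟩ | ⟨e, q⟩ | ⟨e, -, q⟩
      · exact Or.inl ⟨by rw [hcc, e]; rfl, q⟩
      · exact Or.inr (Or.inl ⟨e, q⟩)
      · exact Or.inr (Or.inr (Or.inl ⟨hw.2 e, q⟩))
      · exact Or.inr (Or.inr (Or.inr ⟨e, q⟩))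
    simp only [Finset.mem_toLeft] at hY
    clear hcs nu2 nu two pos m0 m1 m2 hk hcc hy hc' hne hw h hr h01 h12 h02
    by_cases k0 : (Sum.inl (r 0) : V ⊕ Fin 2) ∈ U' <;> by_cases k1 : (Sum.inl (r 1) : V ⊕ Fin 2) ∈ U' <;>
      by_cases k2 : (Sum.inl (r 2) : V ⊕ Fin 2) ∈ U' <;> by_cases j0 : (Sum.inr 0 : V ⊕ Fin 2) ∈ U' <;>
      by_cases j1 : (Sum.inr 1 : V ⊕ Fin 2) ∈ U' <;>
      simp [k0, k1, k2, j0, j1] at hY hc P0 P1 P2 T01 T12 T02 N0 N1 N2 NB ⊢ <;> omega

/-- MODULE g_pa.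

Proof.  `ll`: `r` is injective.  `dg`: `deg_elim`, `deg_inl`, `deg_inr`; the degree of an old vertex `inl v` is that of `v` in the graph with the triangle: for
`v = r 0`, `r 1` the two edges of the triangle are replaced by two edges to `inr 0`, `inr 1`, for `v = r 2` by two edges of the new triangle (`deg_sum` for the new edges, `Fin.sum_univ_four`,
`Fin.sum_univ_three`; indicators `[r i = v]`, at most one is `1`).  `inr j`: `2 + 2`.  `nv`, `cd`: four edges and two vertices more.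
`pm`: `U' : Finset (V ⊕ Fin 2)`, `U = U'.toLeft`, `u i = [r i ∈ U]`, `b j = [inr j ∈ U']`, `p = u 0 + u 1`, `k = b 0 + b 1`, `z = u 2`; by `ei_elim`, `ei_inl`, `ei_sum`:
`ei' U' = ei s t U + p k + (b 0 b 1 + b 1 z + z b 0)` and `ei (trS s r) (trT t r) U = ei s t U + (u 0 u 1 + u 1 u 2 + u 2 u 0)`, `U'.card = U.card + k`
(`Finset.card_toLeft_add_card_toRight`).  `h.cases U`; case distinction over `u i`, `b j` (32 cases; `u i = 1` implies `U ≠ ∅`, `u i = u j = 1` implies `2 ≤ U.card`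
as `r` is injective, `u i = 0` implies `U ≠ univ`; if `k = 2` then `U ≠ univ`, as `U' ≠ univ`); every case is `omega`:
with `f = 2 |U| - ei (trS..) U` the new value is `f + 2 k - p k - c (k + z) + c (p + z)`, `c j = j (j - 1) / 2`, i.e.
`k = 0`: `f + c (p + z)`; `k = 1`: `f + 2 - j + c j`, `j = p + z`, `≥ f + 1`; `k = 2`, `z = 0`: `f + 3, f + 1, f` for `p = 0, 1, 2`; `k = 2`, `z = 1`: `f + 1, f, f`. -/
theorem prim_a {s t : E → V} {r : Fin 3 → V} (h : PrG (trS s r) (trT t r)) :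
    PrG (trS (exS .a s r) (exR .a r)) (trT (exT .a t) (exR .a r)) := by
  have hS : trS (exS .a s r) (exR .a r) = Sum.elim (Sum.elim (fun e => Sum.inl (s e))
          (![Sum.inl (r 0), Sum.inl (r 0), Sum.inl (r 1), Sum.inl (r 1)] : Fin 4 → V ⊕ Fin 2))
          (![Sum.inr 1, Sum.inl (r 2), Sum.inr 0] : Fin 3 → V ⊕ Fin 2) := by
    funext e
    rcases e with (e | (i : Fin 4)) | i
    · rfl
    · fin_cases i <;> rfl
    · fin_cases i <;> rfl
  have hT : trT (exT .a t) (exR .a r) = Sum.elim (Sum.elim (fun e => Sum.inl (t e))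
          (![Sum.inr 0, Sum.inr 1, Sum.inr 0, Sum.inr 1] : Fin 4 → V ⊕ Fin 2))
          (![Sum.inl (r 2), Sum.inr 0, Sum.inr 1] : Fin 3 → V ⊕ Fin 2) := by
    funext e
    rcases e with (e | (i : Fin 4)) | i
    · rfl
    · fin_cases i <;> rfl
    · fin_cases i <;> rfl
  rw [hS, hT]
  exact g_pa_core h

/-- The graph of `prim_h`. -/
private def phS (s : E → V) (r : Fin 3 → V) : (E ⊕ Fin 6) ⊕ Fin 3 → V ⊕ Fin 3 :=
  Sum.elim (Sum.elim (fun e => Sum.inl (s e)) fun i => Sum.inl (r ((![0, 0, 1, 1, 2, 2] : Fin 6 → Fin 3) i)))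
    fun i => Sum.inr (i + 1)

private def phT (t : E → V) : (E ⊕ Fin 6) ⊕ Fin 3 → V ⊕ Fin 3 :=
  Sum.elim (Sum.elim (fun e => Sum.inl (t e)) fun i => Sum.inr ((![1, 2, 0, 2, 0, 1] : Fin 6 → Fin 3) i))
    fun i => Sum.inr (i + 2)

private theorem ph_core {s t : E → V} {r : Fin 3 → V} (h : PrG (trS s r) (trT t r)) : PrG (phS s r) (phT t) := by
  have hr := h.inj
  have hdg : ∀ v', deg (phS s r) (phT t) v' =
      deg (fun e => (Sum.inl (s e) : V ⊕ Fin 3)) (fun e => Sum.inl (t e)) v' +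
        deg (fun i : Fin 6 => (Sum.inl (r ((![0, 0, 1, 1, 2, 2] : Fin 6 → Fin 3) i)) : V ⊕ Fin 3))
          (fun i => Sum.inr ((![1, 2, 0, 2, 0, 1] : Fin 6 → Fin 3) i)) v' +
        deg (fun i : Fin 3 => (Sum.inr (i + 1) : V ⊕ Fin 3)) (fun i => Sum.inr (i + 2)) v' := by
    intro v'
    unfold phS phT
    rw [deg_elim, deg_elim]
  have hei : ∀ U', ei (phS s r) (phT t) U' =
      ei s t U'.toLeft +
        ei (fun i : Fin 6 => (Sum.inl (r ((![0, 0, 1, 1, 2, 2] : Fin 6 → Fin 3) i)) : V ⊕ Fin 3))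
          (fun i => Sum.inr ((![1, 2, 0, 2, 0, 1] : Fin 6 → Fin 3) i)) U' +
        ei (fun i : Fin 3 => (Sum.inr (i + 1) : V ⊕ Fin 3)) (fun i => Sum.inr (i + 2)) U' := by
    intro U'
    unfold phS phT
    rw [ei_elim, ei_elim, ei_inl]
  have hd0 : ∀ v, deg (trS s r) (trT t r) v = deg s t v + deg (fun i : Fin 3 => r (i + 1)) (fun i => r (i + 2)) v := by
    intro v
    unfold trS trT
    rw [deg_elim]
  have he0 : ∀ U, ei (trS s r) (trT t r) U = ei s t U + ei (fun i : Fin 3 => r (i + 1)) (fun i => r (i + 2)) U := by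
    intro U
    unfold trS trT
    rw [ei_elim]
  refine ⟨?_, ?_, ?_, ?_, ?_⟩
  · intro e
    rcases e with (e | e) | i
    · exact fun hh => h.ll (Sum.inl e) (Sum.inl_injective hh)
    · exact Sum.inl_ne_inr
    · show (Sum.inr (i + 1) : V ⊕ Fin 3) ≠ Sum.inr (i + 2)
      intro hh
      have hh' := Sum.inr_injective hh
      clear hh
      revert i
      decide
  · intro v'
    rw [hdg]
    rcases v' with v | j
    · rw [deg_inl, deg_sum (fun i : Fin 6 => (Sum.inl (r ((![0, 0, 1, 1, 2, 2] : Fin 6 → Fin 3) i)) : V ⊕ Fin 3)),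
        deg_sum (fun i : Fin 3 => (Sum.inr (i + 1) : V ⊕ Fin 3)), Fin.sum_univ_six, Fin.sum_univ_three]
      have h1 := h.dg v
      rw [hd0, deg_sum (fun i : Fin 3 => r (i + 1)), Fin.sum_univ_three] at h1
      simp at h1 ⊢
      omega
    · rw [deg_inr, deg_sum (fun i : Fin 6 => (Sum.inl (r ((![0, 0, 1, 1, 2, 2] : Fin 6 → Fin 3) i)) : V ⊕ Fin 3)),
        deg_sum (fun i : Fin 3 => (Sum.inr (i + 1) : V ⊕ Fin 3)), Fin.sum_univ_six, Fin.sum_univ_three]
      fin_cases j <;> simp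
  · have h1 := h.nv
    rw [Fintype.card_sum]
    omega
  · have h1 := h.cd
    rw [Fintype.card_sum, Fintype.card_fin] at h1
    rw [Fintype.card_sum, Fintype.card_sum, Fintype.card_sum, Fintype.card_fin, Fintype.card_fin]
    omega
  · intro U' h2 hne
    rw [hei]
    have hc : U'.card = U'.toLeft.card + U'.toRight.card := (Finset.card_toLeft_add_card_toRight).symm
    have hb : (U'.toRight : Finset (Fin 3)).card = ∑ j : Fin 3, if (Sum.inr j : V ⊕ Fin 3) ∈ U' then 1 else 0 := by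
      rw [Finset.sum_boole]
      simp only [Nat.cast_id]
      congr 1
      ext j
      simp
    have hcs := h.cases U'.toLeft
    have hu0 : r 0 ∉ U'.toLeft → U'.toLeft ≠ Finset.univ := fun hh hu => hh (hu ▸ Finset.mem_univ _)
    have hu1 : r 1 ∉ U'.toLeft → U'.toLeft ≠ Finset.univ := fun hh hu => hh (hu ▸ Finset.mem_univ _)
    have hu2 : r 2 ∉ U'.toLeft → U'.toLeft ≠ Finset.univ := fun hh hu => hh (hu ▸ Finset.mem_univ _)
    have hbu : (Sum.inr 0 : V ⊕ Fin 3) ∈ U' → (Sum.inr 1 : V ⊕ Fin 3) ∈ U' → (Sum.inr 2 : V ⊕ Fin 3) ∈ U' →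
        U'.toLeft ≠ Finset.univ := by
      intro g0 g1 g2 hu
      apply hne
      ext x
      rcases x with x | j
      · have : x ∈ U'.toLeft := hu ▸ Finset.mem_univ _
        simpa using this
      · fin_cases j
        · simpa using g0
        · simpa using g1
        · simpa using g2
    have hcu : (∑ i : Fin 3, if r i ∈ U'.toLeft then 1 else 0) ≤ U'.toLeft.card := by
      rw [Finset.sum_boole]
      simp only [Nat.cast_id]
      rw [← Finset.card_image_of_injective _ hr]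
      apply Finset.card_le_card
      intro x hx
      simp only [Finset.mem_image, Finset.mem_filter, Finset.mem_univ, true_and] at hx
      obtain ⟨i, hi, rfl⟩ := hx
      exact hi
    rw [he0] at hcs
    have hmem : ∀ v, (Sum.inl v : V ⊕ Fin 3) ∈ U' ↔ v ∈ U'.toLeft := by
      intro v
      simp
    rw [ei_sum (fun i : Fin 6 => (Sum.inl (r ((![0, 0, 1, 1, 2, 2] : Fin 6 → Fin 3) i)) : V ⊕ Fin 3)),
      ei_sum (fun i : Fin 3 => (Sum.inr (i + 1) : V ⊕ Fin 3)), Fin.sum_univ_six, Fin.sum_univ_three]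
    rw [ei_sum (fun i : Fin 3 => r (i + 1)), Fin.sum_univ_three] at hcs
    rw [Fin.sum_univ_three] at hb hcu
    simp only [hmem]
    generalize U'.toLeft = U at *
    generalize ei s t U = eU at *
    have e1 : (0 + 1 : Fin 3) = 1 := rfl
    have e2 : (0 + 2 : Fin 3) = 2 := rfl
    have e3 : (1 + 1 : Fin 3) = 2 := rfl
    have e4 : (1 + 2 : Fin 3) = 0 := rfl
    have e5 : (2 + 1 : Fin 3) = 0 := rfl
    have e6 : (2 + 2 : Fin 3) = 1 := rfl
    simp only [e1, e2, e3, e4, e5, e6] at hcs ⊢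
    by_cases k0 : (Sum.inr 0 : V ⊕ Fin 3) ∈ U' <;> by_cases k1 : (Sum.inr 1 : V ⊕ Fin 3) ∈ U' <;>
      by_cases k2 : (Sum.inr 2 : V ⊕ Fin 3) ∈ U' <;> by_cases g0 : r 0 ∈ U <;> by_cases g1 : r 1 ∈ U <;>
      by_cases g2 : r 2 ∈ U <;>
      simp [k0, k1, k2, g0, g1, g2] at hb hcu hu0 hu1 hu2 hbu hcs ⊢ <;>
      (try rcases hcs with ⟨hU, hE⟩ | ⟨hU, hE⟩ | ⟨hU, hE⟩ | ⟨hU, hU', hE⟩) <;>
      (try rw [← Finset.card_eq_zero] at hU) <;>
      first
        | omega
        | (have := Finset.card_pos.mpr hcu; omega)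
        | (exfalso; exact absurd hU (by assumption))
        | (rcases hcs with ⟨hU, hE⟩ | ⟨hU, hU', hE⟩ <;> first | omega | exact absurd hU (by assumption))

/-- MODULE g_ph.

Proof.  As `g_pa`.  Every old terminal loses two edges and gets two, `inr j` has degree `2 + 2`; six edges and three vertices more.  `pm`: with `u i = [r i ∈ U]`,
`b j = [inr j ∈ U']`: `ei' U' = ei s t U + (∑_{i ≠ j} u i b j) + (b 0 b 1 + b 1 b 2 + b 2 b 0)`; 64 cases.  With `p = ∑ u`, `k = ∑ b`, `m = ∑ u i b i` the new value is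
`f + 2 k - (p k - m) - c k + c p`: `k = 0`: `f + c p`; `k = 1`: `f + 2 - p + m + c p ≥ f + 1`; `k = 2`: `f + 3`, `f + 1 + m`, `f + m`, `f + 2` for
`p = 0, 1, 2, 3` (`p = 2`: `2 ≤ |U|` and `U ≠ univ`); `k = 3`: `f + 3`, `f + 1`, `f`, `f` (`U ≠ univ`). -/
theorem prim_h {s t : E → V} {r : Fin 3 → V} (h : PrG (trS s r) (trT t r)) :
    PrG (trS (exS .h s r) (exR .h r)) (trT (exT .h t) (exR .h r)) := by
  have hS : (trS (exS .h s r) (exR .h r) : (E ⊕ Fin 6) ⊕ Fin 3 → V ⊕ Fin 3) = phS s r := by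
    funext x
    rcases x with (e | i) | i
    · rfl
    · rfl
    · fin_cases i <;> rfl
  have hT : (trT (exT .h t) (exR .h r) : (E ⊕ Fin 6) ⊕ Fin 3 → V ⊕ Fin 3) = phT t := by
    funext x
    rcases x with (e | i) | i
    · rfl
    · rfl
    · fin_cases i <;> rfl
  have h1 := ph_core h
  rw [← hS, ← hT] at h1
  exact h1

private theorem pb_key {S S' T T' : (E ⊕ Fin 4) ⊕ Fin 3 → V ⊕ Fin 2} (hS : S' = S) (hT : T' = T) (h : PrG S T) :
    PrG S' T' := by
  subst hS hT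
  exact h

private theorem pb_rot {s t : E → V} {r : Fin 3 → V} (c : Fin 3) (h : PrG (trS s r) (trT t r)) :
    PrG (trS s fun i => r (i + c)) (trT t fun i => r (i + c)) := by
  refine PrG.iso (Equiv.refl V) (Equiv.sumCongr (Equiv.refl E) (Equiv.subRight c)) (fun e => Or.inl ?_) h
  have h1 : ∀ i c : Fin 3, i - c + 1 + c = i + 1 := by decide
  have h2 : ∀ i c : Fin 3, i - c + 2 + c = i + 2 := by decide
  rcases e with e | i
  · exact ⟨rfl, rfl⟩
  · exact ⟨congrArg r (h1 i c), congrArg r (h2 i c)⟩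

/-- MODULE g_pb (1).

Proof.  With `r' i = r (i + 1)`: `PrG (trS s r') (trT t r')` by `PrG.iso` (rotation of the three new edges), `prim_a`, and `exS .b s r = exS .a s r'`,
`exR .b r = fun i => exR .a r' (i + 2)` (`fin_cases`), again `PrG.iso`. -/
theorem prim_b {s t : E → V} {r : Fin 3 → V} (h : PrG (trS s r) (trT t r)) :
    PrG (trS (exS .b s r) (exR .b r)) (trT (exT .b t) (exR .b r)) := by
  have h2 := pb_rot 2 (prim_a (pb_rot 1 h))
  have hS : (trS (exS .b s r) (exR .b r) : (E ⊕ Fin 4) ⊕ Fin 3 → V ⊕ Fin 2) =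
      trS (exS .a s fun i => r (i + 1)) (fun i => exR .a (fun i => r (i + 1)) (i + 2)) := by
    funext x
    rcases x with (e | i) | i
    · rfl
    · fin_cases i <;> rfl
    · fin_cases i <;> rfl
  have hT : (trT (exT .b t) (exR .b r) : (E ⊕ Fin 4) ⊕ Fin 3 → V ⊕ Fin 2) =
      trT (exT .a t) (fun i => exR .a (fun i => r (i + 1)) (i + 2)) := by
    funext x
    rcases x with (e | i) | i
    · rfl
    · fin_cases i <;> rfl
    · fin_cases i <;> rfl
  exact pb_key hS hT h2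

/-- MODULE g_pb (2).  `r' i = r (i + 2)`, `exR .c r = fun i => exR .a r' (i + 1)`. -/
theorem prim_c {s t : E → V} {r : Fin 3 → V} (h : PrG (trS s r) (trT t r)) :
    PrG (trS (exS .c s r) (exR .c r)) (trT (exT .c t) (exR .c r)) := by
  have h2 := pb_rot 1 (prim_a (pb_rot 2 h))
  have hS : (trS (exS .c s r) (exR .c r) : (E ⊕ Fin 4) ⊕ Fin 3 → V ⊕ Fin 2) =
      trS (exS .a s fun i => r (i + 2)) (fun i => exR .a (fun i => r (i + 2)) (i + 1)) := by
    funext x
    rcases x with (e | i) | i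
    · rfl
    · fin_cases i <;> rfl
    · fin_cases i <;> rfl
  have hT : (trT (exT .c t) (exR .c r) : (E ⊕ Fin 4) ⊕ Fin 3 → V ⊕ Fin 2) =
      trT (exT .a t) (fun i => exR .a (fun i => r (i + 2)) (i + 1)) := by
    funext x
    rcases x with (e | i) | i
    · rfl
    · fin_cases i <;> rfl
    · fin_cases i <;> rfl
  exact pb_key hS hT h2

theorem prim_ex (x : Lt) {s t : E → V} {r : Fin 3 → V} (h : PrG (trS s r) (trT t r)) :
    PrG (trS (exS x s r) (exR x r)) (trT (exT x t) (exR x r)) := by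
  cases x with
  | a => exact prim_a h
  | b => exact prim_b h
  | c => exact prim_c h
  | h => exact prim_h h

end

end Pool.Agent.Pf4
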