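import Pool.Agent.Pf4.GSub
import Pool.Agent.Pf4.GPrim

/-!
# The line graph of a cubic graph, opened at a vertex
-/

set_option autoImplicit false

open scoped BigOperators Classical

namespace Pool.Agent.Pf4

open Pool.Agent.KG

section

variable {V E : Type} [Fintype V] [Fintype E]

/-- The edges at `v0` joined with the vertex `none`: sources. -/
def bS (hf : V × Fin 3 ≃ E × Bool) (v0 : V) : Fin 3 → Option E := fun i => some (hf (v0, i)).1

/-- Targets. -/
def bT : Fin 3 → Option E := fun _ => none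

/-- The slots at the other vertices. -/
def bτ (hf : V × Fin 3 ≃ E × Bool) (v0 : V) : {v : V // v ≠ v0} → Fin 3 → Option E := fun w i => some (hf (w.1, i)).1

/-- The number of half edges at `v` whose edge is in `U`. -/
noncomputable def bk (hf : V × Fin 3 ≃ E × Bool) (U : Finset (Option E)) (v : V) : ℕ :=
  ∑ i : Fin 3, if some (hf (v, i)).1 ∈ U then 1 else 0

/-- MODULE g_b1 (1). -/
theorem bk_le (hf : V × Fin 3 ≃ E × Bool) (U : Finset (Option E)) (v : V) : bk hf U v ≤ 3 := by
  have h : bk hf U v ≤ ∑ _i : Fin 3, 1 := by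
    refine Finset.sum_le_sum fun i _ => ?_
    split_ifs <;> omega
  calc bk hf U v ≤ ∑ _i : Fin 3, 1 := h
    _ = 3 := by simp

/-- MODULE g_b1 (2).

Proof.  `∑ v, bk = ∑ (v, i)` (`Fintype.sum_prod_type`), `Equiv.sum_comp hf`: `= ∑ (e, b), [some e ∈ U] = 2 ∑ e, [some e ∈ U]`, and `U.card = ∑ o : Option E, [o ∈ U]`
(`Fintype.sum_option`). -/
theorem bk_sum (hf : V × Fin 3 ≃ E × Bool) (U : Finset (Option E)) :
    ∑ v, bk hf U v + 2 * (if none ∈ U then 1 else 0) = 2 * U.card := by
  have h1 : ∑ v, bk hf U v = ∑ x : E × Bool, (if some x.1 ∈ U then 1 else 0) := by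
    unfold bk
    rw [← Fintype.sum_prod_type' (fun (v : V) (i : Fin 3) => if some (hf (v, i)).1 ∈ U then 1 else 0)]
    exact Equiv.sum_comp hf (fun x : E × Bool => if some x.1 ∈ U then 1 else 0)
  have h2 : ∑ x : E × Bool, (if some x.1 ∈ U then 1 else 0) = 2 * ∑ e : E, (if some e ∈ U then 1 else 0) := by
    rw [Fintype.sum_prod_type, Finset.mul_sum]
    refine Finset.sum_congr rfl fun e _ => ?_
    rw [Fintype.sum_bool]
    ring
  have h3 : U.card = ∑ o : Option E, (if o ∈ U then 1 else 0) := by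
    simp
  rw [h1, h2, h3, Fintype.sum_option]
  ring

/-- MODULE g_b1 (3).  `ei_sum`, `Fintype.sum_sum_type`, `Fintype.sum_prod_type`; for three indicators `u0 u1 + u1 u2 + u2 u0 = k (k - 1) / 2`. -/
theorem bk_ei (hf : V × Fin 3 ≃ E × Bool) (v0 : V) (U : Finset (Option E)) :
    ei (tfS (bS hf v0) (bτ hf v0)) (tfT bT (bτ hf v0)) U =
      (if none ∈ U then 1 else 0) * bk hf U v0 + ∑ w : {v : V // v ≠ v0}, bk hf U w.1 * (bk hf U w.1 - 1) / 2 := by
  rw [ei_sum, Fintype.sum_sum_type, Fintype.sum_prod_type]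
  refine congrArg₂ (fun x y : ℕ => x + y) ?_ (Finset.sum_congr rfl fun w _ => ?_)
  · unfold bk
    rw [Finset.mul_sum]
    refine Finset.sum_congr rfl fun i _ => ?_
    simp only [tfS, tfT, bS, bT, Sum.elim_inl]
    by_cases h1 : some (hf (v0, i)).1 ∈ U <;> by_cases h2 : (none : Option E) ∈ U <;> simp [h1, h2]
  · unfold bk
    simp only [tfS, tfT, bτ, Sum.elim_inr, Fin.sum_univ_three]
    have e1 : (0 : Fin 3) + 1 = 1 := rfl
    have e2 : (0 : Fin 3) + 2 = 2 := rfl
    have e3 : (1 : Fin 3) + 1 = 2 := rfl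
    have e4 : (1 : Fin 3) + 2 = 0 := rfl
    have e5 : (2 : Fin 3) + 1 = 0 := rfl
    have e6 : (2 : Fin 3) + 2 = 1 := rfl
    simp only [e1, e2, e3, e4, e5, e6]
    by_cases h0 : some (hf (w.1, 0)).1 ∈ U <;> by_cases h1 : some (hf (w.1, 1)).1 ∈ U <;>
      by_cases h2 : some (hf (w.1, 2)).1 ∈ U <;> simp [h0, h1, h2]

/-- MODULE g_b2.

Proof.  Let `S = {v | 2 ≤ bk v}`, `u e = [some e ∈ U]`.  For every `v` (as `bk v ≤ 3`): `[bk v = 1 ∨ bk v = 2] = if v ∈ S then 3 - bk v else bk v =
∑ i, (if v ∈ S then 1 - u e else u e)`, `e = (hf (v, i)).1`.  So the right side is `∑ (v, i) = ∑ (e, b), if hd s t (e, b) ∈ S then 1 - u e else u e` (`Fintype.sum_prod_type`,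
`Equiv.sum_comp hf`, `hhf`), and for an edge `e` with exactly one end in `S` the two terms give `1`; so the sum is at least `cs s t S` (termwise). -/
theorem bk_cut {s t : E → V} (hf : V × Fin 3 ≃ E × Bool) (hhf : ∀ p, hd s t (hf p) = p.1) (U : Finset (Option E)) :
    Prm3.cs s t {v | 2 ≤ bk hf U v} ≤ ∑ v, if bk hf U v = 1 ∨ bk hf U v = 2 then 1 else 0 := by
  have key : ∀ v, (if bk hf U v = 1 ∨ bk hf U v = 2 then 1 else 0) = ∑ i : Fin 3, (if 2 ≤ bk hf U v then
      (if some (hf (v, i)).1 ∈ U then 0 else 1) else (if some (hf (v, i)).1 ∈ U then 1 else 0)) := by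
    intro v
    by_cases h : 2 ≤ bk hf U v
    · simp only [if_pos h]
      revert h
      unfold bk
      simp only [Fin.sum_univ_three]
      by_cases h0 : some (hf (v, 0)).1 ∈ U <;> by_cases h1 : some (hf (v, 1)).1 ∈ U <;>
        by_cases h2 : some (hf (v, 2)).1 ∈ U <;> simp [h0, h1, h2]
    · simp only [if_neg h]
      revert h
      unfold bk
      simp only [Fin.sum_univ_three]
      by_cases h0 : some (hf (v, 0)).1 ∈ U <;> by_cases h1 : some (hf (v, 1)).1 ∈ U <;>
        by_cases h2 : some (hf (v, 2)).1 ∈ U <;> simp [h0, h1, h2]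
  let f : V → E → ℕ := fun v e => if 2 ≤ bk hf U v then (if some e ∈ U then 0 else 1) else
    (if some e ∈ U then 1 else 0)
  have h1 : ∑ v, (if bk hf U v = 1 ∨ bk hf U v = 2 then 1 else 0) = ∑ x : E × Bool, f (hd s t x) x.1 := by
    calc ∑ v, (if bk hf U v = 1 ∨ bk hf U v = 2 then 1 else 0) = ∑ v, ∑ i : Fin 3, f v (hf (v, i)).1 :=
          Finset.sum_congr rfl fun v _ => key v
      _ = ∑ p : V × Fin 3, f p.1 (hf p).1 := (Fintype.sum_prod_type' (fun (v : V) (i : Fin 3) => f v (hf (v, i)).1)).symm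
      _ = ∑ p : V × Fin 3, f (hd s t (hf p)) (hf p).1 := Finset.sum_congr rfl fun p _ => by rw [hhf p]
      _ = ∑ x : E × Bool, f (hd s t x) x.1 := Equiv.sum_comp hf (fun x : E × Bool => f (hd s t x) x.1)
  rw [h1, Fintype.sum_prod_type]
  unfold Prm3.cs
  refine Finset.sum_le_sum fun e _ => ?_
  rw [Fintype.sum_bool]
  simp only [f, hd, Set.mem_ofPred_eq, if_true, Bool.false_eq_true, if_false]
  by_cases h0 : 2 ≤ bk hf U (s e) <;> by_cases h1 : 2 ≤ bk hf U (t e) <;> by_cases h2 : some e ∈ U <;>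
    simp [h0, h1, h2]

/-- MODULE g_b3.

Proof.  `z = [none ∈ U]`, `M = ∑ v, [bk v = 1 ∨ bk v = 2]`, `M' = ` the same sum over `v ≠ v0`, `k0 = bk v0`.  `∑ v = (v0) + ∑ (v ≠ v0)`, and `k - k (k - 1) / 2 = [k = 1 ∨ k = 2]` for
`k ≤ 3`; so `2 |U| - ei U = M' + k0 + 2 z - z k0` (`bk_sum`, `bk_ei`).  Suppose this is `≤ 2`.  Then `M ≤ 2` (`z = 0`: `[k0 = 1 ∨ k0 = 2] ≤ k0`; `z = 1`: `M' = 0`, `M ≤ 1`).  By
`bk_cut` and `hc` the set `S = {v | 2 ≤ bk v}` is empty or everything.
`S` empty: all `bk v ≤ 1`, `∑ bk v = M`, `2 |U| = M + 2 z`: `z = 0`: `|U| ≤ 1`; `z = 1`: `2 |U| ≤ 3`; contradiction to `h2`.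
`S` everything: `3 - bk v = [bk v = 1 ∨ bk v = 2]`, `M = 3 card V - ∑ bk v`, `3 card V = 2 card E` (`Fintype.card_congr hf`), `M = 2 card E - 2 |U| + 2 z` is even.  `z = 0`:
`k0 ≥ 2`, so `M' = 0`, `k0 = 2`, `M = 1`, not even.  `z = 1`: `M ≤ 1`, so `M = 0`, `|U| = card E + 1 = card (Option E)`, `U = univ`, contradiction. -/
theorem base_pm {s t : E → V} (hf : V × Fin 3 ≃ E × Bool) (hhf : ∀ p, hd s t (hf p) = p.1) (hc : Prm3.Con s t 3) (v0 : V)
    (U : Finset (Option E)) (h2 : 2 ≤ U.card) (hU : U ≠ Finset.univ) :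
    ei (tfS (bS hf v0) (bτ hf v0)) (tfT bT (bτ hf v0)) U + 3 ≤ 2 * U.card := by
  have F1 := bk_sum hf U
  have F2 := bk_ei hf v0 U
  have F3 := Fintype.sum_eq_add_sum_subtype_ne (fun v => bk hf U v) v0
  have F5 := Fintype.sum_eq_add_sum_subtype_ne (fun v => if bk hf U v = 1 ∨ bk hf U v = 2 then 1 else 0) v0
  have hcut := bk_cut hf hhf U
  have hle := bk_le hf U
  have F4 : ∑ w : {v : V // v ≠ v0}, bk hf U w.1 = ∑ w : {v : V // v ≠ v0}, bk hf U w.1 * (bk hf U w.1 - 1) / 2 +
      ∑ w : {v : V // v ≠ v0}, (if bk hf U w.1 = 1 ∨ bk hf U w.1 = 2 then 1 else 0) := by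
    rw [← Finset.sum_add_distrib]
    refine Finset.sum_congr rfl fun w _ => ?_
    have h := hle w.1
    generalize bk hf U w.1 = k at h
    interval_cases k <;> simp
  have hz : (if none ∈ U then 1 else 0) ≤ 1 := by split_ifs <;> omega
  have hk0 : (if bk hf U v0 = 1 ∨ bk hf U v0 = 2 then 1 else 0) ≤ bk hf U v0 := by
    split_ifs with h <;> omega
  have hk1 : (if bk hf U v0 = 1 ∨ bk hf U v0 = 2 then 1 else 0) ≤ 1 := by split_ifs <;> omega
  have hcard : Fintype.card V * 3 = Fintype.card E * 2 := by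
    have h := Fintype.card_congr hf
    simpa using h
  set z := (if none ∈ U then 1 else 0) with hzdef
  set k0 := bk hf U v0 with hk0def
  set M := ∑ v, (if bk hf U v = 1 ∨ bk hf U v = 2 then 1 else 0) with hM
  set M' := ∑ w : {v : V // v ≠ v0}, (if bk hf U w.1 = 1 ∨ bk hf U w.1 = 2 then 1 else 0) with hM'
  set C := ∑ w : {v : V // v ≠ v0}, bk hf U w.1 * (bk hf U w.1 - 1) / 2 with hC
  set B' := ∑ w : {v : V // v ≠ v0}, bk hf U w.1 with hB'
  set i0 := (if k0 = 1 ∨ k0 = 2 then 1 else 0) with hi0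
  set B := ∑ v, bk hf U v with hB
  by_contra hcon
  rw [F2] at hcon
  have hM2 : M ≤ 2 ∧ (z = 0 → k0 + M' ≤ 2) ∧ (z = 1 → M' = 0) := by
    have hz2 : z = 0 ∨ z = 1 := by omega
    rcases hz2 with hz2 | hz2
    · rw [hz2] at hcon F1
      refine ⟨by omega, fun _ => by omega, fun h => by omega⟩
    · rw [hz2] at hcon F1
      refine ⟨by omega, fun h => by omega, fun _ => by omega⟩
  obtain ⟨hMle, hza, hzb⟩ := hM2
  by_cases hS1 : ({v | 2 ≤ bk hf U v} : Set V).Nonempty
  · by_cases hS2 : ({v | 2 ≤ bk hf U v} : Set V) = Set.univ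
    · have hall : ∀ v, 2 ≤ bk hf U v := fun v => by
        have : v ∈ ({v | 2 ≤ bk hf U v} : Set V) := by rw [hS2]; trivial
        exact this
      have h3 : B + M = Fintype.card V * 3 := by
        rw [hB, hM, ← Finset.sum_add_distrib]
        have : ∀ v ∈ (Finset.univ : Finset V), bk hf U v + (if bk hf U v = 1 ∨ bk hf U v = 2 then 1 else 0) = 3 := by
          intro v _
          have h1 := hall v
          have h2 := hle v
          generalize bk hf U v = k at h1 h2
          interval_cases k <;> simp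
        rw [Finset.sum_congr rfl this]
        simp
      have hk2 : 2 ≤ k0 := hall v0
      have hz2 : z = 0 ∨ z = 1 := by omega
      rcases hz2 with hz2 | hz2
      · have h4 := hza hz2
        have h5 : k0 = 2 := by omega
        have h6 : i0 = 1 := by rw [hi0]; simp [h5]
        rw [hz2] at F1
        omega
      · have h4 := hzb hz2
        rw [hz2] at F1
        have h5 : U.card = Fintype.card (Option E) := by
          rw [Fintype.card_option]
          omega
        exact hU (Finset.card_eq_iff_eq_univ U |>.1 h5)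
    · have h3 := hc _ hS1 hS2
      omega
  · have hall : ∀ v, bk hf U v ≤ 1 := fun v => by
      by_contra h
      exact hS1 ⟨v, by
        have : 2 ≤ bk hf U v := by omega
        exact this⟩
    have h3 : B = M := by
      rw [hB, hM]
      refine Finset.sum_congr rfl fun v _ => ?_
      have h1 := hall v
      generalize bk hf U v = k at h1
      interval_cases k <;> simp
    have hz2 : z = 0 ∨ z = 1 := by omega
    rcases hz2 with hz2 | hz2
    · rw [hz2] at F1
      omega
    · have h4 := hzb hz2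
      rw [hz2] at F1
      omega

private theorem b4_sub (v0 : V) (G : V → ℕ) : ∑ v, G v = G v0 + ∑ w : {v : V // v ≠ v0}, G w.1 :=
  Fintype.sum_eq_add_sum_subtype_ne G v0

theorem base_prim {s t : E → V} (hl : LL s t) (hf : V × Fin 3 ≃ E × Bool) (hhf : ∀ p, hd s t (hf p) = p.1)
    (hc : Prm3.Con s t 3) (v0 : V) : PrG (tfS (bS hf v0) (bτ hf v0)) (tfT bT (bτ hf v0)) := by
  refine ⟨?_, ?_, ?_, ?_, fun U h2 hU => base_pm hf hhf hc v0 U h2 hU⟩
  · rintro (i | ⟨w, i⟩)
    · exact Option.some_ne_none _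
    · intro h
      have h1 : (hf (w.1, i + 1)).1 = (hf (w.1, i + 2)).1 := Option.some.inj h
      have h2 := hhf (w.1, i + 1)
      have h3 := hhf (w.1, i + 2)
      have h4 : hf (w.1, i + 1) ≠ hf (w.1, i + 2) := by
        intro h5
        have h6 : i + 1 = i + 2 := congrArg Prod.snd (hf.injective h5)
        have h7 : ∀ j : Fin 3, j + 1 ≠ j + 2 := by decide
        exact h7 i h6
      have h5 := hl (hf (w.1, i + 1)).1
      generalize hf (w.1, i + 1) = p at h1 h2 h4 h5
      generalize hf (w.1, i + 2) = q at h1 h3 h4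
      obtain ⟨e, b⟩ := p
      obtain ⟨e', b'⟩ := q
      have h1' : e = e' := h1
      subst h1'
      cases b <;> cases b'
      · exact h4 rfl
      · exact h5 (h2.trans h3.symm)
      · exact h5 (h3.trans h2.symm)
      · exact h4 rfl
  · intro o
    rcases o with _ | e
    · have key : deg (tfS (bS hf v0) (bτ hf v0)) (tfT bT (bτ hf v0)) none = 3 := by
        rw [deg_sum, Fintype.sum_sum_type]
        simp [tfS, tfT, bS, bT, bτ]
      omega
    · let G : V → ℕ := fun v => ∑ i : Fin 3, if (hf (v, i)).1 = e then 1 else 0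
      have key : deg (tfS (bS hf v0) (bτ hf v0)) (tfT bT (bτ hf v0)) (some e) =
          G v0 + ∑ w : {v : V // v ≠ v0}, 2 * G w.1 := by
        rw [deg_sum, Fintype.sum_sum_type, Fintype.sum_prod_type]
        congr 1
        · refine Finset.sum_congr rfl fun i _ => ?_
          simp [tfS, tfT, bS, bT]
        · refine Finset.sum_congr rfl fun w _ => ?_
          have e1 : (0 : Fin 3) + 1 = 1 := rfl
          have e2 : (1 : Fin 3) + 1 = 2 := rfl
          have e3 : (2 : Fin 3) + 1 = 0 := rfl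
          have e4 : (0 : Fin 3) + 2 = 2 := rfl
          have e5 : (1 : Fin 3) + 2 = 0 := rfl
          have e6 : (2 : Fin 3) + 2 = 1 := rfl
          simp only [tfS, tfT, bτ, Sum.elim_inr, Option.some.injEq, Fin.sum_univ_three, G, e1, e2, e3, e4, e5, e6]
          ring
      rw [key, ← Finset.mul_sum]
      have h4 : ∑ v, G v = 2 := by
        have h5 : ∑ v, G v = ∑ p : V × Fin 3, if (hf p).1 = e then 1 else 0 := by
          rw [Fintype.sum_prod_type]
        rw [h5, Equiv.sum_comp hf fun x => if x.1 = e then 1 else 0, Fintype.sum_prod_type]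
        have h7 : ∀ x : E, ∑ _b : Bool, (if x = e then 1 else 0) = if x = e then 2 else 0 := fun x => by
          split_ifs <;> simp
        rw [Finset.sum_congr rfl fun x _ => h7 x]
        simp
      have h6 := b4_sub v0 G
      omega
  · have h1 : 0 < Fintype.card E := Fintype.card_pos_iff.2 ⟨(hf (v0, 0)).1⟩
    rw [Fintype.card_option]
    omega
  · have h1 := Fintype.card_congr hf
    have h2 := b4_sub v0 fun _ => 1
    simp only [Finset.sum_const, Finset.card_univ, smul_eq_mul, mul_one] at h2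
    rw [Fintype.card_sum, Fintype.card_prod, Fintype.card_option]
    rw [Fintype.card_prod, Fintype.card_prod, Fintype.card_fin, Fintype.card_bool] at h1
    rw [Fintype.card_fin]
    omega
theorem base_ns {s t : E → V} (hf : V × Fin 3 ≃ E × Bool) (hhf : ∀ p, hd s t (hf p) = p.1) (v0 : V) (K : Type)
    [Field K] [Fintype K] : NS (flS (bS hf v0) (bτ hf v0)) (flT bT) K =
      NS (fun x : E × Bool => (Sum.inl x.1 : E ⊕ V)) (fun x => Sum.inr (hd s t x)) K := by
  let f : Option E ⊕ {v : V // v ≠ v0} ≃ E ⊕ V :=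
    { toFun := Sum.elim (fun o => o.elim (Sum.inr v0) Sum.inl) fun w => Sum.inr w.1
      invFun := Sum.elim (fun e => Sum.inl (some e)) fun v => if h : v = v0 then Sum.inl none else Sum.inr ⟨v, h⟩
      left_inv := by
        rintro ((_ | e) | w)
        · simp
        · simp
        · simp [w.2]
      right_inv := by
        rintro (e | v)
        · simp
        · by_cases h : v = v0
          · simp [h]
          · simp [h] }
  let g0 : Fin 3 ⊕ {v : V // v ≠ v0} × Fin 3 ≃ V × Fin 3 :=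
    { toFun := Sum.elim (fun i => (v0, i)) fun p => (p.1.1, p.2)
      invFun := fun p => if h : p.1 = v0 then Sum.inl p.2 else Sum.inr (⟨p.1, h⟩, p.2)
      left_inv := by
        rintro (i | ⟨w, i⟩)
        · simp
        · simp [w.2]
      right_inv := by
        rintro ⟨v, i⟩
        by_cases h : v = v0
        · simp [h]
        · simp [h] }
  have key : ns (fun x : E × Bool => (Sum.inl x.1 : E ⊕ V)) (fun x => Sum.inr (hd s t x)) =
      ns (flS (bS hf v0) (bτ hf v0)) (flT bT) := by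
    refine Prm3.ns_key f (g0.trans hf) _ _ _ _ fun o => Or.inl ?_
    rcases o with i | ⟨w, i⟩
    · exact ⟨rfl, congrArg Sum.inr (hhf (v0, i))⟩
    · exact ⟨rfl, congrArg Sum.inr (hhf (w.1, i))⟩
  have h1 := congrFun key ⟨K⟩
  exact Nat.cast_injective (R := ℤ) h1.symm
end

end Pool.Agent.Pf4
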