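import Pool.Agent.Pf4.Ops
import Pool.Agent.KG.Cnt
import Pool.Agent.KG.Deg
import Pool.Agent.GPM.App2

/-!
# Graphs with triangular slots, gadgets of the letters, primitive graphs

A slot of a graph is a map `r : Fin 3 → V`.  The letters replace a slot by a gadget (`K_{2,2}` or `K_{3,3}` without a
perfect matching) with a new slot; a slot is filled with a triangle (`trS`, `trT`) or with a star (`stS`, `stT`).
-/

set_option autoImplicit false

open scoped BigOperators Classical

namespace Pool.Agent.Pf4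

open Pool.Agent.KG

/-- The number of new vertices of a letter. -/
def Lt.m : Lt → ℕ
  | .a => 2
  | .b => 2
  | .c => 2
  | .h => 3

/-- The edge `i` of a letter joins the old terminal `lS i` ... -/
def Lt.lS : (x : Lt) → Fin x.n → Fin 3
  | .a => (![0, 0, 1, 1] : Fin 4 → Fin 3)
  | .b => (![1, 1, 2, 2] : Fin 4 → Fin 3)
  | .c => (![2, 2, 0, 0] : Fin 4 → Fin 3)
  | .h => (![0, 0, 1, 1, 2, 2] : Fin 6 → Fin 3)

/-- ... with the new vertex `lT i`. -/
def Lt.lT : (x : Lt) → Fin x.n → Fin x.m
  | .a => (![0, 1, 0, 1] : Fin 4 → Fin 2)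
  | .b => (![0, 1, 0, 1] : Fin 4 → Fin 2)
  | .c => (![0, 1, 0, 1] : Fin 4 → Fin 2)
  | .h => (![1, 2, 0, 2, 0, 1] : Fin 6 → Fin 3)

/-- The new terminals of a letter. -/
def Lt.lR : (x : Lt) → Fin 3 → Fin 3 ⊕ Fin x.m
  | .a => (![.inr 0, .inr 1, .inl 2] : Fin 3 → Fin 3 ⊕ Fin 2)
  | .b => (![.inl 0, .inr 0, .inr 1] : Fin 3 → Fin 3 ⊕ Fin 2)
  | .c => (![.inr 1, .inl 1, .inr 0] : Fin 3 → Fin 3 ⊕ Fin 2)
  | .h => (![.inr 0, .inr 1, .inr 2] : Fin 3 → Fin 3 ⊕ Fin 3)

section defs

variable {V E W : Type}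

/-- The graph with the gadget of the letter `x` at the slot `r`: sources. -/
def exS (x : Lt) (s : E → V) (r : Fin 3 → V) : E ⊕ Fin x.n → V ⊕ Fin x.m :=
  Sum.elim (fun e => Sum.inl (s e)) fun i => Sum.inl (r (x.lS i))

/-- Targets. -/
def exT (x : Lt) (t : E → V) : E ⊕ Fin x.n → V ⊕ Fin x.m :=
  Sum.elim (fun e => Sum.inl (t e)) fun i => Sum.inr (x.lT i)

/-- The new slot. -/
def exR (x : Lt) (r : Fin 3 → V) : Fin 3 → V ⊕ Fin x.m := fun i => Sum.map r id (x.lR i)

/-- The graph with a triangle at the slot `r`; the edge `i` joins `r (i + 1)` and `r (i + 2)`. -/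
def trS (s : E → V) (r : Fin 3 → V) : E ⊕ Fin 3 → V := Sum.elim s fun i => r (i + 1)

/-- Targets. -/
def trT (t : E → V) (r : Fin 3 → V) : E ⊕ Fin 3 → V := Sum.elim t fun i => r (i + 2)

/-- The graph with a star at the slot `r`. -/
def stS (s : E → V) (r : Fin 3 → V) : E ⊕ Fin 3 → Option V := Sum.elim (fun e => some (s e)) fun i => some (r i)

/-- Targets. -/
def stT (t : E → V) : E ⊕ Fin 3 → Option V := Sum.elim (fun e => some (t e)) fun _ => none

/-- The graph with stars at the slots `τ w`. -/
def flS (s : E → V) (τ : W → Fin 3 → V) : E ⊕ W × Fin 3 → V ⊕ W :=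
  Sum.elim (fun e => Sum.inl (s e)) fun p => Sum.inl (τ p.1 p.2)

/-- Targets. -/
def flT (t : E → V) : E ⊕ W × Fin 3 → V ⊕ W := Sum.elim (fun e => Sum.inl (t e)) fun p => Sum.inr p.1

/-- The graph with triangles at the slots `τ w`. -/
def tfS (s : E → V) (τ : W → Fin 3 → V) : E ⊕ W × Fin 3 → V := Sum.elim s fun p => τ p.1 (p.2 + 1)

/-- Targets. -/
def tfT (t : E → V) (τ : W → Fin 3 → V) : E ⊕ W × Fin 3 → V := Sum.elim t fun p => τ p.1 (p.2 + 2)

/-- The number of edges inside a set of vertices. -/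
noncomputable def ei [Fintype E] (s t : E → V) (U : Finset V) : ℕ := ({e | s e ∈ U ∧ t e ∈ U} : Finset E).card

/-- Primitive graphs of `φ⁴` theory. -/
structure PrG [Fintype V] [Fintype E] (s t : E → V) : Prop where
  /-- no loops -/
  ll : LL s t
  /-- the degrees are at most four -/
  dg : ∀ v, deg s t v ≤ 4
  /-- two vertices at least -/
  nv : 2 ≤ Fintype.card V
  /-- four external legs -/
  cd : Fintype.card E + 2 = 2 * Fintype.card V
  /-- no subdivergences -/
  pm : ∀ U : Finset V, 2 ≤ U.card → U ≠ Finset.univ → ei s t U + 3 ≤ 2 * U.card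

end defs

/-- A primitive graph of `φ⁴` theory with four external legs: a finite multigraph without loops whose vertices have
degree at most `4`, with `n ≥ 2` vertices and `2 n - 2` edges, such that every set of at least two, but not all,
vertices spans at most `2 |U| - 3` edges. -/
structure PrimPhi4 where
  /-- number of vertices -/
  n : ℕ
  /-- number of edges -/
  m : ℕ
  /-- one end of the edges -/
  s : Fin m → Fin n
  /-- the other end -/
  t : Fin m → Fin n
  /-- the degrees are at most four -/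
  deg_le : ∀ v, deg s t v ≤ 4
  /-- there are no loops -/
  noloop : ∀ e, s e ≠ t e
  /-- at least two vertices -/
  two_le : 2 ≤ n
  /-- there are four external legs -/
  legs : m + 2 = 2 * n
  /-- there are no subdivergences -/
  prim : ∀ U : Finset (Fin n), 2 ≤ U.card → U ≠ Finset.univ →
    (Finset.univ.filter fun e : Fin m => s e ∈ U ∧ t e ∈ U).card + 3 ≤ 2 * U.card

open Pool.Agent.HGC in
/-- The number of points of the graph hypersurface. -/
noncomputable def PrimPhi4.count (G : PrimPhi4) : PF := countPF fun K _ => NS G.s G.t K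

/-- The vectors `v` and `w` describe the same network. -/
def Rp {K : Type} [CommRing K] (v : V5 K) (w : W5 K) : Prop :=
  w.Iso ∧ v = ⟨w.x0, w.x1 + w.x2, w.x1 + w.x3, w.x2 + w.x3, w.x4⟩

/-- The vector of the network `s`, `t` with the terminals `r 0`, `r 1`, `r 2`. -/
noncomputable def wv {V E K : Type} [Fintype V] [Fintype E] [CommRing K] (s t : E → V) (r : Fin 3 → V) (x : E → K) :
    W5 K :=
  if h : ∃ w, Rp (vec s t x (r 0) (r 1) (r 2)) w then h.choose else 0

/-- The sum of a function over the values of a network. -/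
noncomputable def SM {V E : Type} [Fintype V] [Fintype E] (s t : E → V) (r : Fin 3 → V) (K : Type) [Field K]
    [Fintype K] (f : W5 K → ℝ) : ℝ := ∑ x : E → K, f (wv s t r x)

open Pool.Agent.HGC in
/-- The function of prime powers of a real function of finite fields. -/
noncomputable def rPF (N : (K : Type) → [Field K] → [Fintype K] → ℝ) : PF := fun p r =>
  haveI : Fact (p : ℕ).Prime := ⟨p.2⟩
  haveI : Fintype (GaloisField p r) := Fintype.ofFinite _
  ((N (GaloisField p r) : ℝ) : ℂ)

end Pool.Agent.Pf4
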