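import Pool.Agent.Pf4.GInd
import Pool.Agent.Pf4.GBase

/-!
# The family of the primitive graphs of `φ⁴` theory
-/

set_option autoImplicit false

open scoped BigOperators

namespace Pool.Agent.Pf4

open Pool.Agent.KG Pool.Agent.KGU Pool.Agent.HGC Pool.Agent.HGM Pool.Agent.GPM

open Classical in
/-- The function of a 3-edge-connected cubic graph is approximated by the functions of primitive `φ⁴` graphs. -/
theorem cubic_inR (hS : InC fun _ _ _ => St) {V E : Type} [Fintype V] [Fintype E] (s t : E → V) (hl : LL s t)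
    (h3 : ∀ v, deg s t v = 3) (hc : Prm3.Con s t 3) (v0 : V) :
    InR PrimPhi4.count fun K _ _ => (NS s t K : ℝ) := by
  obtain ⟨hf, hhf⟩ := exists_hf s t h3
  have h1 := ih_all hS _ _ _ _ (bS hf v0) bT (bτ hf v0) rfl (base_prim hl hf hhf hc v0)
  refine InR.divq_pow (Fintype.card E) (h1.congr fun K _ _ => ?_)
  rw [base_ns hf hhf v0 K, NS_sub s t hl K]

theorem base_inB (hS : InC fun _ _ _ => St) (H : Prm3.PrimCubic false) : InB PrimPhi4.count H.count := by
  obtain ⟨v0⟩ : Nonempty (Fin H.n) := by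
    obtain ⟨T, hT⟩ := H.conn
    have h1 := hT.1
    rw [Fintype.card_fin] at h1
    exact ⟨⟨0, by omega⟩⟩
  exact (InR.count fun K _ => NS H.s H.t K).1 (cubic_inR hS H.s H.t H.noloop H.deg_eq (con_prim H) v0)

/-- Scheme counts are approximated by counts of hypersurfaces of primitive `φ⁴` graphs. -/
theorem hg4 (hS : InC fun _ _ _ => St) (n m : ℕ) (P : Fin m → MvPolynomial (Fin n) ℤ) :
    InB PrimPhi4.count (countPF (affCount P)) :=
  InB.trans' (fun G => base_inB hS G) (Prm3.hg_prim n m P)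

theorem family4 (hS : InC fun _ _ _ => St) (t : ℕ) (X : Fin t → Datum) (a : Fin t → ℤ) (e : Fin t → ℕ) :
    ∃ (K N : ℕ) (G : Fin N → PrimPhi4) (c : Fin N → ℤ) (d : Fin N → ℕ) (κ : ℤ → ℤ),
      (∀ i, Odd i → κ i = 0) ∧
      ∀ (μ : Nat.Primes → ℂ →₀ ℤ) (ν : Fin N → Nat.Primes → ℂ →₀ ℤ),
        IsSpectrum (fun p r => ∑ j, (a j : ℂ) * (((p : ℕ) : ℂ) ^ r) ^ e j * (X j).count p r) μ →
        (∀ k, IsSpectrum (G k).count (ν k)) →
        (∀ w : ℤ, 0 ≤ w → ∀ p : Nat.Primes, ∀ r : ℕ, 1 ≤ r →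
          (((p : ℕ) : ℂ) ^ r) ^ K * weightPart μ w p r =
            (κ w : ℂ) * ((((p : ℕ) : ℂ) ^ r) ^ K * (((p : ℕ) : ℂ) ^ (w / 2)) ^ r) +
            ∑ k, (c k : ℂ) * ((((p : ℕ) : ℂ) ^ r) ^ d k *
              weightPart (ν k) (w + 2 * K - 2 * d k) p r)) ∧
        ∀ (S : Set Nat.Primes) (φ : PF), S.Finite →
          Continues (fun p r => open Classical in if p ∈ S then φ p r else 0) →
          (∀ k w, Continues (lfun S (fun _ _ => 0) (ν k) w 0)) →
          ∀ i m : ℤ, 0 ≤ i → Continues (lfun S φ μ i m) :=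
  family_main (hg4 hS) t X a e

end Pool.Agent.Pf4
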