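import Pool.Agent.Pf4.GDefs

/-!
# Approximation of real functions of finite fields
-/

set_option autoImplicit false

open scoped BigOperators

namespace Pool.Agent.Pf4

open Pool.Agent.HGC Pool.Agent.GPM

/-- Real functions of finite fields. -/
abbrev RF : Type 1 := (K : Type) → [Field K] → [Fintype K] → ℝ

/-- The function `N` is approximated by combinations of the functions `g i`. -/
def InR {ι : Type} (g : ι → PF) (N : RF) : Prop := InB g (rPF N)

/-- MODULE g_tr.

Proof.  `InB.limit`-style: for `D` take `z` with `Comb g z` (`K`, `s`, `c`, `R`), `|f - z| q ^ D ≤ C`.  `q ^ K z` is the sum of `c i * g i` and `R`, so it is `InB g'` by `InB.sum`,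
`InB.pmul`, `InB.poly`, `InB.add`; `InB.divq_pow`; then `InB.limit`. -/
theorem InB.trans' {ι κ : Type} {g : ι → PF} {g' : κ → PF} (hg : ∀ i, InB g' (g i)) {f : PF} (hf : InB g f) :
    InB g' f := by
  refine InB.limit fun D => ?_
  obtain ⟨z, ⟨K, s, c, R, hz⟩, C, hC⟩ := hf D
  refine ⟨z, ?_, C, hC⟩
  refine InB.divq_pow K (InB.congr (fun p r hr => (hz p r hr).symm) ?_)
  exact (InB.sum s (fun i p r => pq (c i) p r * g i p r) fun i _ => (hg i).pmul (c i)).add (InB.poly R)

section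

variable {ι : Type} {g : ι → PF}

private theorem gin_pkg (p : Nat.Primes) (r : ℕ) (hr : 1 ≤ r) :
    ∃ (K : Type) (i : Field K) (j : Fintype K), Fintype.card K = (p : ℕ) ^ r ∧
      (∀ N : RF, rPF N p r = ((@N K i j : ℝ) : ℂ)) ∧
      ∀ N : (K : Type) → [Field K] → ℕ, countPF N p r = (@N K i : ℂ) := by
  have : Fact (p : ℕ).Prime := ⟨p.2⟩
  refine ⟨GaloisField p r, inferInstance, Fintype.ofFinite _, ?_, fun N => rfl, fun N => rfl⟩
  rw [← @Nat.card_eq_fintype_card _ (Fintype.ofFinite _)]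
  exact GaloisField.card _ _ (by omega)

private theorem gin_qr_pos (K : Type) [Field K] [Fintype K] : 0 < qr K := by
  rw [qr]
  exact_mod_cast Fintype.card_pos

/-- `q ^ natDegree p * tv p` is the value of the reversed polynomial. -/
private theorem gin_tv (K : Type) [Field K] [Fintype K] (p : Polynomial ℤ) :
    qr K ^ p.natDegree * tv K p = ((p.reverse.eval (Fintype.card K : ℤ) : ℤ) : ℝ) := by
  have hq : qr K ≠ 0 := (gin_qr_pos K).ne'
  have : Invertible (qr K)⁻¹ := invertibleOfNonzero (inv_ne_zero hq)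
  have h1 := Polynomial.eval₂_reverse_mul_pow (Int.castRingHom ℝ) (qr K)⁻¹ p
  have h2 : ⅟((qr K)⁻¹) = qr K := by
    rw [invOf_eq_inv, inv_inv]
  rw [h2] at h1
  rw [tv, ← h1, ← mul_comm, mul_assoc, ← mul_pow, inv_mul_cancel₀ hq, one_pow, mul_one,
    Polynomial.eval₂_eq_eval_map, qr]
  have h3 : ((Fintype.card K : ℕ) : ℝ) = (Int.castRingHom ℝ) (Fintype.card K : ℤ) := by simp
  rw [h3, Polynomial.eval_map, Polynomial.eval₂_at_apply]
  simp

/-- MODULE g_in (1).  `InB.congr`; `rPF` is a function of the values. -/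
theorem InR.congr {N N' : RF} (h : ∀ (K : Type) [Field K] [Fintype K], N K = N' K) (hN : InR g N) : InR g N' := by
  refine InB.congr (fun p r hr => ?_) hN
  obtain ⟨K, _, _, _, h1, _⟩ := gin_pkg p r hr
  rw [h1, h1, h]

/-- MODULE g_in (2). -/
theorem InR.add {N N' : RF} (hN : InR g N) (hN' : InR g N') : InR g fun K _ _ => N K + N' K := by
  refine InB.congr (fun p r hr => ?_) (InB.add hN hN')
  obtain ⟨K, _, _, _, h1, _⟩ := gin_pkg p r hr
  rw [h1, h1, h1, Complex.ofReal_add]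

/-- MODULE g_in (3). -/
theorem InR.neg {N : RF} (hN : InR g N) : InR g fun K _ _ => -N K := by
  refine InB.congr (fun p r hr => ?_) (InB.neg hN)
  obtain ⟨K, _, _, _, h1, _⟩ := gin_pkg p r hr
  rw [h1, h1, Complex.ofReal_neg]

/-- MODULE g_in (4).  `Fintype.card (GaloisField p r) = p ^ r` for `1 ≤ r` (`GaloisField.card`, `Nat.card_eq_fintype_card`). -/
theorem InR.poly (R : Polynomial ℤ) : InR g fun K _ _ => ((R.eval (Fintype.card K : ℤ) : ℤ) : ℝ) := by
  refine InB.congr (fun p r hr => ?_) (InB.poly R)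
  obtain ⟨K, _, _, h0, h1, _⟩ := gin_pkg p r hr
  rw [h1, h0, pq]
  push_cast
  rfl

/-- MODULE g_in (5). -/
theorem InR.divq_pow {N : RF} (n : ℕ) (hN : InR g fun K _ _ => qr K ^ n * N K) : InR g N := by
  refine InB.divq_pow n (InB.congr (fun p r hr => ?_) hN)
  obtain ⟨K, _, _, h0, h1, _⟩ := gin_pkg p r hr
  rw [h1, h1, qr, h0]
  push_cast
  rfl

/-- MODULE g_in (6). -/
theorem InR.mulq_pow {N : RF} (n : ℕ) (hN : InR g N) : InR g fun K _ _ => qr K ^ n * N K := by
  refine InB.congr (fun p r hr => ?_) (InB.mulq_pow n hN)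
  obtain ⟨K, _, _, h0, h1, _⟩ := gin_pkg p r hr
  rw [h1, h1, qr, h0]
  push_cast
  rfl

/-- MODULE g_in (7).  `q ^ natDegree p * tv p` is the value of `p.reverse` (or of `∑ coeff j X ^ (n - j)`) at `q`: `InB.pmul`, `InR.divq_pow`. -/
theorem InR.tv {N : RF} (p : Polynomial ℤ) (hN : InR g N) : InR g fun K _ _ => tv K p * N K := by
  refine InR.divq_pow p.natDegree ?_
  refine InB.congr (fun P r hr => ?_) (InB.pmul p.reverse hN)
  obtain ⟨K, _, _, h0, h1, _⟩ := gin_pkg P r hr
  rw [h1, h1, ← mul_assoc, gin_tv, h0, pq]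
  push_cast
  rfl

/-- MODULE g_in (8).  `InB.limit`. -/
theorem InR.limit {N : RF} (h : ∀ D : ℕ, ∃ N' : RF, InR g N' ∧ ∃ C : ℝ, ∀ (K : Type) [Field K] [Fintype K],
    |N K - N' K| * qr K ^ D ≤ C) : InR g N := by
  refine InB.limit fun D => ?_
  obtain ⟨N', hN', C, hC⟩ := h D
  refine ⟨_, hN', C, fun p r hr => ?_⟩
  obtain ⟨K, _, _, h0, h1, _⟩ := gin_pkg p r hr
  have h2 := hC K
  rw [qr, h0] at h2
  push_cast at h2
  rw [h1, h1, ← Complex.ofReal_sub, Complex.norm_real, Real.norm_eq_abs]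
  exact h2

/-- MODULE g_in (9). -/
theorem InR.count (N : (K : Type) → [Field K] → ℕ) : InR g (fun K _ _ => (N K : ℝ)) ↔ InB g (countPF N) := by
  have key : ∀ (p : Nat.Primes) (r : ℕ), 1 ≤ r → rPF (fun K _ _ => (N K : ℝ)) p r = countPF N p r := by
    intro p r hr
    obtain ⟨K, _, _, _, h1, h2⟩ := gin_pkg p r hr
    rw [h1, h2, Complex.ofReal_natCast]
  exact ⟨fun h => InB.congr key h, fun h => InB.congr (fun p r hr => (key p r hr).symm) h⟩

end

end Pool.Agent.Pf4
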