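import Pool.Agent.Pf4.GRel
import Pool.Agent.Pf4.GInr
import Pool.Agent.Pf4.BEx

/-!
# Replacing the triangles by stars
-/

set_option autoImplicit false

open scoped BigOperators Classical

namespace Pool.Agent.Pf4

open Pool.Agent.KG Pool.Agent.HGC Pool.Agent.GPM

/-- The graphs with `k` slots filled with stars, if they are primitive after filling the slots with triangles. -/
def IHk (k : ℕ) : Prop :=
  ∀ (V E W : Type) [Fintype V] [Fintype E] [Fintype W] (s t : E → V) (τ : W → Fin 3 → V), Fintype.card W = k →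
    PrG (tfS s τ) (tfT t τ) → InR PrimPhi4.count fun K _ _ => (NS (flS s τ) (flT t) K : ℝ)

/-- The same with one more slot, filled with the function `f`. -/
def Jk (k : ℕ) (f : Fam) : Prop :=
  ∀ (V E W : Type) [Fintype V] [Fintype E] [Fintype W] (s t : E → V) (τ : W → Fin 3 → V) (r : Fin 3 → V),
    Fintype.card W = k → PrG (trS (tfS s τ) r) (trT (tfT t τ) r) →
      InR PrimPhi4.count fun K _ _ => SM (flS s τ) (flT t) (fun i => Sum.inl (r i)) K (f K)

theorem prG_inR {V E : Type} [Fintype V] [Fintype E] {s t : E → V} (h : PrG s t) :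
    InR PrimPhi4.count fun K _ _ => (NS s t K : ℝ) := by
  let f := Fintype.equivFin V
  let g := Fintype.equivFin E
  have hs : ∀ e, (f ∘ s ∘ g.symm) (g e) = f (s e) := fun e => by simp
  have ht : ∀ e, (f ∘ t ∘ g.symm) (g e) = f (t e) := fun e => by simp
  have h1 : PrG (f ∘ s ∘ g.symm) (f ∘ t ∘ g.symm) := PrG.iso f g (fun e => Or.inl ⟨hs e, ht e⟩) h
  let G : PrimPhi4 := ⟨Fintype.card V, Fintype.card E, f ∘ s ∘ g.symm, f ∘ t ∘ g.symm, h1.dg, h1.ll, h.nv, h.cd,
    fun U hU hU' => by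
      have h2 := h1.pm U hU hU'
      unfold ei at h2
      convert h2⟩
  have h2 : InR PrimPhi4.count fun K _ _ => (NS G.s G.t K : ℝ) := (InR.count fun K _ => NS G.s G.t K).2 (InB.base G)
  refine InR.congr (fun K _ _ => ?_) h2
  exact congrArg _ (NS_iso f g s t _ _ hs ht)

theorem ih_zero : IHk 0 := by
  intro V E W _ _ _ s t τ hk hp
  have : IsEmpty W := Fintype.card_eq_zero_iff.1 hk
  exact InR.congr (fun K _ _ => by rw [r4_ns]) (prG_inR (r4_prim hp))

private theorem gj_inj {V W : Type} {r : Fin 3 → V} (h : Function.Injective r) :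
    Function.Injective fun i => (Sum.inl (r i) : V ⊕ W) := fun _ _ hij => h (Sum.inl.inj hij)

theorem j_T0 {k : ℕ} (h : IHk k) : Jk k fun _ _ _ => T0 := by
  intro V E W _ _ _ s t τ r hk hp
  have h1 := h V (E ⊕ Fin 3) W (trS s r) (trT t r) τ hk (r1_prim hp)
  refine InR.congr (fun K _ _ => ?_) ((InR.poly (Polynomial.X ^ (Fintype.card (E ⊕ W × Fin 3) + 3))).add h1.neg)
  rw [SM_T0 _ _ (gj_inj hp.inj), r1_ns, Polynomial.eval_pow, Polynomial.eval_X]
  push_cast
  rw [qr]
  ring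

theorem j_op {k : ℕ} {f : Fam} (x : Lt) (h : Jk k f) : Jk k fun K _ _ => x.op (f K) := by
  intro V E W _ _ _ s t τ r hk hp
  have h1 := h (V ⊕ Fin x.m) (E ⊕ Fin x.n) W (exS x s r) (exT x t) (fun w i => Sum.inl (τ w i)) (exR x r) hk
    (r2_prim x (prim_ex x hp))
  refine InR.divq_pow x.n (InR.congr (fun K _ _ => ?_) h1)
  rw [SM_op x _ _ (gj_inj hp.inj), r2_sm]

theorem j_add {k : ℕ} {f g : Fam} (hf : Jk k f) (hg : Jk k g) : Jk k fun K _ _ w => f K w + g K w := by
  intro V E W _ _ _ s t τ r hk hp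
  refine InR.congr (fun K _ _ => ?_) ((hf V E W s t τ r hk hp).add (hg V E W s t τ r hk hp))
  unfold SM
  rw [← Finset.sum_add_distrib]

theorem j_tv {k : ℕ} {f : Fam} (p : Polynomial ℤ) (h : Jk k f) : Jk k fun K _ _ w => tv K p * f K w := by
  intro V E W _ _ _ s t τ r hk hp
  refine InR.congr (fun K _ _ => ?_) ((h V E W s t τ r hk hp).tv p)
  unfold SM
  rw [Finset.mul_sum]

theorem j_ev {k : ℕ} {f : Fam} (e : Ex) (h : Jk k f) : Jk k fun K _ _ => e.ev (f K) := by
  induction e generalizing f with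
  | one => exact h
  | lt x => exact j_op x h
  | mul e g he hg => exact he (hg h)
  | add e g he hg => exact j_add (he h) (hg h)
  | sm p e he => exact j_tv p (he h)

private theorem gj_T0_hm (K : Type) [Field K] [Fintype K] : Hm (T0 : W5 K → ℝ) := by
  have hz : ∀ v : W5 K, W5.pr (0 : W5 K) v = 0 := fun v => by
    show W5.pr (⟨0, 0, 0, 0, 0⟩ : W5 K) v = 0
    simp [W5.pr]
  have hs : ∀ (r : K) (w v : W5 K), W5.pr (w.sm r) v = r * W5.pr w v := fun r w v => by
    simp only [W5.pr, W5.sm]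
    ring
  constructor
  · unfold T0
    refine Finset.sum_eq_zero fun y _ => ?_
    rw [if_pos (hz _)]
  · intro r w hr
    unfold T0
    refine Finset.sum_congr rfl fun y _ => ?_
    rw [hs]
    simp [hr]

private theorem gj_diff {V E K : Type} [Fintype V] [Fintype E] [Field K] [Fintype K] (s t : E → V) (r : Fin 3 → V)
    (F G : W5 K → ℝ) (B : ℝ) (h : ∀ x : E → K, |F (wv s t r x) - G (wv s t r x)| ≤ B) :
    |SM s t r K F - SM s t r K G| ≤ qr K ^ Fintype.card E * B := by
  unfold SM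
  rw [← Finset.sum_sub_distrib]
  refine (Finset.abs_sum_le_sum_abs _ _).trans ((Finset.sum_le_sum fun x _ => h x).trans (le_of_eq ?_))
  rw [Finset.sum_const, Finset.card_univ, Fintype.card_fun, nsmul_eq_mul]
  push_cast
  rfl

private theorem gj_smul {V E K : Type} [Fintype V] [Fintype E] [Field K] [Fintype K] (s t : E → V) (r : Fin 3 → V)
    (F : W5 K → ℝ) (c : ℝ) : SM s t r K (fun w => c * F w) = c * SM s t r K F := by
  unfold SM
  rw [Finset.mul_sum]

theorem j_lim {k : ℕ} {f : Fam} (hf : InC f) (h0 : ∀ (K : Type) [Field K] [Fintype K], f K 0 = 0)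
    (hT : Jk k fun _ _ _ => T0) : Jk k f := by
  intro V E W _ _ _ s t τ r hk hp
  refine InR.limit fun D => ?_
  obtain ⟨e, N, C, hC⟩ := hf (D + Fintype.card (E ⊕ W × Fin 3))
  refine ⟨fun K _ _ => qr K ^ N * SM (flS s τ) (flT t) (fun i => Sum.inl (r i)) K (e.ev T0),
    ((j_ev e hT) V E W s t τ r hk hp).mulq_pow N, |C|, fun K _ _ => ?_⟩
  have hr := gj_inj (W := W) hp.inj
  have hz : e.ev T0 (0 : W5 K) = 0 := (ev_hm e (gj_T0_hm K)).1
  have hq : (0 : ℝ) < qr K := by
    unfold qr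
    exact_mod_cast Fintype.card_pos
  have h4 : 0 < qr K ^ (D + Fintype.card (E ⊕ W × Fin 3)) := pow_pos hq _
  have h1 : ∀ x : E ⊕ W × Fin 3 → K, |f K (wv (flS s τ) (flT t) (fun i => Sum.inl (r i)) x) -
      qr K ^ N * e.ev T0 (wv (flS s τ) (flT t) (fun i => Sum.inl (r i)) x)| ≤
        |C| / qr K ^ (D + Fintype.card (E ⊕ W × Fin 3)) := by
    intro x
    rw [le_div_iff₀ h4]
    rcases wv_IS (flS s τ) (flT t) hr x with h | h
    · rw [h, h0, hz]
      simp
    · exact (hC K _ h).trans (le_abs_self C)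
  have h2 := gj_diff (flS s τ) (flT t) (fun i => Sum.inl (r i)) (f K) (fun w => qr K ^ N * e.ev T0 w) _ h1
  rw [gj_smul] at h2
  have h5 : qr K ^ D ≠ 0 := (pow_pos hq _).ne'
  have h6 : qr K ^ Fintype.card (E ⊕ W × Fin 3) ≠ 0 := (pow_pos hq _).ne'
  calc _ ≤ qr K ^ Fintype.card (E ⊕ W × Fin 3) * (|C| / qr K ^ (D + Fintype.card (E ⊕ W × Fin 3))) * qr K ^ D :=
        mul_le_mul_of_nonneg_right h2 (pow_nonneg hq.le _)
    _ = |C| := by
        rw [pow_add]
        field_simp

/-- MODULE g_is.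

Proof.  `card W = k + 1`: an equivalence `e : Option (Fin k) ≃ W`.  `r3_ns`, `SM_St`: `NS (stS ..) = q ^ (..) - SM St`; `j_lim` for `St` (`St 0 = 0`: `W5.pr 0 _ = 0`),
`j_T0`, `r3_prim`; `PrG.inj`. -/
theorem ih_succ (hS : InC fun _ _ _ => St) {k : ℕ} (h : IHk k) : IHk (k + 1) := by
  intro V E W _ _ _ s t τ hW hP
  have e : Option (Fin k) ≃ W := Fintype.equivOfCardEq (by rw [Fintype.card_option, Fintype.card_fin, hW])
  have h1 := r3_prim e hP
  have hr : Function.Injective (τ (e none)) := h1.inj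
  have h0 : ∀ (K : Type) [Field K] [Fintype K], (St : W5 K → ℝ) 0 = 0 := by
    intro K _ _
    have hz : ∀ v : W5 K, W5.pr 0 v = 0 := by
      intro v
      change (0 : K) * v.x4 + 0 * v.x0 + 0 * (v.x2 + v.x3) + 0 * (v.x1 + v.x3) + 0 * (v.x1 + v.x2) = 0
      ring
    simp [St, hz]
  have h2 : Jk k fun _ _ _ => St := j_lim hS h0 (j_T0 h)
  have h3 := h2 V E (Fin k) s t (fun w => τ (e (some w))) (τ (e none)) (Fintype.card_fin k) h1
  refine InR.congr ?_ ((InR.poly (Polynomial.X ^ (Fintype.card (E ⊕ Fin k × Fin 3) + 3))).add h3.neg)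
  intro K _ _
  have h4 := SM_St (K := K) (flS s fun w => τ (e (some w))) (flT (W := Fin k) t)
    (r := fun i => Sum.inl (τ (e none) i)) (fun i j hij => hr (Sum.inl.inj hij))
  have h5 := r3_ns (K := K) e s t τ
  rw [h4, h5, qr]
  simp

theorem ih_all (hS : InC fun _ _ _ => St) (k : ℕ) : IHk k := by
  induction k with
  | zero => exact ih_zero
  | succ k ih => exact ih_succ hS ih

end Pool.Agent.Pf4
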