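import Pool.Agent.Pf4.GRp

/-!
# Adding edges between the terminals and new vertices: deletion and contraction on labels

The labels are the three terminals `inl 0`, `inl 1`, `inl 2` and the new vertices `inr j`.
-/

set_option autoImplicit false

open scoped BigOperators

namespace Pool.Agent.Pf4

open Pool.Agent.KG

/-- Labels. -/
abbrev Lb (m : ℕ) : Type := Fin 3 ⊕ Fin m

/-- Replace the label `b` by `a`. -/
def mgl {m : ℕ} (a b l : Lb m) : Lb m := if l = b then a else l

/-- Replace the labels `b` and `c` by `a`. -/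
def mg3l {m : ℕ} (a b c l : Lb m) : Lb m := if l = b ∨ l = c then a else l

/-- The value of the network with `m` isolated new vertices after the identification of the labels by `p`. -/
def lf {K : Type} [Zero K] {m : ℕ} (v : V5 K) (p : Lb m → Lb m) : K :=
  if ∃ j : Fin m, ∀ i : Fin 3, p (.inr j) ≠ p (.inl i) then 0
  else if p (.inl 0) = p (.inl 1) then (if p (.inl 0) = p (.inl 2) then v.C else v.P12)
  else if p (.inl 0) = p (.inl 2) then v.P13
  else if p (.inl 1) = p (.inl 2) then v.P23
  else v.A

/-- Deletion and contraction of a list of new edges. -/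
def lbv {K : Type} [CommRing K] {m : ℕ} (v : V5 K) : List (Lb m × Lb m × K) → (Lb m → Lb m) → K
  | [], p => lf v p
  | (a, b, y) :: l, p => y * lbv v l p + if p a = p b then 0 else lbv v l fun x => mgl (p a) (p b) (p x)

/-- The vertex with the label `l`. -/
def lv {V : Type} {m : ℕ} (r : Fin 3 → V) : Lb m → V ⊕ Fin m := Sum.map r id

open Classical in
/-- The map of the vertices of a map of the labels. -/
noncomputable def lq {V : Type} {m : ℕ} (r : Fin 3 → V) (p : Lb m → Lb m) : V ⊕ Fin m → V ⊕ Lb m :=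
  Sum.elim (fun v => if h : ∃ i, r i = v then .inr (p (.inl h.choose)) else .inl v) fun j => .inr (p (.inr j))

section

variable {V E K : Type} [Fintype V] [Fintype E] [Field K] {m : ℕ}

/-- MODULE g_lq (1). -/
theorem lv_inj {r : Fin 3 → V} (hr : Function.Injective r) : Function.Injective (lv (m := m) r) := by
  unfold lv
  exact Sum.map_injective.2 ⟨hr, Function.injective_id⟩

/-- MODULE g_lq (2). -/
theorem lq_lv {r : Fin 3 → V} (hr : Function.Injective r) (p : Lb m → Lb m) (l : Lb m) :
    lq r p (lv r l) = .inr (p l) := by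
  cases l with
  | inl i =>
    have h : ∃ i', r i' = r i := ⟨i, rfl⟩
    have h1 : h.choose = i := hr h.choose_spec
    unfold lq lv
    simp only [Sum.map_inl, Sum.elim_inl]
    rw [dif_pos h, h1]
  | inr j => rfl

/-- MODULE g_lq (3). -/
theorem lq_other {r : Fin 3 → V} (p : Lb m → Lb m) {v : V} (h : ∀ i, r i ≠ v) : lq r p (.inl v) = .inl v := by
  have h1 : ¬ ∃ i, r i = v := fun ⟨i, hi⟩ => h i hi
  unfold lq
  simp only [Sum.elim_inl]
  rw [dif_neg h1]

private theorem glab23_mg_inr {V : Type} {m : ℕ} (a b x : Lb m) :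
    mg (.inr a : V ⊕ Lb m) (.inr b) (.inr x) = .inr (mgl a b x) := by
  unfold mg mgl
  by_cases h : x = b
  · rw [if_pos h, if_pos (by rw [h])]
  · rw [if_neg h, if_neg (fun hc => h (Sum.inr.inj hc))]

private theorem glab23_lq_inl {V : Type} {m : ℕ} (r : Fin 3 → V) (p : Lb m → Lb m) (v : V) :
    (lq r p (.inl v) = .inl v ∧ ∀ i, r i ≠ v) ∨
      (∃ h : ∃ i, r i = v, ∀ q : Lb m → Lb m, lq r q (.inl v) = .inr (q (.inl h.choose))) := by
  by_cases h : ∃ i, r i = v
  · refine Or.inr ⟨h, fun q => ?_⟩
    unfold lq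
    simp only [Sum.elim_inl]
    rw [dif_pos h]
  · refine Or.inl ⟨?_, fun i hi => h ⟨i, hi⟩⟩
    unfold lq
    simp only [Sum.elim_inl]
    rw [dif_neg h]

/-- MODULE g_lq (4). -/
theorem mg_lq (r : Fin 3 → V) (p : Lb m → Lb m) (a b : Lb m) :
    mg (.inr a : V ⊕ Lb m) (.inr b) ∘ lq r p = lq r fun l => mgl a b (p l) := by
  funext w
  cases w with
  | inl v =>
    rcases glab23_lq_inl r p v with ⟨h1, h2⟩ | ⟨h, h1⟩
    · rw [Function.comp_apply, h1, lq_other _ h2]
      unfold mg
      rw [if_neg (fun hc => by simp at hc)]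
    · rw [Function.comp_apply, h1 p, h1 (fun l => mgl a b (p l)), glab23_mg_inr]
  | inr j =>
    rw [Function.comp_apply]
    exact glab23_mg_inr a b (p (.inr j))

private theorem glab23_cases {V : Type} {m : ℕ} (r : Fin 3 → V) (u : V ⊕ Fin m) :
    (∃ l : Lb m, u = lv r l) ∨ ∃ v : V, u = .inl v ∧ ∀ i, r i ≠ v := by
  cases u with
  | inl v =>
    by_cases h : ∃ i, r i = v
    · obtain ⟨i, hi⟩ := h
      exact Or.inl ⟨.inl i, by rw [← hi]; rfl⟩
    · exact Or.inr ⟨v, rfl, fun i hi => h ⟨i, hi⟩⟩
  | inr j => exact Or.inl ⟨.inr j, rfl⟩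

private theorem glab23_lv_ne {V : Type} {m : ℕ} (r : Fin 3 → V) {v : V} (h : ∀ i, r i ≠ v) (l : Lb m) :
    lv r l ≠ .inl v := by
  intro hc
  cases l with
  | inl i => exact h i (Sum.inl.inj hc)
  | inr j =>
    have h1 : (Sum.inr j : V ⊕ Fin m) = .inl v := hc
    simp at h1

/-- MODULE g_lq (5): the kernel. -/
theorem lq_ker {r : Fin 3 → V} (hr : Function.Injective r) (p : Lb m → Lb m) (u v : V ⊕ Fin m) :
    lq r p u = lq r p v ↔ u = v ∨ ∃ l l', u = lv r l ∧ v = lv r l' ∧ p l = p l' := by
  rcases glab23_cases r u with ⟨l, rfl⟩ | ⟨a, rfl, ha⟩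
  · rcases glab23_cases r v with ⟨l', rfl⟩ | ⟨b, rfl, hb⟩
    · rw [lq_lv hr, lq_lv hr]
      constructor
      · intro h
        exact Or.inr ⟨l, l', rfl, rfl, Sum.inr.inj h⟩
      · rintro (h | ⟨k, k', hk, hk', h⟩)
        · rw [lv_inj hr h]
        · rw [lv_inj hr hk, lv_inj hr hk', h]
    · rw [lq_lv hr, lq_other p hb]
      constructor
      · intro h
        simp at h
      · rintro (h | ⟨k, k', _, hk', _⟩)
        · exact absurd h (glab23_lv_ne r hb l)
        · exact absurd hk'.symm (glab23_lv_ne r hb k')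
  · rcases glab23_cases r v with ⟨l', rfl⟩ | ⟨b, rfl, hb⟩
    · rw [lq_lv hr, lq_other p ha]
      constructor
      · intro h
        simp at h
      · rintro (h | ⟨k, k', hk, _, _⟩)
        · exact absurd h.symm (glab23_lv_ne r ha l')
        · exact absurd hk.symm (glab23_lv_ne r ha k)
    · rw [lq_other p ha, lq_other p hb]
      constructor
      · intro h
        exact Or.inl (by rw [Sum.inl.inj h])
      · rintro (h | ⟨k, k', hk, _, _⟩)
        · rw [Sum.inl.inj h]
        · exact absurd hk.symm (glab23_lv_ne r ha k)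

private theorem glab23_sym_ker {V W W' E K : Type} [Fintype W] [Fintype W'] [Fintype E] [CommRing K]
    (π : V → W) (π' : V → W') (hπ : Function.Surjective π) (hπ' : Function.Surjective π')
    (h : ∀ u v, π u = π v ↔ π' u = π' v) (s t : E → V) (x : E → K) :
    sym (π ∘ s) (π ∘ t) x = sym (π' ∘ s) (π' ∘ t) x := by
  classical
  choose g hg using hπ
  have hf : ∀ v, π' (g (π v)) = π' v := fun v => (h _ _).1 (hg (π v))
  have hbij : Function.Bijective fun w => π' (g w) := by
    constructor
    · intro w w' hw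
      have := (h _ _).2 hw
      rwa [hg, hg] at this
    · intro w'
      obtain ⟨v, rfl⟩ := hπ' w'
      exact ⟨π v, hf v⟩
  rw [sym_eq_tht, sym_eq_tht]
  exact (tht_iso (Equiv.ofBijective _ hbij) (Equiv.refl E) (π ∘ s) (π ∘ t) (π' ∘ s) (π' ∘ t)
    (fun e => (hf (s e)).symm) (fun e => (hf (t e)).symm) 1 x).symm

private theorem glab23_rf {V W : Type} (ρ : V → W) (u v : V) :
    Set.rangeFactorization ρ u = Set.rangeFactorization ρ v ↔ ρ u = ρ v := Subtype.ext_iff

private theorem glab23_rf_surj {V W : Type} (ρ : V → W) :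
    Function.Surjective (Set.rangeFactorization ρ) := by
  rintro ⟨_, v, rfl⟩
  exact ⟨v, rfl⟩

private theorem glab23_mer_eq {V W W' E K : Type} [Fintype V] [Fintype W'] [Fintype E] [CommRing K]
    (ρ : V → W) (π : V → W') (hπ : Function.Surjective π) (h : ∀ u v, ρ u = ρ v ↔ π u = π v)
    (s t : E → V) (x : E → K) : mer ρ s t x = sym (π ∘ s) (π ∘ t) x := by
  letI : Fintype (Set.range ρ) := Fintype.ofFinite _
  exact glab23_sym_ker _ π (glab23_rf_surj ρ) hπ (fun u v => (glab23_rf ρ u v).trans (h u v)) s t x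

private theorem glab23_mer_comp {V W X E K : Type} [Fintype V] [Fintype W] [Fintype E] [CommRing K]
    (ρ : V → W) (θ : W → X) (hρ : ∀ w, ∃ v, θ (ρ v) = θ w) (s t : E → V) (x : E → K) :
    mer θ (ρ ∘ s) (ρ ∘ t) x = mer (θ ∘ ρ) s t x := by
  classical
  have : Fintype (Set.range θ) := Fintype.ofFinite _
  have h1 : Function.Surjective (Set.rangeFactorization θ ∘ ρ) := by
    rintro ⟨_, w, rfl⟩
    obtain ⟨v, hv⟩ := hρ w
    exact ⟨v, Subtype.ext hv⟩
  rw [glab23_mer_eq (θ ∘ ρ) (Set.rangeFactorization θ ∘ ρ) h1 (fun u v => (glab23_rf θ _ _).symm),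
    glab23_mer_eq θ (Set.rangeFactorization θ) (glab23_rf_surj θ) (fun u v => (glab23_rf θ u v).symm)]
  rfl

private theorem glab23_isol {V V' W E K : Type} [Fintype V'] [Fintype E] [CommRing K] (i : V → V') (s t : E → V)
    (x : E → K) (θ : V' → W) (c : V) (o : V') (h : ∀ v, θ (i v) ≠ θ o) :
    mer θ (fun e => i (s e)) (fun e => i (t e)) x = 0 := by
  classical
  have : Fintype (Set.range θ) := Fintype.ofFinite _
  rw [glab23_mer_eq θ (Set.rangeFactorization θ) (glab23_rf_surj θ) (fun u v => (glab23_rf θ u v).symm),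
    sym_eq_tht]
  refine tht_isol _ _ (Set.rangeFactorization θ (i c)) (Set.rangeFactorization θ o)
    (fun hc => h c ((glab23_rf θ _ _).1 hc)) (fun e => ⟨fun hc => ?_, fun hc => ?_⟩) _ _
  · exact h _ ((glab23_rf θ _ _).1 hc)
  · exact h _ ((glab23_rf θ _ _).1 hc)

private theorem glab23_ker {V : Type} [Fintype V] {m : ℕ} {r : Fin 3 → V} (hr : Function.Injective r) (p : Lb m → Lb m) (u v : V) :
    lq r p (.inl u) = lq r p (.inl v) ↔ u = v ∨ ∃ i i', u = r i ∧ v = r i' ∧ p (.inl i) = p (.inl i') := by
  have h : ∀ (w : V) (l : Lb m), (Sum.inl w : V ⊕ Fin m) = lv r l → ∃ i, l = .inl i ∧ w = r i := by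
    intro w l hl
    cases l with
    | inl i => exact ⟨i, rfl, Sum.inl.inj hl⟩
    | inr j =>
      have h1 : (Sum.inl w : V ⊕ Fin m) = .inr j := hl
      simp at h1
  rw [lq_ker hr]
  constructor
  · rintro (h1 | ⟨l, l', hl, hl', hp⟩)
    · exact Or.inl (Sum.inl.inj h1)
    · obtain ⟨i, rfl, hi⟩ := h u l hl
      obtain ⟨i', rfl, hi'⟩ := h v l' hl'
      exact Or.inr ⟨i, i', hi, hi', hp⟩
  · rintro (h1 | ⟨i, i', hi, hi', hp⟩)
    · exact Or.inl (by rw [h1])
    · exact Or.inr ⟨.inl i, .inl i', by rw [hi]; rfl, by rw [hi']; rfl, hp⟩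

private theorem glab23_mg_ker {V : Type} (a b u v : V) :
    mg a b u = mg a b v ↔ u = v ∨ (u = a ∨ u = b) ∧ (v = a ∨ v = b) := by
  unfold mg
  by_cases h1 : u = b <;> by_cases h2 : v = b
  · rw [if_pos h1, if_pos h2]
    subst h1
    subst h2
    simp
  · rw [if_pos h1, if_neg h2]
    constructor
    · intro h
      exact Or.inr ⟨Or.inr h1, Or.inl h.symm⟩
    · rintro (h | ⟨_, h | h⟩)
      · exact absurd (h.symm.trans h1) h2
      · exact h.symm
      · exact absurd h h2
  · rw [if_neg h1, if_pos h2]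
    constructor
    · intro h
      exact Or.inr ⟨Or.inl h, Or.inr h2⟩
    · rintro (h | ⟨h | h, _⟩)
      · exact absurd (h.trans h2) h1
      · exact h
      · exact absurd h h1
  · rw [if_neg h1, if_neg h2]
    constructor
    · intro h
      exact Or.inl h
    · rintro (h | ⟨h | h, h' | h'⟩)
      · exact h
      · exact h.trans h'.symm
      · exact absurd h' h2
      · exact absurd h h1
      · exact absurd h h1

private theorem glab23_mg3_ker {V : Type} (a b c u v : V) :
    mg3 a b c u = mg3 a b c v ↔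
      u = v ∨ (u = a ∨ u = b ∨ u = c) ∧ (v = a ∨ v = b ∨ v = c) := by
  have hl : ∀ w, mg3 a b c w = a ↔ w = a ∨ w = b ∨ w = c := by
    intro w
    unfold mg3
    by_cases h1 : w = b ∨ w = c
    · rw [if_pos h1]
      exact ⟨fun _ => Or.inr h1, fun _ => rfl⟩
    · rw [if_neg h1]
      exact ⟨fun h => Or.inl h, fun h => h.resolve_right h1⟩
  have ho : ∀ w, ¬ (w = a ∨ w = b ∨ w = c) → mg3 a b c w = w := by
    intro w hw
    unfold mg3
    rw [if_neg (fun h => hw (Or.inr h))]
  by_cases h1 : u = a ∨ u = b ∨ u = c <;> by_cases h2 : v = a ∨ v = b ∨ v = c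
  · rw [(hl u).2 h1, (hl v).2 h2]
    exact ⟨fun _ => Or.inr ⟨h1, h2⟩, fun _ => rfl⟩
  · rw [(hl u).2 h1]
    constructor
    · intro h
      exact absurd ((hl v).1 h.symm) h2
    · rintro (h | ⟨_, h⟩)
      · exact absurd (h ▸ h1) h2
      · exact absurd h h2
  · rw [(hl v).2 h2]
    constructor
    · intro h
      exact absurd ((hl u).1 h) h1
    · rintro (h | ⟨h, _⟩)
      · exact absurd (h.symm ▸ h2) h1
      · exact absurd h h1
  · rw [ho u h1, ho v h2]
    constructor
    · intro h
      exact Or.inl h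
    · rintro (h | ⟨h, _⟩)
      · exact h
      · exact absurd h h1

/-- MODULE g_lf.

Proof.  If the new vertex `j` is identified with no terminal, its class is isolated and there is another one (that of `r 0`): as `h82_isol` in KG/Mer.lean
(`unfold mer`, `sym_eq_tht`, `tht_isol`).  Otherwise every class of `lq r p` contains an element of `V`, so (as `h82_mer_comp` in KG/Mer.lean, which is
private: its hypothesis is that every class is reached; copy it and `h82_mer_eq`, `h82_sym_ker`) `mer (lq r p) (inl ∘ s) (inl ∘ t) x =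
mer (lq r p ∘ inl) s t x`, and by `mer_ker`, `mer_inj` this is the entry of `vec` given by the partition of the three terminals (`lq_ker`; cases on the
conditions of `lf`). -/
theorem mer_lf (s t : E → V) {r : Fin 3 → V} (hr : Function.Injective r) (x : E → K) (p : Lb m → Lb m) :
    mer (lq r p) (fun e => (Sum.inl (s e) : V ⊕ Fin m)) (fun e => Sum.inl (t e)) x =
      lf (vec s t x (r 0) (r 1) (r 2)) p := by
  unfold lf
  by_cases hj : ∃ j : Fin m, ∀ i : Fin 3, p (.inr j) ≠ p (.inl i)
  · rw [if_pos hj]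
    obtain ⟨j, hj⟩ := hj
    refine glab23_isol (fun v => (Sum.inl v : V ⊕ Fin m)) s t x (lq r p) (r 0) (.inr j) (fun v hv => ?_)
    have h2 := (lq_ker hr p (.inl v) (.inr j)).1 hv
    rcases h2 with h2 | ⟨l, l', hl, hl', hp⟩
    · simp at h2
    · cases l with
      | inr k =>
        have h3 : (Sum.inl v : V ⊕ Fin m) = .inr k := hl
        simp at h3
      | inl i =>
        cases l' with
        | inl i' =>
          have h3 : (Sum.inr j : V ⊕ Fin m) = .inl (r i') := hl'
          simp at h3
        | inr k =>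
          have h3 : (Sum.inr j : V ⊕ Fin m) = .inr k := hl'
          have h4 : j = k := Sum.inr.inj h3
          subst h4
          exact hj i hp.symm
  · rw [if_neg hj]
    have hj' : ∀ j : Fin m, ∃ i : Fin 3, p (.inr j) = p (.inl i) := by
      intro j
      by_contra hc
      exact hj ⟨j, fun i hi => hc ⟨i, hi⟩⟩
    have h1 : mer (lq r p) (fun e => (Sum.inl (s e) : V ⊕ Fin m)) (fun e => Sum.inl (t e)) x =
        mer (lq r p ∘ Sum.inl) s t x := by
      refine glab23_mer_comp (Sum.inl : V → V ⊕ Fin m) (lq r p) (fun w => ?_) s t x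
      cases w with
      | inl v => exact ⟨v, rfl⟩
      | inr j =>
        obtain ⟨i, hi⟩ := hj' j
        refine ⟨r i, ?_⟩
        have h2 := lq_lv hr p (.inl i)
        have h3 := lq_lv hr p (.inr j)
        have h4 : lq r p (Sum.inl (r i)) = .inr (p (.inl i)) := h2
        have h5 : lq r p (Sum.inr j) = .inr (p (.inr j)) := h3
        rw [h4, h5, hi]
    rw [h1]
    have hk : ∀ u v : V, (lq r p ∘ (Sum.inl : V → V ⊕ Fin m)) u = (lq r p ∘ (Sum.inl : V → V ⊕ Fin m)) v ↔
        u = v ∨ ∃ i i', u = r i ∧ v = r i' ∧ p (.inl i) = p (.inl i') := fun u v => glab23_ker hr p u v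
    by_cases h01 : p (.inl 0) = p (.inl 1)
    · rw [if_pos h01]
      by_cases h02 : p (.inl 0) = p (.inl 2)
      · rw [if_pos h02]
        refine mer_ker _ _ (fun u v => ?_) s t x
        rw [hk, glab23_mg3_ker]
        constructor
        · rintro (h | ⟨i, i', rfl, rfl, _⟩)
          · exact Or.inl h
          · refine Or.inr ⟨?_, ?_⟩
            · fin_cases i <;> simp
            · fin_cases i' <;> simp
        · rintro (h | ⟨h, h'⟩)
          · exact Or.inl h
          · have ha : ∀ w, (w = r 0 ∨ w = r 1 ∨ w = r 2) → ∃ i, w = r i ∧ p (.inl i) = p (.inl 0) := by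
              rintro w (hw | hw | hw)
              · exact ⟨0, hw, rfl⟩
              · exact ⟨1, hw, h01.symm⟩
              · exact ⟨2, hw, h02.symm⟩
            obtain ⟨i, hi, hi'⟩ := ha u h
            obtain ⟨k, hk, hk'⟩ := ha v h'
            exact Or.inr ⟨i, k, hi, hk, hi'.trans hk'.symm⟩
      · rw [if_neg h02]
        refine mer_ker _ _ (fun u v => ?_) s t x
        rw [hk, glab23_mg_ker]
        constructor
        · rintro (h | ⟨i, i', rfl, rfl, hp⟩)
          · exact Or.inl h
          · have h12 : ¬ p (.inl 1) = p (.inl 2) := fun hc => h02 (h01.trans hc)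
            fin_cases i <;> fin_cases i' <;> first
              | exact Or.inl rfl
              | exact absurd hp h02
              | exact absurd hp.symm h02
              | exact absurd hp h12
              | exact absurd hp.symm h12
              | (right; simp)
        · rintro (h | ⟨h, h'⟩)
          · exact Or.inl h
          · have ha : ∀ w, (w = r 0 ∨ w = r 1) → ∃ i, w = r i ∧ p (.inl i) = p (.inl 0) := by
              rintro w (hw | hw)
              · exact ⟨0, hw, rfl⟩
              · exact ⟨1, hw, h01.symm⟩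
            obtain ⟨i, hi, hi'⟩ := ha u h
            obtain ⟨k, hk, hk'⟩ := ha v h'
            exact Or.inr ⟨i, k, hi, hk, hi'.trans hk'.symm⟩
    · rw [if_neg h01]
      by_cases h02 : p (.inl 0) = p (.inl 2)
      · rw [if_pos h02]
        refine mer_ker _ _ (fun u v => ?_) s t x
        rw [hk, glab23_mg_ker]
        constructor
        · rintro (h | ⟨i, i', rfl, rfl, hp⟩)
          · exact Or.inl h
          · have h12 : ¬ p (.inl 1) = p (.inl 2) := fun hc => h01 (h02.trans hc.symm)
            fin_cases i <;> fin_cases i' <;> first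
              | exact Or.inl rfl
              | exact absurd hp h01
              | exact absurd hp.symm h01
              | exact absurd hp h12
              | exact absurd hp.symm h12
              | (right; simp)
        · rintro (h | ⟨h, h'⟩)
          · exact Or.inl h
          · have ha : ∀ w, (w = r 0 ∨ w = r 2) → ∃ i, w = r i ∧ p (.inl i) = p (.inl 0) := by
              rintro w (hw | hw)
              · exact ⟨0, hw, rfl⟩
              · exact ⟨2, hw, h02.symm⟩
            obtain ⟨i, hi, hi'⟩ := ha u h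
            obtain ⟨k, hk, hk'⟩ := ha v h'
            exact Or.inr ⟨i, k, hi, hk, hi'.trans hk'.symm⟩
      · rw [if_neg h02]
        by_cases h12 : p (.inl 1) = p (.inl 2)
        · rw [if_pos h12]
          refine mer_ker _ _ (fun u v => ?_) s t x
          rw [hk, glab23_mg_ker]
          constructor
          · rintro (h | ⟨i, i', rfl, rfl, hp⟩)
            · exact Or.inl h
            · fin_cases i <;> fin_cases i' <;> first
                | exact Or.inl rfl
                | exact absurd hp h01
                | exact absurd hp.symm h01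
                | exact absurd hp h02
                | exact absurd hp.symm h02
                | (right; simp)
          · rintro (h | ⟨h, h'⟩)
            · exact Or.inl h
            · have ha : ∀ w, (w = r 1 ∨ w = r 2) → ∃ i, w = r i ∧ p (.inl i) = p (.inl 1) := by
                rintro w (hw | hw)
                · exact ⟨1, hw, rfl⟩
                · exact ⟨2, hw, h12.symm⟩
              obtain ⟨i, hi, hi'⟩ := ha u h
              obtain ⟨k, hk, hk'⟩ := ha v h'
              exact Or.inr ⟨i, k, hi, hk, hi'.trans hk'.symm⟩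
        · rw [if_neg h12]
          refine mer_inj _ (fun u v huv => ?_) s t x
          rcases (hk u v).1 huv with h | ⟨i, i', rfl, rfl, hp⟩
          · exact h
          · fin_cases i <;> fin_cases i' <;> first
              | rfl
              | exact absurd hp h01
              | exact absurd hp.symm h01
              | exact absurd hp h02
              | exact absurd hp.symm h02
              | exact absurd hp h12
              | exact absurd hp.symm h12

private theorem glab23_edge {V W E E' K : Type} [Fintype V] [Fintype E] [Fintype E'] [CommRing K] (ρ : V → W)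
    (g : E ≃ E') (s' t' : E' → V) (x : E' → K) : mer ρ s' t' x = mer ρ (s' ∘ g) (t' ∘ g) (x ∘ g) := by
  classical
  have : Fintype (Set.range ρ) := Fintype.ofFinite _
  rw [glab23_mer_eq ρ (Set.rangeFactorization ρ) (glab23_rf_surj ρ) (fun u v => (glab23_rf ρ u v).symm),
    glab23_mer_eq ρ (Set.rangeFactorization ρ) (glab23_rf_surj ρ) (fun u v => (glab23_rf ρ u v).symm),
    sym_eq_tht, sym_eq_tht]
  exact tht_iso (Equiv.refl _) g (Set.rangeFactorization ρ ∘ s' ∘ g) (Set.rangeFactorization ρ ∘ t' ∘ g)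
    (Set.rangeFactorization ρ ∘ s') (Set.rangeFactorization ρ ∘ t') (fun e => rfl) (fun e => rfl) 1 x

/-- The first of the new edges is split off. -/
private def glab23_eq (E : Type) (n : ℕ) : Option (E ⊕ Fin n) ≃ E ⊕ Fin (n + 1) where
  toFun o := o.elim (.inr 0) (Sum.map id Fin.succ)
  invFun := Sum.elim (fun e => some (.inl e)) (Fin.cons none fun i => some (.inr i))
  left_inv o := by
    cases o with
    | none => rfl
    | some w => cases w <;> rfl
  right_inv w := by
    cases w with
    | inl e => rfl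
    | inr i => refine Fin.cases ?_ (fun j => ?_) i <;> rfl

/-- MODULE g_le (1).

Proof.  Induction on `n`, for all `p`.  `n = 0`: `mer_lf` (the edges `E ⊕ Fin 0` are `E`: `mer` is a `sym`, `sym_eq_tht`, `tht_iso` with `Equiv.refl` on the
vertices; it is useful to prove first that `mer ρ s' t' x = mer ρ s t (x ∘ g)` if `g : E ≃ E'`, `s' ∘ g = s`, `t' ∘ g = t`).
`n + 1`: `E ⊕ Fin (n + 1) ≃ Option (E ⊕ Fin n)` (`Fin.cons` / `Fin.succ`), the graph is `ae (lv r (A 0)) _`, `ae (lv r (B 0)) _`; `mer_ae`, `mer_ae_loop` with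
`lq_lv`, `mg_lq`, and `List.ofFn_succ`. -/
theorem mer_lev (s t : E → V) {r : Fin 3 → V} (hr : Function.Injective r) (n : ℕ) (A B : Fin n → Lb m)
    (y : E ⊕ Fin n → K) (p : Lb m → Lb m) :
    mer (lq r p) (Sum.elim (fun e => (Sum.inl (s e) : V ⊕ Fin m)) fun i => lv r (A i))
        (Sum.elim (fun e => Sum.inl (t e)) fun i => lv r (B i)) y =
      lbv (vec s t (fun e => y (.inl e)) (r 0) (r 1) (r 2)) (List.ofFn fun i => (A i, B i, y (.inr i))) p := by
  induction n generalizing p with
  | zero =>
    rw [List.ofFn_zero, glab23_edge (lq r p) (Equiv.sumEmpty E (Fin 0)).symm]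
    exact mer_lf s t hr (fun e => y (.inl e)) p
  | succ n ih =>
    rw [glab23_edge (lq r p) (glab23_eq E n)]
    have h1 : (Sum.elim (fun e => (Sum.inl (s e) : V ⊕ Fin m)) fun i => lv r (A i)) ∘ glab23_eq E n =
        ae (lv r (A 0)) (Sum.elim (fun e => (Sum.inl (s e) : V ⊕ Fin m)) fun i => lv r (A i.succ)) := by
      funext o
      cases o with
      | none => rfl
      | some w => cases w <;> rfl
    have h2 : (Sum.elim (fun e => (Sum.inl (t e) : V ⊕ Fin m)) fun i => lv r (B i)) ∘ glab23_eq E n =
        ae (lv r (B 0)) (Sum.elim (fun e => (Sum.inl (t e) : V ⊕ Fin m)) fun i => lv r (B i.succ)) := by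
      funext o
      cases o with
      | none => rfl
      | some w => cases w <;> rfl
    have ih' := ih (fun i => A i.succ) (fun i => B i.succ) ((y ∘ glab23_eq E n) ∘ some)
    rw [h1, h2, List.ofFn_succ]
    change _ = y (.inr 0) * lbv _ (List.ofFn fun i : Fin n => (A i.succ, B i.succ, y (.inr i.succ))) p +
      if p (A 0) = p (B 0) then 0 else
        lbv _ (List.ofFn fun i : Fin n => (A i.succ, B i.succ, y (.inr i.succ)))
          fun l => mgl (p (A 0)) (p (B 0)) (p l)
    by_cases hab : p (A 0) = p (B 0)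
    · rw [if_pos hab, mer_ae_loop _ _ _ _ _ _ (by rw [lq_lv hr, lq_lv hr, hab]), ih' p, add_zero]
      rfl
    · rw [if_neg hab, mer_ae _ _ _ _ _ _ (by
        rw [lq_lv hr, lq_lv hr]
        exact fun hc => hab (Sum.inr.inj hc)), lq_lv hr, lq_lv hr, mg_lq, ih' p, ih']
      rfl

private theorem glab23_inj {V : Type} [Fintype V] {m : ℕ} {r : Fin 3 → V} (hr : Function.Injective r) :
    Function.Injective (lq (m := m) r id) := by
  intro u v huv
  rcases (lq_ker hr id u v).1 huv with h | ⟨l, l', hl, hl', hp⟩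
  · exact h
  · rw [hl, hl']
    exact congrArg (lv r) hp

private theorem glab23_mg {V : Type} [Fintype V] {m : ℕ} {r : Fin 3 → V} (hr : Function.Injective r) (a b : Lb m) :
    lq r id ∘ mg (lv r a) (lv r b) = lq r (mgl a b) := by
  funext u
  rcases glab23_cases r u with ⟨l, rfl⟩ | ⟨w, rfl, hw⟩
  · rw [Function.comp_apply, lq_lv hr]
    unfold mg mgl
    by_cases h : l = b
    · rw [if_pos h, if_pos (by rw [h]), lq_lv hr]
      rfl
    · rw [if_neg h, if_neg (fun hc => h (lv_inj hr hc)), lq_lv hr]
      rfl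
  · rw [Function.comp_apply, lq_other _ hw]
    unfold mg
    rw [if_neg (fun hc => glab23_lv_ne r hw b hc.symm), lq_other _ hw]

private theorem glab23_mg3 {V : Type} [Fintype V] {m : ℕ} {r : Fin 3 → V} (hr : Function.Injective r) (a b c : Lb m) :
    lq r id ∘ mg3 (lv r a) (lv r b) (lv r c) = lq r (mg3l a b c) := by
  funext u
  rcases glab23_cases r u with ⟨l, rfl⟩ | ⟨w, rfl, hw⟩
  · rw [Function.comp_apply, lq_lv hr]
    unfold mg3 mg3l
    by_cases h : l = b ∨ l = c
    · rw [if_pos h, if_pos (h.imp (fun h => by rw [h]) (fun h => by rw [h])), lq_lv hr]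
      rfl
    · rw [if_neg h, if_neg (fun hc => h (hc.imp (fun hc => lv_inj hr hc) (fun hc => lv_inj hr hc))), lq_lv hr]
      rfl
  · rw [Function.comp_apply, lq_other _ hw]
    unfold mg3
    rw [if_neg (fun hc => hc.elim (fun hc => glab23_lv_ne r hw b hc.symm) (fun hc => glab23_lv_ne r hw c hc.symm)),
      lq_other _ hw]

/-- MODULE g_le (2).

Proof.  `mer_inj`, `mer_ker` (with `lq_ker`, `lv_inj`) and `mer_lev`: `sym` is `mer (lq r id)`, `mer (mg (lv r a) (lv r b))` is `mer (lq r (mgl a b))`,
`mer (mg3 (lv r a) (lv r b) (lv r c))` is `mer (lq r (mg3l a b c))`. -/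
theorem vec_lev (s t : E → V) {r : Fin 3 → V} (hr : Function.Injective r) (n : ℕ) (A B : Fin n → Lb m)
    (y : E ⊕ Fin n → K) (a b c : Lb m) :
    vec (Sum.elim (fun e => (Sum.inl (s e) : V ⊕ Fin m)) fun i => lv r (A i))
        (Sum.elim (fun e => Sum.inl (t e)) fun i => lv r (B i)) y (lv r a) (lv r b) (lv r c) =
      ⟨lbv (vec s t (fun e => y (.inl e)) (r 0) (r 1) (r 2)) (List.ofFn fun i => (A i, B i, y (.inr i))) id,
       lbv (vec s t (fun e => y (.inl e)) (r 0) (r 1) (r 2)) (List.ofFn fun i => (A i, B i, y (.inr i))) (mgl a b),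
       lbv (vec s t (fun e => y (.inl e)) (r 0) (r 1) (r 2)) (List.ofFn fun i => (A i, B i, y (.inr i))) (mgl a c),
       lbv (vec s t (fun e => y (.inl e)) (r 0) (r 1) (r 2)) (List.ofFn fun i => (A i, B i, y (.inr i))) (mgl b c),
       lbv (vec s t (fun e => y (.inl e)) (r 0) (r 1) (r 2)) (List.ofFn fun i => (A i, B i, y (.inr i)))
         (mg3l a b c)⟩ := by
  have h0 : ∀ S T : E ⊕ Fin n → V ⊕ Fin m, sym S T y = mer (lq r id) S T y := fun S T =>
    (mer_inj _ (glab23_inj hr) S T y).symm
  have h1 : ∀ (a b : Lb m) (S T : E ⊕ Fin n → V ⊕ Fin m),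
      mer (mg (lv r a) (lv r b)) S T y = mer (lq r (mgl a b)) S T y := by
    intro a b S T
    rw [← glab23_mg hr]
    exact mer_ker _ _ (fun u v => ((glab23_inj hr).eq_iff).symm) S T y
  have h2 : ∀ (S T : E ⊕ Fin n → V ⊕ Fin m),
      mer (mg3 (lv r a) (lv r b) (lv r c)) S T y = mer (lq r (mg3l a b c)) S T y := by
    intro S T
    rw [← glab23_mg3 hr]
    exact mer_ker _ _ (fun u v => ((glab23_inj hr).eq_iff).symm) S T y
  unfold vec
  rw [h0, h1, h1, h1, h2, mer_lev s t hr, mer_lev s t hr, mer_lev s t hr, mer_lev s t hr, mer_lev s t hr]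
  rfl

end

end Pool.Agent.Pf4
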