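import Pool.Agent.Pf4.GLab
import Pool.Agent.Pf4.BOp

/-!
# The letters are the linear maps `XA`, `XH`
-/

set_option autoImplicit false

open scoped BigOperators

namespace Pool.Agent.Pf4

open Pool.Agent.KG

/-- The vector with the coordinates `w`. -/
def wp {K : Type} [CommRing K] (w : W5 K) : V5 K := ⟨w.x0, w.x1 + w.x2, w.x1 + w.x3, w.x2 + w.x3, w.x4⟩

/-- The edges of the move `a`. -/
def lA {K : Type} (a b c d : K) : List (Lb 2 × Lb 2 × K) :=
  [(.inl 0, .inr 0, a), (.inl 0, .inr 1, b), (.inl 1, .inr 0, c), (.inl 1, .inr 1, d)]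

/-- The edges of the move `h`. -/
def lH {K : Type} (a b c d e f : K) : List (Lb 3 × Lb 3 × K) :=
  [(.inl 0, .inr 1, a), (.inl 0, .inr 2, b), (.inl 1, .inr 0, c), (.inl 1, .inr 2, d), (.inl 2, .inr 0, e),
    (.inl 2, .inr 1, f)]

section

variable {K : Type} [CommRing K]

/-- MODULE g_a.  Evaluation: `simp [lbv, lf, mgl, mg3l, lA, wp, XA]` or `decide`-ing the conditions (they are closed), then `ring`. -/
theorem lev_A (a b c d : K) (w : W5 K) :
    lbv (wp w) (lA a b c d) id = (XA a b c d w).x0 ∧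
    lbv (wp w) (lA a b c d) (mgl (.inr 0) (.inr 1)) = (XA a b c d w).x1 + (XA a b c d w).x2 ∧
    lbv (wp w) (lA a b c d) (mgl (.inr 0) (.inl 2)) = (XA a b c d w).x1 + (XA a b c d w).x3 ∧
    lbv (wp w) (lA a b c d) (mgl (.inr 1) (.inl 2)) = (XA a b c d w).x2 + (XA a b c d w).x3 ∧
    lbv (wp w) (lA a b c d) (mg3l (.inr 0) (.inr 1) (.inl 2)) = (XA a b c d w).x4 := by
  refine ⟨?_, ?_, ?_, ?_, ?_⟩ <;>
  · simp [lbv, lf, mgl, mg3l, lA, wp, XA, Fin.exists_fin_two, Fin.forall_fin_succ]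
    try ring

/-- MODULE g_h1.  The first two values for `h` (64 leaves each). -/
theorem lev_H1 (a b c d e f : K) (w : W5 K) :
    lbv (wp w) (lH a b c d e f) id = (XH a b c d e f w).x0 ∧
    lbv (wp w) (lH a b c d e f) (mgl (.inr 0) (.inr 1)) = (XH a b c d e f w).x1 + (XH a b c d e f w).x2 := by
  refine ⟨?_, ?_⟩ <;>
  · simp [lbv, lf, mgl, lH, wp, XH, Fin.exists_fin_succ, Fin.forall_fin_succ]
    try ring

/-- MODULE g_h2. -/
theorem lev_H2 (a b c d e f : K) (w : W5 K) :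
    lbv (wp w) (lH a b c d e f) (mgl (.inr 0) (.inr 2)) = (XH a b c d e f w).x1 + (XH a b c d e f w).x3 ∧
    lbv (wp w) (lH a b c d e f) (mgl (.inr 1) (.inr 2)) = (XH a b c d e f w).x2 + (XH a b c d e f w).x3 ∧
    lbv (wp w) (lH a b c d e f) (mg3l (.inr 0) (.inr 1) (.inr 2)) = (XH a b c d e f w).x4 := by
  refine ⟨?_, ?_, ?_⟩ <;>
  · simp [lbv, lf, mgl, mg3l, lH, wp, XH, Fin.exists_fin_succ, Fin.forall_fin_succ]
    ring

end

section

variable {V E K : Type} [Fintype V] [Fintype E] [Field K] [Fintype K]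

/-- MODULE g_ex (1). -/
theorem exR_inj (x : Lt) {r : Fin 3 → V} (hr : Function.Injective r) : Function.Injective (exR x r) := by
  have h1 : Function.Injective (Sum.map r (id : Fin x.m → Fin x.m)) := hr.sumMap Function.injective_id
  have h2 : Function.Injective x.lR := by
    cases x with
    | a =>
      have h : Function.Injective (![.inr 0, .inr 1, .inl 2] : Fin 3 → Fin 3 ⊕ Fin 2) := by decide
      exact h
    | b =>
      have h : Function.Injective (![.inl 0, .inr 0, .inr 1] : Fin 3 → Fin 3 ⊕ Fin 2) := by decide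
      exact h
    | c =>
      have h : Function.Injective (![.inr 1, .inl 1, .inr 0] : Fin 3 → Fin 3 ⊕ Fin 2) := by decide
      exact h
    | h =>
      have h : Function.Injective (![.inr 0, .inr 1, .inr 2] : Fin 3 → Fin 3 ⊕ Fin 3) := by decide
      exact h
  exact h1.comp h2

/-- MODULE g_ex (2).

Proof.  `wv_eq` for the new graph; it is `Sum.elim (inl ∘ s) (fun i => lv r (inl (Lt.a.lS i)))` etc. (by `rfl`), the slot is `lv r ∘ Lt.a.lR`; `vec_lev`
with `n = 4`; the list is `lA ..` (`List.ofFn` of four elements, `rfl` / `simp`), `vec s t _ (r 0) (r 1) (r 2) = wp (wv ..)` by `wv_spec`; `lev_A`; `X_iso`. -/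
theorem wv_a (s t : E → V) {r : Fin 3 → V} (hr : Function.Injective r) (y : E ⊕ Fin Lt.a.n → K) :
    wv (exS .a s r) (exT .a t) (exR .a r) y =
      Lt.a.X (fun i => y (.inr i)) (wv s t r fun e => y (.inl e)) := by
  suffices H : ∀ z : E ⊕ Fin 4 → K, wv (V := V ⊕ Fin 2) (E := E ⊕ Fin 4) (exS .a s r) (exT .a t) (exR .a r) z =
      XA (z (.inr 0)) (z (.inr 1)) (z (.inr 2)) (z (.inr 3)) (wv s t r fun e => z (.inl e)) from H y
  intro z
  obtain ⟨hi, hv⟩ := wv_spec s t hr (fun e => z (.inl e))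
  refine wv_eq _ _ (exR_inj .a hr) z ⟨X_iso .a (fun i => z (.inr i)) hi, ?_⟩
  have key := vec_lev (m := 2) s t hr 4 (fun i => Sum.inl (Lt.a.lS i)) (fun i => Sum.inr (Lt.a.lT i)) z
    (.inr 0) (.inr 1) (.inl 2)
  obtain ⟨h1, h2, h3, h4, h5⟩ := lev_A (z (.inr 0)) (z (.inr 1)) (z (.inr 2)) (z (.inr 3))
    (wv s t r fun e => z (.inl e))
  have hl : (List.ofFn fun i : Fin 4 => ((Sum.inl (Lt.a.lS i) : Lb 2), (Sum.inr (Lt.a.lT i) : Lb 2), z (.inr i))) =
      lA (z (.inr 0)) (z (.inr 1)) (z (.inr 2)) (z (.inr 3)) := rfl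
  rw [hv, hl] at key
  exact key.trans (V5.ext h1 h2 h3 h4 h5)

/-- MODULE g_ex (3). -/
theorem wv_h (s t : E → V) {r : Fin 3 → V} (hr : Function.Injective r) (y : E ⊕ Fin Lt.h.n → K) :
    wv (exS .h s r) (exT .h t) (exR .h r) y =
      Lt.h.X (fun i => y (.inr i)) (wv s t r fun e => y (.inl e)) := by
  suffices H : ∀ z : E ⊕ Fin 6 → K, wv (V := V ⊕ Fin 3) (E := E ⊕ Fin 6) (exS .h s r) (exT .h t) (exR .h r) z =
      XH (z (.inr 0)) (z (.inr 1)) (z (.inr 2)) (z (.inr 3)) (z (.inr 4)) (z (.inr 5))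
        (wv s t r fun e => z (.inl e)) from H y
  intro z
  obtain ⟨hi, hv⟩ := wv_spec s t hr (fun e => z (.inl e))
  refine wv_eq _ _ (exR_inj .h hr) z ⟨X_iso .h (fun i => z (.inr i)) hi, ?_⟩
  have key := vec_lev (m := 3) s t hr 6 (fun i => Sum.inl (Lt.h.lS i)) (fun i => Sum.inr (Lt.h.lT i)) z
    (.inr 0) (.inr 1) (.inr 2)
  obtain ⟨h1, h2⟩ := lev_H1 (z (.inr 0)) (z (.inr 1)) (z (.inr 2)) (z (.inr 3)) (z (.inr 4)) (z (.inr 5))
    (wv s t r fun e => z (.inl e))
  obtain ⟨h3, h4, h5⟩ := lev_H2 (z (.inr 0)) (z (.inr 1)) (z (.inr 2)) (z (.inr 3)) (z (.inr 4)) (z (.inr 5))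
    (wv s t r fun e => z (.inl e))
  have hl : (List.ofFn fun i : Fin 6 => ((Sum.inl (Lt.h.lS i) : Lb 3), (Sum.inr (Lt.h.lT i) : Lb 3), z (.inr i))) =
      lH (z (.inr 0)) (z (.inr 1)) (z (.inr 2)) (z (.inr 3)) (z (.inr 4)) (z (.inr 5)) := rfl
  rw [hv, hl] at key
  exact key.trans (V5.ext h1 h2 h3 h4 h5)

/-- MODULE g_bc (1).

Proof.  With `r' i = r (i + 1)`: `exS .b s r = exS .a s r'`, `exR .b r = fun i => exR .a r' (i + 2)` (`funext`, `fin_cases`), `wv_tr` for the new graph, `wv_a` and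
`wv_rt` for the old one. -/
theorem wv_b (s t : E → V) {r : Fin 3 → V} (hr : Function.Injective r) (y : E ⊕ Fin Lt.b.n → K) :
    wv (exS .b s r) (exT .b t) (exR .b r) y =
      Lt.b.X (fun i => y (.inr i)) (wv s t r fun e => y (.inl e)) := by
  have hr2 : Function.Injective fun i : Fin 3 => r (i + 1) := fun i j h => add_right_cancel (hr h)
  have hS : exS .b s r = exS .a s fun i => r (i + 1) := by
    funext e
    rcases e with e | i
    · rfl
    · have : ∀ i : Fin 4, (exS .b s r (.inr i) : V ⊕ Fin 2) = exS .a s (fun i => r (i + 1)) (.inr i) := by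
        intro i
        fin_cases i <;> rfl
      exact this i
  have hR : exR .b r = fun i => exR .a (fun i => r (i + 1)) (i + 2) := by
    funext i
    fin_cases i <;> rfl
  rw [hR, hS]
  suffices H : ∀ z : E ⊕ Fin Lt.a.n → K, wv (exS .a s fun i => r (i + 1)) (exT .a t)
      (fun i => exR .a (fun i => r (i + 1)) (i + 2)) z =
      (Lt.a.X (fun i => z (.inr i)) (wv s t r fun e => z (.inl e)).rt).tr from H y
  intro z
  rw [wv_tr _ _ (exR_inj .a hr2) z, wv_a s t hr2 z, wv_rt s t hr]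

/-- MODULE g_bc (2).  The same with `r' i = r (i + 2)`, `exR .c r = fun i => exR .a r' (i + 1)`. -/
theorem wv_c (s t : E → V) {r : Fin 3 → V} (hr : Function.Injective r) (y : E ⊕ Fin Lt.c.n → K) :
    wv (exS .c s r) (exT .c t) (exR .c r) y =
      Lt.c.X (fun i => y (.inr i)) (wv s t r fun e => y (.inl e)) := by
  have hr2 : Function.Injective fun i : Fin 3 => r (i + 2) := fun i j h => add_right_cancel (hr h)
  have hS : exS .c s r = exS .a s fun i => r (i + 2) := by
    funext e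
    rcases e with e | i
    · rfl
    · have : ∀ i : Fin 4, (exS .c s r (.inr i) : V ⊕ Fin 2) = exS .a s (fun i => r (i + 2)) (.inr i) := by
        intro i
        fin_cases i <;> rfl
      exact this i
  have hR : exR .c r = fun i => exR .a (fun i => r (i + 2)) (i + 1) := by
    funext i
    fin_cases i <;> rfl
  rw [hR, hS]
  suffices H : ∀ z : E ⊕ Fin Lt.a.n → K, wv (exS .a s fun i => r (i + 2)) (exT .a t)
      (fun i => exR .a (fun i => r (i + 2)) (i + 1)) z =
      (Lt.a.X (fun i => z (.inr i)) (wv s t r fun e => z (.inl e)).tr).rt from H y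
  intro z
  rw [wv_rt _ _ (exR_inj .a hr2) z, wv_a s t hr2 z, wv_tr s t hr]

theorem wv_ex (x : Lt) (s t : E → V) {r : Fin 3 → V} (hr : Function.Injective r) (y : E ⊕ Fin x.n → K) :
    wv (exS x s r) (exT x t) (exR x r) y = x.X (fun i => y (.inr i)) (wv s t r fun e => y (.inl e)) := by
  cases x with
  | a => exact wv_a s t hr y
  | b => exact wv_b s t hr y
  | c => exact wv_c s t hr y
  | h => exact wv_h s t hr y

end

end Pool.Agent.Pf4
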