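import Pool.Agent.Pf4.GTri
import Pool.Agent.Pf4.GPrim

/-!
# Relabelings
-/

set_option autoImplicit false

open scoped BigOperators Classical

namespace Pool.Agent.Pf4

open Pool.Agent.KG

section

variable {V E W W' K : Type} [Fintype V] [Fintype E] [Fintype W] [Fintype W'] [Field K] [Fintype K]

/-- Exchange of the last two summands. -/
def sw3 (α β γ : Type) : (α ⊕ β) ⊕ γ ≃ (α ⊕ γ) ⊕ β where
  toFun := Sum.elim (Sum.elim (fun a => .inl (.inl a)) fun b => .inr b) fun c => .inl (.inr c)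
  invFun := Sum.elim (Sum.elim (fun a => .inl (.inl a)) fun c => .inr c) fun b => .inl (.inr b)
  left_inv := by rintro ((a | b) | c) <;> rfl
  right_inv := by rintro ((a | c) | b) <;> rfl

/-- Three elements more. -/
def op3 (α : Type) : α × Fin 3 ⊕ Fin 3 ≃ Option α × Fin 3 where
  toFun := Sum.elim (fun p => (some p.1, p.2)) fun i => (none, i)
  invFun := fun p => match p with
    | (none, i) => .inr i
    | (some a, i) => .inl (a, i)
  left_inv := by rintro (⟨a, i⟩ | i) <;> rfl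
  right_inv := by rintro ⟨_ | a, i⟩ <;> rfl

/-- The slots: one and the others. -/
def eqE (E : Type) {W W' : Type} (e : Option W' ≃ W) : (E ⊕ W' × Fin 3) ⊕ Fin 3 ≃ E ⊕ W × Fin 3 :=
  (Equiv.sumAssoc E (W' × Fin 3) (Fin 3)).trans
    (Equiv.sumCongr (Equiv.refl E) ((op3 W').trans (Equiv.prodCongr e (Equiv.refl (Fin 3)))))

/-- The vertices: one and the others. -/
def opV (V α : Type) : Option (V ⊕ α) ≃ V ⊕ Option α where
  toFun := fun p => match p with
    | none => .inr none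
    | some (.inl v) => .inl v
    | some (.inr a) => .inr (some a)
  invFun := Sum.elim (fun v => some (.inl v)) fun o => o.map .inr
  left_inv := by rintro (_ | (v | a)) <;> rfl
  right_inv := by rintro (v | (_ | a)) <;> rfl

/-- MODULE g_r1 (1).  `PrG.iso` with `Equiv.refl V` and `(E ⊕ W × Fin 3) ⊕ Fin 3 ≃ (E ⊕ Fin 3) ⊕ W × Fin 3`. -/
theorem r1_prim {s t : E → V} {τ : W → Fin 3 → V} {r : Fin 3 → V} (h : PrG (trS (tfS s τ) r) (trT (tfT t τ) r)) :
    PrG (tfS (trS s r) τ) (tfT (trT t r) τ) := by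
  refine PrG.iso (Equiv.refl V) (sw3 E (W × Fin 3) (Fin 3)) ?_ h
  rintro ((a | b) | c) <;> exact Or.inl ⟨rfl, rfl⟩

/-- MODULE g_r1 (2).  `NS_iso`. -/
theorem r1_ns (s t : E → V) (τ : W → Fin 3 → V) (r : Fin 3 → V) :
    NS (trS (flS s τ) fun i => .inl (r i)) (trT (flT t) fun i => .inl (r i)) K =
      NS (flS (trS s r) τ) (flT (trT t r)) K := by
  refine NS_iso (Equiv.refl (V ⊕ W)) (sw3 E (Fin 3) (W × Fin 3)) _ _ _ _ ?_ ?_
  · rintro ((a | b) | c) <;> rfl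
  · rintro ((a | b) | c) <;> rfl

/-- MODULE g_r2 (1).  `PrG.iso` with `Equiv.refl (V ⊕ Fin x.m)`. -/
theorem r2_prim (x : Lt) {s t : E → V} {τ : W → Fin 3 → V} {r : Fin 3 → V}
    (h : PrG (trS (exS x (tfS s τ) r) (exR x r)) (trT (exT x (tfT t τ)) (exR x r))) :
    PrG (trS (tfS (exS x s r) fun w i => Sum.inl (τ w i)) (exR x r))
      (trT (tfT (exT x t) fun w i => Sum.inl (τ w i)) (exR x r)) := by
  refine PrG.iso (Equiv.refl (V ⊕ Fin x.m)) (Equiv.sumCongr (sw3 E (W × Fin 3) (Fin x.n)) (Equiv.refl (Fin 3))) ?_ h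
  rintro (((a | b) | c) | d) <;> exact Or.inl ⟨rfl, rfl⟩

/-- MODULE g_r2 (2).  `SM_iso` with `(V ⊕ W) ⊕ Fin x.m ≃ (V ⊕ Fin x.m) ⊕ W` and `(E ⊕ W × Fin 3) ⊕ Fin x.n ≃ (E ⊕ Fin x.n) ⊕ W × Fin 3`. -/
theorem r2_sm (x : Lt) (s t : E → V) (τ : W → Fin 3 → V) (r : Fin 3 → V) (f : W5 K → ℝ) :
    SM (exS x (flS s τ) fun i => .inl (r i)) (exT x (flT t)) (exR x fun i => .inl (r i)) K f =
      SM (flS (exS x s r) fun w i => Sum.inl (τ w i)) (flT (exT x t)) (fun i => .inl (exR x r i)) K f := by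
  refine SM_iso (sw3 V (Fin x.m) W) (sw3 E (Fin x.n) (W × Fin 3)) _ _ _ _ ?_ ?_ _ _ ?_ f
  · rintro ((a | b) | c) <;> rfl
  · rintro ((a | b) | c) <;> rfl
  · intro i
    show Sum.map (fun j => (Sum.inl (r j) : V ⊕ W)) id (x.lR i) = sw3 V (Fin x.m) W (Sum.inl (Sum.map r id (x.lR i)))
    rcases x.lR i with a | b <;> rfl

/-- MODULE g_r3 (1).  `PrG.iso` with `Equiv.refl V`. -/
theorem r3_prim (e : Option W' ≃ W) {s t : E → V} {τ : W → Fin 3 → V} (h : PrG (tfS s τ) (tfT t τ)) :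
    PrG (trS (tfS s fun w => τ (e (some w))) (τ (e none)))
      (trT (tfT t fun w => τ (e (some w))) (τ (e none))) := by
  refine PrG.iso (Equiv.refl V) (eqE E e).symm ?_ h
  intro y
  obtain ⟨a, rfl⟩ := (eqE E e).surjective y
  rw [Equiv.symm_apply_apply]
  rcases a with ((a | a) | a) <;> exact Or.inl ⟨rfl, rfl⟩

/-- MODULE g_r3 (2).  `NS_iso` with `V ⊕ W ≃ Option (V ⊕ W')`. -/
theorem r3_ns (e : Option W' ≃ W) (s t : E → V) (τ : W → Fin 3 → V) :
    NS (flS s τ) (flT t) K =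
      NS (stS (flS s fun w => τ (e (some w))) fun i => .inl (τ (e none) i)) (stT (flT t)) K := by
  refine NS_iso ((opV V W').trans (Equiv.sumCongr (Equiv.refl V) e)) (eqE E e) _ _ _ _ ?_ ?_
  · rintro ((a | b) | c) <;> rfl
  · rintro ((a | b) | c) <;> rfl

/-- MODULE g_r4 (1). -/
theorem r4_prim [IsEmpty W] {s t : E → V} {τ : W → Fin 3 → V} (h : PrG (tfS s τ) (tfT t τ)) : PrG s t := by
  refine PrG.iso (Equiv.refl V) (Equiv.sumEmpty E (W × Fin 3)) ?_ h
  rintro (a | p)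
  · exact Or.inl ⟨rfl, rfl⟩
  · exact isEmptyElim p.1

/-- MODULE g_r4 (2). -/
theorem r4_ns [IsEmpty W] (s t : E → V) (τ : W → Fin 3 → V) : NS (flS s τ) (flT t) K = NS s t K := by
  refine NS_iso (Equiv.sumEmpty V W).symm (Equiv.sumEmpty E (W × Fin 3)).symm _ _ _ _ ?_ ?_
  · intro e
    rfl
  · intro e
    rfl

end

end Pool.Agent.Pf4
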