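import Pool.Agent.Pf4.GDefs

/-!
# The vector of a network: five coordinates on the quadric
-/

set_option autoImplicit false

open scoped BigOperators Classical

namespace Pool.Agent.Pf4

open Pool.Agent.KG

section

variable {V V' E E' K : Type} [Fintype V] [Fintype V'] [Fintype E] [Fintype E'] [Field K]

/-- MODULE g_rp (1).

Proof.  Let `d i = w'.xi - w.xi`.  The three sums give `d1 + d2 = 0`, `d1 + d3 = 0`, `d2 + d3 = 0`, so `d2 = d3 = - d1`, `2 d1 = 0`, and `x0`, `x4` agree.
`W5.Iso` for both: `x1' x2' + x1' x3' + x2' x3' = x1 x2 + x1 x3 + x2 x3`, the difference is `- 2 d1 x1 - d1 ^ 2 = - d1 ^ 2`, so `d1 = 0`. -/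
theorem rp_unique {v : V5 K} {w w' : W5 K} (h : Rp v w) (h' : Rp v w') : w = w' := by
  obtain ⟨i, e⟩ := h
  obtain ⟨i', e'⟩ := h'
  rw [e] at e'
  have h0 : w.x0 = w'.x0 := congrArg V5.A e'
  have h12 : w.x1 + w.x2 = w'.x1 + w'.x2 := congrArg V5.P12 e'
  have h13 : w.x1 + w.x3 = w'.x1 + w'.x3 := congrArg V5.P13 e'
  have h23 : w.x2 + w.x3 = w'.x2 + w'.x3 := congrArg V5.P23 e'
  have h4 : w.x4 = w'.x4 := congrArg V5.C e'
  unfold W5.Iso at i i'
  obtain ⟨d, hd⟩ : ∃ d, d = w'.x1 - w.x1 := ⟨_, rfl⟩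
  have e1 : w'.x1 = w.x1 + d := by rw [hd]; ring
  have e2 : w'.x2 = w.x2 - d := by linear_combination -h12 - e1
  have e3 : w'.x3 = w.x3 - d := by linear_combination -h13 - e1
  have h2d : 2 * d = 0 := by linear_combination h23 + e2 + e3
  have hdd : d * d = 0 := by
    have hA : w'.x1 * w'.x2 + w'.x1 * w'.x3 + w'.x2 * w'.x3 = w.x1 * w.x2 + w.x1 * w.x3 + w.x2 * w.x3 := by
      rw [← i, ← i', h0, h4]
    rw [e1, e2, e3] at hA
    linear_combination -hA - w.x1 * h2d
  have hd0 : d = 0 := mul_self_eq_zero.1 hdd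
  rw [hd0] at e1 e2 e3
  ext
  · exact h0
  · rw [e1, add_zero]
  · rw [e2, sub_zero]
  · rw [e3, sub_zero]
  · exact h4

/-- MODULE g_rp (2).  With `σ` of `Rel`: `⟨v.A, σ - v.P23, σ - v.P13, σ - v.P12, v.C⟩`. -/
theorem rp_exists {v : V5 K} (h : v.Rel) : ∃ w, Rp v w := by
  obtain ⟨σ, h1, h2⟩ := h
  refine ⟨⟨v.A, σ - v.P23, σ - v.P13, σ - v.P12, v.C⟩, ?_, ?_⟩
  · show v.A * v.C = (σ - v.P23) * (σ - v.P13) + (σ - v.P23) * (σ - v.P12) + (σ - v.P13) * (σ - v.P12)
    rw [h2]
    linear_combination (2 * σ) * h1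
  · ext
    · rfl
    · show v.P12 = (σ - v.P23) + (σ - v.P13)
      linear_combination h1
    · show v.P13 = (σ - v.P23) + (σ - v.P12)
      linear_combination h1
    · show v.P23 = (σ - v.P13) + (σ - v.P12)
      linear_combination h1
    · rfl

/-- MODULE g_rp (3).  `vec_rel`, `rp_exists`. -/
theorem wv_spec (s t : E → V) {r : Fin 3 → V} (hr : Function.Injective r) (x : E → K) :
    Rp (vec s t x (r 0) (r 1) (r 2)) (wv s t r x) := by
  have h : ∃ w, Rp (vec s t x (r 0) (r 1) (r 2)) w :=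
    rp_exists (vec_rel s t x (r 0) (r 1) (r 2) (fun h => absurd (hr h) (by decide))
      (fun h => absurd (hr h) (by decide)) (fun h => absurd (hr h) (by decide)))
  unfold wv
  rw [dif_pos h]
  exact h.choose_spec

theorem wv_eq (s t : E → V) {r : Fin 3 → V} (hr : Function.Injective r) (x : E → K) {w : W5 K}
    (h : Rp (vec s t x (r 0) (r 1) (r 2)) w) : wv s t r x = w :=
  rp_unique (wv_spec s t hr x) h

private theorem h30_mg_ker {V : Type} (a b u v : V) :
    mg a b u = mg a b v ↔ u = v ∨ (u = a ∨ u = b) ∧ (v = a ∨ v = b) := by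
  unfold mg
  by_cases h1 : u = b <;> by_cases h2 : v = b
  · rw [if_pos h1, if_pos h2]
    subst h1
    subst h2
    simp
  · rw [if_pos h1, if_neg h2]
    constructor
    · intro h
      exact Or.inr ⟨Or.inr h1, Or.inl h.symm⟩
    · rintro (h | ⟨_, h | h⟩)
      · exact absurd (h.symm.trans h1) h2
      · exact h.symm
      · exact absurd h h2
  · rw [if_neg h1, if_pos h2]
    constructor
    · intro h
      exact Or.inr ⟨Or.inl h, Or.inr h2⟩
    · rintro (h | ⟨h | h, _⟩)
      · exact absurd (h.trans h2) h1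
      · exact h
      · exact absurd h h1
  · rw [if_neg h1, if_neg h2]
    constructor
    · intro h
      exact Or.inl h
    · rintro (h | ⟨h | h, h' | h'⟩)
      · exact h
      · exact h.trans h'.symm
      · exact absurd h' h2
      · exact absurd h h1
      · exact absurd h h1

private theorem h30_mg3_ker {V : Type} (a b c u v : V) :
    mg3 a b c u = mg3 a b c v ↔
      u = v ∨ (u = a ∨ u = b ∨ u = c) ∧ (v = a ∨ v = b ∨ v = c) := by
  unfold mg3
  by_cases h1 : u = b ∨ u = c <;> by_cases h2 : v = b ∨ v = c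
  · rw [if_pos h1, if_pos h2]
    exact ⟨fun _ => Or.inr ⟨Or.inr h1, Or.inr h2⟩, fun _ => rfl⟩
  · rw [if_pos h1, if_neg h2]
    constructor
    · intro h
      exact Or.inr ⟨Or.inr h1, Or.inl h.symm⟩
    · rintro (h | ⟨_, h | h⟩)
      · exact absurd (h ▸ h1) h2
      · exact h.symm
      · exact absurd h h2
  · rw [if_neg h1, if_pos h2]
    constructor
    · intro h
      exact Or.inr ⟨Or.inl h, Or.inr h2⟩
    · rintro (h | ⟨h | h, _⟩)
      · exact absurd (h.symm ▸ h2) h1
      · exact h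
      · exact absurd h h1
  · rw [if_neg h1, if_neg h2]
    constructor
    · intro h
      exact Or.inl h
    · rintro (h | ⟨h | h, h' | h'⟩)
      · exact h
      · exact h.trans h'.symm
      · exact absurd h' h2
      · exact absurd h h1
      · exact absurd h h1

private theorem h30_vec (s t : E → V) (x : E → K) (a b c : V) :
    vec s t x b c a = ⟨(vec s t x a b c).A, (vec s t x a b c).P23, (vec s t x a b c).P12,
      (vec s t x a b c).P13, (vec s t x a b c).C⟩ := by
  ext
  · rfl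
  · rfl
  · refine mer_ker _ _ (fun u v => ?_) s t x
    rw [h30_mg_ker, h30_mg_ker]
    tauto
  · refine mer_ker _ _ (fun u v => ?_) s t x
    rw [h30_mg_ker, h30_mg_ker]
    tauto
  · refine mer_ker _ _ (fun u v => ?_) s t x
    rw [h30_mg3_ker, h30_mg3_ker]
    tauto

/-- MODULE g_rt (1).

Proof.  `wv_eq` for the slot `fun i => r (i + 1)`, i.e. the terminals `r 1`, `r 2`, `r 0`: by `mer_ker` (the kernel of `mg a b` does not change if `a` and `b`
are exchanged, that of `mg3` does not change under permutations) `vec s t x (r 1) (r 2) (r 0)` is `vec s t x (r 0) (r 1) (r 2)` with `P12`, `P13`, `P23`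
replaced by `P23`, `P12`, `P13`; and `Rp` for it and `rt` follows from `wv_spec`. -/
theorem wv_rt (s t : E → V) {r : Fin 3 → V} (hr : Function.Injective r) (x : E → K) :
    wv s t (fun i => r (i + 1)) x = (wv s t r x).rt := by
  have hr' : Function.Injective fun i : Fin 3 => r (i + 1) := fun i j h => by
    have := hr h
    exact add_right_cancel this
  refine wv_eq s t hr' x ?_
  obtain ⟨h1, h2⟩ := wv_spec s t hr x
  have e0 : ((0 : Fin 3) + 1) = 1 := rfl
  have e1 : ((1 : Fin 3) + 1) = 2 := rfl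
  have e2 : ((2 : Fin 3) + 1) = 0 := rfl
  simp only [e0, e1, e2]
  rw [h30_vec, h2]
  unfold W5.Iso at h1
  refine ⟨?_, ?_⟩
  · show (wv s t r x).x0 * (wv s t r x).x4 = (wv s t r x).x2 * (wv s t r x).x3 +
      (wv s t r x).x2 * (wv s t r x).x1 + (wv s t r x).x3 * (wv s t r x).x1
    rw [h1]
    ring
  · ext
    · rfl
    · rfl
    · exact add_comm _ _
    · exact add_comm _ _
    · rfl

/-- MODULE g_rt (2).  The terminals `r 2`, `r 0`, `r 1`. -/
theorem wv_tr (s t : E → V) {r : Fin 3 → V} (hr : Function.Injective r) (x : E → K) :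
    wv s t (fun i => r (i + 2)) x = (wv s t r x).tr := by
  have hr' : Function.Injective fun i : Fin 3 => r (i + 1) := fun i j h => by
    have := hr h
    exact add_right_cancel this
  have h1 := wv_rt s t hr' x
  rw [wv_rt s t hr x] at h1
  have h2 : (fun i : Fin 3 => r (i + 1 + 1)) = fun i : Fin 3 => r (i + 2) := by
    funext i
    rw [add_assoc]
    rfl
  have h3 : (fun i : Fin 3 => (fun j : Fin 3 => r (j + 1)) (i + 1)) = fun i : Fin 3 => r (i + 2) := h2
  rw [h3] at h1
  rw [h1]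
  rfl

private theorem gwi_sym {X : Type} [Fintype X] (g : E ≃ E') (s t : E → X) (s' t' : E' → X)
    (hs : ∀ e, s' (g e) = s e) (ht : ∀ e, t' (g e) = t e) (x : E' → K) :
    sym s' t' x = sym s t (x ∘ g) := by
  rw [sym_eq_tht, sym_eq_tht, tht_iso (Equiv.refl X) g s t s' t' hs ht 1 x]
  rfl

private theorem gwi_mer (g : E ≃ E') {W : Type} (ρ : V → W) (s t : E → V) (x : E' → K) :
    mer ρ (s ∘ g.symm) (t ∘ g.symm) x = mer ρ s t (x ∘ g) := by
  unfold mer
  exact @gwi_sym _ _ _ _ _ _ _ (Fintype.ofFinite _) g _ _ _ _ (fun e => by simp [Function.comp])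
    (fun e => by simp [Function.comp]) x

private theorem gwi_mer' (f : V ≃ V') (g : E ≃ E') {W W' : Type} (ρ : V → W) (ρ' : V' → W') (s t : E → V)
    (s' t' : E' → V') (hs : ∀ e, s' (g e) = f (s e)) (ht : ∀ e, t' (g e) = f (t e))
    (h : ∀ u v, ρ' (f u) = ρ' (f v) ↔ ρ u = ρ v) (x : E' → K) :
    mer ρ' s' t' x = mer ρ s t (x ∘ g) := by
  have e1 : s' = f ∘ (s ∘ g.symm) := by
    funext e
    have := hs (g.symm e)
    rw [g.apply_symm_apply] at this
    exact this
  have e2 : t' = f ∘ (t ∘ g.symm) := by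
    funext e
    have := ht (g.symm e)
    rw [g.apply_symm_apply] at this
    exact this
  rw [e1, e2, mer_comp (f : V → V') f.surjective ρ', mer_ker (ρ' ∘ f) ρ h, gwi_mer]

private theorem gwi_vec (f : V ≃ V') (g : E ≃ E') (s t : E → V) (s' t' : E' → V') (hs : ∀ e, s' (g e) = f (s e))
    (ht : ∀ e, t' (g e) = f (t e)) (a b c : V) (x : E' → K) :
    vec s' t' x (f a) (f b) (f c) = vec s t (x ∘ g) a b c := by
  have m2 : ∀ a b : V, mer (mg (f a) (f b)) s' t' x = mer (mg a b) s t (x ∘ g) := fun a b => by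
    refine gwi_mer' f g _ _ s t s' t' hs ht (fun u v => ?_) x
    rw [h30_mg_ker, h30_mg_ker]
    simp only [f.apply_eq_iff_eq]
  have m3 : mer (mg3 (f a) (f b) (f c)) s' t' x = mer (mg3 a b c) s t (x ∘ g) := by
    refine gwi_mer' f g _ _ s t s' t' hs ht (fun u v => ?_) x
    rw [h30_mg3_ker, h30_mg3_ker]
    simp only [f.apply_eq_iff_eq]
  unfold vec
  rw [m2, m2, m2, m3, sym_eq_tht, sym_eq_tht, tht_iso f g s t s' t' hs ht 1 x]
  rfl

/-- MODULE g_wi.

Proof.  `wv` is defined by the vector only, so it is enough that `vec s' t' x (f a) (f b) (f c) = vec s t (x ∘ g) a b c`.  `sym`: `sym_eq_tht`,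
`tht_iso`.  `mer (mg (f a) (f b)) s' t' x = mer (mg a b) s t (x ∘ g)`: `s' = f ∘ s ∘ g.symm`, `mer_comp` for `f` (surjective), `mer_ker` (the kernels of
`mg (f a) (f b) ∘ f` and `mg a b` agree), and the edges: `mer` is `sym` of a graph with the same edges (`unfold mer`), `tht_iso` with `Equiv.refl`. -/
theorem wv_iso (f : V ≃ V') (g : E ≃ E') (s t : E → V) (s' t' : E' → V') (hs : ∀ e, s' (g e) = f (s e))
    (ht : ∀ e, t' (g e) = f (t e)) (r : Fin 3 → V) (x : E' → K) :
    wv s' t' (fun i => f (r i)) x = wv s t r (x ∘ g) := by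
  unfold wv
  simp only [gwi_vec f g s t s' t' hs ht]

end

end Pool.Agent.Pf4
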