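import Pool.Agent.Pf4.GDefs
import Pool.Agent.Prm3.Main

/-!
# Half edges, subdivision of the edges
-/

set_option autoImplicit false

open scoped BigOperators Classical

namespace Pool.Agent.Pf4

open Pool.Agent.KG

section

variable {V E F : Type} [Fintype V] [Fintype E] [Fintype F]

/-- The end of a half edge. -/
def hd (s t : E → V) (x : E × Bool) : V := if x.2 = true then t x.1 else s x.1

theorem exists_hf (s t : E → V) (h3 : ∀ v, deg s t v = 3) :
    ∃ hf : V × Fin 3 ≃ E × Bool, ∀ p, hd s t (hf p) = p.1 := by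
  have h1 : ∀ v, Fintype.card {x : E × Bool // hd s t x = v} = 3 := by
    intro v
    have h2 : {x : E × Bool | hd s t x = v} =
        (fun e => (e, false)) '' {e | s e = v} ∪ (fun e => (e, true)) '' {e | t e = v} := by
      ext ⟨e, b⟩
      cases b
      · simp [hd]
      · simp [hd]
    have h4 : {x : E × Bool | hd s t x = v}.ncard = 3 := by
      rw [h2, Set.ncard_union_eq _ (Set.toFinite _) (Set.toFinite _),
        Set.ncard_image_of_injective _ (fun a b h => congrArg Prod.fst h),
        Set.ncard_image_of_injective _ (fun a b h => congrArg Prod.fst h)]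
      · exact h3 v
      · rw [Set.disjoint_left]
        rintro _ ⟨e, _, rfl⟩ ⟨e', _, h⟩
        have := congrArg Prod.snd h
        simp at this
    rw [← h4, ← Nat.card_coe_set_eq, Nat.card_eq_fintype_card]
    rfl
  let F : V × Fin 3 ≃ Σ v, {x : E × Bool // hd s t x = v} :=
    (Equiv.sigmaEquivProd V (Fin 3)).symm.trans
      (Equiv.sigmaCongrRight fun v => (Fintype.equivFinOfCardEq (h1 v)).symm)
  refine ⟨F.trans (Equiv.sigmaFiberEquiv (hd s t)), fun p => ?_⟩
  exact (F p).2.2
/-- The edges in `E` are subdivided, those in `F` are not: sources. -/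
def sbS (s : E ⊕ F → V) : (E × Bool) ⊕ F → E ⊕ V := Sum.elim (fun x => Sum.inl x.1) fun e => Sum.inr (s (Sum.inr e))

/-- Targets. -/
def sbT (s t : E ⊕ F → V) : (E × Bool) ⊕ F → E ⊕ V :=
  Sum.elim (fun x => Sum.inr (if x.2 = true then t (Sum.inl x.1) else s (Sum.inl x.1))) fun e => Sum.inr (t (Sum.inr e))

private def g_sb_f (A V : Type) : Option (A ⊕ V) ≃ Option A ⊕ V where
  toFun o := match o with
    | none => Sum.inl none
    | some (Sum.inl a) => Sum.inl (some a)
    | some (Sum.inr v) => Sum.inr v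
  invFun o := match o with
    | Sum.inl none => none
    | Sum.inl (some a) => some (Sum.inl a)
    | Sum.inr v => some (Sum.inr v)
  left_inv o := by rcases o with _ | a | v <;> rfl
  right_inv o := by rcases o with (_ | a) | v <;> rfl

private def g_sb_g (A F : Type) : Option (Option ((A × Bool) ⊕ F)) ≃ (Option A × Bool) ⊕ F where
  toFun o := match o with
    | none => Sum.inl (none, false)
    | some none => Sum.inl (none, true)
    | some (some (Sum.inl x)) => Sum.inl (some x.1, x.2)
    | some (some (Sum.inr e)) => Sum.inr e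
  invFun o := match o with
    | Sum.inl (none, false) => none
    | Sum.inl (none, true) => some none
    | Sum.inl (some a, b) => some (some (Sum.inl (a, b)))
    | Sum.inr e => some (some (Sum.inr e))
  left_inv o := by rcases o with _ | _ | ⟨a, b⟩ | e <;> rfl
  right_inv o := by rcases o with ⟨_ | a, _ | _⟩ | e <;> rfl

private def g_sb_h (A B : Type) : Option (A ⊕ B) ≃ A ⊕ Option B where
  toFun o := match o with
    | none => Sum.inr none
    | some (Sum.inl a) => Sum.inl a
    | some (Sum.inr v) => Sum.inr (some v)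
  invFun o := match o with
    | Sum.inr none => none
    | Sum.inl a => some (Sum.inl a)
    | Sum.inr (some v) => some (Sum.inr v)
  left_inv o := by rcases o with _ | a | v <;> rfl
  right_inv o := by rcases o with a | _ | v <;> rfl

private def g_sb_k (A F : Type) : A ⊕ Option F ≃ Option A ⊕ F where
  toFun o := match o with
    | Sum.inl a => Sum.inl (some a)
    | Sum.inr none => Sum.inl none
    | Sum.inr (some e) => Sum.inr e
  invFun o := match o with
    | Sum.inl (some a) => Sum.inl a
    | Sum.inl none => Sum.inr none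
    | Sum.inr e => Sum.inr (some e)
  left_inv o := by rcases o with a | _ | e <;> rfl
  right_inv o := by rcases o with (_ | a) | e <;> rfl

private theorem g_sb_all (E : Type) [Fintype E] : ∀ (V F : Type) [Fintype V] [Fintype F] (s t : E ⊕ F → V)
    (_ : ∀ e, s (Sum.inl e) ≠ t (Sum.inl e)) (X : FinField),
    ns (sbS s) (sbT s t) X = X.q ^ Fintype.card E * ns s t X := by
  refine Fintype.induction_empty_option (P := fun E _ => ∀ (V F : Type) [Fintype V] [Fintype F] (s t : E ⊕ F → V)
    (_ : ∀ e, s (Sum.inl e) ≠ t (Sum.inl e)) (X : FinField),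
    ns (sbS s) (sbT s t) X = X.q ^ Fintype.card E * ns s t X) ?_ ?_ ?_ E
  · intro A B hB e ih V F _ _ s t hl X
    let _ : Fintype A := Fintype.ofEquiv B e.symm
    have h := ih V F (fun x => s (Sum.map e id x)) (fun x => t (Sum.map e id x)) (fun a => hl (e a)) X
    have h1 : ns (sbS s) (sbT s t) = ns (sbS fun x => s (Sum.map e id x))
        (sbT (fun x => s (Sum.map e id x)) fun x => t (Sum.map e id x)) := by
      refine Prm3.ns_key (Equiv.sumCongr e (Equiv.refl V))
        (Equiv.sumCongr (Equiv.prodCongr e (Equiv.refl Bool)) (Equiv.refl F)) _ _ _ _ fun o => Or.inl ?_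
      rcases o with ⟨a, b⟩ | f
      · rcases b with _ | _ <;> exact ⟨rfl, rfl⟩
      · exact ⟨rfl, rfl⟩
    have h2 : ns s t = ns (fun x => s (Sum.map e id x)) fun x => t (Sum.map e id x) := by
      refine Prm3.ns_key (Equiv.refl V) (Equiv.sumCongr e (Equiv.refl F)) _ _ _ _ fun o => Or.inl ?_
      rcases o with a | f <;> exact ⟨rfl, rfl⟩
    rw [h1, h2, ← Fintype.card_congr e]
    exact h
  · intro V F _ _ s t hl X
    have h1 : ns s t = ns (sbS s) (sbT s t) := by
      refine Prm3.ns_key (Equiv.emptySum PEmpty V)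
        (Equiv.sumCongr (Equiv.equivOfIsEmpty (PEmpty × Bool) PEmpty) (Equiv.refl F)) _ _ _ _ fun o => Or.inl ?_
      rcases o with ⟨a, b⟩ | f
      · exact a.elim
      · exact ⟨rfl, rfl⟩
    rw [← h1, Fintype.card_eq_zero, pow_zero, one_mul]
  · intro A hA ih V F _ _ s t hl X
    have h0 := ih V (Option F) (fun x => s (g_sb_k A F x)) (fun x => t (g_sb_k A F x)) (fun a => hl (some a)) X
    have h1 : ns s t = ns (fun x => s (g_sb_k A F x)) fun x => t (g_sb_k A F x) :=
      Prm3.ns_key (Equiv.refl V) (g_sb_k A F) _ _ _ _ fun o => Or.inl ⟨rfl, rfl⟩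
    have h2 : ns (sbS fun x => s (g_sb_k A F x)) (sbT (fun x => s (g_sb_k A F x)) fun x => t (g_sb_k A F x)) =
        ns (ae (Sum.inr (s (Sum.inl none))) (sbS fun x => s (Sum.map some id x)))
          (ae (Sum.inr (t (Sum.inl none))) (sbT (fun x => s (Sum.map some id x)) fun x => t (Sum.map some id x))) := by
      refine Prm3.ns_key (Equiv.refl (A ⊕ V)) (g_sb_h (A × Bool) F) _ _ _ _ fun o => Or.inl ?_
      rcases o with _ | ⟨a, _ | _⟩ | f <;> exact ⟨rfl, rfl⟩
    have hne : (Sum.inr (s (Sum.inl none)) : A ⊕ V) ≠ Sum.inr (t (Sum.inl none)) := fun h =>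
      hl none (Sum.inr_injective h)
    have h3 := KGU.ns_subdiv (Sum.inr (s (Sum.inl none)) : A ⊕ V) (Sum.inr (t (Sum.inl none))) hne
      (sbS fun x => s (Sum.map some id x))
      (sbT (fun x => s (Sum.map some id x)) fun x => t (Sum.map some id x)) X
    have h4 : ns (sbS s) (sbT s t) =
        ns (ae (some (Sum.inr (s (Sum.inl none)) : A ⊕ V)) (ae none (some ∘ sbS fun x => s (Sum.map some id x))))
          (ae none (ae (some (Sum.inr (t (Sum.inl none)) : A ⊕ V))
            (some ∘ sbT (fun x => s (Sum.map some id x)) fun x => t (Sum.map some id x)))) := by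
      refine Prm3.ns_key (g_sb_f A V) (g_sb_g A F) _ _ _ _ fun o => ?_
      rcases o with _ | _ | ⟨a, _ | _⟩ | f
      · exact Or.inr ⟨rfl, rfl⟩
      · exact Or.inl ⟨rfl, rfl⟩
      · exact Or.inl ⟨rfl, rfl⟩
      · exact Or.inl ⟨rfl, rfl⟩
      · exact Or.inl ⟨rfl, rfl⟩
    rw [h4, h3, ← h2, h0, h1, Fintype.card_option, pow_succ]
    ring

/-- MODULE g_sb (1).

Proof.  Induction on `E` (`Fintype.induction_empty_option`, for all `F`, `s`, `t`; or first for `E = Fin m` by induction on `m`).  `E` empty: an isomorphism (`Prm3.ns_key`).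
`Option E`: the edge `none` is moved to `F`: by induction for `E`, `Option F` (the graph `E ⊕ Option F → V` is isomorphic to `s`, `t`) the graph where `E` is subdivided and
`none` is not has `q ^ card E * ns`; it is `ae (inr a) _`, `ae (inr b) _` (`a = s (inl none) ≠ b = t (inl none)`) up to isomorphism, and the graph with `none` subdivided too is
`ae (some (inr a)) (ae none (some ∘ _))`, `ae none (ae (some (inr b)) (some ∘ _))`, up to isomorphism: `KGU.ns_subdiv`, `Prm3.ns_key` (orientations may be exchanged). -/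
theorem ns_sb (s t : E ⊕ F → V) (hl : ∀ e, s (Sum.inl e) ≠ t (Sum.inl e)) (X : FinField) :
    ns (sbS s) (sbT s t) X = X.q ^ Fintype.card E * ns s t X :=
  g_sb_all E V F s t hl X

/-- MODULE g_sb (2).  `ns_sb` with `F = Empty`, `Prm3.ns_key`. -/
theorem NS_sub (s t : E → V) (hl : LL s t) (K : Type) [Field K] [Fintype K] :
    (NS (fun x : E × Bool => (Sum.inl x.1 : E ⊕ V)) (fun x => Sum.inr (hd s t x)) K : ℝ) =
      qr K ^ Fintype.card E * (NS s t K : ℝ) := by
  have h := ns_sb (F := Empty) (Sum.elim s Empty.elim) (Sum.elim t Empty.elim) (fun e => hl e) (FinField.mk K)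
  have h1 : ns s t = ns (Sum.elim s Empty.elim) (Sum.elim t Empty.elim) := by
    refine Prm3.ns_key (Equiv.refl V) (Equiv.sumEmpty E Empty) _ _ _ _ fun o => Or.inl ?_
    rcases o with e | e
    · exact ⟨rfl, rfl⟩
    · exact e.elim
  have h2 : ns (fun x : E × Bool => (Sum.inl x.1 : E ⊕ V)) (fun x => Sum.inr (hd s t x)) =
      ns (sbS (Sum.elim s Empty.elim)) (sbT (Sum.elim s Empty.elim) (Sum.elim t Empty.elim)) := by
    refine Prm3.ns_key (Equiv.refl (E ⊕ V)) (Equiv.sumEmpty (E × Bool) Empty) _ _ _ _ fun o => Or.inl ?_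
    rcases o with e | e
    · exact ⟨rfl, rfl⟩
    · exact e.elim
  rw [← h1, ← h2] at h
  have h3 : ((NS (fun x : E × Bool => (Sum.inl x.1 : E ⊕ V)) (fun x => Sum.inr (hd s t x)) K : ℕ) : ℤ) =
      (Fintype.card K : ℤ) ^ Fintype.card E * ((NS s t K : ℕ) : ℤ) := by
    rw [← Nat.card_eq_fintype_card (α := K)]
    exact h
  have h4 := congrArg (Int.cast (R := ℝ)) h3
  push_cast at h4
  exact h4

end

theorem con_prim (H : Prm3.PrimCubic false) : Prm3.Con H.s H.t 3 := by
  intro U hU hU'
  have hc : Uᶜ.Nonempty := Set.nonempty_compl.2 hU'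
  have h1 : 0 < U.ncard := (Set.ncard_pos (Set.toFinite _)).2 hU
  have h2 : 0 < Uᶜ.ncard := (Set.ncard_pos (Set.toFinite _)).2 hc
  by_cases h3 : U.ncard = 1
  · obtain ⟨v, rfl⟩ := Set.ncard_eq_one.1 h3
    rw [Prm3.cs_single _ _ H.noloop, H.deg_eq]
  · by_cases h4 : Uᶜ.ncard = 1
    · obtain ⟨v, hv⟩ := Set.ncard_eq_one.1 h4
      rw [← Prm3.cs_compl, hv, Prm3.cs_single _ _ H.noloop, H.deg_eq]
    · have h5 := H.cyc4 U (by omega) (by omega)
      rw [Prm3.cs_ncard]
      omega
end Pool.Agent.Pf4
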