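import Pool.Agent.Pf4.GLet

/-!
# Triangles, stars and letters: sums over the values of a network
-/

set_option autoImplicit false

open scoped BigOperators

namespace Pool.Agent.Pf4

open Pool.Agent.KG

section

variable {V V' E E' K : Type} [Fintype V] [Fintype V'] [Fintype E] [Fintype E'] [Field K] [Fintype K]

omit [Fintype K] in
private theorem gtri_sym {X : Type} [Fintype X] (g : E ≃ E') (s t : E → X) (s' t' : E' → X)
    (h : ∀ e, (s' (g e) = s e ∧ t' (g e) = t e) ∨ (s' (g e) = t e ∧ t' (g e) = s e)) (x : E' → K) :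
    sym s' t' x = sym s t (x ∘ g) := by
  rw [sym_eq_tht, sym_eq_tht, tht_iso (Equiv.refl X) g (s' ∘ g) (t' ∘ g) s' t' (fun _ => rfl) (fun _ => rfl) 1 x]
  exact tht_flip s t (s' ∘ g) (t' ∘ g) h 1 (x ∘ g)

/-- The edges of a triangle or a star. -/
private def gtri_g (p : Equiv.Perm (Fin 3)) : Option (Option (Option E)) ≃ E ⊕ Fin 3 where
  toFun := fun o => o.elim (Sum.inr (p 0)) fun o => o.elim (Sum.inr (p 1)) fun o => o.elim (Sum.inr (p 2)) Sum.inl
  invFun := Sum.elim (fun e => some (some (some e)))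
    fun i => (![none, some none, some (some none)] : Fin 3 → Option (Option (Option E))) (p.symm i)
  left_inv := by
    rintro (_ | _ | _ | e)
    · simp
    · simp
    · simp
    · simp
  right_inv := by
    rintro (e | i)
    · simp
    · obtain ⟨j, rfl⟩ := p.surjective i
      fin_cases j <;> simp

/-- MODULE g_tri (1).

Proof.  `E ⊕ Fin 3 ≃ Option (Option (Option E))`: the graph is `ae (r 1) (ae (r 2) (ae (r 0) s))`, `ae (r 2) (ae (r 0) (ae (r 1) t))` (up to the exchange of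
the two ends of an edge; `sym` does not change), `sym` is the entry `A` of `vec`, `vec_ae12`, `vec_ae13`, `vec_ae23`, and `wv_spec`.  The value is
`y0 y1 y2 A + y0 y1 P12 + y0 y2 P13 + y1 y2 P23 + (y0 + y1 + y2) C`. -/
theorem sym_tr (s t : E → V) {r : Fin 3 → V} (hr : Function.Injective r) (y : E ⊕ Fin 3 → K) :
    sym (trS s r) (trT t r) y = W5.pr (wv s t r fun e => y (.inl e))
      ⟨y (.inr 0) + y (.inr 1) + y (.inr 2), y (.inr 1) * y (.inr 2), y (.inr 0) * y (.inr 2),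
        y (.inr 0) * y (.inr 1), y (.inr 0) * y (.inr 1) * y (.inr 2)⟩ := by
  have h01 : r 0 ≠ r 1 := fun h => absurd (hr h) (by decide)
  have h02 : r 0 ≠ r 2 := fun h => absurd (hr h) (by decide)
  have h12 : r 1 ≠ r 2 := fun h => absurd (hr h) (by decide)
  have e1 : sym (trS s r) (trT t r) y = sym (ae (r 1) (ae (r 0) (ae (r 0) s)))
      (ae (r 2) (ae (r 2) (ae (r 1) t))) (y ∘ gtri_g (Equiv.refl _)) := by
    refine gtri_sym (gtri_g (Equiv.refl _)) _ _ _ _ ?_ y
    rintro (_ | _ | _ | e)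
    · exact Or.inl ⟨rfl, rfl⟩
    · exact Or.inr ⟨rfl, rfl⟩
    · exact Or.inl ⟨rfl, rfl⟩
    · exact Or.inl ⟨rfl, rfl⟩
  have e2 : ∀ z : Option (Option (Option E)) → K, sym (ae (r 1) (ae (r 0) (ae (r 0) s)))
      (ae (r 2) (ae (r 2) (ae (r 1) t))) z =
      (vec (ae (r 1) (ae (r 0) (ae (r 0) s))) (ae (r 2) (ae (r 2) (ae (r 1) t))) z (r 0) (r 1) (r 2)).A :=
    fun _ => rfl
  have h3 := (wv_spec s t hr fun e => y (.inl e)).2
  rw [e1, e2, vec_ae23 _ _ _ _ _ _ h01 h02 h12, vec_ae13 _ _ _ _ _ _ h01 h02 h12,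
    vec_ae12 _ _ _ _ _ _ h01 h02 h12]
  have e3 : (((y ∘ gtri_g (Equiv.refl (Fin 3))) ∘ some) ∘ some) ∘ some = fun e : E => y (.inl e) := rfl
  have v2 : ((y ∘ gtri_g (Equiv.refl (Fin 3))) ∘ some) (some (none : Option E)) = y (.inr 2) := rfl
  rw [e3, h3]
  show y (.inr 0) * (y (.inr 1) * (y (.inr 2) * (wv s t r fun e => y (.inl e)).x0 +
    ((wv s t r fun e => y (.inl e)).x1 + (wv s t r fun e => y (.inl e)).x2)) +
    (y (.inr 2) * ((wv s t r fun e => y (.inl e)).x1 + (wv s t r fun e => y (.inl e)).x3) +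
      (wv s t r fun e => y (.inl e)).x4)) +
    (y (.inr 1) * (y (.inr 2) * ((wv s t r fun e => y (.inl e)).x2 + (wv s t r fun e => y (.inl e)).x3) +
      (wv s t r fun e => y (.inl e)).x4) + y (.inr 2) * (wv s t r fun e => y (.inl e)).x4) = _
  unfold W5.pr
  ring

/-- MODULE g_tri (2).

Proof.  `NS_star` (KG/Cnt.lean) has the computation: `sym (starS a b s) (starT c t) x = (((v.U z).T13 x₁).T23 x₂).A`; relabel the edges (and orientations), or
`mer_lev` with `m = 1` and the three edges `(inl i, inr 0, y i)`. -/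
theorem sym_st (s t : E → V) {r : Fin 3 → V} (hr : Function.Injective r) (y : E ⊕ Fin 3 → K) :
    sym (stS s r) (stT t) y = W5.pr (wv s t r fun e => y (.inl e))
      ⟨1, y (.inr 0), y (.inr 1), y (.inr 2),
        y (.inr 0) * y (.inr 1) + y (.inr 0) * y (.inr 2) + y (.inr 1) * y (.inr 2)⟩ := by
  have h01 : r 0 ≠ r 1 := fun h => absurd (hr h) (by decide)
  have h02 : r 0 ≠ r 2 := fun h => absurd (hr h) (by decide)
  have h12 : r 1 ≠ r 2 := fun h => absurd (hr h) (by decide)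
  have k1 : (some (r 0) : Option V) ≠ some (r 1) := fun h => h01 (Option.some.inj h)
  have k2 : (some (r 0) : Option V) ≠ none := Option.some_ne_none _
  have k3 : (some (r 1) : Option V) ≠ none := Option.some_ne_none _
  have e1 : sym (stS s r) (stT t) y = sym (starS (r 0) (r 1) s) (starT (r 2) t)
      (y ∘ gtri_g (Equiv.swap 0 1)) := by
    refine gtri_sym (gtri_g (Equiv.swap 0 1)) _ _ _ _ ?_ y
    have p0 : Equiv.swap (0 : Fin 3) 1 0 = 1 := by decide
    have p1 : Equiv.swap (0 : Fin 3) 1 1 = 0 := by decide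
    have p2 : Equiv.swap (0 : Fin 3) 1 2 = 2 := by decide
    rintro (_ | _ | _ | e)
    · refine Or.inl ⟨?_, rfl⟩
      show some (r (Equiv.swap (0 : Fin 3) 1 0)) = some (r 1)
      rw [p0]
    · refine Or.inl ⟨?_, rfl⟩
      show some (r (Equiv.swap (0 : Fin 3) 1 1)) = some (r 0)
      rw [p1]
    · refine Or.inr ⟨?_, rfl⟩
      show some (r (Equiv.swap (0 : Fin 3) 1 2)) = some (r 2)
      rw [p2]
    · exact Or.inl ⟨rfl, rfl⟩
  have e2 : ∀ z : Option (Option (Option E)) → K, sym (starS (r 0) (r 1) s) (starT (r 2) t) z =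
      (vec (starS (r 0) (r 1) s) (starT (r 2) t) z (some (r 0)) (some (r 1)) none).A := fun _ => rfl
  have h3 := (wv_spec s t hr fun e => y (.inl e)).2
  rw [e1, e2, starS, starT, vec_ae23 _ _ _ _ _ _ k1 k2 k3, vec_ae13 _ _ _ _ _ _ k1 k2 k3,
    vec_new _ _ _ _ _ _ h01 h02 h12]
  have e3 : (((y ∘ gtri_g (Equiv.swap (0 : Fin 3) 1)) ∘ some) ∘ some) ∘ some = fun e : E => y (.inl e) := rfl
  have y0 : (y ∘ gtri_g (Equiv.swap (0 : Fin 3) 1)) (none : Option (Option (Option E))) = y (.inr 1) := by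
    show y (.inr (Equiv.swap (0 : Fin 3) 1 0)) = _
    rw [show Equiv.swap (0 : Fin 3) 1 0 = 1 by decide]
  have y1 : ((y ∘ gtri_g (Equiv.swap (0 : Fin 3) 1)) ∘ some) (none : Option (Option E)) = y (.inr 0) := by
    show y (.inr (Equiv.swap (0 : Fin 3) 1 1)) = _
    rw [show Equiv.swap (0 : Fin 3) 1 1 = 0 by decide]
  have y2 : (((y ∘ gtri_g (Equiv.swap (0 : Fin 3) 1)) ∘ some) ∘ some) (none : Option E) = y (.inr 2) := by
    show y (.inr (Equiv.swap (0 : Fin 3) 1 2)) = _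
    rw [show Equiv.swap (0 : Fin 3) 1 2 = 2 by decide]
  rw [e3, h3, y0, y1, y2]
  show y (.inr 1) * (y (.inr 0) * (wv s t r fun e => y (.inl e)).x0 +
      (y (.inr 2) * (wv s t r fun e => y (.inl e)).x0 +
        ((wv s t r fun e => y (.inl e)).x1 + (wv s t r fun e => y (.inl e)).x3))) +
    (y (.inr 0) * (y (.inr 2) * (wv s t r fun e => y (.inl e)).x0 +
        ((wv s t r fun e => y (.inl e)).x2 + (wv s t r fun e => y (.inl e)).x3)) +
      (y (.inr 2) * ((wv s t r fun e => y (.inl e)).x1 + (wv s t r fun e => y (.inl e)).x2) +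
        (wv s t r fun e => y (.inl e)).x4)) = _
  unfold W5.pr
  ring

open Classical in
private theorem gsm_cnt (F : (E → K) → (Fin 3 → K) → K) (G : (E ⊕ Fin 3 → K) → K)
    (h : ∀ z, G z = F (fun e => z (.inl e)) (fun i => z (.inr i))) :
    ∑ x : E → K, (∑ y : Fin 3 → K, if F x y = 0 then (0 : ℝ) else 1) =
      qr K ^ (Fintype.card E + 3) - (Nat.card {z : E ⊕ Fin 3 → K // G z = 0} : ℝ) := by
  have h1 : ∑ x : E → K, (∑ y : Fin 3 → K, if F x y = 0 then (0 : ℝ) else 1) =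
      ∑ z : E ⊕ Fin 3 → K, if G z = 0 then (0 : ℝ) else 1 := by
    rw [← Fintype.sum_prod_type']
    refine Fintype.sum_equiv (Equiv.sumArrowEquivProdArrow E (Fin 3) K).symm _ _ fun p => ?_
    rw [h]
    rfl
  have h2 : ∑ z : E ⊕ Fin 3 → K, (if G z = 0 then (0 : ℝ) else 1) +
      ∑ z : E ⊕ Fin 3 → K, (if G z = 0 then (1 : ℝ) else 0) = qr K ^ (Fintype.card E + 3) := by
    rw [← Finset.sum_add_distrib]
    have h3 : ∀ z : E ⊕ Fin 3 → K, ((if G z = 0 then (0 : ℝ) else 1) + (if G z = 0 then (1 : ℝ) else 0)) = 1 := by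
      intro z
      split_ifs <;> norm_num
    rw [Finset.sum_congr rfl fun z _ => h3 z]
    simp [qr, Fintype.card_sum]
  have h4 : ∑ z : E ⊕ Fin 3 → K, (if G z = 0 then (1 : ℝ) else 0) = (Nat.card {z : E ⊕ Fin 3 → K // G z = 0} : ℝ) := by
    rw [Nat.card_eq_fintype_card, Fintype.card_subtype, Finset.sum_boole]
  rw [h1]
  linarith

/-- MODULE g_sm (1).

Proof.  `SM T0 = ∑ x, ∑ y, [.. ≠ 0]` over `E ⊕ Fin 3 → K` (`Equiv.sumArrowEquivProdArrow`), by `sym_tr` the number of `y` with `sym ≠ 0`. -/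
theorem SM_T0 (s t : E → V) {r : Fin 3 → V} (hr : Function.Injective r) :
    SM s t r K T0 = qr K ^ (Fintype.card E + 3) - (NS (trS s r) (trT t r) K : ℝ) := by
  unfold SM T0 NS
  exact gsm_cnt (K := K) (E := E)
    (fun x y => W5.pr (wv s t r x) (⟨y 0 + y 1 + y 2, y 1 * y 2, y 0 * y 2, y 0 * y 1, y 0 * y 1 * y 2⟩ : W5 K))
    (fun z => sym (trS s r) (trT t r) z) fun z => sym_tr s t hr z

/-- MODULE g_sm (2). -/
theorem SM_St (s t : E → V) {r : Fin 3 → V} (hr : Function.Injective r) :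
    SM s t r K St = qr K ^ (Fintype.card E + 3) - (NS (stS s r) (stT t) K : ℝ) := by
  unfold SM St NS
  exact gsm_cnt (K := K) (E := E)
    (fun x y => W5.pr (wv s t r x) (⟨1, y 0, y 1, y 2, y 0 * y 1 + y 0 * y 2 + y 1 * y 2⟩ : W5 K))
    (fun z => sym (stS s r) (stT t) z) fun z => sym_st s t hr z

/-- MODULE g_sm (3).  `wv_ex`. -/
theorem SM_op (x : Lt) (s t : E → V) {r : Fin 3 → V} (hr : Function.Injective r) (f : W5 K → ℝ) :
    qr K ^ x.n * SM s t r K (x.op f) = SM (exS x s r) (exT x t) (exR x r) K f := by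
  classical
  have hq : qr K ^ x.n ≠ 0 := by
    have : (0 : ℝ) < qr K := by
      unfold qr
      exact_mod_cast Fintype.card_pos
    exact pow_ne_zero _ this.ne'
  unfold SM Lt.op
  rw [Finset.mul_sum]
  have h1 : ∀ z : E → K, qr K ^ x.n * ((∑ y : Fin x.n → K, f (x.X y (wv s t r z))) / qr K ^ x.n) =
      ∑ y : Fin x.n → K, f (x.X y (wv s t r z)) := fun z => mul_div_cancel₀ _ hq
  have h2 : ∑ z : E → K, qr K ^ x.n * ((∑ y : Fin x.n → K, f (x.X y (wv s t r z))) / qr K ^ x.n) =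
      ∑ z : E → K, ∑ y : Fin x.n → K, f (x.X y (wv s t r z)) := Finset.sum_congr rfl fun z _ => h1 z
  have h3 : ∑ z : E → K, ∑ y : Fin x.n → K, f (x.X y (wv s t r z)) =
      ∑ p : (E → K) × (Fin x.n → K), f (x.X p.2 (wv s t r p.1)) :=
    (Fintype.sum_prod_type' fun (z : E → K) (y : Fin x.n → K) => f (x.X y (wv s t r z))).symm
  rw [h2, h3]
  have hp : ∀ p : (E → K) × (Fin x.n → K), f (x.X p.2 (wv s t r p.1)) =
      f (wv (exS x s r) (exT x t) (exR x r) ((Equiv.sumArrowEquivProdArrow E (Fin x.n) K).symm p)) := by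
    intro p
    rw [wv_ex x s t hr]
    rfl
  refine (Fintype.sum_equiv (Equiv.sumArrowEquivProdArrow E (Fin x.n) K).symm
    (fun p : (E → K) × (Fin x.n → K) => f (x.X p.2 (wv s t r p.1)))
    (fun z : E ⊕ Fin x.n → K => f (wv (exS x s r) (exT x t) (exR x r) z)) hp).trans ?_
  exact Finset.sum_congr (Finset.ext fun z => iff_of_true (@Finset.mem_univ _ (_) z) (@Finset.mem_univ _ (_) z)) fun _ _ => rfl

/-- MODULE g_sm (4).  `wv_iso`, `Equiv.sum_comp`. -/
theorem SM_iso (f : V ≃ V') (g : E ≃ E') (s t : E → V) (s' t' : E' → V') (hs : ∀ e, s' (g e) = f (s e))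
    (ht : ∀ e, t' (g e) = f (t e)) (r : Fin 3 → V) (r' : Fin 3 → V') (hr : ∀ i, r' i = f (r i)) (F : W5 K → ℝ) :
    SM s' t' r' K F = SM s t r K F := by
  classical
  have hr' : r' = fun i => f (r i) := funext hr
  subst hr'
  unfold SM
  refine Fintype.sum_equiv (Equiv.arrowCongr g.symm (Equiv.refl K)) _ _ fun x => ?_
  rw [wv_iso f g s t s' t' hs ht r x]
  rfl

/-- MODULE g_sm (5).  `wv_spec`. -/
theorem wv_IS (s t : E → V) {r : Fin 3 → V} (hr : Function.Injective r) (x : E → K) :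
    wv s t r x = 0 ∨ wv s t r x ∈ IS K := by
  by_cases h : wv s t r x = 0
  · exact Or.inl h
  · refine Or.inr ?_
    classical
    unfold IS
    rw [Finset.mem_filter]
    exact ⟨Finset.mem_univ _, (wv_spec s t hr x).1, h⟩

/-- MODULE g_sm (6): `NS` of isomorphic graphs.  `tht_iso` (as `KGU.nk_iso'`). -/
theorem NS_iso (f : V ≃ V') (g : E ≃ E') (s t : E → V) (s' t' : E' → V') (hs : ∀ e, s' (g e) = f (s e))
    (ht : ∀ e, t' (g e) = f (t e)) : NS s' t' K = NS s t K := by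
  unfold NS
  refine Nat.card_congr (Equiv.subtypeEquiv (Equiv.arrowCongr g.symm (Equiv.refl K)) fun x => ?_)
  rw [sym_eq_tht, tht_iso f g s t s' t' hs ht, sym_eq_tht]
  have h1 : ((Equiv.arrowCongr g.symm (Equiv.refl K)) x : E → K) = x ∘ g := rfl
  have h2 : ((1 : E' → K) ∘ g) = 1 := rfl
  rw [h1, h2]

end

end Pool.Agent.Pf4
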