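import Pool.Agent.Pf4.Defs

/-!
# The letters, expressions in the letters, norms on the quadric
-/

set_option autoImplicit false

open scoped BigOperators Classical

namespace Pool.Agent.Pf4

/-- The four letters: the move `a` for the three pairs of terminals (`12`, `23`, `31`) and the move `h`. -/
inductive Lt
  | a | b | c | h
  deriving DecidableEq, Fintype

/-- The number of edges of a letter. -/
def Lt.n : Lt → ℕ
  | .a => 4
  | .b => 4
  | .c => 4
  | .h => 6

section ops

variable {K : Type} [Field K]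

/-- The linear map of a letter with given values of the edge variables. -/
def Lt.X : (x : Lt) → (Fin x.n → K) → W5 K → W5 K
  | .a, y, w => XA (y (0 : Fin 4)) (y (1 : Fin 4)) (y (2 : Fin 4)) (y (3 : Fin 4)) w
  | .b, y, w => (XA (y (0 : Fin 4)) (y (1 : Fin 4)) (y (2 : Fin 4)) (y (3 : Fin 4)) w.rt).tr
  | .c, y, w => (XA (y (0 : Fin 4)) (y (1 : Fin 4)) (y (2 : Fin 4)) (y (3 : Fin 4)) w.tr).rt
  | .h, y, w => XH (y (0 : Fin 6)) (y (1 : Fin 6)) (y (2 : Fin 6)) (y (3 : Fin 6)) (y (4 : Fin 6)) (y (5 : Fin 6)) w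

variable [Fintype K]

/-- The number of elements of the field. -/
noncomputable def qr (K : Type) [Fintype K] : ℝ := (Fintype.card K : ℝ)

/-- The operator of a letter: the mean value over the edge variables. -/
noncomputable def Lt.op (x : Lt) (f : W5 K → ℝ) (w : W5 K) : ℝ :=
  (∑ y : Fin x.n → K, f (x.X y w)) / qr K ^ x.n

/-- Functions which are constant on lines and vanish at `0`. -/
def Hm (f : W5 K → ℝ) : Prop := f 0 = 0 ∧ ∀ (r : K) (w : W5 K), r ≠ 0 → f (w.sm r) = f w

/-- The function `1` on the nonzero vectors. -/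
noncomputable def U (w : W5 K) : ℝ := if w = 0 then 0 else 1

/-- The nonzero isotropic vectors. -/
noncomputable def IS (K : Type) [Field K] [Fintype K] : Finset (W5 K) := {w | w.Iso ∧ w ≠ 0}

/-- The scalar product. -/
noncomputable def ip (f g : W5 K → ℝ) : ℝ := ∑ w ∈ IS K, f w * g w

/-- The square of the norm. -/
noncomputable def N2 (f : W5 K → ℝ) : ℝ := ∑ w ∈ IS K, f w ^ 2

/-- The mean value. -/
noncomputable def mean (f : W5 K → ℝ) : ℝ := (∑ w ∈ IS K, f w) / (IS K).card

/-- The deviation from the mean value. -/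
noncomputable def dv (f : W5 K → ℝ) (w : W5 K) : ℝ := f w - mean f * U w

/-- The operator of the pairing. -/
noncomputable def Dp (f : W5 K → ℝ) (v : W5 K) : ℝ := ∑ w ∈ IS K, if W5.pr v w = 0 then 0 else f w

/-- The function of the triangle: the number of values of three new edges between the terminals for which the value of
the graph is not zero. -/
noncomputable def T0 (w : W5 K) : ℝ :=
  ∑ y : Fin 3 → K, if W5.pr w ⟨y 0 + y 1 + y 2, y 1 * y 2, y 0 * y 2, y 0 * y 1, y 0 * y 1 * y 2⟩ = 0 then 0 else 1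

/-- The function of the star: the same for a new vertex which is joined with the three terminals. -/
noncomputable def St (w : W5 K) : ℝ :=
  ∑ y : Fin 3 → K, if W5.pr w ⟨1, y 0, y 1, y 2, y 0 * y 1 + y 0 * y 2 + y 1 * y 2⟩ = 0 then 0 else 1

/-- The indicator function of the isolated vector with only `x4` nonzero. -/
noncomputable def dJ (w : W5 K) : ℝ := if w ≠ 0 ∧ w.x0 = 0 ∧ w.x1 = 0 ∧ w.x2 = 0 ∧ w.x3 = 0 then 1 else 0

end ops

/-- Expressions in the letters with coefficients in `ℤ[t]`. -/
inductive Ex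
  | one
  | lt (x : Lt)
  | mul (e f : Ex)
  | add (e f : Ex)
  | sm (p : Polynomial ℤ) (e : Ex)

/-- The value of a polynomial at `t = 1 / q`. -/
noncomputable def tv (K : Type) [Fintype K] (p : Polynomial ℤ) : ℝ := p.eval₂ (Int.castRingHom ℝ) (qr K)⁻¹

/-- The operator of an expression. -/
noncomputable def Ex.ev {K : Type} [Field K] [Fintype K] : Ex → (W5 K → ℝ) → W5 K → ℝ
  | .one, f => f
  | .lt x, f => x.op f
  | .mul e g, f => e.ev (g.ev f)
  | .add e g, f => fun w => e.ev f w + g.ev f w
  | .sm p e, f => fun w => tv K p * e.ev f w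

/-- The reversed expression. -/
def Ex.rev : Ex → Ex
  | .one => .one
  | .lt x => .lt x
  | .mul e f => .mul f.rev e.rev
  | .add e f => .add e.rev f.rev
  | .sm p e => .sm p e.rev

/-- The expressions of class `k`: combinations of products with at least `k` disjoint pairs of neighbouring distinct
letters. -/
inductive Cls : ℕ → Ex → Prop
  | zero (e : Ex) : Cls 0 e
  | pair (x y : Lt) (h : x ≠ y) : Cls 1 (.mul (.lt x) (.lt y))
  | mul {k l : ℕ} {e f : Ex} : Cls k e → Cls l f → Cls (k + l) (.mul e f)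
  | add {k : ℕ} {e f : Ex} : Cls k e → Cls k f → Cls k (.add e f)
  | sm {k : ℕ} {e : Ex} (p : Polynomial ℤ) : Cls k e → Cls k (.sm p e)
  | mono {k l : ℕ} {e : Ex} : l ≤ k → Cls k e → Cls l e

/-- Families of functions. -/
abbrev Fam : Type 1 := ∀ (K : Type) [Field K] [Fintype K], W5 K → ℝ

/-- `f` is approximated by `q ^ N * e T0` with errors `O(q ^ (-D))`, for every `D`. -/
def InC (f : Fam) : Prop :=
  ∀ D : ℕ, ∃ (e : Ex) (N : ℕ) (C : ℝ), ∀ (K : Type) [Field K] [Fintype K] (w : W5 K), w ∈ IS K →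
    |f K w - qr K ^ N * e.ev T0 w| * qr K ^ D ≤ C

/-- `f` is, up to a factor in `1 + t ℤ[t]`, the value at `U` of an expression of class `k`. -/
def Mem (k : ℕ) (f : Fam) : Prop :=
  ∃ (e : Ex) (u : Polynomial ℤ), Cls k e ∧ u.coeff 0 = 1 ∧
    ∀ (K : Type) [Field K] [Fintype K] (w : W5 K), w ∈ IS K → e.ev U w = tv K u * f K w

end Pool.Agent.Pf4
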